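import Pool.Agent.Lib.MP_de94ef_pr.Q.Frame

-- part Pool.Agent.Lib.MP_de94ef_pr.Q.Prob
section

/-!
General probability: mixing of environments, Harris inequality, independence, small variance.
-/

open MeasureTheory ProbabilityTheory Set Real Function Filter Topology
open scoped ENNReal NNReal

namespace Pool.Agent.Lib.MP_de94ef_pr.Q

lemma mix_compl (S : Set EE) (x y : Env) : mix Sᶜ y x = mix S x y := by
  funext e
  by_cases h : e ∈ S <;> simp [mix, h]

lemma mix_mix (S E : Set EE) (x o z : Env) :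
    mix S x (mix E o z) = mix (S ∩ E) (mix S x o) z := by
  funext e
  by_cases h : e ∈ S <;> by_cases h' : e ∈ E <;> simp [mix, h, h']

lemma mix_idem (S : Set EE) (x y z : Env) : mix S (mix S x y) z = mix S x z := by
  funext e
  by_cases h : e ∈ S <;> simp [mix, h]

lemma tau_mix (t : ℝ) (o : VV) (ζ x y : Env) :
    tau o (mix (SS t ζ) x y) = mix (SS t (tau o ζ)) (tau o x) (tau o y) := rfl

lemma measurable_mix (S : Set EE) : Measurable fun p : Env × Env => mix S p.1 p.2 := by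
  refine measurable_pi_lambda _ fun e => ?_
  by_cases h : e ∈ S
  · simp only [mix, h, if_true]; fun_prop
  · simp only [mix, h, if_false]; fun_prop

lemma prob_measurableSet_SS (t : ℝ) (e : EE) : MeasurableSet {ζ : Env | e ∈ SS t ζ} :=
  measurableSet_le (f := fun ζ : Env => exp (-max (ζ e) 0)) (g := fun _ => t)
    (by fun_prop) measurable_const

lemma measurable_mixE (t : ℝ) (E : Set EE) :
    Measurable fun p : Om × Env => mix (SS t p.1.1 ∩ E) p.1.2 p.2 := by
  refine measurable_pi_lambda _ fun e => ?_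
  unfold mix
  refine Measurable.ite ?_ (by fun_prop) (by fun_prop)
  have h1 : MeasurableSet {p : Om × Env | e ∈ SS t p.1.1} :=
    (prob_measurableSet_SS t e).preimage (f := fun p : Om × Env => p.1.1) (by fun_prop)
  exact h1.inter (MeasurableSet.const (e ∈ E))

lemma measurable_mixS (t : ℝ) : Measurable fun p : Om × Env => mix (SS t p.1.1) p.1.2 p.2 := by
  simpa only [inter_univ] using measurable_mixE t univ

lemma measurePreserving_mix (S : Set EE) :
    MeasurePreserving (fun p : Env × Env => mix S p.1 p.2) (PE.prod PE) PE := by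
  classical
  refine ⟨measurable_mix S, ?_⟩
  refine Measure.eq_infinitePi _ fun s t ht => ?_
  rw [Measure.map_apply (measurable_mix S) (MeasurableSet.pi s.countable_toSet fun i _ => ht i)]
  have key : (fun p : Env × Env => mix S p.1 p.2) ⁻¹' (Set.pi (s : Set EE) t) =
      (Set.pi ((s.filter fun e => e ∉ S : Finset EE) : Set EE) t) ×ˢ
        (Set.pi ((s.filter fun e => e ∈ S : Finset EE) : Set EE) t) := by
    ext ⟨u, v⟩
    simp only [Set.mem_preimage, Set.mem_pi, Finset.mem_coe, Set.mem_prod, Finset.mem_filter]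
    constructor
    · intro h
      refine ⟨fun j hj => ?_, fun j hj => ?_⟩
      · simpa [mix, hj.2] using h j hj.1
      · simpa [mix, hj.2] using h j hj.1
    · rintro ⟨h1, h2⟩ j hj
      by_cases hS : j ∈ S
      · simpa [mix, hS] using h2 j ⟨hj, hS⟩
      · simpa [mix, hS] using h1 j ⟨hj, hS⟩
  rw [key, Measure.prod_prod, Measure.infinitePi_pi _ (fun i _ => ht i),
    Measure.infinitePi_pi _ (fun i _ => ht i), mul_comm]
  exact Finset.prod_filter_mul_prod_filter_not _ _ _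

lemma measurePreserving_mixE (t : ℝ) (E : Set EE) :
    MeasurePreserving (fun p : Om × Env => ((p.1.1, mix (SS t p.1.1 ∩ E) p.1.2 p.2) : Om))
      (P2.prod PE) P2 := by
  have hm : Measurable (uncurry fun (ζ : Env) (q : Env × Env) => mix (SS t ζ ∩ E) q.1 q.2) :=
    (measurable_mixE t E).comp
      (by fun_prop : Measurable fun p : Env × (Env × Env) => (((p.1, p.2.1), p.2.2) : Om × Env))
  have h1 := (MeasurePreserving.id PE).skew_product (μc := PE.prod PE) (μd := PE) hm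
    (ae_of_all _ fun ζ => (measurePreserving_mix (SS t ζ ∩ E)).map_eq)
  exact h1.comp (measurePreserving_prodAssoc PE PE PE)

lemma measurePreserving_mixS (t : ℝ) :
    MeasurePreserving (fun p : Om × Env => ((p.1.1, mix (SS t p.1.1) p.1.2 p.2) : Om))
      (P2.prod PE) P2 := by
  simpa only [inter_univ] using measurePreserving_mixE t univ

lemma prob_integrable_exp {α : Type} [MeasurableSpace α] {P : Measure α} {Y : α → ℝ}
    (hY : AEStronglyMeasurable Y P) (h : ∫⁻ x, ENNReal.ofReal (exp (Y x)) ∂P ≠ ⊤) :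
    Integrable (fun x => exp (Y x)) P := by
  refine ⟨Real.continuous_exp.comp_aestronglyMeasurable hY, ?_⟩
  rw [hasFiniteIntegral_iff_ofReal (ae_of_all _ fun x => (exp_pos _).le)]
  exact lt_top_iff_ne_top.2 h

lemma prob_integral_exp {α : Type} [MeasurableSpace α] {P : Measure α} {Y : α → ℝ}
    (hY : AEStronglyMeasurable Y P) :
    ∫ x, exp (Y x) ∂P = (∫⁻ x, ENNReal.ofReal (exp (Y x)) ∂P).toReal :=
  integral_eq_lintegral_of_nonneg_ae (ae_of_all _ fun _ => (exp_pos _).le)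
    (Real.continuous_exp.comp_aestronglyMeasurable hY)

/-- Jensen type bound. -/
lemma lemJ {α : Type} [MeasurableSpace α] {P : Measure α} [IsProbabilityMeasure P] {Y : α → ℝ}
    {W : α → ℝ≥0∞} (hY : Integrable Y P) (h : ∀ᵐ x ∂P, ENNReal.ofReal (exp (Y x)) ≤ W x)
    (hW : ∫⁻ x, W x ∂P ≠ ⊤) : ∫ x, Y x ∂P ≤ (∫⁻ x, W x ∂P).toReal - 1 := by
  have h1 := lintegral_mono_ae h
  have hi := prob_integrable_exp hY.1 (ne_top_of_le_ne_top hW h1)
  have h2 := integral_mono (hY.add (integrable_const 1)) hi fun x => add_one_le_exp (Y x)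
  rw [integral_add' hY (integrable_const 1), prob_integral_exp hY.1] at h2
  have h3 := ENNReal.toReal_mono hW h1
  simp only [integral_const, probReal_univ, smul_eq_mul, mul_one] at h2
  linarith

lemma prob_rearr {a b c d : ℝ≥0∞} (h1 : a ≤ b) (h2 : c ≤ d) : b * c + a * d ≤ b * d + a * c := by
  obtain ⟨u, rfl⟩ := exists_add_of_le h1
  obtain ⟨v, rfl⟩ := exists_add_of_le h2
  calc (a + u) * c + a * (c + v) ≤ (a + u) * c + a * (c + v) + u * v := le_self_add
    _ = _ := by ring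

lemma prob_cheb {f g : ℝ → ℝ≥0∞} (hf : Measurable f) (hg : Measurable g) (af : Antitone f)
    (ag : Antitone g) : (∫⁻ y, f y ∂nu) * ∫⁻ y, g y ∂nu ≤ ∫⁻ y, f y * g y ∂nu := by
  have h1 : ∫⁻ x, ∫⁻ y, (f x * g y + f y * g x) ∂nu ∂nu ≤
      ∫⁻ x, ∫⁻ y, (f x * g x + f y * g y) ∂nu ∂nu := by
    refine lintegral_mono fun x => lintegral_mono fun y => ?_
    rcases le_total x y with h | h
    · exact prob_rearr (af h) (ag h)
    · rw [add_comm, add_comm (f x * g x)]
      exact prob_rearr (af h) (ag h)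
  have h2 : ∀ x, ∫⁻ y, (f x * g y + f y * g x) ∂nu =
      f x * ∫⁻ y, g y ∂nu + (∫⁻ y, f y ∂nu) * g x := fun x => by
    rw [lintegral_add_left (by fun_prop), lintegral_const_mul _ hg, lintegral_mul_const _ hf]
  have h3 : ∀ x, ∫⁻ y, (f x * g x + f y * g y) ∂nu = f x * g x + ∫⁻ y, f y * g y ∂nu := fun x => by
    rw [lintegral_add_left (by fun_prop)]; simp
  simp only [h2, h3] at h1
  rw [lintegral_add_left (by fun_prop), lintegral_add_left (by fun_prop),
    lintegral_mul_const _ hf, lintegral_const_mul _ hg, lintegral_const, measure_univ, mul_one,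
    ← two_mul, ← two_mul] at h1
  exact (ENNReal.mul_le_mul_iff_right two_ne_zero ENNReal.ofNat_ne_top).1 h1

lemma prob_update_le {x x' : Env} (h : x ≤ x') (e : EE) {y y' : ℝ} (hy : y ≤ y') :
    update x e y ≤ update x' e y' := by
  intro i
  by_cases hi : i = e
  · subst hi; simpa using hy
  · rw [update_of_ne hi, update_of_ne hi]; exact h i

lemma prob_meas_slice (e : EE) {F : Env → ℝ≥0∞} (hF : Measurable F) :
    Measurable fun ω : Env => ∫⁻ y, F (update ω e y) ∂nu :=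
  Measurable.lintegral_prod_right (f := fun ω y => F (update ω e y))
    (hF.comp (by fun_prop : Measurable fun p : Env × ℝ => update p.1 e p.2))

/-- Harris inequality. -/
theorem harris (I : Finset EE) {F G : Env → ℝ≥0∞} (hF : Measurable F) (hG : Measurable G)
    (aF : Antitone F) (aG : Antitone G) (hI : DependsOn F (I : Set EE)) :
    (∫⁻ x, F x ∂PE) * ∫⁻ x, G x ∂PE ≤ ∫⁻ x, F x * G x ∂PE := by
  induction I using Finset.induction_on generalizing F G with
  | empty =>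
    have : ∀ ω, F ω = F 0 := fun ω => hI (by simp)
    simp only [this]
    rw [lintegral_const_mul _ hG]; simp
  | insert e S he ih =>
    rw [lintegral_update e hF, lintegral_update e hG,
      lintegral_update e (F := fun ω => F ω * G ω) (hF.mul hG)]
    refine (ih (prob_meas_slice e hF) (prob_meas_slice e hG)
      (fun x x' h => lintegral_mono fun y => aF (prob_update_le h e le_rfl))
      (fun x x' h => lintegral_mono fun y => aG (prob_update_le h e le_rfl))
      (fun ω ω' h => lintegral_congr fun y => hI fun i hi => ?_)).trans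
      (lintegral_mono fun ω => ?_)
    · by_cases hie : i = e
      · simp [hie]
      · rw [update_of_ne hie, update_of_ne hie]
        exact h i (by simpa [hie] using hi)
    · exact prob_cheb (hF.comp (measurable_update ω)) (hG.comp (measurable_update ω))
        (fun y y' h => aF (prob_update_le le_rfl e h)) (fun y y' h => aG (prob_update_le le_rfl e h))

lemma prob_anti_ind {A : Set Env} (lA : IsLowerSet A) :
    Antitone (A.indicator (1 : Env → ℝ≥0∞)) := by
  intro x x' h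
  by_cases hx : x' ∈ A
  · rw [indicator_of_mem hx, indicator_of_mem (lA h hx)]; exact le_rfl
  · rw [indicator_of_notMem hx]; exact zero_le

lemma harris_set (I : Finset EE) {A B : Set Env} (hA : MeasurableSet A) (hB : MeasurableSet B)
    (lA : IsLowerSet A) (lB : IsLowerSet B) (hI : DependsOn (fun x => x ∈ A) (I : Set EE)) :
    PE A * PE B ≤ PE (A ∩ B) := by
  have h := harris I (F := A.indicator 1) (G := B.indicator 1) (measurable_one.indicator hA)
    (measurable_one.indicator hB) (prob_anti_ind lA) (prob_anti_ind lB) (fun x x' hx => by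
      have h1 : (x ∈ A) = (x' ∈ A) := hI hx
      by_cases h2 : x' ∈ A
      · rw [indicator_of_mem h2, indicator_of_mem (h1 ▸ h2 : x ∈ A)]; rfl
      · rw [indicator_of_notMem h2, indicator_of_notMem (fun h3 => h2 (h1 ▸ h3))])
  rw [lintegral_indicator_one hA, lintegral_indicator_one hB] at h
  refine h.trans (le_of_eq ?_)
  rw [← lintegral_indicator_one (hA.inter hB), inter_indicator_one]
  rfl

/-- Functions of disjoint finite sets of edges are independent. -/
theorem indep1 {κ : Type} (Z : Finset κ) {W : κ → Env → ℝ≥0∞} {E : κ → Finset EE}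
    (hm : ∀ i ∈ Z, Measurable (W i)) (hd : ∀ i ∈ Z, DependsOn (W i) (E i : Set EE))
    (hE : ∀ i ∈ Z, ∀ j ∈ Z, i ≠ j → Disjoint (E i) (E j)) :
    ∫⁻ ω, ∏ i ∈ Z, W i ω ∂PE = ∏ i ∈ Z, ∫⁻ ω, W i ω ∂PE := by
  classical
  induction Z using Finset.induction_on with
  | empty => simp
  | insert j Z hj ih =>
    have hj' := Finset.mem_insert_self j Z
    have hi' : ∀ i ∈ Z, i ∈ insert j Z := fun i hi => Finset.mem_insert_of_mem hi
    simp only [Finset.prod_insert hj]
    rw [lintegral_mul_indep (E j) (Finset.measurable_prod _ fun i hi => hm i (hi' i hi)) _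
      (hm j hj') (hd j hj') fun e he ω y => Finset.prod_congr rfl fun i hi => ?_,
      ih (fun i hi => hm i (hi' i hi)) (fun i hi => hd i (hi' i hi))
        (fun i hi k hk => hE i (hi' i hi) k (hi' k hk))]
    refine hd i (hi' i hi) fun k hk => update_of_ne ?_ _ _
    rintro rfl
    exact Finset.disjoint_left.1 (hE j hj' i (hi' i hi) (by rintro rfl; exact hj hi)) he hk

theorem indep2 {κ : Type} (Z : Finset κ) {W : κ → Om → ℝ≥0∞} {E : κ → Finset EE}
    (hm : ∀ i ∈ Z, Measurable (W i)) (hd : ∀ i ∈ Z, LocOn (E i) (W i))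
    (hE : ∀ i ∈ Z, ∀ j ∈ Z, i ≠ j → Disjoint (E i) (E j)) :
    ∫⁻ ω, ∏ i ∈ Z, W i ω ∂P2 = ∏ i ∈ Z, ∫⁻ ω, W i ω ∂P2 := by
  rw [lintegral_prod _ (Finset.measurable_prod _ hm).aemeasurable]
  have h1 : ∀ ζ : Env, ∫⁻ x, ∏ i ∈ Z, W i (ζ, x) ∂PE = ∏ i ∈ Z, ∫⁻ x, W i (ζ, x) ∂PE := fun ζ =>
    indep1 Z (W := fun i x => W i (ζ, x)) (fun i hi => (hm i hi).comp measurable_prodMk_left)
      (fun i hi x x' h => hd i hi _ _ fun e he => ⟨rfl, h e he⟩) hE
  simp only [h1]
  rw [indep1 Z (W := fun i ζ => ∫⁻ x, W i (ζ, x) ∂PE)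
    (fun i hi => (hm i hi).lintegral_prod_right')
    (fun i hi ζ ζ' h => lintegral_congr fun x => hd i hi _ _ fun e he => ⟨h e he, rfl⟩) hE]
  exact Finset.prod_congr rfl fun i hi => (lintegral_prod _ (hm i hi).aemeasurable).symm

lemma prob_exp_le {M : ℝ} (hM : 1 ≤ M) (z : ℝ) :
    exp z ≤ (1 + z + (1 + M) * z ^ 2) + M⁻¹ * exp (3 * z) := by
  have h0 : 0 ≤ M⁻¹ * exp (3 * z) := by positivity
  have hp := exp_pos z
  have h1 : exp z * (1 - z) ≤ 1 := by
    have h := add_one_le_exp (-z)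
    have h' : exp z * exp (-z) = 1 := by rw [← exp_add]; simp
    nlinarith
  by_cases hz : z ≤ 0
  · have h2 : exp z ≤ 1 + z + z ^ 2 := by
      by_contra hc
      have h3 := mul_lt_mul_of_pos_right (not_le.1 hc) (show 0 < 1 - z by linarith)
      nlinarith [mul_nonneg (sq_nonneg z) (neg_nonneg.2 hz)]
    nlinarith [mul_nonneg (show 0 ≤ M by linarith) (sq_nonneg z)]
  · push Not at hz
    by_cases h2 : M ≤ exp (2 * z)
    · have h3 : exp z ≤ M⁻¹ * exp (3 * z) := by
        rw [show 3 * z = 2 * z + z by ring, exp_add, ← mul_assoc]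
        refine le_mul_of_one_le_left hp.le ?_
        rw [inv_mul_eq_div, le_div_iff₀ (by linarith)]
        linarith
      nlinarith [mul_nonneg (show 0 ≤ 1 + M by linarith) (sq_nonneg z)]
    · push Not at h2
      have h3 : exp z ≤ M := (exp_le_exp.2 (by linarith)).trans h2.le
      have h4 : exp z - 1 ≤ z * exp z := by linarith
      have h5 : exp z - 1 - z ≤ z ^ 2 * exp z := by nlinarith
      nlinarith [mul_le_mul_of_nonneg_left h3 (sq_nonneg z), sq_nonneg z]

/-- A small variance improves an exponential moment. -/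
theorem smallVar (Γ : ℝ) : ∃ ε : ℝ, 0 < ε ∧ ∀ {α : Type} [MeasurableSpace α] {P : Measure α}
    [IsProbabilityMeasure P] {Z : α → ℝ}, Measurable Z → MemLp Z 2 P → ∫ x, Z x ∂P = 0 →
    ∫ x, Z x ^ 2 ∂P ≤ ε → ∫⁻ x, ENNReal.ofReal (exp (3 * Z x)) ∂P ≤ ENNReal.ofReal Γ →
    ∫⁻ x, ENNReal.ofReal (exp (Z x)) ∂P ≤ 3 := by
  set M := max Γ 1 with hMdef
  have hM : 1 ≤ M := le_max_right _ _
  have hΓ : Γ ≤ M := le_max_left _ _
  refine ⟨(1 + M)⁻¹, by positivity, ?_⟩
  intro α _ P _ Z hZ h2 h0 hv he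
  have i1 : Integrable Z P := h2.integrable one_le_two
  have i2 : Integrable (fun x => Z x ^ 2) P := h2.integrable_sq
  have i3 : Integrable (fun x => 1 + Z x) P := (integrable_const 1).add i1
  have i4 : Integrable (fun x => (1 + M) * Z x ^ 2) P := i2.const_mul _
  have i5 : Integrable (fun x => 1 + Z x + (1 + M) * Z x ^ 2) P := i3.add i4
  have hn : ∀ x, 0 ≤ 1 + Z x + (1 + M) * Z x ^ 2 := fun x => by
    nlinarith [sq_nonneg (Z x + 1), mul_nonneg (show 0 ≤ M by linarith) (sq_nonneg (Z x)),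
      sq_nonneg (Z x)]
  have h3 : ∫ x, (1 + Z x + (1 + M) * Z x ^ 2) ∂P ≤ 2 := by
    rw [integral_add i3 i4, integral_add (integrable_const 1) i1, h0, integral_const_mul]
    have := mul_le_mul_of_nonneg_left hv (show 0 ≤ 1 + M by linarith)
    rw [mul_inv_cancel₀ (by positivity)] at this
    simp only [integral_const, probReal_univ, smul_eq_mul, mul_one]
    linarith
  calc ∫⁻ x, ENNReal.ofReal (exp (Z x)) ∂P
      ≤ ∫⁻ x, (ENNReal.ofReal (1 + Z x + (1 + M) * Z x ^ 2) +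
          ENNReal.ofReal M⁻¹ * ENNReal.ofReal (exp (3 * Z x))) ∂P := by
        refine lintegral_mono fun x => ?_
        rw [← ENNReal.ofReal_mul (by positivity), ← ENNReal.ofReal_add (hn x) (by positivity)]
        exact ENNReal.ofReal_le_ofReal (prob_exp_le hM _)
    _ = ENNReal.ofReal (∫ x, (1 + Z x + (1 + M) * Z x ^ 2) ∂P) +
          ENNReal.ofReal M⁻¹ * ∫⁻ x, ENNReal.ofReal (exp (3 * Z x)) ∂P := by
        rw [lintegral_add_left (by fun_prop), lintegral_const_mul _ (by fun_prop),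
          ofReal_integral_eq_lintegral_ofReal i5 (ae_of_all _ hn)]
    _ ≤ ENNReal.ofReal 2 + ENNReal.ofReal M⁻¹ * ENNReal.ofReal M := by
        gcongr
        exact he.trans (ENNReal.ofReal_le_ofReal hΓ)
    _ = 3 := by
        rw [← ENNReal.ofReal_mul (by positivity), inv_mul_cancel₀ (by positivity),
          ← ENNReal.ofReal_add (by norm_num) (by norm_num)]
        norm_num

variable {A : Env → ℝ → Prop} {d s : ℝ}

lemma dom_empty (h : ∀ ω z, ¬ A ω z) : Dom A d s :=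
  ⟨fun _ => 0, measurable_const, fun ω z hz => (h ω z hz).elim, by simp⟩

/-- Markov inequality, with a measurable exceptional set. -/
lemma dom_event (h : Dom A d s) (hs : 0 < s) (y : ℝ) : ∃ E : Set Env, MeasurableSet E ∧
    PE E ≤ ENNReal.ofReal (3 * exp (-y)) ∧ ∀ ω ∉ E, ∀ z, A ω z → z ≤ d + y * s := by
  obtain ⟨W, h1, h2, h3⟩ := h
  refine ⟨{ω | ENNReal.ofReal (exp y) ≤ W ω}, measurableSet_le measurable_const h1, ?_, ?_⟩
  · have h4 := (mul_meas_ge_le_lintegral₀ (μ := PE) h1.aemeasurable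
      (ENNReal.ofReal (exp y))).trans h3
    have h5 := mul_le_mul_right h4 (ENNReal.ofReal (exp (-y)))
    rw [← mul_assoc, ← ENNReal.ofReal_mul (exp_pos _).le, ← exp_add, neg_add_cancel, exp_zero,
      ENNReal.ofReal_one, one_mul] at h5
    rw [mul_comm, ENNReal.ofReal_mul (exp_pos _).le]
    simpa using h5
  · intro ω hω z hz
    have h4 := (h2 ω z hz).trans_lt (not_le.1 hω)
    rw [ENNReal.ofReal_lt_ofReal_iff (exp_pos _), exp_lt_exp, div_lt_iff₀ hs] at h4
    linarith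

lemma dom_lintegral {X : Env → ℝ} (h : Dom (fun ω z => z = X ω) d s) :
    ∫⁻ ω, ENNReal.ofReal (exp ((X ω - d) / s)) ∂PE ≤ 3 := by
  obtain ⟨W, _, h2, h3⟩ := h
  exact (lintegral_mono fun ω => h2 ω _ rfl).trans h3

lemma prob_dom_int {X : Env → ℝ} (hX : Measurable X) (h : Dom (fun ω z => z = X ω) d s) :
    Integrable (fun ω => exp ((X ω - d) / s)) PE ∧ ∫ ω, exp ((X ω - d) / s) ∂PE ≤ 3 := by
  have h1 := dom_lintegral h
  have hm : AEStronglyMeasurable (fun ω => (X ω - d) / s) PE :=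
    Measurable.aestronglyMeasurable (by fun_prop)
  refine ⟨prob_integrable_exp hm (ne_top_of_le_ne_top ENNReal.ofNat_ne_top h1), ?_⟩
  rw [prob_integral_exp hm]
  simpa using ENNReal.toReal_mono ENNReal.ofNat_ne_top h1

lemma prob_dom_bound {X Y : Env → ℝ} (hX : Measurable X) (h : Dom (fun ω z => z = X ω) d s)
    (hY : Measurable Y) {a b : ℝ} (hb : 0 ≤ b) (h0 : ∀ ω, 0 ≤ Y ω)
    (h1 : ∀ ω, Y ω ≤ a + b * exp ((X ω - d) / s)) :
    Integrable Y PE ∧ ∫ ω, Y ω ∂PE ≤ a + 3 * b := by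
  obtain ⟨i1, i2⟩ := prob_dom_int hX h
  have i3 : Integrable (fun ω => a + b * exp ((X ω - d) / s)) PE :=
    (integrable_const a).add (i1.const_mul b)
  have i4 : Integrable Y PE := i3.mono' hY.aestronglyMeasurable (ae_of_all _ fun ω => by
    rw [Real.norm_of_nonneg (h0 ω)]; exact h1 ω)
  refine ⟨i4, (integral_mono i4 i3 h1).trans ?_⟩
  rw [integral_add (integrable_const a) (i1.const_mul b), integral_const_mul]
  simp only [integral_const, probReal_univ, smul_eq_mul, one_mul]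
  nlinarith

lemma dom_pos {X : Env → ℝ} (hX : Measurable X) (h : Dom (fun ω z => z = X ω) d s) (hs : 0 < s)
    (hd : 0 ≤ d) : Integrable (fun ω => max (X ω) 0) PE ∧ ∫ ω, max (X ω) 0 ∂PE ≤ d + 3 * s := by
  refine prob_dom_bound hX h (by fun_prop) hs.le (fun ω => le_max_right _ _) fun ω => ?_
  refine max_le ?_ (by positivity)
  have h1 := mul_le_mul_of_nonneg_left (add_one_le_exp ((X ω - d) / s)) hs.le
  rw [mul_add, mul_div_cancel₀ _ hs.ne'] at h1
  linarith

lemma dom_pow_four {X : Env → ℝ} (hX : Measurable X) (h : Dom (fun ω z => z = X ω) d s)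
    (hs : 0 < s) (hd : 0 ≤ d) : Integrable (fun ω => max (X ω) 0 ^ 4) PE ∧
      ∫ ω, max (X ω) 0 ^ 4 ∂PE ≤ 8 * d ^ 4 + 576 * s ^ 4 := by
  have key := prob_dom_bound (Y := fun ω => max (X ω) 0 ^ 4) (a := 8 * d ^ 4) (b := 192 * s ^ 4)
    hX h (by fun_prop) (by positivity) (fun ω => by positivity) fun ω => by
      by_cases hx : X ω ≤ d
      · have h1 : max (X ω) 0 ^ 4 ≤ d ^ 4 :=
          pow_le_pow_left₀ (le_max_right _ _) (max_le hx hd) 4
        have h2 : 0 ≤ 192 * s ^ 4 * exp ((X ω - d) / s) := by positivity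
        have h3 : 0 ≤ d ^ 4 := by positivity
        linarith
      · push Not at hx
        have h1 := Real.pow_div_factorial_le_exp ((X ω - d) / s)
          (div_nonneg (by linarith) hs.le) 4
        have h2 : (X ω - d) ^ 4 ≤ 24 * s ^ 4 * exp ((X ω - d) / s) := by
          have e1 : ((Nat.factorial 4 : ℕ) : ℝ) = 24 := by norm_num [Nat.factorial]
          rw [e1, div_pow, div_div, div_le_iff₀ (by positivity)] at h1
          linarith
        rw [max_eq_left (by linarith)]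
        set u := X ω - d with hu
        have e2 : X ω = d + u := by rw [hu]; ring
        have h3 : (d + u) ^ 2 ≤ 2 * (d ^ 2 + u ^ 2) := by nlinarith [sq_nonneg (d - u)]
        have h4 : (d + u) ^ 4 ≤ 8 * (d ^ 4 + u ^ 4) := by
          calc (d + u) ^ 4 = ((d + u) ^ 2) ^ 2 := by ring
            _ ≤ (2 * (d ^ 2 + u ^ 2)) ^ 2 := pow_le_pow_left₀ (sq_nonneg _) h3 2
            _ ≤ _ := by nlinarith [sq_nonneg (d ^ 2 - u ^ 2)]
        calc X ω ^ 4 = (d + u) ^ 4 := by rw [← e2]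
          _ ≤ _ := by linarith
  refine ⟨key.1, key.2.trans (le_of_eq (by ring))⟩

/-- Positive parts. -/
lemma dom_max (h : Dom A d s) (hs : 0 < s) (hd : 0 ≤ d) :
    Dom (fun ω z => z ≤ 0 ∨ ∃ z', A ω z' ∧ z ≤ z') (d + s) s := by
  obtain ⟨W, h1, h2, h3⟩ := h
  have e1 : ∀ z : ℝ, ENNReal.ofReal (exp ((z - (d + s)) / s)) =
      ENNReal.ofReal (exp (-1)) * ENNReal.ofReal (exp ((z - d) / s)) := fun z => by
    rw [← ENNReal.ofReal_mul (exp_pos _).le, ← exp_add]
    congr 2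
    field_simp
    ring
  refine ⟨fun ω => ENNReal.ofReal (exp (-1)) * (1 + W ω), by fun_prop, fun ω z hz => ?_, ?_⟩
  · rw [e1]
    refine mul_le_mul_right ?_ _
    rcases hz with hz | ⟨z', hz', hz⟩
    · refine le_trans ?_ le_self_add
      rw [ENNReal.ofReal_le_one, exp_le_one_iff]
      exact div_nonpos_of_nonpos_of_nonneg (by linarith) hs.le
    · refine le_trans ?_ le_add_self
      refine le_trans (ENNReal.ofReal_le_ofReal (exp_le_exp.2 ?_)) (h2 ω z' hz')
      exact div_le_div_of_nonneg_right (by linarith) hs.le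
  · rw [lintegral_const_mul _ (by fun_prop), lintegral_add_left measurable_const]
    have h4 : exp (-1) ≤ 3 / 4 := by
      have := Real.exp_neg_one_lt_d9
      linarith
    calc ENNReal.ofReal (exp (-1)) * (∫⁻ _, 1 ∂PE + ∫⁻ ω, W ω ∂PE)
        ≤ ENNReal.ofReal (3 / 4) * (1 + 3) := by
          gcongr
          simp
      _ = 3 := by
          rw [show (1 + 3 : ℝ≥0∞) = ENNReal.ofReal 4 by norm_num,
            ← ENNReal.ofReal_mul (by norm_num)]
          norm_num

lemma tsum_exp_abs_le {ε : ℝ} (hε : 0 < ε) :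
    ∑' j : ℤ, ENNReal.ofReal (exp (-ε * |(j : ℝ)|)) ≤ ENNReal.ofReal (1 + 2 / ε) := by
  set r := exp (-ε) with hr
  have r0 : 0 < r := exp_pos _
  have r1 : r < 1 := exp_lt_one_iff.2 (by linarith)
  have r2 : r * (1 + ε) ≤ 1 := by
    have h := add_one_le_exp ε
    have h' : r * exp ε = 1 := by rw [hr, ← exp_add]; simp
    nlinarith
  have hg : ∑' n : ℕ, ENNReal.ofReal (r ^ n) = ENNReal.ofReal (1 - r)⁻¹ := by
    rw [← ENNReal.ofReal_tsum_of_nonneg (fun n => by positivity)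
      (summable_geometric_of_lt_one r0.le r1), tsum_geometric_of_lt_one r0.le r1]
  rw [tsum_of_nat_of_neg_add_one ENNReal.summable ENNReal.summable]
  have e1 : ∀ n : ℕ, exp (-ε * |(((n : ℤ) : ℤ) : ℝ)|) = r ^ n := fun n => by
    rw [hr, ← exp_nat_mul, Int.cast_natCast, Nat.abs_cast, mul_comm]
  have e2 : ∀ n : ℕ, exp (-ε * |((-((n : ℤ) + 1) : ℤ) : ℝ)|) = r * r ^ n := fun n => by
    rw [hr, ← exp_nat_mul, ← exp_add]
    push_cast
    rw [abs_neg, abs_of_nonneg (by positivity)]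
    congr 1
    ring
  simp only [e1, e2, ENNReal.ofReal_mul r0.le]
  rw [ENNReal.tsum_mul_left, hg, ← ENNReal.ofReal_mul r0.le,
    ← ENNReal.ofReal_add (by have := sub_pos.2 r1; positivity) (by have := sub_pos.2 r1; positivity)]
  refine ENNReal.ofReal_le_ofReal ?_
  have h1 : 0 < 1 - r := sub_pos.2 r1
  have e3 : (1 - r)⁻¹ + r * (1 - r)⁻¹ = 1 + 2 * (r / (1 - r)) := by field_simp; ring
  have h2 : r / (1 - r) ≤ 1 / ε := by
    rw [div_le_div_iff₀ h1 hε]; linarith
  rw [e3, show 2 / ε = 2 * (1 / ε) by ring]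
  linarith

end Pool.Agent.Lib.MP_de94ef_pr.Q
end

-- part Pool.Agent.Lib.MP_de94ef_pr.Q.Defs2
section

/-!
More definitions.
-/

open MeasureTheory ProbabilityTheory Set Real Function Filter Topology
open scoped ENNReal NNReal

namespace Pool.Agent.Lib.MP_de94ef_pr.Q

/-- Displacement between the anchors of two consecutive cells. -/
def vq (f : Fd) (m w : ℝ) (j : ℤ) : ℝ × ℝ := f.pt (m + 3 * w) (j * w)

/-- Top level data with controlled total spread and total excess. -/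
structure Tp (c : Bs) (f : Fd) (v : VV) (M : ℕ) (s C : ℝ) : Prop where
  big : c.Big 100
  top : Top c f v M s
  one : 1 ≤ C
  hD : ∫ X, DS c f v M s X ∂PE ≤ C * M
  hE : ∫ X, ES c f v M s X ∂PE ≤ C * M * c.s

/-- Gains between two squares. -/
def Gn (f : Fd) (r ρ : ℝ) (z z' : ℝ × ℝ) (X : Env) (x : ℝ) : Prop :=
  ∃ q q', Sq f z r q ∧ Sq f z' r q' ∧ n1 (q' - q) ≤ ρ ∧ x = f.L (iv (q' - q)) - TT X q q'

/-- Gains of walks inside `A` between two squares. -/
def Seg (f : Fd) (r ρ : ℝ) (z z' : ℝ × ℝ) (A : Finset VV) (ω : Om) (x : ℝ) : Prop :=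
  ∃ q q', Sq f z r q ∧ Sq f z' r q' ∧ n1 (q' - q) ≤ ρ ∧ ∃ p : GG.Walk q q',
    (∀ w ∈ p.support, w ∈ A) ∧ x = f.L (iv (q' - q)) - wt ω.2 (es p)

/-- Long chords are either fat or have very concentrated gains. -/
def Tame (c : Bs) (f : Fd) (Y : ℕ) (CF : ℝ) (Lt : ℕ) (CT X : ℝ) : Prop :=
  ∀ (i : ℕ) (k : ℤ) (i' : ℕ) (k' : ℤ), i + Lt ≤ i' → i' ≤ i + 2 * Lt + 1 →
    Cheap c.μ f (zc f c.m i' k' - zc f c.m i k) (Y * c.m) (CF * Lt * c.s) ∨
      Dom (Gn f c.m (22 * ((i' : ℝ) - i) * c.m) (zc f c.m i k) (zc f c.m i' k'))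
        (CT * Lt * c.s) (c.s / X)

lemma Bs.Big.s_ge {c : Bs} {K : ℝ} (h : c.Big K) : 10 ^ 30 ≤ c.s := h.sc.big _ h.one

lemma Bs.Big.s_ge' {c : Bs} {K : ℝ} (h : c.Big K) : K ≤ c.s := h.big _ h.one

lemma Bs.Big.s_pos {c : Bs} {K : ℝ} (h : c.Big K) : 0 < c.s := lt_of_lt_of_le (by norm_num) h.s_ge

lemma Bs.Big.m_pos {c : Bs} {K : ℝ} (h : c.Big K) : 0 < c.m := lt_of_lt_of_le one_pos h.one

lemma Bs.Big.κm {c : Bs} {K : ℝ} (h : c.Big K) : c.κ * c.m = c.s :=
  div_mul_cancel₀ _ h.m_pos.ne'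

lemma Bs.Big.κ_pos {c : Bs} {K : ℝ} (h : c.Big K) : 0 < c.κ := div_pos h.s_pos h.m_pos

lemma Bs.Big.Ks {c : Bs} {K : ℝ} (h : c.Big K) : K * c.s ≤ c.m := h.small

lemma Bs.Big.Kκ {c : Bs} {K : ℝ} (h : c.Big K) : K * c.κ ≤ 1 := by
  have := h.small
  unfold Bs.κ
  rw [← mul_div_assoc, div_le_one h.m_pos]
  exact this

lemma Bs.Big.m_ge {c : Bs} {K : ℝ} (h : c.Big K) (hK : 1 ≤ K) : 10 ^ 30 ≤ c.m := by
  have h1 := h.Ks
  have h2 := h.s_ge
  nlinarith

lemma Sc.le {σ : ℝ → ℝ} (h : Sc σ) {r r' k : ℝ} (hr : 0 ≤ r) (hr' : 0 ≤ r') (hk : 1 ≤ k)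
    (hle : r ≤ k ^ 2 * r') : σ r ≤ k * σ r' :=
  (h.mono _ _ hr hle).trans (h.mul _ _ hr' hk)

lemma Sc.pow_half {σ : ℝ → ℝ} (h : Sc σ) {r : ℝ} (hr : 0 ≤ r) (j : ℕ) :
    σ (r / 2 ^ j) ≤ (3 / 4) ^ j * σ r := by
  induction j with
  | zero => simp
  | succ j ih =>
    have := h.half (r / 2 ^ j) (by positivity)
    rw [div_div, ← pow_succ] at this
    rw [pow_succ (3 / 4 : ℝ)]
    linarith

end Pool.Agent.Lib.MP_de94ef_pr.Q
end

-- part Pool.Agent.Lib.MP_de94ef_pr.Q.Chain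
section

/-!
Chaining from an anchor to all points of a square.
-/

open MeasureTheory ProbabilityTheory Set Real Function Filter Topology
open scoped ENNReal NNReal

namespace Pool.Agent.Lib.MP_de94ef_pr.Q

variable {μ : ℝ × ℝ → ℝ} {σ : ℝ → ℝ} {κ ϱ B X R r : ℝ} {f : Fd}

lemma chain_leg (h : IsTC μ) (hσ : Sc σ) (hF : Fr μ κ ϱ f) (hB : 0 ≤ B) (hX : 1 ≤ X)
    (hU : EstU μ σ B X R) (hr : 1 ≤ r) (hR : 200 * r ≤ R) {α β : ℝ} (h1 : 0 ≤ β) (h2 : β ≤ α)
    (h3 : α ≤ r) {y : ℝ × ℝ} {P : VV} (hP : r1 (iv P - y) ≤ 4) :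
    Dom (fun ω x => x = TT ω P (fl (y + f.pt α β)) - f.L (iv (fl (y + f.pt α β) - P)))
      (κ * r + 18 + 11 * B * σ r) (11 * σ r / X) := by
  have a1 := hF.up (f.pt α β) (by rw [hF.a_pt, hF.b_pt, abs_of_nonneg h1]; exact h2)
  have a2 := hF.le h (f.pt α β)
  rw [hF.a_pt] at a1
  rw [hF.a_pt, hF.b_pt, abs_of_nonneg h1, abs_of_nonneg (h1.trans h2)] at a2
  generalize f.pt α β = v at *
  have a3 := r1_add_le (iv (fl (y + v)) - (y + v)) (y - iv P)
  rw [r1_sub_comm y, show iv (fl (y + v)) - (y + v) + (y - iv P) = iv (fl (y + v) - P) - v by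
    rw [iv_sub]; abel] at a3
  have a4 := r1_fl (y + v)
  have a5 := h.le_add (iv (fl (y + v) - P)) v
  have a6 := h.ge (iv (fl (y + v) - P))
  have a7 := (abs_le.1 (hF.L_r1 h (iv (fl (y + v) - P) - v))).1
  rw [r1_iv] at a6
  rw [map_sub] at a7
  have a8 := hσ.mul r 11 (by linarith) (by norm_num)
  have a9 := hσ.big (11 ^ 2 * r) (by linarith)
  have a10 := hσ.big r hr
  have a11 := mul_le_mul_of_nonneg_left h3 hF.κpos.le
  refine ((hU P (fl (y + v)) (11 ^ 2 * r) (by linarith) (by linarith) (by linarith)).scale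
    (div_pos (by linarith) (by linarith)) (by gcongr)).mono (div_pos (by linarith) (by linarith))
    fun ω a ha => ⟨_, rfl, ?_⟩
  rw [ha]
  nlinarith [mul_le_mul_of_nonneg_left a8 hB]

lemma chain_base (h : IsTC μ) (hF : Fr μ κ ϱ f) (hr : r ≤ 1) (z : ℝ × ℝ) {P : VV}
    (hP : r1 (iv P - (z - r • f.u)) ≤ 4) :
    Dom (fun ω x => ∃ q, Sq f z r q ∧ x = TT ω P q - f.L (iv (q - P))) (2 * 10 ^ 7) (10 ^ 6) := by
  classical
  have key : ∀ q, Sq f z r q → n1 (q - P) ≤ 70 := by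
    rintro q ⟨q1, q2, q3, q4⟩
    have h1 := hF.le h (iv q - (z - r • f.u))
    have e1 : f.a (iv q - (z - r • f.u)) = f.a (iv q - z) + r := by
      simp only [map_sub, map_smul, hF.au, smul_eq_mul]; ring
    have e2 : f.b (iv q - (z - r • f.u)) = f.b (iv q - z) := by
      simp only [map_sub, map_smul, hF.bu, smul_eq_mul]; ring
    rw [e1, e2, abs_of_nonneg (by linarith), abs_of_nonneg q3] at h1
    have h2 := h.ge (iv q - (z - r • f.u))
    have h3 := r1_add_le (iv q - (z - r • f.u)) (z - r • f.u - iv P)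
    rw [sub_add_sub_cancel, r1_sub_comm (z - r • f.u) (iv P), ← iv_sub, r1_iv] at h3
    linarith
  have hs := sig_le_self (r := 70) (by norm_num)
  have hs' := sig_pos (r := 70) (by norm_num)
  have := dom_union ((box P 70).filter (Sq f z r)) (N := 10) (s := 10 ^ 6) (d := 210)
    (F := fun q ω x => x = TT ω P q - f.L (iv (q - P)))
    (C := fun ω x => ∃ q, Sq f z r q ∧ x = TT ω P q - f.L (iv (q - P))) (by norm_num)
    (fun q hq => by
      have k := key q (Finset.mem_filter.1 hq).2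
      have k' := (abs_le.1 (hF.L_r1 h (iv (q - P)))).1
      rw [r1_iv] at k'
      refine ((dom_up P q k (by norm_num)).scale (by linarith) (by linarith)).mono
        (by norm_num) fun ω a ha => ⟨_, rfl, ?_⟩
      rw [ha]
      linarith [hh_le (q - P)])
    (by
      have h1 : (((box P 70).filter (Sq f z r)).card : ℝ) ≤ (box P 70).card := by
        exact_mod_cast Finset.card_filter_le _ _
      rw [card_box] at h1
      have h2 : (2.7 : ℝ) ^ 10 ≤ exp 1 ^ 10 := by
        gcongr; linarith [exp_one_gt_d9]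
      rw [← exp_nat_mul] at h2
      norm_num at h2
      push_cast at h1
      linarith)
    (by
      rintro ω a ⟨q, hq, rfl⟩
      exact ⟨q, Finset.mem_filter.2 ⟨mem_box_of_n1 (by exact_mod_cast key q hq), hq⟩, rfl⟩)
  exact this.mono (by norm_num) fun ω a ha => ⟨a, ha, by linarith⟩

lemma chain_aux (h : IsTC μ) (hσ : Sc σ) (hF : Fr μ κ ϱ f) (hB : 0 ≤ B) (hX : 1 ≤ X)
    (hU : EstU μ σ B X R) (J : ℕ) : ∀ (r : ℝ) (z : ℝ × ℝ) (P : VV), 0 ≤ r → r ≤ 2 ^ J →
    200 * r ≤ R → r1 (iv P - (z - r • f.u)) ≤ 4 →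
    Dom (fun ω x => ∃ q, Sq f z r q ∧ x = TT ω P q - f.L (iv (q - P)))
      (2 * κ * r + (44 * B + 600) * σ r + 2 * 10 ^ 7) (44 * σ r / X + 10 ^ 6) := by
  have hκ := hF.κpos
  have base : ∀ (r : ℝ) (z : ℝ × ℝ) (P : VV), 0 ≤ r → r ≤ 1 → r1 (iv P - (z - r • f.u)) ≤ 4 →
      Dom (fun ω x => ∃ q, Sq f z r q ∧ x = TT ω P q - f.L (iv (q - P)))
        (2 * κ * r + (44 * B + 600) * σ r + 2 * 10 ^ 7) (44 * σ r / X + 10 ^ 6) := by
    intro r z P hr0 hr hP
    have := hσ.nonneg r hr0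
    refine ((chain_base h hF hr z hP).scale (by norm_num)
      (le_add_of_nonneg_left (by positivity))).mono (by positivity) fun ω a ha => ⟨a, ha, ?_⟩
    have : 0 ≤ 2 * κ * r + (44 * B + 600) * σ r := by positivity
    linarith
  induction J with
  | zero => exact fun r z P hr0 hr _ => base r z P hr0 (by simpa using hr)
  | succ J ih =>
    intro r z P hr0 hr hR hP
    rcases le_total r 1 with hr1 | hr1
    · exact base r z P hr0 hr1 hP
    have s1 := hσ.big r hr1
    have s2 := hσ.half r hr0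
    have s3 := hσ.nonneg (r / 2) (by linarith)
    have s4 : 0 < σ r := by linarith
    have s5 : 11 * σ r / X + (44 * σ (r / 2) / X + 10 ^ 6) ≤ 44 * σ r / X + 10 ^ 6 := by
      rw [← add_assoc, ← add_div]; gcongr; linarith
    have s6 : 44 * σ r / X ≤ 44 * σ r := div_le_self (by linarith) hX
    have quarter : ∀ α β : ℝ, 0 ≤ α → α ≤ r / 2 → 0 ≤ β → β ≤ r / 2 →
        Dom (fun ω x => ∃ q, Sq f (z + f.pt α β) (r / 2) q ∧ x = TT ω P q - f.L (iv (q - P)))
        (κ * r + 18 + 11 * B * σ r + (2 * κ * (r / 2) + (44 * B + 600) * σ (r / 2) + 2 * 10 ^ 7))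
        (44 * σ r / X + 10 ^ 6) := by
      intro α β a1 a2 a3 a4
      have h1 := ih (r / 2) (z + f.pt α β) (fl (z - r • f.u + f.pt (α + r / 2) β)) (by linarith)
        (by rw [pow_succ] at hr; linarith) (by linarith) (by
          rw [show z + f.pt α β - (r / 2) • f.u = z - r • f.u + f.pt (α + r / 2) β by
            unfold Fd.pt; module]
          linarith [r1_fl (z - r • f.u + f.pt (α + r / 2) β)])
      refine ((chain_leg h hσ hF hB hX hU hr1 hR a3 (α := α + r / 2) (by linarith) (by linarith)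
        hP).add h1 (by positivity) (by positivity) ?_).scale (by positivity) s5
      rintro ω a ⟨q, hq, rfl⟩
      refine ⟨_, _, rfl, ⟨q, hq, rfl⟩, ?_⟩
      have h3 := TT_triangle ω P (fl (z - r • f.u + f.pt (α + r / 2) β)) q
      simp only [iv_sub, map_sub]
      linarith
    have h3 := dom_union (({0, r / 2} : Finset ℝ) ×ˢ ({0, r / 2} : Finset ℝ)) (N := 3)
      (s := 44 * σ r / X + 10 ^ 6)
      (F := fun p ω x => ∃ q, Sq f (z + f.pt p.1 p.2) (r / 2) q ∧
        x = TT ω P q - f.L (iv (q - P)))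
      (C := fun ω x => ∃ q, Sq f z r q ∧ x = TT ω P q - f.L (iv (q - P))) (by positivity)
      (fun p hp => by
        simp only [Finset.mem_product, Finset.mem_insert, Finset.mem_singleton] at hp
        exact quarter p.1 p.2 (by rcases hp.1 with h | h <;> linarith)
          (by rcases hp.1 with h | h <;> linarith) (by rcases hp.2 with h | h <;> linarith)
          (by rcases hp.2 with h | h <;> linarith))
      (by
        have h1 : ({0, r / 2} : Finset ℝ).card ≤ 2 := Finset.card_le_two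
        have h2 : (({0, r / 2} : Finset ℝ) ×ˢ ({0, r / 2} : Finset ℝ)).card ≤ 4 := by
          rw [Finset.card_product]; exact Nat.mul_le_mul h1 h1
        have h3 : ((({0, r / 2} : Finset ℝ) ×ˢ ({0, r / 2} : Finset ℝ)).card : ℝ) ≤ 4 := by
          exact_mod_cast h2
        linarith [add_one_le_exp (3 : ℝ)])
      (by
        rintro ω a ⟨q, ⟨q1, q2, q3, q4⟩, rfl⟩
        have k : ∀ x : ℝ, 0 ≤ x → x ≤ r → ∃ y ∈ ({0, r / 2} : Finset ℝ),
            0 ≤ x - y ∧ x - y ≤ r / 2 := fun x x1 x2 => by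
          rcases le_total x (r / 2) with h | h
          · exact ⟨0, by simp, by linarith, by linarith⟩
          · exact ⟨r / 2, by simp, by linarith, by linarith⟩
        obtain ⟨α, a1, a2⟩ := k _ q1 q2
        obtain ⟨β, b1, b2⟩ := k _ q3 q4
        refine ⟨(α, β), Finset.mem_product.2 ⟨a1, b1⟩, q, ?_, rfl⟩
        simp only [Sq, ← sub_sub, map_sub _ _ (f.pt α β), hF.a_pt, hF.b_pt]
        exact ⟨a2.1, a2.2, b2⟩)
    refine h3.mono (by positivity) fun ω a ha => ⟨a, ha, ?_⟩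
    nlinarith [mul_le_mul_of_nonneg_left s2 hB]

theorem chain (h : IsTC μ) (hσ : Sc σ) (hF : Fr μ κ ϱ f) (hB : 0 ≤ B) (hX : 1 ≤ X)
    (hU : EstU μ σ B X R) (hr : 1 ≤ r) (hR : 200 * r ≤ R) (hs : 10 ^ 8 * X ≤ σ r) (z : ℝ × ℝ)
    {P : VV} (hP : r1 (iv P - (z - r • f.u)) ≤ 4) :
    Dom (fun ω x => ∃ q, Sq f z r q ∧ x = TT ω P q - f.L (iv (q - P)))
      (2 * κ * r + (100 * B + 2000) * σ r) (200 * σ r / X) := by
  obtain ⟨J, hJ⟩ := pow_unbounded_of_one_lt r (by norm_num : (1 : ℝ) < 2)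
  have s1 := hσ.big r hr
  have s2 : 0 < σ r := by linarith
  have s3 := (le_div_iff₀ (by linarith : 0 < X)).2 hs
  refine ((chain_aux h hσ hF hB hX hU J r z P (by linarith) hJ.le hR hP).scale (by positivity)
    (by rw [mul_div_assoc, mul_div_assoc]; linarith)).mono (by positivity)
    fun ω a ha => ⟨a, ha, ?_⟩
  nlinarith [mul_nonneg hB s2.le]

theorem chain_back (h : IsTC μ) (hσ : Sc σ) (hF : Fr μ κ ϱ f) (hB : 0 ≤ B) (hX : 1 ≤ X)
    (hU : EstU μ σ B X R) (hr : 1 ≤ r) (hR : 200 * r ≤ R) (hs : 10 ^ 8 * X ≤ σ r) (z : ℝ × ℝ)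
    {P : VV} (hP : r1 (iv P - (z + (2 * r) • f.u)) ≤ 4) :
    Dom (fun ω x => ∃ q, Sq f z r q ∧ x = TT ω q P - f.L (iv (P - q)))
      (2 * κ * r + (100 * B + 2000) * σ r) (200 * σ r / X) := by
  have s1 := hσ.big r hr
  refine (chain h hσ (hF.neg h) hB hX hU hr hR hs (z + r • f.u) (P := P) (by
    rwa [show z + r • f.u - r • f.neg.u = z + (2 * r) • f.u by
      simp only [Fd.neg]; module])).mono (div_pos (by linarith) (by linarith)) ?_
  rintro ω a ⟨q, ⟨q1, q2, q3, q4⟩, rfl⟩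
  refine ⟨_, ⟨q, ?_, rfl⟩, ?_⟩
  · simp only [Sq, Fd.neg, ← sub_sub, map_sub _ _ (r • f.u), LinearMap.neg_apply, map_smul, hF.au,
      hF.bu, smul_eq_mul]
    exact ⟨by linarith, by linarith, by linarith, by linarith⟩
  · simp only [Fd.neg, iv_sub, map_sub, LinearMap.neg_apply, TT_symm ω q P]
    linarith

end Pool.Agent.Lib.MP_de94ef_pr.Q
end

-- part Pool.Agent.Lib.MP_de94ef_pr.Q.Tree
section

/-!
Block decomposition in a general frame.
-/

open MeasureTheory ProbabilityTheory Set Real Function Filter Topology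
open scoped ENNReal NNReal

namespace Pool.Agent.Lib.MP_de94ef_pr.Q

variable {μ : ℝ × ℝ → ℝ} {σ : ℝ → ℝ} {κ ϱ B X R m w S : ℝ} {f : Fd}

lemma tree_cell (hF : Fr μ κ ϱ f) (hw : 0 < w) {M : ℕ} {p : VV}
    (h1 : M * m ≤ f.a (iv p)) (h2 : f.a (iv p) ≤ M * m + 1) :
    Cell f.u f.t (cc f.u f.t m w M ⌊f.b (iv p) / w⌋) w p := by
  have a1 := Int.floor_le (f.b (iv p) / w)
  have a2 := Int.lt_floor_add_one (f.b (iv p) / w)
  rw [le_div_iff₀ hw] at a1
  rw [div_lt_iff₀ hw] at a2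
  refine ⟨f.a (iv p) - M * m, f.b (iv p) - ⌊f.b (iv p) / w⌋ * w, by linarith, by linarith, by linarith,
    by linarith, ?_⟩
  conv_lhs => rw [hF.dec (iv p)]
  unfold cc
  module

lemma tree_a (hF : Fr μ κ ϱ f) {M : ℕ} {k : ℤ} {p : VV}
    (h : Cell f.u f.t (cc f.u f.t m w M k) w p) : M * m ≤ f.a (iv p) := by
  obtain ⟨α, β, a1, -, -, -, hp⟩ := h
  rw [hp]
  simp [cc, hF.au, hF.at', a1]

lemma tree_step (h : IsTC μ) (hF : Fr μ κ ϱ f) (hm : 0 ≤ m) (hw : 0 < w) (M : ℕ) (k' : ℤ)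
    (ω : EE → ℝ) : ZZ S⁻¹ (cA f.u f.t f.L m w S (M + 1) k') (fun i => es i.2) ω ≤
      ∑' k : ℤ, ZD S⁻¹ (cA f.u f.t f.L m w S M k) (fun i => es i.2) (cB f.u f.t f.L m w S M k k')
        (fun i => es i.2) ω := by
  refine iSup_le fun ⟨q, γ⟩ => ?_
  unfold cA
  split_ifs with hc
  swap
  · simp
  obtain ⟨hq, hγ⟩ := hc
  have h0 := tree_a hF hq
  have hM : 0 ≤ (M : ℝ) * m := by positivity
  obtain ⟨p, γ1, γ2, rfl, h1, h2⟩ := crossing (φ := fun p => f.a (iv p)) (fun p q hpq => by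
      linarith [(abs_le.1 (hF.a_adj h hpq)).2])
    (c := M * m) γ (by simp; linarith) (by push_cast at h0; linarith)
  have hp := tree_cell hF hw h1 h2
  refine le_trans ?_ (ENNReal.le_tsum ⌊f.b (iv p) / w⌋)
  refine le_iSup_of_le (⟨p, γ1⟩, ⟨(p, q), γ2⟩) ?_
  have hdis := disjoint_of_isTrail hγ
  rw [if_pos hdis]
  simp only [cB]
  rw [if_pos ⟨hp, hγ.of_append_left⟩, if_pos ⟨hp, hq⟩, es_append, WW_union _ _ hdis,
    ← ENNReal.ofReal_mul (exp_pos _).le, ← exp_add, ← add_div, ← map_add, add_sub_cancel]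

lemma tree_aux (h : IsTC μ) (hF : Fr μ κ ϱ f) (hm : 0 ≤ m) (hw : 0 < w) (hS : 0 < S)
    {g : ℤ → ℝ} (hD : ∀ M k j, Dom (Blk f.u f.t f.L m w M k (k + j)) (g j) S) (β : ℝ) (M : ℕ) :
    ∑' k : ℤ, ENNReal.ofReal (exp (β * k)) *
      ∫⁻ ω, ZZ S⁻¹ (cA f.u f.t f.L m w S (M + 1) k) (fun i => es i.2) ω ∂PP EE ≤
      (∑' j : ℤ, ENNReal.ofReal (exp (β * j)) * ENNReal.ofReal (3 * exp (g j / S))) ^ (M + 1) := by
  induction M with
  | zero =>
    rw [zero_add, pow_one]
    refine ENNReal.tsum_le_tsum fun k => mul_le_mul_right ?_ _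
    refine (lintegral_mono fun ω => cA_one hw.le k ω).trans (cB_le hS ?_)
    simpa using hD 0 0 k
  | succ M ih =>
    set Z : ℤ → ℝ≥0∞ := fun k =>
      ∫⁻ ω, ZZ S⁻¹ (cA f.u f.t f.L m w S (M + 1) k) (fun i => es i.2) ω ∂PP EE with hZ
    set Y : ℤ → ℝ≥0∞ := fun j => ENNReal.ofReal (3 * exp (g j / S)) with hY
    have h1 : ∀ k', ∫⁻ ω, ZZ S⁻¹ (cA f.u f.t f.L m w S (M + 1 + 1) k') (fun i => es i.2) ω ∂PP EE ≤
        ∑' k : ℤ, Z k * Y (k' - k) := by
      intro k'
      refine (lintegral_mono fun ω => tree_step h hF hm hw (M + 1) k' ω).trans ?_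
      rw [lintegral_tsum fun k => (measurable_ZD _ _ _ _ _).aemeasurable]
      refine ENNReal.tsum_le_tsum fun k => (bk _ _ _ _ _).trans (mul_le_mul_right ?_ _)
      refine cB_le hS ?_
      simpa using hD (M + 1) k (k' - k)
    calc _ ≤ ∑' k' : ℤ, ∑' k : ℤ, ENNReal.ofReal (exp (β * k)) * Z k *
            (ENNReal.ofReal (exp (β * ((k' - k : ℤ) : ℝ))) * Y (k' - k)) := by
          refine ENNReal.tsum_le_tsum fun k' => (mul_le_mul_right (h1 k') _).trans ?_
          rw [← ENNReal.tsum_mul_left]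
          refine ENNReal.tsum_le_tsum fun k => le_of_eq ?_
          have : exp (β * k') = exp (β * k) * exp (β * ((k' - k : ℤ) : ℝ)) := by
            rw [← exp_add]; congr 1; push_cast; ring
          rw [this, ENNReal.ofReal_mul (exp_pos _).le]; ring
      _ = (∑' k : ℤ, ENNReal.ofReal (exp (β * k)) * Z k) *
            ∑' j : ℤ, ENNReal.ofReal (exp (β * j)) * Y j := by
          rw [ENNReal.tsum_comm, ← ENNReal.tsum_mul_right]
          refine tsum_congr fun k => ?_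
          rw [ENNReal.tsum_mul_left]
          congr 1
          exact (Equiv.subRight k).tsum_eq fun j => ENNReal.ofReal (exp (β * j)) * Y j
      _ ≤ _ := by rw [pow_succ]; exact mul_le_mul_left ih _

theorem treeF (h : IsTC μ) (hF : Fr μ κ ϱ f) (hm : 0 ≤ m) (hw : 0 < w) (hS : 0 < S)
    {g : ℤ → ℝ} (hD : ∀ M k j, Dom (Blk f.u f.t f.L m w M k (k + j)) (g j) S) (β : ℝ) {M : ℕ}
    (hM : 1 ≤ M) {y : VV} (hy : iv y = ((M : ℝ) * m) • f.u) :
    ∫⁻ ω, ENNReal.ofReal (exp ((f.L (iv y) - TT ω 0 y) / S)) ∂PE ≤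
      (∑' j : ℤ, ENNReal.ofReal (3 * exp (g j / S + β * j))) ^ M := by
  obtain ⟨M, rfl⟩ : ∃ M', M = M' + 1 := ⟨M - 1, by omega⟩
  have h1 := tree_aux h hF hm hw hS hD β M
  have e1 : ∀ j : ℤ, ENNReal.ofReal (exp (β * j)) * ENNReal.ofReal (3 * exp (g j / S)) =
      ENNReal.ofReal (3 * exp (g j / S + β * j)) := fun j => by
    rw [← ENNReal.ofReal_mul (exp_pos _).le, exp_add]; congr 1; ring
  simp only [e1] at h1
  refine le_trans ?_ ((ENNReal.le_tsum 0).trans h1)
  simp only [Int.cast_zero, mul_zero, exp_zero, ENNReal.ofReal_one, one_mul]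
  refine lintegral_mono fun ω => ?_
  have := exp_TT_le (l := S⁻¹) (by positivity) (ω := ω) (u := 0) (v := y)
    (ENNReal.ofReal (exp (f.L (iv y) / S))) (by simp)
    (M := ZZ S⁻¹ (cA f.u f.t f.L m w S (M + 1) 0) (fun i => es i.2) ω) fun p hp =>
      le_iSup_of_le ⟨y, p⟩ (by
        simp only [cA]
        rw [if_pos ⟨⟨0, 0, le_rfl, zero_le_one, le_rfl, hw.le, by simp [cc, hy]⟩, hp.isTrail⟩])
  refine le_trans (le_of_eq ?_) this
  rw [← ENNReal.ofReal_mul (exp_pos _).le, ← exp_add]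
  congr 2
  ring

lemma tree_sq (hF : Fr μ κ ϱ f) (hw : 1 ≤ w) {c : ℝ × ℝ} {p : VV} (hp : Cell f.u f.t c w p) :
    Sq f c w p := by
  obtain ⟨α, β, a1, a2, a3, a4, hp⟩ := hp
  have : iv p - c = f.pt α β := by rw [hp, Fd.pt]; abel
  simp only [Sq, this, hF.a_pt, hF.b_pt]
  exact ⟨a1, a2.trans hw, a3, a4⟩

theorem blockF (h : IsTC μ) (hσ : Sc σ) (hF : Fr μ κ ϱ f) (hB : 0 ≤ B) (hX : 1 ≤ X)
    (hU : EstU μ σ B X R) (hw : 1 ≤ w) (hR : 200 * w ≤ R) (hs : 10 ^ 8 * X ≤ σ w) (hS : 0 < S)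
    {g : ℝ} {j : ℤ}
    (hmid : ∀ z, Dom (fun ω x => x = f.L (vq f m w j) - TT ω (fl z) (fl (z + vq f m w j))) g S)
    (M : ℕ) (k : ℤ) :
    Dom (Blk f.u f.t f.L m w M k (k + j))
      (g + 2 * (2 * κ * w + (100 * B + 2000) * σ w) + 16) (S + 400 * σ w / X) := by
  have s1 : 0 < σ w := by linarith
  have s2 : 0 < X := by linarith
  set z := cc f.u f.t m w M k - w • f.u with hz
  have e1 : cc f.u f.t m w (M + 1) (k + j) + (2 * w) • f.u = z + vq f m w j := by
    rw [hz]; unfold cc vq Fd.pt; push_cast; module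
  have h1 := chain h hσ hF hB hX hU hw hR hs (cc f.u f.t m w M k) (P := fl z)
    (by linarith [r1_fl z])
  have h2 := chain_back h hσ hF hB hX hU hw hR hs (cc f.u f.t m w (M + 1) (k + j))
    (P := fl (z + vq f m w j)) (by rw [e1]; linarith [r1_fl (z + vq f m w j)])
  have h3 := r1_fl_sub (z + vq f m w j) z
  rw [add_sub_cancel_left] at h3
  have h5 := (abs_le.1 (hF.L_r1 h (iv (fl (z + vq f m w j) - fl z) - vq f m w j))).2
  have h4 := ((hmid z).add h1 hS (by positivity) (C := fun ω x => ∃ p,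
      Sq f (cc f.u f.t m w M k) w p ∧ x = f.L (vq f m w j) - TT ω (fl z) (fl (z + vq f m w j)) +
        (TT ω (fl z) p - f.L (iv (p - fl z)))) (by
      rintro ω x ⟨p, hp, rfl⟩
      exact ⟨_, _, rfl, ⟨p, hp, rfl⟩, le_rfl⟩)).add h2 (by positivity) (by positivity)
    (C := fun ω x => Blk f.u f.t f.L m w M k (k + j) ω (x + 4)) (by
      rintro ω x ⟨p, q, hp, hq, hx⟩
      refine ⟨_, _, ⟨p, tree_sq hF hw hp, rfl⟩, ⟨q, tree_sq hF hw hq, rfl⟩, ?_⟩
      have t1 := TT_triangle ω (fl z) p (fl (z + vq f m w j))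
      have t2 := TT_triangle ω p q (fl (z + vq f m w j))
      simp only [iv_sub, map_sub] at *
      linarith)
  refine (h4.scale (by positivity) (le_of_eq (by ring))).mono (by positivity)
    fun ω x hx => ⟨x - 4, by rwa [sub_add_cancel], by linarith⟩

lemma vq_low (h : IsTC μ) (hF : Fr μ κ ϱ f) (hm : 0 ≤ m) (hw : 0 ≤ w) (j : ℤ) :
    κ * w * |(j : ℝ)| - (2 * κ * (m + 3 * w) + 2) ≤ hh (fl (vq f m w j)) - f.L (vq f m w j) := by
  have h1 := hF.low' (vq f m w j)
  have h2 := h.le_fl (vq f m w j)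
  rw [vq, hF.a_pt, hF.b_pt, abs_mul, abs_of_nonneg hw,
    abs_of_nonneg (a := m + 3 * w) (by linarith)] at h1
  unfold vq at *
  linarith

/-- Gains between anchors in a tangent frame. -/
lemma midF (h : IsTC μ) (hσ : Sc σ) (hc : Conc σ R) (hF : Fr μ κ 1 f) (hm : 1 ≤ m) (hw : 0 ≤ w)
    (hwm : w ≤ m) (hR : 1024 * m ≤ R) (j : ℤ) (z : ℝ × ℝ) :
    Dom (fun ω x => x = f.L (vq f m w j) - TT ω (fl z) (fl (z + vq f m w j)))
      (-(hh (fl (vq f m w j)) - f.L (vq f m w j)) / 2 + 4 * κ * m + 6) (32 * σ m) := by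
  have hκ := hF.κpos
  have f1 := vq_low h hF (m := m) (by linarith) hw j
  have fa : f.a (vq f m w j) = m + 3 * w := hF.a_pt ..
  have f2 := hF.low2 h (vq f m w j) (by linarith)
  have f0 : 0 ≤ κ * w * |(j : ℝ)| := by positivity
  rw [fa] at f2
  generalize vq f m w j = v at *
  have f3 := h.le_fl v
  have h2 := r1_fl_sub (z + v) z
  have h2' := n1_fl_sub (z + v) z
  rw [add_sub_cancel_left] at h2 h2'
  have h3 := h.le_add (iv (fl (z + v) - fl z)) v
  have h4 := h.ge (iv (fl (z + v) - fl z))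
  rw [r1_iv] at h4
  have h5 := hh_lip (fl v) (fl (z + v) - fl z)
  have h6 := mul_le_mul_of_nonneg_left hwm hκ.le
  have h9 := hσ.big m hm
  have h10 : 0 ≤ κ * m := by positivity
  rcases le_total (μ v + 2) (93 * m) with hs | hs
  · have h7 := hσ.mul m 32 (by linarith) (by norm_num)
    have h8 := hσ.big (32 ^ 2 * m) (by linarith)
    refine ((hc (fl z) (fl (z + v)) (32 ^ 2 * m) (by linarith) (by linarith)
      (by linarith)).2.scale (by linarith) h7).mono (by linarith) fun ω x hx => ⟨_, rfl, ?_⟩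
    rw [hx]; linarith
  · refine (dom_gauss (fl z) (fl (z + v)) (n := 11 * (μ v + 2)) (s := 32 * σ m) (by linarith)
      (by linarith) (Or.inr rfl)).mono (by linarith) fun ω x hx => ⟨_, rfl, ?_⟩
    have h7 : 46000 * (2 * (11 * (μ v + 2)) + 1) / (32 * σ m) ≤ 1 / 8 * (μ v + 2) := by
      rw [div_le_iff₀ (by linarith)]
      nlinarith
    rw [hx]; linarith

end Pool.Agent.Lib.MP_de94ef_pr.Q
end

-- part Pool.Agent.Lib.MP_de94ef_pr.Q.Mean
section

/-!
Non-random fluctuations are controlled by the random ones.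
-/

open MeasureTheory ProbabilityTheory Set Real Function Filter Topology
open scoped ENNReal NNReal

namespace Pool.Agent.Lib.MP_de94ef_pr.Q

variable {μ : ℝ × ℝ → ℝ} {σ : ℝ → ℝ} {B R R' R'' : ℝ}

lemma estBase (h : IsTC μ) (hσ : Sc σ) (hc : Conc σ R) (hU : UpB μ σ B R') (hB : 0 ≤ B)
    (h1 : R'' ≤ R) (h2 : R'' ≤ R') : EstU μ σ B 1 R'' ∧ EstD μ σ B 1 R'' := by
  refine ⟨fun x y r hn hr hR => ?_, fun x y r hn hr hR => ?_⟩
  · have s1 := hσ.big r hr
    have h3 := h.le (iv (y - x))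
    rw [r1_iv] at h3
    have h4 := hU (y - x) r (h3.trans hn) (hR.trans h2)
    rw [div_one]
    exact (hc x y r hn hr (hR.trans h1)).1.mono (by linarith) fun ω a ha =>
      ⟨_, rfl, by rw [ha]; linarith⟩
  · have s1 := hσ.big r hr
    have h3 := h.le_hh (y - x)
    have h4 := mul_nonneg hB (hσ.nonneg r (by linarith))
    rw [div_one]
    exact (hc x y r hn hr (hR.trans h1)).2.mono (by linarith) fun ω a ha =>
      ⟨_, rfl, by rw [ha]; linarith⟩

lemma mean_G_ge {κ ϱ m w S : ℝ} {f : Fd} (h : IsTC μ) (hF : Fr μ κ ϱ f) (hL : f.L f.u = 1)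
    (hm : 0 ≤ m) (hw : 0 < w) (hS : 0 < S)
    {g : ℤ → ℝ} (hD : ∀ M k j, Dom (Blk f.u f.t f.L m w M k (k + j)) (g j) S) (β : ℝ) {K : ℕ}
    (hK : 1 ≤ K) {x : VV} (hx : iv x = ((K : ℝ) * m) • f.u) (hn : μ (iv x) = K * m) :
    ¬ ∑' j : ℤ, ENNReal.ofReal (3 * exp (g j / S + β * j)) ≤ ENNReal.ofReal (1 / 2) := by
  intro hG
  obtain ⟨N, hN, hN'⟩ := h.lim x (S / 2) (by linarith)
  have hy : iv (N • x) = (((N * K : ℕ) : ℝ) * m) • f.u := by
    rw [iv_nsmul, hx, smul_smul]; push_cast; rw [mul_assoc]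
  have h1 := treeF h hF hm hw hS hD β (M := N * K) (y := N • x) (Nat.mul_pos hN hK) hy
  have h2 := (exp_le_lintegral _ _).trans (h1.trans (pow_le_pow_left' hG _))
  rw [← ENNReal.ofReal_pow (by norm_num), ENNReal.ofReal_le_ofReal_iff (by positivity), hy,
    map_smul, hL, smul_eq_mul, mul_one] at h2
  have h3 : (1 / 2 : ℝ) ^ (N * K) ≤ (1 / 2) ^ N :=
    pow_le_pow_of_le_one (by norm_num) (by norm_num) (Nat.le_mul_of_pos_right _ hK)
  have h4 : exp (-(1 / 2)) ^ N ≤ exp ((((N * K : ℕ) : ℝ) * m - hh (N • x)) / S) := by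
    rw [← exp_nat_mul]
    refine exp_le_exp.2 ?_
    rw [le_div_iff₀ hS]
    rw [hn] at hN'
    push_cast
    linarith
  have h5 : (1 / 2 : ℝ) ^ N < exp (-(1 / 2)) ^ N :=
    pow_lt_pow_left₀ (by linarith [add_one_lt_exp (x := -(1 / 2)) (by norm_num)]) (by norm_num)
      (by omega)
  linarith

/-- Excess of the mean passage time between consecutive anchors. -/
noncomputable def meanF (f : Fd) (m w : ℝ) (j : ℤ) : ℝ :=
  hh (fl (vq f m w j)) - f.L (vq f m w j)

lemma mean_two_blocks {δ Λ m : ℝ} {f : Fd} (h : IsTC μ) (hσ : Sc σ) (hc : Conc σ R)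
    (hδ1 : δ ≤ 1)
    (hΛ : ∑' j : ℤ, ENNReal.ofReal (exp (-(δ / 1728) * |(j : ℝ)|)) ≤ ENNReal.ofReal (exp Λ))
    (hB : 0 ≤ B) (hU : EstU μ σ B 1 R'') (hm : 1 ≤ m) (hw : 1 ≤ δ * m)
    (hF : Fr μ (σ m / m) 1 f) (hL : f.L f.u = 1) (hR : 1024 * m ≤ R) (hR' : 200 * m ≤ R'')
    {K : ℕ} (hK : 1 ≤ K) {x : VV} (hx : iv x = ((K : ℝ) * m) • f.u) (hn : μ (iv x) = K * m) :
    ∃ (j j' : ℤ) (p : ℝ), 0 ≤ p ∧ p ≤ 1 ∧ p * j + (1 - p) * j' = 0 ∧
      p * meanF f m (δ * m) j + (1 - p) * meanF f m (δ * m) j' ≤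
        800 * B * σ (δ * m) + (1728 * Λ + 20000) * σ m := by
  refine two_point _ _ fun ⟨β, hβ⟩ => ?_
  have s1 := hσ.big m hm
  have s2 := hσ.big _ hw
  have hwm : δ * m ≤ m := by nlinarith
  have s3 := hσ.mono _ _ (by linarith) hwm
  have hD : ∀ (M : ℕ) (k j : ℤ), Dom (Blk f.u f.t f.L m (δ * m) M k (k + j))
      (-meanF f m (δ * m) j / 2 + 4 * (σ m / m) * m + 6 +
        2 * (2 * (σ m / m) * (δ * m) + (100 * B + 2000) * σ (δ * m)) + 16) (432 * σ m) :=
    fun M k j => (blockF h hσ hF hB le_rfl hU hw (by linarith) (by linarith) (by linarith)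
      (midF h hσ hc hF hm (by linarith) hwm hR j) M k).scale (by positivity) (by linarith)
  refine mean_G_ge h hF hL (by linarith) (by linarith) (by linarith) hD (β / (4 * (432 * σ m)))
    hK hx hn ((G_le hΛ (A := -Λ - 2) fun j => ?_).trans (ENNReal.ofReal_le_ofReal ?_))
  · have f1 : _ ≤ meanF f m (δ * m) j := vq_low h hF (m := m) (by linarith) (by linarith) j
    have f2 := hβ j
    have k1 : σ m / m * (δ * m) = δ * σ m := by field_simp
    have k2 : σ m / m * m = σ m := by field_simp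
    have k4 : δ * σ m ≤ σ m := by nlinarith
    have e1 : β / (4 * (432 * σ m)) * j = (β * j / 4) / (432 * σ m) := by
      field_simp
    rw [e1, ← add_div, div_le_iff₀ (by linarith)]
    rw [k1] at f1
    linarith
  · have : exp (-Λ - 2 + Λ) = (exp 1 * exp 1)⁻¹ := by
      rw [← exp_add, ← exp_neg]; congr 1; ring
    rw [this, ← div_eq_mul_inv, div_le_iff₀ (by positivity)]
    nlinarith [exp_one_gt_d9]

lemma mean_step {δ Λ m : ℝ} (h : IsTC μ) (hσ : Sc σ) (hc : Conc σ R) (hδ1 : δ ≤ 1)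
    (hΛ0 : 0 ≤ Λ)
    (hΛ : ∑' j : ℤ, ENNReal.ofReal (exp (-(δ / 1728) * |(j : ℝ)|)) ≤ ENNReal.ofReal (exp Λ))
    (hB : 10 ^ 10 * (Λ + 1) ≤ B) (IH : UpB μ σ B R') {x : VV} (hm : μ (iv x) = 4096 * m)
    (hw : 1 ≤ δ * m) (s2 : σ (δ * m) ≤ 1 / 10 ^ 9 * σ m)
    (h1 : μ (iv x) ≤ 2 * R) (h2 : μ (iv x) ≤ 2 * R') :
    hh x ≤ μ (iv x) + B * σ (μ (iv x)) := by
  have hB0 : 0 ≤ B := le_trans (by positivity) hB
  have hm0 : 0 ≤ m := by linarith [h.nonneg (iv x)]
  have hwm : δ * m ≤ m := by nlinarith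
  have hm1 : 1 ≤ m := by linarith
  have hx11 : hh x ≤ 11 * μ (iv x) := by
    have := h.ge (iv x)
    rw [r1_iv] at this
    linarith [hh_le x]
  rcases le_total (11 * μ (iv x)) (B * σ (μ (iv x))) with hc' | hc'
  · linarith
  have s1 := hσ.big m hm1
  have s3 := hσ.mono m (μ (iv x)) hm0 (by linarith)
  have c2 := mul_le_mul_of_nonneg_left s3 hB0
  have c3 := mul_le_mul_of_nonneg_right hB (hσ.nonneg m hm0)
  have c4 : 0 ≤ Λ * σ m := by positivity
  have hκ : σ m / m ≤ 1 / 2 := by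
    rw [div_le_iff₀ (by linarith)]
    linarith
  obtain ⟨f, hu, hL, hF⟩ := exists_tangent h (unit_dir h hm (by linarith)) (κ := σ m / m)
    (by positivity) hκ
  rw [← hu] at hL
  have hx : iv x = (4096 * m) • f.u := by rw [hu, smul_inv_smul₀ (by positivity)]
  clear hu
  obtain ⟨j, j', p, p0, p1, hp, hθ⟩ := mean_two_blocks h hσ hc hδ1 hΛ hB0
    (estBase h hσ hc IH hB0 (min_le_left _ _) (min_le_right _ _)).1 hm1 hw hF hL (by linarith)
    (le_min (by linarith) (by linarith)) (K := 4096) (by norm_num) (by simpa using hx)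
    (by simpa using hm)
  have s4 := hσ.half (μ (iv x)) (by linarith)
  have f1 : ∀ j, _ ≤ meanF f m (δ * m) j := fun j => vq_low h hF hm0 (by linarith) j
  have f2 : ∀ j : ℤ, f.L (vq f m (δ * m) j) ≤ μ (vq f m (δ * m) j) / 2 + 12 * m := fun j => by
    have e : f.a (vq f m (δ * m) j) = m + 3 * (δ * m) := hF.a_pt _ _
    have := hF.low2 h (vq f m (δ * m) j) (by rw [e]; linarith)
    rw [e] at this
    linarith
  have k2 : σ m / m * m = σ m := by field_simp
  have k4 : σ m / m * (δ * m) ≤ σ m / m * m := by gcongr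
  have f3 : ∀ j, 0 ≤ meanF f m (δ * m) j + 9 * σ m := fun j => by
    have : 0 ≤ σ m / m * (δ * m) * |(j : ℝ)| := by positivity
    linarith [f1 j]
  have sw := hσ.nonneg (δ * m) (by linarith)
  generalize δ * m = w at *
  obtain ⟨s, hs⟩ : ∃ s, s = 4096 * m / (m + 3 * w) := ⟨_, rfl⟩
  have hs0 : 0 ≤ s := by rw [hs]; positivity
  have hs1 : s ≤ 4096 := by rw [hs, div_le_iff₀ (by positivity)]; linarith
  have hs2 : s * (m + 3 * w) = 4096 * m := by rw [hs]; field_simp
  have hxv : iv x = (p * s) • vq f m w j + ((1 - p) * s) • vq f m w j' := by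
    have : (p * s) • vq f m w j + ((1 - p) * s) • vq f m w j' =
        (s * (m + 3 * w)) • f.u + (s * w * (p * j + (1 - p) * j')) • f.t := by
      unfold vq Fd.pt; module
    rw [this, hp, hs2, hx]; simp
  obtain ⟨y, θ, θ', a1, a2, a3, a4, a5, a6, a7, a8⟩ := combine h (by positivity)
    (mul_nonneg (by linarith) hs0) hxv
  have hL' : p * s * f.L (vq f m w j) + (1 - p) * s * f.L (vq f m w j') = 4096 * m := by
    have := congrArg f.L hxv
    rw [hx, map_smul, hL, map_add, map_smul, map_smul] at this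
    simp only [smul_eq_mul] at this
    linarith
  have g1 := h.le_fl (vq f m w j)
  have g2 := h.le_fl (vq f m w j')
  have g3 := f2 j
  have g4 := f2 j'
  have g5 := f3 j
  have g6 := f3 j'
  have e1 : hh (fl (vq f m w j)) = meanF f m w j + f.L (vq f m w j) := by unfold meanF; ring
  have e2 : hh (fl (vq f m w j')) = meanF f m w j' + f.L (vq f m w j') := by unfold meanF; ring
  rw [e1] at g1 a8
  rw [e2] at g2 a8
  clear f1 f2 f3 e1 e2 hxv
  generalize meanF f m w j = F at *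
  generalize meanF f m w j' = F' at *
  generalize f.L (vq f m w j) = l at *
  generalize f.L (vq f m w j') = l' at *
  generalize μ (vq f m w j) = M at *
  generalize μ (vq f m w j') = M' at *
  have b1 : 4096 * (800 * B * σ w + (1728 * Λ + 20009) * σ m) + 10000 ≤
      1 / 64 * (B * σ (μ (iv x))) := by
    have c1 := mul_le_mul_of_nonneg_left s2 hB0
    linarith
  have b0 : 0 ≤ 800 * B * σ w + (1728 * Λ + 20000) * σ m := by positivity
  have b2 : p * s * F + (1 - p) * s * F' ≤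
      4096 * (800 * B * σ w + (1728 * Λ + 20000) * σ m) := by
    have c1 := mul_le_mul_of_nonneg_left hθ hs0
    have c2 := mul_le_mul_of_nonneg_right hs1 b0
    linarith
  have b3 : μ (iv y) ≤ μ (iv x) / 2 := by
    have c1 := mul_le_mul_of_nonneg_right a3 g5
    have c2 := mul_le_mul_of_nonneg_right a6 g6
    have c3 := mul_le_mul_of_nonneg_left (show M ≤ 2 * (F + 9 * σ m) + (4 + 24 * m) by linarith)
      a1
    have c4 := mul_le_mul_of_nonneg_left
      (show M' ≤ 2 * (F' + 9 * σ m) + (4 + 24 * m) by linarith) a4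
    have c5 := mul_le_mul_of_nonneg_right a2 (show 0 ≤ 4 + 24 * m by linarith)
    have c6 := mul_le_mul_of_nonneg_right a5 (show 0 ≤ 4 + 24 * m by linarith)
    have c7 := mul_le_mul_of_nonneg_right hs1 (hσ.nonneg m hm0)
    linarith
  have b4 := IH y _ b3 (by linarith)
  have d1 := mul_le_mul_of_nonneg_left s4 hB0
  have d3 := mul_le_mul_of_nonneg_left (show M ≤ F + l + 2 by linarith) a1
  have d4 := mul_le_mul_of_nonneg_left (show M' ≤ F' + l' + 2 by linarith) a4
  linarith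

lemma mean_small (h : IsTC μ) (hσ : Sc σ) (hB : 0 ≤ B) {y : VV} (hy : μ (iv y) ≤ 4096 * B) :
    hh y ≤ μ (iv y) + B * σ (μ (iv y)) := by
  have h0 := h.nonneg (iv y)
  have h1 := h.ge (iv y)
  rw [r1_iv] at h1
  have h2 := hh_le y
  by_cases hy0 : y = 0
  · have := mul_nonneg hB (hσ.nonneg _ h0)
    rw [hy0, hh_zero, ← hy0]
    linarith
  have h3 : 1 ≤ n1 y := by
    have h4 : 1 ≤ |y.1| + |y.2| := by
      by_contra hn
      have a1 := abs_nonneg y.1
      have a2 := abs_nonneg y.2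
      exact hy0 (Prod.ext (abs_eq_zero.1 (by omega)) (abs_eq_zero.1 (by omega)))
    unfold n1
    exact_mod_cast h4
  have h4 := hσ.le (r := 1) (r' := μ (iv y)) (k := 4) zero_le_one h0 (by norm_num) (by linarith)
  have h5 := hσ.big 1 le_rfl
  have h6 := mul_le_mul_of_nonneg_left (show 10 ^ 29 ≤ σ (μ (iv y)) by linarith) hB
  linarith

theorem meanB : ∃ B0 : ℝ, 0 ≤ B0 ∧ ∀ (μ : ℝ × ℝ → ℝ) (σ : ℝ → ℝ) (R : ℝ), IsTC μ → Sc σ →
    Conc σ R → UpB μ σ B0 (2 * R) := by
  obtain ⟨J, hJ⟩ := exists_pow_lt_of_lt_one (x := (1 / 10 ^ 9 : ℝ)) (y := 3 / 4) (by positivity)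
    (by norm_num)
  obtain ⟨Λ, hΛ0, hΛ⟩ := sum_exp (ε := (2 ^ J)⁻¹ / 1728) (by positivity)
  have hJ1 : (1 : ℝ) ≤ 2 ^ J := one_le_pow₀ (by norm_num)
  obtain ⟨B, hB1, hB2⟩ : ∃ B : ℝ, 10 ^ 10 * (Λ + 1) ≤ B ∧ 2 ^ J ≤ B :=
    ⟨_, le_max_left _ _, le_max_right _ _⟩
  have hB0 : 0 ≤ B := by linarith
  refine ⟨B, hB0, fun μ σ R h hσ hc => ?_⟩
  have up : ∀ (y : VV) (r : ℝ), μ (iv y) ≤ r → hh y ≤ μ (iv y) + B * σ (μ (iv y)) →
      hh y ≤ μ (iv y) + B * σ r := fun y r h1 h2 => by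
    linarith [mul_le_mul_of_nonneg_left (hσ.mono _ _ (h.nonneg _) h1) hB0]
  have all : ∀ k : ℕ, UpB μ σ B (min (2 ^ k) (2 * R)) := by
    intro k
    induction k with
    | zero =>
      intro y r h1 h2
      have h3 := h2.trans (min_le_left _ _)
      rw [pow_zero] at h3
      exact up y r h1 (mean_small h hσ hB0 (by linarith))
    | succ k ih =>
      intro y r h1 h2
      refine up y r h1 ?_
      have h3 := h2.trans (min_le_left _ _)
      have h4 := h2.trans (min_le_right _ _)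
      have h0 := h.nonneg (iv y)
      rw [pow_succ] at h3
      rcases le_total (μ (iv y)) (4096 * B) with hy | hy
      · exact mean_small h hσ hB0 hy
      · refine mean_step (m := μ (iv y) / 4096) h hσ hc (inv_le_one_of_one_le₀ hJ1) hΛ0 hΛ hB1 ih
          (by ring) ?_ ?_ (by linarith) ?_
        · rw [inv_mul_eq_div, one_le_div (by positivity)]
          linarith
        · rw [inv_mul_eq_div]
          exact (hσ.pow_half (by positivity) J).trans
            (mul_le_mul_of_nonneg_right hJ.le (hσ.nonneg _ (by positivity)))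
        · rw [mul_min_of_nonneg _ _ (by norm_num : (0 : ℝ) ≤ 2)]
          exact le_min (by linarith) (by linarith)
  intro y r h1 h2
  obtain ⟨k, hk⟩ := pow_unbounded_of_one_lt r (show (1 : ℝ) < 2 by norm_num)
  exact all k y r h1 (le_min hk.le h2)

end Pool.Agent.Lib.MP_de94ef_pr.Q
end
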