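import Pool.Agent.Lib.MP_de94ef_pr.Q.Frame

-- part Pool.Agent.Lib.MP_de94ef_pr.Q.Pert1
section

/-!
The optimal perturbation of one exponential variable.
-/

open MeasureTheory ProbabilityTheory Set Real Function Filter Topology
open scoped ENNReal NNReal

namespace Pool.Agent.Lib.MP_de94ef_pr.Q

/-- Non-decreasing `1`-Lipschitz functions on the half line. -/
structure L1 (φ : ℝ → ℝ) : Prop where
  meas : Measurable φ
  mono : ∀ u s, 0 ≤ u → 0 ≤ s → φ u ≤ φ (u + s)
  lip : ∀ u s, 0 ≤ u → 0 ≤ s → φ (u + s) ≤ φ u + s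

/-- The shift. -/
noncomputable def g1 (φ : ℝ → ℝ) (u : ℝ) : ℝ := ∫ y, φ (max u 0 + y) ∂nu - ∫ y, φ y ∂nu

/-- The centred function. -/
noncomputable def d1 (φ : ℝ → ℝ) (u : ℝ) : ℝ := φ (max u 0) - ∫ y, φ y ∂nu

/-- The squared derivative of the shift. -/
noncomputable def r1' (φ : ℝ → ℝ) (u : ℝ) : ℝ := (g1 φ u - d1 φ u) ^ 2

variable {φ : ℝ → ℝ}

lemma pert1_nu : nu = (volume.restrict (Ioi 0)).withDensity fun x => ENNReal.ofReal (exp (-x)) := by
  ext s hs
  rw [withDensity_apply _ hs, ← lintegral_indicator_one hs,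
    lintegral_nu (measurable_one.indicator hs), ← lintegral_indicator hs]
  refine lintegral_congr fun x => ?_
  by_cases hx : x ∈ s <;> simp [hx]

lemma pert1_integral (f : ℝ → ℝ) : ∫ x, f x ∂nu = ∫ x in Ioi (0 : ℝ), exp (-x) * f x := by
  rw [pert1_nu, integral_withDensity_eq_integral_toReal_smul (by fun_prop) (by simp)]
  simp [ENNReal.toReal_ofReal (exp_pos _).le]

lemma pert1_integrableOn {f : ℝ → ℝ} (hf : Integrable f nu) :
    IntegrableOn (fun x => exp (-x) * f x) (Ioi 0) := by
  rw [pert1_nu, integrable_withDensity_iff_integrable_smul' (by fun_prop) (by simp)] at hf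
  simpa [IntegrableOn, ENNReal.toReal_ofReal (exp_pos _).le] using hf

lemma pert1_shift (f : ℝ → ℝ) (u : ℝ) :
    ∫ y, f (u + y) ∂nu = exp u * ∫ z in Ioi u, exp (-z) * f z := by
  rw [pert1_integral, ← (measurePreserving_add_left volume u).setIntegral_preimage_emb
    (measurableEmbedding_addLeft u) (fun z => exp (-z) * f z), ← integral_const_mul]
  simp only [preimage_const_add_Ioi, sub_self]
  refine integral_congr_ae (ae_of_all _ fun y => ?_)
  simp only
  rw [← mul_assoc, ← exp_add]
  congr 2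
  ring

lemma pert1_int {f : ℝ → ℝ} (hf : Measurable f) (C : ℝ)
    (h : ∀ u, |f u| ≤ C * (max u 0 + 1) ^ 2) : Integrable f nu := by
  have h1 : Integrable (fun x : ℝ => exp (1 / 2 * max x 0)) nu := by
    refine ⟨(by fun_prop : Measurable fun x : ℝ => exp (1 / 2 * max x 0)).aestronglyMeasurable, ?_⟩
    rw [hasFiniteIntegral_iff_ofReal (ae_of_all _ fun x => (exp_pos _).le),
      lintegral_exp_nu (by norm_num)]
    simp
  refine (h1.const_mul (|C| * 16)).mono' hf.aestronglyMeasurable (ae_of_all _ fun u => ?_)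
  have h2 := add_one_le_exp (1 / 4 * max u 0)
  have h3 : exp (1 / 2 * max u 0) = exp (1 / 4 * max u 0) ^ 2 := by
    rw [sq, ← exp_add]; congr 1; ring
  have h4 := le_max_right u 0
  calc ‖f u‖ ≤ |C| * (max u 0 + 1) ^ 2 :=
        (h u).trans (mul_le_mul_of_nonneg_right (le_abs_self C) (sq_nonneg _))
    _ ≤ |C| * (4 * exp (1 / 4 * max u 0)) ^ 2 := by gcongr; linarith
    _ = _ := by rw [h3]; ring

lemma pert1_exp {x : ℝ} (h0 : 0 ≤ x) (h1 : x ≤ 1 / 2) : exp (-(x + x ^ 2)) ≤ 1 - x := by
  have h2 := quadratic_le_exp_of_nonneg (x := x + x ^ 2) (by positivity)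
  have h3 : 0 ≤ x ^ 2 * (1 - x - x ^ 2 - x ^ 3) :=
    mul_nonneg (sq_nonneg x) (by nlinarith [mul_nonneg h0 h0])
  rw [exp_neg, inv_le_iff_one_le_mul₀ (exp_pos _)]
  nlinarith [mul_le_mul_of_nonneg_left h2 (show 0 ≤ 1 - x by linarith)]

lemma L1.int (h : L1 φ) {c : ℝ} (hc : 0 ≤ c) : Integrable (fun y => φ (c + y)) nu := by
  refine ((integrable_const |φ c|).add integrable_pos_nu).mono'
    (h.meas.comp (measurable_const_add c)).aestronglyMeasurable ?_
  filter_upwards [nu_ae_pos] with y hy
  have h1 := h.mono c y hc hy.le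
  have h2 := h.lip c y hc hy.le
  simp only [Pi.add_apply, max_eq_left hy.le, Real.norm_eq_abs, abs_le]
  constructor <;> linarith [le_abs_self (φ c), neg_abs_le (φ c)]

lemma L1.int0 (h : L1 φ) : Integrable φ nu := by simpa using h.int le_rfl

lemma L1.rho (h : L1 φ) {c : ℝ} (hc : 0 ≤ c) :
    φ c ≤ ∫ y, φ (c + y) ∂nu ∧ ∫ y, φ (c + y) ∂nu ≤ φ c + 1 := by
  constructor
  · have h1 := integral_mono_ae (integrable_const (φ c)) (h.int hc)
      (nu_ae_pos.mono fun y hy => h.mono c y hc hy.le)
    simpa using h1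
  · have h1 := integral_mono_ae (h.int hc) ((integrable_const (φ c)).add integrable_pos_nu)
      (nu_ae_pos.mono fun y hy => by simpa [hy.le] using h.lip c y hc hy.le)
    simp only [Pi.add_apply] at h1
    rw [integral_add (integrable_const _) integrable_pos_nu, integral_pos_nu] at h1
    simpa using h1

lemma L1.g_nonneg (h : L1 φ) (u : ℝ) : 0 ≤ g1 φ u :=
  sub_nonneg.2 (integral_mono_ae h.int0 (h.int (le_max_right _ _))
    (nu_ae_pos.mono fun y hy => by
      simpa [add_comm] using h.mono y _ hy.le (le_max_right u 0)))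

lemma L1.g_le (h : L1 φ) (u : ℝ) : g1 φ u ≤ max u 0 := by
  have h1 := integral_mono_ae (h.int (le_max_right u 0)) (h.int0.add (integrable_const (max u 0)))
    (nu_ae_pos.mono fun y hy => by simpa [add_comm] using h.lip y _ hy.le (le_max_right u 0))
  simp only [Pi.add_apply] at h1
  rw [integral_add h.int0 (integrable_const _)] at h1
  simp only [integral_const, probReal_univ, smul_eq_mul, one_mul] at h1
  unfold g1
  linarith

lemma L1.rho' (h : L1 φ) (u : ℝ) : 0 ≤ g1 φ u - d1 φ u ∧ g1 φ u - d1 φ u ≤ 1 := by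
  have h1 := h.rho (le_max_right u 0)
  unfold g1 d1
  constructor <;> linarith [h1.1, h1.2]

lemma L1.r_le (h : L1 φ) (u : ℝ) : r1' φ u ≤ 1 :=
  pow_le_one₀ (h.rho' u).1 (h.rho' u).2

lemma L1.abs_d (h : L1 φ) (u : ℝ) : |d1 φ u| ≤ max u 0 + 1 := by
  have h1 := h.rho le_rfl
  have h2 := h.mono 0 _ le_rfl (le_max_right u 0)
  have h3 := h.lip 0 _ le_rfl (le_max_right u 0)
  simp only [zero_add] at h1 h2 h3
  unfold d1
  rw [abs_le]
  constructor <;> linarith [h1.1, h1.2, le_max_right u 0]

lemma L1.mean_d (h : L1 φ) : ∫ u, d1 φ u ∂nu = 0 := by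
  rw [integral_congr_ae (g := fun u => φ u - ∫ y, φ y ∂nu)
    (nu_ae_pos.mono fun u hu => by simp [d1, hu.le]), integral_sub h.int0 (integrable_const _)]
  simp

lemma L1.lip_d (h : L1 φ) : LipschitzWith 1 (d1 φ) := by
  refine LipschitzWith.of_le_add fun x y => ?_
  have h1 := abs_max_sub_max_le_abs x y 0
  unfold d1
  rw [Real.dist_eq]
  rcases le_total (max x 0) (max y 0) with h2 | h2
  · have h3 := h.mono _ _ (le_max_right x 0) (sub_nonneg.2 h2)
    rw [add_sub_cancel] at h3
    linarith [abs_nonneg (x - y)]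
  · have h3 := h.lip _ _ (le_max_right y 0) (sub_nonneg.2 h2)
    rw [add_sub_cancel] at h3
    linarith [le_abs_self (max x 0 - max y 0)]

lemma L1.int_d (h : L1 φ) : Integrable (d1 φ) nu :=
  pert1_int h.lip_d.continuous.measurable 1 fun u =>
    (h.abs_d u).trans (by nlinarith [le_max_right u 0])

/-- The shift multiplied by the density. -/
noncomputable def pert1K (φ : ℝ → ℝ) (u : ℝ) : ℝ := ∫ z in (0 : ℝ)..u, -(exp (-z) * d1 φ z)

lemma L1.cont_k (h : L1 φ) : Continuous fun z => -(exp (-z) * d1 φ z) := by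
  have := h.lip_d.continuous
  fun_prop

lemma L1.deriv_K (h : L1 φ) (u : ℝ) : HasDerivAt (pert1K φ) (-(exp (-u) * d1 φ u)) u :=
  (h.cont_k.integral_hasStrictDerivAt 0 u).hasDerivAt

lemma L1.g_eq (h : L1 φ) {u : ℝ} (hu : 0 ≤ u) : g1 φ u = exp u * pert1K φ u := by
  have h1 := pert1_integrableOn h.int_d
  have h2 := intervalIntegral.integral_interval_add_Ioi h1 (h1.mono_set (Ioi_subset_Ioi hu))
  rw [← pert1_integral, h.mean_d] at h2
  rw [pert1K, intervalIntegral.integral_neg, neg_eq_of_add_eq_zero_right h2, ← pert1_shift,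
    integral_congr_ae (g := fun y => φ (u + y) - ∫ y, φ y ∂nu)
      (nu_ae_pos.mono fun y hy => by simp [d1, add_nonneg hu hy.le]),
    integral_sub (h.int hu) (integrable_const _)]
  simp [g1, hu]

lemma L1.K_eq (h : L1 φ) {u : ℝ} (hu : 0 ≤ u) : pert1K φ u = exp (-u) * g1 φ u := by
  rw [h.g_eq hu, ← mul_assoc, ← exp_add]
  simp

lemma L1.cont_g (h : L1 φ) : Continuous (g1 φ) := by
  have h1 : g1 φ = fun u => exp (max u 0) * pert1K φ (max u 0) := by
    funext u
    rw [← h.g_eq (le_max_right _ _)]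
    simp [g1]
  have h2 : Continuous (pert1K φ) := continuous_iff_continuousAt.2 fun u =>
    (h.deriv_K u).continuousAt
  rw [h1]
  fun_prop

lemma L1.deriv_g (h : L1 φ) {u : ℝ} (hu : 0 < u) : HasDerivAt (g1 φ) (g1 φ u - d1 φ u) u := by
  have h1 := ((hasDerivAt_exp u).mul (h.deriv_K u)).congr_of_eventuallyEq
    (f₁ := g1 φ) ((lt_mem_nhds hu).mono fun x hx => h.g_eq hx.le)
  refine h1.congr_deriv ?_
  rw [← h.g_eq hu.le, mul_neg, ← mul_assoc, ← exp_add]
  simp [sub_eq_add_neg]

lemma L1.int_dd (h : L1 φ) : Integrable (fun u => d1 φ u ^ 2) nu := by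
  have := h.lip_d.continuous
  refine pert1_int (by fun_prop) 1 fun u => ?_
  rw [abs_pow, one_mul]
  exact pow_le_pow_left₀ (abs_nonneg _) (h.abs_d u) 2

lemma pert1_lim {f : ℝ → ℝ} (h : ∀ u, 1 ≤ u → |f u| ≤ 2 * u ^ 2) :
    Tendsto (fun u => exp (-u) * f u) atTop (𝓝 0) := by
  have h1 := (tendsto_pow_mul_exp_neg_atTop_nhds_zero 2).const_mul 2
  rw [mul_zero] at h1
  refine squeeze_zero_norm' ((eventually_ge_atTop 1).mono fun u hu => ?_) h1
  rw [norm_mul, Real.norm_eq_abs, abs_of_pos (exp_pos _), mul_comm, ← mul_assoc]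
  exact mul_le_mul_of_nonneg_right (h u hu) (exp_pos _).le

lemma L1.int_r (h : L1 φ) : ∫ u, r1' φ u ∂nu ≤ ∫ u, d1 φ u ^ 2 ∂nu := by
  have hd := h.lip_d.continuous
  have hg := h.cont_g
  have h1 : Integrable (fun u => r1' φ u - d1 φ u ^ 2) nu := by
    refine Integrable.sub (pert1_int (by unfold r1'; fun_prop) 1 fun u => ?_) h.int_dd
    rw [abs_of_nonneg (sq_nonneg _)]
    nlinarith [h.r_le u, le_max_right u 0]
  have h2 := integral_Ioi_of_hasDerivAt_of_tendsto (f := fun u => exp (-u) * g1 φ u ^ 2)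
    (Continuous.continuousWithinAt (by fun_prop)) (fun u hu => ?_) (pert1_integrableOn h1)
    (pert1_lim fun u hu => ?_)
  · have h3 : g1 φ 0 = 0 := by simp [g1]
    rw [← pert1_integral, h3] at h2
    have h4 := integral_add h1 h.int_dd
    simp only [sub_add_cancel] at h4
    rw [h4, h2]
    simp
  · refine (((hasDerivAt_neg u).exp).mul ((h.deriv_g hu).pow 2)).congr_deriv ?_
    simp only [r1', Pi.pow_apply]
    ring
  · have h3 := h.g_le u
    rw [max_eq_left (by linarith)] at h3
    rw [abs_of_nonneg (sq_nonneg _)]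
    nlinarith [h.g_nonneg u]

lemma L1.gain (h : L1 φ) {ϖ : ℝ → ℝ} (hm : Measurable ϖ) (h0 : ∀ u, 0 ≤ ϖ u) (h1 : ∀ u, ϖ u ≤ 1)
    (hl : ∀ u s, 0 ≤ u → 0 ≤ s → φ (u + s) ≤ φ u + s * ϖ u) :
    ∫ u, d1 φ u ^ 2 ∂nu ≤ ∫ u, ϖ u * g1 φ u ∂nu := by
  have hg := h.cont_g
  have h2 : Integrable (fun u => ϖ u * g1 φ u) nu := by
    refine pert1_int (by fun_prop) 1 fun u => ?_
    rw [abs_of_nonneg (mul_nonneg (h0 u) (h.g_nonneg u))]
    nlinarith [h.g_le u, le_max_right u 0, mul_le_of_le_one_left (h.g_nonneg u) (h1 u)]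
  have h3 : ∀ u, 0 ≤ u → deriv (d1 φ) u ≤ ϖ u := fun u hu => by
    by_cases hd : DifferentiableAt ℝ (d1 φ) u
    · refine le_of_tendsto hd.hasDerivAt.tendsto_slope_zero_right
        (eventually_mem_nhdsWithin.mono fun s (hs : 0 < s) => ?_)
      rw [smul_eq_mul, inv_mul_le_iff₀ hs, d1, d1, max_eq_left hu,
        max_eq_left (add_nonneg hu hs.le)]
      linarith [hl u s hu hs.le]
    · rw [deriv_zero_of_not_differentiableAt hd]
      exact h0 u
  have h4 : Tendsto (fun u => exp (-u) * -(d1 φ u * g1 φ u)) atTop (𝓝 0) :=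
    pert1_lim fun u hu => by
      have h5 := h.g_le u
      have h6 := h.abs_d u
      rw [max_eq_left (by linarith)] at h5 h6
      rw [abs_neg, abs_mul, abs_of_nonneg (h.g_nonneg u)]
      nlinarith [mul_le_mul h6 h5 (h.g_nonneg u) (by linarith)]
  have h5 := h4.add (intervalIntegral_tendsto_integral_Ioi 0 (pert1_integrableOn h2) tendsto_id)
  rw [pert1_integral, pert1_integral, ← zero_add (∫ x in Ioi (0 : ℝ), exp (-x) * (ϖ x * g1 φ x))]
  refine le_of_tendsto_of_tendsto
    (intervalIntegral_tendsto_integral_Ioi 0 (pert1_integrableOn h.int_dd) tendsto_id) h5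
    ((eventually_ge_atTop 0).mono fun R hR => ?_)
  have a1 : AbsolutelyContinuousOnInterval (d1 φ) 0 R :=
    h.lip_d.lipschitzOnWith.absolutelyContinuousOnInterval
  have a2 : AbsolutelyContinuousOnInterval (pert1K φ) 0 R :=
    (h.cont_k.intervalIntegrable 0 R).absolutelyContinuousOnInterval_intervalIntegral (by simp)
  have h6 := a1.integral_mul_deriv_eq_deriv_mul a2
  have h7 : ∫ x in (0 : ℝ)..R, deriv (d1 φ) x * pert1K φ x ≤
      ∫ x in (0 : ℝ)..R, exp (-x) * (ϖ x * g1 φ x) := by
    refine intervalIntegral.integral_mono_on hR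
      (a1.intervalIntegrable_deriv.mul_continuousOn a2.continuousOn)
      ((intervalIntegrable_iff_integrableOn_Ioc_of_le hR).2
        ((pert1_integrableOn h2).mono_set Ioc_subset_Ioi_self)) fun x hx => ?_
    rw [h.K_eq hx.1, mul_left_comm (exp (-x))]
    exact mul_le_mul_of_nonneg_right (h3 x hx.1) (mul_nonneg (exp_pos _).le (h.g_nonneg x))
  have h8 : ∫ x in (0 : ℝ)..R, d1 φ x * deriv (pert1K φ) x =
      -∫ x in (0 : ℝ)..R, exp (-x) * d1 φ x ^ 2 := by
    rw [← intervalIntegral.integral_neg]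
    refine intervalIntegral.integral_congr fun x _ => ?_
    simp only [(h.deriv_K x).deriv]
    ring
  have h9 : pert1K φ 0 = 0 := by simp [pert1K]
  rw [h8, h9, h.K_eq hR] at h6
  simp only [id]
  linarith

lemma L1.cov (h : L1 φ) {l : ℝ} (hl0 : 0 ≤ l) (hl : l ≤ 1 / 2) {G : ℝ → ℝ≥0∞}
    (hG : Measurable G) :
    ∫⁻ u, G (u - l * g1 φ u) * ENNReal.ofReal (exp (l * d1 φ u - l ^ 2 * r1' φ u)) ∂nu ≤
      ∫⁻ u, G u ∂nu := by
  have hd := h.lip_d.continuous
  have hg := h.cont_g
  have h1 : ∀ u, 0 ≤ l * (g1 φ u - d1 φ u) ∧ l * (g1 φ u - d1 φ u) ≤ 1 / 2 := fun u =>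
    ⟨mul_nonneg hl0 (h.rho' u).1, (mul_le_of_le_one_right hl0 (h.rho' u).2).trans hl⟩
  have h2 : ∀ u ∈ Ioi (0 : ℝ),
      HasDerivAt (fun u => u - l * g1 φ u) (1 - l * (g1 φ u - d1 φ u)) u :=
    fun u hu => (hasDerivAt_id u).sub ((h.deriv_g hu).const_mul l)
  have h3 : MonotoneOn (fun u => u - l * g1 φ u) (Ioi 0) := by
    refine monotoneOn_of_deriv_nonneg (convex_Ioi 0) (Continuous.continuousOn (by fun_prop))
      (fun u hu => (h2 u (interior_subset hu)).differentiableAt.differentiableWithinAt)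
      fun u hu => ?_
    rw [(h2 u (interior_subset hu)).deriv]
    linarith [(h1 u).2]
  have h4 : (fun u => u - l * g1 φ u) '' Ioi 0 ⊆ Ioi 0 := by
    rintro _ ⟨u, hu, rfl⟩
    have hu' : 0 < u := hu
    have h5 := h.g_le u
    rw [max_eq_left hu'.le] at h5
    have h6 := mul_le_mul hl h5 (h.g_nonneg u) (by norm_num)
    simp only [mem_Ioi]
    linarith
  rw [lintegral_nu (by unfold r1'; fun_prop), lintegral_nu hG]
  refine le_trans ?_ (lintegral_mono_set h4)
  rw [lintegral_image_eq_lintegral_deriv_mul_of_monotoneOn measurableSet_Ioi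
    (fun u hu => (h2 u hu).hasDerivWithinAt) h3]
  refine lintegral_mono fun u => ?_
  simp only
  rw [mul_comm (G _), ← mul_assoc, ← mul_assoc, ← ENNReal.ofReal_mul (exp_pos _).le,
    ← ENNReal.ofReal_mul (by linarith [(h1 u).2])]
  refine mul_le_mul_left (ENNReal.ofReal_le_ofReal ?_) _
  calc exp (-u) * exp (l * d1 φ u - l ^ 2 * r1' φ u)
      = exp (-(l * (g1 φ u - d1 φ u) + (l * (g1 φ u - d1 φ u)) ^ 2)) *
          exp (-(u - l * g1 φ u)) := by
        rw [← exp_add, ← exp_add, r1']
        congr 1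
        ring
    _ ≤ _ := mul_le_mul_of_nonneg_right (pert1_exp (h1 u).1 (h1 u).2) (exp_pos _).le

end Pool.Agent.Lib.MP_de94ef_pr.Q
end

-- part Pool.Agent.Lib.MP_de94ef_pr.Q.Pert
section

/-!
The optimal sequential perturbation of finitely many exponential variables.
-/

open MeasureTheory ProbabilityTheory Set Real Function Filter Topology
open scoped ENNReal NNReal

namespace Pool.Agent.Lib.MP_de94ef_pr.Q

lemma pert_memLp_wt (J : Finset EE) : MemLp (fun x : Env => wt x J) 2 PE := by
  rw [memLp_two_iff_integrable_sq (measurable_wt J).aestronglyMeasurable]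
  refine ((integrable_exp_wt J).const_mul 8).mono' (Measurable.aestronglyMeasurable (by fun_prop))
    (ae_of_all _ fun x => ?_)
  have h0 := wt_nonneg x J
  have h1 := quadratic_le_exp_of_nonneg (x := 1 / 2 * wt x J) (by positivity)
  rw [Real.norm_eq_abs, abs_of_nonneg (sq_nonneg _)]
  nlinarith

lemma pert_memLp {f : Env → ℝ} (hf : Measurable f) {C : ℝ} {J : Finset EE}
    (h : ∀ x, |f x| ≤ C + wt x J) : MemLp f 2 PE :=
  ((memLp_const C).add (pert_memLp_wt J)).mono' hf.aestronglyMeasurable (ae_of_all _ h)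

lemma pert_memLp_coord {f : Env → ℝ} (hf : Measurable f) {e : EE}
    (h : ∀ x, |f x| ≤ max (x e) 0 + 1) : MemLp f 2 PE :=
  pert_memLp hf (C := 1) (J := {e}) fun x => by simpa [wt, add_comm] using h x

lemma Lip.memLp {F : Env → ℝ} {ϖ : EE → Env → ℝ} {I : Finset EE} (h : Lip F ϖ I) :
    MemLp F 2 PE := by
  obtain ⟨C, hC⟩ := h.bd
  exact pert_memLp h.meas hC

lemma pert_integrable_Ex (e : EE) {f : Env → ℝ} (hf : Integrable f PE) :
    Integrable (Ex e f) PE :=
  ((measurePreserving_update e).integrable_comp_of_integrable hf).integral_prod_left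

lemma pert_integral_le (e : EE) {f g : Env → ℝ} (hf : Integrable f PE) (hg : Integrable g PE)
    (h : ∀ x, Ex e f x ≤ Ex e g x) : ∫ x, f x ∂PE ≤ ∫ x, g x ∂PE := by
  rw [← integral_Ex e hf, ← integral_Ex e hg]
  exact integral_mono (pert_integrable_Ex e hf) (pert_integrable_Ex e hg) h

lemma pert_ae_pos (e : EE) : ∀ᵐ x ∂PE, 0 < x e :=
  (measurePreserving_eval_infinitePi (fun _ : EE => nu) e).quasiMeasurePreserving.ae nu_ae_pos

lemma pert_update {f : Env → ℝ} {I : Finset EE} (hf : DependsOn f (I : Set EE)) {e : EE}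
    (he : e ∉ I) (x : Env) (y : ℝ) : f (update x e y) = f x :=
  hf fun i hi => update_of_ne (by rintro rfl; exact he hi) _ _

lemma pert_measurable_shift {g : EE → Env → ℝ} (hg : ∀ e, Measurable (g e)) (l : ℝ)
    (A : Finset EE) : Measurable (shift g l A) := by
  refine measurable_pi_lambda _ fun e => ?_
  by_cases h : e ∈ A
  · simp only [shift, if_pos h]
    exact (measurable_pi_apply e).sub ((hg e).const_mul l)
  · simp only [shift, if_neg h]
    exact measurable_pi_apply e

section step

variable {F : Env → ℝ} {ϖ : EE → Env → ℝ} {I : Finset EE} {e : EE}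

lemma Lip.pert_bdd (h : Lip F ϖ I) (e : EE) : Bdd (ϖ e) :=
  ⟨h.mϖ e, 1, fun x => abs_le.2 ⟨by linarith [h.ϖ0 e x], h.ϖ1 e x⟩⟩

lemma Lip.pert_L1 (h : Lip F ϖ I) (e : EE) (x : Env) : L1 fun u => F (update x e u) where
  meas := h.meas.comp (by fun_prop)
  mono u s hu hs := h.mono e x u s hu hs
  lip u s hu hs := (h.lip e x u s hu hs).trans (by nlinarith [h.ϖ1 e (update x e u)])

lemma pert_wt_update (x : Env) (e : EE) (y : ℝ) (J : Finset EE) :
    wt (update x e y) J ≤ max y 0 + wt x (J.erase e) := by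
  by_cases h : e ∈ J
  · exact (wt_update_of_mem x h y).le
  · rw [wt_update_of_notMem x h, Finset.erase_eq_of_notMem h]
    linarith [le_max_right y 0]

lemma Lip.pert_slice (h : Lip F ϖ I) (e : EE) (x : Env) :
    Integrable (fun y => F (update x e y)) nu := by
  obtain ⟨C, hC⟩ := h.bd
  refine ((integrable_pos_nu).add (integrable_const (C + wt x (I.erase e)))).mono'
    (h.pert_L1 e x).meas.aestronglyMeasurable (ae_of_all _ fun y => ?_)
  have h1 := hC (update x e y)
  have h2 := pert_wt_update x e y I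
  simp only [Real.norm_eq_abs, Pi.add_apply]
  linarith

/-- Averaging one coordinate preserves the increment bounds. -/
lemma Lip.pert_Ex (h : Lip F ϖ (insert e I)) (he : e ∉ I) :
    Lip (Ex e F) (fun e' => Ex e (ϖ e')) I where
  meas := measurable_Ex e h.meas
  mϖ e' := measurable_Ex e (h.mϖ e')
  ϖ0 e' x := Ex_le (h.pert_bdd e') (h.ϖ0 e') e x
  ϖ1 e' x := by
    have := integral_mono (((h.pert_bdd e').slice e x).integrable (P := nu))
      (integrable_const (1 : ℝ)) fun y => h.ϖ1 e' _
    simpa [Ex] using this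
  dep := dependsOn_Ex h.dep
  bd := by
    obtain ⟨C, hC⟩ := h.bd
    refine ⟨C + 1, fun x => ?_⟩
    have i1 : Integrable (fun y : ℝ => max y 0 + (C + wt x I)) nu :=
      integrable_pos_nu.add (integrable_const _)
    have h1 : |Ex e F x| ≤ ∫ y, (max y 0 + (C + wt x I)) ∂nu :=
      norm_integral_le_of_norm_le (f := fun y => F (update x e y)) i1
        (ae_of_all _ fun y => by
          have h1 := hC (update x e y)
          have h2 := pert_wt_update x e y (insert e I)
          rw [Finset.erase_insert he] at h2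
          simp only [Real.norm_eq_abs]
          linarith)
    rw [integral_add integrable_pos_nu (integrable_const _), integral_pos_nu] at h1
    simp only [integral_const, probReal_univ, smul_eq_mul, one_mul] at h1
    linarith
  mono e' x u s hu hs := by
    by_cases hee : e' = e
    · subst hee; simp
    · refine integral_mono (h.pert_slice e _) (h.pert_slice e _) fun y => ?_
      simp only [update_comm hee]
      exact h.mono e' _ u s hu hs
  lip e' x u s hu hs := by
    by_cases hee : e' = e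
    · subst hee
      simp only [Ex_update, le_add_iff_nonneg_right]
      exact mul_nonneg hs (Ex_le (h.pert_bdd e') (h.ϖ0 e') e' x)
    · have i1 := ((h.pert_bdd e').slice e (update x e' u)).integrable (P := nu)
      unfold Ex
      rw [← integral_const_mul, ← integral_add (h.pert_slice e _) (i1.const_mul s)]
      refine integral_mono (h.pert_slice e _) ((h.pert_slice e _).add (i1.const_mul s)) fun y => ?_
      simp only [update_comm hee]
      exact h.lip e' _ u s hu hs

/-- The shift of the last coordinate. -/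
noncomputable def pertG (F : Env → ℝ) (e : EE) (x : Env) : ℝ :=
  g1 (fun u => F (update x e u)) (x e)

/-- The martingale increment of the last coordinate. -/
noncomputable def pertD (F : Env → ℝ) (e : EE) (x : Env) : ℝ :=
  d1 (fun u => F (update x e u)) (x e)

/-- The squared derivative of the shift of the last coordinate. -/
noncomputable def pertR (F : Env → ℝ) (e : EE) (x : Env) : ℝ :=
  r1' (fun u => F (update x e u)) (x e)

lemma pertG_update (x : Env) (y : ℝ) :
    pertG F e (update x e y) = g1 (fun u => F (update x e u)) y := by simp [pertG]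

lemma pertD_update (x : Env) (y : ℝ) :
    pertD F e (update x e y) = d1 (fun u => F (update x e u)) y := by simp [pertD]

lemma pertR_update (x : Env) (y : ℝ) :
    pertR F e (update x e y) = r1' (fun u => F (update x e u)) y := by simp [pertR]

lemma pertG_meas (hF : Measurable F) : Measurable (pertG F e) := by
  have h1 : StronglyMeasurable fun p : Env × ℝ => F (update p.1 e (max (p.1 e) 0 + p.2)) :=
    Measurable.stronglyMeasurable (by fun_prop)
  exact (h1.integral_prod_right' (ν := nu)).measurable.sub (measurable_Ex e hF)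

lemma pertD_meas (hF : Measurable F) : Measurable (pertD F e) := by
  have h1 : Measurable fun x : Env => F (update x e (max (x e) 0)) := by fun_prop
  exact h1.sub (measurable_Ex e hF)

lemma pertR_meas (hF : Measurable F) : Measurable (pertR F e) :=
  ((pertG_meas hF).sub (pertD_meas hF)).pow_const 2

lemma pert_dep {J : Finset EE} (hF : DependsOn F (J : Set EE)) (he : e ∈ J)
    (Φ : (ℝ → ℝ) → ℝ → ℝ) :
    DependsOn (fun x : Env => Φ (fun u => F (update x e u)) (x e)) (J : Set EE) := by
  intro x x' h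
  have h1 : (fun u => F (update x e u)) = fun u => F (update x' e u) := funext fun u =>
    hF fun i hi => by
      by_cases hie : i = e
      · subst hie; simp
      · rw [update_of_ne hie, update_of_ne hie]; exact h i hi
  simp only [h1, h e he]

lemma Lip.pertD_memLp (h : Lip F ϖ I) (e : EE) : MemLp (pertD F e) 2 PE :=
  pert_memLp_coord (pertD_meas h.meas) fun x => (h.pert_L1 e x).abs_d _

/-- The increment is orthogonal to functions that ignore the coordinate. -/
lemma Lip.pert_orth (h : Lip F ϖ I) (e : EE) {w : Env → ℝ} (hw : MemLp w 2 PE)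
    (hwe : ∀ x y, w (update x e y) = w x) : ∫ x, w x * pertD F e x ∂PE = 0 := by
  have i1 : Integrable (fun x => w x * pertD F e x) PE := hw.integrable_mul (h.pertD_memLp e)
  rw [integral_update e i1]
  simp only [hwe, pertD_update, integral_const_mul, (h.pert_L1 e _).mean_d, mul_zero,
    integral_zero]

lemma Lip.pert_sq (h : Lip F ϖ I) (e : EE) {w : Env → ℝ} (hw : MemLp w 2 PE)
    (hwe : ∀ x y, w (update x e y) = w x) :
    ∫ x, (pertD F e x + w x) ^ 2 ∂PE = ∫ x, pertD F e x ^ 2 ∂PE + ∫ x, w x ^ 2 ∂PE := by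
  have i1 := (h.pertD_memLp e).integrable_sq
  have i2 := hw.integrable_sq
  have i3 : Integrable (fun x => 2 * (w x * pertD F e x)) PE :=
    (hw.integrable_mul (h.pertD_memLp e)).const_mul 2
  have h1 : ∀ x, (pertD F e x + w x) ^ 2 =
      (pertD F e x ^ 2 + w x ^ 2) + 2 * (w x * pertD F e x) := fun x => by ring
  have i4 : Integrable (fun x => pertD F e x ^ 2 + w x ^ 2) PE := i1.add i2
  simp only [h1]
  rw [integral_add i4 i3, integral_add i1 i2, integral_const_mul, h.pert_orth e hw hwe]
  ring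

lemma Lip.pert_var (h : Lip F ϖ (insert e I)) (he : e ∉ I) :
    Var[F; PE] = ∫ x, pertD F e x ^ 2 ∂PE + Var[Ex e F; PE] := by
  have h' := h.pert_Ex he
  rw [variance_eq_integral h.meas.aemeasurable, variance_eq_integral h'.meas.aemeasurable,
    ← h.pert_sq e (w := fun x => Ex e F x - ∫ x, Ex e F x ∂PE) (h'.memLp.sub (memLp_const _))
      fun x y => by simp]
  refine integral_congr_ae ((pert_ae_pos e).mono fun x hx => ?_)
  have h1 : pertD F e x = F x - Ex e F x := by
    simp only [pertD, d1, max_eq_left hx.le, update_eq_self]; rfl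
  simp only [h1, integral_Ex e (h.memLp.integrable one_le_two)]
  ring

lemma Lip.pertG_int (h : Lip F ϖ I) (e : EE) : Integrable (pertG F e) PE :=
  (integrable_pos_coord e).mono' (pertG_meas h.meas).aestronglyMeasurable (ae_of_all _ fun x => by
    rw [Real.norm_eq_abs, pertG, abs_of_nonneg ((h.pert_L1 e x).g_nonneg _)]
    exact (h.pert_L1 e x).g_le _)

lemma Lip.pert_gain (h : Lip F ϖ I) (e : EE) :
    ∫ x, pertD F e x ^ 2 ∂PE ≤ ∫ x, ϖ e x * pertG F e x ∂PE := by
  have i1 : Integrable (fun x => ϖ e x * pertG F e x) PE := by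
    simpa only [mul_comm] using (h.pert_bdd e).mul_integrable (h.pertG_int e)
  refine pert_integral_le e (h.pertD_memLp e).integrable_sq i1 fun x => ?_
  simp only [Ex, pertD_update, pertG_update]
  exact (h.pert_L1 e x).gain (ϖ := fun u => ϖ e (update x e u)) ((h.mϖ e).comp (by fun_prop))
    (fun u => h.ϖ0 e _) (fun u => h.ϖ1 e _) fun u s hu hs => h.lip e x u s hu hs

lemma Lip.pert_rle (h : Lip F ϖ I) (e : EE) :
    ∫ x, pertR F e x ∂PE ≤ ∫ x, pertD F e x ^ 2 ∂PE := by
  have b : Bdd (pertR F e) := ⟨pertR_meas h.meas, 1, fun x => by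
    rw [abs_of_nonneg (a := pertR F e x) (sq_nonneg _)]
    exact (h.pert_L1 e x).r_le _⟩
  refine pert_integral_le e b.integrable (h.pertD_memLp e).integrable_sq fun x => ?_
  simp only [Ex, pertD_update, pertR_update]
  exact (h.pert_L1 e x).int_r

lemma pert_shift_update {g : EE → Env → ℝ} (hg : ∀ e', DependsOn (g e') (I : Set EE))
    (he : e ∉ I) {A : Finset EE} (hA : e ∉ A) (l : ℝ) (x : Env) (y : ℝ) :
    shift g l A (update x e y) = update (shift g l A x) e y := by
  funext i
  by_cases hi : i = e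
  · subst hi; simp [shift, hA]
  · simp only [shift, update_of_ne hi, pert_update (hg i) he]

lemma pert_shift_insert {g : EE → Env → ℝ} (hg : ∀ e', DependsOn (g e') (I : Set EE))
    (he : e ∉ I) (A : Finset EE) (l : ℝ) (x : Env) (y : ℝ) :
    shift (update g e (pertG F e)) l (insert e A) (update x e y) =
      update (shift g l A x) e (y - l * g1 (fun u => F (update x e u)) y) := by
  funext i
  by_cases hi : i = e
  · subst hi; simp [shift, pertG_update]
  · simp only [shift, update_of_ne hi, pert_update (hg i) he, Finset.mem_insert, hi, false_or]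

lemma Lip.pert_cov (h : Lip F ϖ (insert e I)) (he : e ∉ I) {g : EE → Env → ℝ}
    (hg : ∀ e', DependsOn (g e') (I : Set EE)) (mg : ∀ e', Measurable (g e')) {S : Env → ℝ}
    (hS : DependsOn S (I : Set EE)) (mS : Measurable S) {A : Finset EE} (hA : e ∉ A) {l : ℝ}
    (hl0 : 0 ≤ l) (hl : l ≤ 1 / 2) {G : Env → ℝ≥0∞} (hG : Measurable G) :
    ∫⁻ x, G (shift (update g e (pertG F e)) l (insert e A) x) *
        ENNReal.ofReal (exp (l * pertD F e x - l ^ 2 * pertR F e x + S x)) ∂PE ≤
      ∫⁻ x, G (shift g l A x) * ENNReal.ofReal (exp (S x)) ∂PE := by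
  have m1 : ∀ e', Measurable (update g e (pertG F e) e') := fun e' => by
    by_cases hee : e' = e
    · subst hee; simpa using pertG_meas h.meas
    · rw [update_of_ne hee]; exact mg e'
  have m2 := pert_measurable_shift m1 l (insert e A)
  have m3 := pert_measurable_shift mg l A
  have m4 := pertD_meas (e := e) h.meas
  have m5 := pertR_meas (e := e) h.meas
  rw [lintegral_update e (by fun_prop), lintegral_update e (F := fun x => G (shift g l A x) *
    ENNReal.ofReal (exp (S x))) (by fun_prop)]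
  refine lintegral_mono fun x => ?_
  simp only [pert_shift_insert hg he, pert_shift_update hg he hA, pertD_update, pertR_update,
    pert_update hS he, exp_add, ENNReal.ofReal_mul (exp_pos _).le, ← mul_assoc]
  rw [lintegral_mul_const' _ _ ENNReal.ofReal_ne_top, lintegral_mul_const' _ _ ENNReal.ofReal_ne_top]
  exact mul_le_mul_left ((h.pert_L1 e x).cov hl0 hl
    (G := fun u => G (update (shift g l A x) e u)) (by fun_prop)) _

lemma pert_sum {β : Type} (f : EE → β) (b : β) {A : Finset EE} (hA : e ∉ A) (Φ : EE → β → ℝ) :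
    ∑ i ∈ A, Φ i (update f e b i) = ∑ i ∈ A, Φ i (f i) :=
  Finset.sum_congr rfl fun i hi => by rw [update_of_ne (by rintro rfl; exact hA hi)]

lemma pert_all {β : Type} {f : EE → β} {b : β} {P : EE → β → Prop} (h1 : P e b)
    (h2 : ∀ i, P i (f i)) (i : EE) : P i (update f e b i) := by
  by_cases hi : i = e
  · subst hi; simpa using h1
  · rw [update_of_ne hi]; exact h2 i

lemma pert_step (h : Lip F ϖ (insert e I)) (he : e ∉ I) {g d r : EE → Env → ℝ}
    (P : Pert (Ex e F) (fun e' => Ex e (ϖ e')) I g d r)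
    (hg : ∀ e', DependsOn (g e') (I : Set EE)) (hd : ∀ e', DependsOn (d e') (I : Set EE))
    (hr : ∀ e', DependsOn (r e') (I : Set EE)) :
    Pert F ϖ (insert e I) (update g e (pertG F e)) (update d e (pertD F e))
      (update r e (pertR F e)) where
  mg := pert_all (P := fun _ f => Measurable f) (pertG_meas h.meas) P.mg
  md := pert_all (P := fun _ f => Measurable f) (pertD_meas h.meas) P.md
  mr := pert_all (P := fun _ f => Measurable f) (pertR_meas h.meas) P.mr
  g0 := pert_all (P := fun _ (f : Env → ℝ) => ∀ x, 0 ≤ f x)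
    (fun x => (h.pert_L1 e x).g_nonneg _) P.g0
  g1 := pert_all (P := fun i (f : Env → ℝ) => ∀ x, f x ≤ max (x i) 0)
    (fun x => (h.pert_L1 e x).g_le _) P.g1
  r0 := pert_all (P := fun _ (f : Env → ℝ) => ∀ x, 0 ≤ f x) (fun _ => sq_nonneg _) P.r0
  r1 := pert_all (P := fun _ (f : Env → ℝ) => ∀ x, f x ≤ 1)
    (fun x => (h.pert_L1 e x).r_le _) P.r1
  d1 := pert_all (P := fun i (f : Env → ℝ) => ∀ x, |f x| ≤ max (x i) 0 + 1)
    (fun x => (h.pert_L1 e x).abs_d _) P.d1
  gain := by
    rw [Finset.sum_insert he, update_self, h.pert_var he,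
      pert_sum g _ he fun i f => ∫ x, ϖ i x * f x ∂PE]
    refine add_le_add (h.pert_gain e) (P.gain.trans (le_of_eq ?_))
    refine Finset.sum_congr rfl fun i _ => ?_
    have i1 : Integrable (g i) PE :=
      (integrable_pos_coord i).mono' (P.mg i).aestronglyMeasurable (ae_of_all _ fun x => by
        rw [Real.norm_eq_abs, abs_of_nonneg (P.g0 i x)]; exact P.g1 i x)
    simpa only [mul_comm] using
      (integral_mul_Ex e i1 (pert_update (hg i) he) (h.pert_bdd i)).symm
  cov l hl0 hl A hA G hG := by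
    by_cases heA : e ∈ A
    · obtain ⟨B, hB, rfl⟩ : ∃ B, e ∉ B ∧ A = insert e B :=
        ⟨A.erase e, Finset.notMem_erase e A, (Finset.insert_erase heA).symm⟩
      have hBI : B ⊆ I := (Finset.subset_insert_iff_of_notMem hB).1
        ((Finset.subset_insert e B).trans hA)
      have h1 : ∀ x, ∑ i ∈ insert e B, (l * update d e (pertD F e) i x -
          l ^ 2 * update r e (pertR F e) i x) = l * pertD F e x - l ^ 2 * pertR F e x +
            ∑ i ∈ B, (l * d i x - l ^ 2 * r i x) := fun x => by
        rw [Finset.sum_insert hB, update_self, update_self]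
        congr 1
        exact Finset.sum_congr rfl fun i hi => by
          have : i ≠ e := by rintro rfl; exact hB hi
          rw [update_of_ne this, update_of_ne this]
      simp only [h1]
      refine (h.pert_cov he hg P.mg (fun x x' hx => ?_) ?_ hB hl0 hl hG).trans
        (P.cov l hl0 hl B hBI G hG)
      · exact Finset.sum_congr rfl fun i _ => by rw [hd i hx, hr i hx]
      · exact Finset.measurable_sum _ fun i _ =>
          ((P.md i).const_mul l).sub ((P.mr i).const_mul _)
    · refine le_of_eq_of_le (lintegral_congr fun x => ?_)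
        (P.cov l hl0 hl A ((Finset.subset_insert_iff_of_notMem heA).1 hA) G hG)
      congr 2
      · funext i
        by_cases hi : i ∈ A
        · have : i ≠ e := by rintro rfl; exact heA hi
          simp only [shift, update_of_ne this]
        · simp only [shift, if_neg hi]
      · congr 1
        exact Finset.sum_congr rfl fun i hi => by
          have : i ≠ e := by rintro rfl; exact heA hi
          rw [update_of_ne this, update_of_ne this]
  orth A hA := by
    by_cases heA : e ∈ A
    · obtain ⟨B, hB, rfl⟩ : ∃ B, e ∉ B ∧ A = insert e B :=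
        ⟨A.erase e, Finset.notMem_erase e A, (Finset.insert_erase heA).symm⟩
      have hBI : B ⊆ I := (Finset.subset_insert_iff_of_notMem hB).1
        ((Finset.subset_insert e B).trans hA)
      have h1 : ∀ x, ∑ i ∈ B, update d e (pertD F e) i x = ∑ i ∈ B, d i x :=
        fun x => pert_sum d _ hB fun _ f => f x
      simp only [Finset.sum_insert hB, update_self, h1]
      rw [pert_sum d _ hB fun _ f => ∫ x, f x ^ 2 ∂PE,
        h.pert_sq e (w := fun x => ∑ i ∈ B, d i x)
          (memLp_finsetSum B fun i _ => pert_memLp_coord (P.md i) (P.d1 i))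
          fun x y => Finset.sum_congr rfl fun i _ => pert_update (hd i) he x y]
      exact add_le_add le_rfl (P.orth B hBI)
    · have h1 : ∀ x, ∑ i ∈ A, update d e (pertD F e) i x = ∑ i ∈ A, d i x :=
        fun x => pert_sum d _ heA fun _ f => f x
      simp only [h1]
      rw [pert_sum d _ heA fun _ f => ∫ x, f x ^ 2 ∂PE]
      exact P.orth A ((Finset.subset_insert_iff_of_notMem heA).1 hA)
  mean i hi := by
    by_cases hie : i = e
    · subst hie
      simpa using h.pert_orth i (w := fun _ => 1) (memLp_const 1) fun _ _ => rfl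
    · rw [update_of_ne hie]
      exact P.mean i ((Finset.mem_insert.1 hi).resolve_left hie)
  rle i hi := by
    by_cases hie : i = e
    · subst hie
      simpa using h.pert_rle i
    · rw [update_of_ne hie, update_of_ne hie]
      exact P.rle i ((Finset.mem_insert.1 hi).resolve_left hie)
  tot := by
    rw [Finset.sum_insert he, update_self, h.pert_var he,
      pert_sum d _ he fun _ f => ∫ x, f x ^ 2 ∂PE]
    exact add_le_add le_rfl P.tot

end step

lemma pert_empty {F : Env → ℝ} {ϖ : EE → Env → ℝ} (h : Lip F ϖ ∅) : Pert F ϖ ∅ 0 0 0 where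
  mg _ := measurable_const
  md _ := measurable_const
  mr _ := measurable_const
  g0 _ _ := le_rfl
  g1 _ _ := le_max_right _ _
  r0 _ _ := le_rfl
  r1 _ _ := zero_le_one
  d1 e x := by
    simp only [Pi.zero_apply, abs_zero]
    positivity
  gain := by
    have : F = fun _ => F 0 := funext fun x => h.dep (by simp)
    rw [this, variance_eq_integral measurable_const.aemeasurable]
    simp
  cov l _ _ A hA G _ := by
    obtain rfl := Finset.subset_empty.1 hA
    have : ∀ x, shift 0 l ∅ x = x := fun x => funext fun e => by simp [shift]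
    simp [this]
  orth A _ := by simp
  mean _ _ := by simp
  rle _ _ := by simp
  tot := by simp [variance_nonneg]

lemma pert_exists (I : Finset EE) : ∀ {F : Env → ℝ} {ϖ : EE → Env → ℝ}, Lip F ϖ I →
    ∃ g d r, Pert F ϖ I g d r ∧ (∀ e, DependsOn (g e) (I : Set EE)) ∧
      (∀ e, DependsOn (d e) (I : Set EE)) ∧ ∀ e, DependsOn (r e) (I : Set EE) := by
  induction I using Finset.induction_on with
  | empty =>
    intro F ϖ h
    exact ⟨0, 0, 0, pert_empty h, fun _ _ _ _ => rfl, fun _ _ _ _ => rfl, fun _ _ _ _ => rfl⟩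
  | insert e I he ih =>
    intro F ϖ h
    obtain ⟨g, d, r, P, hg, hd, hr⟩ := ih (h.pert_Ex he)
    have hs : (I : Set EE) ⊆ (insert e I : Finset EE) := Finset.coe_subset.2 (I.subset_insert e)
    have hm := Finset.mem_insert_self e I
    exact ⟨_, _, _, pert_step h he P hg hd hr,
      pert_all (P := fun _ (f : Env → ℝ) => DependsOn f ((insert e I : Finset EE) : Set EE))
        (pert_dep h.dep hm g1) fun i => (hg i).mono hs,
      pert_all (P := fun _ (f : Env → ℝ) => DependsOn f ((insert e I : Finset EE) : Set EE))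
        (pert_dep h.dep hm d1) fun i => (hd i).mono hs,
      pert_all (P := fun _ (f : Env → ℝ) => DependsOn f ((insert e I : Finset EE) : Set EE))
        (pert_dep h.dep hm r1') fun i => (hr i).mono hs⟩

theorem exists_pert {F : Env → ℝ} {ϖ : EE → Env → ℝ} {I : Finset EE} (h : Lip F ϖ I) :
    ∃ g d r, Pert F ϖ I g d r := by
  obtain ⟨g, d, r, P, -⟩ := pert_exists I h
  exact ⟨g, d, r, P⟩

end Pool.Agent.Lib.MP_de94ef_pr.Q
end
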