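import Pool.Agent.Lib.MP_de94ef_pr.Q.Mean
import Pool.Agent.Lib.MP_de94ef_pr.Q.Pert

-- part Pool.Agent.Lib.MP_de94ef_pr.Q.VarA
section

/-!
Functionals with a supergradient and their lower tail.
-/

open MeasureTheory ProbabilityTheory Set Real Function Filter Topology
open scoped ENNReal NNReal

namespace Pool.Agent.Lib.MP_de94ef_pr.Q

variable {T : Env → ℝ} {γ : Env → Finset EE} {I : Finset EE}

/-! ### General tools -/

section tools

variable {α β : Type} [MeasurableSpace α] [MeasurableSpace β]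

lemma var_integral_mp {P : Measure α} {Q : Measure β} {φ : α → β} (h : MeasurePreserving φ P Q)
    {f : β → ℝ} (hf : Measurable f) : ∫ x, f (φ x) ∂P = ∫ y, f y ∂Q := by
  rw [← h.map_eq, integral_map h.measurable.aemeasurable hf.aestronglyMeasurable]

lemma var_measurable_integral {Q : Measure β} [SFinite Q] {f : α × β → ℝ} (hf : Measurable f) :
    Measurable fun x => ∫ y, f (x, y) ∂Q :=
  (hf.stronglyMeasurable.integral_prod_right' (ν := Q)).measurable

lemma var_integrable_bdd {P : Measure α} [IsFiniteMeasure P] {f : α → ℝ} (hf : Measurable f)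
    {a b : ℝ} (h : ∀ x, a ≤ f x ∧ f x ≤ b) : Integrable f P :=
  Integrable.of_mem_Icc a b hf.aemeasurable (ae_of_all _ h)

lemma var_jensen {P : Measure α} [IsProbabilityMeasure P] {f : α → ℝ} (hf : Integrable f P)
    (he : Integrable (fun x => exp (f x)) P) : exp (∫ x, f x ∂P) ≤ ∫ x, exp (f x) ∂P := by
  set m := ∫ x, f x ∂P with hm
  have h0 : Integrable (fun x => f x - m) P := hf.sub (integrable_const m)
  have h1 : Integrable (fun x => exp m * (f x - m + 1)) P :=
    (h0.add (integrable_const 1)).const_mul _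
  have h2 : ∫ x, exp m * (f x - m + 1) ∂P = exp m := by
    rw [integral_const_mul, integral_add h0 (integrable_const 1),
      integral_sub hf (integrable_const m)]
    simp [hm]
  rw [← h2]
  refine integral_mono h1 he fun x => ?_
  have h3 : exp (f x) = exp m * exp (f x - m) := by rw [← exp_add]; congr 1; ring
  simp only [h3]
  exact mul_le_mul_of_nonneg_left (add_one_le_exp _) (exp_pos _).le

lemma var_sq_le {P : Measure α} [IsProbabilityMeasure P] {f : α → ℝ} (hf : MemLp f 2 P) :
    (∫ x, f x ∂P) ^ 2 ≤ ∫ x, f x ^ 2 ∂P := by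
  have h1 := variance_eq_sub hf
  have h2 := variance_nonneg f P
  simp only [Pi.pow_apply] at h1
  linarith

lemma var_eq_sub {P : Measure α} [IsProbabilityMeasure P] {f : α → ℝ} (hf : MemLp f 2 P) :
    Var[f; P] = ∫ x, f x ^ 2 ∂P - (∫ x, f x ∂P) ^ 2 := by
  simpa only [Pi.pow_apply] using variance_eq_sub hf

lemma var_const {P : Measure α} [IsProbabilityMeasure P] (c : ℝ) : Var[fun _ : α => c; P] = 0 := by
  rw [variance_eq_integral measurable_const.aemeasurable]
  simp

lemma var_lintegral_ofReal {P : Measure α} [IsFiniteMeasure P] {f : α → ℝ} (hf : Measurable f)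
    {b : ℝ} (h : ∀ x, 0 ≤ f x ∧ f x ≤ b) :
    ∫⁻ x, ENNReal.ofReal (f x) ∂P = ENNReal.ofReal (∫ x, f x ∂P) :=
  (ofReal_integral_eq_lintegral_ofReal (var_integrable_bdd hf h)
    (ae_of_all _ fun x => (h x).1)).symm

/-- A second moment bound for the probability of an event. -/
lemma var_second {P : Measure α} [IsProbabilityMeasure P] {u : α → ℝ} {A : Set α}
    (hA : MeasurableSet A) (hu : Integrable u P) (hu2 : Integrable (fun x => u x ^ 2) P)
    {b l : ℝ} (hb : 0 ≤ b) (hl : 0 < l) (h : ∀ x, x ∉ A → u x ≤ b) :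
    ∫ x, u x ∂P ≤ b + (l * (P A).toReal + (∫ x, u x ^ 2 ∂P) / l) / 2 := by
  have i1 : Integrable (fun x => l * A.indicator (fun _ => (1 : ℝ)) x) P :=
    ((integrable_const 1).indicator hA).const_mul _
  have i2 : Integrable (fun x => u x ^ 2 / l) P := hu2.div_const _
  have i3 : Integrable (fun x => (l * A.indicator (fun _ => (1 : ℝ)) x + u x ^ 2 / l) / 2) P :=
    (i1.add i2).div_const 2
  have e : ∫ x, (b + (l * A.indicator (fun _ => (1 : ℝ)) x + u x ^ 2 / l) / 2) ∂P =
      b + (l * (P A).toReal + (∫ x, u x ^ 2 ∂P) / l) / 2 := by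
    rw [integral_add (integrable_const b) i3, integral_div,
      integral_add i1 i2, integral_const_mul, integral_div, integral_indicator hA]
    simp [Measure.real]
  rw [← e]
  refine integral_mono hu ((integrable_const b).add i3) fun x => ?_
  have h2 : 0 ≤ u x ^ 2 / l := by positivity
  by_cases hx : x ∈ A
  · simp only [indicator_of_mem hx, mul_one]
    have h3 : u x ^ 2 / l = u x ^ 2 / l := rfl
    have h4 : 2 * u x ≤ l + u x ^ 2 / l := by
      rw [← sub_nonneg]
      have : l + u x ^ 2 / l - 2 * u x = (l - u x) ^ 2 / l := by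
        field_simp
        ring
      rw [this]
      positivity
    linarith
  · simp only [indicator_of_notMem hx, mul_zero, zero_add]
    have := h x hx
    linarith

end tools

lemma var_wt_zero (S : Finset EE) : wt (0 : Env) S = 0 := by simp [wt]

lemma var_wt_mix (S : Set EE) (x y : Env) (J : Finset EE) : wt (mix S x y) J ≤ wt x J + wt y J := by
  unfold wt
  rw [← Finset.sum_add_distrib]
  refine Finset.sum_le_sum fun e _ => ?_
  unfold mix
  split_ifs
  · linarith [le_max_right (x e) 0]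
  · linarith [le_max_right (y e) 0]

lemma var_memLp_wt (J : Finset EE) : MemLp (fun x : Env => wt x J) 2 PE := by
  rw [memLp_two_iff_integrable_sq (measurable_wt J).aestronglyMeasurable]
  have h1 : Integrable (fun x : Env => exp (1 / 2 * wt x J)) PE := by
    refine ⟨(by fun_prop : Measurable fun x : Env => exp (1 / 2 * wt x J)).aestronglyMeasurable, ?_⟩
    rw [hasFiniteIntegral_iff_ofReal (ae_of_all _ fun x => (exp_pos _).le)]
    exact (lintegral_exp_wt_le (by norm_num) le_rfl le_rfl).trans_lt ENNReal.ofReal_lt_top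
  refine (h1.const_mul 8).mono' (by fun_prop : Measurable fun x : Env => wt x J ^ 2).aestronglyMeasurable
    (ae_of_all _ fun x => ?_)
  rw [Real.norm_eq_abs, abs_of_nonneg (sq_nonneg _)]
  have h2 := wt_nonneg x J
  have h3 := Real.quadratic_le_exp_of_nonneg (show 0 ≤ 1 / 2 * wt x J by positivity)
  nlinarith

lemma var_meas_mix_right (S : Set EE) (x : Env) : Measurable fun y => mix S x y :=
  (measurable_mix S).comp (measurable_const.prodMk measurable_id)

lemma var_meas_mix_left (S : Set EE) (y : Env) : Measurable fun x => mix S x y :=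
  (measurable_mix S).comp (measurable_id.prodMk measurable_const)

/-! ### Supergradients -/

lemma SG.le (h : SG T γ I) (x : Env) : T x ≤ T 0 + wt x I := by
  have h1 := h.sg 0 x
  rw [var_wt_zero, sub_zero] at h1
  exact h1.trans (add_le_add le_rfl (wt_mono x (h.sub 0)))

lemma SG.var_mono (h : SG T γ I) {x x' : Env} (hx : ∀ e ∈ I, max (x' e) 0 ≤ max (x e) 0) :
    T x' ≤ T x := by
  have h1 := h.sg x x'
  have h2 : wt x' (γ x) ≤ wt x (γ x) := Finset.sum_le_sum fun e he => hx e (h.sub x he)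
  linarith

lemma SG.dependsOn (h : SG T γ I) : DependsOn T (I : Set EE) := by
  intro x y hxy
  exact le_antisymm (h.var_mono fun e he => by rw [hxy e he])
    (h.var_mono fun e he => by rw [hxy e he])

lemma SG.memLp (h : SG T γ I) : MemLp T 2 PE := by
  refine ((memLp_const (T 0)).add (var_memLp_wt I)).mono' h.meas.aestronglyMeasurable
    (ae_of_all _ fun x => ?_)
  rw [Real.norm_eq_abs, abs_of_nonneg (h.nonneg x)]
  exact h.le x

open Classical in
lemma SG.fiber (h : SG T γ I) (S : Set EE) (x : Env) :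
    SG (fun y => T (mix S x y)) (fun y => (γ (mix S x y)).filter (· ∈ S)) I := by
  refine ⟨h.meas.comp (var_meas_mix_right S x), fun e => ?_,
    fun y => (Finset.filter_subset _ _).trans (h.sub _), fun y => h.nonneg _, fun y y' => ?_⟩
  · simp only [Finset.mem_filter]
    exact (var_meas_mix_right S x (h.mγ e)).inter (MeasurableSet.const (e ∈ S))
  · refine (h.sg (mix S x y) (mix S x y')).trans (le_of_eq ?_)
    congr 1
    unfold wt
    rw [← Finset.sum_sub_distrib, ← Finset.sum_sub_distrib, Finset.sum_filter]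
    refine Finset.sum_congr rfl fun e _ => ?_
    unfold mix
    split_ifs <;> simp

lemma SG.var_mix_le (h : SG T γ I) (S : Set EE) (x y : Env) :
    T (mix S x y) ≤ T 0 + (wt x I + wt y I) :=
  (h.le _).trans (add_le_add le_rfl (var_wt_mix S x y I))

lemma SG.var_integrable (h : SG T γ I) (P : Set EE) {Q : Measure Env} [IsProbabilityMeasure Q]
    (hQ : Integrable (fun y => wt y I) Q) (x : Env) : Integrable (fun y => T (mix P y x)) Q := by
  refine ((integrable_const (T 0)).add (hQ.add (integrable_const (wt x I)))).mono'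
    (h.meas.comp (var_meas_mix_left P x)).aestronglyMeasurable (ae_of_all _ fun y => ?_)
  rw [Real.norm_eq_abs, abs_of_nonneg (h.nonneg _)]
  exact h.var_mix_le P y x

open Classical in
lemma SG.var_step (h : SG T γ I) (P : Set EE) (e : EE) (x y : Env) {u s : ℝ} (hu : 0 ≤ u)
    (hs : 0 ≤ s) : T (mix P y (update x e (u + s))) ≤ T (mix P y (update x e u)) +
      s * if e ∈ P then
        {y | e ∈ γ (mix P y (update x e u))}.indicator (fun _ => (1 : ℝ)) y else 0 := by
  refine (h.sg (mix P y (update x e u)) _).trans (le_of_eq ?_)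
  congr 1
  unfold wt
  rw [← Finset.sum_sub_distrib]
  have h1 : ∀ e', max (mix P y (update x e (u + s)) e') 0 - max (mix P y (update x e u) e') 0 =
      if e' = e then (if e ∈ P then s else 0) else 0 := by
    intro e'
    by_cases he : e' = e
    · subst he
      by_cases hP : e' ∈ P
      · simp only [mix, hP, if_true, update_self]
        rw [max_eq_left (by linarith), max_eq_left hu]
        ring
      · simp [mix, hP]
    · simp [mix, he]
  simp only [h1, Finset.sum_ite_eq', indicator, mem_ofPred_eq]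
  split_ifs <;> simp

open Classical in
/-- Average over an auxiliary environment. -/
lemma SG.lip (h : SG T γ I) (P : Set EE) (Q : Measure Env) [IsProbabilityMeasure Q]
    (hQ : Integrable (fun y => wt y I) Q) :
    Lip (fun x => ∫ y, T (mix P y x) ∂Q)
      (fun e x => if e ∈ P then (Q {y | e ∈ γ (mix P y x)}).toReal else 0) I := by
  have hm : Measurable fun p : Env × Env => mix P p.2 p.1 := (measurable_mix P).comp measurable_swap
  have hi := h.var_integrable P hQ
  refine ⟨var_measurable_integral (f := fun p : Env × Env => T (mix P p.2 p.1)) (h.meas.comp hm),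
    fun e => ?_, fun e x => ?_, fun e x => ?_, fun x x' hx => ?_, ⟨T 0 + ∫ y, wt y I ∂Q, fun x => ?_⟩,
    fun e x u s hu hs => ?_, fun e x u s hu hs => ?_⟩
  · by_cases he : e ∈ P
    · simp only [he, if_true]
      exact (measurable_measure_prodMk_left (ν := Q) (hm (h.mγ e))).ennreal_toReal
    · simp only [he, if_false]
      exact measurable_const
  · split_ifs
    · exact ENNReal.toReal_nonneg
    · exact le_rfl
  · split_ifs
    · exact measureReal_le_one
    · exact zero_le_one
  · refine integral_congr_ae (ae_of_all _ fun y => h.dependsOn fun e he => ?_)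
    simp only [mix, hx e he]
  · rw [abs_of_nonneg (integral_nonneg fun y => h.nonneg _)]
    have := integral_mono (hi x) ((integrable_const (T 0)).add (hQ.add (integrable_const (wt x I))))
      fun y => h.var_mix_le P y x
    rw [integral_add' (integrable_const _) (hQ.add (integrable_const _)),
      integral_add' hQ (integrable_const _)] at this
    simp only [integral_const, probReal_univ, one_smul] at this
    linarith
  · refine integral_mono (hi _) (hi _) fun y => h.var_mono fun e' _ => ?_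
    refine max_le_max ?_ le_rfl
    unfold mix
    split_ifs
    · by_cases he : e' = e
      · subst he
        simp only [update_self]
        linarith
      · simp [he]
    · exact le_rfl
  · have hA : MeasurableSet {y | e ∈ γ (mix P y (update x e u))} := var_meas_mix_left P _ (h.mγ e)
    have i2 : Integrable (fun y => s * if e ∈ P then
        {y | e ∈ γ (mix P y (update x e u))}.indicator (fun _ => (1 : ℝ)) y else 0) Q := by
      refine Integrable.const_mul ?_ _
      split_ifs
      · exact (integrable_const 1).indicator hA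
      · exact integrable_const 0
    have := integral_mono (hi _) ((hi _).add i2) fun y => h.var_step P e x y hu hs
    rw [integral_add' (hi _) i2, integral_const_mul] at this
    refine this.trans (le_of_eq ?_)
    congr 2
    split_ifs
    · rw [integral_indicator hA]
      simp [Measure.real]
    · simp

open Classical in
lemma SG.var_lip (h : SG T γ I) : Lip T (fun e x => if e ∈ γ x then 1 else 0) I := by
  have h1 := h.lip univ PE (integrable_wt I)
  have e1 : ∀ x y : Env, mix univ y x = x := fun x y => by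
    funext e
    simp [mix]
  simp only [e1, integral_const, probReal_univ, one_smul, mem_univ, if_true] at h1
  convert h1 using 3 with e x
  split_ifs with he <;> simp [he]

/-- Gaussian lower bound for the Laplace transform. -/
theorem lowerTail (h : SG T γ I) {θ : ℝ} (h0 : 0 ≤ θ) (h1 : θ ≤ 1) :
    ENNReal.ofReal (exp (θ ^ 2 * Var[T; PE] / 4)) ≤
      ∫⁻ x, ENNReal.ofReal (exp (θ * (∫ y, T y ∂PE - T x))) ∂PE := by
  classical
  have hL := h.var_lip
  obtain ⟨g, d, r, hp⟩ := exists_pert hL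
  set m := ∫ y, T y ∂PE with hm
  set l := θ / 2 with hl
  have hl0 : 0 ≤ l := by positivity
  have hl1 : l ≤ 1 / 2 := by linarith
  have hTm := h.meas
  refine le_trans ?_ (hp.cov l hl0 hl1 I subset_rfl
    (fun x => ENNReal.ofReal (exp (θ * (m - T x)))) (by fun_prop))
  set ϖ : EE → Env → ℝ := fun e x => if e ∈ γ x then 1 else 0 with hϖ
  set Y : Env → ℝ := fun x => θ * (m - T x) + θ * l * ∑ e ∈ I, ϖ e x * g e x +
    ∑ e ∈ I, (l * d e x - l ^ 2 * r e x) with hY
  have iT : Integrable T PE := h.memLp.integrable one_le_two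
  have ig : ∀ e, Integrable (fun x => ϖ e x * g e x) PE := fun e => by
    refine (integrable_pos_coord e).mono' ((hL.mϖ e).mul (hp.mg e)).aestronglyMeasurable
      (ae_of_all _ fun x => ?_)
    rw [Real.norm_eq_abs, abs_of_nonneg (mul_nonneg (hL.ϖ0 e x) (hp.g0 e x))]
    exact (mul_le_of_le_one_left (hp.g0 e x) (hL.ϖ1 e x)).trans (hp.g1 e x)
  have id' : ∀ e, Integrable (d e) PE := fun e =>
    ((integrable_pos_coord e).add (integrable_const 1)).mono' (hp.md e).aestronglyMeasurable
      (ae_of_all _ fun x => hp.d1 e x)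
  have ir : ∀ e, Integrable (r e) PE := fun e =>
    var_integrable_bdd (hp.mr e) fun x => ⟨hp.r0 e x, hp.r1 e x⟩
  have i1 : Integrable (fun x => θ * (m - T x)) PE := ((integrable_const m).sub iT).const_mul _
  have i2 : Integrable (fun x => θ * l * ∑ e ∈ I, ϖ e x * g e x) PE :=
    (integrable_finsetSum _ fun e _ => ig e).const_mul _
  have i3' : ∀ e, Integrable (fun x => l * d e x - l ^ 2 * r e x) PE := fun e =>
    ((id' e).const_mul _).sub ((ir e).const_mul _)
  have i3 : Integrable (fun x => ∑ e ∈ I, (l * d e x - l ^ 2 * r e x)) PE :=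
    integrable_finsetSum _ fun e _ => i3' e
  have i12 : Integrable (fun x => θ * (m - T x) + θ * l * ∑ e ∈ I, ϖ e x * g e x) PE := i1.add i2
  have iY : Integrable Y PE := i12.add i3
  have mY : Measurable Y := by
    refine ((measurable_const.mul (measurable_const.sub hTm)).add (measurable_const.mul
      (Finset.measurable_sum _ fun e _ => (hL.mϖ e).mul (hp.mg e)))).add
      (Finset.measurable_sum _ fun e _ => ?_)
    exact (measurable_const.mul (hp.md e)).sub (measurable_const.mul (hp.mr e))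
  have eY : θ ^ 2 * Var[T; PE] / 4 ≤ ∫ x, Y x ∂PE := by
    simp only [hY]
    rw [integral_add i12 i3, integral_add i1 i2, integral_const_mul, integral_const_mul,
      integral_sub (integrable_const m) iT, integral_finsetSum _ fun e _ => ig e,
      integral_finsetSum _ fun e _ => i3' e]
    have h3 : ∑ e ∈ I, ∫ x, (l * d e x - l ^ 2 * r e x) ∂PE ≥
        - l ^ 2 * ∑ e ∈ I, ∫ x, d e x ^ 2 ∂PE := by
      rw [Finset.mul_sum]
      refine Finset.sum_le_sum fun e he => ?_
      rw [integral_sub ((id' e).const_mul _) ((ir e).const_mul _), integral_const_mul,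
        integral_const_mul, hp.mean e he]
      nlinarith [hp.rle e he, sq_nonneg l]
    have h4 := mul_le_mul_of_nonneg_left hp.gain (mul_nonneg h0 hl0)
    have h5 := mul_le_mul_of_nonneg_left hp.tot (sq_nonneg l)
    simp only [integral_const, probReal_univ, one_smul, ← hm, sub_self, mul_zero, zero_add]
    have h6 : θ ^ 2 * Var[T; PE] / 4 = θ * l * Var[T; PE] - l ^ 2 * Var[T; PE] := by
      rw [hl]; ring
    linarith
  have hJ := one_le_lintegral_exp (P := PE) (X := fun x => Y x - ∫ y, Y y ∂PE)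
    (mY.sub measurable_const) (iY.sub (integrable_const _))
    (by rw [integral_sub iY (integrable_const _)]; simp)
  calc ENNReal.ofReal (exp (θ ^ 2 * Var[T; PE] / 4))
      ≤ ENNReal.ofReal (exp (∫ y, Y y ∂PE)) * 1 := by
        rw [mul_one]
        exact ENNReal.ofReal_le_ofReal (exp_le_exp.2 eY)
    _ ≤ ENNReal.ofReal (exp (∫ y, Y y ∂PE)) *
          ∫⁻ x, ENNReal.ofReal (exp (Y x - ∫ y, Y y ∂PE)) ∂PE := by gcongr
    _ = ∫⁻ x, ENNReal.ofReal (exp (Y x)) ∂PE := by
        rw [← lintegral_const_mul' _ _ ENNReal.ofReal_ne_top]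
        refine lintegral_congr fun x => ?_
        rw [← ENNReal.ofReal_mul (exp_pos _).le, ← exp_add]
        congr 2
        ring
    _ ≤ _ := by
        refine lintegral_mono fun x => ?_
        simp only
        rw [← ENNReal.ofReal_mul (exp_pos _).le, ← exp_add]
        refine ENNReal.ofReal_le_ofReal (exp_le_exp.2 ?_)
        have s1 := h.sg x (shift g l I x)
        have s2 : wt (shift g l I x) (γ x) - wt x (γ x) = - l * ∑ e ∈ I, ϖ e x * g e x := by
          have s3 : ∑ e ∈ I, ϖ e x * g e x = ∑ e ∈ γ x, g e x := by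
            rw [← Finset.sum_subset (h.sub x) (fun e _ he => by simp [hϖ, he])]
            exact Finset.sum_congr rfl fun e he => by simp [hϖ, he]
          rw [s3, Finset.mul_sum]
          unfold wt
          rw [← Finset.sum_sub_distrib]
          refine Finset.sum_congr rfl fun e he => ?_
          simp only [shift, h.sub x he, if_true]
          have g0 := hp.g0 e x
          have g1 := hp.g1 e x
          rcases le_total (x e) 0 with hx | hx
          · rw [max_eq_right hx] at g1
            have : g e x = 0 := le_antisymm g1 g0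
            simp [this]
          · rw [max_eq_left hx] at g1
            rw [max_eq_left hx, max_eq_left (by nlinarith)]
            ring
        rw [s2] at s1
        have s4 := mul_le_mul_of_nonneg_left s1 h0
        simp only [hY]
        linarith

theorem qfix {a ρ : ℝ} (ha : 0 < a) (hρ : 0 < ρ) : ∃ θ : ℝ, 0 < θ ∧ ∀ Γ : ℝ, ∃ p : ℝ, 0 < p ∧
    ∀ (T : Env → ℝ) (γ : Env → Finset EE) (I : Finset EE) (c0 s : ℝ), SG T γ I → θ ≤ s →
      (∀ x, T x ≤ c0) → a ^ 2 * s ^ 2 ≤ Var[T; PE] →
      ∫⁻ x, ENNReal.ofReal (exp (2 * θ * (c0 - T x) / s)) ∂PE ≤ ENNReal.ofReal Γ →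
      ENNReal.ofReal p ≤ PE {x | T x ≤ c0 - ρ * s} := by
  obtain ⟨θ, hθ, hθ1⟩ : ∃ θ : ℝ, 0 < θ ∧ θ * ρ + 1 ≤ θ ^ 2 * a ^ 2 / 4 := by
    refine ⟨4 * ρ / a ^ 2 + 2 / a, by positivity, ?_⟩
    have e1 : (4 * ρ / a ^ 2 + 2 / a) ^ 2 * a ^ 2 / 4 =
        (4 * ρ / a ^ 2 + 2 / a) * ρ + 1 + 2 * ρ / a := by
      field_simp
      ring
    have : 0 < 2 * ρ / a := by positivity
    linarith
  refine ⟨θ, hθ, fun Γ => ⟨1 / max Γ 1, by positivity, ?_⟩⟩
  intro T γ I c0 s h hs hc hV hΓ
  have hs0 : 0 < s := hθ.trans_le hs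
  have hl : (0 : ℝ) < max Γ 1 := by positivity
  have hTm := h.meas
  set u : Env → ℝ := fun x => exp (θ * (c0 - T x) / s) with hu
  have mu : Measurable u := by fun_prop
  have bu : ∀ x, 0 ≤ u x ∧ u x ≤ exp (θ * c0 / s) := fun x =>
    ⟨(exp_pos _).le, by simp only [hu]; gcongr; linarith [h.nonneg x]⟩
  have bu2 : ∀ x, 0 ≤ u x ^ 2 ∧ u x ^ 2 ≤ exp (θ * c0 / s) ^ 2 := fun x =>
    ⟨sq_nonneg _, pow_le_pow_left₀ (bu x).1 (bu x).2 2⟩
  have e2 : ∀ x, exp (2 * θ * (c0 - T x) / s) = u x ^ 2 := fun x => by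
    simp only [hu]
    rw [← exp_nat_mul]
    congr 1
    push_cast
    ring
  simp only [e2] at hΓ
  rw [var_lintegral_ofReal (mu.pow_const 2) bu2] at hΓ
  have hΓ' : ∫ x, u x ^ 2 ∂PE ≤ max Γ 1 :=
    (ENNReal.ofReal_le_ofReal_iff hl.le).1
      (hΓ.trans (ENNReal.ofReal_le_ofReal (le_max_left _ _)))
  have hlow := lowerTail h (θ := θ / s) (by positivity) ((div_le_one hs0).2 hs)
  have hm : ∫ y, T y ∂PE ≤ c0 := by
    simpa using integral_mono (h.memLp.integrable one_le_two) (integrable_const c0) hc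
  have h2 : ENNReal.ofReal (exp (θ * ρ + 1)) ≤ ENNReal.ofReal (∫ x, u x ∂PE) := by
    rw [← var_lintegral_ofReal mu bu]
    refine le_trans (ENNReal.ofReal_le_ofReal (exp_le_exp.2 (hθ1.trans ?_)))
      (hlow.trans (lintegral_mono fun x => ENNReal.ofReal_le_ofReal (exp_le_exp.2 ?_)))
    · have : θ ^ 2 * a ^ 2 = (θ / s) ^ 2 * (a ^ 2 * s ^ 2) := by field_simp
      rw [this]
      gcongr
    · rw [div_mul_eq_mul_div]
      gcongr
  have h3 : exp (θ * ρ + 1) ≤ ∫ x, u x ∂PE :=
    (ENNReal.ofReal_le_ofReal_iff (integral_nonneg fun x => (bu x).1)).1 h2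
  have hA : MeasurableSet {x | T x ≤ c0 - ρ * s} := measurableSet_le hTm measurable_const
  have h4 := var_second (P := PE) hA (var_integrable_bdd mu bu)
    (var_integrable_bdd (mu.pow_const 2) bu2) (b := exp (θ * ρ)) (exp_pos _).le hl (fun x hx => by
      simp only [mem_ofPred_eq, not_le] at hx
      refine exp_le_exp.2 ?_
      rw [div_le_iff₀ hs0, mul_assoc]
      exact mul_le_mul_of_nonneg_left (by linarith) hθ.le)
  have h5 : (∫ x, u x ^ 2 ∂PE) / max Γ 1 ≤ 1 := (div_le_one hl).2 hΓ'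
  have h6 : exp (θ * ρ) + 1 ≤ exp (θ * ρ + 1) := by
    rw [exp_add]
    have a1 : 1 ≤ exp (θ * ρ) := one_le_exp (by positivity)
    have a2 : 1 + 1 ≤ exp 1 := add_one_le_exp 1
    nlinarith
  rw [← ENNReal.ofReal_toReal (measure_ne_top PE {x | T x ≤ c0 - ρ * s})]
  refine ENNReal.ofReal_le_ofReal ?_
  rw [div_le_iff₀ hl]
  linarith

end Pool.Agent.Lib.MP_de94ef_pr.Q
end

-- part Pool.Agent.Lib.MP_de94ef_pr.Q.Var
section

/-!
Variance decomposition and the lower tail of concave functionals.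
-/

open MeasureTheory ProbabilityTheory Set Real Function Filter Topology
open scoped ENNReal NNReal

namespace Pool.Agent.Lib.MP_de94ef_pr.Q

variable {T : Env → ℝ} {γ : Env → Finset EE} {I : Finset EE}

lemma var_mp (t : ℝ) :
    MeasurePreserving (fun p : Om × Env => mix (SS t p.1.1) p.1.2 p.2) (P2.prod PE) PE :=
  measurePreserving_snd.comp (measurePreserving_mixS t)

/-- Mean over the hidden edges. -/
noncomputable def varM (t : ℝ) (F : Env → ℝ) (ω : Om) : ℝ := ∫ y, F (mix (SS t ω.1) ω.2 y) ∂PE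

lemma varM_meas {F : Env → ℝ} (hF : Measurable F) (t : ℝ) : Measurable (varM t F) :=
  var_measurable_integral (f := fun p : Om × Env => F (mix (SS t p.1.1) p.1.2 p.2))
    (hF.comp (measurable_mixS t))

lemma varM_integrable {F : Env → ℝ} (hF : Integrable F PE) (t : ℝ) : Integrable (varM t F) P2 :=
  ((var_mp t).integrable_comp_of_integrable hF).integral_prod_left

lemma varM_integral {F : Env → ℝ} (hm : Measurable F) (hF : Integrable F PE) (t : ℝ) :
    ∫ ω, varM t F ω ∂P2 = ∫ x, F x ∂PE := by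
  rw [← var_integral_mp (var_mp t) hm]
  exact (integral_prod _ ((var_mp t).integrable_comp_of_integrable hF)).symm

lemma varM_slice {F : Env → ℝ} (hm : Measurable F) (hF : Integrable F PE) (t : ℝ) (ζ : Env) :
    Integrable (fun x => varM t F (ζ, x)) PE ∧ ∫ x, varM t F (ζ, x) ∂PE = ∫ x, F x ∂PE := by
  have h := measurePreserving_mix (SS t ζ)
  refine ⟨(h.integrable_comp_of_integrable hF).integral_prod_left, ?_⟩
  rw [← var_integral_mp h hm]
  exact (integral_prod _ (h.integrable_comp_of_integrable hF)).symm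

lemma var_lintegral_mix {F : Env → ℝ≥0∞} (hm : Measurable F) (t : ℝ) :
    ∫⁻ ω : Om, ∫⁻ y, F (mix (SS t ω.1) ω.2 y) ∂PE ∂P2 = ∫⁻ x, F x ∂PE := by
  rw [← (var_mp t).lintegral_comp hm]
  exact (lintegral_prod _ (hm.comp (measurable_mixS t)).aemeasurable).symm

lemma SG.var_sq (h : SG T γ I) : Integrable (fun x => T x ^ 2) PE :=
  (memLp_two_iff_integrable_sq h.meas.aestronglyMeasurable).1 h.memLp

lemma SG.var_fib (h : SG T γ I) (t : ℝ) (ω : Om) :
    Var[fun y => T (mix (SS t ω.1) ω.2 y); PE] =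
      varM t (fun x => T x ^ 2) ω - varM t T ω ^ 2 :=
  var_eq_sub (h.fiber _ _).memLp

lemma SG.var_M_sq (h : SG T γ I) (t : ℝ) (ω : Om) :
    varM t T ω ^ 2 ≤ varM t (fun x => T x ^ 2) ω :=
  var_sq_le (h.fiber _ _).memLp

lemma SG.var_M_int (h : SG T γ I) (t : ℝ) : Integrable (fun ω => varM t T ω ^ 2) P2 := by
  refine (varM_integrable h.var_sq t).mono'
    ((varM_meas h.meas t).pow_const 2).aestronglyMeasurable (ae_of_all _ fun ω => ?_)
  rw [Real.norm_eq_abs, abs_of_nonneg (sq_nonneg _)]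
  exact h.var_M_sq t ω

lemma SG.var_meas (h : SG T γ I) (t : ℝ) :
    Measurable fun ω : Om => Var[fun y => T (mix (SS t ω.1) ω.2 y); PE] := by
  simp only [h.var_fib]
  exact (varM_meas (h.meas.pow_const 2) t).sub ((varM_meas h.meas t).pow_const 2)

lemma integrable_cvar (h : SG T γ I) (t : ℝ) :
    Integrable (fun ω : Om => Var[fun y => T (mix (SS t ω.1) ω.2 y); PE]) P2 := by
  simp only [h.var_fib]
  exact (varM_integrable h.var_sq t).sub (h.var_M_int t)

lemma SG.var_rfib (h : SG T γ I) (t : ℝ) (ζ : Env) :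
    Var[fun x => ∫ y, T (mix (SS t ζ) x y) ∂PE; PE] =
      ∫ x, varM t T (ζ, x) ^ 2 ∂PE - (∫ x, T x ∂PE) ^ 2 := by
  have hm : Measurable fun x => varM t T (ζ, x) := (varM_meas h.meas t).comp measurable_prodMk_left
  have h2 : MemLp (fun x => varM t T (ζ, x)) 2 PE := by
    rw [memLp_two_iff_integrable_sq hm.aestronglyMeasurable]
    refine (varM_slice (h.meas.pow_const 2) h.var_sq t ζ).1.mono'
      (hm.pow_const 2).aestronglyMeasurable (ae_of_all _ fun x => ?_)
    rw [Real.norm_eq_abs, abs_of_nonneg (sq_nonneg _)]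
    exact h.var_M_sq t (ζ, x)
  rw [← (varM_slice h.meas (h.memLp.integrable one_le_two) t ζ).2]
  exact var_eq_sub h2

lemma integrable_rvar (h : SG T γ I) (t : ℝ) :
    Integrable (fun ζ => Var[fun x => ∫ y, T (mix (SS t ζ) x y) ∂PE; PE]) PE := by
  simp only [h.var_rfib]
  exact (h.var_M_int t).integral_prod_left.sub (integrable_const _)

theorem totalVar (h : SG T γ I) (t : ℝ) : Var[T; PE] = cvar t T + rvar t T := by
  unfold cvar rvar
  simp only [h.var_fib, h.var_rfib]
  rw [integral_sub (varM_integrable h.var_sq t) (h.var_M_int t),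
    integral_sub (h.var_M_int t).integral_prod_left (integrable_const _),
    varM_integral (h.meas.pow_const 2) h.var_sq, integral_prod _ (h.var_M_int t),
    var_eq_sub h.memLp]
  simp

theorem qcond {a : ℝ} (ha : 0 < a) (C : ℝ) : ∃ c : ℝ, 0 < c ∧ c ≤ 1 ∧ ∀ ρ : ℝ, 0 < ρ →
    ∃ θ : ℝ, 0 < θ ∧ ∀ Γ : ℝ, ∃ p : ℝ, 0 < p ∧
    ∀ (T : Env → ℝ) (γ : Env → Finset EE) (I : Finset EE) (c0 s t : ℝ), SG T γ I → θ ≤ s →
      (∀ x, T x ≤ c0) → a ^ 2 * s ^ 2 ≤ cvar t T → ∫ x, (c0 - T x) ^ 4 ∂PE ≤ C * s ^ 4 →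
      ∫⁻ x, ENNReal.ofReal (exp (2 * θ * (c0 - T x) / s)) ∂PE ≤ ENNReal.ofReal Γ →
      ENNReal.ofReal c ≤
        P2 {ω | ENNReal.ofReal p ≤ PE {z | T (mix (SS t ω.1) ω.2 z) ≤ c0 - ρ * s}} := by
  have hC : (0 : ℝ) < max C 1 := by positivity
  obtain ⟨c, hc0, hc1, hc2⟩ : ∃ c : ℝ, 0 < c ∧ c ≤ 1 ∧ c ≤ a ^ 4 / (8 * max C 1) :=
    ⟨min 1 (a ^ 4 / (8 * max C 1)), by positivity, min_le_left _ _, min_le_right _ _⟩
  refine ⟨c, hc0, hc1, fun ρ hρ => ?_⟩
  obtain ⟨θ, hθ, hq⟩ := qfix (a := a / √2) (by positivity) hρ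
  refine ⟨θ, hθ, fun Γ => ?_⟩
  obtain ⟨p, hp, hq⟩ := hq (max Γ 1 / c)
  refine ⟨p, hp, fun T γ I c0 s t h hs hc hV h4 hΓ => ?_⟩
  have hs0 : 0 < s := hθ.trans_le hs
  have hTm := h.meas
  have hΓ0 : (0 : ℝ) < max Γ 1 := by positivity
  set V : Om → ℝ := fun ω => Var[fun y => T (mix (SS t ω.1) ω.2 y); PE] with hVd
  set M : Om → ℝ≥0∞ := fun ω =>
    ∫⁻ y, ENNReal.ofReal (exp (2 * θ * (c0 - T (mix (SS t ω.1) ω.2 y)) / s)) ∂PE with hM
  have b1 : ∀ x, 0 ≤ c0 - T x ∧ c0 - T x ≤ c0 := fun x =>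
    ⟨sub_nonneg.2 (hc x), sub_le_self _ (h.nonneg x)⟩
  have b4 : ∀ k x, 0 ≤ (c0 - T x) ^ k ∧ (c0 - T x) ^ k ≤ c0 ^ k := fun k x =>
    ⟨pow_nonneg (b1 x).1 _, pow_le_pow_left₀ (b1 x).1 (b1 x).2 _⟩
  have i4 : Integrable (fun x => (c0 - T x) ^ 4) PE := var_integrable_bdd (by fun_prop) (b4 4)
  have hV2 : ∀ ω, V ω ^ 2 ≤ varM t (fun x => (c0 - T x) ^ 4) ω := fun ω => by
    have m1 : Measurable fun y => T (mix (SS t ω.1) ω.2 y) := (h.fiber _ _).meas
    have a1 : V ω ≤ ∫ y, (c0 - T (mix (SS t ω.1) ω.2 y)) ^ 2 ∂PE := by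
      simp only [hVd]
      rw [← variance_const_sub m1.aestronglyMeasurable c0]
      exact variance_le_expectation_sq (measurable_const.sub m1).aestronglyMeasurable
    have a2 : MemLp (fun y => (c0 - T (mix (SS t ω.1) ω.2 y)) ^ 2) 2 PE :=
      memLp_of_bounded (ae_of_all _ fun y => b4 2 _)
        ((measurable_const.sub m1).pow_const 2).aestronglyMeasurable 2
    have a3 := var_sq_le a2
    simp only [← pow_mul] at a3
    exact (pow_le_pow_left₀ (variance_nonneg _ _) a1 2).trans a3
  have mV : Measurable V := h.var_meas t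
  have iV2 : Integrable (fun ω => V ω ^ 2) P2 := by
    refine (varM_integrable i4 t).mono' (mV.pow_const 2).aestronglyMeasurable
      (ae_of_all _ fun ω => ?_)
    rw [Real.norm_eq_abs, abs_of_nonneg (sq_nonneg _)]
    exact hV2 ω
  have eV2 : ∫ ω, V ω ^ 2 ∂P2 ≤ max C 1 * s ^ 4 := by
    refine (integral_mono iV2 (varM_integrable i4 t) hV2).trans ?_
    rw [varM_integral (by fun_prop) i4]
    exact h4.trans (mul_le_mul_of_nonneg_right (le_max_left _ _) (by positivity))
  have hA : MeasurableSet {ω | a ^ 2 * s ^ 2 / 2 ≤ V ω} := measurableSet_le measurable_const mV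
  have hl : 0 < 2 * max C 1 * s ^ 2 / a ^ 2 := by positivity
  have h5 := var_second (P := P2) hA (integrable_cvar h t) iV2 (b := a ^ 2 * s ^ 2 / 2)
    (by positivity) hl (fun ω hω => (not_le.1 hω).le)
  have h6 : (∫ ω, V ω ^ 2 ∂P2) / (2 * max C 1 * s ^ 2 / a ^ 2) ≤ a ^ 2 * s ^ 2 / 2 := by
    rw [div_le_iff₀ hl]
    refine eV2.trans (le_of_eq ?_)
    field_simp
  have h7 : 2 * c ≤ (P2 {ω | a ^ 2 * s ^ 2 / 2 ≤ V ω}).toReal := by
    have a1 : a ^ 2 * s ^ 2 / 2 ≤
        2 * max C 1 * s ^ 2 / a ^ 2 * (P2 {ω | a ^ 2 * s ^ 2 / 2 ≤ V ω}).toReal := by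
      unfold cvar at hV
      linarith
    have a2 : 2 * max C 1 * s ^ 2 / a ^ 2 * (2 * (a ^ 4 / (8 * max C 1))) = a ^ 2 * s ^ 2 / 2 := by
      field_simp
      ring
    have a3 := le_of_mul_le_mul_left (a2.le.trans a1) hl
    linarith
  have mM : Measurable M := by
    have : Measurable fun p : Om × Env =>
        ENNReal.ofReal (exp (2 * θ * (c0 - T (mix (SS t p.1.1) p.1.2 p.2)) / s)) := by
      have := hTm.comp (measurable_mixS t)
      exact (((measurable_const.mul (measurable_const.sub this)).div_const s).exp).ennreal_ofReal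
    exact this.lintegral_prod_right'
  have eM : ∫⁻ ω, M ω ∂P2 ≤ ENNReal.ofReal (max Γ 1) := by
    simp only [hM]
    rw [var_lintegral_mix (F := fun x => ENNReal.ofReal (exp (2 * θ * (c0 - T x) / s)))
      (by fun_prop)]
    exact hΓ.trans (ENNReal.ofReal_le_ofReal (le_max_left _ _))
  have hB : P2 {ω | ENNReal.ofReal (max Γ 1 / c) ≤ M ω} ≤ ENNReal.ofReal c := by
    have a1 : ENNReal.ofReal (max Γ 1 / c) ≠ 0 := (ENNReal.ofReal_pos.2 (by positivity)).ne'
    refine (meas_ge_le_lintegral_div mM.aemeasurable a1 ENNReal.ofReal_ne_top).trans ?_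
    refine (ENNReal.div_le_div_right eM _).trans (le_of_eq ?_)
    rw [← ENNReal.ofReal_div_of_pos (by positivity)]
    congr 1
    field_simp
  have hsub : {ω | a ^ 2 * s ^ 2 / 2 ≤ V ω} ⊆
      {ω | ENNReal.ofReal p ≤ PE {z | T (mix (SS t ω.1) ω.2 z) ≤ c0 - ρ * s}} ∪
        {ω | ENNReal.ofReal (max Γ 1 / c) ≤ M ω} := by
    intro ω hω
    by_cases hω' : ENNReal.ofReal (max Γ 1 / c) ≤ M ω
    · exact Or.inr hω'
    · refine Or.inl (hq _ _ I c0 s (h.fiber (SS t ω.1) ω.2) hs (fun y => hc _) ?_ (not_le.1 hω').le)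
      rw [div_pow, sq_sqrt zero_le_two, div_mul_eq_mul_div]
      exact hω
  have h8 : ENNReal.ofReal c + ENNReal.ofReal c ≤
      P2 {ω | ENNReal.ofReal p ≤ PE {z | T (mix (SS t ω.1) ω.2 z) ≤ c0 - ρ * s}} +
        ENNReal.ofReal c := by
    rw [← ENNReal.ofReal_add hc0.le hc0.le, ← two_mul]
    refine le_trans ?_ (((measure_mono hsub).trans (measure_union_le _ _)).trans
      (add_le_add le_rfl hB))
    rw [← ENNReal.ofReal_toReal (measure_ne_top P2 {ω | a ^ 2 * s ^ 2 / 2 ≤ V ω})]
    exact ENNReal.ofReal_le_ofReal h7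
  exact (ENNReal.add_le_add_iff_right ENNReal.ofReal_ne_top).1 h8

lemma cvar_zero (T : Env → ℝ) : cvar 0 T = 0 := by
  have : ∀ ζ x y : Env, mix (SS 0 ζ) x y = x := fun ζ x y => by
    funext e
    simp [mix, SS, not_le.2 (exp_pos _)]
  simp only [cvar, this, var_const, integral_zero]

lemma rvar_one (T : Env → ℝ) : rvar 1 T = 0 := by
  have : ∀ ζ x y : Env, mix (SS 1 ζ) x y = y := fun ζ x y => by
    funext e
    simp [mix, SS]
  simp only [rvar, this, var_const, integral_zero]

lemma var_ae_ne (t : ℝ) : ∀ᵐ u ∂nu, exp (-max u 0) ≠ t := by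
  have h1 : ∀ᵐ u ∂nu, u ≠ -log t := by
    have : nu ≪ volume := withDensity_absolutelyContinuous _ _
    exact this.ae_le (by simp [ae_iff] : ∀ᵐ u : ℝ, u ≠ -log t)
  filter_upwards [h1, nu_ae_pos] with u hu hu0 he
  apply hu
  rw [← he, max_eq_left hu0.le, log_exp, neg_neg]

theorem cvar_cont (h : SG T γ I) : ContinuousOn (fun t => cvar t T) (Icc 0 1) := by
  refine fun t0 _ => ContinuousAt.continuousWithinAt ?_
  have iw := (memLp_two_iff_integrable_sq (measurable_wt I).aestronglyMeasurable).1 (var_memLp_wt I)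
  have iw' := (memLp_two_iff_integrable_sq
    (measurable_const.add (measurable_wt I)).aestronglyMeasurable).1
      ((memLp_const (T 0)).add (var_memLp_wt I))
  refine continuousAt_of_dominated
    (bound := fun ω : Om => 2 * (T 0 + wt ω.2 I) ^ 2 + 2 * ∫ y, wt y I ^ 2 ∂PE)
    (Eventually.of_forall fun t => (h.var_meas t).aestronglyMeasurable)
    (Eventually.of_forall fun t => ae_of_all _ fun ω => ?_) ?_ ?_
  · rw [Real.norm_eq_abs, abs_of_nonneg (variance_nonneg _ _)]
    have hf := h.fiber (SS t ω.1) ω.2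
    refine (variance_le_expectation_sq hf.meas.aestronglyMeasurable).trans ?_
    have := integral_mono hf.var_sq
      ((integrable_const (2 * (T 0 + wt ω.2 I) ^ 2)).add (iw.const_mul 2)) fun y => by
        have a1 := h.var_mix_le (SS t ω.1) ω.2 y
        have a2 := h.nonneg (mix (SS t ω.1) ω.2 y)
        have a3 := pow_le_pow_left₀ a2 a1 2
        simp only [Pi.add_apply]
        nlinarith [sq_nonneg (T 0 + wt ω.2 I - wt y I)]
    rw [integral_add' (integrable_const _) (iw.const_mul 2)] at this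
    simpa [integral_const_mul] using this
  · exact ((measurePreserving_snd.integrable_comp_of_integrable iw').const_mul 2).add
      (integrable_const _)
  · have h1 : ∀ᵐ ζ ∂PE, ∀ e ∈ I, exp (-max (ζ e) 0) ≠ t0 := by
      rw [ae_all_iff]
      intro e
      filter_upwards [(measurePreserving_eval_infinitePi (fun _ : EE => nu) e).quasiMeasurePreserving.ae
        (var_ae_ne t0)] with ζ hζ _ using hζ
    filter_upwards [(measurePreserving_fst (μ := PE) (ν := PE)).quasiMeasurePreserving.ae h1]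
      with ω hω
    have h2 : ∀ᶠ t in 𝓝 t0, ∀ e ∈ I, (e ∈ SS t ω.1 ↔ e ∈ SS t0 ω.1) := by
      rw [eventually_all_finset]
      intro e he
      rcases lt_or_gt_of_ne (hω e he) with h3 | h3
      · filter_upwards [eventually_gt_nhds h3] with t ht
        exact ⟨fun _ => h3.le, fun _ => ht.le⟩
      · filter_upwards [eventually_lt_nhds h3] with t ht
        exact ⟨fun h4 => absurd h4 (not_le.2 ht), fun h4 => absurd h4 (not_le.2 h3)⟩
    refine (continuousAt_const (y := Var[fun y => T (mix (SS t0 ω.1) ω.2 y); PE])).congr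
      (h2.mono fun t ht => ?_)
    have : (fun y => T (mix (SS t ω.1) ω.2 y)) = fun y => T (mix (SS t0 ω.1) ω.2 y) := by
      funext y
      exact h.dependsOn fun e he => by
        unfold mix
        rw [propext (ht e he)]
    simp only [this]

lemma cvar_tau (h : SG T γ I) (t : ℝ) (o : VV) : cvar t (fun x => T (tau o x)) = cvar t T := by
  unfold cvar
  rw [← var_integral_mp ((measurePreserving_tau o).prod (measurePreserving_tau o)) (h.var_meas t)]
  refine integral_congr_ae (ae_of_all _ fun ω => ?_)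
  simp only [tau_mix, Prod.map_fst, Prod.map_snd]
  exact (measurePreserving_tau o).variance_fun_comp
    (f := fun y => T (mix (SS t (tau o ω.1)) (tau o ω.2) y)) (h.fiber _ _).meas.aemeasurable

lemma var_split {α : Type} [MeasurableSpace α] {P : Measure α} [IsProbabilityMeasure P]
    {Z : α → ℝ} (hZ : Measurable Z) {b X : ℝ} (hb : ∀ x, 0 ≤ Z x ∧ Z x ≤ b) (hX : 2 ≤ X) :
    ENNReal.ofReal (exp (log (∫ x, exp (X * Z x) ∂P) / X)) ≤
      ∫⁻ x, ENNReal.ofReal (exp (2 * Z x)) ∂P +
        2⁻¹ * ∫⁻ x, ENNReal.ofReal (exp (X * (Z x - ∫ y, Z y ∂P))) ∂P := by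
  set m := ∫ y, Z y ∂P with hm
  have hX0 : 0 < X := by linarith
  have iZ : Integrable Z P := var_integrable_bdd hZ hb
  have b1 : ∀ x, 0 ≤ exp (2 * Z x) ∧ exp (2 * Z x) ≤ exp (2 * b) := fun x =>
    ⟨(exp_pos _).le, by gcongr; exact (hb x).2⟩
  have b2 : ∀ x, 0 ≤ exp (X * (Z x - m)) ∧ exp (X * (Z x - m)) ≤ exp (X * (b - m)) := fun x =>
    ⟨(exp_pos _).le, by gcongr; exact (hb x).2⟩
  have j1 := var_jensen (iZ.const_mul 2) (var_integrable_bdd (by fun_prop) b1)
  have j2 := var_jensen (f := fun x => X * (Z x - m)) ((iZ.sub (integrable_const m)).const_mul X)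
    (var_integrable_bdd (by fun_prop) b2)
  rw [integral_const_mul] at j1
  rw [integral_const_mul, integral_sub iZ (integrable_const m)] at j2
  simp only [integral_const, probReal_univ, one_smul, ← hm, sub_self, mul_zero, exp_zero] at j1 j2
  rw [var_lintegral_ofReal (by fun_prop) b1, var_lintegral_ofReal (by fun_prop) b2]
  set w := ∫ x, exp (X * (Z x - m)) ∂P with hw
  have e1 : ∫ x, exp (X * Z x) ∂P = exp (X * m) * w := by
    rw [hw, ← integral_const_mul]
    refine integral_congr_ae (ae_of_all _ fun x => ?_)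
    simp only
    rw [← exp_add]
    congr 1
    ring
  have hw0 : 0 < w := by linarith
  have hl : 0 ≤ log w := log_nonneg j2
  have e2 : log (∫ x, exp (X * Z x) ∂P) / X ≤ m + log w / 2 := by
    rw [e1, log_mul (exp_pos _).ne' hw0.ne', log_exp, add_div, mul_div_cancel_left₀ _ hX0.ne']
    gcongr
  have e3 : exp (m + log w / 2) ≤ exp (2 * m) + 2⁻¹ * w := by
    have a1 : exp (2 * m) = exp m ^ 2 := by rw [← exp_nat_mul]; norm_num
    have a2 : w = exp (log w / 2) ^ 2 := by
      rw [← exp_nat_mul]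
      push_cast
      rw [mul_div_cancel₀ _ two_ne_zero, exp_log hw0]
    rw [exp_add, a1]
    nlinarith [sq_nonneg (exp m - exp (log w / 2)), sq_nonneg (exp m)]
  have e4 : (2⁻¹ : ℝ≥0∞) = ENNReal.ofReal 2⁻¹ := by
    rw [ENNReal.ofReal_inv_of_pos two_pos]
    simp
  rw [e4, ← ENNReal.ofReal_mul (by norm_num),
    ← ENNReal.ofReal_add (integral_nonneg fun x => (b1 x).1) (by positivity)]
  refine ENNReal.ofReal_le_ofReal (((exp_le_exp.2 e2).trans e3).trans ?_)
  linarith

/-- A small conditional variance gives a small conditional Laplace transform. -/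
theorem psi_small (Γ : ℝ) : ∃ ε : ℝ, 0 < ε ∧ ∀ (T : Env → ℝ) (γ : Env → Finset EE)
    (I : Finset EE) (c0 t X s : ℝ), SG T γ I → (∀ x, T x ≤ c0) → 2 ≤ X → 0 < s →
    X ^ 2 * cvar t T ≤ ε * s ^ 2 →
    ∫⁻ x, ENNReal.ofReal (exp (3 * X * (c0 - T x) / s)) ∂PE ≤ ENNReal.ofReal Γ →
    ∫⁻ ω, ENNReal.ofReal (exp (psi t (X / s) c0 T ω / X)) ∂P2 ≤
      2 + ∫⁻ x, ENNReal.ofReal (exp (2 * (c0 - T x) / s)) ∂PE := by
  obtain ⟨ε, hε, hsv⟩ := smallVar Γ
  refine ⟨ε, hε, fun T γ I c0 t X s h hc hX hs hV hΓ => ?_⟩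
  have hTm := h.meas
  have hX0 : 0 < X := by linarith
  set Z : Env → ℝ := fun x => (c0 - T x) / s with hZ
  have mZ : Measurable Z := by fun_prop
  have bZ : ∀ x, 0 ≤ Z x ∧ Z x ≤ c0 / s := fun x =>
    ⟨div_nonneg (sub_nonneg.2 (hc x)) hs.le, by
      simp only [hZ]; gcongr; linarith [h.nonneg x]⟩
  have mF : ∀ ω : Om, Measurable fun y => Z (mix (SS t ω.1) ω.2 y) := fun ω =>
    mZ.comp (var_meas_mix_right (SS t ω.1) ω.2)
  have iF : ∀ ω : Om, Integrable (fun y => Z (mix (SS t ω.1) ω.2 y)) PE := fun ω =>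
    var_integrable_bdd (mF ω) fun y => bZ _
  have bM : ∀ ω, 0 ≤ varM t Z ω ∧ varM t Z ω ≤ c0 / s := fun ω =>
    ⟨integral_nonneg fun y => (bZ _).1, by
      simpa [varM] using integral_mono (iF ω) (integrable_const (c0 / s)) fun y => (bZ _).2⟩
  set D : Om × Env → ℝ := fun p => X * (Z (mix (SS t p.1.1) p.1.2 p.2) - varM t Z p.1) with hD
  have mD : Measurable D := measurable_const.mul
    ((mZ.comp (measurable_mixS t)).sub ((varM_meas mZ t).comp measurable_fst))
  have bD : ∀ p, D p ∈ Icc (X * (0 - c0 / s)) (X * (c0 / s - 0)) := fun p =>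
    ⟨mul_le_mul_of_nonneg_left (sub_le_sub (bZ _).1 (bM _).2) hX0.le,
      mul_le_mul_of_nonneg_left (sub_le_sub (bZ _).2 (bM _).1) hX0.le⟩
  have lD : MemLp D 2 (P2.prod PE) := memLp_of_bounded (ae_of_all _ bD) mD.aestronglyMeasurable 2
  have h3 : ∫⁻ p, ENNReal.ofReal (exp (D p)) ∂(P2.prod PE) ≤ 3 := by
    refine hsv mD lD ?_ ?_ ?_
    · rw [integral_prod _ (lD.integrable one_le_two)]
      have : ∀ ω : Om, ∫ y, D (ω, y) ∂PE = 0 := fun ω => by
        simp only [hD]
        rw [integral_const_mul, integral_sub (iF ω) (integrable_const _)]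
        simp [varM]
      simp [this]
    · rw [integral_prod _ ((memLp_two_iff_integrable_sq mD.aestronglyMeasurable).1 lD)]
      have : ∀ ω : Om, ∫ y, D (ω, y) ^ 2 ∂PE =
          X ^ 2 / s ^ 2 * Var[fun y => T (mix (SS t ω.1) ω.2 y); PE] := fun ω => by
        have m1 : Measurable fun y => T (mix (SS t ω.1) ω.2 y) := (h.fiber _ _).meas
        have a1 := variance_eq_integral (μ := PE) (mF ω).aemeasurable
        have a2 : Var[fun y => Z (mix (SS t ω.1) ω.2 y); PE] =
            Var[fun y => T (mix (SS t ω.1) ω.2 y); PE] * s⁻¹ ^ 2 := by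
          rw [← variance_const_sub m1.aestronglyMeasurable c0, ← variance_mul_const]
          rfl
        simp only [hD, mul_pow]
        rw [integral_const_mul]
        have a3 : ∫ y, (Z (mix (SS t ω.1) ω.2 y) - varM t Z ω) ^ 2 ∂PE =
            Var[fun y => T (mix (SS t ω.1) ω.2 y); PE] * s⁻¹ ^ 2 := by
          rw [← a2, a1]
          rfl
        rw [a3]
        field_simp
      simp only [this]
      rw [integral_const_mul, div_mul_eq_mul_div, div_le_iff₀ (by positivity)]
      exact hV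
    · refine le_trans ?_ hΓ
      rw [← (var_mp t).lintegral_comp
        (f := fun x => ENNReal.ofReal (exp (3 * X * (c0 - T x) / s))) (by fun_prop)]
      refine lintegral_mono fun p => ENNReal.ofReal_le_ofReal (exp_le_exp.2 ?_)
      have a1 := mul_nonneg hX0.le (bM p.1).1
      have a2 : 3 * X * (c0 - T (mix (SS t p.1.1) p.1.2 p.2)) / s =
          3 * (X * Z (mix (SS t p.1.1) p.1.2 p.2)) := by
        simp only [hZ]
        ring
      rw [a2]
      simp only [hD]
      linarith
  have mE : Measurable fun p => ENNReal.ofReal (exp (D p)) := mD.exp.ennreal_ofReal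
  have h4 : ∀ ω : Om, ENNReal.ofReal (exp (psi t (X / s) c0 T ω / X)) ≤
      ∫⁻ y, ENNReal.ofReal (exp (2 * (c0 - T (mix (SS t ω.1) ω.2 y)) / s)) ∂PE +
        2⁻¹ * ∫⁻ y, ENNReal.ofReal (exp (D (ω, y))) ∂PE := fun ω => by
    have := var_split (P := PE) (mF ω) (fun y => bZ _) hX
    simp only [psi, div_mul_eq_mul_div, mul_div_assoc]
    exact this
  refine (lintegral_mono h4).trans ?_
  have mE' : Measurable fun ω : Om => ∫⁻ y, ENNReal.ofReal (exp (D (ω, y))) ∂PE :=
    mE.lintegral_prod_right'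
  rw [lintegral_add_right _ (mE'.const_mul _), lintegral_const_mul _ mE',
    ← lintegral_prod _ mE.aemeasurable,
    var_lintegral_mix (F := fun x => ENNReal.ofReal (exp (2 * (c0 - T x) / s))) (by fun_prop),
    add_comm]
  refine add_le_add ?_ le_rfl
  calc (2⁻¹ : ℝ≥0∞) * ∫⁻ p, ENNReal.ofReal (exp (D p)) ∂(P2.prod PE) ≤ 2⁻¹ * (2 * 2) := by
        gcongr
        exact h3.trans (by norm_num)
    _ = 2 := by
        rw [← mul_assoc, ENNReal.inv_mul_cancel two_ne_zero ENNReal.ofNat_ne_top, one_mul]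

lemma measurable_psi (hT : Measurable T) (t θ c0 : ℝ) : Measurable (psi t θ c0 T) :=
  (varM_meas (F := fun x => exp (θ * (c0 - T x))) (by fun_prop) t).log

lemma SG.var_exp (h : SG T γ I) {c0 θ : ℝ} (hc : ∀ x, T x ≤ c0) (hθ : 0 ≤ θ) (x : Env) :
    1 ≤ exp (θ * (c0 - T x)) ∧ exp (θ * (c0 - T x)) ≤ exp (θ * c0) :=
  ⟨one_le_exp (mul_nonneg hθ (sub_nonneg.2 (hc x))), by gcongr; linarith [h.nonneg x]⟩

lemma SG.var_int (h : SG T γ I) {c0 θ : ℝ} (hc : ∀ x, T x ≤ c0) (hθ : 0 ≤ θ) (S : Set EE)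
    (x : Env) : 1 ≤ ∫ z, exp (θ * (c0 - T (mix S x z))) ∂PE ∧
      ∫ z, exp (θ * (c0 - T (mix S x z))) ∂PE ≤ exp (θ * c0) := by
  have m1 : Measurable fun y => T (mix S x y) := (h.fiber _ _).meas
  have i1 : Integrable (fun z => exp (θ * (c0 - T (mix S x z)))) PE :=
    var_integrable_bdd (measurable_const.mul (measurable_const.sub m1)).exp
      fun z => h.var_exp hc hθ _
  constructor
  · simpa using integral_mono (integrable_const 1) i1 fun z => (h.var_exp hc hθ _).1
  · simpa using integral_mono i1 (integrable_const _) fun z => (h.var_exp hc hθ _).2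

lemma psi_bound (h : SG T γ I) {c0 θ : ℝ} (hc : ∀ x, T x ≤ c0) (hθ : 0 ≤ θ) (t : ℝ) (ω : Om) :
    0 ≤ psi t θ c0 T ω ∧ psi t θ c0 T ω ≤ θ * c0 := by
  have h1 := h.var_int hc hθ (SS t ω.1) ω.2
  exact ⟨log_nonneg h1.1, (log_le_iff_le_exp (by linarith [h1.1])).2 h1.2⟩

lemma lintegral_psi (h : SG T γ I) {c0 θ : ℝ} (hc : ∀ x, T x ≤ c0) (hθ : 0 ≤ θ) (t : ℝ) :
    ∫⁻ ω : Om, ENNReal.ofReal (exp (θ * (c0 - T ω.2) - psi t θ c0 T ω)) ∂P2 ≤ 1 := by
  have hTm := h.meas
  have mp := measurable_psi hTm t θ c0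
  have m0 : Measurable fun ω : Om => ENNReal.ofReal (exp (θ * (c0 - T ω.2) - psi t θ c0 T ω)) := by
    fun_prop
  rw [← (measurePreserving_mixS t).lintegral_comp m0]
  refine (lintegral_prod _ (m0.comp (measurePreserving_mixS t).measurable).aemeasurable).le.trans ?_
  refine (lintegral_mono (g := fun _ => 1) fun ω => le_of_eq ?_).trans (by simp)
  have h1 := h.var_int hc hθ (SS t ω.1) ω.2
  have m1 : Measurable fun y => T (mix (SS t ω.1) ω.2 y) := (h.fiber _ _).meas
  have hw : 0 < ∫ z, exp (θ * (c0 - T (mix (SS t ω.1) ω.2 z))) ∂PE := by linarith [h1.1]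
  simp only [Function.comp_apply, psi, mix_idem, exp_sub, exp_log hw]
  have m2 : Measurable fun y => exp (θ * (c0 - T (mix (SS t ω.1) ω.2 y))) :=
    (measurable_const.mul (measurable_const.sub m1)).exp
  rw [var_lintegral_ofReal (m2.div_const _) (b := exp (θ * c0) /
      ∫ z, exp (θ * (c0 - T (mix (SS t ω.1) ω.2 z))) ∂PE) fun y =>
      ⟨by positivity, div_le_div_of_nonneg_right (h.var_exp hc hθ _).2 hw.le⟩,
    integral_div, div_self hw.ne', ENNReal.ofReal_one]

lemma psi_congr (T : Env → ℝ) (t θ c0 : ℝ) {ζ X X' : Env} (h : ∀ e, e ∉ SS t ζ → X' e = X e) :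
    psi t θ c0 T (ζ, X') = psi t θ c0 T (ζ, X) := by
  have : ∀ z, mix (SS t ζ) X' z = mix (SS t ζ) X z := fun z => by
    funext e
    unfold mix
    split_ifs with he
    · rfl
    · exact h e he
  simp only [psi, this]

lemma psi_locOn (h : DependsOn T (I : Set EE)) (t θ c0 : ℝ) : LocOn I (psi t θ c0 T) := by
  intro ω ω' hω
  have : ∀ z, T (mix (SS t ω.1) ω.2 z) = T (mix (SS t ω'.1) ω'.2 z) := fun z =>
    h fun e he => by
      have h1 : e ∈ SS t ω.1 ↔ e ∈ SS t ω'.1 := by simp only [SS, mem_ofPred_eq, (hω e he).1]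
      unfold mix
      rw [propext h1, (hω e he).2]
  simp only [psi, this]

end Pool.Agent.Lib.MP_de94ef_pr.Q
end
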