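import Pool.Agent.Lib.MP_de94ef_pr.Q.Trunc
import Pool.Agent.Lib.MP_de94ef_pr.Q.Mean
import Pool.Agent.Lib.MP_de94ef_pr.Q.Var

-- part Pool.Agent.Lib.MP_de94ef_pr.Q.Detour
section

/-!
Detours.
-/

open MeasureTheory ProbabilityTheory Set Real Function Filter Topology
open scoped ENNReal NNReal

namespace Pool.Agent.Lib.MP_de94ef_pr.Q

variable {c : Bs} {f : Fd} {P : Pm} {v : VV} {M : ℕ} {s : ℝ}

private lemma detour_small (hB : c.Big 100) {x : ℝ} (h : c.κ * x ≤ 8) : x ≤ c.m := by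
  have h1 := hB.κm
  have h2 := hB.s_ge
  exact le_of_mul_le_mul_left (by linarith) hB.κ_pos

private lemma detour_nb (hB : c.Big 100) (hF : Fr c.μ c.κ 1 f) {K α β : ℝ} (hK : 0 ≤ K) {w : VV}
    (hw : w ∈ Nb f c.m K (fl (f.pt α β))) :
    α - c.m - 2 ≤ f.a (iv w) ∧ f.a (iv w) ≤ α + 5 * c.m + 2 ∧
      |f.b (iv w) - β| ≤ (K + 1) * c.m := by
  obtain ⟨h1, h2, h3⟩ := (hF.mem_Nb hB.tc hB.m_pos.le hK).1 hw
  rw [iv_sub, map_sub] at h1 h2 h3
  have h4 := hF.a_fl hB.tc (f.pt α β)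
  have h5 := detour_small hB (hF.b_fl hB.tc (f.pt α β))
  rw [hF.a_pt] at h4
  rw [hF.b_pt] at h5
  obtain ⟨h4, h4'⟩ := abs_le.1 h4
  obtain ⟨h5, h5'⟩ := abs_le.1 h5
  obtain ⟨h3, h3'⟩ := abs_le.1 h3
  exact ⟨by linarith, by linarith, abs_le.2 ⟨by linarith, by linarith⟩⟩

private lemma detour_sq {κ : ℝ} (hF : Fr c.μ κ 1 f) {α β ρ : ℝ} {w : VV} (h1 : α ≤ f.a (iv w))
    (h2 : f.a (iv w) ≤ α + ρ) (h3 : β ≤ f.b (iv w)) (h4 : f.b (iv w) ≤ β + ρ) :
    Sq f (f.pt α β) ρ w := by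
  unfold Sq
  simp only [map_sub, hF.a_pt, hF.b_pt]
  exact ⟨by linarith, by linarith, by linarith, by linarith⟩

private lemma detour_sq_mono {z : ℝ × ℝ} {ρ ρ' : ℝ} {w : VV} (h : Sq f z ρ w) (h' : ρ ≤ ρ') :
    Sq f z ρ' w :=
  ⟨h.1, h.2.1.trans h', h.2.2.1, h.2.2.2.trans h'⟩

private lemma detour_congr {A A' : Finset VV} {X X' : Env}
    (hX : ∀ e ∉ A.sym2 ∪ A'.sym2, X' e = X e) {x y : VV} (p : GG.Walk x y) {k k' : ℕ}
    (h1 : ∀ j, k ≤ j → j < k' → p.getVert j ∉ A ∨ p.getVert (j + 1) ∉ A)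
    (h2 : ∀ j, k ≤ j → j < k' → p.getVert j ∉ A' ∨ p.getVert (j + 1) ∉ A') :
    wt X' (Es p k k') = wt X (Es p k k') := by
  refine wt_congr fun e he => hX e ?_
  obtain ⟨j, hj, rfl⟩ := Finset.mem_image.1 he
  obtain ⟨hj, hj'⟩ := Finset.mem_Ico.1 hj
  rw [Finset.mem_union, Finset.mk_mem_sym2_iff, Finset.mk_mem_sym2_iff]
  have := h1 j hj hj'
  have := h2 j hj hj'
  tauto

private lemma detour_last {x y : VV} (p : GG.Walk x y) {A : Finset VV}
    (h : ∃ j ≤ p.length, p.getVert j ∈ A) :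
    ∃ j ≤ p.length, p.getVert j ∈ A ∧ ∀ j', j < j' → j' ≤ p.length → p.getVert j' ∉ A := by
  classical
  obtain ⟨j, hj, hj'⟩ := h
  refine ⟨Nat.findGreatest (fun j => p.getVert j ∈ A) p.length, Nat.findGreatest_le _,
    Nat.findGreatest_spec (P := fun j => p.getVert j ∈ A) hj hj', fun j' h1 h2 => ?_⟩
  exact Nat.findGreatest_is_greatest h1 h2

private lemma detour_first {x y : VV} (p : GG.Walk x y) {A : Finset VV}
    (h : ∃ j ≤ p.length, p.getVert j ∈ A) :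
    ∃ j ≤ p.length, p.getVert j ∈ A ∧ ∀ j', j' < j → p.getVert j' ∉ A := by
  classical
  refine ⟨Nat.find h, (Nat.find_spec h).1, (Nat.find_spec h).2, fun j' h1 h2 => ?_⟩
  exact Nat.find_min h h1 ⟨h1.le.trans (Nat.find_spec h).1, h2⟩

/-- A geodesic of the modified environment meets both fast tubes. -/
private lemma detour_meet {A A' : Finset VV} {X X' : Env}
    (hX : ∀ e ∉ A.sym2 ∪ A'.sym2, X' e = X e) {p : GG.Walk 0 v} (hp : IsGeo X' p)
    {l : VV → ℝ} {T0 T1 CL C2 R : ℝ} (ha : T0 + T1 - CL ≤ TT X 0 v)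
    (h1 : ∀ q ∈ A, TT X 0 q ≤ T0 + l q + CL) (h1' : ∀ q ∈ A, TT X' 0 q ≤ T0 + l q + CL)
    (h3 : ∀ q ∈ A', TT X q v ≤ T1 - l q + CL) (h3' : ∀ q ∈ A', TT X' q v ≤ T1 - l q + CL)
    (h2 : ∀ q ∈ A, ∀ q' ∈ A', TT X' q q' ≤ l q' - l q + C2)
    (f1 : ∃ o ∈ A, ∃ o' ∈ A, TT X' o o' ≤ l o' - l o - R)
    (f2 : ∃ o ∈ A', ∃ o' ∈ A', TT X' o o' ≤ l o' - l o - R)
    (hR : 3 * CL + C2 < R) (hL : 0 ≤ CL) (hC : 0 ≤ C2) :
    (∃ j ≤ p.length, p.getVert j ∈ A) ∧ ∃ j ≤ p.length, p.getVert j ∈ A' := by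
  obtain ⟨o1, ho1, o1', ho1', f1⟩ := f1
  obtain ⟨o2, ho2, o2', ho2', f2⟩ := f2
  have hq : ∀ q ∈ A, TT X' q v ≤ T1 - l q + CL + C2 - R := fun q hq => by
    linarith [TT_triangle X' q o2 v, TT_triangle X' o2 o2' v, h2 q hq o2 ho2, h3' o2' ho2']
  have hq' : ∀ q ∈ A', TT X' 0 q ≤ T0 + l q + CL + C2 - R := fun q hq => by
    linarith [TT_triangle X' 0 o1 q, TT_triangle X' o1 o1' q, h2 o1' ho1' q hq, h1' o1 ho1]
  have hA' : ∃ j ≤ p.length, p.getVert j ∈ A' := by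
    by_contra hA'
    push Not at hA'
    by_cases hA : ∃ j ≤ p.length, p.getVert j ∈ A
    · obtain ⟨j, hj, hjA, hj'⟩ := detour_last p hA
      have e1 := detour_congr hX p (k := j) (k' := p.length)
        (fun j' h h' => Or.inr (hj' _ (by omega) (by omega)))
        (fun j' h h' => Or.inl (hA' _ (by omega)))
      have e2 := hp.wt_Es hj le_rfl
      have e3 := TT_le_Es p hj le_rfl X
      rw [p.getVert_length] at e2 e3
      linarith [TT_triangle X 0 (p.getVert j) v, h1 _ hjA, hq _ hjA]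
    · push Not at hA
      have e1 := detour_congr hX p (k := 0) (k' := p.length)
        (fun j' h h' => Or.inl (hA _ (by omega)))
        (fun j' h h' => Or.inl (hA' _ (by omega)))
      rw [Es_full] at e1
      have e2 := hp.2
      have e3 := TT_le X p
      linarith [TT_triangle X' 0 o1 v, TT_triangle X' o1 o1' v, h1' _ ho1, hq _ ho1']
  refine ⟨?_, hA'⟩
  by_contra hA
  push Not at hA
  obtain ⟨j, hj, hjA, hj'⟩ := detour_first p hA'
  have e1 := detour_congr hX p (k := 0) (k' := j)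
    (fun j' h h' => Or.inl (hA _ (by omega)))
    (fun j' h h' => Or.inl (hj' _ h'))
  have e2 := hp.wt_Es (Nat.zero_le j) hj
  have e3 := TT_le_Es p (Nat.zero_le j) hj X
  rw [p.getVert_zero] at e2 e3
  linarith [TT_triangle X 0 (p.getVert j) v, h3 _ hjA, hq' _ hjA]

private lemma detour_n1 {μ : ℝ × ℝ → ℝ} (hμ : IsTC μ) {x y : VV} {p : GG.Walk x y}
    (hp : Straight μ f.a s p) {k k' : ℕ} (h : k ≤ k') (h' : k' ≤ p.length) :
    n1 (p.getVert k' - p.getVert k) ≤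
      11 * (f.a (iv (p.getVert k')) - f.a (iv (p.getVert k)) + s) := by
  have h1 := hp k k' h h'
  have h2 := hμ.ge (iv (p.getVert k' - p.getVert k))
  rw [r1_iv] at h2
  rw [← map_sub, ← iv_sub]
  linarith

private lemma detour_idx (hP : P.OK) {i : ℕ} (hi : 2 * P.Lt ≤ i) :
    il P i + P.Lt ≤ i ∧ i + P.Lt + 1 ≤ ir P i ∧ ir P i ≤ i + 2 * P.Lt := by
  have h0 : 0 < P.Lt := by have := hP.h10; unfold Pm.g at this; omega
  have h1 := Nat.div_add_mod i P.Lt
  have h2 := Nat.mod_lt i h0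
  have h3 : 2 ≤ i / P.Lt := (Nat.le_div_iff_mul_le h0).2 hi
  obtain ⟨n, hn⟩ : ∃ n, i / P.Lt = n + 1 := ⟨i / P.Lt - 1, by omega⟩
  unfold il ir
  rw [hn] at h1 ⊢
  simp only [Nat.add_sub_cancel]
  refine ⟨?_, ?_, ?_⟩ <;> nlinarith [Nat.zero_le (i % P.Lt)]

private lemma detour_om (hB : c.Big 100) (hF : Fr c.μ c.κ 1 f) {i r : ℕ} {cc : ℤ} {w : VV}
    (hw : w ∈ Nb f c.m P.K1 (om c f P i cc r)) :
    ((i : ℝ) - P.G - 6) * c.m - 2 ≤ f.a (iv w) ∧ f.a (iv w) ≤ ((i : ℝ) - P.G) * c.m + 2 ∧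
      |f.b (iv w) - Q.hb c P cc r| ≤ (P.K1 + 1) * c.m := by
  obtain ⟨h1, h2, h3⟩ := detour_nb hB hF (Nat.cast_nonneg _) hw
  exact ⟨by linarith, by linarith, h3⟩

private lemma detour_op (hB : c.Big 100) (hF : Fr c.μ c.κ 1 f) {i r : ℕ} {cc : ℤ} {w : VV}
    (hw : w ∈ Nb f c.m P.K1 (op c f P i cc r)) :
    ((i : ℝ) + P.G + 1) * c.m - 2 ≤ f.a (iv w) ∧ f.a (iv w) ≤ ((i : ℝ) + P.G + 7) * c.m + 2 ∧
      |f.b (iv w) - Q.hb c P cc r| ≤ (P.K1 + 1) * c.m := by
  obtain ⟨h1, h2, h3⟩ := detour_nb hB hF (Nat.cast_nonneg _) hw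
  exact ⟨by linarith, by linarith, h3⟩

private lemma detour_N (hP : P.OK) : (P.N : ℝ) = 2 * P.K1 + 2 ∧ (3 : ℝ) ≤ P.K1 ∧
    3 * (P.N : ℝ) ≤ P.G ∧ (P.g : ℝ) = P.G + P.N + 10 ∧ (P.N' : ℝ) = 2 * P.G + P.N + 20 ∧
    (P.g : ℝ) ≤ P.Lt := by
  refine ⟨by simp [Pm.N], by exact_mod_cast hP.h1, by exact_mod_cast hP.h3, by simp [Pm.g],
    by simp [Pm.N'], by exact_mod_cast hP.h10⟩

private lemma detour_zm (hB : c.Big 100) (hF : Fr c.μ c.κ 1 f) (hP : P.OK) {i r : ℕ} {cc : ℤ}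
    {w : VV} (hw : w ∈ Nb f c.m P.K1 (om c f P i cc r)) :
    Sq f (zm c f P i cc r) (P.N * c.m) w := by
  obtain ⟨h1, h2, h3⟩ := detour_om hB hF hw
  obtain ⟨h3, h3'⟩ := abs_le.1 h3
  obtain ⟨n1, n2, -⟩ := detour_N hP
  have hm := hB.m_ge (by norm_num)
  have : 3 * c.m ≤ P.K1 * c.m := mul_le_mul_of_nonneg_right n2 hB.m_pos.le
  refine detour_sq hF (by linarith) ?_ (by linarith) ?_ <;> rw [n1] <;> linarith

private lemma detour_zp (hB : c.Big 100) (hF : Fr c.μ c.κ 1 f) (hP : P.OK) {i r : ℕ} {cc : ℤ}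
    {w : VV} (hw : w ∈ Nb f c.m P.K1 (op c f P i cc r)) :
    Sq f (zp c f P i cc r) (P.N * c.m) w := by
  obtain ⟨h1, h2, h3⟩ := detour_op hB hF hw
  obtain ⟨h3, h3'⟩ := abs_le.1 h3
  obtain ⟨n1, n2, -⟩ := detour_N hP
  have hm := hB.m_ge (by norm_num)
  have : 3 * c.m ≤ P.K1 * c.m := mul_le_mul_of_nonneg_right n2 hB.m_pos.le
  refine detour_sq hF (by linarith) ?_ (by linarith) ?_ <;> rw [n1] <;> linarith

private lemma detour_ue {ρ C α α' : ℝ} {z z' : ℝ × ℝ} {X : Env} (h : UE f ρ C z z' α α' X)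
    {q q' : VV} (hq : Sq f z ρ q) (hq' : Sq f z' ρ q') :
    TT X q q' ≤ f.L (iv q') - f.L (iv q) + C := by
  have := (h q q' hq hq').TT_le
  rwa [iv_sub, map_sub] at this

private lemma detour_fast (hB : c.Big 100) (hP : P.OK) {k : ℤ} {o : VV} {X : Env}
    (h : Fast c f P k o X) : ∃ q ∈ Nb f c.m P.K1 o, ∃ q' ∈ Nb f c.m P.K1 o,
      TT X q q' ≤ f.L (iv q') - f.L (iv q) - P.Rr * c.s := by
  have hR : 0 < P.Rr * c.s := mul_pos (by linarith [hP.h12, hP.h11, hP.h4]) hB.s_pos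
  unfold Fast FF at h
  have h1 := TC_reach (lt_of_le_of_lt h (by linarith))
  have h2 := h1.TT_le
  obtain ⟨p, hp, -⟩ := h1
  refine ⟨o, hp _ p.start_mem_support, _, hp _ p.end_mem_support, ?_⟩
  rw [iv_add, map_add]
  linarith

/-- Between the two tubes a geodesic stays in the band. -/
private lemma detour_band (hB : c.Big 100) (hT : Top c f v M s) (hP : P.OK) {X X' : Env}
    {i r : ℕ} {cc : ℤ} {p : GG.Walk 0 v} (hg : IsGeo X' p) (hs : Straight c.μ f.a s p)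
    (lw : Lw c f P i cc r X) (u2' : U2 c f P i cc r X') {k k' : ℕ} (hk : k ≤ k')
    (hk' : k' ≤ p.length) (hA : p.getVert k ∈ Nb f c.m P.K1 (om c f P i cc r))
    (hA' : p.getVert k' ∈ Nb f c.m P.K1 (op c f P i cc r))
    (hX : ∀ j j', k ≤ j → j' ≤ k' → wt X' (Es p j j') = wt X (Es p j j')) {j : ℕ} (hj : k ≤ j)
    (hj' : j ≤ k') : |f.b (iv (p.getVert j)) - Q.hb c P cc r| ≤ P.K2 * c.m := by
  classical
  by_contra hc
  have hF := hT.fr
  have hex : ∃ j, k ≤ j ∧ j ≤ k' ∧ P.K2 * c.m < |f.b (iv (p.getVert j)) - Q.hb c P cc r| :=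
    ⟨j, hj, hj', not_le.1 hc⟩
  obtain ⟨n1', n2, n3, n4, n5, -⟩ := detour_N hP
  have hm := hB.m_ge (by norm_num)
  have hm0 := hB.m_pos
  have h5 := hP.h5
  have h4 := hP.h4
  obtain ⟨a1, a2, a3⟩ := detour_om hB hF hA
  obtain ⟨b1, b2, b3⟩ := detour_op hB hF hA'
  have hK : (P.K1 + 1) * c.m ≤ P.K2 * c.m := mul_le_mul_of_nonneg_right (by linarith) hm0.le
  obtain ⟨j, ⟨j1, j2, j3⟩, jmin⟩ : ∃ j, (k ≤ j ∧ j ≤ k' ∧
      P.K2 * c.m < |f.b (iv (p.getVert j)) - Q.hb c P cc r|) ∧ ∀ j' < j, ¬ (k ≤ j' ∧ j' ≤ k' ∧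
      P.K2 * c.m < |f.b (iv (p.getVert j')) - Q.hb c P cc r|) :=
    ⟨Nat.find hex, Nat.find_spec hex, fun j' h => Nat.find_min hex h⟩
  have jk : k < j := lt_of_le_of_ne j1 (by rintro rfl; linarith)
  obtain ⟨j0, rfl⟩ : ∃ j0, j = j0 + 1 := ⟨j - 1, by omega⟩
  have j4 : |f.b (iv (p.getVert j0)) - Q.hb c P cc r| ≤ P.K2 * c.m := by
    by_contra h
    exact jmin j0 (by omega) ⟨by omega, by omega, not_le.1 h⟩
  have j5 : |f.b (iv (p.getVert (j0 + 1))) - f.b (iv (p.getVert j0))| ≤ c.m :=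
    detour_small hB ((hF.b_adj hB.tc (p.adj_getVert_succ (by omega))).trans (by norm_num))
  have s0 := hT.s0
  have s1 := hT.s1
  have hG : 0 ≤ P.G * c.m := by positivity
  have hN : 8 * c.m ≤ P.N * c.m := mul_le_mul_of_nonneg_right (by linarith) hm0.le
  have key : ∀ j, k ≤ j → j ≤ k' → ((i : ℝ) - P.G - 7) * c.m ≤ f.a (iv (p.getVert j)) ∧
      f.a (iv (p.getVert j)) ≤ ((i : ℝ) + P.G + 7 + 1 / 2) * c.m := fun j h h' =>
    ⟨by linarith [hs.a_ge hB.tc h (h'.trans hk')], by linarith [hs.a_ge hB.tc h' hk']⟩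
  have key2 : ∀ j j', k ≤ j → j ≤ j' → j' ≤ k' →
      n1 (p.getVert j' - p.getVert j) ≤ 11 * ((2 * P.G + 15) * c.m) := fun j j' h h' h'' => by
    linarith [detour_n1 hB.tc hs h' (h''.trans hk'), (key j h (h'.trans h'')).1,
      (key j' (h.trans h') h'').2]
  have hq := detour_zm hB hF hP hA
  have hq' := detour_zp hB hF hP hA'
  have hsl : ∀ j, k ≤ j → j ≤ k' → p.getVert j ∈ Sl f (zm c f P i cc r)
      (((i : ℝ) - P.g) * c.m) (((i : ℝ) + P.g) * c.m) := fun j h h' => by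
    have e1 := key2 k j le_rfl h h'
    have e2 := hF.n1_of_Sq hB.tc hq
    have e3 := n1_add_le (p.getVert j - p.getVert k) (p.getVert k - fl (zm c f P i cc r))
    rw [sub_add_sub_cancel] at e3
    obtain ⟨e4, e5⟩ := key j h h'
    refine mem_Sl ?_ ?_ ?_ <;> rw [n4] <;> linarith
  obtain ⟨z, hz, hw⟩ : ∃ z ∈ ({ru c f P i cc r, rd c f P i cc r} : Set (ℝ × ℝ)),
      Sq f z (P.N' * c.m) (p.getVert (j0 + 1)) := by
    obtain ⟨e4, e5⟩ := key (j0 + 1) j1 j2
    obtain ⟨j4, j4'⟩ := abs_le.1 j4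
    obtain ⟨j5, j5'⟩ := abs_le.1 j5
    rcases lt_abs.1 j3 with j3 | j3
    · refine ⟨_, Or.inl rfl, detour_sq hF (by linarith) ?_ (by linarith) ?_⟩ <;> rw [n5] <;>
        linarith
    · refine ⟨_, Or.inr rfl, detour_sq hF (by linarith) ?_ ?_ (by linarith)⟩ <;> rw [n5] <;>
        linarith
  have hNN : P.N * c.m ≤ P.N' * c.m := by rw [n5]; linarith
  obtain ⟨l1, l2⟩ := lw z hz
  obtain ⟨p1, e1, m1⟩ := exists_sub p j1 (j2.trans hk')
  obtain ⟨p2, e2, m2⟩ := exists_sub p j2 hk'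
  have l1 := l1 _ _ (detour_sq_mono hq hNN) hw
    (by rw [n5]; linarith [key2 k (j0 + 1) le_rfl j1 j2]) p1 fun w hw => by
      obtain ⟨j, h, h', rfl⟩ := m1 w hw
      exact hsl j h (h'.trans j2)
  have l2 := l2 _ _ hw (detour_sq_mono hq' hNN)
    (by rw [n5]; linarith [key2 (j0 + 1) k' j1 j2 le_rfl]) p2 fun w hw => by
      obtain ⟨j, h, h', rfl⟩ := m2 w hw
      exact hsl j (j1.trans h) h'
  rw [e1, ← hX _ _ le_rfl j2, iv_sub, map_sub, map_sub] at l1
  rw [e2, ← hX _ _ j1 le_rfl, iv_sub, map_sub, map_sub] at l2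
  have t1 := wt_Es_add hg.1 j1 j2 hk' X'
  have t2 := hg.wt_Es hk hk'
  have t3 := detour_ue u2' hq hq'
  have d1 : (P.K2 - P.K1 - 1) * c.m ≤ |f.b (iv (p.getVert (j0 + 1))) - f.b (iv (p.getVert k))| := by
    have := abs_sub_le (f.b (iv (p.getVert (j0 + 1)))) (f.b (iv (p.getVert k))) (Q.hb c P cc r)
    linarith
  have d2 : (P.K2 - P.K1 - 1) * c.m ≤
      |f.b (iv (p.getVert k')) - f.b (iv (p.getVert (j0 + 1)))| := by
    have := abs_sub_le (f.b (iv (p.getVert (j0 + 1)))) (f.b (iv (p.getVert k'))) (Q.hb c P cc r)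
    rw [abs_sub_comm (f.b (iv (p.getVert k')))]
    linarith
  have d1' := mul_le_mul_of_nonneg_left d1 hB.κ_pos.le
  have d2' := mul_le_mul_of_nonneg_left d2 hB.κ_pos.le
  have e : c.κ * ((P.K2 - P.K1 - 1) * c.m) = (P.K2 - P.K1 - 1) * c.s := by rw [← hB.κm]; ring
  have hs0 := hB.s_pos
  have d3 : (1 + 3 * P.C2) * c.s ≤ (P.K2 - P.K1 - 1) * c.s :=
    mul_le_mul_of_nonneg_right (by linarith) hs0.le
  have d4 : 0 ≤ P.C2 * c.s := by positivity
  linarith

theorem detour (hB : c.Big 100) (hT : Top c f v M s) (hP : P.OK) {X X' : Env} {i r : ℕ}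
    {k cc : ℤ} {α : ℝ} (hN : Nice c.μ f.a v s X) (hN' : Nice c.μ f.a v s X')
    (hi : 2 * P.Lt ≤ i) (hi' : i + 2 * P.Lt ≤ M)
    (hex : ∑ j ∈ Finset.Ico (il P i) (ir P i), |ex f c.m (geo v X) X j| ≤ P.CL * c.s)
    (hX : ∀ e ∉ EN c f P i cc r, X' e = X e)
    (u1 : U1 c f P i (cs f c.m (geo v X) (il P i)) cc r X)
    (u3 : U3 c f P i cc (cs f c.m (geo v X) (ir P i)) r X) (lw : Lw c f P i cc r X)
    (u1' : U1 c f P i (cs f c.m (geo v X) (il P i)) cc r X') (u2' : U2 c f P i cc r X')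
    (u3' : U3 c f P i cc (cs f c.m (geo v X) (ir P i)) r X')
    (f1 : Fast c f P k (om c f P i cc r) X') (f2 : Fast c f P k (op c f P i cc r) X')
    (h1 : i * c.m ≤ α) (h2 : α ≤ (i + 1) * c.m) :
    |f.b (iv ((geo v X').getVert (hit f.a (geo v X') α))) - Q.hb c P cc r| ≤ P.K2 * c.m := by
  have hF := hT.fr
  obtain ⟨n1', n2, n3, n4, n5, n6⟩ := detour_N hP
  have hm := hB.m_ge (by norm_num)
  have hm0 := hB.m_pos
  have hs0 := hB.s_pos
  have s0 := hT.s0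
  have s1 := hT.s1
  obtain ⟨i1, i2, i3⟩ := detour_idx hP hi
  have i4 : il P i ≤ ir P i := by omega
  have i5 : ir P i ≤ M := by omega
  have i6 : il P i ≤ M := by omega
  have i1' : ((il P i : ℝ) + P.Lt) * c.m ≤ i * c.m :=
    mul_le_mul_of_nonneg_right (by exact_mod_cast i1) hm0.le
  have i2' : ((i : ℝ) + P.Lt + 1) * c.m ≤ ir P i * c.m :=
    mul_le_mul_of_nonneg_right (by exact_mod_cast i2) hm0.le
  have i7 : ((i : ℝ) + 2 * P.Lt) * c.m ≤ M * c.m :=
    mul_le_mul_of_nonneg_right (by exact_mod_cast hi') hm0.le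
  have hL : ((P.G : ℝ) + 18) * c.m ≤ P.Lt * c.m :=
    mul_le_mul_of_nonneg_right (by linarith) hm0.le
  have hG : 24 * c.m ≤ P.G * c.m := mul_le_mul_of_nonneg_right (by linarith) hm0.le
  have hN1 : c.m ≤ P.N * c.m := le_mul_of_one_le_left hm0.le (by linarith)
  unfold EN at hX
  set g := geo v X with hg
  set p := geo v X' with hp
  have tl := tk_le f c.m g (il P i)
  have tr := tk_le f c.m g (ir P i)
  have tlr := tk_mono f hm0.le g i4
  have c0 : wt X' (Es g 0 (tk f c.m g (il P i))) = wt X (Es g 0 (tk f c.m g (il P i))) := by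
    refine detour_congr hX g (fun j h h' => Or.inl fun hw => ?_) (fun j h h' => Or.inl fun hw => ?_)
    · linarith [(detour_om hB hF hw).1, hT.a_upper hB hN.2 i6 h'.le]
    · linarith [(detour_op hB hF hw).1, hT.a_upper hB hN.2 i6 h'.le]
  have c1 : wt X' (Es g (tk f c.m g (ir P i)) g.length) =
      wt X (Es g (tk f c.m g (ir P i)) g.length) := by
    refine detour_congr hX g (fun j h h' => Or.inl fun hw => ?_) (fun j h h' => Or.inl fun hw => ?_)
    · linarith [(detour_om hB hF hw).2.1, hT.a_lower hB hN.2 i5 h h'.le]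
    · linarith [(detour_op hB hF hw).2.1, hT.a_lower hB hN.2 i5 h h'.le]
  have w0 := hN.1.2
  have w1 := wt_Es_add hN.1.1 (Nat.zero_le _) tl le_rfl X
  have w2 := wt_Es_add hN.1.1 tlr tr le_rfl X
  have w3 := sum_ex f hm0.le hN.1.1 i4 X
  have w4 : -∑ j ∈ Finset.Ico (il P i) (ir P i), ex f c.m g X j ≤ P.CL * c.s :=
    (neg_le_abs _).trans ((Finset.abs_sum_le_sum_abs _ _).trans hex)
  rw [Es_full] at w1
  rw [iv_sub, map_sub] at w3
  have t0 := fun Y => TT_le_Es g (Nat.zero_le _) tl Y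
  have t1 := fun Y => TT_le_Es g tr le_rfl Y
  rw [g.getVert_zero] at t0
  rw [g.getVert_length] at t1
  have ql := detour_sq_mono (hT.sq_xs hB g i6) hN1
  have qr := detour_sq_mono (hT.sq_xs hB g i5) hN1
  unfold xs at w3 ql qr
  obtain ⟨hA, hA'⟩ := detour_meet hX hN'.1 (l := fun w => f.L (iv w))
    (T0 := wt X (Es g 0 (tk f c.m g (il P i))) - f.L (iv (g.getVert (tk f c.m g (il P i)))))
    (T1 := wt X (Es g (tk f c.m g (ir P i)) g.length) +
      f.L (iv (g.getVert (tk f c.m g (ir P i)))))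
    (CL := P.CL * c.s) (C2 := P.C2 * c.s) (R := P.Rr * c.s) (by linarith)
    (fun q hq => by
      linarith [detour_ue u1 ql (detour_zm hB hF hP hq), t0 X,
        TT_triangle X 0 (g.getVert (tk f c.m g (il P i))) q])
    (fun q hq => by
      linarith [detour_ue u1' ql (detour_zm hB hF hP hq), t0 X',
        TT_triangle X' 0 (g.getVert (tk f c.m g (il P i))) q])
    (fun q hq => by
      linarith [detour_ue u3 (detour_zp hB hF hP hq) qr, t1 X,
        TT_triangle X q (g.getVert (tk f c.m g (ir P i))) v])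
    (fun q hq => by
      linarith [detour_ue u3' (detour_zp hB hF hP hq) qr, t1 X',
        TT_triangle X' q (g.getVert (tk f c.m g (ir P i))) v])
    (fun q hq q' hq' => detour_ue u2' (detour_zm hB hF hP hq) (detour_zp hB hF hP hq'))
    (detour_fast hB hP f1) (detour_fast hB hP f2)
    (by linarith [mul_lt_mul_of_pos_right hP.h12 hs0]) (mul_nonneg hP.h11 hs0.le)
    (mul_nonneg hP.h4 hs0.le)
  obtain ⟨k1, k1l, k1A, k1m⟩ := detour_last p hA
  obtain ⟨k2, k2l, k2A, k2m⟩ := detour_first p hA'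
  have a2 := (detour_om hB hF k1A).2.1
  have b1 := (detour_op hB hF k2A).1
  have hα : α < f.a (iv v) := by rw [hT.a_v]; linarith
  have e1 : hit f.a p α ≤ k2 := hit_le_of_le hα (by linarith)
  have e2 : k1 ≤ hit f.a p α := by
    by_contra h
    linarith [hN'.2.a_ge hB.tc (not_le.1 h).le k1l, le_a_hit p hα.le]
  refine detour_band hB hT hP hN'.1 hN'.2 lw u2' (e2.trans e1) k2l k1A k2A
    (fun j j' hj hj' => detour_congr hX p (fun j0 h h' => Or.inr (k1m _ (by omega) (by omega)))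
      (fun j0 h h' => Or.inl (k2m _ (by omega)))) e2 e1

end Pool.Agent.Lib.MP_de94ef_pr.Q
end

-- part Pool.Agent.Lib.MP_de94ef_pr.Q.CombA
section

/-!
From certificates to variance bounds: the estimate on one fibre.
-/

open MeasureTheory ProbabilityTheory Set Real Function Filter Topology
open scoped ENNReal NNReal

namespace Pool.Agent.Lib.MP_de94ef_pr.Q

variable {T : Env → ℝ} {γ : Env → Finset EE} {I : Finset EE}

/-- The environment equal to the first component on `P` and to the second one off `P`. -/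
noncomputable def combX (P : Set EE) (p : Om) : Env := mix P p.2 p.1

lemma comb_mp (P : Set EE) : MeasurePreserving (combX P) P2 PE := by
  have : combX P = fun p : Env × Env => mix Pᶜ p.1 p.2 := by
    funext p
    rw [combX, ← mix_compl Pᶜ, compl_compl]
  rw [this]
  exact measurePreserving_mix Pᶜ

lemma comb_meas (P : Set EE) : Measurable (combX P) := (comb_mp P).measurable

/-- Sum of the `f i` over a random set. -/
noncomputable def combS {ι : Type} (P : Set EE) (U : Env → Finset ι) (f : ι → Env → ℝ) (p : Om) :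
    ℝ := ∑ i ∈ U (combX P p), f i p.1

/-- Conditional probability of belonging to a random set. -/
noncomputable def combP {ι : Type} (P : Set EE) (U : Env → Finset ι) (i : ι) (x : Env) : ℝ :=
  (PE {y | i ∈ U (mix P y x)}).toReal

lemma combP_nonneg {ι : Type} (P : Set EE) (U : Env → Finset ι) (i : ι) (x : Env) :
    0 ≤ combP P U i x := ENNReal.toReal_nonneg

lemma combP_le_one {ι : Type} (P : Set EE) (U : Env → Finset ι) (i : ι) (x : Env) :
    combP P U i x ≤ 1 := ENNReal.toReal_le_of_le_ofReal zero_le_one (by simpa using prob_le_one)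

lemma comb_measP {ι : Type} (P : Set EE) {U : Env → Finset ι} {i : ι}
    (mU : MeasurableSet {X | i ∈ U X}) : Measurable (combP P U i) :=
  (measurable_measure_prodMk_left (ν := PE) (comb_meas P mU)).ennreal_toReal

lemma comb_intP {ι : Type} (P : Set EE) {U : Env → Finset ι} {i : ι}
    (mU : MeasurableSet {X | i ∈ U X}) {f : Env → ℝ} (hf : Integrable f PE) :
    Integrable (fun x => combP P U i x * f x) PE :=
  hf.bdd_mul (comb_measP P mU).aestronglyMeasurable (c := 1) (ae_of_all _ fun x => by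
    rw [Real.norm_of_nonneg (combP_nonneg P U i x)]; exact combP_le_one P U i x)

lemma comb_spec {ι : Type} (P : Set EE) {J : Finset ι} {U : Env → Finset ι} (hU : ∀ X, U X ⊆ J)
    (mU : ∀ i, MeasurableSet {X | i ∈ U X}) {f : ι → Env → ℝ}
    (hf : ∀ i ∈ J, Integrable (f i) PE) :
    Integrable (combS P U f) P2 ∧
      ∫ p, combS P U f p ∂P2 = ∑ i ∈ J, ∫ x, combP P U i x * f i x ∂PE := by
  classical
  have h1 : combS P U f = fun p => ∑ i ∈ J,
      (combX P ⁻¹' {X | i ∈ U X}).indicator (fun q : Om => f i q.1) p := by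
    funext p
    rw [combS, ← Finset.inter_eq_right.2 (hU (combX P p)), ← Finset.sum_ite_mem]
    refine Finset.sum_congr rfl fun i _ => ?_
    by_cases hi : i ∈ U (combX P p)
    · rw [if_pos hi, indicator_of_mem (by exact hi)]
    · rw [if_neg hi, indicator_of_notMem (by exact hi)]
  have h2 : ∀ i ∈ J, Integrable
      ((combX P ⁻¹' {X | i ∈ U X}).indicator (fun q : Om => f i q.1)) P2 :=
    fun i hi => ((hf i hi).comp_fst PE).indicator (comb_meas P (mU i))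
  rw [h1]
  refine ⟨integrable_finsetSum _ h2, ?_⟩
  rw [integral_finsetSum _ h2]
  refine Finset.sum_congr rfl fun i hi => ?_
  rw [integral_prod _ (h2 i hi)]
  refine integral_congr_ae (ae_of_all _ fun x => ?_)
  have h3 : (fun y => (combX P ⁻¹' {X | i ∈ U X}).indicator (fun q : Om => f i q.1) (x, y)) =
      {y | i ∈ U (mix P y x)}.indicator fun _ => f i x := by
    funext y
    by_cases hi : i ∈ U (mix P y x)
    · rw [indicator_of_mem (by exact hi), indicator_of_mem (by exact hi)]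
    · rw [indicator_of_notMem (by exact hi), indicator_of_notMem (by exact hi)]
  dsimp only
  rw [h3]
  exact integral_indicator_const (f i x) (measurable_prodMk_left (comb_meas P (mU i)))

lemma comb_memLp (e : EE) : MemLp (fun x : Env => max (x e) 0 + 1) 2 PE := by
  have h : SG (fun x => wt x {e}) (fun _ => {e}) {e} :=
    ⟨measurable_wt _, fun _ => MeasurableSet.const _, fun _ => subset_rfl,
      fun _ => wt_nonneg _ _, fun _ _ => by linarith⟩
  have h1 := h.memLp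
  simp only [wt, Finset.sum_singleton] at h1
  exact h1.add (memLp_const 1)

section pert

variable {F : Env → ℝ} {ϖ g d r : EE → Env → ℝ}

lemma Pert.comb_d (hp : Pert F ϖ I g d r) (e : EE) : MemLp (d e) 2 PE :=
  (comb_memLp e).of_le (hp.md e).aestronglyMeasurable (ae_of_all _ fun x => by
    rw [Real.norm_eq_abs, Real.norm_eq_abs]
    exact (hp.d1 e x).trans (le_abs_self _))

lemma Pert.comb_id (hp : Pert F ϖ I g d r) (e : EE) : Integrable (d e) PE :=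
  (hp.comb_d e).integrable one_le_two

lemma Pert.comb_ir (hp : Pert F ϖ I g d r) (e : EE) : Integrable (r e) PE :=
  Integrable.of_bound (hp.mr e).aestronglyMeasurable 1 (ae_of_all _ fun x => by
    rw [Real.norm_of_nonneg (hp.r0 e x)]; exact hp.r1 e x)

open Classical in
/-- The shift restricted to `P`. -/
noncomputable def combG (P : Set EE) (g : EE → Env → ℝ) (e : EE) (x : Env) : ℝ :=
  if e ∈ P then g e x else 0

lemma Pert.comb_g0 (hp : Pert F ϖ I g d r) (P : Set EE) (e : EE) (x : Env) :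
    0 ≤ combG P g e x := by
  unfold combG
  split_ifs
  · exact hp.g0 e x
  · exact le_rfl

lemma Pert.comb_ig (hp : Pert F ϖ I g d r) (P : Set EE) (e : EE) :
    Integrable (combG P g e) PE := by
  unfold combG
  split_ifs
  · exact (integrable_pos_coord e).mono' (hp.mg e).aestronglyMeasurable (ae_of_all _ fun x => by
      rw [Real.norm_of_nonneg (hp.g0 e x)]; exact hp.g1 e x)
  · exact integrable_zero _ _ _

lemma Pert.comb_max (hp : Pert F ϖ I g d r) {l : ℝ} (hl : l ≤ 1 / 2) (e : EE)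
    (x : Env) : max (x e - l * g e x) 0 = max (x e) 0 - l * g e x := by
  have h0 := hp.g0 e x
  have h1 := hp.g1 e x
  rcases le_total 0 (x e) with h | h
  · rw [max_eq_left h] at h1 ⊢
    exact max_eq_left (by nlinarith)
  · rw [max_eq_right h] at h1 ⊢
    rw [le_antisymm h1 h0, mul_zero, sub_zero, sub_zero]
    exact max_eq_right h

lemma Pert.comb_shift (hp : Pert F ϖ I g d r) (P : Set EE) {l : ℝ} (hl : l ≤ 1 / 2)
    (A : Finset EE) (x y : Env) (e : EE) :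
    max (mix P y (shift g l A x) e) 0 =
      max (mix P y x e) 0 - if e ∈ A then l * combG P g e x else 0 := by
  unfold mix shift combG
  by_cases h1 : e ∈ P <;> by_cases h2 : e ∈ A <;> simp only [h1, h2, if_true, if_false]
  · exact hp.comb_max hl e x
  all_goals simp

/-- The change of measure inequality with a randomly selected support. -/
lemma Pert.comb_key (hp : Pert F ϖ I g d r) (P : Set EE) {L : Type} (𝒵 : Finset L)
    (sel : Env → L) (hsel : ∀ X, sel X ∈ 𝒵) (A : L → Finset EE) (hA : ∀ Z, A Z ⊆ I)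
    (mA : ∀ e, MeasurableSet {X | e ∈ A (sel X)}) {Γ : Env → Finset EE}
    (mΓ : ∀ e, MeasurableSet {X | e ∈ Γ X}) (hΓ : ∀ X, Γ X ⊆ A (sel X)) {W : L → Env → ℝ≥0∞}
    (mW : ∀ Z, Measurable (W Z)) (hW : ∫⁻ X, ∑ Z ∈ 𝒵, W Z X ∂PE ≠ ⊤) {V : Env → ℝ}
    (hV : Integrable V PE) {θ l : ℝ} (hl0 : 0 ≤ l) (hl : l ≤ 1 / 2)
    (hc : ∀ X X' : Env, (∀ e, max (X' e) 0 ≤ max (X e) 0) →
      ENNReal.ofReal (exp (θ * (wt X (Γ X) - wt X' (Γ X)) - V X)) ≤ W (sel X) X') :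
    θ * l * ∫ p, combS P Γ (combG P g) p ∂P2 ≤
      (∫ x, V x ∂PE + (∫⁻ X, ∑ Z ∈ 𝒵, W Z X ∂PE).toReal - 1) -
        l * ∫ p, combS P (fun X => A (sel X)) d p ∂P2 +
        l ^ 2 * ∫ p, combS P (fun X => A (sel X)) r p ∂P2 := by
  have i1 := (comb_spec P (fun X => (hΓ X).trans (hA _)) mΓ fun e _ => hp.comb_ig P e).1
  have i2 := (comb_spec P (fun X => hA (sel X)) mA fun e _ => hp.comb_id e).1
  have i3 := (comb_spec P (fun X => hA (sel X)) mA fun e _ => hp.comb_ir e).1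
  have i4 : Integrable (fun p => V (combX P p)) P2 := (comb_mp P).integrable_comp_of_integrable hV
  have e4 : ∫ p, V (combX P p) ∂P2 = ∫ x, V x ∂PE := by
    rw [← (comb_mp P).map_eq, integral_map (comb_meas P).aemeasurable]
    rw [(comb_mp P).map_eq]
    exact hV.aestronglyMeasurable
  have msh : ∀ Z, Measurable (shift g l (A Z)) := fun Z => measurable_pi_lambda _ fun e => by
    unfold shift
    split_ifs
    · exact (measurable_pi_apply e).sub ((hp.mg e).const_mul l)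
    · exact measurable_pi_apply e
  have mE : ∀ Z, Measurable fun x : Env =>
      ENNReal.ofReal (exp (∑ e ∈ A Z, (l * d e x - l ^ 2 * r e x))) := fun Z =>
    (Finset.measurable_sum _ fun e _ =>
      ((hp.md e).const_mul l).sub ((hp.mr e).const_mul _)).exp.ennreal_ofReal
  have mWs : ∀ Z, Measurable fun p : Om => W Z (combX P (shift g l (A Z) p.1, p.2)) := fun Z =>
    (mW Z).comp ((comb_meas P).comp (((msh Z).comp measurable_fst).prodMk measurable_snd))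
  have mWE : ∀ Z, Measurable fun p : Om => W Z (combX P (shift g l (A Z) p.1, p.2)) *
      ENNReal.ofReal (exp (∑ e ∈ A Z, (l * d e p.1 - l ^ 2 * r e p.1))) := fun Z =>
    (mWs Z).mul ((mE Z).comp measurable_fst)
  have mWX : ∀ Z, Measurable fun p : Om => W Z (combX P p) := fun Z => (mW Z).comp (comb_meas P)
  have hle : ∫⁻ p, ∑ Z ∈ 𝒵, W Z (combX P (shift g l (A Z) p.1, p.2)) *
      ENNReal.ofReal (exp (∑ e ∈ A Z, (l * d e p.1 - l ^ 2 * r e p.1))) ∂P2 ≤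
      ∫⁻ X, ∑ Z ∈ 𝒵, W Z X ∂PE := by
    rw [lintegral_finsetSum _ fun Z _ => mW Z, lintegral_finsetSum _ fun Z _ => mWE Z]
    refine Finset.sum_le_sum fun Z _ => ?_
    have mG : Measurable fun x : Env => ∫⁻ y, W Z (combX P (x, y)) ∂PE :=
      (mWX Z).lintegral_prod_right'
    rw [lintegral_prod _ (mWE Z).aemeasurable, ← (comb_mp P).lintegral_comp (mW Z),
      lintegral_prod _ (mWX Z).aemeasurable]
    refine le_trans (le_of_eq (lintegral_congr fun x => ?_)) (hp.cov l hl0 hl (A Z) (hA Z) _ mG)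
    dsimp only
    exact lintegral_mul_const _ ((mWX Z).comp (measurable_prodMk_left (x := shift g l (A Z) x)))
  have j1 : Integrable (fun p => θ * l * combS P Γ (combG P g) p - V (combX P p)) P2 :=
    (i1.const_mul _).sub i4
  have j2 : Integrable (fun p => l * combS P (fun X => A (sel X)) d p -
      l ^ 2 * combS P (fun X => A (sel X)) r p) P2 := (i2.const_mul _).sub (i3.const_mul _)
  have hJ := lemJ (P := P2)
    (Y := fun p => θ * l * combS P Γ (combG P g) p - V (combX P p) +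
      (l * combS P (fun X => A (sel X)) d p - l ^ 2 * combS P (fun X => A (sel X)) r p))
    (j1.add j2) (ae_of_all _ fun p => ?_) (ne_top_of_le_ne_top hW hle)
  · rw [integral_add j1 j2, integral_sub (i1.const_mul _) i4, integral_sub (i2.const_mul _) (i3.const_mul _),
      integral_const_mul, integral_const_mul, integral_const_mul, e4] at hJ
    have := ENNReal.toReal_mono hW hle
    linarith
  · refine le_trans ?_ (Finset.single_le_sum (f := fun Z => W Z (combX P (shift g l (A Z) p.1, p.2)) *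
      ENNReal.ofReal (exp (∑ e ∈ A Z, (l * d e p.1 - l ^ 2 * r e p.1)))) (fun _ _ => zero_le)
      (hsel (combX P p)))
    have h1 := hp.comb_shift P hl (A (sel (combX P p))) p.1 p.2
    have h2 := hc (combX P p) (combX P (shift g l (A (sel (combX P p))) p.1, p.2)) fun e => by
      have h3 := mul_nonneg hl0 (hp.comb_g0 P e p.1)
      change max (mix P p.2 (shift g l (A (sel (combX P p))) p.1) e) 0 ≤ max (mix P p.2 p.1 e) 0
      rw [h1 e]
      split_ifs <;> linarith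
    have h3 : wt (combX P p) (Γ (combX P p)) -
        wt (combX P (shift g l (A (sel (combX P p))) p.1, p.2)) (Γ (combX P p)) =
        l * combS P Γ (combG P g) p := by
      rw [wt, wt, combS, ← Finset.sum_sub_distrib, Finset.mul_sum]
      refine Finset.sum_congr rfl fun e he => ?_
      change max (mix P p.2 p.1 e) 0 - max (mix P p.2 (shift g l (A (sel (combX P p))) p.1) e) 0 = _
      rw [h1 e, if_pos (hΓ _ he)]
      ring
    rw [h3, ← mul_assoc] at h2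
    rw [exp_add, ENNReal.ofReal_mul (exp_pos _).le]
    refine mul_le_mul' h2 (le_of_eq ?_)
    rw [Finset.sum_sub_distrib, ← Finset.mul_sum, ← Finset.mul_sum]
    rfl

/-- Certificate on one fibre. -/
def CombC (Γ : Env → Finset EE) (θ a : ℝ) : Prop :=
  ∃ (W : Env → ℝ≥0∞) (V : Env → ℝ), Measurable W ∧ ∫⁻ X, W X ∂PE ≠ ⊤ ∧ Integrable V PE ∧
    ∫ x, V x ∂PE + (∫⁻ X, W X ∂PE).toReal - 1 ≤ a ∧
    ∀ X X' : Env, (∀ e, max (X' e) 0 ≤ max (X e) 0) →
      ENNReal.ofReal (exp (θ * (wt X (Γ X) - wt X' (Γ X)) - V X)) ≤ W X'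

/-- Localised certificate on one fibre. -/
def CombL (P : Set EE) (Γ : Env → Finset EE) (θ a q μ0 N : ℝ) : Prop :=
  ∃ (𝔅 : Finset (ℕ × ℤ)) (Rg : ℕ × ℤ → Finset EE) (Sel : Env → Finset (ℕ × ℤ))
    (W : Finset (ℕ × ℤ) → Env → ℝ≥0∞) (V : Env → ℝ),
    (∀ X, Sel X ⊆ 𝔅) ∧ (∀ B, MeasurableSet {X | B ∈ Sel X}) ∧
    (∀ X, ∀ B ∈ Sel X, ∀ B' ∈ Sel X, B ≠ B' → Disjoint (Rg B) (Rg B')) ∧
    (∀ e, ((𝔅.filter fun B => e ∈ Rg B).card : ℝ) ≤ μ0) ∧
    (∀ x B, PE {y | B ∈ Sel (mix P y x)} ≤ ENNReal.ofReal q) ∧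
    (∀ X, ((Sel X).card : ℝ) ≤ N) ∧ (∀ X, Γ X ⊆ (Sel X).biUnion Rg) ∧
    (∀ Z, Measurable (W Z)) ∧ ∫⁻ X, ∑ Z ∈ 𝔅.powerset, W Z X ∂PE ≠ ⊤ ∧ Integrable V PE ∧
    ∫ x, V x ∂PE + (∫⁻ X, ∑ Z ∈ 𝔅.powerset, W Z X ∂PE).toReal - 1 ≤ a ∧
    ∀ X X' : Env, (∀ e, max (X' e) 0 ≤ max (X e) 0) →
      ENNReal.ofReal (exp (θ * (wt X (Γ X) - wt X' (Γ X)) - V X)) ≤ W (Sel X) X'

lemma Pert.comb_cert (hp : Pert F ϖ I g d r) (P : Set EE) {Γ : Env → Finset EE}
    (mΓ : ∀ e, MeasurableSet {X | e ∈ Γ X}) (hΓ : ∀ X, Γ X ⊆ I) {θ a l : ℝ} (hl0 : 0 ≤ l)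
    (hl : l ≤ 1 / 2) (hC : CombC Γ θ a) :
    θ * l * ∫ p, combS P Γ (combG P g) p ∂P2 ≤ a + l ^ 2 * Var[F; PE] := by
  obtain ⟨W, V, mW, hW, hV, ha, hc⟩ := hC
  have key := hp.comb_key P ({()} : Finset Unit) (fun _ => ()) (fun _ => Finset.mem_singleton_self _)
    (fun _ => I) (fun _ => subset_rfl) (fun _ => MeasurableSet.const _) mΓ hΓ (W := fun _ => W)
    (fun _ => mW) (by simpa using hW) hV hl0 hl hc
  have h1 : ∀ f : EE → Env → ℝ, (∀ e, Integrable (f e) PE) →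
      ∫ p, combS P (fun _ => I) f p ∂P2 = ∑ e ∈ I, ∫ x, f e x ∂PE := fun f hf => by
    rw [(comb_spec P (J := I) (fun _ => subset_rfl) (fun _ => MeasurableSet.const _)
      fun e _ => hf e).2]
    refine Finset.sum_congr rfl fun e he => ?_
    simp [combP, he]
  rw [h1 d hp.comb_id, h1 r hp.comb_ir, Finset.sum_eq_zero hp.mean] at key
  simp only [Finset.sum_singleton] at key
  have h2 : ∑ e ∈ I, ∫ x, r e x ∂PE ≤ Var[F; PE] := (Finset.sum_le_sum hp.rle).trans hp.tot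
  have h3 := mul_le_mul_of_nonneg_left h2 (sq_nonneg l)
  linarith

lemma Pert.comb_lcert (hp : Pert F ϖ I g d r) (P : Set EE) {Γ : Env → Finset EE}
    (mΓ : ∀ e, MeasurableSet {X | e ∈ Γ X}) (hΓ : ∀ X, Γ X ⊆ I) {θ a q μ0 N l α : ℝ} (hl0 : 0 ≤ l)
    (hl : l ≤ 1 / 2) (hq : 0 ≤ q) (hμ0 : 0 ≤ μ0) (hα : 0 < α) (hC : CombL P Γ θ a q μ0 N) :
    θ * l * ∫ p, combS P Γ (combG P g) p ∂P2 ≤
      a + l * (q * N / (2 * α) + α / 2 * (μ0 * Var[F; PE])) + l ^ 2 * (q * (μ0 * Var[F; PE])) := by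
  classical
  obtain ⟨𝔅, Rg, Sel, W, V, hS, mS, hd, hμ, hq', hN, hsub, mW, hW, hV, ha, hc⟩ := hC
  have mA : ∀ e, MeasurableSet {X | e ∈ (Sel X).biUnion Rg ∩ I} := fun e => by
    have : {X | e ∈ (Sel X).biUnion Rg ∩ I} =
        ⋃ B, {X | B ∈ Sel X} ∩ {_X | e ∈ Rg B ∧ e ∈ I} := by
      ext X
      simp only [mem_ofPred_eq, Finset.mem_inter, Finset.mem_biUnion, mem_iUnion, mem_inter_iff]
      constructor
      · rintro ⟨⟨B, h1, h2⟩, h3⟩; exact ⟨B, h1, h2, h3⟩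
      · rintro ⟨B, h1, h2, h3⟩; exact ⟨⟨B, h1, h2⟩, h3⟩
    rw [this]
    exact MeasurableSet.iUnion fun B => (mS B).inter (MeasurableSet.const _)
  have key := hp.comb_key P 𝔅.powerset Sel (fun X => Finset.mem_powerset.2 (hS X))
    (fun Z => Z.biUnion Rg ∩ I) (fun _ => Finset.inter_subset_right) mA mΓ
    (fun X => Finset.subset_inter (hsub X) (hΓ X)) mW hW hV hl0 hl hc
  have h1 : ∀ f : EE → Env → ℝ, (∀ e, Integrable (f e) PE) →
      ∫ p, combS P (fun X => (Sel X).biUnion Rg ∩ I) f p ∂P2 =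
        ∑ B ∈ 𝔅, ∫ x, combP P Sel B x * ∑ e ∈ Rg B ∩ I, f e x ∂PE := fun f hf => by
    rw [← (comb_spec P hS mS (f := fun B x => ∑ e ∈ Rg B ∩ I, f e x)
      fun B _ => integrable_finsetSum _ fun e _ => hf e).2]
    refine integral_congr_ae (ae_of_all _ fun p => ?_)
    unfold combS
    dsimp only
    rw [Finset.biUnion_inter, Finset.sum_biUnion]
    intro B hB B' hB' hne
    exact (hd _ B hB B' hB' hne).mono Finset.inter_subset_left Finset.inter_subset_left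
  have hπ : ∀ B x, combP P Sel B x ≤ q := fun B x => ENNReal.toReal_le_of_le_ofReal hq (hq' x B)
  have hm : ∑ B ∈ 𝔅, ∑ e ∈ Rg B ∩ I, ∫ x, d e x ^ 2 ∂PE ≤ μ0 * Var[F; PE] := by
    have h2 : ∑ B ∈ 𝔅, ∑ e ∈ Rg B ∩ I, ∫ x, d e x ^ 2 ∂PE =
        ∑ e ∈ I, ((𝔅.filter fun B => e ∈ Rg B).card : ℝ) * ∫ x, d e x ^ 2 ∂PE := by
      simp_rw [Finset.inter_comm (Rg _) I, ← Finset.sum_ite_mem]
      rw [Finset.sum_comm]
      refine Finset.sum_congr rfl fun e _ => ?_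
      rw [← Finset.sum_filter, Finset.sum_const, nsmul_eq_mul]
    rw [h2]
    refine le_trans (Finset.sum_le_sum fun e _ => mul_le_mul_of_nonneg_right (hμ e)
      (integral_nonneg fun x => sq_nonneg _)) ?_
    rw [← Finset.mul_sum]
    exact mul_le_mul_of_nonneg_left hp.tot hμ0
  have hr : ∑ B ∈ 𝔅, ∫ x, combP P Sel B x * ∑ e ∈ Rg B ∩ I, r e x ∂PE ≤
      q * (μ0 * Var[F; PE]) := by
    refine le_trans ?_ (mul_le_mul_of_nonneg_left hm hq)
    rw [Finset.mul_sum]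
    refine Finset.sum_le_sum fun B _ => ?_
    have i1 : Integrable (fun x => ∑ e ∈ Rg B ∩ I, r e x) PE :=
      integrable_finsetSum _ fun e _ => hp.comb_ir e
    refine le_trans (integral_mono (comb_intP P (mS B) i1) (i1.const_mul q) fun x =>
      mul_le_mul_of_nonneg_right (hπ B x) (Finset.sum_nonneg fun e _ => hp.r0 e x)) ?_
    rw [integral_const_mul, integral_finsetSum _ fun e _ => hp.comb_ir e]
    exact mul_le_mul_of_nonneg_left
      (Finset.sum_le_sum fun e he => hp.rle e (Finset.mem_inter.1 he).2) hq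
  have hN' : ∑ B ∈ 𝔅, ∫ x, combP P Sel B x * 1 ∂PE ≤ N := by
    obtain ⟨i1, e1⟩ := comb_spec P hS mS (f := fun _ _ => (1 : ℝ)) fun _ _ => integrable_const 1
    rw [← e1]
    refine le_trans (integral_mono i1 (integrable_const N) fun p => ?_) (by simp)
    simpa [combS] using hN _
  have hd' : -∑ B ∈ 𝔅, ∫ x, combP P Sel B x * ∑ e ∈ Rg B ∩ I, d e x ∂PE ≤
      q * N / (2 * α) + α / 2 * (μ0 * Var[F; PE]) := by
    have h2 : ∀ B ∈ 𝔅, -∫ x, combP P Sel B x * ∑ e ∈ Rg B ∩ I, d e x ∂PE ≤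
        q / (2 * α) * ∫ x, combP P Sel B x * 1 ∂PE +
          α / 2 * ∑ e ∈ Rg B ∩ I, ∫ x, d e x ^ 2 ∂PE := fun B _ => by
      have m1 : MemLp (fun x => ∑ e ∈ Rg B ∩ I, d e x) 2 PE :=
        memLp_finsetSum _ fun e _ => hp.comb_d e
      have i1 := comb_intP P (mS B) (m1.integrable one_le_two)
      have i2 := comb_intP P (mS B) (integrable_const (μ := PE) (1 : ℝ))
      have i3 := m1.integrable_sq
      have h3 := mul_le_mul_of_nonneg_left (hp.orth (Rg B ∩ I) Finset.inter_subset_right)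
        (half_pos hα).le
      refine le_trans ?_ (add_le_add le_rfl h3)
      rw [← integral_neg, ← integral_const_mul, ← integral_const_mul,
        ← integral_add (i2.const_mul _) (i3.const_mul _)]
      refine integral_mono i1.neg ((i2.const_mul _).add (i3.const_mul _)) fun x => ?_
      have h4 := hπ B x
      have h5 := combP_nonneg P Sel B x
      dsimp only
      generalize combP P Sel B x = u at *
      generalize ∑ e ∈ Rg B ∩ I, d e x = D
      have h6 : u ^ 2 / (2 * α) ≤ q / (2 * α) * (u * 1) := by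
        rw [div_mul_eq_mul_div]
        exact div_le_div_of_nonneg_right (by nlinarith) (by positivity)
      have h7 : u ^ 2 / (2 * α) + α / 2 * D ^ 2 + u * D = (u + α * D) ^ 2 / (2 * α) := by
        field_simp
        ring
      have h8 : 0 ≤ (u + α * D) ^ 2 / (2 * α) := by positivity
      linarith
    rw [← Finset.sum_neg_distrib]
    refine le_trans (Finset.sum_le_sum h2) ?_
    rw [Finset.sum_add_distrib, ← Finset.mul_sum, ← Finset.mul_sum]
    refine add_le_add ?_ (mul_le_mul_of_nonneg_left hm (half_pos hα).le)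
    rw [mul_div_right_comm]
    exact mul_le_mul_of_nonneg_left hN' (by positivity)
  rw [h1 d hp.comb_id, h1 r hp.comb_ir] at key
  have h3 := mul_le_mul_of_nonneg_left hr (sq_nonneg l)
  have h4 := mul_le_mul_of_nonneg_left hd' hl0
  linarith

end pert

open Classical in
lemma comb_fib (h : SG T γ I) (P : Set EE) {κ : Type} (Z : Finset κ) (Γ : κ → Env → Finset EE)
    (w θ a : κ → ℝ) {Ω : ℝ} (hΩ : 1 ≤ Ω) (hw : ∀ l ∈ Z, 0 ≤ w l) (hs : ∑ l ∈ Z, w l ≤ Ω)
    (hθ : ∀ l ∈ Z, 0 < θ l ∧ θ l ≤ 1) (hm : ∀ l ∈ Z, ∀ e, MeasurableSet {X | e ∈ Γ l X})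
    (hsub : ∀ l ∈ Z, ∀ X, Γ l X ⊆ γ X) (hC : ∀ l ∈ Z, CombC (Γ l) (θ l) (a l))
    (Γ' : ℕ → Env → Finset EE) (a' : ℕ → ℝ) {θ0 q μ0 N l0 : ℝ} (hθ0 : 0 < θ0) (hq : 0 ≤ q)
    (hμ0 : 1 ≤ μ0) (hl0 : 0 < l0) (hl1 : l0 ≤ 1 / 2) (hl2 : 16 * l0 * q * μ0 ≤ θ0)
    (hm' : ∀ r < 2, ∀ e, MeasurableSet {X | e ∈ Γ' r X}) (hsub' : ∀ r < 2, ∀ X, Γ' r X ⊆ γ X)
    (hC' : ∀ r < 2, CombL P (Γ' r) θ0 (a' r) q μ0 N)
    (cover : ∀ X, ∀ e ∈ γ X, e ∈ Γ' 0 X ∨ e ∈ Γ' 1 X ∨
      1 ≤ ∑ l ∈ Z, if e ∈ Γ l X then w l else 0) :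
    Var[fun x => ∫ y, T (mix P y x) ∂PE; PE] ≤ ∑ l ∈ Z, 8 * Ω * w l / θ l ^ 2 * a l +
      (2 / (l0 * θ0) * a' 0 + 2 / (l0 * θ0) * a' 1 + 16 * μ0 * q * N / θ0 ^ 2) := by
  obtain ⟨g, d, r, hp⟩ := exists_pert (h.lip P PE (integrable_wt I))
  set V := Var[fun x => ∫ y, T (mix P y x) ∂PE; PE] with hV
  have hV0 : 0 ≤ V := variance_nonneg _ _
  have sp := fun (U : Env → Finset EE) (hU : ∀ X, U X ⊆ γ X) mU =>
    comb_spec P (U := U) (fun X => (hU X).trans (h.sub X)) mU fun e _ => hp.comb_ig P e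
  have h1 : V ≤ ∫ p, combS P γ (combG P g) p ∂P2 := by
    rw [(sp γ (fun _ => subset_rfl) h.mγ).2]
    refine hp.gain.trans (le_of_eq (Finset.sum_congr rfl fun e _ => ?_))
    refine integral_congr_ae (ae_of_all _ fun x => ?_)
    unfold combG combP
    by_cases he : e ∈ P <;> simp [he]
  have i0 := (sp _ (hsub' 0 (by norm_num)) (hm' 0 (by norm_num))).1
  have i1 := (sp _ (hsub' 1 (by norm_num)) (hm' 1 (by norm_num))).1
  have i2 : ∀ l ∈ Z, Integrable (fun p => w l * combS P (Γ l) (combG P g) p) P2 :=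
    fun l hl => (sp _ (hsub l hl) (hm l hl)).1.const_mul _
  have h2 : ∫ p, combS P γ (combG P g) p ∂P2 ≤ ∫ p, combS P (Γ' 0) (combG P g) p ∂P2 +
      ∫ p, combS P (Γ' 1) (combG P g) p ∂P2 +
      ∑ l ∈ Z, w l * ∫ p, combS P (Γ l) (combG P g) p ∂P2 := by
    simp_rw [← integral_const_mul]
    have i3 : Integrable (fun p => combS P (Γ' 0) (combG P g) p + combS P (Γ' 1) (combG P g) p)
        P2 := i0.add i1
    rw [← integral_finsetSum _ i2, ← integral_add i0 i1,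
      ← integral_add i3 (integrable_finsetSum _ i2)]
    refine integral_mono (sp γ (fun _ => subset_rfl) h.mγ).1
      (i3.add (integrable_finsetSum _ i2)) fun p => ?_
    have e1 : ∀ U : Env → Finset EE, (∀ X, U X ⊆ γ X) → combS P U (combG P g) p =
        ∑ e ∈ γ (combX P p), if e ∈ U (combX P p) then combG P g e p.1 else 0 := fun U hU => by
      rw [Finset.sum_ite_mem, Finset.inter_eq_right.2 (hU _), combS]
    have e2 : ∑ l ∈ Z, w l * combS P (Γ l) (combG P g) p = ∑ e ∈ γ (combX P p),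
        (∑ l ∈ Z, if e ∈ Γ l (combX P p) then w l else 0) * combG P g e p.1 := by
      simp_rw [Finset.sum_mul]
      rw [Finset.sum_comm]
      refine Finset.sum_congr rfl fun l hl => ?_
      rw [e1 _ (hsub l hl), Finset.mul_sum]
      refine Finset.sum_congr rfl fun e _ => ?_
      split_ifs <;> simp
    dsimp only [Pi.add_apply]
    rw [e2, e1 _ (hsub' 0 (by norm_num)), e1 _ (hsub' 1 (by norm_num)), ← Finset.sum_add_distrib,
      ← Finset.sum_add_distrib, combS]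
    refine Finset.sum_le_sum fun e he => ?_
    have g0 := hp.comb_g0 P e p.1
    have s0 : 0 ≤ ∑ l ∈ Z, if e ∈ Γ l (combX P p) then w l else 0 :=
      Finset.sum_nonneg fun l hl => by split_ifs; exacts [hw l hl, le_rfl]
    have s1 := mul_nonneg s0 g0
    rcases cover _ e he with h3 | h3 | h3
    · rw [if_pos h3]; split_ifs <;> linarith
    · rw [if_pos h3]; split_ifs <;> linarith
    · have s2 := mul_le_mul_of_nonneg_right h3 g0
      split_ifs <;> linarith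
  have h3 : ∀ l ∈ Z, w l * ∫ p, combS P (Γ l) (combG P g) p ∂P2 ≤
      4 * Ω * w l / θ l ^ 2 * a l + w l * (V / (4 * Ω)) := fun l hl => by
    obtain ⟨t0, t1⟩ := hθ l hl
    have k := hp.comb_cert P (hm l hl) (fun X => (hsub l hl X).trans (h.sub X))
      (l := θ l / (4 * Ω)) (by positivity)
      (by rw [div_le_iff₀ (by positivity)]; linarith) (hC l hl)
    have k2 := mul_le_mul_of_nonneg_left k
      (show 0 ≤ 4 * Ω * w l / θ l ^ 2 by have := hw l hl; positivity)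
    refine le_trans (le_of_eq ?_) (k2.trans (le_of_eq ?_))
    · field_simp
    · rw [← hV]; field_simp
  have h4 : ∀ r < 2, ∫ p, combS P (Γ' r) (combG P g) p ∂P2 ≤
      1 / (l0 * θ0) * a' r + 4 * μ0 * q * N / θ0 ^ 2 + V / 8 := fun r hr => by
    have k := hp.comb_lcert P (hm' r hr) (fun X => (hsub' r hr X).trans (h.sub X)) hl0.le hl1 hq
      (by linarith) (α := θ0 / (8 * μ0)) (by positivity) (hC' r hr)
    rw [← hV] at k
    have k1 : l0 ^ 2 * (q * (μ0 * V)) ≤ l0 * θ0 * (V / 16) := by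
      have := mul_le_mul_of_nonneg_right hl2 (mul_nonneg hl0.le hV0)
      linarith
    have k2 := mul_le_mul_of_nonneg_left (k.trans (add_le_add le_rfl k1))
      (show 0 ≤ 1 / (l0 * θ0) by positivity)
    refine le_trans (le_of_eq ?_) (k2.trans (le_of_eq ?_))
    · field_simp
    · field_simp
      ring
  have h5 := Finset.sum_le_sum h3
  rw [Finset.sum_add_distrib, ← Finset.sum_mul] at h5
  have h6 : (∑ l ∈ Z, w l) * (V / (4 * Ω)) ≤ V / 4 := by
    refine (mul_le_mul_of_nonneg_right hs (by positivity)).trans (le_of_eq ?_)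
    field_simp
  have h7 : ∑ l ∈ Z, 8 * Ω * w l / θ l ^ 2 * a l = 2 * ∑ l ∈ Z, 4 * Ω * w l / θ l ^ 2 * a l := by
    rw [Finset.mul_sum]
    exact Finset.sum_congr rfl fun l _ => by ring
  have h8 := h4 0 (by norm_num)
  have h9 := h4 1 (by norm_num)
  have e1 : 2 / (l0 * θ0) = 2 * (1 / (l0 * θ0)) := by ring
  have e2 : 16 * μ0 * q * N / θ0 ^ 2 = 4 * (4 * μ0 * q * N / θ0 ^ 2) := by ring
  rw [h7, e1, e2]
  linarith

end Pool.Agent.Lib.MP_de94ef_pr.Q
end

-- part Pool.Agent.Lib.MP_de94ef_pr.Q.Comb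
section

/-!
From certificates to variance bounds.
-/

open MeasureTheory ProbabilityTheory Set Real Function Filter Topology
open scoped ENNReal NNReal

namespace Pool.Agent.Lib.MP_de94ef_pr.Q

variable {T : Env → ℝ} {γ : Env → Finset EE} {I : Finset EE}

lemma comb_fubini {α : Type} [MeasurableSpace α] {μ : Measure α} [IsProbabilityMeasure μ]
    {Φ : α × Env → Om} (hΦ : MeasurePreserving Φ (μ.prod PE) P2) {W : Om → ℝ≥0∞} {V : Om → ℝ}
    {v : ℝ} (mW : Measurable W) (hW : ∫⁻ ω, W ω ∂P2 ≤ 1) (hV : Integrable V P2)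
    (hv : ∫ ω, V ω ∂P2 ≤ v) :
    (∀ᵐ b ∂μ, ∫⁻ y, W (Φ (b, y)) ∂PE ≠ ⊤ ∧ Integrable (fun y => V (Φ (b, y))) PE) ∧
      Integrable (fun b => ∫ y, V (Φ (b, y)) ∂PE + (∫⁻ y, W (Φ (b, y)) ∂PE).toReal - 1) μ ∧
      ∫ b, (∫ y, V (Φ (b, y)) ∂PE + (∫⁻ y, W (Φ (b, y)) ∂PE).toReal - 1) ∂μ ≤ v := by
  have i1 : Integrable (fun p => V (Φ p)) (μ.prod PE) := hΦ.integrable_comp_of_integrable hV
  have e1 : ∫ p, V (Φ p) ∂(μ.prod PE) = ∫ ω, V ω ∂P2 := by
    rw [← hΦ.map_eq, integral_map hΦ.measurable.aemeasurable]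
    rw [hΦ.map_eq]
    exact hV.aestronglyMeasurable
  have m1 : Measurable fun p => W (Φ p) := mW.comp hΦ.measurable
  have m2 : Measurable fun b => ∫⁻ y, W (Φ (b, y)) ∂PE := m1.lintegral_prod_right'
  have e2 : ∫⁻ b, ∫⁻ y, W (Φ (b, y)) ∂PE ∂μ ≤ 1 := by
    rw [← lintegral_prod _ m1.aemeasurable, hΦ.lintegral_comp mW]
    exact hW
  have f2 : ∫⁻ b, ∫⁻ y, W (Φ (b, y)) ∂PE ∂μ ≠ ⊤ := ne_top_of_le_ne_top ENNReal.one_ne_top e2
  have a2 := ae_lt_top m2 f2
  have i2 := integrable_toReal_of_lintegral_ne_top m2.aemeasurable f2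
  have i3 : Integrable (fun b => ∫ y, V (Φ (b, y)) ∂PE) μ := i1.integral_prod_left
  have i4 : Integrable (fun b => ∫ y, V (Φ (b, y)) ∂PE + (∫⁻ y, W (Φ (b, y)) ∂PE).toReal) μ :=
    i3.add i2
  refine ⟨?_, i4.sub (integrable_const 1), ?_⟩
  · filter_upwards [a2, i1.prod_right_ae] with b h1 h2 using ⟨h1.ne, h2⟩
  · rw [integral_sub i4 (integrable_const 1), integral_add i3 i2, ← integral_prod _ i1, e1,
      integral_toReal m2.aemeasurable a2]
    have := ENNReal.toReal_le_of_le_ofReal zero_le_one (e2.trans_eq ENNReal.ofReal_one.symm)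
    simp only [integral_const, probReal_univ, smul_eq_mul, mul_one]
    linarith

lemma comb_triv (P : Set EE) : CombL P (fun _ => ∅) 1 0 0 1 0 := by
  refine ⟨∅, fun _ => ∅, fun _ => ∅, fun _ _ => 1, fun _ => 0, fun _ => subset_rfl,
    fun _ => MeasurableSet.const _, by simp, by simp, by simp, by simp, by simp,
    fun _ => measurable_const, by simp, integrable_zero _ _ _, by simp, by simp⟩

open Classical in
lemma comb_wt (S : Set EE) (x y y' : Env) (A : Finset EE) :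
    wt (mix S x y) A - wt (mix S x y') A =
      wt y (A.filter (· ∈ S)) - wt y' (A.filter (· ∈ S)) := by
  simp only [wt, Finset.sum_filter, ← Finset.sum_sub_distrib]
  refine Finset.sum_congr rfl fun e _ => ?_
  unfold mix
  split_ifs <;> simp

lemma comb_sum {α κ : Type} [MeasurableSpace α] {μ : Measure α} {Z : Finset κ} {a : κ → α → ℝ}
    {w θ v : κ → ℝ} {Ω : ℝ} (hΩ : 1 ≤ Ω) (hw : ∀ l ∈ Z, 0 ≤ w l)
    (ha : ∀ l ∈ Z, Integrable (a l) μ ∧ ∫ b, a l b ∂μ ≤ v l) :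
    Integrable (fun b => ∑ l ∈ Z, 8 * Ω * w l / θ l ^ 2 * a l b) μ ∧
      ∫ b, ∑ l ∈ Z, 8 * Ω * w l / θ l ^ 2 * a l b ∂μ ≤
        ∑ l ∈ Z, 8 * Ω * w l * (v l + 1) / θ l ^ 2 := by
  have i1 : ∀ l ∈ Z, Integrable (fun b => 8 * Ω * w l / θ l ^ 2 * a l b) μ :=
    fun l hl => (ha l hl).1.const_mul _
  refine ⟨integrable_finsetSum _ i1, ?_⟩
  rw [integral_finsetSum _ i1]
  refine Finset.sum_le_sum fun l hl => ?_
  have h0 : 0 ≤ 8 * Ω * w l / θ l ^ 2 := by have := hw l hl; positivity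
  rw [integral_const_mul, mul_div_right_comm _ (v l + 1)]
  exact mul_le_mul_of_nonneg_left (by linarith [(ha l hl).2]) h0

open Classical in
theorem combA (h : SG T γ I) (t : ℝ) {κ : Type} (Z : Finset κ) (Γ : κ → Om → Finset EE)
    (w θ v : κ → ℝ) {Ω : ℝ} (hΩ : 1 ≤ Ω) (hw : ∀ l ∈ Z, 0 ≤ w l) (hs : ∑ l ∈ Z, w l ≤ Ω)
    (hθ : ∀ l ∈ Z, 0 < θ l ∧ θ l ≤ 1) (hv : ∀ l ∈ Z, 0 ≤ v l)
    (hm : ∀ l ∈ Z, ∀ e, MeasurableSet {ω | e ∈ Γ l ω}) (hsub : ∀ l ∈ Z, ∀ ω, Γ l ω ⊆ γ ω.2)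
    (hC : ∀ l ∈ Z, Cert (SS t) (Γ l) (θ l) (v l))
    (cover : ∀ ω : Om, ∀ e ∈ γ ω.2, 1 ≤ ∑ l ∈ Z, if e ∈ Γ l ω then w l else 0) :
    cvar t T ≤ ∑ l ∈ Z, 8 * Ω * w l * (v l + 1) / θ l ^ 2 := by
  have _ := hv
  choose! W V mW hW hV hv' hc using hC
  have hF := fun l hl => comb_fubini (measurePreserving_mixS t) (mW l hl) (hW l hl) (hV l hl)
    (hv' l hl)
  obtain ⟨i1, e1⟩ := comb_sum (θ := θ) hΩ hw fun l hl => (hF l hl).2
  refine le_trans (integral_mono_of_nonneg (ae_of_all _ fun ω => variance_nonneg _ _) i1 ?_) e1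
  filter_upwards [(Finset.eventually_all Z).2 fun l hl => (hF l hl).1] with ω hω
  obtain ⟨ζ, x⟩ := ω
  have mm : Measurable fun y => ((ζ, mix (SS t ζ) x y) : Om) :=
    measurable_const.prodMk ((measurable_mix _).comp (measurable_prodMk_left (x := x)))
  have key := comb_fib (h.fiber (SS t ζ) x) univ Z
    (fun l y => (Γ l (ζ, mix (SS t ζ) x y)).filter (· ∈ SS t ζ)) w θ
    (fun l => ∫ y, V l (ζ, mix (SS t ζ) x y) ∂PE + (∫⁻ y, W l (ζ, mix (SS t ζ) x y) ∂PE).toReal - 1)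
    hΩ hw hs hθ (fun l hl e => ?_) (fun l hl y => Finset.filter_subset_filter _ (hsub l hl _))
    (fun l hl => ⟨fun y => W l (ζ, mix (SS t ζ) x y), fun y => V l (ζ, mix (SS t ζ) x y),
      (mW l hl).comp mm, (hω l hl).1, (hω l hl).2, le_rfl, fun y y' hy => ?_⟩)
    (fun _ _ => ∅) (fun _ => 0) (θ0 := 1) (q := 0) (μ0 := 1) (N := 0) (l0 := 1 / 2) one_pos le_rfl
    le_rfl (by norm_num) le_rfl (by norm_num) (fun _ _ _ => MeasurableSet.const _)
    (fun _ _ _ => Finset.empty_subset _) (fun _ _ => comb_triv _) fun y e he => ?_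
  · have h1 : ∀ y z : Env, mix univ y z = z := fun y z => funext fun e => if_pos (mem_univ e)
    simpa [h1] using key
  · simp only [Finset.mem_filter]
    exact (mm (hm l hl e)).inter (MeasurableSet.const _)
  · rw [← comb_wt]
    refine hc l hl ζ _ _ (fun e => ?_) fun e he => ?_
    · unfold mix
      split_ifs
      exacts [hy e, le_rfl]
    · unfold mix
      rw [if_neg he, if_neg he]
  · obtain ⟨h1, h2⟩ := Finset.mem_filter.1 he
    refine Or.inr (Or.inr ?_)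
    simpa only [Finset.mem_filter, h2, and_true] using cover (ζ, mix (SS t ζ) x y) e h1

open Classical in
theorem combB (h : SG T γ I) (t : ℝ) {κ : Type} (Z : Finset κ) (Γ : κ → Om → Finset EE)
    (w θ v : κ → ℝ) {Ω : ℝ} (hΩ : 1 ≤ Ω) (hw : ∀ l ∈ Z, 0 ≤ w l) (hs : ∑ l ∈ Z, w l ≤ Ω)
    (hθ : ∀ l ∈ Z, 0 < θ l ∧ θ l ≤ 1) (hv : ∀ l ∈ Z, 0 ≤ v l)
    (hm : ∀ l ∈ Z, ∀ e, MeasurableSet {ω | e ∈ Γ l ω}) (hsub : ∀ l ∈ Z, ∀ ω, Γ l ω ⊆ γ ω.2)
    (hC : ∀ l ∈ Z, Cert (fun _ => univ) (Γ l) (θ l) (v l))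
    (Γ' : ℕ → Om → Finset EE) {θ0 v0 q μ0 N l0 : ℝ} (hθ0 : 0 < θ0) (hv0 : 0 ≤ v0) (hq : 0 ≤ q)
    (hμ0 : 1 ≤ μ0) (hN : 0 ≤ N) (hl0 : 0 < l0) (hl1 : l0 ≤ 1 / 2) (hl2 : 16 * l0 * q * μ0 ≤ θ0)
    (hm' : ∀ r < 2, ∀ e, MeasurableSet {ω | e ∈ Γ' r ω}) (hsub' : ∀ r < 2, ∀ ω, Γ' r ω ⊆ γ ω.2)
    (hC' : ∀ r < 2, LCert t (Γ' r) θ0 v0 q μ0 N)
    (cover : ∀ ω : Om, ∀ e ∈ γ ω.2, e ∈ Γ' 0 ω ∨ e ∈ Γ' 1 ω ∨
      1 ≤ ∑ l ∈ Z, if e ∈ Γ l ω then w l else 0) :
    rvar t T ≤ ∑ l ∈ Z, 8 * Ω * w l * (v l + 1) / θ l ^ 2 +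
      4 * ((v0 + 1) / (l0 * θ0) + 4 * μ0 * q * N / θ0 ^ 2) := by
  have _ := hv
  have _ := hN
  choose! W V mW hW hV hv' hc using hC
  choose! 𝔅 Rg Sel W' V' k1 k2 k3 k4 k5 k6 k7 k8 k9 k10 k11 k12 using hC'
  have hF := fun l hl => comb_fubini (MeasurePreserving.id P2) (mW l hl) (hW l hl) (hV l hl)
    (hv' l hl)
  have hF' := fun r hr => comb_fubini (MeasurePreserving.id P2)
    (W := fun ω => ∑ Z ∈ (𝔅 r).powerset, W' r Z ω) (Finset.measurable_sum _ fun Z _ => k8 r hr Z)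
    (by rw [lintegral_finsetSum _ fun Z _ => k8 r hr Z]; exact k9 r hr) (k10 r hr) (k11 r hr)
  simp only [id] at hF hF'
  obtain ⟨i1, e1⟩ := comb_sum (θ := θ) hΩ hw fun l hl => (hF l hl).2
  obtain ⟨a0, i2, e2⟩ := hF' 0 (by norm_num)
  obtain ⟨a1, i3, e3⟩ := hF' 1 (by norm_num)
  have i4 := (i2.const_mul (2 / (l0 * θ0))).fun_add (i3.const_mul (2 / (l0 * θ0)))
  have i5 := i4.fun_add (integrable_const (16 * μ0 * q * N / θ0 ^ 2))
  refine le_trans (integral_mono_of_nonneg (ae_of_all _ fun ω => variance_nonneg _ _)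
    (i1.fun_add i5) ?_) ?_
  · filter_upwards [(Finset.eventually_all Z).2 fun l hl => (hF l hl).1, a0, a1] with ζ hζ b0 b1
    have hb : ∀ r < 2, ∫⁻ y, ∑ Z ∈ (𝔅 r).powerset, W' r Z (ζ, y) ∂PE ≠ ⊤ ∧
        Integrable (fun y => V' r (ζ, y)) PE := fun r hr => by
      interval_cases r
      exacts [b0, b1]
    have key := comb_fib h (SS t ζ)ᶜ Z (fun l X => Γ l (ζ, X)) w θ
      (fun l => ∫ y, V l (ζ, y) ∂PE + (∫⁻ y, W l (ζ, y) ∂PE).toReal - 1) hΩ hw hs hθ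
      (fun l hl e => measurable_prodMk_left (hm l hl e)) (fun l hl X => hsub l hl (ζ, X))
      (fun l hl => ⟨fun y => W l (ζ, y), fun y => V l (ζ, y),
        (mW l hl).comp measurable_prodMk_left, (hζ l hl).1, (hζ l hl).2, le_rfl,
        fun X X' hX => hc l hl ζ X X' hX fun e he => (he (mem_univ e)).elim⟩)
      (fun r X => Γ' r (ζ, X))
      (fun r => ∫ y, V' r (ζ, y) ∂PE +
        (∫⁻ y, ∑ Z ∈ (𝔅 r).powerset, W' r Z (ζ, y) ∂PE).toReal - 1) (N := N) hθ0 hq hμ0 hl0 hl1 hl2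
      (fun r hr e => measurable_prodMk_left (hm' r hr e)) (fun r hr X => hsub' r hr (ζ, X))
      (fun r hr => ⟨𝔅 r, Rg r, fun X => Sel r (ζ, X), fun Z y => W' r Z (ζ, y),
        fun y => V' r (ζ, y), fun X => k1 r hr _, fun B => measurable_prodMk_left (k2 r hr B),
        fun X => k3 r hr _, k4 r hr, fun x B => by simpa only [mix_compl] using k5 r hr ζ x B,
        fun X => k6 r hr _, fun X => k7 r hr _,
        fun Z => (k8 r hr Z).comp measurable_prodMk_left, (hb r hr).1, (hb r hr).2, le_rfl,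
        k12 r hr ζ⟩)
      fun X => cover (ζ, X)
    simpa only [mix_compl] using key
  · rw [integral_add i1 i5, integral_add i4 (integrable_const _),
      integral_add (i2.const_mul _) (i3.const_mul _), integral_const_mul, integral_const_mul]
    refine add_le_add e1 ?_
    have h0 : 0 ≤ 2 / (l0 * θ0) := by positivity
    have h1 := mul_le_mul_of_nonneg_left e2 h0
    have h2 := mul_le_mul_of_nonneg_left e3 h0
    have h3 : 4 * ((v0 + 1) / (l0 * θ0) + 4 * μ0 * q * N / θ0 ^ 2) =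
        2 / (l0 * θ0) * v0 + 2 / (l0 * θ0) * v0 + 2 * (2 / (l0 * θ0)) +
          16 * μ0 * q * N / θ0 ^ 2 := by ring
    have _ := hv0
    simp only [integral_const, probReal_univ, smul_eq_mul, one_mul]
    linarith

end Pool.Agent.Lib.MP_de94ef_pr.Q
end
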