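import Pool.Agent.Lib.MP_de94ef_pr.Q.TopL
import Pool.Agent.Lib.MP_de94ef_pr.Q.Var

-- part Pool.Agent.Lib.MP_de94ef_pr.Q.Par
section

/-!
Parallel thin tubes force concentration.
-/

open MeasureTheory ProbabilityTheory Set Real Function Filter Topology
open scoped ENNReal NNReal

namespace Pool.Agent.Lib.MP_de94ef_pr.Q

lemma par_mom {G : Env → ℝ} {B s X : ℝ} (h : Dom (fun ω z => z = G ω) (B * s) (s / X))
    (hs : 0 < s) (hX : 0 < X) :
    ∫⁻ ω, ENNReal.ofReal (exp (X * G ω / s)) ∂PE ≤ ENNReal.ofReal (3 * exp (X * B)) := by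
  have h1 : ∀ ω, ENNReal.ofReal (exp (X * G ω / s)) =
      ENNReal.ofReal (exp (X * B)) * ENNReal.ofReal (exp ((G ω - B * s) / (s / X))) := fun ω => by
    rw [← ENNReal.ofReal_mul (exp_pos _).le, ← exp_add]
    congr 2
    field_simp
    ring
  simp only [h1]
  rw [lintegral_const_mul' _ _ ENNReal.ofReal_ne_top, mul_comm 3,
    ENNReal.ofReal_mul (exp_pos _).le, ENNReal.ofReal_ofNat]
  exact mul_le_mul_right (dom_lintegral h) _

lemma par_mom' {G Y : Env → ℝ} {B s X : ℝ} (h : Dom (fun ω z => z = G ω) (B * s) (s / X))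
    (hs : 0 < s) (hX : 0 < X) (hY : ∀ ω, Y ω ≤ X * max (G ω) 0 / s) :
    ∫⁻ ω, ENNReal.ofReal (exp (Y ω)) ∂PE ≤ ENNReal.ofReal (1 + 3 * exp (X * B)) := by
  calc _ ≤ ∫⁻ ω, (1 + ENNReal.ofReal (exp (X * G ω / s))) ∂PE := by
        refine lintegral_mono fun ω => ?_
        rw [← ENNReal.ofReal_one, ← ENNReal.ofReal_add zero_le_one (exp_pos _).le]
        refine ENNReal.ofReal_le_ofReal ((exp_le_exp.2 (hY ω)).trans ?_)
        rcases le_total (G ω) 0 with h0 | h0
        · rw [max_eq_right h0, mul_zero, zero_div, exp_zero]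
          linarith [exp_pos (X * G ω / s)]
        · rw [max_eq_left h0]
          linarith
    _ ≤ _ := by
        rw [lintegral_add_left measurable_const, lintegral_const, measure_univ, mul_one,
          ENNReal.ofReal_add zero_le_one (by positivity), ENNReal.ofReal_one]
        exact add_le_add le_rfl (par_mom h hs hX)

/-- The case of a small variance. -/
lemma par_small {G Z : Env → ℝ} {E : Set Env} {C s X Γ : ℝ} (hG : Measurable G)
    (hZ : Measurable Z) (hE : MeasurableSet E) (hs : 0 < s) (hX : 1 ≤ X) (hC : 0 ≤ C)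
    (hΓ : 0 < Γ) (hP : PE E ≤ ENNReal.ofReal (1 / Γ))
    (h2 : ∫⁻ ω, ENNReal.ofReal (exp (2 * X * G ω / s)) ∂PE ≤ ENNReal.ofReal Γ)
    (h3 : ∫⁻ ω, ENNReal.ofReal (exp (Z ω)) ∂PE ≤ 3)
    (h4 : ∀ ω ∉ E, X * G ω / s ≤ X * C + Z ω) :
    Dom (fun ω z => z = G ω) ((C + 2) * s) (s / X) := by
  refine dom_single hG ?_
  have h5 : ∀ ω, (G ω - (C + 2) * s) / (s / X) = X * G ω / s - X * (C + 2) := fun ω => by
    field_simp
  have h6 : exp (-2) ≤ 1 / 3 := by
    rw [exp_neg, one_div]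
    exact inv_anti₀ (by norm_num) (by linarith [add_one_le_exp 2])
  calc _ ≤ ∫⁻ ω, (ENNReal.ofReal (1 / 3) * ENNReal.ofReal (exp (Z ω)) +
        (E.indicator (fun _ => ENNReal.ofReal Γ) ω +
          ENNReal.ofReal (1 / Γ) * ENNReal.ofReal (exp (2 * X * G ω / s)))) ∂PE := by
        refine lintegral_mono fun ω => ?_
        rw [h5]
        by_cases hω : ω ∈ E
        · refine le_add_left ?_
          rw [indicator_of_mem hω, ← ENNReal.ofReal_mul (by positivity),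
            ← ENNReal.ofReal_add hΓ.le (by positivity)]
          refine ENNReal.ofReal_le_ofReal ?_
          have h7 : exp (X * G ω / s - X * (C + 2)) ≤ exp (X * G ω / s) :=
            exp_le_exp.2 (by nlinarith)
          have h8 : exp (2 * X * G ω / s) = exp (X * G ω / s) ^ 2 := by
            rw [← exp_nat_mul]; congr 1; push_cast; ring
          refine h7.trans ?_
          rw [h8]
          have h9 := exp_pos (X * G ω / s)
          generalize exp (X * G ω / s) = u at h9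
          rw [← sub_nonneg]
          have : Γ + 1 / Γ * u ^ 2 - u = ((u - Γ) ^ 2 + u * Γ) / Γ := by field_simp; ring
          rw [this]
          positivity
        · refine le_add_right ?_
          rw [← ENNReal.ofReal_mul (by norm_num)]
          refine ENNReal.ofReal_le_ofReal ?_
          calc _ ≤ exp (-2 + Z ω) := exp_le_exp.2 (by nlinarith [h4 ω hω])
            _ ≤ _ := by
              rw [exp_add]
              exact mul_le_mul_of_nonneg_right h6 (exp_pos _).le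
    _ = ENNReal.ofReal (1 / 3) * ∫⁻ ω, ENNReal.ofReal (exp (Z ω)) ∂PE +
        (ENNReal.ofReal Γ * PE E +
          ENNReal.ofReal (1 / Γ) * ∫⁻ ω, ENNReal.ofReal (exp (2 * X * G ω / s)) ∂PE) := by
        rw [lintegral_add_left (by fun_prop), lintegral_add_right _ (by fun_prop),
          lintegral_const_mul' _ _ ENNReal.ofReal_ne_top,
          lintegral_const_mul' _ _ ENNReal.ofReal_ne_top, lintegral_indicator_const hE]
    _ ≤ ENNReal.ofReal (1 / 3) * ENNReal.ofReal 3 + (ENNReal.ofReal Γ * ENNReal.ofReal (1 / Γ) +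
          ENNReal.ofReal (1 / Γ) * ENNReal.ofReal Γ) := by
        gcongr
        rwa [ENNReal.ofReal_ofNat]
    _ = _ := by
        rw [← ENNReal.ofReal_mul (by norm_num), ← ENNReal.ofReal_mul hΓ.le,
          ← ENNReal.ofReal_mul (by positivity), mul_one_div_cancel hΓ.ne',
          one_div_mul_cancel hΓ.ne', ← ENNReal.ofReal_add zero_le_one zero_le_one,
          ← ENNReal.ofReal_add (by norm_num) (by norm_num)]
        norm_num

/-- Independent trials. -/
lemma par_indep (n : ℕ) {p : ℝ} (hp : 0 < p) {A : ℕ → Set Env} {I : ℕ → Finset EE}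
    (hm : ∀ j, MeasurableSet (A j)) (hd : ∀ j, DependsOn (fun ω => ω ∈ A j) (I j : Set EE))
    (hI : ∀ i j, i ≠ j → Disjoint (I i) (I j)) (hA : ∀ j, ENNReal.ofReal p ≤ PE (A j)) :
    PE {ω | ∀ j < n, ω ∉ A j} ≤ ENNReal.ofReal ((1 - min p 1) ^ n) := by
  have h1 := indep1 (Finset.range n) (W := fun j => (A j)ᶜ.indicator 1) (E := I)
    (fun j _ => measurable_one.indicator (hm j).compl)
    (fun j _ ω ω' h => by
      have : ω ∈ A j ↔ ω' ∈ A j := iff_of_eq (hd j h)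
      by_cases h2 : ω ∈ A j
      · rw [indicator_of_notMem (not_not.2 h2), indicator_of_notMem (not_not.2 (this.1 h2))]
      · rw [indicator_of_mem (mem_compl h2),
          indicator_of_mem (mem_compl fun h3 => h2 (this.2 h3))]
        rfl)
    fun i _ j _ h => hI i j h
  have h2 : MeasurableSet {ω | ∀ j < n, ω ∉ A j} := by
    simp only [ofPred_forall]
    exact MeasurableSet.iInter fun j => MeasurableSet.iInter fun _ => (hm j).compl
  calc _ = ∫⁻ ω, {ω | ∀ j < n, ω ∉ A j}.indicator 1 ω ∂PE := (lintegral_indicator_one h2).symm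
    _ ≤ ∫⁻ ω, ∏ j ∈ Finset.range n, (A j)ᶜ.indicator 1 ω ∂PE := by
        refine lintegral_mono fun ω => ?_
        by_cases hω : ω ∈ {ω | ∀ j < n, ω ∉ A j}
        · rw [indicator_of_mem hω]
          refine (Finset.prod_eq_one fun j hj => ?_).ge
          exact indicator_of_mem (mem_compl (hω j (Finset.mem_range.1 hj))) _
        · rw [indicator_of_notMem hω]
          exact zero_le
    _ ≤ ∏ _j ∈ Finset.range n, ENNReal.ofReal (1 - min p 1) := by
        rw [h1]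
        refine Finset.prod_le_prod' fun j _ => ?_
        rw [lintegral_indicator_one (hm j).compl, prob_compl_eq_one_sub (hm j),
          ENNReal.ofReal_sub _ (le_min hp.le zero_le_one), ENNReal.ofReal_one]
        exact tsub_le_tsub_left ((ENNReal.ofReal_le_ofReal (min_le_left _ _)).trans (hA j)) _
    _ = _ := by
        rw [Finset.prod_const, Finset.card_range,
          ENNReal.ofReal_pow (sub_nonneg.2 (min_le_right _ _))]

/-- Parallel tubes are disjoint. -/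
lemma par_disj {c : Bs} {K ϱ : ℝ} {f : Fd} (hc : c.Big K) (hF : Fr c.μ c.κ ϱ f) {K' : ℝ}
    (hK : 0 ≤ K') (o : VV) {i j : ℕ} (hij : i ≠ j) :
    Disjoint (Nb f c.m K' (o + fl ((i * (2 * K' + 2) * c.m) • f.t))).sym2
      (Nb f c.m K' (o + fl ((j * (2 * K' + 2) * c.m) • f.t))).sym2 := by
  classical
  rw [Finset.disjoint_left]
  intro e h1 h2
  have h3 := (Finset.mem_filter.1 (Finset.mem_sym2_iff.1 h1 _ (Sym2.out_fst_mem e))).2.2.2
  have h4 := (Finset.mem_filter.1 (Finset.mem_sym2_iff.1 h2 _ (Sym2.out_fst_mem e))).2.2.2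
  have h5 := hF.b_fl hc.tc ((i * (2 * K' + 2) * c.m) • f.t)
  have h6 := hF.b_fl hc.tc ((j * (2 * K' + 2) * c.m) • f.t)
  rw [map_smul, hF.bt, smul_eq_mul, mul_one] at h5 h6
  rw [iv_sub, iv_add, map_sub, map_add] at h3 h4
  have hκ := hc.κ_pos
  have hm := hc.m_pos
  have hs := hc.s_ge
  have hκm := hc.κm
  have h7 : ∀ x : ℝ, c.κ * |x| ≤ 8 → |x| ≤ c.m / 2 := fun x hx => by
    refine le_of_mul_le_mul_left (hx.trans ?_) hκ
    linarith
  have h8 := abs_le.1 (h7 _ h5)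
  have h9 := abs_le.1 (h7 _ h6)
  rw [abs_le] at h3 h4
  have h10 : 0 ≤ (2 * K' + 2) * c.m := by positivity
  rcases lt_or_gt_of_ne hij with h | h
  · have : (i : ℝ) + 1 ≤ j := by exact_mod_cast h
    nlinarith
  · have : (j : ℝ) + 1 ≤ i := by exact_mod_cast h
    nlinarith

/-- The origins of the tubes stay in a square. -/
lemma par_sq {c : Bs} {K : ℝ} {f : Fd} (hc : c.Big K) (hK : 1 ≤ K) (hF : Fr c.μ c.κ 1 f)
    {β : ℝ} (h0 : 0 ≤ β) (h1 : β ≤ 1) (o : VV) :
    Sq f (iv o - c.m • f.u - c.m • f.t) (3 * c.m) (o + fl ((β * c.m) • f.t)) := by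
  have h5 := hF.a_fl hc.tc ((β * c.m) • f.t)
  have h6 := hF.b_fl hc.tc ((β * c.m) • f.t)
  rw [map_smul, hF.at', smul_eq_mul, mul_zero] at h5
  rw [map_smul, hF.bt, smul_eq_mul, mul_one] at h6
  have hκ := hc.κ_pos
  have hm := hc.m_ge hK
  have hs := hc.s_ge
  have hκm := hc.κm
  have h7 : |f.b (iv (fl ((β * c.m) • f.t))) - β * c.m| ≤ c.m / 2 := by
    refine le_of_mul_le_mul_left (h6.trans ?_) hκ
    linarith
  rw [abs_le] at h5 h7
  have h8 : β * c.m ≤ c.m := mul_le_of_le_one_left (by linarith) h1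
  have h9 : 0 ≤ β * c.m := mul_nonneg h0 (by linarith)
  simp only [Sq, iv_add, map_sub, map_add, map_smul, hF.au, hF.at', hF.bu, hF.bt, smul_eq_mul]
  refine ⟨?_, ?_, ?_, ?_⟩ <;> linarith

theorem par : ∃ C : ℝ, 0 ≤ C ∧ ∀ X B K ϱ : ℝ, 1 ≤ X → 0 ≤ B → 0 ≤ K → ∃ l0 : ℝ, 0 < l0 ∧
    ∀ᶠ c in FB, ∀ (f f' : Fd) (l : ℝ), Fr c.μ c.κ 1 f → Fr c.μ c.κ ϱ f' → f'.t = l • f.t →
    0 < l → l ≤ l0 → ∀ o y : VV, 0 ≤ f'.a (iv y) → f'.a (iv y) ≤ 4 * c.m →
    c.μ (iv y) ≤ f'.L (iv y) + B * c.s → c.μ (iv y) ≤ f.L (iv y) + K * c.s →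
    Dom (fun ω z => z = c.μ (iv y) - TT ω o (o + y)) (C * c.s) (c.s / X) := by
  obtain ⟨B1, hB1, e1⟩ := est_ev 55 (X := 1) le_rfl
  refine ⟨B1 + 3 + 2, by linarith, fun X B K ϱ hX hB hK => ?_⟩
  obtain ⟨B2, -, e2⟩ := est_ev 55 (X := 2 * X) (by linarith)
  obtain ⟨B3, -, e3⟩ := est_ev 55 (X := 3 * X) (by linarith)
  obtain ⟨ε, hε, hsv⟩ := smallVar (1 + 3 * exp (3 * X * B3))
  obtain ⟨Cl, hCl, e4⟩ := lowEvent (N := 3) (η := 1 / 4) (by norm_num) 55 (by norm_num)
  obtain ⟨θ, hθ, hq⟩ := qfix (a := √ε / X) (ρ := Cl + K + 1) (by positivity) (by positivity)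
  obtain ⟨B4, -, e5⟩ := est_ev 55 (X := max (2 * θ) 1) (le_max_right _ _)
  obtain ⟨p, hp, hq⟩ := hq (1 + 3 * exp (max (2 * θ) 1 * B4))
  obtain ⟨n, hn⟩ := exists_pow_lt_of_lt_one (x := (1 / 4 : ℝ)) (y := 1 - min p 1) (by norm_num)
    (by linarith [lt_min hp zero_lt_one])
  obtain ⟨K', hK1, -, e6⟩ := exitTube ϱ B (K := B + 8) (η := 1 / (3 * exp (2 * X * B2)))
    (by linarith) (by positivity)
  have hK0 : (0 : ℝ) ≤ K' := Nat.cast_nonneg _
  refine ⟨1 / ((n + 1) * (2 * K' + 2)), by positivity, ?_⟩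
  filter_upwards [e1, e2, e3, e4, e5, e6, ev_big 1, ev_big θ, ev_big (12 * ϱ + (ϱ + 1) * B)]
    with c e1 e2 e3 e4 e5 e6 hc hcθ hcϱ f f' l hf hf' ht hl0 hl o y ha0 ha4 hy' hy
  have hs := hc.s_pos
  have hm := hc.m_pos
  have hκ := hc.κ_pos
  have hκm := hc.κm
  obtain ⟨g1, g2⟩ := hf'.of_cheap hy'
  rw [abs_of_nonneg ha0] at g1 g2
  have hb : |f'.b (iv y)| ≤ (B + 8) * c.m := by
    refine le_of_mul_le_mul_left (g1.trans ?_) hκ
    rw [← hκm]
    nlinarith
  have hμ : c.μ (iv y) ≤ 5 * c.m := by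
    have h1 := hcϱ.Ks
    have h2 := hf'.ϱge
    have h3 : c.κ * f'.a (iv y) ≤ 4 * c.s := by rw [← hκm]; nlinarith
    nlinarith
  have hn1 : ∀ o : VV, n1 (o + y - o) ≤ 55 * c.m := fun o => by
    rw [add_sub_cancel_left, ← r1_iv]
    linarith [hc.tc.ge (iv y)]
  replace e1 := (e1 o (o + y) (hn1 o)).2
  replace e2 := (e2 o (o + y) (hn1 o)).2
  replace e3 := (e3 o (o + y) (hn1 o)).2
  replace e5 := (e5 o (o + y) (hn1 o)).2
  rw [add_sub_cancel_left] at e1 e2 e3 e5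
  have hc0 := hc.tc.nonneg (iv y)
  obtain ⟨γ, hT⟩ := sg_TC (Nb f' c.m K' o) hc0 o (o + y)
  have hcap : ∀ ω, TC (Nb f' c.m K' o) (c.μ (iv y)) o (o + y) ω ≤ c.μ (iv y) := TC_le_cap
  have hmin : ∀ ω, c.μ (iv y) - TC (Nb f' c.m K' o) (c.μ (iv y)) o (o + y) ω ≤
      max (c.μ (iv y) - TT ω o (o + y)) 0 := fun ω => by
    have := min_le_TC (A := Nb f' c.m K' o) (K := c.μ (iv y)) (q := o) (q' := o + y) ω
    rcases min_le_iff.1 this with h | h
    · exact le_max_of_le_left (by linarith)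
    · exact le_max_of_le_right (by linarith)
  have hG : Measurable fun ω => c.μ (iv y) - TT ω o (o + y) := by fun_prop
  by_cases hv : (√ε / X) ^ 2 * c.s ^ 2 ≤ Var[TC (Nb f' c.m K' o) (c.μ (iv y)) o (o + y); PE]
  · exfalso
    have h1 := hq _ γ _ _ _ hT hcθ.s_ge' hcap hv (par_mom' e5 hs (by positivity) fun ω => by
      gcongr
      exacts [sub_nonneg.2 (hcap ω), le_max_left _ _, hmin ω])
    set d : ℕ → VV := fun j => fl ((j * (2 * K' + 2) * c.m) • f'.t) with hd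
    have h2 := par_indep n hp
      (A := fun j => {ω | TC (Nb f' c.m K' (o + d j)) (c.μ (iv y)) (o + d j) (o + d j + y) ω ≤
        c.μ (iv y) - (Cl + K + 1) * c.s})
      (I := fun j => (Nb f' c.m K' (o + d j)).sym2)
      (fun j => measurableSet_le (measurable_TC _ _ _ _) measurable_const)
      (fun j ω ω' h => by simp only [mem_ofPred_eq]; rw [dependsOn_TC _ _ _ _ h])
      (fun i j h => par_disj hc hf' hK0 o h) fun j => h1.trans (le_of_eq (by
        rw [← (measurePreserving_tau (d j)).measure_preimage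
          (measurableSet_le hT.meas measurable_const).nullMeasurableSet]
        simp only [TC_tau, preimage_ofPred_eq]))
    obtain ⟨E, -, hE, hE'⟩ := e4 1 f (iv o - c.m • f.u - c.m • f.t)
      (iv (o + y) - c.m • f.u - c.m • f.t) hf
    have h3 : (univ : Set Env) ⊆ E ∪ {ω | ∀ j < n, ω ∉ {ω |
        TC (Nb f' c.m K' (o + d j)) (c.μ (iv y)) (o + d j) (o + d j + y) ω ≤
          c.μ (iv y) - (Cl + K + 1) * c.s}} := fun ω _ => by
      by_cases hω : ω ∈ E
      · exact Or.inl hω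
      refine Or.inr fun j hj h => ?_
      have h4 : d j = fl ((j * (2 * K' + 2) * l * c.m) • f.t) := by
        simp only [hd, ht, smul_smul]
        congr 2
        ring
      have h5 : j * (2 * K' + 2) * l ≤ 1 := by
        rw [le_div_iff₀ (by positivity)] at hl
        have h6 : (j : ℝ) ≤ n + 1 := by exact_mod_cast (by omega : j ≤ n + 1)
        have h7 := mul_le_mul_of_nonneg_right h6 (show 0 ≤ (2 * K' + 2) * l by positivity)
        linarith
      have h6 := hE' ω hω (o + d j) (o + d j + y)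
        (by rw [h4]; exact par_sq hc le_rfl hf (by positivity) h5 o)
        (by rw [add_right_comm, h4]; exact par_sq hc le_rfl hf (by positivity) h5 (o + y))
        (hn1 _)
      rw [add_sub_cancel_left] at h6
      have h7 : 0 ≤ c.κ * |f.b (iv y)| := by positivity
      have h8 : 0 ≤ (Cl + K) * c.s := by positivity
      rcases min_le_iff.1 ((min_le_TC ω).trans h) with h9 | h9 <;> linarith
    have h4 := (measure_mono (μ := PE) h3).trans ((measure_union_le _ _).trans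
      (add_le_add hE (h2.trans (ENNReal.ofReal_le_ofReal hn.le))))
    rw [measure_univ, ← ENNReal.ofReal_add (by norm_num) (by norm_num),
      ENNReal.one_le_ofReal] at h4
    norm_num at h4
  · obtain ⟨E, hE1, hE2, hE3⟩ := e6 f' o hf'
    set T := TC (Nb f' c.m K' o) (c.μ (iv y)) o (o + y) with hTd
    have hi : Integrable T PE := hT.memLp.integrable one_le_two
    have hM : ∫ ω, T ω ∂PE ≤ c.μ (iv y) := by
      simpa using integral_mono hi (integrable_const _) hcap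
    have hM' : c.μ (iv y) - ∫ ω, T ω ∂PE ≤ (B1 + 3) * c.s := by
      obtain ⟨h1, h2⟩ := dom_pos hG e1 (by positivity) (by positivity)
      have h3 := integral_mono ((integrable_const _).sub hi) h1 hmin
      simp only [Pi.sub_apply] at h3
      rw [integral_sub (integrable_const _) hi] at h3
      simp only [integral_const, probReal_univ, smul_eq_mul, one_mul] at h3
      linarith
    have hZ : Measurable fun ω => X / c.s * (∫ ω, T ω ∂PE - T ω) :=
      (measurable_const.sub hT.meas).const_mul _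
    refine par_small hG hZ hE1 hs hX (by linarith) (by positivity) hE2
      (par_mom e2 hs (by linarith))
      (hsv hZ (((memLp_const _).sub hT.memLp).const_mul _) ?_ ?_
        (par_mom' e3 hs (by linarith) fun ω => ?_)) fun ω hω => ?_
    · rw [integral_const_mul, integral_sub (integrable_const _) hi]
      simp
    · have h1 : ∀ ω, (X / c.s * (∫ ω, T ω ∂PE - T ω)) ^ 2 =
          (X / c.s) ^ 2 * (T ω - ∫ ω, T ω ∂PE) ^ 2 := fun ω => by ring
      simp only [h1]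
      rw [integral_const_mul, ← variance_eq_integral hT.meas.aemeasurable]
      refine (mul_le_mul_of_nonneg_left (not_le.1 hv).le (by positivity)).trans (le_of_eq ?_)
      rw [div_pow (√ε), sq_sqrt hε.le]
      field_simp
    · calc 3 * (X / c.s * (∫ ω, T ω ∂PE - T ω)) = 3 * X * (∫ ω, T ω ∂PE - T ω) / c.s := by ring
        _ ≤ _ := by
          gcongr
          linarith [hmin ω]
    · have h1 : T ω ≤ TT ω o (o + y) := TC_le_TT fun x hx hx' => hE3 ω hω o (o + y) x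
        (by
          simp only [In, sub_self, iv_zero, map_zero, abs_zero]
          exact ⟨by linarith, by linarith, by positivity⟩)
        (by
          simp only [In, add_sub_cancel_left]
          exact ⟨by linarith, by linarith, hb⟩)
        (by rw [add_sub_cancel_left]; linarith) hx
      rw [div_le_iff₀ hs]
      calc X * (c.μ (iv y) - TT ω o (o + y))
          ≤ X * ((B1 + 3) * c.s + (∫ ω, T ω ∂PE - T ω)) := by
            gcongr
            linarith
        _ = _ := by field_simp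

end Pool.Agent.Lib.MP_de94ef_pr.Q
end

-- part Pool.Agent.Lib.MP_de94ef_pr.Q.Thin
section

/-!
Thin directions.
-/

open MeasureTheory ProbabilityTheory Set Real Function Filter Topology
open scoped ENNReal NNReal

namespace Pool.Agent.Lib.MP_de94ef_pr.Q

/-- Gains between anchors in a thin frame. -/
lemma thin_mid : ∃ C : ℝ, 0 ≤ C ∧ ∀ X K : ℝ, 1 ≤ X → 0 ≤ K → ∃ l0 : ℝ, 0 < l0 ∧
    ∀ᶠ c in FB, ∀ (f f' : Fd) (l : ℝ), Fr c.μ c.κ 1 f → Thin c.μ c.κ K l f f' → l ≤ l0 →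
    ∀ (m' w : ℝ) (j : ℤ) (z : ℝ × ℝ), c.m ≤ m' → m' ≤ 2 * c.m → 0 ≤ w → 4 * w ≤ c.m →
    Dom (fun ω x => x = f'.L (vq f' m' w j) - TT ω (fl z) (fl (z + vq f' m' w j)))
      (C * c.s - c.κ * w * |(j : ℝ)| / 2) (c.s / X) := by
  obtain ⟨Cp, hCp, hpar⟩ := par
  refine ⟨Cp + 9, by linarith, fun X K hX hK => ?_⟩
  obtain ⟨B, hB, hest⟩ := est_ev (11 * (100 * (2 * K + 4))) hX
  obtain ⟨l0, hl0, hpar⟩ := hpar X (2 * B) (2 * B + 4 * K + (K + 3) * (2 * B + 8)) (2 * K + 4) hX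
    (by linarith) (by positivity)
  refine ⟨l0, hl0, ?_⟩
  filter_upwards [hest, hpar, ev_big (10 ^ 7 * (2 * K + 4) * X)] with c hest hpar hc f f' l hF hT
    hl m' w j z h1 h2 hw0 hw
  have h := hc.tc
  have hF' := hT.fr
  have hs := hc.s_ge
  have hs' := hc.s_ge'
  have hκm := hc.κm
  have hκ := hc.κ_pos
  have hm : 10 ^ 30 ≤ c.m := hc.m_ge (by nlinarith)
  have hS : 10 ^ 7 * (2 * K + 4) ≤ c.s / X := by rw [le_div_iff₀ (by linarith)]; exact hs'
  have hS0 : 0 < c.s / X := by nlinarith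
  have ha : f'.a (vq f' m' w j) = m' + 3 * w := hF'.a_pt _ _
  have hb : f'.b (vq f' m' w j) = j * w := hF'.b_pt _ _
  generalize vq f' m' w j = v at *
  obtain ⟨y, hy⟩ : ∃ y, y = fl (z + v) - fl z := ⟨_, rfl⟩
  have hy' : fl (z + v) = fl z + y := by rw [hy]; abel
  have hr : r1 (iv y - v) ≤ 2 := by
    have := r1_fl_sub (z + v) z
    rwa [add_sub_cancel_left, ← hy] at this
  rw [hy']
  generalize fl z = o at *
  have a1 := abs_le.1 ((hF'.a_r1 h (iv y - v)).trans hr)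
  have a2 : c.κ * |f'.b (iv y - v)| ≤ 8 := (hF'.b_r1 h (iv y - v)).trans (by linarith)
  have a3 := abs_le.1 ((hF'.L_r1 h (iv y - v)).trans (by linarith : _ ≤ (4 : ℝ)))
  rw [map_sub] at a1 a2 a3
  rw [ha] at a1
  rw [hb] at a2
  have a4 : 0 ≤ f'.a (iv y) := by linarith
  have a5 : f'.a (iv y) ≤ 4 * c.m := by linarith
  have a6 : c.κ * f'.a (iv y) ≤ 4 * c.s := by nlinarith
  have a7 := hF'.low' (iv y)
  rw [abs_of_nonneg a4] at a7
  have a8 : c.κ * w * |(j : ℝ)| ≤ c.κ * |f'.b (iv y)| + 8 := by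
    have e1 : |(j : ℝ) * w| ≤ |f'.b (iv y)| + |f'.b (iv y) - j * w| := by
      have := abs_sub_le ((j : ℝ) * w) (f'.b (iv y)) 0
      have := abs_sub (f'.b (iv y)) (f'.b (iv y) - j * w)
      rwa [sub_sub_cancel] at this
    rw [abs_mul, abs_of_nonneg hw0] at e1
    nlinarith
  have a9 : 0 ≤ c.κ * w * |(j : ℝ)| := by positivity
  have hsC : 0 ≤ Cp * c.s := by positivity
  have hsB : 0 ≤ B * c.s := by positivity
  rcases le_or_gt (c.μ (iv y)) (f'.L (iv y) + 2 * B * c.s) with he | he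
  · have b1 := hT.cmp hF (v := iv y) (by rw [← hT.ha]; exact a4)
    have b2 := (hF'.of_cheap he).1
    rw [abs_of_nonneg a4] at b2
    rw [← hT.ha] at b1
    have b3 : (K + 3) * c.κ * |f'.b (iv y)| ≤ (K + 3) * ((2 * B + 8) * c.s) := by
      rw [mul_assoc]
      exact mul_le_mul_of_nonneg_left (by linarith) (by linarith)
    have b4 : K * c.κ * f'.a (iv y) ≤ K * (4 * c.s) := by
      rw [mul_assoc]
      exact mul_le_mul_of_nonneg_left a6 hK
    refine (hpar f f' l hF hF' hT.ht hT.pos hl o y a4 a5 he (by linarith)).mono hS0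
      fun ω x hx => ⟨_, rfl, ?_⟩
    rw [hx]
    linarith
  rcases le_or_gt (c.μ (iv y)) (100 * (2 * K + 4) * c.m) with hD | hD
  · have b1 := h.ge (iv y)
    rw [r1_iv] at b1
    refine (hest o (o + y) (by rw [add_sub_cancel_left]; linarith)).2.mono hS0
      fun ω x hx => ⟨_, rfl, ?_⟩
    rw [hx, add_sub_cancel_left]
    linarith
  · have b1 := h.ge (iv y)
    rw [r1_iv] at b1
    have b2 := hF'.low2 h (iv y) a4
    have b3 := h.le_hh y
    have hϱ : 0 < 2 * K + 4 := by linarith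
    obtain ⟨q, hq⟩ : ∃ q, c.μ (iv y) = q * (2 * K + 4) :=
      ⟨c.μ (iv y) / (2 * K + 4), by field_simp⟩
    have b4 : 100 * c.m < q := by
      rw [hq] at hD
      exact lt_of_mul_lt_mul_right (by linarith) hϱ.le
    have b5 : c.μ (iv y) / (2 * (2 * K + 4)) = q / 2 := by rw [hq]; field_simp
    have b6 : 46000 * (2 * (11 * c.μ (iv y)) + 1) / (c.s / X) ≤ q / 8 := by
      rw [div_le_iff₀ hS0, hq]
      have : q / 8 * (10 ^ 7 * (2 * K + 4)) ≤ q / 8 * (c.s / X) :=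
        mul_le_mul_of_nonneg_left hS (by linarith)
      nlinarith
    refine (dom_gauss o (o + y) (n := 11 * c.μ (iv y)) (s := c.s / X)
      (by rw [add_sub_cancel_left]; linarith) (by nlinarith) (Or.inr rfl)).mono hS0
      fun ω x hx => ⟨_, rfl, ?_⟩
    rw [hx, add_sub_cancel_left]
    linarith

lemma thin_pow {X : ℝ} (hX : 1 ≤ X) : ∃ J : ℕ, 2 ≤ J ∧ (3 / 4 : ℝ) ^ J ≤ 1 / (800 * X) ∧
    (2 : ℝ) ^ J ≤ exp (60 * X) := by
  have h1 := Nat.le_ceil X
  have h2 := Nat.ceil_lt_add_one (by linarith : 0 ≤ X)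
  obtain ⟨k, hk⟩ : ∃ k, ⌈X⌉₊ = k + 1 := ⟨⌈X⌉₊ - 1, by
    have : 0 < ⌈X⌉₊ := Nat.ceil_pos.2 (by linarith)
    omega⟩
  rw [hk] at h1 h2
  refine ⟨30 * (k + 1), by omega, ?_, ?_⟩
  · have a1 : (3 / 4 : ℝ) ^ 30 ≤ 1 / 800 * (1 / 2) := by norm_num
    have a2 : ((k + 1 : ℕ) : ℝ) ≤ 2 ^ (k + 1) := by exact_mod_cast Nat.lt_two_pow_self.le
    have a3 : (1 / 800 : ℝ) ^ (k + 1) ≤ 1 / 800 := by
      rw [pow_succ]
      exact mul_le_of_le_one_left (by norm_num) (pow_le_one₀ (by norm_num) (by norm_num))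
    have a4 : (1 / 2 : ℝ) ^ (k + 1) ≤ 1 / X := by
      rw [one_div_pow]
      exact one_div_le_one_div_of_le (by linarith) (by linarith)
    calc (3 / 4 : ℝ) ^ (30 * (k + 1)) ≤ (1 / 800 * (1 / 2)) ^ (k + 1) := by
          rw [pow_mul]
          exact pow_le_pow_left₀ (by positivity) a1 _
      _ ≤ 1 / 800 * (1 / X) := by
          rw [mul_pow]
          exact mul_le_mul a3 a4 (by positivity) (by norm_num)
      _ = _ := by field_simp
  · calc (2 : ℝ) ^ (30 * (k + 1)) ≤ exp 1 ^ (30 * (k + 1)) :=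
          pow_le_pow_left₀ (by norm_num) (by linarith [add_one_le_exp (1 : ℝ)]) _
      _ = exp ((30 * (k + 1) : ℕ) * 1) := (exp_nat_mul _ _).symm
      _ ≤ _ := by
          refine exp_le_exp.2 ?_
          push_cast at *
          linarith

theorem thinMgf : ∃ C : ℝ, 0 ≤ C ∧ ∀ X K : ℝ, 1 ≤ X → 0 ≤ K → ∃ l0 : ℝ, 0 < l0 ∧
    ∀ᶠ c in FB, ∀ (f f' : Fd) (l : ℝ), Fr c.μ c.κ 1 f → Thin c.μ c.κ K l f f' → l ≤ l0 →
    ∀ (x y : VV) (n : ℕ) (m' : ℝ), 1 ≤ n → c.m ≤ m' → m' ≤ 2 * c.m →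
    iv (y - x) = ((n : ℝ) * m') • f'.u →
    Dom (fun ω z => z = c.μ (iv (y - x)) - TT ω x y) (C * n * c.s) (c.s / X) := by
  obtain ⟨C, hC, hmid⟩ := thin_mid
  obtain ⟨B, hB, hext⟩ := ext_ev (X := 1) le_rfl
  refine ⟨C + 200 * B + 4005 + 65, by linarith, fun X K hX hK => ?_⟩
  obtain ⟨l0, hl0, hmid⟩ := hmid (2 * X) K (by linarith) hK
  obtain ⟨J, hJ2, hJ3, hJ4⟩ := thin_pow hX
  refine ⟨l0, hl0, ?_⟩
  filter_upwards [hmid, hext, ev_big (2 ^ J), ev_big 100] with c hmid hext hc hc' f f' l hF hT hl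
    x y n m' hn h1 h2 hxy
  have h := hc.tc
  have hσ := hc.sc
  have hF' := hT.fr
  have hs := hc.s_ge
  have hκm := hc.κm
  have hκ := hc.κ_pos
  have hm := hc.m_pos
  have hR := hc'.large
  have hJ0 : (0 : ℝ) < 2 ^ J := by positivity
  have hJ5 : (4 : ℝ) ≤ 2 ^ J := by
    have := pow_le_pow_right₀ (by norm_num : (1 : ℝ) ≤ 2) hJ2
    linarith
  have hS0 : 0 < c.s / X := by have := hc.s_pos; positivity
  have hS1 : c.s / (2 * X) = c.s / X / 2 := by field_simp
  obtain ⟨w, hw⟩ : ∃ w, w = c.m / 2 ^ J := ⟨_, rfl⟩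
  have w1 : 1 ≤ w := by
    rw [hw, le_div_iff₀ hJ0]
    have := hc.Ks
    nlinarith
  have w2 : 4 * w ≤ c.m := by
    rw [hw, ← mul_div_assoc, div_le_iff₀ hJ0]
    nlinarith
  have w3 : c.κ * w = c.s / 2 ^ J := by rw [hw, ← mul_div_assoc, hκm]
  have w4 : c.κ * w ≤ c.s := by nlinarith
  have w5 : c.σ w ≤ c.s := hσ.mono _ _ (by linarith) (by linarith)
  have w6 : 400 * c.σ w ≤ c.s / X / 2 := by
    have a1 := hσ.pow_half hm.le J
    rw [← hw] at a1
    have a2 : (3 / 4 : ℝ) ^ J * c.s ≤ 1 / (800 * X) * c.s :=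
      mul_le_mul_of_nonneg_right hJ3 (by linarith)
    have a3 : 1 / (800 * X) * c.s = c.s / X / 800 := by field_simp
    change c.σ w ≤ _ * c.s at a1
    linarith
  have w7 := hσ.big w w1
  have hD : ∀ (M : ℕ) (k j : ℤ), Dom (Blk f'.u f'.t f'.L m' w M k (k + j))
      ((C + 200 * B + 4005) * c.s - c.κ * w * |(j : ℝ)| / 2) (c.s / X) := fun M k j => by
    have a1 := blockF h hσ hF' hB le_rfl hext.1 w1 (by linarith) (by linarith)
      (S := c.s / (2 * X)) (by rw [hS1]; linarith)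
      (fun z => hmid f f' l hF hT hl m' w j z h1 h2 (by linarith) w2) M k
    refine (a1.scale (by rw [hS1]; linarith) (by rw [hS1]; linarith)).mono hS0
      fun ω a ha => ⟨a, ha, ?_⟩
    have a2 : (100 * B + 2000) * c.σ w ≤ (100 * B + 2000) * c.s :=
      mul_le_mul_of_nonneg_left w5 (by linarith)
    linarith
  have hT1 := treeF h hF' (by linarith) (by linarith) hS0 hD 0 hn hxy
  have hL : f'.L (iv (y - x)) = c.μ (iv (y - x)) := by
    rw [hxy, map_smul, h.smul _ _ (by have : 0 ≤ m' := by linarith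
                                      positivity), hT.Lu, smul_eq_mul]
  have hε : 0 < X / 2 ^ J / 2 := by positivity
  have hsum : ∑' j : ℤ, ENNReal.ofReal (exp (-(X / 2 ^ J / 2) * |(j : ℝ)|)) ≤
      ENNReal.ofReal (exp (62 * X)) := by
    refine (tsum_exp_abs_le hε).trans (ENNReal.ofReal_le_ofReal ?_)
    have a1 : 2 / (X / 2 ^ J / 2) ≤ 4 * 2 ^ J := by
      rw [div_le_iff₀ hε]
      have : 4 * 2 ^ J * (X / 2 ^ J / 2) = 2 * X := by field_simp; ring
      linarith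
    have a2 : 5 ≤ exp (2 * X) := by
      have b1 : exp 2 ≤ exp (2 * X) := exp_le_exp.2 (by linarith)
      have b2 : exp 2 = exp 1 * exp 1 := by rw [← exp_add]; norm_num
      nlinarith [exp_one_gt_d9]
    rw [show 62 * X = 2 * X + 60 * X by ring, exp_add]
    nlinarith
  have hG := G_le hsum (A := (C + 200 * B + 4005) * X)
    (g := fun j : ℤ => ((C + 200 * B + 4005) * c.s - c.κ * w * |(j : ℝ)| / 2) / (c.s / X) + 0 * j)
    (fun j => le_of_eq (by
      have := hc.s_pos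
      rw [w3]; field_simp; ring))
  have hT2 := hT1.trans (pow_le_pow_left' hG n)
  rw [hL, ← ENNReal.ofReal_pow (by positivity)] at hT2
  refine dom_single (by fun_prop) ?_
  rw [lintegral_shift x y (g := fun t => ENNReal.ofReal (exp ((c.μ (iv (y - x)) - t -
    (C + 200 * B + 4005 + 65) * n * c.s) / (c.s / X)))) (by fun_prop)]
  have e1 : ∀ t : ℝ, exp ((c.μ (iv (y - x)) - t - (C + 200 * B + 4005 + 65) * n * c.s) / (c.s / X)) =
      exp (-((C + 200 * B + 4005 + 65) * X)) ^ n * exp ((c.μ (iv (y - x)) - t) / (c.s / X)) := by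
    intro t
    have := hc.s_pos
    rw [← exp_nat_mul, ← exp_add]; congr 1; field_simp; ring
  simp only [e1, ENNReal.ofReal_mul (pow_nonneg (exp_pos _).le _)]
  rw [lintegral_const_mul' _ _ (by simp)]
  refine (mul_le_mul_right hT2 _).trans ?_
  rw [← ENNReal.ofReal_mul (by positivity), ← mul_pow]
  refine ENNReal.ofReal_le_ofReal (le_trans (pow_le_one₀ (by positivity) ?_) (by norm_num))
  have a1 : 3 ≤ exp (3 * X) := by linarith [add_one_le_exp (3 * X)]
  calc _ ≤ exp (-((C + 200 * B + 4005 + 65) * X)) *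
        (exp (3 * X) * exp ((C + 200 * B + 4005) * X + 62 * X)) := by gcongr
    _ = 1 := by rw [← exp_add, ← exp_add, ← exp_zero]; congr 1; ring

/-- The chord between two anchors is fat or has concentrated gains. -/
lemma thin_chord : ∃ C : ℝ, 0 ≤ C ∧ ∀ X : ℝ, 1 ≤ X → ∃ CF : ℝ, 0 ≤ CF ∧ ∀ Y : ℕ, ∃ L0 : ℕ,
    ∀ Lt : ℕ, L0 ≤ Lt → ∀ᶠ c in FB, ∀ f : Fd, Fr c.μ c.κ 1 f → ∀ (Δ : ℝ × ℝ) (P P' : VV),
      Lt * c.m ≤ f.a Δ → f.a Δ ≤ (2 * Lt + 1) * c.m →
      r1 (iv (P' - P) - (Δ + (3 * c.m) • f.u)) ≤ 2 → c.μ (iv (P' - P)) ≤ 50 * (Lt : ℝ) * c.m →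
      Cheap c.μ f Δ (Y * c.m) (CF * Lt * c.s) ∨
        Dom (fun ω x => x = f.L (iv (P' - P)) - TT ω P P') (C * Lt * c.s) (c.s / X) := by
  obtain ⟨C, hC, hthin⟩ := thinMgf
  refine ⟨3 * C + 6, by linarith, fun X hX => ?_⟩
  obtain ⟨B, hB, hlong⟩ := extLong hX
  obtain ⟨K, hK⟩ : ∃ K, K = 50 * B := ⟨_, rfl⟩
  have hK0 : 0 ≤ K := by linarith
  obtain ⟨l0, hl0, hthin⟩ := hthin X K hX hK0
  refine ⟨8 * K + 16, by linarith, fun Y => ?_⟩
  obtain ⟨L1, hL1⟩ := exists_nat_ge (((Y + 1) + (K + 2) * (Y + 4)) / l0)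
  refine ⟨L1 + Y + 5, fun Lt hLt => ?_⟩
  have hLt' : (L1 : ℝ) + Y + 5 ≤ Lt := by exact_mod_cast hLt
  have hY : (0 : ℝ) ≤ Y := Nat.cast_nonneg _
  have hL1' : (0 : ℝ) ≤ L1 := Nat.cast_nonneg _
  filter_upwards [hlong, hthin, ev_big (2 * K + 5)] with c hlong hthin hc f hF Δ P P' d1 d2 hr hμ
  have h := hc.tc
  have hs := hc.s_ge
  have hκm := hc.κm
  have hκ := hc.κ_pos
  have hm : 10 ^ 30 ≤ c.m := hc.m_ge (by linarith)
  have hS0 : 0 < c.s / X := by have := hc.s_pos; positivity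
  have hLm : 5 * c.m ≤ Lt * c.m := by nlinarith
  have hLs : 5 * c.s ≤ Lt * c.s := by nlinarith
  have a1 := abs_le.1 ((hF.a_r1 h _).trans hr)
  have a2 : c.κ * |f.b (iv (P' - P) - (Δ + (3 * c.m) • f.u))| ≤ 8 :=
    (hF.b_r1 h _).trans (by linarith)
  specialize hlong P P'
  replace hthin := fun f' l h1 h2 => hthin f f' l hF h1 h2 P P'
  generalize iv (P' - P) = y at *
  simp only [map_sub, map_add, map_smul, hF.au, hF.bu, smul_eq_mul, mul_one, mul_zero,
    add_zero] at a1 a2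
  have a3 : |f.b y - f.b Δ| ≤ c.m := by
    refine le_of_mul_le_mul_left (a2.trans ?_) hκ
    linarith
  obtain ⟨al, hal⟩ : ∃ al, al = f.a y := ⟨_, rfl⟩
  rw [← hal] at a1
  have l1 : Lt * c.m ≤ al := by linarith
  have l2 : al ≤ 3 * (Lt * c.m) := by linarith
  have l3 : 0 < al := by linarith
  have l4 : c.κ * al ≤ 3 * (Lt * c.s) := by
    have := mul_le_mul_of_nonneg_left l2 hκ.le
    rw [← hκm]; linarith
  have l5 : 0 ≤ C * (Lt * c.s) := by have := hc.s_pos; positivity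
  rcases lt_or_ge (f.L y + K * c.κ * al) (c.μ y) with he | he
  · refine Or.inr ((hlong (by linarith [hF.ha y])).mono hS0 fun ω x hx => ⟨_, rfl, ?_⟩)
    have b1 : B * (c.μ y / c.m) * c.s = B * c.κ * c.μ y := by
      have := hc.m_pos
      rw [← hκm]; field_simp
    have b2 : B * c.κ * c.μ y ≤ B * c.κ * (50 * al) :=
      mul_le_mul_of_nonneg_left (by linarith) (by positivity)
    rw [hx, b1]
    rw [hK] at he
    linarith
  have hu1 : f.a (al⁻¹ • y) = 1 := by rw [map_smul, ← hal, smul_eq_mul, inv_mul_cancel₀ l3.ne']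
  have hu2 : c.μ (al⁻¹ • y) ≤ f.L (al⁻¹ • y) + K * c.κ := by
    rw [h.smul _ _ (by positivity), map_smul, smul_eq_mul]
    have := mul_le_mul_of_nonneg_left he (inv_pos.2 l3).le
    have e : al⁻¹ * (f.L y + K * c.κ * al) = al⁻¹ * f.L y + K * c.κ := by field_simp
    linarith
  obtain ⟨l, f', hfu, hT, hb'⟩ := exists_thin h hF hK0 hc.Kκ hu1 hu2
  rcases le_or_gt l l0 with hl | hl
  · have n1 : 1 ≤ ⌊al / c.m⌋₊ := Nat.le_floor (by
      rw [le_div_iff₀ hc.m_pos]; push_cast; linarith)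
    have n2 := Nat.floor_le (a := al / c.m) (by have := hc.m_pos; positivity)
    have n3 := Nat.lt_floor_add_one (al / c.m)
    generalize ⌊al / c.m⌋₊ = n at *
    have n4 : (1 : ℝ) ≤ n := by exact_mod_cast n1
    rw [le_div_iff₀ hc.m_pos] at n2
    rw [div_lt_iff₀ hc.m_pos] at n3
    have n5 : (n : ℝ) ≤ 3 * Lt := le_of_mul_le_mul_right (by linarith) hc.m_pos
    refine Or.inr ((hthin f' l hT hl n (al / n) n1 (by rw [le_div_iff₀ (by linarith)]; linarith)
      (by rw [div_le_iff₀ (by linarith)]; nlinarith) ?_).mono hS0 fun ω x hx => ⟨_, rfl, ?_⟩)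
    · rw [hfu, mul_div_cancel₀ _ (by linarith), smul_inv_smul₀ l3.ne']
    · have b1 := hF.low' y
      rw [← hal, abs_of_pos l3] at b1
      have b2 : 0 ≤ c.κ * |f.b y| := by positivity
      have b3 : C * n * c.s ≤ C * (3 * Lt) * c.s := by have := hc.s_pos; gcongr
      rw [hx]
      linarith
  · refine Or.inl fun ζ z1 z2 => ?_
    rw [map_sub] at z1 z2
    have z3 := abs_le.1 z1
    have hb := hF.abs_b_le hu1 hu2
    have hYm : (L1 + Y + 5) * c.m ≤ Lt * c.m := by nlinarith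
    have hL1m : 0 ≤ L1 * c.m := by have := hc.m_pos; positivity
    have hYm' : 0 ≤ Y * c.m := by have := hc.m_pos; positivity
    have z4 : L1 * c.m ≤ f.a ζ := by linarith
    have z5 : f.a ζ ≤ 4 * (Lt * c.m) := by linarith
    have z6 : |f.a ζ - al| ≤ (Y + 4) * c.m := abs_le.2 ⟨by linarith, by linarith⟩
    have z7 : |f.b ζ - f.b y| ≤ (Y + 1) * c.m := by
      have := abs_sub_le (f.b ζ) (f.b Δ) (f.b y)
      rw [abs_sub_comm (f.b Δ)] at this
      linarith
    have z8 : f.b y = f.b (al⁻¹ • y) * al := by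
      rw [map_smul, smul_eq_mul]; field_simp
    have z9 : |f'.b ζ| ≤ f.a ζ := by
      rw [hb', abs_div, abs_of_pos hT.pos, div_le_iff₀ hT.pos]
      have e : f.b ζ - f.b (al⁻¹ • y) * f.a ζ =
          (f.b ζ - f.b y) - f.b (al⁻¹ • y) * (f.a ζ - al) := by rw [mul_sub, ← z8]; ring
      have c1 := abs_sub (f.b ζ - f.b y) (f.b (al⁻¹ • y) * (f.a ζ - al))
      have c2 : |f.b (al⁻¹ • y)| * |f.a ζ - al| ≤ (K + 2) * ((Y + 4) * c.m) :=
        mul_le_mul hb z6 (abs_nonneg _) (by linarith)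
      rw [abs_mul] at c1
      rw [div_le_iff₀ hl0] at hL1
      have c3 := mul_le_mul_of_nonneg_right hL1 hc.m_pos.le
      have c4 : L1 * c.m * l0 ≤ f.a ζ * l := mul_le_mul z4 hl.le hl0.le (by linarith)
      rw [e]
      linarith
    have c1 := hT.fr.up ζ (by rw [hT.ha]; exact z9)
    have c2 := hT.cmp hF (v := ζ) (by linarith)
    rw [hT.ha] at c1
    have c3 : (K + 3) * c.κ * |f'.b ζ| ≤ (K + 3) * c.κ * f.a ζ :=
      mul_le_mul_of_nonneg_left z9 (by positivity)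
    have c4 : c.κ * f.a ζ ≤ 4 * (Lt * c.s) := by
      have := mul_le_mul_of_nonneg_left z5 hκ.le
      rw [← hκm]; linarith
    have c5 := mul_le_mul_of_nonneg_left c4 (by linarith : 0 ≤ 2 * K + 4)
    linarith

theorem tame : ∃ C : ℝ, 0 ≤ C ∧ ∀ X : ℝ, 1 ≤ X → ∃ CF : ℝ, 0 ≤ CF ∧ ∀ Y : ℕ, ∃ L0 : ℕ,
    ∀ Lt : ℕ, L0 ≤ Lt → ∀ᶠ c in FB, ∀ f : Fd, Fr c.μ c.κ 1 f → Tame c f Y CF Lt C X := by
  obtain ⟨C, hC, hch⟩ := thin_chord
  refine ⟨C + 1, by linarith, fun X hX => ?_⟩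
  obtain ⟨CF, hCF, hch⟩ := hch (3 * X) (by linarith)
  obtain ⟨B, hB, hanch⟩ := anch (N := 1) (X := 3 * X) le_rfl (by linarith)
  refine ⟨CF, hCF, fun Y => ?_⟩
  obtain ⟨L0, hch⟩ := hch Y
  obtain ⟨L1, hL1⟩ := exists_nat_ge (2 * B)
  refine ⟨L0 + L1 + 7, fun Lt hLt => ?_⟩
  have hLt' : (L0 : ℝ) + L1 + 7 ≤ Lt := by exact_mod_cast hLt
  have hL0 : (0 : ℝ) ≤ L0 := Nat.cast_nonneg _
  have hL1' : (0 : ℝ) ≤ L1 := Nat.cast_nonneg _
  filter_upwards [hch Lt (by omega), hanch, ev_big 1] with c hch hanch hc f hF i k i' k' hi hi'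
  have h := hc.tc
  have hs := hc.s_pos
  have hm : 10 ^ 30 ≤ c.m := hc.m_ge le_rfl
  have hS0 : 0 < c.s / (3 * X) := by positivity
  have i1 : (i : ℝ) + Lt ≤ i' := by exact_mod_cast hi
  have i2 : (i' : ℝ) ≤ i + 2 * Lt + 1 := by exact_mod_cast hi'
  have hΔ : f.a (zc f c.m i' k' - zc f c.m i k) = ((i' : ℝ) - i) * c.m := by
    rw [map_sub, zc, zc, hF.a_pt, hF.a_pt]; ring
  generalize zc f c.m i k = z at *
  generalize zc f c.m i' k' = z' at *
  simp only [one_mul] at hanch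
  have hA := (hanch 1 f z (fl (z - c.m • f.u)) hF).1 ((r1_fl _).trans (by norm_num))
  have hA' := (hanch 1 f z' (fl (z' + (2 * c.m) • f.u)) hF).2 ((r1_fl _).trans (by norm_num))
  have hr := r1_fl_sub (z' + (2 * c.m) • f.u) (z - c.m • f.u)
  have e1 : z' + (2 * c.m) • f.u - (z - c.m • f.u) = z' - z + (3 * c.m) • f.u := by module
  rw [e1] at hr
  generalize fl (z - c.m • f.u) = P at *
  generalize fl (z' + (2 * c.m) • f.u) = P' at *
  by_cases hne : ∃ ω x, Gn f c.m (22 * ((i' : ℝ) - i) * c.m) z z' ω x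
  swap
  · push Not at hne
    exact Or.inr (dom_empty hne)
  obtain ⟨-, -, q, q', ⟨s1, s2, s3, s4⟩, ⟨t1, t2, t3, t4⟩, hq, -⟩ := hne
  have d1 : Lt * c.m ≤ ((i' : ℝ) - i) * c.m := mul_le_mul_of_nonneg_right (by linarith) (by linarith)
  have d2 : ((i' : ℝ) - i) * c.m ≤ (2 * Lt + 1) * c.m :=
    mul_le_mul_of_nonneg_right (by linarith) (by linarith)
  have hμ : c.μ (iv (P' - P)) ≤ 50 * Lt * c.m := by
    have b1 := h.le_add (iv (P' - P)) (z' - z + (3 * c.m) • f.u)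
    have b2 := h.add (z' - z) ((3 * c.m) • f.u)
    rw [h.smul _ _ (by linarith)] at b2
    have b3 := mul_le_mul_of_nonneg_left hF.hu (by linarith : 0 ≤ 3 * c.m)
    have b4 := hF.le h (iv q - z)
    have b5 := hF.le h (iv q' - z')
    rw [abs_of_nonneg s1, abs_of_nonneg s3] at b4
    rw [abs_of_nonneg t1, abs_of_nonneg t3] at b5
    have b6 := h.le (iv (q' - q))
    rw [r1_iv] at b6
    have b7 := h.add (iv (q' - q)) (iv q - z)
    have b8 := h.add (iv (q' - q) + (iv q - z)) (-(iv q' - z'))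
    have e2 : iv (q' - q) + (iv q - z) + -(iv q' - z') = z' - z := by rw [iv_sub]; abel
    rw [e2, h.neg] at b8
    have b9 : 7 * c.m ≤ Lt * c.m := mul_le_mul_of_nonneg_right (by linarith) (by linarith)
    linarith
  refine (hch f hF (z' - z) P P' (by linarith) (by linarith) hr hμ).imp_right fun hD => ?_
  have h1 := hD.add hA hS0 hS0 (C := fun ω x => ∃ q, Sq f z c.m q ∧
      x = f.L (iv (P' - q)) - TT ω q P') (fun ω x ⟨q, hq, hx⟩ => ⟨_, _, rfl, ⟨q, hq, rfl⟩, by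
    have := TT_triangle ω P q P'
    simp only [hx, iv_sub, map_sub]
    linarith⟩)
  have h2 := h1.add hA' (by linarith) hS0 (C := Gn f c.m (22 * ((i' : ℝ) - i) * c.m) z z')
    (fun ω x ⟨q, q', hq, hq', _, hx⟩ => ⟨_, _, ⟨q, hq, rfl⟩, ⟨q', hq', rfl⟩, by
      have := TT_triangle ω q q' P'
      simp only [hx, iv_sub, map_sub]
      linarith⟩)
  have e3 : c.s / (3 * X) + c.s / (3 * X) + c.s / (3 * X) = c.s / X := by field_simp; ring
  rw [e3] at h2
  refine h2.mono (by positivity) fun ω x hx => ⟨x, hx, ?_⟩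
  have : 2 * B * c.s ≤ Lt * c.s := mul_le_mul_of_nonneg_right (by linarith) hs.le
  linarith

end Pool.Agent.Lib.MP_de94ef_pr.Q
end
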