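import Pool.Agent.Lib.MP_de94ef_pr.Q.Trunc
import Pool.Agent.Lib.MP_de94ef_pr.Q.Mean

-- part Pool.Agent.Lib.MP_de94ef_pr.Q.Crude
section

/-!
Crude large deviation estimates and confinement of geodesics.
-/

open MeasureTheory ProbabilityTheory Set Real Function Filter Topology
open scoped ENNReal NNReal

namespace Pool.Agent.Lib.MP_de94ef_pr.Q

lemma measurableSet_Cr (μ : ℝ × ℝ → ℝ) (o : VV) (ρ : ℕ) (s : ℝ) :
    MeasurableSet {ω | Cr μ o ρ s ω} := by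
  have : {ω | Cr μ o ρ s ω} =
      ⋂ q ∈ box o ρ, ⋂ q' ∈ box o ρ, {ω | |TT ω q q' - μ (iv (q' - q))| ≤ s} := by
    ext ω
    simp [Cr]
  rw [this]
  exact Finset.measurableSet_biInter _ fun q _ => Finset.measurableSet_biInter _ fun q' _ =>
    measurableSet_le (by fun_prop) measurable_const

lemma crude_pow (k : ℕ) {c C : ℝ} (hc : 0 < c) (hC : 0 < C) :
    ∃ r0 : ℝ, 1 ≤ r0 ∧ ∀ r, r0 ≤ r → C * r ^ k ≤ exp (c * r) := by
  obtain ⟨r0, h⟩ := eventually_atTop.1 ((isLittleO_pow_exp_pos_mul_atTop k hc).bound (inv_pos.2 hC))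
  refine ⟨max r0 1, le_max_right _ _, fun r hr => ?_⟩
  have h1 := h r ((le_max_left _ _).trans hr)
  rw [Real.norm_eq_abs, Real.norm_eq_abs, abs_of_pos (exp_pos _), le_inv_mul_iff₀ hC] at h1
  exact (mul_le_mul_of_nonneg_left (le_abs_self _) hC.le).trans h1

lemma crude_box_mono {o w : VV} {ρ ρ' : ℕ} (h : ρ ≤ ρ') (hw : w ∈ box o ρ) : w ∈ box o ρ' := by
  rw [mem_box] at hw ⊢
  omega

lemma crude_Cr_mono {μ : ℝ × ℝ → ℝ} {o : VV} {ρ ρ' : ℕ} {s : ℝ} {ω : Env} (h : ρ ≤ ρ')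
    (hC : Cr μ o ρ' s ω) : Cr μ o ρ s ω := fun q hq q' hq' =>
  hC q (crude_box_mono h hq) q' (crude_box_mono h hq')

theorem crude {K : ℝ} (hK : 1 ≤ K) : ∃ c ρ0 : ℝ, 0 < c ∧ ∀ μ, IsTC μ → ∀ (o : VV) (ρ : ℕ) (s : ℝ),
    ρ0 ≤ ρ → ρ / K ≤ s → PE {ω | ¬ Cr μ o ρ s ω} ≤ ENNReal.ofReal (exp (-c * ρ)) := by
  classical
  obtain ⟨B, hB, hU⟩ := mean_bound
  have hK0 : 0 < K := by linarith
  obtain ⟨m0, hm0, hm⟩ := sig_small (ε := 1 / (16 * (B + 1) * K)) (by positivity)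
  obtain ⟨S, hS⟩ : ∃ S : ℝ, S = 2000000 * K := ⟨_, rfl⟩
  have hS0 : 0 < S := by rw [hS]; positivity
  obtain ⟨c, hc⟩ : ∃ c : ℝ, c = 1 / (8 * K * S) := ⟨_, rfl⟩
  have hc0 : 0 < c := by rw [hc]; positivity
  obtain ⟨r0, hr0, hr⟩ := crude_pow 4 hc0 (C := 162) (by norm_num)
  refine ⟨c, max m0 r0, hc0, fun μ hμ o ρ s hρ hs => ?_⟩
  have h1 : (1 : ℝ) ≤ ρ := hr0.trans ((le_max_right _ _).trans hρ)
  have h2 := hr ρ ((le_max_right _ _).trans hρ)
  have h3 : B * sig (4 * ρ) ≤ ρ / K / 4 := by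
    have a1 := hm (4 * ρ) (by linarith [(le_max_left _ _).trans hρ])
    have a2 : (B + 1) * (1 / (16 * (B + 1) * K) * (4 * ρ)) = ρ / K / 4 := by field_simp; ring
    have a3 := sig_nonneg (4 * (ρ : ℝ))
    nlinarith
  have h4 : 46000 * (2 * (4 * (ρ : ℝ)) + 1) / S ≤ ρ / K / 4 := by
    rw [hS, div_div, div_le_div_iff₀ (by positivity) (by positivity)]
    nlinarith [mul_le_mul_of_nonneg_right h1 hK0.le]
  have hD : Dom (fun ω z => ∃ i ∈ (box o ρ ×ˢ box o ρ) ×ˢ ({1, -1} : Finset ℝ),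
      z = i.2 * (TT ω i.1.1 i.1.2 - μ (iv (i.1.2 - i.1.1)))) (ρ / K / 2 + S * (c * ρ)) S := by
    refine dom_union ((box o ρ ×ˢ box o ρ) ×ˢ ({1, -1} : Finset ℝ))
      (F := fun i ω z => z = i.2 * (TT ω i.1.1 i.1.2 - μ (iv (i.1.2 - i.1.1)))) hS0 ?_ ?_
      fun ω z h => h
    · rintro ⟨⟨q, q'⟩, ε⟩ hi
      simp only [Finset.mem_product, Finset.mem_insert, Finset.mem_singleton] at hi
      have a1 := n1_le_of_mem_box hi.1.1 hi.1.2
      refine (dom_gauss q q' a1 (s := S) (by linarith) hi.2).mono hS0 fun ω z hz => ⟨_, rfl, ?_⟩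
      have a2 := hU μ hμ (4 * ρ) (q' - q) (4 * ρ) ((hμ.le _).trans a1) le_rfl
      have a3 := hμ.le_hh (q' - q)
      have a4 : 0 ≤ (ρ : ℝ) / K := by positivity
      simp only at hz
      rcases hi.2 with rfl | rfl <;> linarith
    · rw [Finset.card_product, Finset.card_product, card_box, Finset.card_pair (by norm_num)]
      push_cast
      refine le_trans ?_ h2
      have a1 : (2 * (ρ : ℝ) + 1) ^ 4 ≤ (3 * ρ) ^ 4 := by gcongr; linarith
      nlinarith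
  obtain ⟨E, -, hE, hE'⟩ := dom_event hD hS0 (2 * (c * ρ))
  refine (measure_mono fun ω hω => ?_).trans (hE.trans (ENNReal.ofReal_le_ofReal ?_))
  · by_contra h
    refine hω fun q hq q' hq' => ?_
    have a1 := hE' ω h _ ⟨((q, q'), 1), by simp [hq, hq'], rfl⟩
    have a2 := hE' ω h _ ⟨((q, q'), -1), by simp [hq, hq'], rfl⟩
    have a3 : S * (c * ρ) = ρ / K / 8 := by rw [hc]; field_simp
    have a4 : 0 ≤ (ρ : ℝ) / K := by positivity
    simp only at a1 a2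
    rw [abs_le]
    constructor <;> nlinarith
  · have a1 : 3 ≤ exp (c * ρ) := by nlinarith [one_le_pow₀ (n := 4) h1]
    rw [show -c * ρ = c * ρ + -(2 * (c * ρ)) by ring, exp_add]
    exact mul_le_mul_of_nonneg_right a1 (exp_pos _).le

theorem crude_ev (ρ' : ℝ) {η : ℝ} (hη : 0 < η) : ∀ᶠ c in FB, ∀ (o : VV) (ρ : ℕ), ρ ≤ ρ' * c.m →
    PE {ω | ¬ Cr c.μ o ρ (c.m / 100) ω} ≤ ENNReal.ofReal η := by
  obtain ⟨r, hr1, hr⟩ : ∃ r : ℝ, 1 ≤ r ∧ ρ' ≤ r := ⟨max 1 ρ', le_max_left _ _, le_max_right _ _⟩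
  obtain ⟨b, ρ0, hb, h⟩ := crude (K := 200 * r) (by linarith)
  obtain ⟨r0, hr0, h0⟩ := crude_pow 0 hb (inv_pos.2 hη)
  filter_upwards [ev_big (max ρ0 r0)] with c hc o ρ hρ
  have h1 := hc.one
  have h2 : max ρ0 r0 ≤ c.m := by
    have a1 := hc.Ks
    have a2 := hc.s_ge
    have a3 := le_max_right ρ0 r0
    nlinarith
  have h3 := Nat.le_ceil (r * c.m)
  have h4 := Nat.ceil_lt_add_one (a := r * c.m) (by positivity)
  have h5 : c.m ≤ ⌈r * c.m⌉₊ := by nlinarith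
  have h6 : ρ ≤ ⌈r * c.m⌉₊ := by
    have : (ρ : ℝ) ≤ ⌈r * c.m⌉₊ := by nlinarith
    exact_mod_cast this
  refine le_trans (measure_mono fun ω hω hC => hω (crude_Cr_mono h6 hC))
    ((h c.μ hc.tc o _ (c.m / 100) ((le_max_left _ _).trans (h2.trans h5)) ?_).trans
      (ENNReal.ofReal_le_ofReal ?_))
  · rw [div_le_iff₀ (by positivity)]
    nlinarith
  · have a1 := h0 _ ((le_max_right _ _).trans (h2.trans h5))
    rw [pow_zero, mul_one, inv_le_comm₀ hη (exp_pos _), ← exp_neg] at a1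
    rwa [neg_mul]

lemma crude_mu_zero {μ : ℝ × ℝ → ℝ} (h : IsTC μ) (q : VV) : μ (iv (q - q)) = 0 := by
  simpa using h.smul 0 0 le_rfl

/-- Almost optimal paths stay in an ellipse. -/
theorem conf_path {μ : ℝ × ℝ → ℝ} (h : IsTC μ) {o q q' : VV} {ρ : ℕ} {s : ℝ} {ω : Env}
    (hs : 0 ≤ s)
    (hA : ∀ w, μ (iv (w - q)) + μ (iv (q' - w)) ≤ μ (iv (q' - q)) + 3 * s + 1 → w ∈ box o ρ)
    (hC : Cr μ o (ρ + 1) s ω) {p : GG.Walk q q'} (hp : p.IsPath)
    (hw : wt ω (es p) ≤ TT ω q q' + 1) :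
    ∀ w ∈ p.support, μ (iv (w - q)) + μ (iv (q' - w)) ≤ μ (iv (q' - q)) + 3 * s + 1 := by
  have hq : q ∈ box o ρ := hA q (by rw [crude_mu_zero h]; linarith)
  have hq' : q' ∈ box o ρ := hA q' (by rw [crude_mu_zero h]; linarith)
  have key : ∀ w ∈ box o (ρ + 1), TT ω q w + TT ω w q' ≤ wt ω (es p) →
      μ (iv (w - q)) + μ (iv (q' - w)) ≤ μ (iv (q' - q)) + 3 * s + 1 := fun w hw1 hw2 => by
    have a1 := abs_le.1 (hC q (crude_box_mono ρ.le_succ hq) w hw1)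
    have a2 := abs_le.1 (hC w hw1 q' (crude_box_mono ρ.le_succ hq'))
    have a3 := abs_le.1 (hC q (crude_box_mono ρ.le_succ hq) q' (crude_box_mono ρ.le_succ hq'))
    linarith [a1.1, a2.1, a3.2]
  by_cases h1 : ∀ w ∈ p.support, w ∈ (box o ρ : Set VV)
  · exact fun w hw1 => key w (crude_box_mono ρ.le_succ (h1 w hw1)) (split_vertex hp hw1 ω)
  · obtain ⟨w, w', a1, a2, a3, -, -, a4⟩ := exit_vertex hp _ hq h1 ω
    refine absurd (hA w' (key w' ?_ a4)) a2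
    have a5 : |w'.1 - w.1| + |w'.2 - w.2| = 1 := a3
    have a6 := abs_le.1 (show |w'.1 - w.1| ≤ 1 by linarith [abs_nonneg (w'.2 - w.2)])
    have a7 := abs_le.1 (show |w'.2 - w.2| ≤ 1 by linarith [abs_nonneg (w'.1 - w.1)])
    rw [Finset.mem_coe, mem_box] at a1
    rw [mem_box]
    omega

theorem conf {μ : ℝ × ℝ → ℝ} (h : IsTC μ) {A : Finset VV} {o q q' : VV} {ρ : ℕ} {s θ : ℝ}
    {ω : Env} (hs : 0 ≤ s)
    (hA : ∀ w, μ (iv (w - q)) + μ (iv (q' - w)) ≤ μ (iv (q' - q)) + 3 * s + 1 →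
      w ∈ A ∧ w ∈ box o ρ)
    (hC : Cr μ o (ρ + 1) s ω) (hθ : TT ω q q' < θ) : Reach A q q' θ ω := by
  obtain ⟨p, hp, hw⟩ := exists_lt_TT (lt_min hθ (lt_add_one (TT ω q q')))
  exact ⟨p, fun w hw1 => (hA w (conf_path h hs (fun w hw => (hA w hw).2) hC hp
    (hw.le.trans (min_le_right _ _)) w hw1)).1, hw.le.trans (min_le_left _ _)⟩

lemma crude_nice {μ : ℝ × ℝ → ℝ} (h : IsTC μ) {a : ℝ × ℝ →ₗ[ℝ] ℝ} {v : VV} {s s' : ℝ} {ω : Env}
    (ha : ∀ z, a z ≤ μ z) (hv : a (iv v) = μ (iv v)) (hn : 1 ≤ n1 v) (h0 : 0 ≤ s')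
    (h1 : 4 * s' ≤ s) (h2 : 400 * s' ≤ n1 v) (hC : Cr μ 0 (30 * ⌈n1 v⌉₊ + 1) s' ω) :
    Nice μ a v s ω := by
  have hg : IsGeo ω (geo v ω) := by
    refine ⟨geo_isPath v ω, le_of_forall_gt_imp_ge_of_dense fun θ hθ => ?_⟩
    obtain ⟨p, hp, hw⟩ := conf (A := Lam v) h h0 (fun w hw => and_self_iff.2 (mem_box_of_n1 (by
      have a1 := h.ge (iv (w - 0))
      have a2 := h.le (iv (v - 0))
      have a3 := h.nonneg (iv (v - w))
      have a4 := Nat.le_ceil (n1 v)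
      rw [r1_iv] at a1 a2
      rw [sub_zero v] at a2 hw
      push_cast
      linarith))) hC hθ
    exact (geo_le v ω p hp).trans hw
  refine ⟨hg, fun k k' hk hk' => ?_⟩
  have hm : ∀ j, (geo v ω).getVert j ∈ box 0 (30 * ⌈n1 v⌉₊ + 1) := fun j =>
    crude_box_mono (Nat.le_succ _) (geo_mem v ω _ ((geo v ω).getVert_mem_support j))
  have a1 := wt_Es_add hg.1 (Nat.zero_le k) hk hk' ω
  have a2 := wt_Es_add hg.1 (Nat.zero_le k') hk' le_rfl ω
  rw [a1, hg.wt_Es (Nat.zero_le _) le_rfl, hg.wt_Es (Nat.zero_le _) (hk.trans hk'),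
    hg.wt_Es hk hk', hg.wt_Es hk' le_rfl] at a2
  have a3 := abs_le.1 (hC _ (hm 0) _ (hm k))
  have a4 := abs_le.1 (hC _ (hm k) _ (hm k'))
  have a5 := abs_le.1 (hC _ (hm k') _ (hm (geo v ω).length))
  have a6 := abs_le.1 (hC _ (hm 0) _ (hm (geo v ω).length))
  simp only [SimpleGraph.Walk.getVert_zero, SimpleGraph.Walk.getVert_length, sub_zero] at a2 a3 a5 a6
  have a7 := ha (iv ((geo v ω).getVert k))
  have a8 := ha (iv (v - (geo v ω).getVert k'))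
  rw [iv_sub, map_sub] at a8
  rw [iv_sub v] at a5
  conv_rhs => rw [iv_sub, map_sub]
  linarith [a3.1, a4.1, a5.1, a6.2]

theorem nice_prob {K η : ℝ} (hK : 1 ≤ K) (hη : 0 < η) : ∃ n0 : ℝ, ∀ μ, IsTC μ →
    ∀ (a : ℝ × ℝ →ₗ[ℝ] ℝ) (v : VV) (s : ℝ), (∀ z, a z ≤ μ z) → a (iv v) = μ (iv v) → n0 ≤ n1 v →
    n1 v / K ≤ s → Rare μ a v s η := by
  obtain ⟨b, ρ0, hb, h⟩ := crude (K := 24400 * K) (by linarith)
  obtain ⟨r0, hr0, h0⟩ := crude_pow 2 hb (C := 4 / η) (by positivity)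
  refine ⟨max ρ0 r0, fun μ hμ a v s ha hv hn hs => ?_⟩
  have h1 : 1 ≤ n1 v := hr0.trans ((le_max_right _ _).trans hn)
  have h2 := Nat.le_ceil (n1 v)
  have h3 := Nat.ceil_lt_add_one (n1_nonneg v)
  have h4 : n1 v ≤ (30 * ⌈n1 v⌉₊ + 1 : ℕ) := by push_cast; linarith
  have h5 : n1 v / K ≤ n1 v := div_le_self (n1_nonneg v) hK
  have h6 : 0 ≤ n1 v / K := div_nonneg (n1_nonneg v) (by linarith)
  refine le_trans (measure_mono fun ω hω hC => hω (crude_nice hμ ha hv h1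
    (by linarith) (by linarith) (by linarith) hC))
    ((h μ hμ 0 _ (n1 v / K / 400) ((le_max_left _ _).trans (hn.trans h4)) ?_).trans
      (ENNReal.ofReal_le_ofReal ?_))
  · rw [div_div, div_le_div_iff₀ (by positivity) (by positivity)]
    push_cast
    nlinarith [mul_le_mul_of_nonneg_right (show 30 * (⌈n1 v⌉₊ : ℝ) + 1 ≤ 61 * n1 v by linarith)
      (show 0 ≤ K by linarith)]
  · have a1 := (h0 _ ((le_max_right _ _).trans hn)).trans
      (exp_le_exp.2 (mul_le_mul_of_nonneg_left h4 hb.le))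
    rw [neg_mul, exp_neg, inv_le_comm₀ (exp_pos _) (by positivity), inv_div]
    refine le_trans ?_ a1
    rw [div_mul_eq_mul_div]
    gcongr
    nlinarith

variable {μ : ℝ × ℝ → ℝ} {a : ℝ × ℝ →ₗ[ℝ] ℝ} {v : VV} {s : ℝ}

lemma Rare.mono {η η' : ℝ} (h : Rare μ a v s η) (hη : η ≤ η') : Rare μ a v s η' :=
  le_trans h (ENNReal.ofReal_le_ofReal (div_le_div_of_nonneg_right hη (sq_nonneg _)))

lemma Rare.le {η : ℝ} (h : Rare μ a v s η) (hη : 0 ≤ η) :
    PE {ω | ¬ Nice μ a v s ω} ≤ ENNReal.ofReal η :=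
  le_trans h (ENNReal.ofReal_le_ofReal
    (div_le_self hη (one_le_pow₀ (by linarith [n1_nonneg v]))))

lemma crude_sq_le {x : ℝ} (hx : 0 ≤ x) : x ^ 2 ≤ 2 * exp x := by
  linarith [quadratic_le_exp_of_nonneg hx]

lemma crude_memLp_wt (J : Finset EE) : MemLp (fun ω : Env => wt ω J) 2 PE := by
  refine (memLp_two_iff_integrable_sq (measurable_wt J).aestronglyMeasurable).2
    (((integrable_exp_wt J).const_mul 8).mono' (by fun_prop) (ae_of_all _ fun ω => ?_))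
  have := crude_sq_le (x := 1 / 2 * wt ω J) (by linarith [wt_nonneg ω J])
  rw [Real.norm_eq_abs, abs_of_nonneg (sq_nonneg _)]
  linarith

lemma crude_real {η : ℝ} (h : Rare μ a v s η) (hη : 0 ≤ η) :
    PE.real {ω | ¬ Nice μ a v s ω} ≤ η / (n1 v + 1) ^ 2 :=
  ENNReal.toReal_le_of_le_ofReal (by positivity) h

lemma stair_sq (h : Rare μ a v s (1 / 800)) :
    ∫ ω in {ω | ¬ Nice μ a v s ω}, wt ω (es (stair 0 v)) ^ 2 ∂PE ≤ 1 := by
  have hn := n1_nonneg v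
  have hI := (integrable_exp_wt (es (stair 0 v))).const_mul (32 * exp (-(5 * (n1 v + 1))))
  have h1 : ∫ ω in {ω | ¬ Nice μ a v s ω}, wt ω (es (stair 0 v)) ^ 2 ∂PE ≤
      ∫ ω in {ω | ¬ Nice μ a v s ω}, (400 * (n1 v + 1) ^ 2 +
        32 * exp (-(5 * (n1 v + 1))) * exp (1 / 2 * wt ω (es (stair 0 v)))) ∂PE := by
    refine integral_mono (crude_memLp_wt _).integrable_sq.restrict
      ((integrable_const _).add hI.restrict) fun ω => ?_
    have a0 := wt_nonneg ω (es (stair 0 v))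
    simp only
    generalize wt ω (es (stair 0 v)) = W at a0
    rw [mul_assoc, ← exp_add]
    rcases le_total W (20 * (n1 v + 1)) with a1 | a1
    · nlinarith [exp_pos (-(5 * (n1 v + 1)) + 1 / 2 * W)]
    · have a2 := crude_sq_le (x := W / 4) (by linarith)
      have a3 := exp_le_exp.2 (show W / 4 ≤ -(5 * (n1 v + 1)) + 1 / 2 * W by linarith)
      nlinarith [sq_nonneg (n1 v + 1)]
  rw [integral_add (integrable_const _) hI.restrict, setIntegral_const, smul_eq_mul] at h1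
  have h2 := mul_le_mul_of_nonneg_right (crude_real h (by norm_num))
    (show 0 ≤ 400 * (n1 v + 1) ^ 2 by positivity)
  have h3 : 1 / 800 / (n1 v + 1) ^ 2 * (400 * (n1 v + 1) ^ 2) = 1 / 2 := by field_simp; norm_num
  have h4 := setIntegral_le_integral (s := {ω | ¬ Nice μ a v s ω}) hI
    (ae_of_all _ fun ω => by positivity)
  have h5 := mul_le_mul_of_nonneg_left
    (integral_exp_wt_le (n := n1 v) ((card_stair 0 v).trans (by rw [sub_zero])))
    (show 0 ≤ 32 * exp (-(5 * (n1 v + 1))) by positivity)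
  rw [← integral_const_mul, mul_assoc, ← exp_add] at h5
  have h6 : exp (-(5 * (n1 v + 1)) + n1 v) ≤ 1 / 64 := by
    refine (exp_le_exp.2 (show _ ≤ -((5 : ℕ) * 1 : ℝ) by push_cast; linarith)).trans ?_
    rw [exp_neg, exp_nat_mul, one_div]
    refine inv_anti₀ (by norm_num) (le_trans (by norm_num) (pow_le_pow_left₀ (by norm_num)
      exp_one_gt_d9.le 5))
  linarith

lemma memLp_TT (x y : VV) : MemLp (fun ω => TT ω x y) 2 PE :=
  (crude_memLp_wt (es (stair x y))).mono' (measurable_TT x y).aestronglyMeasurable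
    (ae_of_all _ fun ω => by
      rw [Real.norm_eq_abs, abs_of_nonneg (TT_nonneg _ _ _)]; exact TT_le ω _)

lemma crude_memLp_TB (v : VV) : MemLp (TB v) 2 PE :=
  (crude_memLp_wt (es (stair 0 v))).mono' (measurable_TB v).aestronglyMeasurable
    (ae_of_all _ fun ω => by
      rw [Real.norm_eq_abs, abs_of_nonneg (show 0 ≤ TB v ω from wt_nonneg _ _)]
      exact TB_le_stair v ω)

theorem var_TT_le (h : Rare μ a v s (1 / 800)) :
    Var[fun ω => TT ω 0 v; PE] ≤ 2 * Var[TB v; PE] + 2 := by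
  have hE : MeasurableSet {ω | ¬ Nice μ a v s ω} := (measurableSet_Nice μ a v s).compl
  have h1 := stair_sq h
  rw [← integral_indicator hE] at h1
  have h2 := ((crude_memLp_wt (es (stair 0 v))).integrable_sq.indicator hE).const_mul 2
  have h3 := (((crude_memLp_TB v).sub (memLp_const (∫ ω, TB v ω ∂PE))).integrable_sq).const_mul 2
  have h4 := (memLp_TT 0 v).sub (memLp_const (∫ ω, TB v ω ∂PE))
  rw [← variance_sub_const (measurable_TT 0 v).aestronglyMeasurable (∫ ω, TB v ω ∂PE),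
    variance_eq_integral (measurable_TB v).aemeasurable]
  refine (variance_le_expectation_sq h4.aestronglyMeasurable).trans
    ((integral_mono h4.integrable_sq (h3.add h2) fun ω => ?_).trans ?_)
  · have a1 := TT_le_TB v ω
    have a2 := TB_le_stair v ω
    have a3 := TT_nonneg ω 0 v
    simp only [Pi.add_apply, Pi.sub_apply]
    by_cases hω : Nice μ a v s ω
    · have a4 : TB v ω ≤ TT ω 0 v := hω.1.2
      rw [indicator_of_notMem (by simpa using hω), le_antisymm a1 a4]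
      nlinarith [sq_nonneg (TB v ω - ∫ ω, TB v ω ∂PE)]
    · rw [indicator_of_mem (by simpa using hω)]
      nlinarith [sq_nonneg (2 * TB v ω - TT ω 0 v - ∫ ω, TB v ω ∂PE),
        pow_le_pow_left₀ (sub_nonneg.2 a1) (show TB v ω - TT ω 0 v ≤ wt ω (es (stair 0 v)) by
          linarith) 2]
  · rw [integral_add' h3 h2, integral_const_mul, integral_const_mul]
    simp only [Pi.sub_apply]
    linarith

theorem cert_odd (h : Rare μ a v s (1 / 800)) (P : Env → Set EE) :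
    Cert P (Odd μ a v s) 1 2 := by
  have hE : MeasurableSet {ω | ¬ Nice μ a v s ω} := (measurableSet_Nice μ a v s).compl
  have hI := (crude_memLp_TB v).integrable one_le_two
  have hp : MeasurePreserving (Prod.snd : Om → Env) P2 PE := measurePreserving_snd
  refine ⟨fun _ => 1, fun ω => {ω | ¬ Nice μ a v s ω}.indicator (TB v) ω.2, measurable_const,
    by simp, (hp.integrable_comp (hI.indicator hE).aestronglyMeasurable).2 (hI.indicator hE), ?_,
    fun ζ X X' _ _ => ?_⟩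
  · have h1 := (crude_memLp_wt (es (stair 0 v))).integrable_sq
    have h2 : ∫ ω in {ω | ¬ Nice μ a v s ω}, TB v ω ∂PE ≤
        ∫ ω in {ω | ¬ Nice μ a v s ω}, (1 + wt ω (es (stair 0 v)) ^ 2) ∂PE :=
      integral_mono hI.restrict ((integrable_const _).add h1.restrict) fun ω => by
        nlinarith [TB_le_stair v ω, sq_nonneg (wt ω (es (stair 0 v)) - 1)]
    rw [integral_add (integrable_const _) h1.restrict, setIntegral_const, smul_eq_mul,
      ← integral_indicator hE, ← hp.map_eq, integral_map measurable_snd.aemeasurable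
        ((measurable_TB v).indicator hE).aestronglyMeasurable, hp.map_eq] at h2
    linarith [stair_sq h, measureReal_le_one (μ := PE) (s := {ω | ¬ Nice μ a v s ω})]
  · rw [ENNReal.ofReal_le_one, exp_le_one_iff]
    by_cases hX : Nice μ a v s X
    · simp [Odd, hX]
    · simp only [Odd, hX, if_false]
      rw [indicator_of_mem (by exact hX), TB]
      linarith [wt_nonneg X' (es (geo v X))]

end Pool.Agent.Lib.MP_de94ef_pr.Q
end

-- part Pool.Agent.Lib.MP_de94ef_pr.Q.Rect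
section

/-!
Estimates between squares.
-/

open MeasureTheory ProbabilityTheory Set Real Function Filter Topology
open scoped ENNReal NNReal

namespace Pool.Agent.Lib.MP_de94ef_pr.Q

section aux

variable {μ : ℝ × ℝ → ℝ} {κ ϱ : ℝ} {f : Fd}

/-- A lattice vector close to a vector with small coordinates. -/
lemma rect_near (hF : Fr μ κ ϱ f) (h : IsTC μ) {r : ℝ} {y : VV} {v : ℝ × ℝ}
    (h1 : r1 (iv y - v) ≤ 2) (h2 : |f.a v| ≤ 2 * r) (h3 : |f.b v| ≤ r) :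
    n1 y ≤ 66 * r + 2 ∧ κ * |f.b (iv y)| ≤ κ * r + 8 := by
  have a1 := r1_add_le (iv y - v) v
  rw [sub_add_cancel, r1_iv] at a1
  have a2 := h.ge v
  have a3 := hF.le h v
  have a4 := hF.b_r1 h (iv y - v)
  have a5 := abs_add_le (f.b (iv y - v)) (f.b v)
  rw [← map_add, sub_add_cancel] at a5
  have a6 := mul_le_mul_of_nonneg_left (a5.trans (add_le_add le_rfl h3)) hF.κpos.le
  constructor <;> linarith

lemma rect_from (hF : Fr μ κ ϱ f) (h : IsTC μ) {r : ℝ} {z : ℝ × ℝ} {q : VV} (hq : Sq f z r q) :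
    n1 (q - fl (z - r • f.u)) ≤ 66 * r + 2 ∧
      κ * |f.b (iv (q - fl (z - r • f.u)))| ≤ κ * r + 8 := by
  obtain ⟨q1, q2, q3, q4⟩ := hq
  refine rect_near hF h (v := iv q - z + r • f.u) ?_ ?_ ?_
  · rw [iv_sub, show iv q - iv (fl (z - r • f.u)) - (iv q - z + r • f.u) =
      (z - r • f.u) - iv (fl (z - r • f.u)) by abel, r1_sub_comm]
    exact r1_fl _
  · rw [map_add, map_smul, hF.au, smul_eq_mul, abs_le]
    constructor <;> linarith
  · rw [map_add, map_smul, hF.bu, smul_zero, add_zero, abs_le]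
    constructor <;> linarith

lemma rect_to (hF : Fr μ κ ϱ f) (h : IsTC μ) {r : ℝ} {z : ℝ × ℝ} {q : VV} (hq : Sq f z r q) :
    n1 (fl (z + (2 * r) • f.u) - q) ≤ 66 * r + 2 ∧
      κ * |f.b (iv (fl (z + (2 * r) • f.u) - q))| ≤ κ * r + 8 := by
  obtain ⟨q1, q2, q3, q4⟩ := hq
  refine rect_near hF h (v := (2 * r) • f.u - (iv q - z)) ?_ ?_ ?_
  · rw [iv_sub, show iv (fl (z + (2 * r) • f.u)) - iv q - ((2 * r) • f.u - (iv q - z)) =
      iv (fl (z + (2 * r) • f.u)) - (z + (2 * r) • f.u) by abel]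
    exact r1_fl _
  · rw [map_sub, map_smul, hF.au, smul_eq_mul, abs_le]
    constructor <;> linarith
  · rw [map_sub, map_smul, hF.bu, smul_zero, zero_sub, abs_neg, abs_le]
    constructor <;> linarith

/-- Points of a thin ellipse. -/
lemma rect_ell (hF : Fr μ κ ϱ f) (h : IsTC μ) {q q' w : VV} {t : ℝ}
    (hw : μ (iv (w - q)) + μ (iv (q' - w)) ≤ f.a (iv q') - f.a (iv q) + t) :
    f.a (iv q) - t / 2 ≤ f.a (iv w) ∧ f.a (iv w) ≤ f.a (iv q') + t / 2 ∧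
      n1 (w - q) ≤ 11 * (f.a (iv q') - f.a (iv q) + t) ∧
      n1 (q' - w) ≤ 11 * (f.a (iv q') - f.a (iv q) + t) := by
  have a1 := abs_le.1 (hF.abs_a h (iv (w - q)))
  have a2 := abs_le.1 (hF.abs_a h (iv (q' - w)))
  have a3 := h.ge (iv (w - q))
  have a4 := h.ge (iv (q' - w))
  have a5 := h.nonneg (iv (w - q))
  have a6 := h.nonneg (iv (q' - w))
  rw [r1_iv] at a3 a4
  have e1 : f.a (iv (w - q)) = f.a (iv w) - f.a (iv q) := by rw [iv_sub, map_sub]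
  have e2 : f.a (iv (q' - w)) = f.a (iv q') - f.a (iv w) := by rw [iv_sub, map_sub]
  rw [e1] at a1
  rw [e2] at a2
  refine ⟨?_, ?_, ?_, ?_⟩ <;> linarith [a1.1, a1.2, a2.1, a2.2]

lemma rect_n1 (u v w : VV) : n1 (w - u) ≤ n1 (v - u) + n1 (w - v) := by
  have := n1_add_le (v - u) (w - v)
  rwa [show v - u + (w - v) = w - u by abel] at this

lemma rect_y {η : ℝ} (hη : 0 < η) : ∃ y : ℝ, 0 ≤ y ∧ 3 * exp (-y) ≤ η := by
  refine ⟨3 / η, by positivity, ?_⟩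
  have h1 := add_one_le_exp (3 / η)
  have h2 : 3 / η * η = 3 := div_mul_cancel₀ _ hη.ne'
  rw [exp_neg, ← div_eq_mul_inv, div_le_iff₀ (exp_pos _)]
  nlinarith

lemma rect_union {A B : Set Env} {x y : ℝ} (hx : 0 ≤ x) (hy : 0 ≤ y)
    (hA : PE A ≤ ENNReal.ofReal x) (hB : PE B ≤ ENNReal.ofReal y) :
    PE (A ∪ B) ≤ ENNReal.ofReal (x + y) := by
  rw [ENNReal.ofReal_add hx hy]
  exact (measure_union_le A B).trans (add_le_add hA hB)

end aux

/-- Chains from and to anchors. -/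
theorem anch {N X : ℝ} (hN : 1 ≤ N) (hX : 1 ≤ X) : ∃ B : ℝ, 0 ≤ B ∧ ∀ᶠ c in FB,
    ∀ (ϱ : ℝ) (f : Fd) (z : ℝ × ℝ) (P : VV), Fr c.μ c.κ ϱ f →
    (r1 (iv P - (z - (N * c.m) • f.u)) ≤ 4 →
      Dom (fun ω x => ∃ q, Sq f z (N * c.m) q ∧ x = TT ω P q - f.L (iv (q - P)))
        (B * c.s) (c.s / X)) ∧
    (r1 (iv P - (z + (2 * (N * c.m)) • f.u)) ≤ 4 →
      Dom (fun ω x => ∃ q, Sq f z (N * c.m) q ∧ x = TT ω q P - f.L (iv (P - q)))
        (B * c.s) (c.s / X)) := by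
  have hX' : 1 ≤ 200 * N * X := by nlinarith
  obtain ⟨B, hB, h⟩ := ext_ev hX'
  refine ⟨2 * N + (100 * B + 2000) * N, by positivity, ?_⟩
  filter_upwards [h, ev_big (100 * N), ev_big (10 ^ 8 * (200 * N * X))] with c hc h1 h2 ϱ f z P hF
  have m1 := h1.one
  have r1' : 1 ≤ N * c.m := by nlinarith
  have r2 : 200 * (N * c.m) ≤ 2 * c.R := by linarith [h1.large]
  have r3 := h2.big _ r1'
  have r4 : c.σ (N * c.m) ≤ N * c.s :=
    h1.sc.le (by linarith) (by linarith) hN (by nlinarith [mul_nonneg (sub_nonneg.2 hN) (by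
      linarith : 0 ≤ N * c.m)])
  have r5 : 0 < c.σ (N * c.m) := lt_of_lt_of_le (by positivity) r3
  have s0 := h1.s_pos
  have k1 : 200 * c.σ (N * c.m) / (200 * N * X) ≤ c.s / X := by
    rw [div_le_div_iff₀ (by positivity) (by positivity)]
    nlinarith [mul_le_mul_of_nonneg_right r4 (by linarith : 0 ≤ X)]
  have k2 : 2 * c.κ * (N * c.m) + (100 * B + 2000) * c.σ (N * c.m) ≤
      (2 * N + (100 * B + 2000) * N) * c.s := by
    have e : 2 * c.κ * (N * c.m) = 2 * N * c.s := by rw [← h1.κm]; ring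
    nlinarith [mul_le_mul_of_nonneg_left r4 (by positivity : 0 ≤ 100 * B + 2000)]
  exact ⟨fun hP => ((chain h1.tc h1.sc hF hB hX' hc.1 r1' r2 r3 z hP).scale (by positivity)
      k1).mono (by positivity) fun ω a ha => ⟨a, ha, by linarith⟩,
    fun hP => ((chain_back h1.tc h1.sc hF hB hX' hc.1 r1' r2 r3 z hP).scale (by positivity)
      k1).mono (by positivity) fun ω a ha => ⟨a, ha, by linarith⟩⟩

theorem lowRect {N X : ℝ} (hN : 1 ≤ N) (ρ : ℝ) (hX : 1 ≤ X) : ∃ B : ℝ, 0 ≤ B ∧ ∀ᶠ c in FB,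
    ∀ (ϱ : ℝ) (f : Fd) (z z' : ℝ × ℝ), Fr c.μ c.κ ϱ f →
    Dom (fun ω x => ∃ q q', Sq f z (N * c.m) q ∧ Sq f z' (N * c.m) q' ∧ n1 (q' - q) ≤ ρ * c.m ∧
      x = f.L (iv (q' - q)) + c.κ * |f.b (iv (q' - q))| - TT ω q q') (B * c.s) (c.s / X) := by
  have hX' : 1 ≤ 3 * X := by linarith
  obtain ⟨B, hB, h⟩ := anch hN hX'
  obtain ⟨B', hB', h'⟩ := est_ev (|ρ| + 140 * N) hX'
  refine ⟨2 * B + B' + 2 * (|ρ| + 140 * N) + 2 * N + 1, by positivity, ?_⟩
  filter_upwards [h, h', ev_big 1] with c hc hc' h1 ϱ f z z' hF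
  by_cases hE : ∃ q q', Sq f z (N * c.m) q ∧ Sq f z' (N * c.m) q' ∧ n1 (q' - q) ≤ ρ * c.m
  swap
  · exact dom_empty fun ω x ⟨q, q', a1, a2, a3, _⟩ => hE ⟨q, q', a1, a2, a3⟩
  obtain ⟨P, hP⟩ : ∃ P, P = fl (z - (N * c.m) • f.u) := ⟨_, rfl⟩
  obtain ⟨P', hP'⟩ : ∃ P, P = fl (z' + (2 * (N * c.m)) • f.u) := ⟨_, rfl⟩
  have m1 := h1.one
  have s0 := h1.s_pos
  have s1 := h1.s_ge
  have hn : n1 (P' - P) ≤ (|ρ| + 140 * N) * c.m := by
    obtain ⟨q, q', a1, a2, a3⟩ := hE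
    have b1 := (rect_from hF h1.tc a1).1
    have b2 := (rect_to hF h1.tc a2).1
    rw [← hP] at b1
    rw [← hP'] at b2
    have b3 := rect_n1 P q P'
    have b4 := rect_n1 q q' P'
    have b5 := mul_le_mul_of_nonneg_right (le_abs_self ρ) (by linarith : 0 ≤ c.m)
    nlinarith
  have d1 := (hc ϱ f z P hF).1 (by rw [hP]; linarith [r1_fl (z - (N * c.m) • f.u)])
  have d2 := (hc ϱ f z' P' hF).2 (by rw [hP']; linarith [r1_fl (z' + (2 * (N * c.m)) • f.u)])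
  have d3 := (hc' P P' hn).2
  have p0 : 0 < c.s / (3 * X) := by positivity
  have d4 := (d1.add d2 p0 p0 (C := fun ω x => ∃ q q', Sq f z (N * c.m) q ∧ Sq f z' (N * c.m) q' ∧
      x = (TT ω P q - f.L (iv (q - P))) + (TT ω q' P' - f.L (iv (P' - q'))))
      (fun ω a ⟨q, q', a1, a2, a3⟩ => ⟨_, _, ⟨q, a1, rfl⟩, ⟨q', a2, rfl⟩, a3.le⟩)).add d3
    (by positivity) p0 (C := fun ω x => ∃ q q', Sq f z (N * c.m) q ∧ Sq f z' (N * c.m) q' ∧
      x = (TT ω P q - f.L (iv (q - P))) + (TT ω q' P' - f.L (iv (P' - q'))) +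
        (c.μ (iv (P' - P)) - TT ω P P'))
      (fun ω a ⟨q, q', a1, a2, a3⟩ => ⟨_, _, ⟨q, q', a1, a2, rfl⟩, rfl, a3.le⟩)
  rw [show c.s / (3 * X) + c.s / (3 * X) + c.s / (3 * X) = c.s / X by field_simp; ring] at d4
  refine d4.mono (by positivity) ?_
  rintro ω a ⟨q, q', a1, a2, a3, rfl⟩
  refine ⟨_, ⟨q, q', a1, a2, rfl⟩, ?_⟩
  have b1 := (rect_from hF h1.tc a1).2
  have b2 := (rect_to hF h1.tc a2).2
  rw [← hP] at b1
  rw [← hP'] at b2
  have b3 := hF.low' (iv (P' - P))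
  have b4 := (hF.a_r1 h1.tc (iv (P' - P))).trans (r1_iv _ ▸ hn)
  have b5 := mul_le_mul_of_nonneg_left b4 hF.κpos.le
  have b6 := TT_triangle ω P q P'
  have b7 := TT_triangle ω q q' P'
  have e1 : f.b (iv (q' - q)) = f.b (iv (P' - P)) - f.b (iv (q - P)) - f.b (iv (P' - q')) := by
    simp only [iv_sub, map_sub]; ring
  have e2 : f.L (iv (q' - q)) = f.L (iv (P' - P)) - f.L (iv (q - P)) - f.L (iv (P' - q')) := by
    simp only [iv_sub, map_sub]; ring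
  have b8 : |f.b (iv (q' - q))| ≤
      |f.b (iv (P' - P))| + |f.b (iv (q - P))| + |f.b (iv (P' - q'))| := by
    rw [e1]
    exact (abs_sub _ _).trans (add_le_add (abs_sub _ _) le_rfl)
  have b9 := mul_le_mul_of_nonneg_left b8 hF.κpos.le
  have e3 : c.κ * ((|ρ| + 140 * N) * c.m) = (|ρ| + 140 * N) * c.s := by rw [← h1.κm]; ring
  have e4 : c.κ * (N * c.m) = N * c.s := by rw [← h1.κm]; ring
  rw [e3] at b5
  rw [e4] at b1 b2
  rw [e2]
  linarith

theorem upRect {N X : ℝ} (hN : 1 ≤ N) (ρ Φ : ℝ) (hX : 1 ≤ X) : ∃ B : ℝ, 0 ≤ B ∧ ∀ᶠ c in FB,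
    ∀ (ϱ : ℝ) (f : Fd) (z z' : ℝ × ℝ), Fr c.μ c.κ ϱ f → |f.a (z' - z)| ≤ ρ * c.m →
    Cheap c.μ f (z' - z) (3 * N * c.m) (Φ * c.s) →
    Dom (fun ω x => ∃ q q', Sq f z (N * c.m) q ∧ Sq f z' (N * c.m) q' ∧
      x = TT ω q q' - f.L (iv (q' - q))) (B * c.s) (c.s / X) := by
  have hX' : 1 ≤ 3 * X := by linarith
  obtain ⟨B, hB, h⟩ := anch hN hX'
  obtain ⟨B', hB', h'⟩ := est_ev (11 * (4 * (ρ + 3 * N) + |Φ| + 2)) hX'
  refine ⟨2 * B + B' + |Φ| + 1, by positivity, ?_⟩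
  filter_upwards [h, h', ev_big 1] with c hc hc' h1 ϱ f z z' hF ha hC
  obtain ⟨P, hP⟩ : ∃ P, P = fl (z + (2 * (N * c.m)) • f.u) := ⟨_, rfl⟩
  obtain ⟨P', hP'⟩ : ∃ P, P = fl (z' - (N * c.m) • f.u) := ⟨_, rfl⟩
  obtain ⟨ζ, hζ⟩ : ∃ ζ, ζ = z' - z - (3 * N * c.m) • f.u := ⟨_, rfl⟩
  have m1 := h1.one
  have s0 := h1.s_pos
  have s1 := h1.s_ge
  have n0 : 0 ≤ 3 * N * c.m := by positivity
  have c1 : c.μ ζ ≤ f.L ζ + |Φ| * c.s := by
    have e : ζ - (z' - z) = -((3 * N * c.m) • f.u) := by rw [hζ]; abel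
    have := hC ζ (by rw [e, map_neg, map_smul, hF.au, smul_eq_mul, mul_one, abs_neg,
      abs_of_nonneg n0]) (by rw [e, map_neg, map_smul, hF.bu, smul_zero, neg_zero, abs_zero]; exact n0)
    linarith [mul_le_mul_of_nonneg_right (le_abs_self Φ) s0.le]
  have c2 : r1 (iv (P' - P) - ζ) ≤ 2 := by
    have := r1_fl_sub (z' - (N * c.m) • f.u) (z + (2 * (N * c.m)) • f.u)
    rwa [← hP, ← hP', show z' - (N * c.m) • f.u - (z + (2 * (N * c.m)) • f.u) = ζ by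
      rw [hζ]; module] at this
  have c3 := h1.tc.le_add (iv (P' - P)) ζ
  have c4 := abs_le.1 (hF.L_r1 h1.tc (iv (P' - P) - ζ))
  rw [map_sub] at c4
  have hn : n1 (P' - P) ≤ 11 * (4 * (ρ + 3 * N) + |Φ| + 2) * c.m := by
    have b1 := (hF.of_cheap c1).2
    have b2 : |f.a ζ| ≤ (ρ + 3 * N) * c.m := by
      rw [hζ, map_sub, map_smul, hF.au, smul_eq_mul, mul_one]
      have := abs_sub (f.a (z' - z)) (3 * N * c.m)
      rw [abs_of_nonneg n0] at this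
      linarith
    have b3 := h1.tc.ge (iv (P' - P))
    rw [r1_iv] at b3
    have b4 : ϱ * c.κ ≤ 1 := by linarith [hF.κle, hF.κpos]
    have b5 := mul_le_mul_of_nonneg_right b4 (abs_nonneg (f.a ζ))
    have b6 := mul_le_mul_of_nonneg_right hF.κle (by positivity : 0 ≤ |Φ| * c.m)
    have e : (ϱ + 1) * (|Φ| * c.s) = (ϱ + 1) * c.κ * (|Φ| * c.m) := by rw [← h1.κm]; ring
    linarith [le_abs_self (f.a ζ)]
  have d1 := (hc ϱ f z P hF).2 (by rw [hP]; linarith [r1_fl (z + (2 * (N * c.m)) • f.u)])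
  have d2 := (hc ϱ f z' P' hF).1 (by rw [hP']; linarith [r1_fl (z' - (N * c.m) • f.u)])
  have d3 := (hc' P P' hn).1
  have p0 : 0 < c.s / (3 * X) := by positivity
  have d4 := (d1.add d2 p0 p0 (C := fun ω x => ∃ q q', Sq f z (N * c.m) q ∧ Sq f z' (N * c.m) q' ∧
      x = (TT ω q P - f.L (iv (P - q))) + (TT ω P' q' - f.L (iv (q' - P'))))
      (fun ω a ⟨q, q', a1, a2, a3⟩ => ⟨_, _, ⟨q, a1, rfl⟩, ⟨q', a2, rfl⟩, a3.le⟩)).add d3
    (by positivity) p0 (C := fun ω x => ∃ q q', Sq f z (N * c.m) q ∧ Sq f z' (N * c.m) q' ∧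
      x = (TT ω q P - f.L (iv (P - q))) + (TT ω P' q' - f.L (iv (q' - P'))) +
        (TT ω P P' - c.μ (iv (P' - P))))
      (fun ω a ⟨q, q', a1, a2, a3⟩ => ⟨_, _, ⟨q, q', a1, a2, rfl⟩, rfl, a3.le⟩)
  rw [show c.s / (3 * X) + c.s / (3 * X) + c.s / (3 * X) = c.s / X by field_simp; ring] at d4
  refine d4.mono (by positivity) ?_
  rintro ω a ⟨q, q', a1, a2, rfl⟩
  refine ⟨_, ⟨q, q', a1, a2, rfl⟩, ?_⟩
  have b6 := TT_triangle ω q P q'
  have b7 := TT_triangle ω P P' q'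
  have e2 : f.L (iv (q' - q)) = f.L (iv (P' - P)) + f.L (iv (P - q)) + f.L (iv (q' - P')) := by
    simp only [iv_sub, map_sub]; ring
  rw [e2]
  linarith [c4.1]

theorem reachRect {N η : ℝ} (hN : 1 ≤ N) (ρ Φ : ℝ) (hη : 0 < η) : ∃ C : ℝ, 0 ≤ C ∧ ∀ᶠ c in FB,
    ∀ (f : Fd) (z z' : ℝ × ℝ) (α α' : ℝ), Fr c.μ c.κ 1 f → 0 ≤ f.a (z' - z) →
    Cheap c.μ f (z' - z) (3 * N * c.m) (Φ * c.s) → α + c.m ≤ f.a z →
    f.a z' + (N + 1) * c.m ≤ α' → α' - α ≤ ρ * c.m →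
    PE {X | ¬ UE f (N * c.m) (C * c.s) z z' α α' X} ≤ ENNReal.ofReal η := by
  obtain ⟨B, hB, h⟩ := upRect hN ρ Φ le_rfl
  obtain ⟨y, hy, hy'⟩ := rect_y (half_pos hη)
  refine ⟨B + y + 1, by positivity, ?_⟩
  filter_upwards [h, crude_ev (100 * ρ + 2) (half_pos hη),
    ev_big (100 * (3 * (|ρ| + N) + 2 * |Φ|))] with c hc hc' h1 f z z' α α' hF ha hC h2 h3 h4
  have m1 := h1.m_ge (by nlinarith [abs_nonneg ρ, abs_nonneg Φ])
  have s0 := h1.s_pos
  have n0 : 0 ≤ N * c.m := by positivity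
  rw [map_sub] at ha
  have ha' : |f.a (z' - z)| ≤ ρ * c.m := by
    rw [map_sub, abs_of_nonneg ha]; linarith
  obtain ⟨E, -, hE, hE'⟩ := dom_event (hc 1 f z z' hF ha' hC) (by positivity) y
  have hD : 0 ≤ 100 * (α' - α) := by linarith
  have k1 := Nat.ceil_lt_add_one hD
  have hE2 := hc' (fl z) (⌈100 * (α' - α)⌉₊ + 1) (by push_cast; linarith)
  rw [← add_halves η]
  refine le_trans (measure_mono fun ω hω => ?_) (rect_union (by linarith) (by linarith)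
    (hE.trans (ENNReal.ofReal_le_ofReal hy')) hE2)
  by_contra hn
  rw [mem_union, not_or] at hn
  refine hω fun q q' hq hq' => ?_
  have b1 := hE' ω hn.1 _ ⟨q, q', hq, hq', rfl⟩
  refine conf h1.tc (by positivity) (fun w hw => ?_) (not_not.1 hn.2) (by linarith)
  have n1q := hF.n1_of_Sq h1.tc hq
  obtain ⟨q1, q2, q3, q4⟩ := hq
  obtain ⟨q1', q2', q3', q4'⟩ := hq'
  have e : iv (q' - q) - (z' - z) = (iv q' - z') - (iv q - z) := by rw [iv_sub]; abel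
  have c1 := hC (iv (q' - q))
    (by rw [e, map_sub, abs_le]; constructor <;> linarith)
    (by rw [e, map_sub, abs_le]; constructor <;> linarith)
  have c2 := (hF.of_cheap c1).2
  have e1 : f.a (iv (q' - q)) = f.a (iv q') - f.a (iv q) := by rw [iv_sub, map_sub]
  rw [e1] at c2
  rw [map_sub] at q1 q2 q1' q2'
  have c3 : |f.a (iv q') - f.a (iv q)| ≤ (|ρ| + N) * c.m := by
    have := mul_le_mul_of_nonneg_right (le_abs_self ρ) (by linarith : 0 ≤ c.m)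
    have := mul_nonneg (abs_nonneg ρ) (by linarith : 0 ≤ c.m)
    rw [abs_le]; constructor <;> linarith
  have c4 := mul_le_mul_of_nonneg_left c3 hF.κpos.le
  have e3 : c.κ * ((|ρ| + N) * c.m) = (|ρ| + N) * c.s := by rw [← h1.κm]; ring
  have c5 := mul_le_mul_of_nonneg_right (le_abs_self Φ) s0.le
  have c6 := h1.Ks
  obtain ⟨d1, d2, d3, -⟩ := rect_ell hF h1.tc (q := q) (q' := q') (w := w) (t := c.m / 20)
    (by linarith)
  have d4 : n1 (w - fl z) ≤ 100 * (α' - α) := by linarith [rect_n1 (fl z) q w]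
  exact ⟨mem_Sl d4 (by linarith) (by linarith), mem_box_of_n1 (d4.trans (Nat.le_ceil _))⟩

theorem lowEvent {N η : ℝ} (hN : 1 ≤ N) (ρ : ℝ) (hη : 0 < η) : ∃ C : ℝ, 0 ≤ C ∧ ∀ᶠ c in FB,
    ∀ (ϱ : ℝ) (f : Fd) (z z' : ℝ × ℝ), Fr c.μ c.κ ϱ f → ∃ E : Set Env, MeasurableSet E ∧
    PE E ≤ ENNReal.ofReal η ∧ ∀ ω ∉ E, ∀ q q', Sq f z (N * c.m) q → Sq f z' (N * c.m) q' →
      n1 (q' - q) ≤ ρ * c.m →
      f.L (iv (q' - q)) + c.κ * |f.b (iv (q' - q))| - C * c.s ≤ TT ω q q' := by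
  obtain ⟨B, hB, h⟩ := lowRect hN ρ le_rfl
  obtain ⟨y, hy, hy'⟩ := rect_y hη
  refine ⟨B + y, by positivity, ?_⟩
  filter_upwards [h, ev_big 1] with c hc h1 ϱ f z z' hF
  have s0 := h1.s_pos
  obtain ⟨E, hm, hE, hE'⟩ := dom_event (hc ϱ f z z' hF) (by positivity) y
  refine ⟨E, hm, hE.trans (ENNReal.ofReal_le_ofReal hy'), fun ω hω q q' hq hq' hn => ?_⟩
  have := hE' ω hω _ ⟨q, q', hq, hq', hn, rfl⟩
  linarith

theorem exitTube (ϱ C : ℝ) {K η : ℝ} (hK : 0 ≤ K) (hη : 0 < η) : ∃ K' : ℕ, K + 2 ≤ K' ∧ 3 ≤ K' ∧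
    ∀ᶠ c in FB, ∀ (f : Fd) (o : VV), Fr c.μ c.κ ϱ f → ∃ E : Set Env, MeasurableSet E ∧
      PE E ≤ ENNReal.ofReal η ∧ ∀ ω ∉ E, ∀ (q q' : VV) (θ : ℝ), In f c.m K o q → In f c.m K o q' →
        θ ≤ f.L (iv (q' - q)) + C * c.s → TT ω q q' < θ → Reach (Nb f c.m K' o) q q' θ ω := by
  obtain ⟨C', hC', h⟩ := lowEvent (N := 2 * K + 6) (η := η / 8) (by linarith) 60 (by positivity)
  obtain ⟨K', hK'⟩ : ∃ K' : ℕ, K + C' + |C| + 3 ≤ K' := ⟨_, Nat.le_ceil _⟩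
  have hC0 := abs_nonneg C
  refine ⟨K', by linarith, by exact_mod_cast (by linarith : (3 : ℝ) ≤ K'), ?_⟩
  filter_upwards [h, crude_ev (22 * K + 162) (half_pos hη),
    ev_big (100 * (|ϱ| * (5 + 2 * K) + |C| + 1))] with c hc hc' h1 f o hF
  have hϱ0 : 0 ≤ |ϱ| * (5 + 2 * K) := by positivity
  have m1 := h1.m_ge (by linarith)
  have m0 := h1.m_pos
  have s0 := h1.s_pos
  have s1 := h1.s_ge
  have κ0 := hF.κpos
  have km : 0 ≤ K * c.m := by positivity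
  have km' : K * c.m ≤ K' * c.m := mul_le_mul_of_nonneg_right (by linarith) m0.le
  have hsq : ∀ (β : ℝ) (w : VV), -c.m ≤ f.a (iv (w - o)) → f.a (iv (w - o)) ≤ 5 * c.m →
      β ≤ f.b (iv (w - o)) → f.b (iv (w - o)) ≤ β + (2 * K + 6) * c.m →
      Sq f (iv o + f.pt (-c.m) β) ((2 * K + 6) * c.m) w := fun β w a1 a2 a3 a4 => by
    have e : iv w - (iv o + f.pt (-c.m) β) = iv (w - o) - f.pt (-c.m) β := by rw [iv_sub]; abel
    unfold Sq
    rw [e, map_sub, map_sub, hF.a_pt, hF.b_pt]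
    exact ⟨by linarith, by linarith, by linarith, by linarith⟩
  obtain ⟨E1, m1', p1, g1⟩ := hc ϱ f (iv o + f.pt (-c.m) (-(K * c.m)))
    (iv o + f.pt (-c.m) (K' * c.m)) hF
  obtain ⟨E2, m2', p2, g2⟩ := hc ϱ f (iv o + f.pt (-c.m) (K' * c.m))
    (iv o + f.pt (-c.m) (-(K * c.m))) hF
  obtain ⟨E3, m3', p3, g3⟩ := hc ϱ f (iv o + f.pt (-c.m) (-(K * c.m)))
    (iv o + f.pt (-c.m) (-(K' * c.m) - (2 * K + 6) * c.m)) hF
  obtain ⟨E4, m4', p4, g4⟩ := hc ϱ f (iv o + f.pt (-c.m) (-(K' * c.m) - (2 * K + 6) * c.m))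
    (iv o + f.pt (-c.m) (-(K * c.m))) hF
  have hD : 0 ≤ (22 * K + 160) * c.m := by positivity
  have k1 := Nat.ceil_lt_add_one hD
  have p5 := hc' o (⌈(22 * K + 160) * c.m⌉₊ + 1) (by push_cast; linarith)
  refine ⟨{ω | ¬ Cr c.μ o (⌈(22 * K + 160) * c.m⌉₊ + 1) (c.m / 100) ω} ∪ ((E1 ∪ E2) ∪ (E3 ∪ E4)),
    (measurableSet_Cr _ _ _ _).compl.union ((m1'.union m2').union (m3'.union m4')), ?_,
    fun ω hω q q' θ hq hq' hθ hT => ?_⟩
  · have e8 : 0 ≤ η / 8 := by positivity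
    have := rect_union (by positivity) (by positivity) p5 (rect_union (by positivity)
      (by positivity) (rect_union e8 e8 p1 p2) (rect_union e8 e8 p3 p4))
    rwa [show η / 2 + (η / 8 + η / 8 + (η / 8 + η / 8)) = η by ring] at this
  simp only [mem_union, not_or, mem_ofPred_eq, not_not] at hω
  obtain ⟨hCr, ⟨n1', n2'⟩, n3', n4'⟩ := hω
  have hbox : ∀ w, In f c.m K o w → n1 (w - o) ≤ (22 * K + 99) * c.m := fun w hw => by
    have a1 := h1.tc.ge (iv (w - o))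
    have a2 := hF.le h1.tc (iv (w - o))
    have a3 : |f.a (iv (w - o))| ≤ 9 / 2 * c.m := abs_le.2 ⟨by linarith [hw.1], hw.2.1⟩
    rw [r1_iv] at a1
    linarith [hw.2.2]
  have hbox' : ∀ w, n1 (w - o) ≤ (22 * K + 160) * c.m → w ∈ box o ⌈(22 * K + 160) * c.m⌉₊ :=
    fun w hw => mem_box_of_n1 (hw.trans (Nat.le_ceil _))
  have nq := hbox q hq
  have nq' := hbox q' hq'
  have sq := hsq (-(K * c.m)) q (by linarith [hq.1]) (by linarith [hq.2.1])
    (abs_le.1 hq.2.2).1 (by linarith [(abs_le.1 hq.2.2).2])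
  have sq' := hsq (-(K * c.m)) q' (by linarith [hq'.1]) (by linarith [hq'.2.1])
    (abs_le.1 hq'.2.2).1 (by linarith [(abs_le.1 hq'.2.2).2])
  obtain ⟨q1, q2, q3⟩ := hq
  obtain ⟨q1', q2', q3'⟩ := hq'
  have ea : ∀ x y : VV, f.a (iv (x - y)) = f.a (iv x) - f.a (iv y) := fun x y => by
    rw [iv_sub, map_sub]
  have eb : ∀ x y : VV, f.b (iv (x - y)) = f.b (iv x) - f.b (iv y) := fun x y => by
    rw [iv_sub, map_sub]
  have eL : ∀ x y : VV, f.L (iv (x - y)) = f.L (iv x) - f.L (iv y) := fun x y => by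
    rw [iv_sub, map_sub]
  rw [ea] at q1 q2 q1' q2'
  rw [eb, abs_le] at q3 q3'
  have c1 : c.μ (iv (q' - q)) ≤ f.a (iv q') - f.a (iv q) + c.m / 50 := by
    have a1 := (abs_le.1 (hCr q (crude_box_mono (Nat.le_succ _) (hbox' q (by linarith))) q'
      (crude_box_mono (Nat.le_succ _) (hbox' q' (by linarith))))).1
    have a2 := (abs_le.1 (hF.La (iv (q' - q)))).2
    have a3 : |f.a (iv (q' - q))| + |f.b (iv (q' - q))| ≤ (5 + 2 * K) * c.m := by
      have b1 : |f.a (iv (q' - q))| ≤ 5 * c.m := by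
        rw [ea, abs_le]; constructor <;> linarith
      have b2 : |f.b (iv (q' - q))| ≤ 2 * K * c.m := by
        rw [eb, abs_le]; constructor <;> linarith [q3.1, q3.2, q3'.1, q3'.2]
      linarith
    have a4 := mul_le_mul_of_nonneg_left a3 (mul_nonneg (by linarith [hF.ϱge] : 0 ≤ ϱ) κ0.le)
    have e : ϱ * c.κ * ((5 + 2 * K) * c.m) = |ϱ| * (5 + 2 * K) * c.s := by
      rw [← h1.κm, abs_of_nonneg (by linarith [hF.ϱge] : 0 ≤ ϱ)]; ring
    have a5 := mul_le_mul_of_nonneg_right (le_abs_self C) s0.le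
    have a6 := h1.Ks
    linarith [ea q' q]
  have ell : ∀ w, c.μ (iv (w - q)) + c.μ (iv (q' - w)) ≤ c.μ (iv (q' - q)) + 3 * (c.m / 100) + 1 →
      -c.m ≤ f.a (iv (w - o)) ∧ f.a (iv (w - o)) < 5 * c.m ∧ n1 (w - q) ≤ 60 * c.m ∧
        n1 (q' - w) ≤ 60 * c.m := fun w hw => by
    obtain ⟨d1, d2, d3, d4⟩ := rect_ell hF h1.tc (q := q) (q' := q') (w := w) (t := c.m / 10)
      (by linarith)
    rw [ea]
    exact ⟨by linarith, by linarith, by linarith, by linarith⟩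
  obtain ⟨p, hp, hw⟩ := exists_lt_TT (lt_min hT (lt_add_one (TT ω q q')))
  have hw1 := hw.trans_le (min_le_left _ _)
  have hell := fun w hw' => ell w (conf_path h1.tc (by positivity)
    (fun w hw => hbox' w (by linarith [(ell w hw).2.2.1, rect_n1 o q w])) hCr hp
    (hw.le.trans (min_le_right _ _)) w hw')
  refine ⟨p, fun w hw' => (hF.mem_Nb h1.tc m0.le (Nat.cast_nonneg _)).2
    ⟨(hell w hw').1, (hell w hw').2.1, ?_⟩, hw1.le⟩
  revert w
  by_contra hn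
  obtain ⟨w, w', a1, a2, a3, -, a4, a5⟩ := exit_vertex hp {w | |f.b (iv (w - o))| ≤ K' * c.m}
    (by rw [mem_ofPred_eq, eb, abs_le]; constructor <;> linarith [q3.1, q3.2]) hn ω
  rw [mem_ofPred_eq, eb] at a1 a2
  rw [abs_le] at a1
  have b1 : |f.b (iv w') - f.b (iv w)| ≤ (2 * K + 6) * c.m := by
    refine le_of_mul_le_mul_left ((hF.b_adj h1.tc a3).trans ?_) κ0
    have e : c.κ * ((2 * K + 6) * c.m) = (2 * K + 6) * c.s := by rw [← h1.κm]; ring
    rw [e]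
    nlinarith
  rw [abs_le] at b1
  obtain ⟨d1, d2, d3, d4⟩ := hell w' a4
  have fin : ∀ x y : ℝ, (K' - K) * c.m ≤ x → (K' - K) * c.m ≤ y →
      f.L (iv (w' - q)) + c.κ * x - C' * c.s ≤ TT ω q w' →
      f.L (iv (q' - w')) + c.κ * y - C' * c.s ≤ TT ω w' q' → False := fun x y x1 y1 t1 t2 => by
    have x2 := mul_le_mul_of_nonneg_left x1 κ0.le
    have y2 := mul_le_mul_of_nonneg_left y1 κ0.le
    have e : c.κ * ((K' - K) * c.m) = (K' - K) * c.s := by rw [← h1.κm]; ring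
    have a6 := mul_le_mul_of_nonneg_right (le_abs_self C) s0.le
    have a7 := mul_le_mul_of_nonneg_right hK' s0.le
    have a8 := mul_nonneg hC0 s0.le
    rw [eL] at t1 t2 hθ
    linarith
  rcases lt_abs.1 (not_le.1 a2) with a2 | a2
  · have sw := hsq (K' * c.m) w' d1 d2.le (by rw [eb]; linarith) (by rw [eb]; linarith [b1.2])
    refine fin _ _ ?_ ?_ (g1 ω n1' q w' sq sw d3) (g2 ω n2' w' q' sw sq' d4)
    · rw [eb]; exact le_trans (by linarith [q3.2]) (le_abs_self _)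
    · rw [eb]; exact le_trans (by linarith [q3'.2]) (neg_le_abs _)
  · have sw := hsq (-(K' * c.m) - (2 * K + 6) * c.m) w' d1 d2.le (by rw [eb]; linarith [b1.1])
      (by rw [eb]; linarith)
    refine fin _ _ ?_ ?_ (g3 ω n3' q w' sq sw d3) (g4 ω n4' w' q' sw sq' d4)
    · rw [eb]; exact le_trans (by linarith [q3.1]) (neg_le_abs _)
    · rw [eb]; exact le_trans (by linarith [q3'.1]) (le_abs_self _)

end Pool.Agent.Lib.MP_de94ef_pr.Q
end

-- part Pool.Agent.Lib.MP_de94ef_pr.Q.Sel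
section

/-!
Union bounds over labels.
-/

open MeasureTheory ProbabilityTheory Set Real Function Filter Topology
open scoped ENNReal NNReal

namespace Pool.Agent.Lib.MP_de94ef_pr.Q

lemma exists_cfg {M : ℕ} (c d : ℕ → ℤ) (F : Finset ℕ) (h0 : c 0 = 0)
    (hM : ∀ j, M ≤ j → c j = c M) (hF : ∀ i ∈ F, i < M) :
    ∃ ξ : Cfg M, ξ.c = c ∧ (∀ i < M, ξ.d i = d i) ∧ ξ.fl = F ∧
      ξ.size = ∑ i ∈ Finset.range M, (|((c (i + 1) - c i : ℤ) : ℝ)| + |(d i : ℝ)|) := by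
  classical
  obtain ⟨ξ, hξ⟩ : ∃ ξ : Cfg M, ∀ i, ξ i = (c (i + 1) - c i, d i, decide ((i : ℕ) ∈ F)) :=
    ⟨_, fun _ => rfl⟩
  have hk : ∀ i, ξ.k i = c (i + 1) - c i := fun i => by
    unfold Cfg.k
    split_ifs with h
    · rw [hξ]
    · rw [hM (i + 1) (by omega), hM i (by omega), sub_self]
  have hd : ∀ i < M, ξ.d i = d i := fun i h => by
    unfold Cfg.d
    rw [dif_pos h, hξ]
  refine ⟨ξ, funext fun i => ?_, hd, Finset.ext fun i => ?_, Finset.sum_congr rfl fun i hi => ?_⟩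
  · simp only [Cfg.c, hk]
    rw [Finset.sum_range_sub, h0, sub_zero]
  · simp only [Cfg.fl, hξ, Finset.mem_map, Finset.mem_filter, Finset.mem_univ, true_and,
      decide_eq_true_eq, Fin.valEmbedding_apply]
    exact ⟨fun ⟨j, h1, h2⟩ => h2 ▸ h1, fun h => ⟨⟨i, hF i h⟩, h, rfl⟩⟩
  · rw [hk, hd i (Finset.mem_range.1 hi)]

variable {a : ℝ × ℝ →ₗ[ℝ] ℝ} {α α' d s : ℝ}

lemma Loc.mono {β : Type} {W : Om → β} (h : Loc a α α' W) {α1 α1' : ℝ} (h1 : α1 ≤ α)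
    (h2 : α' ≤ α1') : Loc a α1 α1' W := by
  obtain ⟨E, hE, hW⟩ := h
  exact ⟨E, fun e he w hw => ⟨h1.trans (hE e he w hw).1, (hE e he w hw).2.trans_le h2⟩, hW⟩

lemma Loc.map₂ {β β' β'' : Type} {W : Om → β} {W' : Om → β'} (h : Loc a α α' W)
    (h' : Loc a α α' W') (φ : β → β' → β'') : Loc a α α' fun ω => φ (W ω) (W' ω) := by
  obtain ⟨E, hE, hW⟩ := h
  obtain ⟨E', hE', hW'⟩ := h'
  refine ⟨E ∪ E', fun e he => (Finset.mem_union.1 he).elim (hE e) (hE' e), fun ω ω' h => ?_⟩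
  simp only
  rw [hW ω ω' fun e he => h e (Finset.mem_union_left _ he),
    hW' ω ω' fun e he => h e (Finset.mem_union_right _ he)]

lemma Loc.const {β : Type} (x : β) : Loc a α α' fun _ : Om => x := by
  exact ⟨∅, fun e he => absurd he (Finset.notMem_empty e), fun _ _ _ => rfl⟩

lemma Loc.forall {κ : Type} (Z : Finset κ) {W : κ → Om → Prop} (h : ∀ i ∈ Z, Loc a α α' (W i)) :
    Loc a α α' fun ω => ∀ i ∈ Z, W i ω := by
  classical
  induction Z using Finset.induction_on with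
  | empty => simpa using Loc.const True
  | insert j Z hj ih =>
    simp only [Finset.forall_mem_insert] at h ⊢
    exact h.1.map₂ (ih h.2) And

lemma LDom.mono {A A' : Om → ℝ → Prop} (h : LDom a α α' A d s) (hs : 0 < s) {α1 α1' d' : ℝ}
    (h1 : α1 ≤ α) (h2 : α' ≤ α1') (hA : ∀ ω z, A' ω z → ∃ z', A ω z' ∧ z - d' ≤ z' - d) :
    LDom a α1 α1' A' d' s := by
  obtain ⟨W, w1, w2, w3, w4⟩ := h
  refine ⟨W, w1, w2.mono h1 h2, fun ω z hz => ?_, w4⟩
  obtain ⟨b, hb, hab⟩ := hA ω z hz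
  refine le_trans ?_ (w3 ω b hb)
  gcongr

lemma LDom.add {A A' A'' : Om → ℝ → Prop} {d' s' : ℝ} (h : LDom a α α' A d s)
    (h' : LDom a α α' A' d' s') (hs : 0 < s) (hs' : 0 < s')
    (hA : ∀ ω z, A'' ω z → ∃ x y, A ω x ∧ A' ω y ∧ z ≤ x + y) :
    LDom a α α' A'' (d + d') (s + s') := by
  obtain ⟨W, h1, l1, h2, h3⟩ := h
  obtain ⟨W', h1', l1', h2', h3'⟩ := h'
  have ht0 : 0 ≤ s / (s + s') := by positivity
  have ht1 : s / (s + s') ≤ 1 := by rw [div_le_one (by positivity)]; linarith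
  refine ⟨fun ω => ENNReal.ofReal (s / (s + s')) * W ω + ENNReal.ofReal (1 - s / (s + s')) * W' ω,
    by fun_prop, l1.map₂ l1' fun x y => ENNReal.ofReal (s / (s + s')) * x +
      ENNReal.ofReal (1 - s / (s + s')) * y, fun ω a ha => ?_, ?_⟩
  · obtain ⟨b, c, hb, hc, habc⟩ := hA ω a ha
    have e1 : (a - (d + d')) / (s + s') ≤
        s / (s + s') * ((b - d) / s) + (1 - s / (s + s')) * ((c - d') / s') := by
      have : s / (s + s') * ((b - d) / s) + (1 - s / (s + s')) * ((c - d') / s') =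
          (b + c - (d + d')) / (s + s') := by field_simp; ring
      rw [this]; gcongr
    calc _ ≤ ENNReal.ofReal (s / (s + s') * exp ((b - d) / s) +
          (1 - s / (s + s')) * exp ((c - d') / s')) :=
          ENNReal.ofReal_le_ofReal ((exp_le_exp.2 e1).trans (exp_conv ht0 ht1))
      _ ≤ _ := by
          have : 0 ≤ 1 - s / (s + s') := by linarith
          rw [ENNReal.ofReal_add (by positivity) (by positivity), ENNReal.ofReal_mul ht0,
            ENNReal.ofReal_mul this]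
          exact add_le_add (mul_le_mul_right (h2 ω b hb) _) (mul_le_mul_right (h2' ω c hc) _)
  · rw [lintegral_add_left (by fun_prop), lintegral_const_mul _ h1, lintegral_const_mul _ h1',
      ← conv_three ht0 ht1]
    gcongr

lemma ldom_empty {A : Om → ℝ → Prop} (h : ∀ ω z, ¬ A ω z) : LDom a α α' A d s := by
  exact ⟨fun _ => 0, measurable_const, Loc.const _, fun ω z hz => (h ω z hz).elim, by simp⟩

/-- A countable family of local functions below a dominated family. -/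
lemma ldom_of_dom {A : Env → ℝ → Prop} (h : Dom A d s) (hs : 0 < s) {κ : Type} [Countable κ]
    {E : Finset EE} (hE : InR a α α' E) {φ : κ → Env → ℝ} (hm : ∀ i, Measurable (φ i))
    (hd : ∀ i, DependsOn (φ i) (E : Set EE)) (hA : ∀ i ω, ∃ z, A ω z ∧ φ i ω ≤ z) :
    LDom a α α' (fun ω z => ∃ i, z ≤ φ i ω.2) d s := by
  obtain ⟨W, h1, h2, h3⟩ := h
  refine ⟨fun ω => ⨆ i, ENNReal.ofReal (exp ((φ i ω.2 - d) / s)),
    Measurable.iSup fun i => by have := hm i; fun_prop,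
    ⟨E, hE, fun ω ω' h => iSup_congr fun i => by rw [hd i fun e he => (h e he).2]⟩,
    fun ω z ⟨i, hi⟩ => le_iSup_of_le i (by gcongr), ?_⟩
  calc _ ≤ ∫⁻ ω : Om, W ω.2 ∂P2 := lintegral_mono fun ω => iSup_le fun i => by
        obtain ⟨z, hz, hz'⟩ := hA i ω.2
        refine le_trans ?_ (h2 _ z hz)
        gcongr
    _ = ∫⁻ ω, W ω ∂PE := measurePreserving_snd.lintegral_comp h1
    _ ≤ 3 := h3

lemma ldom_seg {f : Fd} {r ρ : ℝ} {z z' z0 : ℝ × ℝ} (h : Dom (Gn f r ρ z z') d s) (hs : 0 < s) :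
    LDom f.a α α' (Seg f r ρ z z' (Sl f z0 α α')) d s := by
  refine (ldom_of_dom h hs (κ := {x : Σ q : VV × VV, GG.Walk q.1 q.2 //
      Sq f z r x.1.1 ∧ Sq f z' r x.1.2 ∧ n1 (x.1.2 - x.1.1) ≤ ρ ∧
        ∀ w ∈ x.2.support, w ∈ Sl f z0 α α'}) (inR_Sl f z0 α α')
    (φ := fun x X => f.L (iv (x.1.1.2 - x.1.1.1)) - wt X (es x.1.2)) (fun x => by fun_prop)
    (fun x X X' hX => ?_) fun x X => ⟨_, ⟨_, _, x.2.1, x.2.2.1, x.2.2.2.1, rfl⟩,
      sub_le_sub_left (TT_le X x.1.2) _⟩).mono hs le_rfl le_rfl ?_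
  · simp only
    rw [wt_congr fun e he => hX e (es_subset_sym2 x.2.2.2.2 he)]
  · rintro ω _ ⟨q, q', h1, h2, h3, p, h4, rfl⟩
    exact ⟨_, ⟨⟨⟨(q, q'), p⟩, h1, h2, h3, h4⟩, le_rfl⟩, le_rfl⟩

lemma ldom_ind {E : Set Om} (hm : MeasurableSet E) (hl : Loc a α α' fun ω => ω ∈ E) {β : ℝ}
    (hβ : 0 < β) (hE : P2 E ≤ ENNReal.ofReal (exp (-β))) :
    LDom a α α' (fun ω z => z ≤ 1 ∧ ω ∈ E) 0 (1 / β) := by
  obtain ⟨F, h1, h2⟩ := hl
  refine ⟨E.indicator fun _ => ENNReal.ofReal (exp β), measurable_const.indicator hm,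
    ⟨F, h1, fun ω ω' h => ?_⟩, fun ω z hz => ?_, ?_⟩
  · have h3 : (ω ∈ E) = (ω' ∈ E) := h2 ω ω' h
    by_cases h4 : ω' ∈ E
    · rw [indicator_of_mem h4, indicator_of_mem (h3 ▸ h4 : ω ∈ E)]
    · rw [indicator_of_notMem h4, indicator_of_notMem fun h5 => h4 (h3 ▸ h5)]
  · rw [indicator_of_mem hz.2, sub_zero, div_div_eq_mul_div, div_one]
    exact ENNReal.ofReal_le_ofReal (exp_le_exp.2 (mul_le_of_le_one_left hβ.le hz.1))
  · rw [lintegral_indicator_const hm]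
    refine (mul_le_mul_right hE _).trans ?_
    rw [← ENNReal.ofReal_mul (exp_pos _).le, ← exp_add, add_neg_cancel, exp_zero,
      ENNReal.ofReal_one]
    norm_num

lemma sel_fl_lt {M i : ℕ} {ξ : Cfg M} (h : i ∈ ξ.fl) : i < M := by
  obtain ⟨j, -, rfl⟩ := Finset.mem_map.1 h
  exact j.2

lemma sel_tsum_pi {β : Type} (g : β → ℝ≥0∞) (M : ℕ) :
    ∑' ξ : Fin M → β, ∏ i, g (ξ i) = (∑' x, g x) ^ M := by
  induction M with
  | zero => simp
  | succ M ih =>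
    rw [← (Fin.consEquiv fun _ => β).tsum_eq, ENNReal.tsum_prod']
    simp only [Fin.consEquiv_apply, Fin.prod_univ_succ, Fin.cons_zero, Fin.cons_succ,
      ENNReal.tsum_mul_left, ENNReal.tsum_mul_right, ih, pow_succ']

lemma sel_tsum (M : ℕ) : ∑' ξ : Cfg M, ENNReal.ofReal (exp (-ξ.size - 3 * M)) ≤ 1 := by
  obtain ⟨u, hu⟩ : ∃ u : ℤ → ℝ≥0∞, ∀ j, u j = ENNReal.ofReal (exp (-1 * |(j : ℝ)|)) :=
    ⟨_, fun _ => rfl⟩
  have h1 : ∀ ξ : Cfg M, ENNReal.ofReal (exp (-ξ.size - 3 * M)) =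
      ∏ i, u (ξ i).1 * (u (ξ i).2.1 * ENNReal.ofReal (exp (-3))) := fun ξ => by
    simp only [hu, ← ENNReal.ofReal_mul (exp_pos _).le, ← exp_add]
    rw [← ENNReal.ofReal_prod_of_nonneg fun _ _ => (exp_pos _).le, ← exp_sum, Cfg.size,
      Finset.sum_range]
    simp only [Cfg.k, Cfg.d, Fin.is_lt, dif_pos, Fin.eta, Finset.sum_add_distrib, neg_mul, one_mul,
      Finset.sum_neg_distrib, Finset.sum_const, Finset.card_univ, Fintype.card_fin, nsmul_eq_mul]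
    congr 2
    ring
  simp only [h1]
  rw [sel_tsum_pi fun x : ℤ × ℤ × Bool => u x.1 * (u x.2.1 * ENNReal.ofReal (exp (-3)))]
  refine pow_le_one₀ zero_le ?_
  have h2 : ∑' j, u j ≤ ENNReal.ofReal 3 := by
    simp only [hu]
    exact (tsum_exp_abs_le one_pos).trans (le_of_eq (by norm_num))
  simp only [ENNReal.tsum_prod', ENNReal.tsum_mul_left, tsum_bool]
  simp only [← mul_add, ENNReal.tsum_mul_right]
  refine (mul_le_mul' h2 (mul_le_mul_left h2 _)).trans ?_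
  rw [← ENNReal.ofReal_add (exp_pos _).le (exp_pos _).le, ← ENNReal.ofReal_mul (by norm_num),
    ← ENNReal.ofReal_mul (by norm_num), ENNReal.ofReal_le_one]
  have h3 : 18 ≤ exp 3 := by
    have h4 : (2.7 : ℝ) ^ 3 ≤ exp 1 ^ 3 :=
      pow_le_pow_left₀ (by norm_num) (by linarith [exp_one_gt_d9]) 3
    rw [← exp_nat_mul] at h4
    norm_num at h4
    linarith
  have h4 : exp (-3) * exp 3 = 1 := by rw [← exp_add]; simp
  nlinarith [exp_pos (-3)]

theorem selCore (M : ℕ) (lo hi : ℕ → ℝ) {A : (ℕ → ℤ) → ℤ → ℕ → Om → ℝ → Prop}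
    (hA : ∀ c k, ∀ i < M, LDom a (lo i) (hi i) (A c k i) d s) :
    ∃ W : Cfg M → Om → ℝ≥0∞, (∀ ξ, Measurable (W ξ)) ∧ ∑' ξ, ∫⁻ ω, W ξ ω ∂P2 ≤ 1 ∧
      ∀ ξ : Cfg M, ξ.Valid lo hi → ∀ (ω : Om) (z : ℕ → ℝ), (∀ i ∈ ξ.fl, A ξ.c (ξ.d i) i ω (z i)) →
        ENNReal.ofReal (exp (∑ i ∈ ξ.fl, ((z i - d) / s - 2) - ξ.size - 3 * M)) ≤ W ξ ω := by
  classical
  choose! W w1 w2 w3 w4 using hA
  choose! E e1 e2 using w2
  have hm : ∀ ξ : Cfg M, ∀ i ∈ ξ.fl,
      Measurable fun ω => ENNReal.ofReal (exp (-2)) * W ξ.c (ξ.d i) i ω :=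
    fun ξ i hi => (w1 _ _ i (sel_fl_lt hi)).const_mul _
  refine ⟨fun ξ ω => if ξ.Valid lo hi then ENNReal.ofReal (exp (-ξ.size - 3 * M)) *
    ∏ i ∈ ξ.fl, ENNReal.ofReal (exp (-2)) * W ξ.c (ξ.d i) i ω else 0, fun ξ => ?_,
    le_trans (ENNReal.tsum_le_tsum fun ξ => ?_) (sel_tsum M), fun ξ hξ ω z hz => ?_⟩
  · by_cases hξ : ξ.Valid lo hi
    · simp only [if_pos hξ]
      exact (Finset.measurable_prod _ (hm ξ)).const_mul _
    · simp only [if_neg hξ]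
      exact measurable_const
  · by_cases hξ : ξ.Valid lo hi
    · simp only [if_pos hξ]
      have key : ∀ i ∈ ξ.fl, ∀ j ∈ ξ.fl, i < j →
          Disjoint (E ξ.c (ξ.d i) i) (E ξ.c (ξ.d j) j) := fun i h1 j h2 h3 =>
        Finset.disjoint_left.2 fun e h4 h5 => by
          have h6 := (e1 _ _ i (sel_fl_lt h1) e h4 _ e.out_fst_mem).2
          have h7 := (e1 _ _ j (sel_fl_lt h2) e h5 _ e.out_fst_mem).1
          linarith [hξ i h1 j h2 h3]
      rw [lintegral_const_mul _ (Finset.measurable_prod _ (hm ξ)),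
        indep2 ξ.fl (E := fun i => E ξ.c (ξ.d i) i) (hm ξ)
          (fun i h1 ω ω' h => by simp only [e2 _ _ i (sel_fl_lt h1) ω ω' h])
          fun i h1 j h2 h3 => (lt_or_gt_of_ne h3).elim (key i h1 j h2)
            fun h4 => (key j h2 i h1 h4).symm]
      refine mul_le_of_le_one_right' (Finset.prod_le_one' fun i h1 => ?_)
      rw [lintegral_const_mul _ (w1 _ _ i (sel_fl_lt h1))]
      refine (mul_le_mul_right (w4 _ _ i (sel_fl_lt h1)) _).trans ?_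
      rw [show (3 : ℝ≥0∞) = ENNReal.ofReal 3 by norm_num, ← ENNReal.ofReal_mul (exp_pos _).le,
        ENNReal.ofReal_le_one, exp_neg, inv_mul_le_iff₀ (exp_pos _)]
      linarith [add_one_le_exp 2]
    · simp [hξ]
  · simp only [if_pos hξ]
    rw [sub_sub, sub_eq_neg_add, exp_add, ENNReal.ofReal_mul (exp_pos _).le, exp_sum,
      ENNReal.ofReal_prod_of_nonneg fun _ _ => (exp_pos _).le, neg_add', ]
    refine mul_le_mul_right (Finset.prod_le_prod' fun i h1 => ?_) _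
    rw [sub_eq_neg_add, exp_add, ENNReal.ofReal_mul (exp_pos _).le]
    exact mul_le_mul_right (w3 _ _ i (sel_fl_lt h1) ω _ (hz i h1)) _

theorem sumSel (M : ℕ) {g : ℕ} (hg : 1 ≤ g) (lo hi : ℕ → ℝ)
    (hsep : ∀ i i', i + g ≤ i' → hi i ≤ lo i') {A : (ℕ → ℤ) → ℤ → ℕ → Om → ℝ → Prop}
    (hA : ∀ c k, ∀ i < M, LDom a (lo i) (hi i) (A c k i) d s) (hd : 0 ≤ d) (hs : 0 < s)
    {Y : ℕ → Om → ℝ} (hY : ∀ i < M, Integrable (Y i) P2) {H : Om → ℝ} (hH : Integrable H P2)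
    (h : ∀ ω, ∃ c k : ℕ → ℤ, c 0 = 0 ∧ (∀ j, M ≤ j → c j = c M) ∧
      ∑ i ∈ Finset.range M, (|((c (i + 1) - c i : ℤ) : ℝ)| + |(k i : ℝ)|) ≤ H ω ∧
      ∀ i < M, Y i ω ≤ 0 ∨ A c (k i) i ω (Y i ω)) :
    ∫ ω, ∑ i ∈ Finset.range M, Y i ω ∂P2 ≤
      M * (d + 2 * s) + g * s * (∫ ω, H ω ∂P2 + 3 * M) := by
  classical
  obtain ⟨W, w1, w2, w3⟩ := selCore M lo hi hA
  have i1 : ∀ i < M, Integrable (fun ω => (Y i ω - d) / s - 2) P2 := fun i h =>
    (((hY i h).sub (integrable_const d)).div_const s).sub (integrable_const 2)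
  have i2 : ∀ i < M, ∫ ω, ((Y i ω - d) / s - 2) ∂P2 = ((∫ ω, Y i ω ∂P2) - d) / s - 2 := by
    intro i h
    have : Integrable (fun ω => (Y i ω - d) / s) P2 :=
      ((hY i h).sub (integrable_const d)).div_const s
    rw [integral_sub this (integrable_const 2), integral_div, integral_sub (hY i h) (integrable_const d)]
    simp
  have key : ∀ r, ∑ i ∈ (Finset.range M).filter fun i => i % g = r,
      (((∫ ω, Y i ω ∂P2) - d) / s - 2) ≤ ∫ ω, H ω ∂P2 + 3 * M := by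
    intro r
    have f1 : ∀ i ∈ (Finset.range M).filter fun i => i % g = r, i < M := fun i h =>
      Finset.mem_range.1 (Finset.mem_filter.1 h).1
    have i3 := integrable_finsetSum _ fun i h => i1 i (f1 i h)
    have h1 := lemJ (W := fun ω => ∑' ξ, W ξ ω) ((i3.sub hH).sub (integrable_const (3 * (M : ℝ))))
      (ae_of_all _ fun ω => by
        obtain ⟨c, k, c1, c2, c3, c4⟩ := h ω
        obtain ⟨ξ, rfl, x2, x3, x4⟩ := exists_cfg c k
          (((Finset.range M).filter fun i => i % g = r).filter fun i => 0 < Y i ω) c1 c2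
          fun i h => f1 i (Finset.mem_filter.1 h).1
        refine le_trans ?_ ((w3 ξ (fun i h1 j h2 h3 => hsep i j ?_) ω (fun i => Y i ω)
          fun i h1 => ?_).trans (ENNReal.le_tsum ξ))
        · refine ENNReal.ofReal_le_ofReal (exp_le_exp.2 ?_)
          have := Finset.sum_le_sum_of_subset_of_nonneg (f := fun i => -((Y i ω - d) / s - 2))
            (Finset.filter_subset (fun i => 0 < Y i ω) ((Finset.range M).filter fun i => i % g = r))
            fun i h1 h2 => by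
              have h3 : Y i ω ≤ 0 := not_lt.1 fun h4 => h2 (Finset.mem_filter.2 ⟨h1, h4⟩)
              have h4 : (Y i ω - d) / s ≤ 0 := div_nonpos_of_nonpos_of_nonneg (by linarith) hs.le
              linarith
          rw [Finset.sum_neg_distrib, Finset.sum_neg_distrib, ← x3] at this
          simp only [Pi.sub_apply]
          linarith
        · rw [x3] at h1 h2
          have h4 : i ≡ j [MOD g] := (Finset.mem_filter.1 (Finset.mem_filter.1 h1).1).2.trans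
            (Finset.mem_filter.1 (Finset.mem_filter.1 h2).1).2.symm
          have := Nat.le_of_dvd (by omega) ((Nat.modEq_iff_dvd' h3.le).1 h4)
          omega
        · rw [x2 i (sel_fl_lt h1)]
          refine (c4 i (sel_fl_lt h1)).resolve_left (not_le.2 ?_)
          rw [x3] at h1
          exact (Finset.mem_filter.1 h1).2)
    rw [lintegral_tsum fun ξ => (w1 ξ).aemeasurable] at h1
    have h2 := h1 (ne_top_of_le_ne_top ENNReal.one_ne_top w2)
    have h3 := ENNReal.toReal_mono ENNReal.one_ne_top w2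
    rw [integral_sub' (i3.sub hH) (integrable_const _), integral_sub' i3 hH,
      integral_finsetSum _ fun i h => i1 i (f1 i h),
      Finset.sum_congr rfl fun i h => i2 i (f1 i h)] at h2
    simp only [integral_const, probReal_univ, smul_eq_mul, one_mul, ENNReal.toReal_one] at h2 h3
    linarith
  have h1 := Finset.sum_le_sum fun r (_ : r ∈ Finset.range g) => key r
  rw [Finset.sum_fiberwise_of_maps_to fun i _ => Finset.mem_range.2 (Nat.mod_lt i hg),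
    Finset.sum_sub_distrib, ← Finset.sum_div, Finset.sum_sub_distrib] at h1
  simp only [Finset.sum_const, Finset.card_range, nsmul_eq_mul] at h1
  rw [integral_finsetSum _ fun i h => hY i (Finset.mem_range.1 h)]
  rw [sub_le_iff_le_add, div_le_iff₀ hs] at h1
  linarith

theorem certSel (M : ℕ) (lo hi : ℕ → ℝ) {A : (ℕ → ℤ) → ℕ → Om → ℝ → Prop}
    (hA : ∀ c, ∀ i < M, LDom a (lo i) (hi i) (A c i) d s) (hd : 0 ≤ d) (hs : 0 < s)
    {P : Env → Set EE} {Γ : Om → Finset EE} {U Nf H : Om → ℝ} (hU : Integrable U P2)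
    (hN : Integrable Nf P2) (hH : Integrable H P2)
    (h : ∀ ζ X : Env, ∃ (c : ℕ → ℤ) (F : Finset ℕ), c 0 = 0 ∧ (∀ j, M ≤ j → c j = c M) ∧
      (∀ i ∈ F, i < M) ∧ (∀ i ∈ F, ∀ i' ∈ F, i < i' → hi i ≤ lo i') ∧
      ∑ i ∈ Finset.range M, |((c (i + 1) - c i : ℤ) : ℝ)| ≤ H (ζ, X) ∧ (F.card : ℝ) ≤ Nf (ζ, X) ∧
      ∀ X' : Env, (∀ e, max (X' e) 0 ≤ max (X e) 0) → (∀ e, e ∉ P ζ → X' e = X e) →
        ∃ z : ℕ → ℝ, (∀ i ∈ F, A c i (ζ, X') (z i)) ∧
          wt X (Γ (ζ, X)) - wt X' (Γ (ζ, X)) ≤ U (ζ, X) + ∑ i ∈ F, z i) :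
    Cert P Γ (1 / s)
      ((∫ ω, U ω ∂P2) / s + (d / s + 2) * ∫ ω, Nf ω ∂P2 + ∫ ω, H ω ∂P2 + 3 * M) := by
  obtain ⟨W, w1, w2, w3⟩ := selCore (A := fun c _ i => A c i) M lo hi fun c _ => hA c
  have i1 := hU.div_const s
  have i2 := hN.const_mul (d / s + 2)
  have i3 : Integrable (fun ω => U ω / s + (d / s + 2) * Nf ω) P2 := i1.add i2
  have i4 : Integrable (fun ω => U ω / s + (d / s + 2) * Nf ω + H ω) P2 := i3.add hH
  refine ⟨fun ω => ∑' ξ, W ξ ω, fun ω => U ω / s + (d / s + 2) * Nf ω + H ω + 3 * M,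
    Measurable.ennreal_tsum w1, by rwa [lintegral_tsum fun ξ => (w1 ξ).aemeasurable],
    i4.add (integrable_const _), le_of_eq ?_, fun ζ X X' h1 h2 => ?_⟩
  · rw [integral_add i4 (integrable_const _), integral_add i3 hH, integral_add i1 i2,
      integral_div, integral_const_mul]
    simp
  obtain ⟨c, F, c1, c2, c3, c4, c5, c6, c7⟩ := h ζ X
  obtain ⟨z, z1, z2⟩ := c7 X' h1 h2
  obtain ⟨ξ, rfl, -, rfl, x4⟩ := exists_cfg c 0 F c1 c2 c3
  refine le_trans (ENNReal.ofReal_le_ofReal (exp_le_exp.2 ?_))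
    ((w3 ξ c4 (ζ, X') z z1).trans (ENNReal.le_tsum ξ))
  simp only [Pi.zero_apply, Int.cast_zero, abs_zero, add_zero] at x4
  rw [Finset.sum_sub_distrib, ← Finset.sum_div, Finset.sum_sub_distrib]
  simp only [Finset.sum_const, nsmul_eq_mul]
  have h3 := div_le_div_of_nonneg_right z2 hs.le
  have h4 := mul_le_mul_of_nonneg_left c6 (by positivity : 0 ≤ d / s + 2)
  rw [one_div, inv_mul_eq_div, sub_div (∑ i ∈ _, z i), mul_div_assoc]
  rw [add_div] at h3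
  linarith

lemma Cert.mono {P P' : Env → Set EE} {Γ Γ' : Om → Finset EE} {θ θ' v v' : ℝ}
    (h : Cert P Γ θ v) (hP : ∀ ζ, P' ζ ⊆ P ζ) (hΓ : ∀ ω, Γ' ω ⊆ Γ ω) (h0 : 0 ≤ θ') (hθ : θ' ≤ θ)
    (hv : v ≤ v') (hv0 : 0 ≤ v') : Cert P' Γ' θ' v' := by
  obtain ⟨W, V, h1, h2, h3, h4, h5⟩ := h
  obtain ⟨t, t0, t1, rfl⟩ : ∃ t, 0 ≤ t ∧ t ≤ 1 ∧ θ' = t * θ := by
    rcases h0.eq_or_lt with rfl | h
    · exact ⟨0, le_rfl, zero_le_one, by simp⟩
    · have : 0 < θ := h.trans_le hθ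
      exact ⟨θ' / θ, by positivity, (div_le_one this).2 hθ, by field_simp⟩
  have t2 : 0 ≤ 1 - t := by linarith
  refine ⟨fun ω => ENNReal.ofReal t * W ω + ENNReal.ofReal (1 - t), fun ω => t * V ω, by fun_prop,
    ?_, h3.const_mul t, ?_, fun ζ X X' g1 g2 => ?_⟩
  · rw [lintegral_add_left (by fun_prop), lintegral_const_mul _ h1, lintegral_const, measure_univ,
      mul_one]
    refine (add_le_add_left (mul_le_of_le_one_right' h2) _).trans ?_
    rw [← ENNReal.ofReal_add t0 t2]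
    simp
  · rw [integral_const_mul]
    nlinarith [mul_le_mul_of_nonneg_left (h4.trans hv) t0]
  · have g3 := h5 ζ X X' g1 fun e he => g2 e fun h => he (hP ζ h)
    have g4 := mul_le_mul_of_nonneg_left (gain_mono g1 (hΓ (ζ, X))) h0
    have g5 := exp_conv (x := θ * (wt X (Γ (ζ, X)) - wt X' (Γ (ζ, X))) - V (ζ, X)) (y := 0) t0 t1
    refine (ENNReal.ofReal_le_ofReal ((exp_le_exp.2 (by linarith)).trans g5)).trans ?_
    rw [exp_zero, mul_one, ENNReal.ofReal_add (by positivity) t2, ENNReal.ofReal_mul t0]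
    exact add_le_add_left (mul_le_mul_right g3 _) _

lemma Cert.union {κ : Type} (Z : Finset κ) (hZ : Z.Nonempty) {P : Env → Set EE}
    {Γ : κ → Om → Finset EE} {Γ' : Om → Finset EE} {θ v : ℝ} (hθ : 0 ≤ θ)
    (h : ∀ l ∈ Z, Cert P (Γ l) θ v) (hΓ : ∀ ω, ∀ e ∈ Γ' ω, ∃ l ∈ Z, e ∈ Γ l ω) :
    Cert P Γ' (θ / Z.card) v := by
  choose! W V h1 h2 h3 h4 h5 using h
  have hc : (0 : ℝ) < Z.card := by exact_mod_cast hZ.card_pos
  refine ⟨fun ω => ENNReal.ofReal (Z.card : ℝ)⁻¹ * ∑ l ∈ Z, W l ω,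
    fun ω => (Z.card : ℝ)⁻¹ * ∑ l ∈ Z, V l ω, (Finset.measurable_sum _ h1).const_mul _, ?_,
    (integrable_finsetSum _ h3).const_mul _, ?_, fun ζ X X' g1 g2 => ?_⟩
  · rw [lintegral_const_mul _ (Finset.measurable_sum _ h1), lintegral_finsetSum _ h1]
    refine (mul_le_mul_right (Finset.sum_le_sum h2) _).trans ?_
    rw [Finset.sum_const, nsmul_eq_mul, mul_one, ← ENNReal.ofReal_natCast,
      ← ENNReal.ofReal_mul (by positivity), inv_mul_cancel₀ hc.ne', ENNReal.ofReal_one]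
  · rw [integral_const_mul, integral_finsetSum _ h3, inv_mul_le_iff₀ hc, ← nsmul_eq_mul,
      ← Finset.sum_const]
    exact Finset.sum_le_sum h4
  · have g3 := (gain_mono g1 (S := Γ' (ζ, X)) (S' := Z.biUnion fun l => Γ l (ζ, X))
      fun e he => Finset.mem_biUnion.2 (hΓ _ e he)).trans (gain_biUnion g1 Z _)
    have g4 := convexOn_exp.map_sum_le (t := Z) (w := fun _ => (Z.card : ℝ)⁻¹)
      (p := fun l => θ * (wt X (Γ l (ζ, X)) - wt X' (Γ l (ζ, X))) - V l (ζ, X))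
      (fun _ _ => by positivity) (by simp [hc.ne']) (fun _ _ => mem_univ _)
    simp only [smul_eq_mul, ← Finset.mul_sum] at g4
    rw [Finset.sum_sub_distrib, ← Finset.mul_sum] at g4
    refine (ENNReal.ofReal_le_ofReal ((exp_le_exp.2 ?_).trans g4)).trans ?_
    · have := mul_le_mul_of_nonneg_left g3 (by positivity : 0 ≤ θ / Z.card)
      rw [mul_sub _ (θ * _), ← mul_assoc, inv_mul_eq_div]
      linarith
    · rw [ENNReal.ofReal_mul (by positivity),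
        ENNReal.ofReal_sum_of_nonneg fun _ _ => (exp_pos _).le]
      exact mul_le_mul_right (Finset.sum_le_sum fun l hl => h5 l hl ζ X X' g1 g2) _

end Pool.Agent.Lib.MP_de94ef_pr.Q
end

-- part Pool.Agent.Lib.MP_de94ef_pr.Q.TopL
section

/-!
Union bounds along the skeleton of the geodesic.
-/

open MeasureTheory ProbabilityTheory Set Real Function Filter Topology
open scoped ENNReal NNReal

namespace Pool.Agent.Lib.MP_de94ef_pr.Q

lemma topL_integrable {g : Env → ℝ} (hg : Integrable g PE) : Integrable (fun ω : Om => g ω.2) P2 :=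
  (measurePreserving_snd (μ := PE) (ν := PE)).integrable_comp_of_integrable hg

lemma topL_integral {g : Env → ℝ} (hg : Integrable g PE) : ∫ ω, g ω.2 ∂P2 = ∫ X, g X ∂PE := by
  have h := measurePreserving_snd (μ := PE) (ν := PE)
  rw [← h.map_eq, integral_map h.measurable.aemeasurable]
  rw [h.map_eq]
  exact hg.aestronglyMeasurable

variable {c : Bs} {f : Fd} {v : VV} {M : ℕ} {s C d s' : ℝ}

lemma Tp.skel (h : Tp c f v M s C) {X : Env} (hX : Nice c.μ f.a v s X) :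
    cs f c.m (geo v X) 0 = 0 ∧ (∀ j, M ≤ j → cs f c.m (geo v X) j = cs f c.m (geo v X) M) ∧
      ∑ i ∈ Finset.range M, |((cs f c.m (geo v X) (i + 1) - cs f c.m (geo v X) i : ℤ) : ℝ)| ≤
        DS c f v M s X + M := by
  refine ⟨h.top.cs_zero h.big _, fun j hj => by
    rw [h.top.cs_last h.big _ hj, h.top.cs_last h.big _ le_rfl], ?_⟩
  refine (Finset.sum_le_sum fun i _ => abs_ks_le f h.big.m_pos (geo v X) i).trans (le_of_eq ?_)
  rw [Finset.sum_add_distrib, DS, if_pos hX]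
  simp

lemma topL_H (h : Tp c f v M s C) : Integrable (fun ω : Om => DS c f v M s ω.2 + M) P2 ∧
    ∫ ω, (DS c f v M s ω.2 + M) ∂P2 + 3 * M ≤ 5 * C * M := by
  have i1 := topL_integrable (integrable_DS c f v M s)
  refine ⟨i1.add (integrable_const _), ?_⟩
  rw [integral_add i1 (integrable_const _), topL_integral (integrable_DS c f v M s)]
  simp only [integral_const, probReal_univ, smul_eq_mul, one_mul]
  have h1 := mul_le_mul_of_nonneg_right h.one (Nat.cast_nonneg (α := ℝ) M)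
  linarith [h.hD]

theorem Tp.sum (h : Tp c f v M s C) {g : ℕ} (hg : 1 ≤ g) (lo hi : ℕ → ℝ)
    (hsep : ∀ i i', i + g ≤ i' → hi i ≤ lo i') {A : (ℕ → ℤ) → ℕ → Om → ℝ → Prop}
    (hA : ∀ k, ∀ i < M, LDom f.a (lo i) (hi i) (A k i) d s') (hd : 0 ≤ d) (hs : 0 < s')
    {Y : ℕ → Om → ℝ} (hY : ∀ i < M, Integrable (Y i) P2)
    (hYA : ∀ ω, ∀ i < M, Y i ω ≤ 0 ∨
      (Nice c.μ f.a v s ω.2 ∧ A (cs f c.m (geo v ω.2)) i ω (Y i ω))) :
    ∫ ω, ∑ i ∈ Finset.range M, Y i ω ∂P2 ≤ (d + (2 + 5 * C * g) * s') * M := by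
  obtain ⟨i1, e1⟩ := topL_H h
  have key := sumSel M hg lo hi hsep (A := fun k _ => A k) (fun k _ => hA k) hd hs hY i1
    fun ω => by
      by_cases hX : Nice c.μ f.a v s ω.2
      · obtain ⟨h1, h2, h3⟩ := h.skel hX
        exact ⟨cs f c.m (geo v ω.2), 0, h1, h2, by simpa using h3,
          fun i hi => (hYA ω i hi).imp_right And.right⟩
      · refine ⟨0, 0, rfl, fun _ _ => rfl, ?_,
          fun i hi => (hYA ω i hi).imp_right fun h1 => (hX h1.1).elim⟩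
        have := DS_nonneg c f v M s ω.2
        simp only [Pi.zero_apply, sub_self, Int.cast_zero, abs_zero, add_zero,
          Finset.sum_const_zero]
        positivity
  have h2 := mul_le_mul_of_nonneg_left e1 (by positivity : 0 ≤ (g : ℝ) * s')
  linarith

theorem Tp.count (h : Tp c f v M s C) {g : ℕ} (hg : 1 ≤ g) (lo hi : ℕ → ℝ)
    (hsep : ∀ i i', i + g ≤ i' → hi i ≤ lo i') {E : (ℕ → ℤ) → ℕ → Set Om} {β : ℝ} (hβ : 0 < β)
    (hm : ∀ k, ∀ i < M, MeasurableSet (E k i))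
    (hl : ∀ k, ∀ i < M, Loc f.a (lo i) (hi i) fun ω => ω ∈ E k i)
    (hE : ∀ k, ∀ i < M, P2 (E k i) ≤ ENNReal.ofReal (exp (-β))) {F : Om → Finset ℕ}
    (hF : Flags c f v M s F) (hFE : ∀ ω, ∀ i ∈ F ω, ω ∈ E (cs f c.m (geo v ω.2)) i) :
    ∫ ω, ((F ω).card : ℝ) ∂P2 ≤ 7 * C * g / β * M := by
  have key := h.sum hg lo hi hsep (A := fun k i ω z => z ≤ 1 ∧ ω ∈ E k i)
    (fun k i hi => ldom_ind (hm k i hi) (hl k i hi) hβ (hE k i hi)) le_rfl (by positivity)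
    (Y := fun i => indicator {ω | i ∈ F ω} fun _ => 1)
    (fun i _ => (integrable_const _).indicator (hF.1 i)) fun ω i _ => by
      by_cases hi : i ∈ F ω
      · rw [indicator_of_mem (show ω ∈ {ω | i ∈ F ω} from hi)]
        exact Or.inr ⟨(hF.2 ω i hi).2, le_rfl, hFE ω i hi⟩
      · rw [indicator_of_notMem (show ω ∉ {ω | i ∈ F ω} from hi)]
        exact Or.inl le_rfl
  have e : ∀ ω, ∑ i ∈ Finset.range M, indicator {ω | i ∈ F ω} (fun _ => (1 : ℝ)) ω =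
      (F ω).card := fun ω => by
    simp only [indicator_apply, mem_ofPred_eq, Finset.sum_boole, Finset.filter_mem_eq_inter]
    rw [Finset.inter_eq_right.2 fun i hi => Finset.mem_range.2 (hF.2 ω i hi).1]
  simp only [e] at key
  refine key.trans (mul_le_mul_of_nonneg_right ?_ (Nat.cast_nonneg _))
  have h1 : (1 : ℝ) ≤ g := by exact_mod_cast hg
  have h2 : 1 ≤ C * g := one_le_mul_of_one_le_of_one_le h.one h1
  rw [zero_add, mul_one_div]
  exact div_le_div_of_nonneg_right (by linarith) hβ.le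

theorem Tp.cert (h : Tp c f v M s C) (lo hi : ℕ → ℝ) {A : (ℕ → ℤ) → ℕ → Om → ℝ → Prop}
    (hA : ∀ k, ∀ i < M, LDom f.a (lo i) (hi i) (A k i) d s') (hd : 0 ≤ d) (hs : 0 < s')
    {P : Env → Set EE} {Γ : Om → Finset EE} {U Nf : Om → ℝ} (hU : Integrable U P2)
    (hU0 : ∀ ω, 0 ≤ U ω) (hN : Integrable Nf P2) (hN0 : ∀ ω, 0 ≤ Nf ω)
    (hΓ : ∀ ω, ¬ Nice c.μ f.a v s ω.2 → Γ ω = ∅)
    (hF : ∀ ζ X : Env, Nice c.μ f.a v s X → ∃ F : Finset ℕ, (∀ i ∈ F, i < M) ∧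
      (∀ i ∈ F, ∀ i' ∈ F, i < i' → hi i ≤ lo i') ∧ (F.card : ℝ) ≤ Nf (ζ, X) ∧
      ∀ X' : Env, (∀ e, max (X' e) 0 ≤ max (X e) 0) → (∀ e, e ∉ P ζ → X' e = X e) →
        ∃ z : ℕ → ℝ, (∀ i ∈ F, A (cs f c.m (geo v X)) i (ζ, X') (z i)) ∧
          wt X (Γ (ζ, X)) - wt X' (Γ (ζ, X)) ≤ U (ζ, X) + ∑ i ∈ F, z i) :
    Cert P Γ (1 / s')
      ((∫ ω, U ω ∂P2) / s' + (d / s' + 2) * ∫ ω, Nf ω ∂P2 + 5 * C * M) := by
  obtain ⟨i1, e1⟩ := topL_H h
  obtain ⟨W, V, k1, k2, k3, k4, k5⟩ := certSel M lo hi hA hd hs (P := P) (Γ := Γ) hU hN i1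
    fun ζ X => by
      by_cases hX : Nice c.μ f.a v s X
      · obtain ⟨h1, h2, h3⟩ := h.skel hX
        obtain ⟨F, f1, f2, f3, f4⟩ := hF ζ X hX
        exact ⟨cs f c.m (geo v X), F, h1, h2, f1, f2, h3, f3, f4⟩
      · refine ⟨0, ∅, rfl, fun _ _ => rfl, by simp, by simp, ?_, by simpa using hN0 _,
          fun X' _ _ => ⟨0, by simp, ?_⟩⟩
        · have := DS_nonneg c f v M s X
          simp only [Pi.zero_apply, sub_self, Int.cast_zero, abs_zero, Finset.sum_const_zero]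
          positivity
        · rw [hΓ (ζ, X) hX]
          simpa using hU0 _
  exact ⟨W, V, k1, k2, k3, by linarith, k5⟩

lemma topL_count {F : Om → Finset ℕ} (hF : Flags c f v M s F) {G : Env → ℝ}
    (hG : Integrable G PE) (h0 : ∀ X, 0 ≤ G X) {K b : ℝ} (hK : 0 < K)
    (h1 : ∀ ω : Om, Nice c.μ f.a v s ω.2 → K * (F ω).card ≤ G ω.2) (h2 : ∫ X, G X ∂PE ≤ K * b) :
    ∫ ω, ((F ω).card : ℝ) ∂P2 ≤ b := by
  refine le_of_mul_le_mul_left (le_trans ?_ h2) hK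
  rw [← integral_const_mul, ← topL_integral hG]
  refine integral_mono (hF.integrable_card.const_mul _) (topL_integrable hG) fun ω => ?_
  rcases (F ω).eq_empty_or_nonempty with h | ⟨i, hi⟩
  · simpa [h] using h0 ω.2
  · exact h1 ω (hF.2 ω i hi).2

/-- Blocks with a large spread are rare. -/
lemma Tp.count_D (h : Tp c f v M s C) {K : ℝ} (hK : 0 < K) {F : Om → Finset ℕ}
    (hF : Flags c f v M s F) (hFD : ∀ ω, ∀ i ∈ F ω, K ≤ Dd f c.m (geo v ω.2) i) :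
    ∫ ω, ((F ω).card : ℝ) ∂P2 ≤ C / K * M := by
  refine topL_count hF (integrable_DS c f v M s) (DS_nonneg c f v M s) hK (fun ω hω => ?_)
    (h.hD.trans (le_of_eq (by field_simp)))
  rw [DS, if_pos hω, mul_comm, ← nsmul_eq_mul]
  exact (Finset.card_nsmul_le_sum _ _ _ (hFD ω)).trans (Finset.sum_le_sum_of_subset_of_nonneg
    (fun i hi => Finset.mem_range.2 (hF.2 ω i hi).1) fun i _ _ => Dd_nonneg _ _ _ _)

lemma topL_double {M g : ℕ} (F : Finset ℕ) (lo hi : ℕ → ℕ) (hlo : ∀ i, i ≤ lo i + g)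
    (hhi : ∀ i, hi i ≤ i + g) (hM : ∀ i ∈ F, hi i ≤ M) {x : ℕ → ℝ} (hx : ∀ j, 0 ≤ x j) :
    ∑ i ∈ F, ∑ j ∈ Finset.Ico (lo i) (hi i), x j ≤ (2 * g + 1) * ∑ j ∈ Finset.range M, x j := by
  have e : ∀ i ∈ F, ∑ j ∈ Finset.Ico (lo i) (hi i), x j =
      ∑ j ∈ Finset.range M, if j ∈ Finset.Ico (lo i) (hi i) then x j else 0 := fun i hi' => by
    rw [Finset.sum_ite_mem, Finset.inter_eq_right.2 fun j hj =>
      Finset.mem_range.2 ((Finset.mem_Ico.1 hj).2.trans_le (hM i hi'))]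
  rw [Finset.sum_congr rfl e, Finset.sum_comm, Finset.mul_sum]
  refine Finset.sum_le_sum fun j _ => ?_
  rw [← Finset.sum_filter, Finset.sum_const, nsmul_eq_mul]
  refine mul_le_mul_of_nonneg_right ?_ (hx j)
  have h1 : (F.filter fun i => j ∈ Finset.Ico (lo i) (hi i)).card ≤
      (Finset.Icc (j - g) (j + g)).card := Finset.card_le_card fun i hi' => by
    obtain ⟨h2, h3⟩ := Finset.mem_Ico.1 (Finset.mem_filter.1 hi').2
    have := hlo i
    have := hhi i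
    rw [Finset.mem_Icc]
    omega
  rw [Nat.card_Icc] at h1
  exact_mod_cast (by omega : (F.filter fun i => j ∈ Finset.Ico (lo i) (hi i)).card ≤ 2 * g + 1)

/-- Blocks surrounded by a large excess are rare. -/
lemma Tp.count_E (h : Tp c f v M s C) {K : ℝ} (hK : 0 < K) (g : ℕ) {F : Om → Finset ℕ}
    (hF : Flags c f v M s F) (lo hi : ℕ → ℕ)
    (hlo : ∀ i, i ≤ lo i + g) (hhi : ∀ i, hi i ≤ i + g)
    (hFE : ∀ ω, ∀ i ∈ F ω, hi i ≤ M ∧
      K * c.s ≤ ∑ j ∈ Finset.Ico (lo i) (hi i), |ex f c.m (geo v ω.2) ω.2 j|) :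
    ∫ ω, ((F ω).card : ℝ) ∂P2 ≤ (2 * g + 1) * C / K * M := by
  have hs := h.big.s_pos
  refine topL_count hF ((integrable_ES c f v M s).const_mul (2 * g + 1))
    (fun X => mul_nonneg (by positivity) (ES_nonneg c f v M s X)) (mul_pos hK hs) (fun ω hω => ?_) ?_
  · rw [ES, if_pos hω, mul_comm, ← nsmul_eq_mul]
    exact (Finset.card_nsmul_le_sum _ _ _ fun i hi' => (hFE ω i hi').2).trans
      (topL_double _ lo hi hlo hhi (fun i hi' => (hFE ω i hi').1) fun _ => abs_nonneg _)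
  · rw [integral_const_mul]
    exact (mul_le_mul_of_nonneg_left h.hE (by positivity)).trans (le_of_eq (by field_simp))

end Pool.Agent.Lib.MP_de94ef_pr.Q
end
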