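import Pool.Agent.Lib.MP_de94ef_pr.Q.Push
import Pool.Agent.Lib.MP_de94ef_pr.Q.TopL
import Pool.Agent.Lib.MP_de94ef_pr.Q.Thin

-- part Pool.Agent.Lib.MP_de94ef_pr.Q.CertB
section

/-!
Certificates for few blocks, light blocks and thin chords.
-/

open MeasureTheory ProbabilityTheory Set Real Function Filter Topology
open scoped ENNReal NNReal

namespace Pool.Agent.Lib.MP_de94ef_pr.Q

lemma certb_snd {g : Env → ℝ} (hg : Integrable g PE) :
    Integrable (fun ω : Om => g ω.2) P2 ∧ ∫ ω, g ω.2 ∂P2 = ∫ x, g x ∂PE := by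
  refine ⟨hg.comp_snd _, ?_⟩
  rw [integral_fun_snd]
  simp

lemma certb_dom {X : ℝ} (hX : 1 ≤ X) : ∃ B : ℝ, 0 ≤ B ∧ ∀ᶠ c in FB,
    ∀ (f : Fd) (z z' : ℝ × ℝ), Fr c.μ c.κ 1 f →
      Dom (Gn f c.m (22 * c.m) z z') (B * c.s) (c.s / X) := by
  obtain ⟨B, hB, h⟩ := lowRect (N := 1) (X := X) le_rfl 22 hX
  refine ⟨B, hB, ?_⟩
  filter_upwards [h, ev_big 100] with c hc hb f z z' hF
  have hs : 0 < c.s / X := div_pos hb.s_pos (by linarith)
  refine (hc 1 f z z' hF).mono hs ?_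
  rintro ω x ⟨q, q', h1, h2, h3, rfl⟩
  refine ⟨_, ⟨q, q', by simpa using h1, by simpa using h2, h3, rfl⟩, ?_⟩
  have := mul_nonneg hF.κpos.le (abs_nonneg (f.b (iv (q' - q))))
  linarith

section main

variable {c : Bs} {f : Fd} {v : VV} {M : ℕ} {s C d s' : ℝ}

lemma certb_ES {X : Env} (hX : Nice c.μ f.a v s X) {G : Finset ℕ} (hG : ∀ i ∈ G, i < M) :
    ∑ i ∈ G, ex f c.m (geo v X) X i ≤ ES c f v M s X := by
  unfold ES
  rw [if_pos hX]
  refine (Finset.sum_le_sum fun i _ => le_abs_self _).trans ?_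
  exact Finset.sum_le_sum_of_subset_of_nonneg (fun i hi => Finset.mem_range.2 (hG i hi))
    fun _ _ _ => abs_nonneg _

/-- Lower end of the slab of a block. -/
noncomputable def certbLo (m : ℝ) (i : ℕ) : ℝ := ((i : ℝ) - 1 / 2) * m

/-- Upper end of the slab of a block. -/
noncomputable def certbHi (m : ℝ) (i : ℕ) : ℝ := ((i : ℝ) + 3 / 2) * m

/-- Gains along one block. -/
def certbA (f : Fd) (m : ℝ) (k : ℕ → ℤ) (i : ℕ) : Om → ℝ → Prop :=
  Seg f m (22 * m) (zc f m i (k i)) (zc f m (i + 1) (k (i + 1)))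
    (Sl f (zc f m i (k i)) (certbLo m i) (certbHi m i))

lemma certb_sep {m : ℝ} (hm : 0 < m) {i i' r : ℕ} (h1 : i % 2 = r) (h2 : i' % 2 = r)
    (h : i < i') : certbHi m i ≤ certbLo m i' := by
  have h3 : i + 2 ≤ i' := by omega
  have h4 : (i : ℝ) + 2 ≤ i' := by exact_mod_cast h3
  unfold certbHi certbLo
  nlinarith

lemma certb_gain (hT : Top c f v M s) (hb : c.Big 100) {X : Env} (hX : Nice c.μ f.a v s X)
    {G : Finset ℕ} (hG : ∀ i ∈ G, i < M) (ζ X' : Env)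
    (hX' : ∀ e, max (X' e) 0 ≤ max (X e) 0) :
    ∃ z : ℕ → ℝ, (∀ i ∈ G, certbA f c.m (cs f c.m (geo v X)) i (ζ, X') (z i)) ∧
      wt X (G.biUnion (Eb f c.m (geo v X))) - wt X' (G.biUnion (Eb f c.m (geo v X))) ≤
        ES c f v M s X + ∑ i ∈ G, z i := by
  refine ⟨fun i => f.L (iv (xs f c.m (geo v X) (i + 1) - xs f c.m (geo v X) i)) -
    wt X' (Eb f c.m (geo v X) i), fun i hi => ?_, ?_⟩
  · refine hT.seg hb hX.2 (Nat.lt_succ_self i) (hG i hi) (le_of_eq rfl) ?_ ?_ (ζ, X')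
    · unfold certbHi
      push_cast
      linarith
    · push_cast
      linarith
  · refine (gain_biUnion hX' G _).trans ?_
    have h1 := certb_ES (c := c) (f := f) hX hG
    have h2 : ∑ i ∈ G, (wt X (Eb f c.m (geo v X) i) - wt X' (Eb f c.m (geo v X) i)) =
        ∑ i ∈ G, ex f c.m (geo v X) X i + ∑ i ∈ G,
          (f.L (iv (xs f c.m (geo v X) (i + 1) - xs f c.m (geo v X) i)) -
            wt X' (Eb f c.m (geo v X) i)) := by
      rw [← Finset.sum_add_distrib]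
      refine Finset.sum_congr rfl fun i _ => ?_
      unfold ex
      ring
    linarith

lemma certb_empty {F : Om → Finset ℕ} (hF : Flags c f v M s F) {ω : Om}
    (h : ¬ Nice c.μ f.a v s ω.2) : F ω = ∅ :=
  Finset.eq_empty_of_forall_notMem fun i hi => h (hF.2 ω i hi).2

lemma certb_col (h : Tp c f v M s C)
    (hA : ∀ z z', Dom (Gn f c.m (22 * c.m) z z') d s') (hd : 0 ≤ d) (hs : 0 < s')
    {F : Om → Finset ℕ} (hF : Flags c f v M s F) (r : ℕ) :
    Cert (fun _ => univ) (Gam f c.m v fun ω => (F ω).filter (· % 2 = r)) (1 / s')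
      ((∫ ω, ES c f v M s ω.2 ∂P2) / s' + (d / s' + 2) * ∫ ω, ((F ω).card : ℝ) ∂P2 +
        5 * C * M) := by
  refine h.cert (certbLo c.m) (certbHi c.m) (A := certbA f c.m)
    (fun k i _ => ldom_seg (hA _ _) hs) hd hs (certb_snd (integrable_ES c f v M s)).1
    (fun ω => ES_nonneg _ _ _ _ _ _) hF.integrable_card (fun ω => Nat.cast_nonneg _)
    (fun ω hω => ?_) fun ζ X hX => ?_
  · unfold Gam
    simp [certb_empty hF hω]
  · refine ⟨(F (ζ, X)).filter (· % 2 = r), fun i hi => (hF.2 _ i (Finset.mem_filter.1 hi).1).1,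
      fun i hi i' hi' hlt => certb_sep h.big.m_pos (Finset.mem_filter.1 hi).2
        (Finset.mem_filter.1 hi').2 hlt, ?_, fun X' hX' _ => ?_⟩
    · exact_mod_cast Finset.card_filter_le _ _
    · exact certb_gain h.top h.big hX
        (fun i hi => (hF.2 _ i (Finset.mem_filter.1 hi).1).1) ζ X' hX'

end main

theorem certBad : ∃ C : ℝ, 0 ≤ C ∧ ∀ X : ℝ, 1 ≤ X → ∃ B : ℝ, 0 ≤ B ∧ ∀ᶠ c in FB,
    ∀ (f : Fd) (v : VV) (M : ℕ) (s : ℝ) (F : Om → Finset ℕ) (n : ℝ), Top c f v M s →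
    Flags c f v M s F → ∫ ω, ((F ω).card : ℝ) ∂P2 ≤ n →
    Cert (fun _ => univ) (Gam f c.m v F) (X / (2 * c.s)) (C * X * M + B * n) := by
  obtain ⟨C, hC⟩ := exc
  refine ⟨6 * |C|, by positivity, fun X hX => ?_⟩
  obtain ⟨B, hB, hD⟩ := certb_dom hX
  have hX0 : 0 < X := by linarith
  refine ⟨B * X + 2, by positivity, ?_⟩
  filter_upwards [hC, hD] with c h1 h2 f v M s F n hT hF hn
  have h := h1 f v M s hT
  have hs := h.big.s_pos
  have hC1 := h.one
  have hs' : 0 < c.s / X := div_pos hs hX0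
  have hM : (0 : ℝ) ≤ M := Nat.cast_nonneg _
  have hn0 : 0 ≤ ∫ ω, ((F ω).card : ℝ) ∂P2 := integral_nonneg fun ω => Nat.cast_nonneg _
  have key : ∀ r ∈ Finset.range 2, Cert (fun _ => univ)
      (Gam f c.m v fun ω => (F ω).filter (· % 2 = r)) (X / c.s)
        (6 * |C| * X * M + (B * X + 2) * n) := fun r _ => by
    refine (certb_col h (fun z z' => h2 f z z' hT.fr) (by positivity) hs' hF r).mono
      (fun _ => Subset.rfl) (fun _ => Finset.Subset.refl _) (by positivity)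
      (le_of_eq (by field_simp)) ?_ ?_
    · rw [(certb_snd (integrable_ES c f v M s)).2, abs_of_pos (by linarith : 0 < C)]
      have e1 : B * c.s / (c.s / X) = B * X := by field_simp
      have e2 : (∫ x, ES c f v M s x ∂PE) / (c.s / X) ≤ C * X * M := by
        rw [div_le_iff₀ hs']
        have : C * X * M * (c.s / X) = C * M * c.s := by field_simp
        rw [this]
        exact h.hE
      have e3 : (B * X + 2) * ∫ ω, ((F ω).card : ℝ) ∂P2 ≤ (B * X + 2) * n :=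
        mul_le_mul_of_nonneg_left hn (by positivity)
      have e4 : C * M ≤ C * X * M := by
        have : 0 ≤ C * M * (X - 1) := by
          have : 0 ≤ X - 1 := by linarith
          positivity
        nlinarith
      rw [e1]
      linarith
    · have : 0 ≤ n := hn0.trans hn
      positivity
  have := Cert.union (Finset.range 2) (by simp) (Γ' := Gam f c.m v F) (by positivity) key
    fun ω e he => by
      obtain ⟨i, hi, hie⟩ := Finset.mem_biUnion.1 he
      exact ⟨i % 2, Finset.mem_range.2 (Nat.mod_lt _ (by norm_num)),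
        Finset.mem_biUnion.2 ⟨i, Finset.mem_filter.2 ⟨hi, rfl⟩, hie⟩⟩
  convert this using 1
  simp only [Finset.card_range]
  push_cast
  field_simp

open Classical in
/-- Region of a cell. -/
noncomputable def certbRg (f : Fd) (m : ℝ) (v : VV) (K : ℕ) (B : ℕ × ℤ) : Finset EE :=
  (Lam v).sym2.filter fun e => ∀ w ∈ e, certbLo m B.1 ≤ f.a (iv w) ∧ f.a (iv w) < certbHi m B.1 ∧
    |f.b (iv w) - B.2 * m| ≤ (K + 1) * m

open Classical in
lemma certb_mult (f : Fd) {m : ℝ} (hm : 0 < m) (v : VV) (K : ℕ) (𝔅 : Finset (ℕ × ℤ)) (e : EE) :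
    ((𝔅.filter fun B => e ∈ certbRg f m v K B).card : ℝ) ≤ 2 * (2 * K + 3) := by
  obtain ⟨w, hw⟩ : ∃ w, w ∈ e := ⟨_, Sym2.out_fst_mem e⟩
  set j : ℤ := ⌊f.a (iv w) / m + 1 / 2⌋ with hj
  set l : ℤ := ⌊f.b (iv w) / m⌋ with hl
  have h1 : (𝔅.filter fun B => e ∈ certbRg f m v K B).card ≤
      (Finset.Icc (j - 1) j ×ˢ Finset.Icc (l - (K + 1)) (l + (K + 1))).card := by
    refine Finset.card_le_card_of_injOn (fun B => ((B.1 : ℤ), B.2)) (fun B hB => ?_) ?_
    · have hB' := (Finset.mem_filter.1 (Finset.mem_filter.1 (Finset.mem_coe.1 hB)).2).2 w hw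
      obtain ⟨a1, a2, a3⟩ := hB'
      unfold certbLo at a1
      unfold certbHi at a2
      rw [abs_le] at a3
      have b1 : (B.1 : ℝ) - 1 / 2 ≤ f.a (iv w) / m := by rw [le_div_iff₀ hm]; exact a1
      have b2 : f.a (iv w) / m < (B.1 : ℝ) + 3 / 2 := by rw [div_lt_iff₀ hm]; exact a2
      have b3 : (B.2 : ℝ) - (K + 1) ≤ f.b (iv w) / m := by rw [le_div_iff₀ hm]; linarith [a3.1]
      have b4 : f.b (iv w) / m ≤ (B.2 : ℝ) + (K + 1) := by rw [div_le_iff₀ hm]; linarith [a3.2]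
      have c1 : (B.1 : ℤ) ≤ j := Int.le_floor.2 (by push_cast; linarith)
      have c2 : j < (B.1 : ℤ) + 2 := Int.floor_lt.2 (by push_cast; linarith)
      have c3 : B.2 - (K + 1) ≤ l := Int.le_floor.2 (by push_cast; linarith)
      have c4 : l ≤ B.2 + (K + 1) := by
        have : (l : ℝ) ≤ ((B.2 + (K + 1) : ℤ) : ℝ) := by
          push_cast
          exact (Int.floor_le _).trans b4
        exact_mod_cast this
      simp only [Finset.coe_product, Finset.coe_Icc, mem_prod, mem_Icc]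
      omega
    · intro B _ B' _ hBB
      simp only [Prod.mk.injEq, Nat.cast_inj] at hBB
      exact Prod.ext hBB.1 hBB.2
  rw [Finset.card_product, Int.card_Icc, Int.card_Icc] at h1
  have e1 : (j + 1 - (j - 1)).toNat = 2 := by omega
  have e2 : (l + (K + 1) + 1 - (l - (K + 1))).toNat = 2 * K + 3 := by omega
  rw [e1, e2] at h1
  exact_mod_cast h1

lemma certb_Rg {c : Bs} {f : Fd} {v : VV} {M : ℕ} {s : ℝ} (hT : Top c f v M s) (hb : c.Big 100)
    {X : Env} (hX : Nice c.μ f.a v s X) {i K : ℕ} (hi : i < M)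
    (hK : Dd f c.m (geo v X) i ≤ K) :
    Eb f c.m (geo v X) i ⊆ certbRg f c.m v K (i, cs f c.m (geo v X) i) := by
  classical
  intro e he
  have hm := hb.m_pos
  refine Finset.mem_filter.2 ⟨es_subset_sym2 (geo_mem v X) (Eb_subset _ _ _ _ he), fun w hw => ?_⟩
  obtain ⟨j, h1, h2, rfl⟩ := mem_Es he hw
  have a1 := hT.a_lower hb hX.2 hi.le h1 (h2.trans (tk_le _ _ _ _))
  have a2 := hT.a_upper hb hX.2 (Nat.succ_le_of_lt hi) h2
  have a3 := le_Dd f hm h1 h2
  have a4 := b_xs f hm (geo v X) i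
  rw [iv_sub, map_sub, abs_le] at a3
  have a5 : Dd f c.m (geo v X) i * c.m ≤ K * c.m := mul_le_mul_of_nonneg_right hK hm.le
  unfold certbLo certbHi
  push_cast at a2 ⊢
  refine ⟨by linarith, by linarith, abs_le.2 ⟨by linarith [a3.1, a4.1], by linarith [a3.2, a4.2]⟩⟩

theorem certLight : ∃ C : ℝ, 0 ≤ C ∧ ∀ᶠ c in FB,
    ∀ (f : Fd) (v : VV) (M : ℕ) (s : ℝ) (F : Om → Finset ℕ) (K : ℕ) (t q : ℝ) (r : ℕ),
    Top c f v M s → Flags c f v M s F → (∀ ω, ∀ i ∈ F ω, Dd f c.m (geo v ω.2) i ≤ K) →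
    (∀ (ζ x : Env) (i : ℕ) (k : ℤ), PE {y | i ∈ F (ζ, mix (SS t ζ) x y) ∧
      cs f c.m (geo v (mix (SS t ζ) x y)) i = k} ≤ ENNReal.ofReal q) →
    LCert t (Gam f c.m v fun ω => (F ω).filter (· % 2 = r)) (1 / c.s) (C * M) q
      (2 * (2 * K + 3)) M := by
  classical
  obtain ⟨C, hC⟩ := exc
  obtain ⟨B, hB, hD⟩ := certb_dom (X := 1) le_rfl
  refine ⟨2 * |C| + B + 6, by positivity, ?_⟩
  filter_upwards [hC, hD] with c h1 h2 f v M s F K t q r hT hF hK hq
  have h := h1 f v M s hT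
  have hs := h.big.s_pos
  have hm := h.big.m_pos
  have hC1 := h.one
  have hM : (0 : ℝ) ≤ M := Nat.cast_nonneg _
  simp only [div_one] at h2
  obtain ⟨W, mW, iW, hW⟩ := selCore (a := f.a) (d := B * c.s) (s := c.s) M (certbLo c.m)
    (certbHi c.m) (A := fun k _ i => certbA f c.m k i)
    (fun k _ i _ => ldom_seg (h2 f _ _ hT.fr) hs)
  have hG : ∀ ω, ∀ i ∈ (F ω).filter (· % 2 = r), i < M := fun ω i hi =>
    (hF.2 _ i (Finset.mem_filter.1 hi).1).1
  have hcard : ∀ ω, (((F ω).filter (· % 2 = r)).card : ℝ) ≤ M := fun ω => by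
    have := Finset.card_le_card (s := (F ω).filter (· % 2 = r)) (t := Finset.range M)
      fun i hi => Finset.mem_range.2 (hG ω i hi)
    rw [Finset.card_range] at this
    exact_mod_cast this
  have key : ∀ (k : ℕ → ℤ) (G : Finset ℕ), k 0 = 0 → (∀ j, M ≤ j → k j = k M) →
      (∀ i ∈ G, i < M ∧ i % 2 = r) → ∀ (ω : Om) (z : ℕ → ℝ),
      (∀ i ∈ G, certbA f c.m k i ω (z i)) →
      ENNReal.ofReal (exp (∑ i ∈ G, ((z i - B * c.s) / c.s - 2) -
        ∑ i ∈ Finset.range M, |((k (i + 1) - k i : ℤ) : ℝ)| - 3 * M)) ≤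
        ∑' ξ : Cfg M, if ξ.fl.image (fun i => (i, ξ.c i)) = G.image (fun i => (i, k i)) then
          W ξ ω else 0 := by
    intro k G h0 hk hG' ω z hz
    obtain ⟨ξ, e1, -, e3, e4⟩ := exists_cfg (M := M) k (fun _ => 0) G h0 hk fun i hi => (hG' i hi).1
    refine le_trans ?_ (ENNReal.le_tsum ξ)
    rw [e1, e3, if_pos rfl]
    have := hW ξ (fun i hi i' hi' hlt => certb_sep hm (hG' i (e3 ▸ hi)).2 (hG' i' (e3 ▸ hi')).2 hlt)
      ω z (by rw [e1, e3]; exact hz)
    rw [e3, e4] at this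
    simpa using this
  refine ⟨Finset.range M ×ˢ (Lam v).image (fun w => ⌊f.b (iv w) / c.m⌋), certbRg f c.m v K,
    fun ω => ((F ω).filter (· % 2 = r)).image fun i => (i, cs f c.m (geo v ω.2) i),
    fun Z ω => ∑' ξ : Cfg M, if ξ.fl.image (fun i => (i, ξ.c i)) = Z then W ξ ω else 0,
    fun ω => ES c f v M s ω.2 / c.s + DS c f v M s ω.2 + (B + 6) * M,
    ?_, ?_, ?_, fun e => by convert certb_mult f hm v K _ e, ?_, ?_, ?_, ?_, ?_, ?_, ?_, ?_⟩
  · intro ω b hb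
    obtain ⟨i, hi, rfl⟩ := Finset.mem_image.1 hb
    refine Finset.mem_product.2 ⟨Finset.mem_range.2 (hG ω i hi), Finset.mem_image.2
      ⟨xs f c.m (geo v ω.2) i, geo_mem v ω.2 _ (SimpleGraph.Walk.getVert_mem_support _ _), rfl⟩⟩
  · rintro ⟨i, k⟩
    have : {ω : Om | (i, k) ∈ ((F ω).filter (· % 2 = r)).image
        fun i => (i, cs f c.m (geo v ω.2) i)} =
        {ω | i ∈ (F ω).filter (· % 2 = r)} ∩ {ω | cs f c.m (geo v ω.2) i = k} := by
      ext ω
      simp only [Finset.mem_image, Prod.mk.injEq, mem_ofPred_eq, mem_inter_iff]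
      constructor
      · rintro ⟨j, hj, rfl, rfl⟩
        exact ⟨hj, rfl⟩
      · rintro ⟨hj, rfl⟩
        exact ⟨i, hj, rfl, rfl⟩
    rw [this]
    exact ((hF.filter _).1 i).inter
      (measSet_geo2 v (F := fun p _ => cs f c.m p i = k) fun p => MeasurableSet.const _)
  · intro ω b hb b' hb' hne
    obtain ⟨i, hi, rfl⟩ := Finset.mem_image.1 hb
    obtain ⟨i', hi', rfl⟩ := Finset.mem_image.1 hb'
    have hii : i ≠ i' := fun e => hne (by rw [e])
    refine Finset.disjoint_left.2 fun e he he' => ?_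
    have a1 := (Finset.mem_filter.1 he).2 _ (Sym2.out_fst_mem e)
    have a2 := (Finset.mem_filter.1 he').2 _ (Sym2.out_fst_mem e)
    rcases lt_or_gt_of_ne hii with hlt | hlt
    · have := certb_sep hm (Finset.mem_filter.1 hi).2 (Finset.mem_filter.1 hi').2 hlt
      exact absurd (a1.2.1.trans_le (this.trans a2.1)) (lt_irrefl _)
    · have := certb_sep hm (Finset.mem_filter.1 hi').2 (Finset.mem_filter.1 hi).2 hlt
      exact absurd (a2.2.1.trans_le (this.trans a1.1)) (lt_irrefl _)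
  · rintro ζ x ⟨i, k⟩
    refine le_trans (measure_mono fun y hy => ?_) (hq ζ x i k)
    obtain ⟨j, hj, e⟩ := Finset.mem_image.1 hy
    obtain ⟨rfl, rfl⟩ := Prod.mk.inj e
    exact ⟨(Finset.mem_filter.1 hj).1, rfl⟩
  · intro ω
    exact le_trans (by exact_mod_cast Finset.card_image_le) (hcard ω)
  · intro ω e he
    obtain ⟨i, hi, hie⟩ := Finset.mem_biUnion.1 he
    have hi' := (Finset.mem_filter.1 hi).1
    exact Finset.mem_biUnion.2 ⟨_, Finset.mem_image_of_mem _ hi,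
      certb_Rg hT h.big (hF.2 ω i hi').2 (hF.2 ω i hi').1 (hK ω i hi') hie⟩
  · intro Z
    refine Measurable.tsum fun ξ => ?_
    split_ifs
    · exact mW ξ
    · exact measurable_const
  · refine le_trans ?_ iW
    have e1 : ∀ Z : Finset (ℕ × ℤ), ∫⁻ ω, (∑' ξ : Cfg M,
        if ξ.fl.image (fun i => (i, ξ.c i)) = Z then W ξ ω else 0) ∂P2 =
        ∑' ξ : Cfg M, if ξ.fl.image (fun i => (i, ξ.c i)) = Z then ∫⁻ ω, W ξ ω ∂P2 else 0 := by
      intro Z
      rw [lintegral_tsum fun ξ => ?_]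
      · refine tsum_congr fun ξ => ?_
        split_ifs <;> simp
      · split_ifs
        · exact (mW ξ).aemeasurable
        · exact aemeasurable_const
    simp only [e1]
    rw [← Summable.tsum_finsetSum fun _ _ => ENNReal.summable]
    refine ENNReal.tsum_le_tsum fun ξ => ?_
    rw [Finset.sum_ite_eq]
    split_ifs
    · exact le_rfl
    · exact zero_le
  · exact (((certb_snd (integrable_ES c f v M s)).1.div_const _).add
      (certb_snd (integrable_DS c f v M s)).1).add (integrable_const _)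
  · have i1 := certb_snd (integrable_ES c f v M s)
    have i2 := certb_snd (integrable_DS c f v M s)
    have j1 : Integrable (fun ω : Om => ES c f v M s ω.2 / c.s) P2 := i1.1.div_const _
    have j2 : Integrable (fun ω : Om => ES c f v M s ω.2 / c.s + DS c f v M s ω.2) P2 :=
      j1.add i2.1
    beta_reduce
    rw [integral_add j2 (integrable_const _), integral_add j1 i2.1, integral_div, i1.2, i2.2,
      abs_of_pos (by linarith : 0 < C)]
    have e2 : (∫ x, ES c f v M s x ∂PE) / c.s ≤ C * M := by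
      rw [div_le_iff₀ hs]
      exact h.hE
    have e3 := h.hD
    simp only [integral_const, probReal_univ, smul_eq_mul, one_mul]
    linarith
  · intro ζ X X' hX'
    by_cases hX : Nice c.μ f.a v s X
    · obtain ⟨z, hz, hg⟩ := certb_gain hT h.big hX (hG (ζ, X)) ζ X' hX'
      obtain ⟨a1, a2, a3⟩ := h.skel hX
      refine le_trans (ENNReal.ofReal_le_ofReal (exp_le_exp.2 ?_))
        (key _ _ a1 a2 (fun i hi => ⟨hG _ i hi, (Finset.mem_filter.1 hi).2⟩) (ζ, X') z hz)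
      have e1 : ∑ i ∈ (F (ζ, X)).filter (· % 2 = r), ((z i - B * c.s) / c.s - 2) =
          (∑ i ∈ (F (ζ, X)).filter (· % 2 = r), z i) / c.s -
            (B + 2) * ((F (ζ, X)).filter (· % 2 = r)).card := by
        rw [Finset.sum_div, mul_comm (B + 2), ← nsmul_eq_mul, ← Finset.sum_const,
          ← Finset.sum_sub_distrib]
        refine Finset.sum_congr rfl fun i _ => ?_
        field_simp
        ring
      have e2 : (B + 2) * (((F (ζ, X)).filter (· % 2 = r)).card : ℝ) ≤ (B + 2) * M :=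
        mul_le_mul_of_nonneg_left (hcard _) (by positivity)
      have e3 := mul_le_mul_of_nonneg_left hg (one_div_pos.2 hs).le
      rw [mul_add, one_div_mul_eq_div, one_div_mul_eq_div, one_div_mul_eq_div] at e3
      rw [e1, one_div_mul_eq_div]
      change (wt X (((F (ζ, X)).filter (· % 2 = r)).biUnion (Eb f c.m (geo v X))) -
        wt X' (((F (ζ, X)).filter (· % 2 = r)).biUnion (Eb f c.m (geo v X)))) / c.s -
        (ES c f v M s X / c.s + DS c f v M s X + (B + 6) * M) ≤ _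
      linarith
    · have e0 : F (ζ, X) = ∅ := certb_empty hF hX
      have := key (fun _ => 0) ∅ rfl (fun _ _ => rfl) (by simp) (ζ, X') (fun _ => 0) (by simp)
      simp only [Gam, e0, Finset.filter_empty, Finset.image_empty, Finset.biUnion_empty] at this ⊢
      refine le_trans (ENNReal.ofReal_le_ofReal (exp_le_exp.2 ?_)) this
      have b1 := div_nonneg (ES_nonneg c f v M s X) hs.le
      have b2 := DS_nonneg c f v M s X
      have b3 := mul_nonneg hB hM
      simp only [wt, Finset.sum_empty, sub_self, mul_zero, Int.cast_zero, abs_zero,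
        Finset.sum_const_zero]
      linarith

lemma certb_flags (c : Bs) (f : Fd) (v : VV) (M : ℕ) (s : ℝ) (Q : GG.Walk 0 v → ℕ → Prop)
    {F : Om → Finset ℕ}
    (h : ∀ ω i, i ∈ F ω ↔ i < M ∧ Nice c.μ f.a v s ω.2 ∧ Q (geo v ω.2) i) :
    Flags c f v M s F := by
  refine ⟨fun i => ?_, fun ω i hi => ⟨((h ω i).1 hi).1, ((h ω i).1 hi).2.1⟩⟩
  simp only [h]
  exact (MeasurableSet.const _).inter ((measurable_snd (measurableSet_Nice c.μ f.a v s)).inter
    (measSet_geo2 v (F := fun p _ => Q p i) fun p => MeasurableSet.const _))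

lemma flags_ThL (c : Bs) (f : Fd) (P : Pm) (v : VV) (M : ℕ) (s : ℝ) :
    Flags c f v M s (ThL c f P v M s) :=
  certb_flags c f v M s (fun p i => 2 * P.Lt ≤ i ∧ i + 2 * P.Lt ≤ M ∧ ¬ FatL c f P p i)
    fun ω i => by simp [ThL]

lemma flags_ThR (c : Bs) (f : Fd) (P : Pm) (v : VV) (M : ℕ) (s : ℝ) :
    Flags c f v M s (ThR c f P v M s) :=
  certb_flags c f v M s (fun p i => 2 * P.Lt ≤ i ∧ i + 2 * P.Lt ≤ M ∧ ¬ FatR c f P p i)
    fun ω i => by simp [ThR]

lemma certb_chord {c : Bs} {f : Fd} {v : VV} {M : ℕ} {s C CT X : ℝ} {P : Pm}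
    (h : Tp c f v M s C) (hL : 1 ≤ P.Lt) (hCT : 0 ≤ CT) (hX : 1 ≤ X) (l u : ℕ → ℕ)
    (Q : (ℕ → ℤ) → ℕ → Prop) {T : Om → Finset ℕ}
    (hT : ∀ ω, ∀ i ∈ T ω, Nice c.μ f.a v s ω.2 ∧ 2 * P.Lt ≤ i ∧ i + 2 * P.Lt ≤ M ∧
      Q (cs f c.m (geo v ω.2)) i)
    (hlu : ∀ i, 2 * P.Lt ≤ i → il P i ≤ l i ∧ l i < u i ∧ u i ≤ ir P i)
    (hdom : ∀ k i, 2 * P.Lt ≤ i → Q k i →
      Dom (Gn f c.m (22 * ((u i : ℝ) - l i) * c.m) (zc f c.m (l i) (k (l i)))
        (zc f c.m (u i) (k (u i)))) (CT * P.Lt * c.s) (c.s / X))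
    (hsel : ∀ G : Finset ℕ, (∀ i ∈ G, 2 * P.Lt ≤ i) → ∃ F ⊆ G,
      (∀ i ∈ F, ∀ i' ∈ F, i / P.Lt = i' / P.Lt → i = i') ∧
        ∀ j ∈ G, ∃ i ∈ F, l i ≤ j ∧ j < u i) :
    Cert (fun _ => univ) (Gam f c.m v T) (X / (4 * c.s)) ((8 * C + CT) * X * M) := by
  classical
  have hs := h.big.s_pos
  have hm := h.big.m_pos
  have hC1 := h.one
  have hX0 : 0 < X := by linarith
  have hs' : 0 < c.s / X := div_pos hs hX0
  have hM : (0 : ℝ) ≤ M := Nat.cast_nonneg _
  have hL' : (1 : ℝ) ≤ P.Lt := by exact_mod_cast hL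
  have hir : ∀ i, i + 2 * P.Lt ≤ M → ir P i ≤ M := fun i hi => by
    have := Nat.div_mul_le_self i P.Lt
    unfold ir
    rw [add_mul]
    omega
  have hsep : ∀ i i', i / P.Lt + 4 ≤ i' / P.Lt → ir P i + 1 ≤ il P i' := fun i i' hi => by
    unfold ir il
    have : (i / P.Lt + 3) * P.Lt ≤ (i' / P.Lt - 1) * P.Lt := Nat.mul_le_mul_right _ (by omega)
    rw [add_mul] at this ⊢
    omega
  have key : ∀ r ∈ Finset.range 4, Cert (fun _ => univ)
      (Gam f c.m v fun ω => (T ω).filter (fun i => i / P.Lt % 4 = r)) (X / c.s)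
        ((8 * C + CT) * X * M) := fun r _ => by
    have := h.cert (d := CT * P.Lt * c.s) (s' := c.s / X) (fun i => ((il P i : ℝ) - 1 / 2) * c.m)
      (fun i => ((ir P i : ℝ) + 1 / 2) * c.m)
      (A := fun k i ω x => (2 * P.Lt ≤ i ∧ Q k i) ∧
        Seg f c.m (22 * ((u i : ℝ) - l i) * c.m) (zc f c.m (l i) (k (l i)))
          (zc f c.m (u i) (k (u i))) (Sl f (zc f c.m (l i) (k (l i)))
            (((il P i : ℝ) - 1 / 2) * c.m) (((ir P i : ℝ) + 1 / 2) * c.m)) ω x)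
      (fun k i _ => ?_) (by positivity) hs' (P := fun _ => univ)
      (Γ := Gam f c.m v fun ω => (T ω).filter (fun i => i / P.Lt % 4 = r))
      (U := fun ω => ES c f v M s ω.2) (Nf := fun _ => (M : ℝ) / P.Lt)
      (certb_snd (integrable_ES c f v M s)).1 (fun ω => ES_nonneg _ _ _ _ _ _)
      (integrable_const _) (fun _ => by positivity) (fun ω hω => ?_) fun ζ Y hY => ?_
    · refine this.mono (fun _ => Subset.rfl) (fun _ => Finset.Subset.refl _) (by positivity)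
        (le_of_eq (by field_simp)) ?_ (by positivity)
      rw [(certb_snd (integrable_ES c f v M s)).2]
      simp only [integral_const, probReal_univ, smul_eq_mul, one_mul]
      have e1 : (CT * P.Lt * c.s / (c.s / X) + 2) * (M / P.Lt) = CT * X * M + 2 * (M / P.Lt) := by
        field_simp
      have e2 : (∫ x, ES c f v M s x ∂PE) / (c.s / X) ≤ C * X * M := by
        rw [div_le_iff₀ hs']
        have : C * X * M * (c.s / X) = C * M * c.s := by field_simp
        rw [this]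
        exact h.hE
      have e3 : (M : ℝ) / P.Lt ≤ M := div_le_self hM hL'
      have e4 : C * M ≤ C * X * M := by
        have : 0 ≤ C * M * (X - 1) := by
          have : 0 ≤ X - 1 := by linarith
          positivity
        nlinarith
      have e5 : (M : ℝ) ≤ C * M := by nlinarith
      rw [e1]
      nlinarith
    · by_cases hc : 2 * P.Lt ≤ i ∧ Q k i
      · simp only [hc, and_self, true_and]
        exact ldom_seg (hdom k i hc.1 hc.2) hs'
      · exact ldom_empty fun ω z hz => hc hz.1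
    · have : T ω = ∅ := Finset.eq_empty_of_forall_notMem fun i hi => hω (hT ω i hi).1
      unfold Gam
      simp [this]
    · obtain ⟨F, hFG, hinj, hcov⟩ := hsel ((T (ζ, Y)).filter fun i => i / P.Lt % 4 = r)
        fun i hi => (hT _ i (Finset.mem_filter.1 hi).1).2.1
      have hF : ∀ i ∈ F, 2 * P.Lt ≤ i ∧ i + 2 * P.Lt ≤ M ∧ Q (cs f c.m (geo v Y)) i :=
        fun i hi => (hT _ i (Finset.mem_filter.1 (hFG hi)).1).2
      have hFs : ∀ i ∈ F, ∀ i' ∈ F, i < i' → ir P i + 1 ≤ il P i' := fun i hi i' hi' hlt => by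
        refine hsep i i' ?_
        have a1 := (Finset.mem_filter.1 (hFG hi)).2
        have a2 := (Finset.mem_filter.1 (hFG hi')).2
        have a3 : i / P.Lt ≠ i' / P.Lt := fun e => hlt.ne (hinj i hi i' hi' e)
        have a4 : i / P.Lt ≤ i' / P.Lt := Nat.div_le_div_right hlt.le
        omega
      have huM : ∀ i ∈ F, u i ≤ M := fun i hi =>
        (hlu i (hF i hi).1).2.2.trans (hir i (hF i hi).2.1)
      refine ⟨F, fun i hi => by have := (hF i hi).2.1; omega, fun i hi i' hi' hlt => ?_, ?_,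
        fun Y' hY' _ => ?_⟩
      · have : (ir P i : ℝ) + 1 ≤ il P i' := by exact_mod_cast hFs i hi i' hi' hlt
        nlinarith
      · have a1 : F.card ≤ (Finset.range (M / P.Lt)).card := by
          refine Finset.card_le_card_of_injOn (fun i => i / P.Lt) (fun i hi => ?_)
            fun i hi i' hi' e => hinj i hi i' hi' e
          have a2 : (i + 2 * P.Lt) / P.Lt ≤ M / P.Lt := Nat.div_le_div_right (hF i hi).2.1
          rw [Nat.add_mul_div_right _ _ hL] at a2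
          simp only [Finset.coe_range, mem_Iio]
          omega
        rw [Finset.card_range] at a1
        exact le_trans (by exact_mod_cast a1) Nat.cast_div_le
      · refine ⟨fun i => f.L (iv (xs f c.m (geo v Y) (u i) - xs f c.m (geo v Y) (l i))) -
          wt Y' (Es (geo v Y) (tk f c.m (geo v Y) (l i)) (tk f c.m (geo v Y) (u i))),
          fun i hi => ⟨⟨(hF i hi).1, (hF i hi).2.2⟩, ?_⟩, ?_⟩
        · obtain ⟨a1, a2, a3⟩ := hlu i (hF i hi).1
          have b1 : (il P i : ℝ) ≤ l i := by exact_mod_cast a1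
          have b3 : (u i : ℝ) ≤ ir P i := by exact_mod_cast a3
          exact h.top.seg h.big hY.2 a2 (huM i hi) (by nlinarith) (by nlinarith) le_rfl (ζ, Y')
        · have a1 : Gam f c.m v (fun ω => (T ω).filter fun i => i / P.Lt % 4 = r) (ζ, Y) ⊆
              F.biUnion fun i =>
                Es (geo v Y) (tk f c.m (geo v Y) (l i)) (tk f c.m (geo v Y) (u i)) := by
            intro e he
            obtain ⟨j, hj, hje⟩ := Finset.mem_biUnion.1 he
            obtain ⟨i, hi, b1, b2⟩ := hcov j hj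
            exact Finset.mem_biUnion.2 ⟨i, hi,
              Es_mono (tk_mono f hm.le _ b1) (tk_mono f hm.le _ b2) hje⟩
          refine (gain_mono hY' a1).trans ((gain_biUnion hY' F _).trans ?_)
          have a2 : ∑ i ∈ F, ∑ j ∈ Finset.Ico (l i) (u i), ex f c.m (geo v Y) Y j ≤
              ES c f v M s Y := by
            rw [← Finset.sum_biUnion]
            · refine certb_ES hY fun j hj => ?_
              obtain ⟨i, hi, hji⟩ := Finset.mem_biUnion.1 hj
              exact (Finset.mem_Ico.1 hji).2.trans_le (huM i hi)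
            · intro i hi i' hi' hne
              obtain ⟨b1, -, b2⟩ := hlu i (hF i hi).1
              obtain ⟨b3, -, b4⟩ := hlu i' (hF i' hi').1
              refine Finset.disjoint_left.2 fun j hj hj' => ?_
              rw [Finset.mem_Ico] at hj hj'
              rcases lt_or_gt_of_ne hne with hlt | hlt
              · have := hFs i hi i' hi' hlt
                omega
              · have := hFs i' hi' i hi hlt
                omega
          refine le_trans (le_of_eq ?_) (add_le_add_left a2 _)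
          rw [← Finset.sum_add_distrib]
          refine Finset.sum_congr rfl fun i hi => ?_
          rw [sum_ex f hm.le (geo_isPath v Y) (hlu i (hF i hi).1).2.1.le Y]
          ring
  have := Cert.union (Finset.range 4) (by simp) (Γ' := Gam f c.m v T) (by positivity) key
    fun ω e he => by
      obtain ⟨i, hi, hie⟩ := Finset.mem_biUnion.1 he
      exact ⟨i / P.Lt % 4, Finset.mem_range.2 (Nat.mod_lt _ (by norm_num)),
        Finset.mem_biUnion.2 ⟨i, Finset.mem_filter.2 ⟨hi, rfl⟩, hie⟩⟩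
  convert this using 1
  simp only [Finset.card_range]
  push_cast
  field_simp

theorem certChord {c : Bs} {f : Fd} {v : VV} {M : ℕ} {s C CT X : ℝ} {P : Pm}
    (h : Tp c f v M s C) (hT : Tame c f P.Y P.CF P.Lt CT X) (hL : 1 ≤ P.Lt) (hCT : 0 ≤ CT)
    (hX : 1 ≤ X) :
    Cert (fun _ => univ) (Gam f c.m v (ThL c f P v M s)) (X / (4 * c.s)) ((8 * C + CT) * X * M) ∧
    Cert (fun _ => univ) (Gam f c.m v (ThR c f P v M s)) (X / (4 * c.s))
      ((8 * C + CT) * X * M) := by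
  classical
  have hb : ∀ i, 2 * P.Lt ≤ i → il P i + P.Lt ≤ i ∧ i < il P i + 2 * P.Lt ∧
      ir P i = il P i + 3 * P.Lt := fun i hi => by
    have a1 := Nat.div_mul_le_self i P.Lt
    have a2 := Nat.lt_div_mul_add (a := i) hL
    have a3 : 2 ≤ i / P.Lt := (Nat.le_div_iff_mul_le hL).2 hi
    obtain ⟨j, hj⟩ : ∃ j, i / P.Lt = j + 1 := ⟨i / P.Lt - 1, by omega⟩
    unfold il ir
    rw [hj] at a1 a2 ⊢
    simp only [Nat.add_sub_cancel, add_mul, one_mul] at a1 a2 ⊢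
    omega
  constructor
  · refine certb_chord h hL hCT hX (il P) (· + 1)
      (fun k i => ¬ Fat c f P (il P i) (k (il P i)) (i + 1) (k (i + 1)))
      (fun ω i hi => (Finset.mem_filter.1 hi).2) (fun i hi => ?_) (fun k i hi hQ => ?_)
      fun G hG => ?_
    · have := hb i hi
      omega
    · have := hb i hi
      exact (hT (il P i) (k (il P i)) (i + 1) (k (i + 1)) (by omega) (by omega)).resolve_left hQ
    · refine ⟨G.filter fun i => ∀ j ∈ G, j / P.Lt = i / P.Lt → j ≤ i, Finset.filter_subset _ _,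
        fun i hi i' hi' e => ?_, fun j hj => ?_⟩
      · rw [Finset.mem_filter] at hi hi'
        exact le_antisymm (hi'.2 i hi.1 e) (hi.2 i' hi'.1 e.symm)
      · obtain ⟨i, hi, hmax⟩ := Finset.exists_max_image (G.filter fun i => i / P.Lt = j / P.Lt) id
          ⟨j, Finset.mem_filter.2 ⟨hj, rfl⟩⟩
        rw [Finset.mem_filter] at hi
        refine ⟨i, Finset.mem_filter.2 ⟨hi.1, fun j' hj' e =>
          hmax j' (Finset.mem_filter.2 ⟨hj', e.trans hi.2⟩)⟩, ?_,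
          Nat.lt_succ_of_le (hmax j (Finset.mem_filter.2 ⟨hj, rfl⟩))⟩
        have a1 := hb j (hG j hj)
        have a2 : il P i = il P j := by unfold il; rw [hi.2]
        omega
  · refine certb_chord h hL hCT hX id (ir P)
      (fun k i => ¬ Fat c f P i (k i) (ir P i) (k (ir P i)))
      (fun ω i hi => (Finset.mem_filter.1 hi).2) (fun i hi => ?_) (fun k i hi hQ => ?_)
      fun G hG => ?_
    · have := hb i hi
      simp only [id]
      omega
    · have := hb i hi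
      exact (hT i (k i) (ir P i) (k (ir P i)) (by omega) (by omega)).resolve_left hQ
    · refine ⟨G.filter fun i => ∀ j ∈ G, j / P.Lt = i / P.Lt → i ≤ j, Finset.filter_subset _ _,
        fun i hi i' hi' e => ?_, fun j hj => ?_⟩
      · rw [Finset.mem_filter] at hi hi'
        exact le_antisymm (hi.2 i' hi'.1 e.symm) (hi'.2 i hi.1 e)
      · obtain ⟨i, hi, hmin⟩ := Finset.exists_min_image (G.filter fun i => i / P.Lt = j / P.Lt) id
          ⟨j, Finset.mem_filter.2 ⟨hj, rfl⟩⟩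
        rw [Finset.mem_filter] at hi
        refine ⟨i, Finset.mem_filter.2 ⟨hi.1, fun j' hj' e =>
          hmin j' (Finset.mem_filter.2 ⟨hj', e.trans hi.2⟩)⟩,
          hmin j (Finset.mem_filter.2 ⟨hj, rfl⟩), ?_⟩
        have a1 := hb j (hG j hj)
        have a2 : ir P i = ir P j := by unfold ir; rw [hi.2]
        omega

end Pool.Agent.Lib.MP_de94ef_pr.Q
end

-- part Pool.Agent.Lib.MP_de94ef_pr.Q.Good
section

/-!
Atypical blocks are rare.
-/

open MeasureTheory ProbabilityTheory Set Real Function Filter Topology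
open scoped ENNReal NNReal

namespace Pool.Agent.Lib.MP_de94ef_pr.Q

lemma flags_BadF (c : Bs) (f : Fd) (P : Pm) (k : ℤ) (t : ℝ) (v : VV) (M : ℕ) (s : ℝ) :
    Flags c f v M s (BadF c f P k t v M s) := by
  classical
  refine ⟨fun i => ?_, fun ω i hi => ?_⟩
  · have h0 : MeasurableSet {ω : Om | Nice c.μ f.a v s ω.2} :=
      measurable_snd (measurableSet_Nice c.μ f.a v s)
    have h1 := ((flags_GdF c f P k t v M s).1 i).compl
    have h2 := ((flags_ThL c f P v M s).1 i).compl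
    have h3 := ((flags_ThR c f P v M s).1 i).compl
    have h4 : MeasurableSet {_ω : Om | i < M} := MeasurableSet.const _
    have h5 := h4.inter (h0.inter (h1.inter (h2.inter h3)))
    have e : {ω : Om | i ∈ BadF c f P k t v M s ω} = {_ω : Om | i < M} ∩
        ({ω : Om | Nice c.μ f.a v s ω.2} ∩ ({ω | i ∈ GdF c f P k t v M s ω}ᶜ ∩
          ({ω | i ∈ ThL c f P v M s ω}ᶜ ∩ {ω | i ∈ ThR c f P v M s ω}ᶜ))) := by
      ext ω
      simp only [BadF, Finset.mem_filter, Finset.mem_range, mem_ofPred_eq, mem_inter_iff,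
        mem_compl_iff]
    rw [e]
    exact h5
  · simp only [BadF, Finset.mem_filter, Finset.mem_range] at hi
    exact ⟨hi.1, hi.2.1⟩

open Classical in
/-- Blocks of a nice path with a given property. -/
noncomputable def goodF (c : Bs) (f : Fd) (v : VV) (M : ℕ) (s : ℝ)
    (Q : GG.Walk 0 v → ℕ → Om → Prop) (ω : Om) : Finset ℕ :=
  (Finset.range M).filter fun i => Nice c.μ f.a v s ω.2 ∧ Q (geo v ω.2) i ω

lemma good_mem {c : Bs} {f : Fd} {v : VV} {M : ℕ} {s : ℝ} {Q : GG.Walk 0 v → ℕ → Om → Prop}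
    {ω : Om} {i : ℕ} :
    i ∈ goodF c f v M s Q ω ↔ i < M ∧ Nice c.μ f.a v s ω.2 ∧ Q (geo v ω.2) i ω := by
  classical
  simp only [goodF, Finset.mem_filter, Finset.mem_range]

lemma good_flags (c : Bs) (f : Fd) (v : VV) (M : ℕ) (s : ℝ) {Q : GG.Walk 0 v → ℕ → Om → Prop}
    (hQ : ∀ p i, MeasurableSet {ω | Q p i ω}) : Flags c f v M s (goodF c f v M s Q) := by
  refine ⟨fun i => ?_, fun ω i hi => ⟨(good_mem.1 hi).1, (good_mem.1 hi).2.1⟩⟩
  have h0 : MeasurableSet {ω : Om | Nice c.μ f.a v s ω.2} :=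
    measurable_snd (measurableSet_Nice c.μ f.a v s)
  have h1 : MeasurableSet {ω : Om | Q (geo v ω.2) i ω} :=
    measSet_geo2 v (F := fun p ω => Q p i ω) fun p => hQ p i
  have h4 : MeasurableSet {_ω : Om | i < M} := MeasurableSet.const _
  have e : {ω : Om | i ∈ goodF c f v M s Q ω} = {_ω : Om | i < M} ∩
      ({ω : Om | Nice c.μ f.a v s ω.2} ∩ {ω : Om | Q (geo v ω.2) i ω}) := by
    ext ω
    simp only [mem_ofPred_eq, mem_inter_iff, good_mem]
  rw [e]
  exact h4.inter (h0.inter h1)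

/-! ### Locality -/

section loc

variable {a : ℝ × ℝ →ₗ[ℝ] ℝ} {α α' : ℝ}

lemma good_loc_not {W : Om → Prop} (h : Loc a α α' W) : Loc a α α' fun ω => ¬ W ω :=
  h.map₂ h fun x _ => ¬ x

lemma good_loc_and {W W' : Om → Prop} (h : Loc a α α' W) (h' : Loc a α α' W') :
    Loc a α α' fun ω => W ω ∧ W' ω := h.map₂ h' And

lemma good_loc_or {W W' : Om → Prop} (h : Loc a α α' W) (h' : Loc a α α' W') :
    Loc a α α' fun ω => W ω ∨ W' ω := h.map₂ h' Or

lemma good_loc_UE (f : Fd) (r C : ℝ) (z z' : ℝ × ℝ) (α α' : ℝ) :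
    Loc f.a α α' fun ω : Om => UE f r C z z' α α' ω.2 :=
  ⟨_, inR_Sl f z α α', locOn_snd (dependsOn_UE f r C z z' α α')⟩

lemma good_loc_Hat (f : Fd) (r C : ℝ) (z z' : ℝ × ℝ) (α α' t : ℝ) (E : Finset EE) :
    Loc f.a α α' (Hat t (UE f r C z z' α α') E) :=
  ⟨_, inR_Sl f z α α', locOn_Hat (dependsOn_UE f r C z z' α α') t E⟩

lemma good_loc_LE (f : Fd) (κ r ρ C : ℝ) (z z' z0 : ℝ × ℝ) (α α' : ℝ) :
    Loc f.a α α' fun ω : Om => LE f κ r ρ C z z' (Sl f z0 α α') ω.2 :=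
  ⟨_, inR_Sl f z0 α α', locOn_snd (dependsOn_LE f κ r ρ C z z' _)⟩

end loc

lemma good_snd (S : Set Env) : P2 {ω : Om | ω.2 ∈ S} = PE S := by
  have e : {ω : Om | ω.2 ∈ S} = (univ : Set Env) ×ˢ S := by
    ext ω
    simp
  rw [e, Measure.prod_prod, measure_univ, one_mul]

lemma good_union {ι : Type} (Z : Finset ι) (A : ι → Set Om) {η : ℝ}
    (h : ∀ r ∈ Z, P2 (A r) ≤ ENNReal.ofReal η) :
    P2 {ω | ¬ ∀ r ∈ Z, ω ∉ A r} ≤ ENNReal.ofReal (Z.card * η) := by
  have e : {ω | ¬ ∀ r ∈ Z, ω ∉ A r} = ⋃ r ∈ Z, A r := by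
    ext ω
    simp
  rw [e]
  refine (measure_biUnion_finset_le Z A).trans ?_
  refine (Finset.sum_le_card_nsmul Z _ _ h).trans ?_
  rw [nsmul_eq_mul, ENNReal.ofReal_mul (Nat.cast_nonneg _), ENNReal.ofReal_natCast]

lemma good_or {A B : Om → Prop} {x y : ℝ} (hx : 0 ≤ x) (hy : 0 ≤ y)
    (hA : P2 {ω | A ω} ≤ ENNReal.ofReal x) (hB : P2 {ω | B ω} ≤ ENNReal.ofReal y) :
    P2 {ω | A ω ∨ B ω} ≤ ENNReal.ofReal (x + y) := by
  rw [ENNReal.ofReal_add hx hy]
  exact (measure_union_le {ω | A ω} {ω | B ω}).trans (add_le_add hA hB)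

lemma good_hat {U : Env → Prop} (h : MeasurableSet {X | U X}) (t : ℝ) (E : Finset EE) {η : ℝ}
    (hU : PE {X | ¬ U X} ≤ ENNReal.ofReal η) :
    P2 {ω | ¬ Hat t U E ω} ≤ ENNReal.ofReal (6 * η) := by
  refine (prob_Hat h t E).trans ?_
  rw [ENNReal.ofReal_mul (by norm_num)]
  have : ENNReal.ofReal 6 = 6 := by norm_num
  rw [this]
  exact mul_le_mul_right hU 6

/-! ### The middle slab -/

section first

variable (c : Bs) (f : Fd) (P : Pm) (k : ℤ) (t : ℝ)

/-- Atypical events in the middle slab. -/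
def goodE1 (i : ℕ) (cc : ℤ) : Set Om :=
  {ω | (∀ r ∈ Finset.Icc 1 P.nt,
      ¬ (Qe c f P k t (om c f P i cc r) ω ∧ Qe c f P k t (op c f P i cc r) ω)) ∨
    ¬ ∀ r ∈ Finset.Icc 1 P.nt, ω ∉ {ω : Om | ¬ Lw c f P i cc r ω.2 ∨
      ¬ Hat t (U2 c f P i cc r) (EN c f P i cc r) ω}}

lemma good_meas1 (i : ℕ) (cc : ℤ) : MeasurableSet (goodE1 c f P k t i cc) := by
  refine MeasurableSet.union (s₁ := {ω | ∀ r ∈ Finset.Icc 1 P.nt,
      ¬ (Qe c f P k t (om c f P i cc r) ω ∧ Qe c f P k t (op c f P i cc r) ω)})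
    (s₂ := {ω | ∀ r ∈ Finset.Icc 1 P.nt, ω ∉ {ω : Om | ¬ Lw c f P i cc r ω.2 ∨
      ¬ Hat t (U2 c f P i cc r) (EN c f P i cc r) ω}}ᶜ) ?_ (MeasurableSet.compl ?_)
  · rw [ofPred_forall]
    refine MeasurableSet.iInter fun r => ?_
    rw [ofPred_forall]
    refine MeasurableSet.iInter fun _ => ?_
    exact ((measurableSet_Qe c f P k t _).inter (measurableSet_Qe c f P k t _)).compl
  · rw [ofPred_forall]
    refine MeasurableSet.iInter fun r => ?_
    rw [ofPred_forall]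
    refine MeasurableSet.iInter fun _ => ?_
    have h1 : MeasurableSet {ω : Om | Lw c f P i cc r ω.2} :=
      measurable_snd (measurableSet_Lw c f P i cc r)
    have h2 : MeasurableSet {ω : Om | Hat t (U2 c f P i cc r) (EN c f P i cc r) ω} :=
      measurableSet_Hat (measurableSet_UE _ _ _ _ _ _ _) _ _
    exact (h1.compl.union h2.compl).compl

lemma good_Lw (i : ℕ) (cc : ℤ) (r : ℕ) (X : Env) : Lw c f P i cc r X ↔
    (LE f c.κ (P.N' * c.m) (11 * P.N' * c.m) (P.C2 * c.s) (zm c f P i cc r) (ru c f P i cc r)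
      (Sl f (zm c f P i cc r) (((i : ℝ) - P.g) * c.m) (((i : ℝ) + P.g) * c.m)) X ∧
    LE f c.κ (P.N' * c.m) (11 * P.N' * c.m) (P.C2 * c.s) (ru c f P i cc r) (zp c f P i cc r)
      (Sl f (zm c f P i cc r) (((i : ℝ) - P.g) * c.m) (((i : ℝ) + P.g) * c.m)) X) ∧
    (LE f c.κ (P.N' * c.m) (11 * P.N' * c.m) (P.C2 * c.s) (zm c f P i cc r) (rd c f P i cc r)
      (Sl f (zm c f P i cc r) (((i : ℝ) - P.g) * c.m) (((i : ℝ) + P.g) * c.m)) X ∧
    LE f c.κ (P.N' * c.m) (11 * P.N' * c.m) (P.C2 * c.s) (rd c f P i cc r) (zp c f P i cc r)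
      (Sl f (zm c f P i cc r) (((i : ℝ) - P.g) * c.m) (((i : ℝ) + P.g) * c.m)) X) := by
  unfold Lw
  simp only [mem_insert_iff, mem_singleton_iff, forall_eq_or_imp, forall_eq]

variable {c f P k t}

lemma good_loc1 (hB : c.Big 100) (hF : Fr c.μ c.κ 1 f) (i : ℕ) (cc : ℤ) :
    Loc f.a (((i : ℝ) - P.g) * c.m) (((i : ℝ) + P.g) * c.m)
      fun ω => ω ∈ goodE1 c f P k t i cc := by
  classical
  refine good_loc_or (Loc.forall _ fun r _ => good_loc_not (good_loc_and ?_ ?_))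
    (good_loc_not (Loc.forall _ fun r _ => good_loc_not (good_loc_or (good_loc_not ?_)
      (good_loc_not (good_loc_Hat _ _ _ _ _ _ _ _ _)))))
  · exact ⟨_, fun e he => inR_EN hB hF i cc r e (Finset.mem_union_left _ he), locOn_Qe c f P k t _⟩
  · exact ⟨_, fun e he => inR_EN hB hF i cc r e (Finset.mem_union_right _ he), locOn_Qe c f P k t _⟩
  · simp only [good_Lw]
    exact good_loc_and (good_loc_and (good_loc_LE _ _ _ _ _ _ _ _ _ _)
      (good_loc_LE _ _ _ _ _ _ _ _ _ _)) (good_loc_and (good_loc_LE _ _ _ _ _ _ _ _ _ _)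
      (good_loc_LE _ _ _ _ _ _ _ _ _ _))

lemma good_not_and {A B : Env → Prop} {x y : ℝ} (hx : 0 ≤ x) (hy : 0 ≤ y)
    (hA : PE {ω | ¬ A ω} ≤ ENNReal.ofReal x) (hB : PE {ω | ¬ B ω} ≤ ENNReal.ofReal y) :
    PE {ω | ¬ (A ω ∧ B ω)} ≤ ENNReal.ofReal (x + y) := by
  rw [ENNReal.ofReal_add hx hy]
  refine le_trans (measure_mono fun ω hω => ?_)
    ((measure_union_le {ω | ¬ A ω} {ω | ¬ B ω}).trans (add_le_add hA hB))
  exact not_and_or.1 hω

lemma good_Nc (P : Pm) : (P.N : ℝ) = 2 * P.K1 + 2 := by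
  simp [Pm.N]

lemma good_gc (P : Pm) : (P.g : ℝ) = P.G + P.N + 10 := by
  simp [Pm.g]

lemma good_prob1 (hB : c.Big 100) (hF : Fr c.μ c.κ 1 f) (hP : P.OK) {c0 η : ℝ} (h0 : 0 ≤ c0)
    (h1 : c0 ≤ 1) (hη : 0 ≤ η) (hQ : ∀ o, ENNReal.ofReal c0 ≤ P2 {ω | Qe c f P k t o ω})
    (hLE : ∀ (z z' : ℝ × ℝ) (A : Finset VV),
      PE {X | ¬ LE f c.κ (P.N' * c.m) (11 * P.N' * c.m) (P.C2 * c.s) z z' A X} ≤ ENNReal.ofReal η)
    (hUE : ∀ (z z' : ℝ × ℝ) (α α' : ℝ), 0 ≤ f.a (z' - z) →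
      Cheap c.μ f (z' - z) (3 * P.N * c.m) ((2 * P.G + 7 + 3 * P.N) * c.s) → α + c.m ≤ f.a z →
      f.a z' + (P.N + 1) * c.m ≤ α' → α' - α ≤ 2 * P.g * c.m →
      PE {X | ¬ UE f (P.N * c.m) (P.C2 * c.s) z z' α α' X} ≤ ENNReal.ofReal η)
    (i : ℕ) (cc : ℤ) :
    P2 (goodE1 c f P k t i cc) ≤ ENNReal.ofReal ((1 - c0 ^ 2) ^ P.nt + P.nt * (10 * η)) := by
  have hm := hB.m_pos
  have hc : 0 ≤ 1 - c0 ^ 2 := by nlinarith
  refine good_or (pow_nonneg hc _) (by positivity) (trials hB hF hP.h7 h0 h1 hQ i cc) ?_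
  have key := good_union (Finset.Icc 1 P.nt) (fun r => {ω : Om | ¬ Lw c f P i cc r ω.2 ∨
      ¬ Hat t (U2 c f P i cc r) (EN c f P i cc r) ω}) (η := 10 * η) fun r _ => ?_
  · rw [Nat.card_Icc, Nat.add_sub_cancel] at key
    exact key
  have e : 10 * η = (η + η + (η + η)) + 6 * η := by ring
  rw [e]
  refine good_or (by positivity) (by positivity) ?_ (good_hat (measurableSet_UE _ _ _ _ _ _ _) _ _ ?_)
  · refine (good_snd {X | ¬ Lw c f P i cc r X}).trans_le ?_
    simp only [good_Lw]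
    exact good_not_and (by positivity) (by positivity)
      (good_not_and hη hη (hLE _ _ _) (hLE _ _ _)) (good_not_and hη hη (hLE _ _ _) (hLE _ _ _))
  · have hG : 3 * (P.N : ℝ) ≤ P.G := by exact_mod_cast hP.h3
    have hN : (0 : ℝ) ≤ P.N := Nat.cast_nonneg _
    have hg := good_gc P
    have a1 : f.a (zm c f P i cc r) = ((i : ℝ) - P.G - 7) * c.m := hF.a_pt _ _
    have a2 : f.a (zp c f P i cc r) = ((i : ℝ) + P.G) * c.m := hF.a_pt _ _
    have b1 : f.b (zm c f P i cc r) = hb c P cc r - (P.K1 + 1) * c.m := hF.b_pt _ _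
    have b2 : f.b (zp c f P i cc r) = hb c P cc r - (P.K1 + 1) * c.m := hF.b_pt _ _
    have hNm := mul_nonneg hN hm.le
    have hGm := mul_le_mul_of_nonneg_right hG hm.le
    refine hUE _ _ _ _ ?_ (fun ζ ha hb' => ?_) ?_ ?_ ?_
    · rw [map_sub, a1, a2]
      nlinarith
    · rw [map_sub, map_sub, a1, a2] at ha
      rw [map_sub, map_sub, b1, b2, sub_self, sub_zero] at hb'
      obtain ⟨ha1, ha2⟩ := abs_le.1 ha
      have h2 := hF.up ζ (by nlinarith)
      have h3 : c.κ * f.a ζ ≤ c.κ * ((2 * P.G + 7 + 3 * P.N) * c.m) :=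
        mul_le_mul_of_nonneg_left (by nlinarith) hB.κ_pos.le
      have h4 := hB.κm
      have h5 : c.κ * ((2 * P.G + 7 + 3 * P.N) * c.m) = (2 * P.G + 7 + 3 * P.N) * c.s := by
        rw [← h4]; ring
      linarith
    · rw [a1, hg]
      nlinarith
    · rw [a2, hg]
      nlinarith
    · apply le_of_eq
      ring

end first

/-! ### The long slab -/

section second

variable (c : Bs) (f : Fd) (P : Pm) (t : ℝ)

/-- Atypical events in the long slab. -/
def goodE2 (κ : ℕ → ℤ) (i : ℕ) : Set Om :=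
  {ω | (2 * P.Lt ≤ i ∧ |((κ (i + 1) - κ i : ℤ) : ℝ)| ≤ P.K3 + 1 ∧
      Fat c f P (il P i) (κ (il P i)) (i + 1) (κ (i + 1)) ∧
      Fat c f P i (κ i) (ir P i) (κ (ir P i))) ∧
    ¬ ∀ r ∈ Finset.Icc 1 P.nt, ω ∉ {ω : Om |
      (¬ U1 c f P i (κ (il P i)) (κ i) r ω.2 ∨
        ¬ Hat t (U1 c f P i (κ (il P i)) (κ i) r) (EN c f P i (κ i) r) ω) ∨
      (¬ U3 c f P i (κ i) (κ (ir P i)) r ω.2 ∨
        ¬ Hat t (U3 c f P i (κ i) (κ (ir P i)) r) (EN c f P i (κ i) r) ω)}}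

lemma good_meas2 (κ : ℕ → ℤ) (i : ℕ) : MeasurableSet (goodE2 c f P t κ i) := by
  refine MeasurableSet.inter (MeasurableSet.const _) (MeasurableSet.compl (s := {ω |
    ∀ r ∈ Finset.Icc 1 P.nt, ω ∉ {ω : Om |
      (¬ U1 c f P i (κ (il P i)) (κ i) r ω.2 ∨
        ¬ Hat t (U1 c f P i (κ (il P i)) (κ i) r) (EN c f P i (κ i) r) ω) ∨
      (¬ U3 c f P i (κ i) (κ (ir P i)) r ω.2 ∨
        ¬ Hat t (U3 c f P i (κ i) (κ (ir P i)) r) (EN c f P i (κ i) r) ω)}}) ?_)
  rw [ofPred_forall]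
  refine MeasurableSet.iInter fun r => ?_
  rw [ofPred_forall]
  refine MeasurableSet.iInter fun _ => ?_
  have h1 : MeasurableSet {X : Env | U1 c f P i (κ (il P i)) (κ i) r X} :=
    measurableSet_UE _ _ _ _ _ _ _
  have h3 : MeasurableSet {X : Env | U3 c f P i (κ i) (κ (ir P i)) r X} :=
    measurableSet_UE _ _ _ _ _ _ _
  have h1' : MeasurableSet {ω : Om | U1 c f P i (κ (il P i)) (κ i) r ω.2} := measurable_snd h1
  have h3' : MeasurableSet {ω : Om | U3 c f P i (κ i) (κ (ir P i)) r ω.2} := measurable_snd h3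
  exact ((h1'.compl.union (measurableSet_Hat h1 _ _).compl).union
    (h3'.compl.union (measurableSet_Hat h3 _ _).compl)).compl

lemma good_loc2 (κ : ℕ → ℤ) (i : ℕ) :
    Loc f.a (((i : ℝ) - 3 * P.Lt) * c.m) (((i : ℝ) + 3 * P.Lt) * c.m)
      fun ω => ω ∈ goodE2 c f P t κ i :=
  good_loc_and (Loc.const _) (good_loc_not (Loc.forall _ fun _ _ => good_loc_not (good_loc_or
    (good_loc_or (good_loc_not (good_loc_UE _ _ _ _ _ _ _))
      (good_loc_not (good_loc_Hat _ _ _ _ _ _ _ _ _)))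
    (good_loc_or (good_loc_not (good_loc_UE _ _ _ _ _ _ _))
      (good_loc_not (good_loc_Hat _ _ _ _ _ _ _ _ _))))))

variable {c f P t}

lemma good_il (hL : 1 ≤ P.Lt) (i : ℕ) : i + 1 ≤ il P i + 2 * P.Lt := by
  unfold il
  have h1 := Nat.lt_div_mul_add (a := i) (b := P.Lt) hL
  have h2 : i / P.Lt + 1 ≤ i / P.Lt - 1 + 2 := by omega
  have h3 := Nat.mul_le_mul_right P.Lt h2
  rw [add_mul, add_mul] at h3
  omega

lemma good_il' (hL : 1 ≤ P.Lt) {i : ℕ} (hi : P.Lt ≤ i) : il P i + P.Lt ≤ i := by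
  unfold il
  have h1 := Nat.div_mul_le_self i P.Lt
  have h0 : 1 ≤ i / P.Lt := (Nat.one_le_div_iff hL).2 hi
  have h2 : i / P.Lt - 1 + 1 = i / P.Lt := by omega
  have h3 := congrArg (· * P.Lt) h2
  simp only [add_mul] at h3
  omega

lemma good_ir (i : ℕ) : ir P i ≤ i + 2 * P.Lt := by
  unfold ir
  have h1 := Nat.div_mul_le_self i P.Lt
  rw [add_mul]
  omega

lemma good_ir' (hL : 1 ≤ P.Lt) (i : ℕ) : i + P.Lt + 1 ≤ ir P i := by
  unfold ir
  have h1 := Nat.lt_div_mul_add (a := i) (b := P.Lt) hL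
  rw [add_mul]
  omega

lemma good_cheap {μ : ℝ × ℝ → ℝ} {Δ Δ' : ℝ × ℝ} {τ τ' Φ : ℝ} (h : Cheap μ f Δ τ Φ)
    (ha : |f.a Δ' - f.a Δ| + τ' ≤ τ) (hb : |f.b Δ' - f.b Δ| + τ' ≤ τ) : Cheap μ f Δ' τ' Φ := by
  intro ζ h1 h2
  rw [map_sub] at h1 h2
  refine h ζ ?_ ?_
  · rw [map_sub]
    have := abs_sub_le (f.a ζ) (f.a Δ') (f.a Δ)
    linarith
  · rw [map_sub]
    have := abs_sub_le (f.b ζ) (f.b Δ') (f.b Δ)
    linarith

lemma good_Lt (hP : P.OK) : 1 ≤ P.Lt := by
  have := hP.h10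
  unfold Pm.g at this
  omega

lemma good_prob2 (hB : c.Big 100) (hF : Fr c.μ c.κ 1 f) (hP : P.OK) {η : ℝ} (hη : 0 ≤ η)
    (hUE : ∀ (z z' : ℝ × ℝ) (α α' : ℝ), 0 ≤ f.a (z' - z) →
      Cheap c.μ f (z' - z) (3 * P.N * c.m) (P.CF * P.Lt * c.s) → α + c.m ≤ f.a z →
      f.a z' + (P.N + 1) * c.m ≤ α' → α' - α ≤ 6 * P.Lt * c.m →
      PE {X | ¬ UE f (P.N * c.m) (P.CL * c.s) z z' α α' X} ≤ ENNReal.ofReal η)
    (κ : ℕ → ℤ) (i : ℕ) :
    P2 (goodE2 c f P t κ i) ≤ ENNReal.ofReal (P.nt * (14 * η)) := by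
  have hm := hB.m_pos
  by_cases hD : 2 * P.Lt ≤ i ∧ |((κ (i + 1) - κ i : ℤ) : ℝ)| ≤ P.K3 + 1 ∧
      Fat c f P (il P i) (κ (il P i)) (i + 1) (κ (i + 1)) ∧
      Fat c f P i (κ i) (ir P i) (κ (ir P i))
  swap
  · have e : goodE2 c f P t κ i = ∅ := eq_empty_of_forall_notMem fun ω hω => hD hω.1
    rw [e, measure_empty]
    exact zero_le
  obtain ⟨hi, hk, hl, hr⟩ := hD
  refine le_trans (measure_mono fun ω hω => hω.2) ?_
  have key := good_union (Finset.Icc 1 P.nt) (fun r => {ω : Om |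
      (¬ U1 c f P i (κ (il P i)) (κ i) r ω.2 ∨
        ¬ Hat t (U1 c f P i (κ (il P i)) (κ i) r) (EN c f P i (κ i) r) ω) ∨
      (¬ U3 c f P i (κ i) (κ (ir P i)) r ω.2 ∨
        ¬ Hat t (U3 c f P i (κ i) (κ (ir P i)) r) (EN c f P i (κ i) r) ω)}) (η := 14 * η)
    fun r hr' => ?_
  · rw [Nat.card_Icc, Nat.add_sub_cancel] at key
    exact key
  have hL := good_Lt hP
  have hr1 : (r : ℝ) ≤ P.nt := by exact_mod_cast (Finset.mem_Icc.1 hr').2
  have hr0 : (0 : ℝ) ≤ r := Nat.cast_nonneg _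
  have hY0 : (0 : ℝ) ≤ P.Y0 := Nat.cast_nonneg _
  have hrY : (r : ℝ) * P.Y0 ≤ P.nt * P.Y0 := mul_le_mul_of_nonneg_right hr1 hY0
  have hrY0 : 0 ≤ (r : ℝ) * P.Y0 := mul_nonneg hr0 hY0
  have hN : (0 : ℝ) ≤ P.N := Nat.cast_nonneg _
  have hG : (0 : ℝ) ≤ P.G := Nat.cast_nonneg _
  have hK1 : (0 : ℝ) ≤ P.K1 := Nat.cast_nonneg _
  have hK2 : (0 : ℝ) ≤ P.K2 := Nat.cast_nonneg _
  have hK3 : (0 : ℝ) ≤ P.K3 := Nat.cast_nonneg _
  have hg := good_gc P
  have h8 : (P.G : ℝ) + 8 + 3 * P.N ≤ P.Y := by exact_mod_cast hP.h8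
  have h9 : (P.K3 : ℝ) + P.nt * P.Y0 + P.K1 + P.K2 + 2 + 3 * P.N ≤ P.Y := by exact_mod_cast hP.h9
  have h10 : (P.g : ℝ) ≤ P.Lt := by exact_mod_cast hP.h10
  have l1 : (i : ℝ) + 1 ≤ il P i + 2 * P.Lt := by exact_mod_cast good_il hL i
  have l2 : (il P i : ℝ) + P.Lt ≤ i := by exact_mod_cast good_il' hL (by omega)
  have r1 : (ir P i : ℝ) ≤ i + 2 * P.Lt := by exact_mod_cast good_ir i
  have r2 : (i : ℝ) + P.Lt + 1 ≤ ir P i := by exact_mod_cast good_ir' hL i
  have a1 : f.a (zm c f P i (κ i) r) = ((i : ℝ) - P.G - 7) * c.m := hF.a_pt _ _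
  have a2 : f.a (zp c f P i (κ i) r) = ((i : ℝ) + P.G) * c.m := hF.a_pt _ _
  have b1 : f.b (zm c f P i (κ i) r) = ((κ i : ℝ) + r * P.Y0) * c.m - (P.K1 + 1) * c.m :=
    hF.b_pt _ _
  have b2 : f.b (zp c f P i (κ i) r) = ((κ i : ℝ) + r * P.Y0) * c.m - (P.K1 + 1) * c.m :=
    hF.b_pt _ _
  have a3 : ∀ (j : ℕ) (l : ℤ), f.a (zc f c.m j l) = j * c.m := fun _ _ => hF.a_pt _ _
  have b3 : ∀ (j : ℕ) (l : ℤ), f.b (zc f c.m j l) = l * c.m := fun _ _ => hF.b_pt _ _
  have mul : ∀ {x y : ℝ}, x ≤ y → x * c.m ≤ y * c.m := fun h => mul_le_mul_of_nonneg_right h hm.le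
  have ab : ∀ {x y z : ℝ}, -x + y ≤ z → x + y ≤ z → |x * c.m| + y * c.m ≤ z * c.m := by
    intro x y z h1 h2
    have h3 := mul h1
    have h4 := mul h2
    rcases abs_cases (x * c.m) with h | h <;> linarith
  push_cast at hk
  obtain ⟨hk1, hk2⟩ := abs_le.1 hk
  have u1 : PE {X | ¬ U1 c f P i (κ (il P i)) (κ i) r X} ≤ ENNReal.ofReal η := by
    refine hUE _ _ _ _ ?_ (good_cheap hl ?_ ?_) ?_ ?_ (le_of_eq (by ring))
    · rw [map_sub, a1, a3, ← sub_mul]
      exact mul_nonneg (by linarith) hm.le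
    · rw [map_sub, map_sub, a1, a3, a3, sub_sub_sub_cancel_right, ← sub_mul]
      push_cast
      exact ab (by linarith) (by linarith)
    · rw [map_sub, map_sub, b1, b3, b3, sub_sub_sub_cancel_right, ← sub_mul, ← sub_mul]
      exact ab (by linarith) (by linarith)
    · rw [a3, ← add_one_mul]
      exact mul (by linarith)
    · rw [a1, ← add_mul]
      exact mul (by linarith)
  have u3 : PE {X | ¬ U3 c f P i (κ i) (κ (ir P i)) r X} ≤ ENNReal.ofReal η := by
    refine hUE _ _ _ _ ?_ (good_cheap hr ?_ ?_) ?_ ?_ (le_of_eq (by ring))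
    · rw [map_sub, a2, a3, ← sub_mul]
      exact mul_nonneg (by linarith) hm.le
    · rw [map_sub, map_sub, a2, a3, a3, sub_sub_sub_cancel_left, ← sub_mul]
      exact ab (by linarith) (by linarith)
    · rw [map_sub, map_sub, b2, b3, b3, sub_sub_sub_cancel_left, ← sub_mul, ← sub_mul]
      exact ab (by linarith) (by linarith)
    · rw [a2, ← add_one_mul]
      exact mul (by linarith)
    · rw [a3, ← add_mul]
      exact mul (by linarith)
  have e : 14 * η = (η + 6 * η) + (η + 6 * η) := by ring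
  rw [e]
  exact good_or (by positivity) (by positivity)
    (good_or hη (by positivity) ((good_snd _).trans_le u1)
      (good_hat (measurableSet_UE _ _ _ _ _ _ _) _ _ u1))
    (good_or hη (by positivity) ((good_snd _).trans_le u3)
      (good_hat (measurableSet_UE _ _ _ _ _ _ _) _ _ u3))

end second

/-! ### The union bound -/

section core

variable {c : Bs} {f : Fd} {P : Pm} {k : ℤ} {t : ℝ} {v : VV} {M : ℕ} {s C : ℝ}

lemma good_cover (hB : c.Big 100) (ω : Om) : BadF c f P k t v M s ω ⊆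
    (Finset.range (2 * P.Lt) ∪ Finset.Ico (M - 2 * P.Lt) M) ∪
    (goodF c f v M s (fun p i _ => (P.K3 : ℝ) ≤ Dd f c.m p i) ω ∪
    (goodF c f v M s (fun p i ω => ir P i ≤ M ∧
      P.CL * c.s ≤ ∑ j ∈ Finset.Ico (il P i) (ir P i), |ex f c.m p ω.2 j|) ω ∪
    (goodF c f v M s (fun p i ω => ω ∈ goodE1 c f P k t i (cs f c.m p i)) ω ∪
    goodF c f v M s (fun p i ω => ω ∈ goodE2 c f P t (cs f c.m p) i) ω))) := by
  classical
  intro i hi
  simp only [BadF, GdF, ThL, ThR, Finset.mem_filter, Finset.mem_range] at hi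
  obtain ⟨hM, hN, hG, hL, hR⟩ := hi
  simp only [Finset.mem_union, Finset.mem_range, Finset.mem_Ico, good_mem]
  by_contra hcon
  simp only [not_or] at hcon
  obtain ⟨⟨c1, c2⟩, c3, c4, c5, c6⟩ := hcon
  have i1 : 2 * P.Lt ≤ i := not_lt.1 c1
  have i2 : i + 2 * P.Lt ≤ M := by omega
  have d1 : Dd f c.m (geo v ω.2) i ≤ P.K3 := by
    by_contra h
    exact c3 ⟨hM, hN, (not_le.1 h).le⟩
  have d2 : ∑ j ∈ Finset.Ico (il P i) (ir P i), |ex f c.m (geo v ω.2) ω.2 j| ≤ P.CL * c.s := by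
    by_contra h
    exact c4 ⟨hM, hN, (good_ir i).trans i2, (not_le.1 h).le⟩
  have f1 : FatL c f P (geo v ω.2) i := by
    by_contra h
    exact hL ⟨hM, hN, i1, i2, h⟩
  have f2 : FatR c f P (geo v ω.2) i := by
    by_contra h
    exact hR ⟨hM, hN, i1, i2, h⟩
  have e1 : ω ∉ goodE1 c f P k t i (cs f c.m (geo v ω.2) i) := fun h => c5 ⟨hM, hN, h⟩
  have e2 : ω ∉ goodE2 c f P t (cs f c.m (geo v ω.2)) i := fun h => c6 ⟨hM, hN, h⟩
  have d3 := abs_ks_le f hB.m_pos (geo v ω.2) i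
  have e3 := not_and.1 e2 ⟨i1, d3.trans (by linarith), f1, f2⟩
  obtain ⟨e4, e5⟩ := not_or.1 e1
  rw [not_not] at e3 e5
  refine hG ⟨hM, hN, i1, i2, d1, d2, f1, f2, ?_, fun r hr => ?_⟩
  · by_contra h
    exact e4 fun r hr h' => h ⟨r, hr, h'⟩
  · have g1 := e3 r hr
    have g2 := e5 r hr
    simp only [mem_ofPred_eq, not_or, not_not] at g1 g2
    exact ⟨g1.1.1, g1.2.1, g2.1, g1.1.2, g2.2, g1.2.2⟩

lemma good_core (h : Tp c f v M s C) (hP : P.OK) (hK3 : 0 < (P.K3 : ℝ)) (hCL : 0 < P.CL)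
    {β1 β2 : ℝ} (hβ1 : 0 < β1) (hβ2 : 0 < β2)
    (h1 : ∀ i cc, P2 (goodE1 c f P k t i cc) ≤ ENNReal.ofReal (exp (-β1)))
    (h2 : ∀ κ i, P2 (goodE2 c f P t κ i) ≤ ENNReal.ofReal (exp (-β2))) :
    ∫ ω, ((BadF c f P k t v M s ω).card : ℝ) ∂P2 ≤ 4 * P.Lt + (C / P.K3 * M +
      ((4 * P.Lt + 1) * C / P.CL * M + (14 * C * P.g / β1 * M + 42 * C * P.Lt / β2 * M))) := by
  classical
  have hB := h.big
  have hm := hB.m_pos
  have hL := good_Lt hP
  have hg : 1 ≤ P.g := by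
    unfold Pm.g
    omega
  have fD := good_flags c f v M s (Q := fun p i _ => (P.K3 : ℝ) ≤ Dd f c.m p i)
    fun _ _ => MeasurableSet.const _
  have fE := good_flags c f v M s (Q := fun p i ω => ir P i ≤ M ∧
      P.CL * c.s ≤ ∑ j ∈ Finset.Ico (il P i) (ir P i), |ex f c.m p ω.2 j|) fun p i =>
    (MeasurableSet.const _).inter (measurableSet_le measurable_const
      (Finset.measurable_sum _ fun j _ => ((measurable_ex f c.m p j).comp measurable_snd).abs))
  have f1 := good_flags c f v M s (Q := fun p i ω => ω ∈ goodE1 c f P k t i (cs f c.m p i))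
    fun p i => good_meas1 c f P k t i _
  have f2 := good_flags c f v M s (Q := fun p i ω => ω ∈ goodE2 c f P t (cs f c.m p) i)
    fun p i => good_meas2 c f P t _ i
  have bD := h.count_D hK3 fD fun ω i hi => (good_mem.1 hi).2.2
  have bE := h.count_E hCL (2 * P.Lt) fE (il P) (ir P)
    (fun i => (Nat.le_succ i).trans (good_il hL i)) good_ir fun ω i hi => (good_mem.1 hi).2.2
  have b1 := h.count (g := 2 * P.g) (by omega) (fun i => ((i : ℝ) - P.g) * c.m)
    (fun i => ((i : ℝ) + P.g) * c.m) (fun i i' hi => mul_le_mul_of_nonneg_right (by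
      have : (i : ℝ) + 2 * P.g ≤ i' := by exact_mod_cast hi
      linarith) hm.le) (E := fun κ i => goodE1 c f P k t i (κ i)) hβ1
    (fun κ i _ => good_meas1 c f P k t i _) (fun κ i _ => good_loc1 hB h.top.fr i _)
    (fun κ i _ => h1 i _) f1 fun ω i hi => (good_mem.1 hi).2.2
  have b2 := h.count (g := 6 * P.Lt) (by omega) (fun i => ((i : ℝ) - 3 * P.Lt) * c.m)
    (fun i => ((i : ℝ) + 3 * P.Lt) * c.m) (fun i i' hi => mul_le_mul_of_nonneg_right (by
      have : (i : ℝ) + 6 * P.Lt ≤ i' := by exact_mod_cast hi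
      linarith) hm.le) (E := fun κ i => goodE2 c f P t κ i) hβ2
    (fun κ i _ => good_meas2 c f P t κ i) (fun κ i _ => good_loc2 c f P t κ i)
    (fun κ i _ => h2 κ i) f2 fun ω i hi => (good_mem.1 hi).2.2
  have iD := fD.integrable_card
  have iE := fE.integrable_card
  have i1 := f1.integrable_card
  have i2 := f2.integrable_card
  have key := integral_mono (flags_BadF c f P k t v M s).integrable_card
    ((integrable_const (4 * P.Lt : ℝ)).add (iD.add (iE.add (i1.add i2)))) fun ω => ?_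
  · refine key.trans ?_
    rw [integral_add' (integrable_const _) (iD.add (iE.add (i1.add i2))),
      integral_add' iD (iE.add (i1.add i2)), integral_add' iE (i1.add i2), integral_add' i1 i2,
      integral_const, probReal_univ, one_smul]
    push_cast at bE b1 b2
    refine add_le_add le_rfl (add_le_add bD (add_le_add (bE.trans_eq ?_)
      (add_le_add (b1.trans_eq ?_) (b2.trans_eq ?_)))) <;> ring
  · have k0 := Finset.card_le_card (good_cover (f := f) (P := P) (k := k) (t := t) (v := v)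
      (M := M) (s := s) hB ω)
    have k1 : (Finset.range (2 * P.Lt) ∪ Finset.Ico (M - 2 * P.Lt) M).card ≤ 4 * P.Lt := by
      refine (Finset.card_union_le _ _).trans ?_
      rw [Finset.card_range, Nat.card_Ico]
      omega
    have k2 := k0.trans ((Finset.card_union_le _ _).trans (add_le_add k1
      ((Finset.card_union_le _ _).trans (add_le_add le_rfl
      ((Finset.card_union_le _ _).trans (add_le_add le_rfl (Finset.card_union_le _ _)))))))
    simp only [Pi.add_apply]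
    exact_mod_cast k2

end core

lemma good_small {β : ℝ} (n : ℕ) (A : ℝ) (hA : 0 < A) :
    n * (A * (exp (-β) / (2 * A * (n + 1)))) ≤ exp (-β) / 2 := by
  have h0 : (0 : ℝ) ≤ n := Nat.cast_nonneg _
  have h1 := exp_pos (-β)
  have e : n * (A * (exp (-β) / (2 * A * (n + 1)))) = exp (-β) / 2 * (n / (n + 1)) := by
    field_simp
  rw [e]
  exact mul_le_of_le_one_right (by positivity) ((div_le_one (by positivity)).2 (by linarith))

theorem countBad {δ a CF : ℝ} (hδ : 0 < δ) (ha : 0 < a) (hCF : 0 ≤ CF) {K1 : ℕ} (hK1 : 3 ≤ K1)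
    (L0 : ℕ → ℕ) : ∃ (P : Pm) (M0 : ℕ), P.OK ∧ P.K1 = K1 ∧ P.CF = CF ∧ L0 P.Y ≤ P.Lt ∧
    ∀ᶠ c in FB, ∀ (f : Fd) (v : VV) (M : ℕ) (s : ℝ) (k : ℤ) (t : ℝ), Top c f v M s → M0 ≤ M →
    |(k : ℝ)| ≤ K1 → a ^ 2 * c.s ^ 2 ≤ cvar t (FF f c.m K1 k 0) →
    ∫ ω, ((BadF c f P k t v M s ω).card : ℝ) ∂P2 ≤ δ * M := by
  obtain ⟨C, hC, hexc⟩ : ∃ C : ℝ, 1 ≤ C ∧ ∀ᶠ c in FB, ∀ (f : Fd) (v : VV) (M : ℕ) (s : ℝ),
      Top c f v M s → Tp c f v M s C := by
    obtain ⟨C, h⟩ := exc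
    refine ⟨max C 1, le_max_right _ _, h.mono fun c hc f v M s hT => ?_⟩
    rw [max_eq_left (hc f v M s hT).one]
    exact hc f v M s hT
  obtain ⟨c0, hc0, hc1, hQ⟩ := probQ K1 ha
  obtain ⟨N, hN⟩ : ∃ N : ℕ, N = 2 * K1 + 2 := ⟨_, rfl⟩
  obtain ⟨G, hG⟩ : ∃ G : ℕ, G = 3 * N := ⟨_, rfl⟩
  obtain ⟨g, hg⟩ : ∃ g : ℕ, g = G + N + 10 := ⟨_, rfl⟩
  obtain ⟨N', hN'⟩ : ∃ N' : ℕ, N' = 2 * G + N + 20 := ⟨_, rfl⟩
  have hN1 : (1 : ℝ) ≤ N := by exact_mod_cast (by omega : 1 ≤ N)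
  have hN1' : (1 : ℝ) ≤ N' := by exact_mod_cast (by omega : 1 ≤ N')
  have hg1 : (1 : ℝ) ≤ g := by exact_mod_cast (by omega : 1 ≤ g)
  obtain ⟨β1, hβ1⟩ : ∃ β1 : ℝ, β1 = 70 * C * g / δ := ⟨_, rfl⟩
  have hβ1' : 0 < β1 := by rw [hβ1]; positivity
  obtain ⟨nt, hnt⟩ := exists_pow_lt_of_lt_one (x := exp (-β1) / 2) (y := 1 - c0 ^ 2)
    (by positivity) (by nlinarith)
  have hη1 : 0 < exp (-β1) / (2 * 10 * (nt + 1)) := by positivity
  obtain ⟨Ca, hCa, hLE⟩ := probLE hN1' (11 * N') hη1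
  obtain ⟨Cb, -, hU2⟩ := reachRect hN1 (2 * g) (2 * G + 7 + 3 * N) hη1
  obtain ⟨K2, hK2⟩ := exists_nat_ge ((K1 : ℝ) + 2 + 3 * max Ca Cb)
  obtain ⟨K3, hK3⟩ := exists_nat_ge (5 * C / δ)
  obtain ⟨Y0, hY0⟩ : ∃ Y0 : ℕ, Y0 = K2 + K3 + 4 + 2 * K1 + 3 := ⟨_, rfl⟩
  obtain ⟨Y, hY⟩ : ∃ Y : ℕ, Y = G + 8 + K3 + nt * Y0 + K1 + K2 + 2 + 3 * N := ⟨_, rfl⟩
  obtain ⟨Lt, hLt⟩ : ∃ Lt : ℕ, Lt = max (L0 Y) g := ⟨_, rfl⟩
  have hL1 : (1 : ℝ) ≤ Lt := by exact_mod_cast (by omega : 1 ≤ Lt)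
  obtain ⟨β2, hβ2⟩ : ∃ β2 : ℝ, β2 = 210 * C * Lt / δ := ⟨_, rfl⟩
  have hβ2' : 0 < β2 := by rw [hβ2]; positivity
  have hη2 : 0 < exp (-β2) / (2 * 14 * (nt + 1)) := by positivity
  obtain ⟨Cc, -, hU⟩ := reachRect hN1 (6 * Lt) (CF * Lt) hη2
  obtain ⟨CL, hCL⟩ : ∃ CL : ℝ, CL = max Cc (5 * (4 * Lt + 1) * C / δ) := ⟨_, rfl⟩
  have hCL1 : 5 * (4 * Lt + 1) * C / δ ≤ CL := hCL ▸ le_max_right _ _
  have hCL2 : Cc ≤ CL := hCL ▸ le_max_left _ _
  have hCL0 : 0 < CL := lt_of_lt_of_le (by positivity) hCL1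
  have hC2 : 0 ≤ max Ca Cb := hCa.trans (le_max_left _ _)
  obtain ⟨p, hp, hQ⟩ := hQ (3 * CL + max Ca Cb + 1) (by positivity)
  obtain ⟨M0, hM0⟩ := exists_nat_ge (20 * Lt / δ)
  obtain ⟨P, hP⟩ : ∃ P : Pm, P = ⟨K1, G, Y0, K2, K3, nt, Lt, Y, max Ca Cb, CL, CF,
    3 * CL + max Ca Cb + 1, p⟩ := ⟨_, rfl⟩
  have p1 : P.K1 = K1 := by rw [hP]
  have p2 : P.G = G := by rw [hP]
  have p3 : P.Y0 = Y0 := by rw [hP]
  have p4 : P.K2 = K2 := by rw [hP]
  have p5 : P.K3 = K3 := by rw [hP]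
  have p6 : P.nt = nt := by rw [hP]
  have p7 : P.Lt = Lt := by rw [hP]
  have p8 : P.Y = Y := by rw [hP]
  have p9 : P.C2 = max Ca Cb := by rw [hP]
  have p10 : P.CL = CL := by rw [hP]
  have p11 : P.CF = CF := by rw [hP]
  have p12 : P.Rr = 3 * CL + max Ca Cb + 1 := by rw [hP]
  have p13 : P.p = p := by rw [hP]
  have q1 : P.N = N := by rw [Pm.N, p1, hN]
  have q2 : P.g = g := by rw [Pm.g, p2, q1, hg]
  have q3 : P.N' = N' := by rw [Pm.N', p2, q1, hN']
  have hOK : P.OK := ⟨by omega, by omega, p9 ▸ hC2, by rw [p1, p9, p4]; exact hK2, by omega,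
    by omega, by omega, by rw [p5, p6, p3, p1, p4, q1, p8]; omega, by omega, p10 ▸ hCL0.le,
    by rw [p10, p9, p12]; linarith, p13 ▸ hp⟩
  refine ⟨P, M0, hOK, p1, p11, by rw [p8, p7]; omega, ?_⟩
  filter_upwards [hexc, hQ, hLE, hU2, hU] with c hexc hQ hLE hU2 hU f v M s k t hT hM hk hv
  have hTp := hexc f v M s hT
  have hB := hTp.big
  have hs := hB.s_pos
  have hK30 : 0 < (K3 : ℝ) := lt_of_lt_of_le (by positivity) hK3
  have key := good_core (k := k) (t := t) hTp hOK (p5 ▸ hK30) (p10 ▸ hCL0) hβ1' hβ2'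
    (fun i cc => (good_prob1 hB hT.fr hOK hc0.le hc1 hη1.le
      (fun o => hQ f P k t o hT.fr p1 p12 p13 hk hv) (fun z z' A => ?_)
      (fun z z' α α' w1 w2 w3 w4 w5 => ?_) i cc).trans (ENNReal.ofReal_le_ofReal ?_))
    fun κ i => (good_prob2 hB hT.fr hOK hη2.le (fun z z' α α' w1 w2 w3 w4 w5 => ?_) κ i).trans
      (ENNReal.ofReal_le_ofReal ?_)
  · refine key.trans ?_
    rw [p7, p5, p10, q2]
    have hM1 : (M0 : ℝ) ≤ M := by exact_mod_cast hM
    have hM2 : (0 : ℝ) ≤ M := Nat.cast_nonneg _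
    have t0 : 4 * (Lt : ℝ) ≤ δ / 5 * M := by
      have := (div_le_iff₀ hδ).1 (hM0.trans hM1)
      linarith
    have t1 : C / K3 ≤ δ / 5 := by
      have := (div_le_iff₀ hδ).1 hK3
      rw [div_le_iff₀ hK30]
      linarith
    have t2 : (4 * Lt + 1) * C / CL ≤ δ / 5 := by
      have := (div_le_iff₀ hδ).1 hCL1
      rw [div_le_iff₀ hCL0]
      linarith
    have t3 : 14 * C * g / β1 = δ / 5 := by
      rw [hβ1]
      field_simp
      norm_num
    have t4 : 42 * C * Lt / β2 = δ / 5 := by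
      rw [hβ2]
      field_simp
      norm_num
    rw [t3, t4]
    have t5 := mul_le_mul_of_nonneg_right t1 hM2
    have t6 := mul_le_mul_of_nonneg_right t2 hM2
    linarith
  · rw [q3, p9]
    refine le_trans (measure_mono ?_) (hLE f z z' A hT.fr)
    exact fun X hX h => hX <| LE.mono h (mul_le_mul_of_nonneg_right (le_max_left _ _) hs.le)
  · rw [q1, p2] at w2
    rw [q1] at w4
    rw [q2] at w5
    rw [q1, p9]
    refine le_trans (measure_mono ?_) (hU2 f z z' α α' hT.fr w1 w2 w3 w4 w5)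
    exact fun X hX h => hX <| UE.mono h (mul_le_mul_of_nonneg_right (le_max_right _ _) hs.le)
  · rw [p6]
    have := good_small (β := β1) nt 10 (by norm_num)
    linarith
  · rw [q1, p11, p7] at w2
    rw [q1] at w4
    rw [p7] at w5
    rw [q1, p10]
    refine le_trans (measure_mono ?_) (hU f z z' α α' hT.fr w1 w2 w3 w4 w5)
    exact fun X hX h => hX <| UE.mono h (mul_le_mul_of_nonneg_right hCL2 hs.le)
  · rw [p6]
    have := good_small (β := β2) nt 14 (by norm_num)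
    have := exp_pos (-β2)
    linarith

end Pool.Agent.Lib.MP_de94ef_pr.Q
end

-- part Pool.Agent.Lib.MP_de94ef_pr.Q.LevelB
section

/-!
One level of the multi-scale argument.
-/

open MeasureTheory ProbabilityTheory Set Real Function Filter Topology
open scoped ENNReal NNReal

namespace Pool.Agent.Lib.MP_de94ef_pr.Q

theorem levelB : ∃ C : ℝ, 0 ≤ C ∧ ∀ X a : ℝ, 1 ≤ X → 0 < a → ∀ K1 : ℕ, 3 ≤ K1 →
    ∃ (K3 Y M0 : ℕ) (p : ℝ), 0 < p ∧ ∀ᶠ c in FB, ∀ (f : Fd) (v : VV) (M : ℕ) (s : ℝ) (k : ℤ)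
    (t : ℝ), Top c f v M s → M0 ≤ M → |(k : ℝ)| ≤ K1 →
    a ^ 2 * c.s ^ 2 ≤ cvar t (FF f c.m K1 k 0) →
    ∃ F : Om → Finset ℕ, Flags c f v M s F ∧ (∀ ω, ∀ i ∈ F ω, Dd f c.m (geo v ω.2) i ≤ K3) ∧
      Cert (fun _ => univ) (Gam f c.m v (Rest c f v M s F)) (X / (12 * c.s)) (C * X * M) ∧
      Push c f v s t F (K3 + 3) Y p := by
  classical
  obtain ⟨C0, h0⟩ := exc
  obtain ⟨C1, hC1, h1⟩ := certBad
  obtain ⟨CT, hCT, h2⟩ := tame
  refine ⟨8 * |C0| + CT + C1 + 1, by positivity, fun X a hX ha K1 hK1 => ?_⟩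
  obtain ⟨B, hB, h1⟩ := h1 X hX
  obtain ⟨CF, hCF, h2⟩ := h2 X hX
  choose L0 h2 using h2
  obtain ⟨P, M0, hP, e1, e2, hL, h3⟩ :=
    countBad (δ := 1 / (B + 1)) (by positivity) ha hCF hK1 L0
  refine ⟨P.K3, P.Y, M0, P.p ^ 2 / 2, by have := hP.h13; positivity, ?_⟩
  filter_upwards [h0, h1, h2 P.Y P.Lt hL, h3] with c h0 h1 h2 h3 f v M s k t hT hM hk hv
  have hTp := h0 f v M s hT
  have hs := hTp.big.s_pos
  have hC0 := hTp.one
  have hM0 : (0 : ℝ) ≤ M := Nat.cast_nonneg _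
  have hXM : (M : ℝ) ≤ X * M := by nlinarith
  refine ⟨GdF c f P k t v M s, flags_GdF _ _ _ _ _ _ _ _, fun ω i hi => ?_, ?_,
    push hTp.big hT hP k t⟩
  · exact (Finset.mem_filter.1 hi).2.2.2.2.1
  have hLt : 1 ≤ P.Lt := le_trans (by unfold Pm.g; omega) hP.h10
  obtain ⟨c1, c2⟩ := certChord hTp (by rw [e2]; exact h2 f hT.fr) hLt hCT hX
  have c3 := h1 f v M s _ _ hT (flags_BadF c f P k t v M s) (h3 f v M s k t hT hM hk hv)
  have hv0 : 0 ≤ (8 * |C0| + CT + C1 + 1) * X * M := by positivity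
  have hle : (8 * C0 + CT) * X * M ≤ (8 * |C0| + CT + C1 + 1) * X * M := by
    gcongr ?_ * X * M
    linarith [le_abs_self C0]
  have hle' : C1 * X * M + B * (1 / (B + 1) * M) ≤ (8 * |C0| + CT + C1 + 1) * X * M := by
    have a1 : B * (1 / (B + 1) * M) ≤ M := by
      rw [← mul_assoc]
      refine mul_le_of_le_one_left hM0 ?_
      rw [mul_one_div, div_le_one (by linarith)]; linarith
    have a2 : 0 ≤ (8 * |C0| + CT) * (X * M) := by positivity
    nlinarith
  have key := Cert.union (κ := Fin 3) Finset.univ Finset.univ_nonempty (P := fun _ => univ)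
    (Γ := ![Gam f c.m v (ThL c f P v M s), Gam f c.m v (ThR c f P v M s),
      Gam f c.m v (BadF c f P k t v M s)])
    (Γ' := Gam f c.m v (Rest c f v M s (GdF c f P k t v M s))) (θ := X / (4 * c.s))
    (v := (8 * |C0| + CT + C1 + 1) * X * M) (by positivity)
    (fun l _ => by
      fin_cases l
      · exact c1.mono (fun _ => le_rfl) (fun _ => le_rfl) (by positivity) le_rfl hle hv0
      · exact c2.mono (fun _ => le_rfl) (fun _ => le_rfl) (by positivity) le_rfl hle hv0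
      · refine c3.mono (fun _ => le_rfl) (fun _ => le_rfl) (by positivity) ?_ hle' hv0
        exact div_le_div_of_nonneg_left (by linarith) (by positivity) (by linarith))
    (fun ω e he => by
      obtain ⟨i, hi, he⟩ := Finset.mem_biUnion.1 he
      unfold Rest at hi
      split_ifs at hi with hN
      swap
      · simp at hi
      obtain ⟨hi1, hi2⟩ := Finset.mem_sdiff.1 hi
      by_cases a1 : i ∈ ThL c f P v M s ω
      · exact ⟨0, Finset.mem_univ _, Finset.mem_biUnion.2 ⟨i, a1, he⟩⟩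
      by_cases a2 : i ∈ ThR c f P v M s ω
      · exact ⟨1, Finset.mem_univ _, Finset.mem_biUnion.2 ⟨i, a2, he⟩⟩
      refine ⟨2, Finset.mem_univ _, Finset.mem_biUnion.2 ⟨i, ?_, he⟩⟩
      exact Finset.mem_filter.2 ⟨hi1, hN, hi2, a1, a2⟩)
  convert key using 1
  simp only [Finset.card_univ, Fintype.card_fin, Nat.cast_ofNat]
  rw [div_div]; congr 1; ring

end Pool.Agent.Lib.MP_de94ef_pr.Q
end
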