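import Pool.Agent.Lib.MP_de94ef_pr.Q.Push
import Pool.Agent.Lib.MP_de94ef_pr.Q.TopL
import Pool.Agent.Lib.MP_de94ef_pr.Q.Var

/-!
Costs of the connections and conditional Laplace transforms.
-/

open MeasureTheory ProbabilityTheory Set Real Function Filter Topology
open scoped ENNReal NNReal

namespace Pool.Agent.Lib.MP_de94ef_pr.Q

lemma measurable_SN (f : Fd) (m K C : ℝ) (o q q' : VV) : Measurable (SN f m K C o q q') :=
  ((measurable_TC _ _ _ _).sub_const _).max measurable_const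

lemma SN_nonneg (f : Fd) (m K C : ℝ) (o q q' : VV) (X : Env) : 0 ≤ SN f m K C o q q' X :=
  le_max_right _ _

lemma SSum_nonneg (c : Bs) (f : Fd) (v : VV) (M : ℕ) (s K K1 C : ℝ) (X : Env) :
    0 ≤ SSum c f v M s K K1 C X := by
  refine Finset.sum_nonneg fun i _ => ?_
  split_ifs
  · exact add_nonneg (SN_nonneg _ _ _ _ _ _ _ _) (SN_nonneg _ _ _ _ _ _ _ _)
  · exact le_rfl

lemma sumA_finite (v : VV) : (range (geo v)).Finite := by
  classical
  have h : {l : List VV | l.Nodup ∧ ∀ w ∈ l, w ∈ Lam v}.Finite := by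
    refine ((Lam v).powerset.finite_toSet.biUnion
      (t := fun T : Finset VV => {l | l ∈ T.toList.permutations})
      (fun T _ => List.finite_toSet _)).subset ?_
    rintro l ⟨h1, h2⟩
    refine mem_biUnion (x := l.toFinset) ?_ ?_
    · exact Finset.mem_coe.2 (Finset.mem_powerset.2 fun w hw => h2 w (List.mem_toFinset.1 hw))
    · exact List.mem_permutations.2 (List.toFinset_toList h1).symm
  refine Set.Finite.of_finite_image (f := fun p => p.support) (h.subset ?_)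
    fun p _ q _ h => SimpleGraph.Walk.ext_support h
  rintro _ ⟨_, ⟨ω, rfl⟩, rfl⟩
  exact ⟨(geo_isPath v ω).support_nodup, geo_mem v ω⟩

lemma sumA_int {Ω : Type} [MeasurableSpace Ω] {P : Measure Ω} [IsFiniteMeasure P] (v : VV)
    (φ : Ω → Env) {F : GG.Walk 0 v → Ω → ℝ} (hm : Measurable fun ω => F (geo v (φ ω)) ω)
    (hb : ∀ p, ∃ B, ∀ ω, |F p ω| ≤ B) : Integrable (fun ω => F (geo v (φ ω)) ω) P := by
  choose B hB using hb
  obtain ⟨B0, h0⟩ := ((sumA_finite v).image B).bddAbove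
  refine Integrable.of_bound hm.aestronglyMeasurable B0 (ae_of_all _ fun ω => ?_)
  exact (hB _ ω).trans (h0 ⟨_, ⟨φ ω, rfl⟩, rfl⟩)

lemma sumA_SN_le (f : Fd) (m K C : ℝ) (o q q' : VV) (X : Env) :
    SN f m K C o q q' X ≤ |C| + |f.L (iv (q' - q))| := by
  have h1 := TC_le_cap (A := Nb f m K o) (K := max (f.L (iv (q' - q)) + C) 0) (q := q) (q' := q') X
  have h2 := le_abs_self C
  have h3 := neg_abs_le (f.L (iv (q' - q)))
  have h4 := abs_nonneg C
  have h5 := abs_nonneg (f.L (iv (q' - q)))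
  refine max_le ?_ (by linarith)
  rcases le_total (f.L (iv (q' - q)) + C) 0 with h | h
  · rw [max_eq_right h] at h1 ⊢; linarith
  · rw [max_eq_left h] at h1 ⊢; linarith

open Classical in
/-- One term of `SSum`, along a given walk. -/
noncomputable def sumA_S (c : Bs) (f : Fd) (v : VV) (s K K1 C : ℝ) (i : ℕ) (p : GG.Walk 0 v)
    (X : Env) : ℝ :=
  if Nice c.μ f.a v s X ∧ Dd f c.m p i ≤ K then
    S1 f c.m p K1 (C * c.s) i X + S2 f c.m p K1 (C * c.s) i X else 0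

lemma sumA_S_meas (c : Bs) (f : Fd) (v : VV) (s K K1 C : ℝ) (i : ℕ) (p : GG.Walk 0 v) :
    Measurable (sumA_S c f v s K K1 C i p) := by
  refine Measurable.ite ?_ ((measurable_SN _ _ _ _ _ _ _).add (measurable_SN _ _ _ _ _ _ _))
    measurable_const
  exact (measurableSet_Nice _ _ _ _).inter (MeasurableSet.const _)

lemma sumA_S_int (c : Bs) (f : Fd) (v : VV) (s K K1 C : ℝ) (i : ℕ) :
    Integrable (fun X => sumA_S c f v s K K1 C i (geo v X) X) PE := by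
  refine sumA_int v id (F := sumA_S c f v s K K1 C i) (meas_geo v (sumA_S_meas c f v s K K1 C i))
    fun p => ⟨(|C * c.s| + |f.L (iv (xs f c.m p i - os f c.m p i))|) + (|C * c.s| +
      |f.L (iv (os f c.m p i + yk f c.m (ks f c.m p i) - xs f c.m p (i + 1)))|), fun X => ?_⟩
  unfold sumA_S
  split_ifs
  · unfold S1 S2
    rw [abs_of_nonneg (add_nonneg (SN_nonneg _ _ _ _ _ _ _ _) (SN_nonneg _ _ _ _ _ _ _ _))]
    exact add_le_add (sumA_SN_le _ _ _ _ _ _ _ _) (sumA_SN_le _ _ _ _ _ _ _ _)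
  · rw [abs_zero]; positivity

lemma integrable_SSum (c : Bs) (f : Fd) (v : VV) (M : ℕ) (s K K1 C : ℝ) :
    Integrable (SSum c f v M s K K1 C) PE :=
  integrable_finsetSum (Finset.range M) fun i _ => sumA_S_int c f v s K K1 C i

lemma flags_AF (c : Bs) (f : Fd) (v : VV) (M : ℕ) (s K K1 C : ℝ) :
    Flags c f v M s (AF c f v M s K K1 C) := by
  refine ⟨fun i => ?_, fun ω i hi => ?_⟩
  · have h := measSet_geo2 v (F := fun p ω => i ∈ Finset.range M ∧ Nice c.μ f.a v s ω.2 ∧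
      Dd f c.m p i ≤ K ∧ S1 f c.m p K1 (C * c.s) i ω.2 < C * c.s ∧
        S2 f c.m p K1 (C * c.s) i ω.2 < C * c.s) fun p =>
      (MeasurableSet.const _).inter ((measurable_snd (measurableSet_Nice _ _ _ _)).inter
        ((MeasurableSet.const _).inter
          ((measurableSet_lt ((measurable_SN _ _ _ _ _ _ _).comp measurable_snd)
            measurable_const).inter
          (measurableSet_lt ((measurable_SN _ _ _ _ _ _ _).comp measurable_snd) measurable_const))))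
    simpa only [AF, Finset.mem_filter] using h
  · simp only [AF, Finset.mem_filter, Finset.mem_range] at hi
    exact ⟨hi.1, hi.2.1⟩

section geom

variable {c : Bs} {f : Fd} {ϱ : ℝ}

lemma sumA_fl (hb : c.Big 100) (hF : Fr c.μ c.κ ϱ f) (z : ℝ × ℝ) :
    |f.a (iv (fl z)) - f.a z| ≤ 2 ∧ |f.b (iv (fl z)) - f.b z| ≤ c.m / 4 := by
  refine ⟨hF.a_fl hb.tc z, le_of_mul_le_mul_left ?_ hb.κ_pos⟩
  have h1 := hF.b_fl hb.tc z
  have h2 := hb.κm
  have h3 := hb.s_ge'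
  linarith

lemma sumA_oA (hb : c.Big 100) (hF : Fr c.μ c.κ ϱ f) (i : ℕ) (k : ℤ) :
    |f.a (iv (oA f c.m i k)) - ((i : ℝ) - 1) * c.m| ≤ 2 ∧
      |f.b (iv (oA f c.m i k)) - k * c.m| ≤ c.m / 4 := by
  have h := sumA_fl hb hF (zc f c.m i k - c.m • f.u)
  have e1 : f.a (zc f c.m i k - c.m • f.u) = ((i : ℝ) - 1) * c.m := by
    rw [map_sub, map_smul, zc, hF.a_pt, hF.au, smul_eq_mul]; ring
  have e2 : f.b (zc f c.m i k - c.m • f.u) = k * c.m := by
    rw [map_sub, map_smul, zc, hF.b_pt, hF.bu, smul_eq_mul]; ring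
  rwa [e1, e2] at h

lemma sumA_yk (hb : c.Big 100) (hF : Fr c.μ c.κ ϱ f) (k : ℤ) :
    |f.a (iv (yk f c.m k)) - 4 * c.m| ≤ 2 ∧ |f.b (iv (yk f c.m k)) - k * c.m| ≤ c.m / 4 := by
  have h := sumA_fl hb hF (f.pt (4 * c.m) (k * c.m))
  rwa [hF.a_pt, hF.b_pt] at h

lemma sumA_sq (hF : Fr c.μ c.κ ϱ f) {i : ℕ} {k : ℤ} {q : VV} (hq : Sq f (zc f c.m i k) c.m q) :
    i * c.m ≤ f.a (iv q) ∧ f.a (iv q) ≤ i * c.m + c.m ∧
      k * c.m ≤ f.b (iv q) ∧ f.b (iv q) ≤ k * c.m + c.m := by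
  obtain ⟨h1, h2, h3, h4⟩ := hq
  rw [map_sub, zc, hF.a_pt] at h1 h2
  rw [map_sub, zc, hF.b_pt] at h3 h4
  exact ⟨by linarith, by linarith, by linarith, by linarith⟩

lemma sumA_L (hb : c.Big 100) (hF : Fr c.μ c.κ 1 f) {w : ℝ × ℝ} (h1 : c.m / 2 ≤ f.a w)
    (h2 : f.a w ≤ 5 * c.m) (h3 : |f.b w| ≤ 5 * c.m) : 0 ≤ f.L w := by
  have h4 := (abs_le.1 (hF.La w)).1
  have h5 := hb.m_pos
  rw [abs_of_nonneg (by linarith : 0 ≤ f.a w), one_mul] at h4
  have h6 := mul_le_mul_of_nonneg_left (by linarith : f.a w + |f.b w| ≤ 10 * c.m) hb.κ_pos.le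
  have h7 := hb.κm
  have h8 := hb.Ks
  nlinarith

end geom

/-- The tube behind a cell lies in a slab. -/
lemma inR_Nb {c : Bs} {f : Fd} {ϱ : ℝ} (hb : c.Big 100) (hF : Fr c.μ c.κ ϱ f) (K : ℝ) (i : ℕ)
    (k : ℤ) : InR f.a (((i : ℝ) - 3) * c.m) (((i : ℝ) + 5) * c.m)
      (Nb f c.m K (oA f c.m i k)).sym2 := by
  intro e he w hw
  have h1 := Finset.mem_sym2_iff.1 he w hw
  simp only [Nb, Finset.mem_filter] at h1
  obtain ⟨-, h2, h3, -⟩ := h1
  rw [iv_sub, map_sub] at h2 h3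
  have h4 := abs_le.1 (sumA_oA hb hF i k).1
  have h5 := hb.m_ge (by norm_num)
  constructor <;> linarith [h4.1, h4.2]

lemma L_yk_nonneg (K : ℝ) : ∀ᶠ c in FB, ∀ (f : Fd) (k : ℤ), Fr c.μ c.κ 1 f → |(k : ℝ)| ≤ K →
    0 ≤ f.L (iv (yk f c.m k)) := by
  filter_upwards [ev_big 100, ev_big (K + 6)] with c hb hb' f k hF hk
  obtain ⟨h1, h2⟩ := sumA_yk hb hF k
  have h3 := abs_le.1 h1
  have h5 := hb.m_ge (by norm_num)
  have h4 := (abs_le.1 (hF.La (iv (yk f c.m k)))).1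
  rw [abs_of_nonneg (by linarith [h3.1] : 0 ≤ f.a (iv (yk f c.m k))), one_mul] at h4
  have h6 : |f.b (iv (yk f c.m k))| ≤ (K + 1) * c.m := by
    have e1 := abs_add_le (f.b (iv (yk f c.m k)) - k * c.m) (k * c.m)
    rw [sub_add_cancel, abs_mul, abs_of_pos hb.m_pos] at e1
    have e2 := mul_le_mul_of_nonneg_right hk hb.m_pos.le
    linarith
  have h7 := mul_le_mul_of_nonneg_left (by linarith [h3.2] :
    f.a (iv (yk f c.m k)) + |f.b (iv (yk f c.m k))| ≤ (K + 6) * c.m) hb.κ_pos.le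
  have h8 : c.κ * ((K + 6) * c.m) = (K + 6) * c.s := by rw [← hb.κm]; ring
  have h9 := hb'.Ks
  linarith [h3.1]

/-- Local domination of the truncated connection costs. -/
lemma sumA_ldom {f : Fd} {m K K1 C B s α α' : ℝ} {o : VV} {R : VV → VV → Prop} (hs : 0 < s)
    (hB : 0 ≤ B) (hC : 0 ≤ C) (hI : InR f.a α α' (Nb f m K1 o).sym2)
    (h0 : Dom (fun ω x => ∃ q q', R q q' ∧ x = TT ω q q' - f.L (iv (q' - q))) (B * s) s)
    {E : Set Env} (hE : MeasurableSet E) (hP : PE E ≤ ENNReal.ofReal (exp (-C)))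
    (hE' : ∀ ω ∉ E, ∀ (q q' : VV) (θ : ℝ), In f m K o q → In f m K o q' →
      θ ≤ f.L (iv (q' - q)) + C * s → TT ω q q' < θ → Reach (Nb f m K1 o) q q' θ ω)
    (hR : ∀ q q', R q q' → In f m K o q ∧ In f m K o q' ∧ 0 ≤ f.L (iv (q' - q))) :
    LDom f.a α α' (fun ω z => ∃ q q', R q q' ∧ z ≤ SN f m K1 (C * s) o q q' ω.2)
      ((B + 2) * s) s := by
  have hBs : 0 ≤ B * s := by positivity
  have hCs : 0 ≤ C * s := by positivity
  have h1 := dom_max h0 hs hBs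
  have h2 : Dom (fun ω z => ω ∈ E ∧ z ≤ C * s) (B * s + s) s := by
    refine ⟨E.indicator fun _ => ENNReal.ofReal (exp C), measurable_const.indicator hE,
      fun ω z hz => ?_, ?_⟩
    · rw [indicator_of_mem hz.1]
      refine ENNReal.ofReal_le_ofReal (exp_le_exp.2 ?_)
      rw [div_le_iff₀ hs]
      linarith [hz.2]
    · rw [lintegral_indicator_const hE]
      calc _ ≤ ENNReal.ofReal (exp C) * ENNReal.ofReal (exp (-C)) := by gcongr
        _ = 1 := by rw [← ENNReal.ofReal_mul (exp_pos _).le, ← exp_add]; simp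
        _ ≤ 3 := by norm_num
  have h3 := h1.union h2 hs
    (C := fun ω z => ∃ q q', R q q' ∧ z = SN f m K1 (C * s) o q q' ω) (by
      rintro ω z ⟨q, q', hq, rfl⟩
      obtain ⟨i1, i2, i3⟩ := hR q q' hq
      have e : max (f.L (iv (q' - q)) + C * s) 0 = f.L (iv (q' - q)) + C * s :=
        max_eq_left (by linarith)
      by_cases hω : ω ∈ E
      · refine Or.inr ⟨hω, max_le ?_ hCs⟩
        have := TC_le_cap (A := Nb f m K1 o) (K := max (f.L (iv (q' - q)) + C * s) 0) (q := q)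
          (q' := q') ω
        linarith
      · left
        have := TC_le_TT (A := Nb f m K1 o) (K := max (f.L (iv (q' - q)) + C * s) 0) (q := q)
          (q' := q') (ω := ω) fun θ g1 g2 => hE' ω hω q q' θ i1 i2 (by linarith) g1
        unfold SN
        rcases le_total (TC (Nb f m K1 o) (max (f.L (iv (q' - q)) + C * s) 0) q q' ω -
          f.L (iv (q' - q))) 0 with g | g
        · exact Or.inl (max_le g le_rfl)
        · exact Or.inr ⟨_, ⟨q, q', hq, rfl⟩, by rw [max_eq_left g]; linarith⟩)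
  have h4 := ldom_of_dom (a := f.a) h3 hs (κ := {p : VV × VV // R p.1 p.2}) hI
    (φ := fun p => SN f m K1 (C * s) o p.1.1 p.1.2) (fun p => measurable_SN _ _ _ _ _ _ _)
    (fun p x y hxy => by
      unfold SN
      rw [dependsOn_TC _ _ _ _ hxy])
    (fun p ω => ⟨_, ⟨p.1.1, p.1.2, p.2, rfl⟩, le_rfl⟩)
  refine h4.mono hs le_rfl le_rfl ?_
  rintro ω z ⟨q, q', hq, hz⟩
  exact ⟨z, ⟨⟨(q, q'), hq⟩, hz⟩, by linarith⟩

lemma sumA_r1 (f : Fd) (m : ℝ) (i : ℕ) (k k' : ℤ) :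
    r1 (iv (oA f m i k + yk f m (k' - k)) - (zc f m (i + 1) k' + (2 * (1 * m)) • f.u)) ≤ 4 := by
  have h1 := r1_fl (zc f m i k - m • f.u)
  have h2 := r1_fl (f.pt (4 * m) (((k' - k : ℤ) : ℝ) * m))
  have e : iv (oA f m i k + yk f m (k' - k)) - (zc f m (i + 1) k' + (2 * (1 * m)) • f.u) =
      (iv (fl (zc f m i k - m • f.u)) - (zc f m i k - m • f.u)) +
      (iv (fl (f.pt (4 * m) (((k' - k : ℤ) : ℝ) * m))) -
        f.pt (4 * m) (((k' - k : ℤ) : ℝ) * m)) := by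
    rw [iv_add]
    simp only [oA, yk, zc, Fd.pt]
    push_cast
    module
  rw [e]
  linarith [r1_add_le (iv (fl (zc f m i k - m • f.u)) - (zc f m i k - m • f.u))
    (iv (fl (f.pt (4 * m) (((k' - k : ℤ) : ℝ) * m))) - f.pt (4 * m) (((k' - k : ℤ) : ℝ) * m))]

section inner

variable {c : Bs} {f : Fd} {K : ℝ} {i : ℕ} {k k' : ℤ}

lemma sumA_in0 (hb : c.Big 100) (hK : 0 ≤ K) (o : VV) : In f c.m (K + 3) o o := by
  have := hb.m_pos
  simp only [In, sub_self, iv_zero, map_zero, abs_zero]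
  exact ⟨by linarith, by linarith, by positivity⟩

lemma sumA_in1 (hb : c.Big 100) (hF : Fr c.μ c.κ 1 f) (hK : 0 ≤ K) {q : VV}
    (hq : Sq f (zc f c.m i k) c.m q) :
    In f c.m (K + 3) (oA f c.m i k) q ∧ 0 ≤ f.L (iv (q - oA f c.m i k)) := by
  obtain ⟨h1, h2⟩ := sumA_oA hb hF i k
  obtain ⟨q1, q2, q3, q4⟩ := sumA_sq hF hq
  rw [abs_le] at h1 h2
  have h5 := hb.m_ge (by norm_num)
  have h6 := mul_nonneg hK hb.m_pos.le
  have ea : f.a (iv (q - oA f c.m i k)) = f.a (iv q) - f.a (iv (oA f c.m i k)) := by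
    rw [iv_sub, map_sub]
  have eb : |f.b (iv (q - oA f c.m i k))| ≤ 2 * c.m := by
    rw [iv_sub, map_sub, abs_le]
    constructor <;> linarith [h2.1, h2.2]
  refine ⟨⟨?_, ?_, ?_⟩, sumA_L hb hF ?_ ?_ ?_⟩ <;> linarith [h1.1, h1.2]

lemma sumA_in2 (hb : c.Big 100) (hF : Fr c.μ c.κ 1 f) (hk : |((k' - k : ℤ) : ℝ)| ≤ K + 1)
    {q : VV} (hq : Sq f (zc f c.m (i + 1) k') c.m q) :
    In f c.m (K + 3) (oA f c.m i k) q ∧
      In f c.m (K + 3) (oA f c.m i k) (oA f c.m i k + yk f c.m (k' - k)) ∧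
      0 ≤ f.L (iv (oA f c.m i k + yk f c.m (k' - k) - q)) := by
  obtain ⟨h1, h2⟩ := sumA_oA hb hF i k
  obtain ⟨y1, y2⟩ := sumA_yk hb hF (k' - k)
  obtain ⟨q1, q2, q3, q4⟩ := sumA_sq hF hq
  have h5 := hb.m_ge (by norm_num)
  have h6 := mul_le_mul_of_nonneg_right hk hb.m_pos.le
  rw [← abs_of_pos hb.m_pos, ← abs_mul, abs_of_pos hb.m_pos] at h6
  rw [abs_le] at h1 h2 y1 y2 h6
  push_cast at q1 q2 y2 h6
  have ea : f.a (iv (q - oA f c.m i k)) = f.a (iv q) - f.a (iv (oA f c.m i k)) := by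
    rw [iv_sub, map_sub]
  have eb : |f.b (iv (q - oA f c.m i k))| ≤ (K + 3) * c.m := by
    rw [iv_sub, map_sub, abs_le]
    constructor <;> linarith [h2.1, h2.2, h6.1, h6.2]
  have ec : |f.b (iv (yk f c.m (k' - k)))| ≤ (K + 3) * c.m := by
    rw [abs_le]
    constructor <;> linarith [y2.1, y2.2, h6.1, h6.2]
  have ed : f.a (iv (oA f c.m i k + yk f c.m (k' - k) - q)) =
      f.a (iv (oA f c.m i k)) + f.a (iv (yk f c.m (k' - k))) - f.a (iv q) := by
    rw [iv_sub, iv_add, map_sub, map_add]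
  have ee : |f.b (iv (oA f c.m i k + yk f c.m (k' - k) - q))| ≤ 5 * c.m := by
    rw [iv_sub, iv_add, map_sub, map_add, abs_le]
    constructor <;> linarith [h2.1, h2.2, y2.1, y2.2]
  refine ⟨⟨?_, ?_, eb⟩, ?_, sumA_L hb hF ?_ ?_ ee⟩
  · linarith [h1.1, h1.2]
  · linarith [h1.1, h1.2]
  · unfold In
    rw [add_sub_cancel_left]
    exact ⟨by linarith [y1.1], by linarith [y1.2], ec⟩
  · linarith [h1.1, h1.2, y1.1, y1.2]
  · linarith [h1.1, h1.2, y1.1, y1.2]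

end inner

lemma sumA_sep {m : ℝ} (hm : 0 ≤ m) (i i' : ℕ) (h : i + 8 ≤ i') :
    ((i : ℝ) + 5) * m ≤ ((i' : ℝ) - 3) * m := by
  have : (i : ℝ) + 8 ≤ i' := by exact_mod_cast h
  exact mul_le_mul_of_nonneg_right (by linarith) hm

theorem sumS : ∃ C : ℝ, 0 ≤ C ∧ ∀ (K : ℕ) (C3 : ℝ), 0 ≤ C3 → ∃ K1 : ℕ, K + 3 ≤ K1 ∧ ∀ᶠ c in FB,
    ∀ (f : Fd) (v : VV) (M : ℕ) (s : ℝ), Top c f v M s →
    ∫ X, SSum c f v M s K K1 C3 X ∂PE ≤ C * M * c.s := by
  obtain ⟨C0, hC0⟩ := exc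
  obtain ⟨B, hB, hA⟩ := anch (N := 1) (X := 1) le_rfl le_rfl
  refine ⟨2 * (B + 2) + (2 + 40 * |C0|) * 2, by positivity, fun K C3 hC3 => ?_⟩
  have hK : (0 : ℝ) ≤ K := Nat.cast_nonneg K
  obtain ⟨K1, hK1, -, hT⟩ := exitTube 1 C3 (K := (K : ℝ) + 3) (η := exp (-C3)) (by linarith)
    (exp_pos _)
  refine ⟨K1, by exact_mod_cast (by linarith : (K : ℝ) + 3 ≤ K1), ?_⟩
  filter_upwards [hC0, hA, hT] with c g0 gA gT f v M s hTop
  have hp := g0 f v M s hTop
  have hb := hp.big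
  have hF := hTop.fr
  have hs := hb.s_pos
  have key := hp.sum (g := 8) (by norm_num) (fun i => ((i : ℝ) - 3) * c.m)
    (fun i => ((i : ℝ) + 5) * c.m) (sumA_sep hb.m_pos.le)
    (A := fun k i ω z => |((k (i + 1) - k i : ℤ) : ℝ)| ≤ K + 1 ∧ ∃ q q',
      Sq f (zc f c.m i (k i)) c.m q ∧ Sq f (zc f c.m (i + 1) (k (i + 1))) c.m q' ∧
      z ≤ SN f c.m K1 (C3 * c.s) (oA f c.m i (k i)) (oA f c.m i (k i)) q ω.2 +
        SN f c.m K1 (C3 * c.s) (oA f c.m i (k i)) q'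
          (oA f c.m i (k i) + yk f c.m (k (i + 1) - k i)) ω.2)
    (d := (B + 2) * c.s + (B + 2) * c.s) (s' := c.s + c.s) ?_ (by positivity) (by positivity)
    (Y := fun i ω => sumA_S c f v s K K1 C3 i (geo v ω.2) ω.2)
    (fun i _ => (sumA_S_int c f v s K K1 C3 i).comp_snd PE) ?_
  · have e : ∫ ω : Om, ∑ i ∈ Finset.range M, sumA_S c f v s K K1 C3 i (geo v ω.2) ω.2 ∂P2 =
        ∫ X, SSum c f v M s K K1 C3 X ∂PE := by
      have := integral_fun_snd (μ := PE) (ν := PE) (SSum c f v M s K K1 C3)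
      rw [probReal_univ, one_smul] at this
      exact this
    rw [e] at key
    refine key.trans ?_
    have h1 : C0 ≤ |C0| := le_abs_self _
    have h2 : (0 : ℝ) ≤ M * c.s := by positivity
    push_cast
    nlinarith
  · intro k i _
    by_cases hk : |((k (i + 1) - k i : ℤ) : ℝ)| ≤ K + 1
    swap
    · exact ldom_empty fun ω z hz => hk hz.1
    obtain ⟨E, e1, e2, e3⟩ := gT f (oA f c.m i (k i)) hF
    have a1 := (gA 1 f (zc f c.m i (k i)) (oA f c.m i (k i)) hF).1 (by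
      rw [one_mul]; exact (r1_fl _).trans (by norm_num))
    have a2 := (gA 1 f (zc f c.m (i + 1) (k (i + 1)))
      (oA f c.m i (k i) + yk f c.m (k (i + 1) - k i)) hF).2 (sumA_r1 f c.m i _ _)
    rw [one_mul, div_one] at a1 a2
    have l1 := sumA_ldom (R := fun q q' => q = oA f c.m i (k i) ∧ Sq f (zc f c.m i (k i)) c.m q')
      hs hB hC3 (inR_Nb hb hF K1 i (k i)) (a1.mono hs (by
        rintro ω x ⟨q, q', ⟨rfl, hq⟩, rfl⟩
        exact ⟨_, ⟨q', hq, rfl⟩, le_rfl⟩)) e1 e2 e3 (by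
        rintro q q' ⟨rfl, hq⟩
        exact ⟨sumA_in0 hb hK _, sumA_in1 hb hF hK hq⟩)
    have l2 := sumA_ldom (R := fun q q' => Sq f (zc f c.m (i + 1) (k (i + 1))) c.m q ∧
      q' = oA f c.m i (k i) + yk f c.m (k (i + 1) - k i))
      hs hB hC3 (inR_Nb hb hF K1 i (k i)) (a2.mono hs (by
        rintro ω x ⟨q, q', ⟨hq, rfl⟩, rfl⟩
        exact ⟨_, ⟨q, hq, rfl⟩, le_rfl⟩)) e1 e2 e3 (by
        rintro q q' ⟨hq, rfl⟩
        exact sumA_in2 hb hF hk hq)
    refine l1.add l2 hs hs ?_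
    rintro ω z ⟨-, q, q', hq, hq', hz⟩
    exact ⟨_, _, ⟨_, q, ⟨rfl, hq⟩, le_rfl⟩, ⟨q', _, ⟨hq', rfl⟩, le_rfl⟩, hz⟩
  · intro ω i hi
    unfold sumA_S
    split_ifs with h
    · refine Or.inr ⟨h.1, (abs_ks_le f hb.m_pos _ i).trans (by linarith [h.2]), _, _,
        hTop.sq_xs hb _ hi.le, hTop.sq_xs hb _ hi, le_rfl⟩
    · exact Or.inl le_rfl

/-- Exponential moments of the gain along a tube. -/
lemma sumA_mom {c : Bs} {f : Fd} (hb : c.Big 100) (hF : Fr c.μ c.κ 1 f) (K1 : ℝ) {B X : ℝ}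
    (hX : 0 < X) {k : ℤ} {o : VV}
    (h : Dom (fun ω z => z = c.μ (iv (o + yk f c.m k - o)) - TT ω o (o + yk f c.m k)) (B * c.s)
      (c.s / X)) :
    ∫⁻ x, ENNReal.ofReal (exp (X * (f.L (iv (yk f c.m k)) - FF f c.m K1 k o x) / c.s)) ∂PE ≤
      ENNReal.ofReal (1 + 3 * exp (X * (B + 9))) := by
  obtain ⟨W, h1, h2, h3⟩ := h
  rw [add_sub_cancel_left] at h2
  have hs := hb.s_pos
  have hL : f.L (iv (yk f c.m k)) ≤ c.μ (iv (yk f c.m k)) + 9 * c.s := by
    have g1 := hF.low' (iv (yk f c.m k))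
    have g2 := abs_le.1 (sumA_yk hb hF k).1
    have g3 := hb.m_ge (by norm_num)
    rw [abs_of_nonneg (by linarith [g2.1] : 0 ≤ f.a (iv (yk f c.m k)))] at g1
    have g4 := mul_le_mul_of_nonneg_left (by linarith [g2.2] :
      f.a (iv (yk f c.m k)) ≤ 4 * c.m + 2) hb.κ_pos.le
    have g5 := mul_nonneg hb.κ_pos.le (abs_nonneg (f.b (iv (yk f c.m k))))
    have g6 := hb.κm
    have g7 := hF.κhalf
    have g8 := hb.s_ge'
    nlinarith
  calc _ ≤ ∫⁻ x, (1 + ENNReal.ofReal (exp (X * (B + 9))) * W x) ∂PE := by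
        refine lintegral_mono fun x => ?_
        have g1 := min_le_TC (A := Nb f c.m K1 o) (K := f.L (iv (yk f c.m k))) (q := o)
          (q' := o + yk f c.m k) x
        change _ ≤ FF f c.m K1 k o x at g1
        rcases le_total (TT x o (o + yk f c.m k)) (f.L (iv (yk f c.m k))) with g | g
        · rw [min_eq_left g] at g1
          refine le_trans ?_ (le_add_left (mul_le_mul_right (h2 x _ rfl) _))
          rw [← ENNReal.ofReal_mul (exp_pos _).le, ← exp_add]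
          refine ENNReal.ofReal_le_ofReal (exp_le_exp.2 ?_)
          have e : X * (B + 9) + (c.μ (iv (yk f c.m k)) - TT x o (o + yk f c.m k) - B * c.s) /
              (c.s / X) =
              X * (c.μ (iv (yk f c.m k)) + 9 * c.s - TT x o (o + yk f c.m k)) / c.s := by
            field_simp; ring
          rw [e]
          gcongr
        · rw [min_eq_right g] at g1
          refine le_trans ?_ le_self_add
          rw [← ENNReal.ofReal_one]
          refine ENNReal.ofReal_le_ofReal (exp_le_one_iff.2 ?_)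
          exact div_nonpos_of_nonpos_of_nonneg
            (mul_nonpos_of_nonneg_of_nonpos hX.le (by linarith)) hs.le
    _ = 1 + ENNReal.ofReal (exp (X * (B + 9))) * ∫⁻ x, W x ∂PE := by
        rw [lintegral_add_left measurable_const, lintegral_const_mul _ h1]; simp
    _ ≤ 1 + ENNReal.ofReal (exp (X * (B + 9))) * 3 := by gcongr
    _ = _ := by
        rw [ENNReal.ofReal_add zero_le_one (by positivity), ENNReal.ofReal_mul (by norm_num),
          mul_comm]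
        simp

lemma sumA_ldom_psi {a : ℝ × ℝ →ₗ[ℝ] ℝ} {α α' : ℝ} {E : Finset EE} (hI : InR a α α' E)
    {T : Env → ℝ} (hT : Measurable T) (hd : DependsOn T (E : Set EE)) {t θ c0 X G : ℝ}
    (hX : 0 < X) (hG : 0 < G)
    (h : ∫⁻ ω, ENNReal.ofReal (exp (psi t θ c0 T ω / X)) ∂P2 ≤ ENNReal.ofReal G) :
    LDom a α α' (fun ω z => z ≤ psi t θ c0 T ω) (X * log G) X := by
  have hm : Measurable fun ω => ENNReal.ofReal (exp (psi t θ c0 T ω / X)) :=
    ((measurable_psi hT t θ c0).div_const X).exp.ennreal_ofReal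
  refine ⟨fun ω => ENNReal.ofReal G⁻¹ * ENNReal.ofReal (exp (psi t θ c0 T ω / X)),
    hm.const_mul _, ⟨E, hI, fun ω ω' hω => by simp only [psi_locOn hd t θ c0 ω ω' hω]⟩,
    fun ω z hz => ?_, ?_⟩
  · beta_reduce at hz ⊢
    rw [← ENNReal.ofReal_mul (by positivity)]
    refine ENNReal.ofReal_le_ofReal ?_
    have e : (z - X * log G) / X = -log G + z / X := by field_simp; ring
    rw [e, exp_add, exp_neg, exp_log hG]
    gcongr
  · rw [lintegral_const_mul _ hm]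
    calc _ ≤ ENNReal.ofReal G⁻¹ * ENNReal.ofReal G := by gcongr
      _ = 1 := by rw [← ENNReal.ofReal_mul (by positivity), inv_mul_cancel₀ hG.ne']; simp
      _ ≤ 3 := by norm_num

/-- Steps of a straight path are short. -/
lemma sumA_n1 {c : Bs} {f : Fd} {v : VV} {M : ℕ} {s : ℝ} (hT : Top c f v M s) (hb : c.Big 100)
    {p : GG.Walk 0 v} (hp : Straight c.μ f.a s p) {i : ℕ} (hi : i < M) :
    n1 (yk f c.m (cs f c.m p (i + 1) - cs f c.m p i)) ≤ 200 * c.m := by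
  have hF := hT.fr
  have h1 := (hT.diam hb hp (Nat.lt_succ_self i) hi le_rfl
    (tk_mono f hb.m_pos.le p (Nat.le_succ i)) le_rfl).1
  change c.μ (iv (xs f c.m p (i + 1) - xs f c.m p i)) ≤ _ at h1
  obtain ⟨a1, a2⟩ := hT.a_xs hb p hi.le
  obtain ⟨a3, a4⟩ := hT.a_xs hb p (i := i + 1) hi
  obtain ⟨b1, b2⟩ := b_xs f hb.m_pos p i
  obtain ⟨b3, b4⟩ := b_xs f hb.m_pos p (i + 1)
  have hm := hb.m_ge (by norm_num)
  set z := f.pt (4 * c.m) (((cs f c.m p (i + 1) - cs f c.m p i : ℤ) : ℝ) * c.m) with hz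
  set w := iv (xs f c.m p (i + 1) - xs f c.m p i) with hw
  have h2 := hF.le hb.tc (z - w)
  have h3 : |f.a (z - w)| ≤ 4 * c.m := by
    rw [map_sub, hz, hF.a_pt, hw, iv_sub, map_sub, abs_le]
    push_cast at a3 a4
    constructor <;> linarith
  have h4 : |f.b (z - w)| ≤ c.m := by
    rw [map_sub, hz, hF.b_pt, hw, iv_sub, map_sub, abs_le]
    push_cast
    constructor <;> linarith
  have h5 := hb.tc.add (z - w) w
  rw [sub_add_cancel] at h5
  have h6 := hb.tc.ge z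
  have h7 := r1_fl z
  have h8 := r1_add_le (iv (fl z) - z) z
  rw [sub_add_cancel, r1_iv] at h8
  push_cast at h1
  change n1 (fl z) ≤ _
  linarith

open Classical in
/-- One term of `PSum`, along a given walk. -/
noncomputable def sumA_P (c : Bs) (f : Fd) (v : VV) (s K K1 t θ : ℝ) (i : ℕ) (p : GG.Walk 0 v)
    (ω : Om) : ℝ :=
  if Nice c.μ f.a v s ω.2 ∧ Dd f c.m p i ≤ K then
    psi t θ (f.L (iv (yk f c.m (ks f c.m p i)))) (FF f c.m K1 (ks f c.m p i) (os f c.m p i)) ω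
  else 0

theorem sumPsi : ∃ C : ℝ, 0 ≤ C ∧ ∀ X : ℝ, 2 ≤ X → ∃ a : ℝ, 0 < a ∧ ∀ K K1 : ℕ, ∀ᶠ c in FB,
    ∀ (f : Fd) (v : VV) (M : ℕ) (s t : ℝ), Top c f v M s →
    (∀ k : ℤ, |(k : ℝ)| ≤ K + 1 → cvar t (FF f c.m K1 k 0) ≤ a ^ 2 * c.s ^ 2) →
    (∀ ω, 0 ≤ PSum c f v M s K K1 t (X / c.s) ω) ∧
    Integrable (PSum c f v M s K K1 t (X / c.s)) P2 ∧
    ∫ ω, PSum c f v M s K K1 t (X / c.s) ω ∂P2 ≤ C * X * M := by
  obtain ⟨C0, hC0⟩ := exc
  obtain ⟨B2, -, hB2⟩ := est_ev 200 (X := 2) (by norm_num)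
  have hG : 1 ≤ 2 + (1 + 3 * exp (2 * (B2 + 9))) := by linarith [exp_pos (2 * (B2 + 9))]
  have hlog := log_nonneg hG
  refine ⟨log (2 + (1 + 3 * exp (2 * (B2 + 9)))) + (2 + 40 * |C0|), by positivity,
    fun X hX => ?_⟩
  have hX0 : 0 < X := by linarith
  obtain ⟨B, -, hB⟩ := est_ev 200 (X := 3 * X) (by linarith)
  obtain ⟨ε, hε, hpsi⟩ := psi_small (1 + 3 * exp (3 * X * (B + 9)))
  refine ⟨√ε / X, by positivity, fun K K1 => ?_⟩
  filter_upwards [hC0, hB2, hB, L_yk_nonneg ((K : ℝ) + 1)] with c g0 g2 g3 gL f v M s t hTop hv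
  have hp := g0 f v M s hTop
  have hb := hp.big
  have hF := hTop.fr
  have hs := hb.s_pos
  have hθ : 0 ≤ X / c.s := by positivity
  have hks : ∀ (p : GG.Walk 0 v) (i : ℕ), Dd f c.m p i ≤ K → |((ks f c.m p i : ℤ) : ℝ)| ≤ K + 1 :=
    fun p i h => (abs_ks_le f hb.m_pos p i).trans (by linarith)
  have hbd : ∀ (k : ℤ) (o : VV) (ω : Om), |(k : ℝ)| ≤ K + 1 →
      0 ≤ psi t (X / c.s) (f.L (iv (yk f c.m k))) (FF f c.m K1 k o) ω ∧
      psi t (X / c.s) (f.L (iv (yk f c.m k))) (FF f c.m K1 k o) ω ≤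
        X / c.s * f.L (iv (yk f c.m k)) := fun k o ω hk => by
    obtain ⟨γ, hγ⟩ := sg_TC (Nb f c.m K1 o) (gL f k hF hk) o (o + yk f c.m k)
    exact psi_bound hγ (fun x => TC_le_cap x) hθ t ω
  have hint : ∀ i, Integrable (fun ω : Om => sumA_P c f v s K K1 t (X / c.s) i (geo v ω.2) ω) P2 :=
    fun i => by
    refine sumA_int v Prod.snd (F := sumA_P c f v s K K1 t (X / c.s) i)
      (meas_geo2 v fun p => Measurable.ite
        ((measurable_snd (measurableSet_Nice _ _ _ _)).inter (MeasurableSet.const _))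
        (measurable_psi (measurable_TC _ _ _ _) _ _ _) measurable_const)
      fun p => ⟨|X / c.s * f.L (iv (yk f c.m (ks f c.m p i)))|, fun ω => ?_⟩
    unfold sumA_P
    split_ifs with h
    · obtain ⟨h1, h2⟩ := hbd _ (os f c.m p i) ω (hks p i h.2)
      rw [abs_of_nonneg h1]
      exact h2.trans (le_abs_self _)
    · rw [abs_zero]; exact abs_nonneg _
  refine ⟨fun ω => Finset.sum_nonneg fun i _ => ?_,
    integrable_finsetSum (Finset.range M) fun i _ => hint i, ?_⟩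
  · split_ifs with h
    · exact (hbd _ _ ω (hks _ i h.2)).1
    · exact le_rfl
  have key := hp.sum (g := 8) (by norm_num) (fun i => ((i : ℝ) - 3) * c.m)
    (fun i => ((i : ℝ) + 5) * c.m) (sumA_sep hb.m_pos.le)
    (A := fun k i ω z => (|((k (i + 1) - k i : ℤ) : ℝ)| ≤ K + 1 ∧
      n1 (yk f c.m (k (i + 1) - k i)) ≤ 200 * c.m) ∧
      z ≤ psi t (X / c.s) (f.L (iv (yk f c.m (k (i + 1) - k i))))
        (FF f c.m K1 (k (i + 1) - k i) (oA f c.m i (k i))) ω)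
    (d := X * log (2 + (1 + 3 * exp (2 * (B2 + 9))))) (s' := X) ?_ (by positivity) hX0
    (Y := fun i ω => sumA_P c f v s K K1 t (X / c.s) i (geo v ω.2) ω) (fun i _ => hint i) ?_
  · refine le_trans key ?_
    have h1 : C0 ≤ |C0| := le_abs_self _
    have h2 : (0 : ℝ) ≤ X * M := by positivity
    push_cast
    nlinarith
  · intro k i _
    by_cases hk : |((k (i + 1) - k i : ℤ) : ℝ)| ≤ K + 1 ∧
      n1 (yk f c.m (k (i + 1) - k i)) ≤ 200 * c.m
    swap
    · exact ldom_empty fun ω z hz => hk hz.1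
    set j := k (i + 1) - k i
    set o := oA f c.m i (k i)
    have hn : n1 (o + yk f c.m j - o) ≤ 200 * c.m := by rw [add_sub_cancel_left]; exact hk.2
    obtain ⟨γ, hγ⟩ := sg_TC (Nb f c.m K1 o) (gL f j hF hk.1) o (o + yk f c.m j)
    obtain ⟨γ0, hγ0⟩ := sg_TC (Nb f c.m K1 0) (gL f j hF hk.1) 0 (0 + yk f c.m j)
    have hc : cvar t (FF f c.m K1 j o) ≤ (√ε / X) ^ 2 * c.s ^ 2 := by
      rw [show FF f c.m K1 j o = fun x => FF f c.m K1 j 0 (tau o x) from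
        funext (FF_tau f c.m K1 j o)]
      exact (cvar_tau hγ0 t o).le.trans (hv j hk.1)
    have hc' : X ^ 2 * cvar t (FF f c.m K1 j o) ≤ ε * c.s ^ 2 := by
      rw [div_pow, sq_sqrt hε.le] at hc
      calc _ ≤ X ^ 2 * (ε / X ^ 2 * c.s ^ 2) := by gcongr
        _ = _ := by field_simp
    have m2 := sumA_mom hb hF K1 two_pos (g2 o _ hn).2
    have m3 := sumA_mom hb hF K1 (by linarith) (g3 o _ hn).2
    have m4 := hpsi (FF f c.m K1 j o) γ _ _ t X c.s hγ (fun x => TC_le_cap x) hX hs hc' m3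
    have l := sumA_ldom_psi (inR_Nb hb hF K1 i (k i)) (T := FF f c.m K1 j o)
      (measurable_TC _ _ _ _) (dependsOn_TC _ _ _ _) hX0 (by linarith)
      (G := 2 + (1 + 3 * exp (2 * (B2 + 9)))) (m4.trans (by
        rw [ENNReal.ofReal_add zero_le_two (by positivity), ENNReal.ofReal_ofNat]
        gcongr))
    exact l.mono hX0 le_rfl le_rfl fun ω z hz => ⟨z, hz.2, le_rfl⟩
  · intro ω i hi
    unfold sumA_P
    split_ifs with h
    · exact Or.inr ⟨h.1, ⟨hks _ i h.2, sumA_n1 hTop hb h.1.2 hi⟩, le_rfl⟩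
    · exact Or.inl le_rfl

end Pool.Agent.Lib.MP_de94ef_pr.Q
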