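import Pool.Agent.Lib.MP_de94ef_pr.Q.Light
import Pool.Agent.Lib.MP_de94ef_pr.Q.LevelB
import Pool.Agent.Lib.MP_de94ef_pr.Q.Comb
import Pool.Agent.Lib.MP_de94ef_pr.Q.TopL
import Pool.Agent.Lib.MP_de94ef_pr.Q.SumA

-- part Pool.Agent.Lib.MP_de94ef_pr.Q.PartB
section

/-!
Large conditional variances at many levels give a small variance of the conditional mean.
-/

open MeasureTheory ProbabilityTheory Set Real Function Filter Topology
open scoped ENNReal NNReal

namespace Pool.Agent.Lib.MP_de94ef_pr.Q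

open Classical in
/-- Atypical blocks of the lowest level. -/
noncomputable def Bad0 (J : ℕ) (c : Bs) (f : Fd) (v : VV) (M : ℕ) (s t : ℝ) (K0 : ℕ) (ω : Om) :
    Finset ℕ :=
  (Finset.range M).filter fun i => Nice c.μ f.a v s ω.2 ∧ ((K0 : ℝ) ≤ Dd f c.m (geo v ω.2) i ∨
    ENNReal.ofReal (1 / J) ≤ PE {z | ¬ Nice c.μ f.a v s (mix (SS t ω.1) ω.2 z)})

lemma flags_Bad0 (J : ℕ) (c : Bs) (f : Fd) (v : VV) (M : ℕ) (s t : ℝ) (K0 : ℕ) :
    Flags c f v M s (Bad0 J c f v M s t K0) := by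
  classical
  refine ⟨fun i => ?_, fun ω i hi => ?_⟩
  · simp only [Bad0, Finset.mem_filter]
    exact (MeasurableSet.const _).inter ((measurable_snd (measurableSet_Nice _ _ _ _)).inter
      ((measSet_geo2 v (F := fun p _ => (K0 : ℝ) ≤ Dd f c.m p i)
        fun _ => MeasurableSet.const _).union (measurableSet_le measurable_const
          (measurable_cond (measurableSet_Nice c.μ f.a v s).compl t))))
  · exact ⟨Finset.mem_range.1 (Finset.mem_filter.1 hi).1, (Finset.mem_filter.1 hi).2.1⟩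

lemma count_Bad0 {J : ℕ} {c : Bs} {f : Fd} {v : VV} {M : ℕ} {s C η : ℝ} (t : ℝ) {K0 : ℕ}
    (h : Tp c f v M s C) (hK : 1 ≤ K0) (hJ : 1 ≤ J) (hη : 0 ≤ η) (hR : Rare c.μ f.a v s η) :
    ∫ ω, ((Bad0 J c f v M s t K0 ω).card : ℝ) ∂P2 ≤ (C / K0 + J * η) * M := by
  classical
  have hJ' : (0 : ℝ) < J := by exact_mod_cast hJ
  set D : Om → Finset ℕ := fun ω => (Finset.range M).filter fun i =>
    Nice c.μ f.a v s ω.2 ∧ (K0 : ℝ) ≤ Dd f c.m (geo v ω.2) i with hD
  have fD : Flags c f v M s D := by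
    refine ⟨fun i => ?_, fun ω i hi => ?_⟩
    · simp only [hD, Finset.mem_filter]
      exact (MeasurableSet.const _).inter ((measurable_snd (measurableSet_Nice _ _ _ _)).inter
        (measSet_geo2 v (F := fun p _ => (K0 : ℝ) ≤ Dd f c.m p i) fun _ => MeasurableSet.const _))
    · exact ⟨Finset.mem_range.1 (Finset.mem_filter.1 hi).1, (Finset.mem_filter.1 hi).2.1⟩
  have h1 := h.count_D (K := K0) (by exact_mod_cast hK) fD
    fun ω i hi => (Finset.mem_filter.1 hi).2.2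
  set G : Set Om := {ω | ENNReal.ofReal (1 / J) ≤
    PE {z | mix (SS t ω.1) ω.2 z ∈ {X | Nice c.μ f.a v s X}ᶜ}} with hG
  have mG : MeasurableSet G := measurableSet_le measurable_const
    (measurable_cond (measurableSet_Nice c.μ f.a v s).compl t)
  have h2 : P2.real G ≤ J * η := by
    have a1 := ENNReal.toReal_mono (by finiteness)
      ((prob_cond (measurableSet_Nice c.μ f.a v s).compl t (ENNReal.ofReal (1 / J))).trans
        (hR.le hη))
    rw [ENNReal.toReal_mul, ENNReal.toReal_ofReal (by positivity), ENNReal.toReal_ofReal hη,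
      one_div_mul_eq_div, div_le_iff₀ hJ', mul_comm] at a1
    exact a1
  have iG : Integrable (fun ω => (M : ℝ) * G.indicator (1 : Om → ℝ) ω) P2 :=
    ((integrable_const 1).indicator mG).const_mul _
  calc _ ≤ ∫ ω, (((D ω).card : ℝ) + M * G.indicator 1 ω) ∂P2 := by
        refine integral_mono (flags_Bad0 ..).integrable_card (fD.integrable_card.add iG)
          fun ω => ?_
        by_cases hω : ω ∈ G
        · have : ((Bad0 J c f v M s t K0 ω).card : ℝ) ≤ M := by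
            exact_mod_cast (Finset.card_filter_le _ _).trans (Finset.card_range M).le
          simp only [indicator_of_mem hω, Pi.one_apply, mul_one]
          linarith [Nat.cast_nonneg (α := ℝ) (D ω).card]
        · simp only [indicator_of_notMem hω, mul_zero, add_zero, Nat.cast_le]
          refine Finset.card_le_card fun i hi => ?_
          obtain ⟨a1, a2, a3⟩ := Finset.mem_filter.1 hi
          exact Finset.mem_filter.2 ⟨a1, a2, a3.resolve_right hω⟩
    _ ≤ _ := by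
        rw [integral_add fD.integrable_card iG, integral_const_mul, integral_indicator_one mG]
        nlinarith [mul_le_mul_of_nonneg_left h2 (Nat.cast_nonneg (α := ℝ) M)]

theorem partB {ε a : ℝ} (hε : 0 < ε) (ha : 0 < a) {K1 : ℕ} (hK1 : 3 ≤ K1) :
    ∃ (ρ J M0 : ℕ) (η K : ℝ), 1 ≤ ρ ∧ 1 ≤ J ∧ 0 < η ∧ ∀ (c : ℕ → Bs) (f : ℕ → Fd) (M : ℕ → ℕ)
    (τ : ℝ × ℝ) (l : ℕ → ℝ) (v : VV) (s V t : ℝ), Lv J ρ c f M τ l v s V →
    (∀ j < J, (c j).Big K) → (∀ j < J, M0 ≤ M j) →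
    (∀ j < J, ∃ k : ℤ, |(k : ℝ)| ≤ K1 ∧ a ^ 2 * (c j).s ^ 2 ≤ cvar t (FF (f j) (c j).m K1 k 0)) →
    Rare (c 0).μ (f 0).a v s η → rvar t (TB v) ≤ ε * V := by
  classical
  obtain ⟨C0, h0⟩ := exc
  obtain ⟨C1, hC1, h1⟩ := certBad
  obtain ⟨C2, hC2, h2⟩ := certLight
  obtain ⟨C3, hC3, h3⟩ := levelB
  obtain ⟨X, hX⟩ : ∃ X, X = 1 + 3 * (9216 * (C3 + 1) + 128 * (C1 + 2)) / ε := ⟨_, rfl⟩
  have hX1 : 1 ≤ X := by rw [hX]; exact le_add_of_nonneg_right (by positivity)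
  have hX2 : 9216 * (C3 + 1) + 128 * (C1 + 2) ≤ ε / 3 * X := by
    rw [hX]; field_simp; linarith
  clear hX
  obtain ⟨B, hB, h1⟩ := h1 X hX1
  obtain ⟨K3, Y, M0, p, hp, h3⟩ := h3 X a hX1 ha K1 hK1
  obtain ⟨K0, hK0⟩ := exists_nat_gt (2 * |C0| * (B + 1))
  have hK0' : (0 : ℝ) < K0 := lt_of_le_of_lt (by positivity) hK0
  obtain ⟨μ0, hμ0⟩ : ∃ μ0 : ℝ, μ0 = 2 * (2 * K0 + 3) := ⟨_, rfl⟩
  have μ1 : 1 ≤ μ0 := by rw [hμ0]; linarith
  obtain ⟨J, hJ⟩ := exists_nat_gt (48 * (2 * K3 + 5) * μ0 * (16 * (C2 + 1) + 4) / (p * ε))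
  have hJ' : (0 : ℝ) < J := lt_of_le_of_lt (by positivity) hJ
  have hJ0 : 0 < J := by exact_mod_cast hJ'
  obtain ⟨q, hq⟩ : ∃ q : ℝ, q = 4 * (2 * K3 + 5) / (p * J) := ⟨_, rfl⟩
  have q0 : 0 < q := by rw [hq]; positivity
  have q1 : 4 * q * μ0 * (16 * (C2 + 1) + 4) ≤ ε / 3 := by
    rw [div_lt_iff₀ (by positivity)] at hJ
    rw [hq]; field_simp; linarith
  obtain ⟨ρ, hρ⟩ := exists_nat_gt (8 * ((Y : ℝ) + K3 + 2) ^ 2)
  have hρ0 : 0 < ρ := by
    have : (0 : ℝ) < ρ := lt_of_le_of_lt (by positivity) hρ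
    exact_mod_cast this
  obtain ⟨K, hK⟩ := ev_iff.1 (h0.and (h1.and (h2.and (h3.and
    (ev_big (X + 1 / (8 * q * μ0) + 288 / ε))))))
  refine ⟨ρ, J, M0, min (1 / 800) (1 / (2 * J * (B + 1))), K, hρ0, hJ0, by positivity,
    fun c f M τ l v s V t hL hb hM hk hR => ?_⟩
  have hTp : ∀ j < J, Tp (c j) (f j) v (M j) s C0 := fun j hj =>
    (hK _ (hb j hj)).1 _ _ _ _ (hL.top j hj)
  have hb' : ∀ j < J, (c j).Big 100 := fun j hj => (hTp j hj).big
  have hs : ∀ j < J, X + 1 / (8 * q * μ0) + 288 / ε ≤ (c j).s := fun j hj =>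
    (hK _ (hb j hj)).2.2.2.2.s_ge'
  have hF : ∀ j, ∃ F : Om → Finset ℕ, j < J → Flags (c j) (f j) v (M j) s F ∧
      (∀ ω, ∀ i ∈ F ω, Dd (f j) (c j).m (geo v ω.2) i ≤ K3) ∧
      Cert (fun _ => univ) (Gam (f j) (c j).m v (Rest (c j) (f j) v (M j) s F))
        (X / (12 * (c j).s)) (C3 * X * M j) ∧ Push (c j) (f j) v s t F (K3 + 3) Y p := by
    intro j
    by_cases hj : j < J
    · obtain ⟨k, k1, k2⟩ := hk j hj
      obtain ⟨F, hF⟩ := (hK _ (hb j hj)).2.2.2.1 _ _ _ _ k t (hL.top j hj) (hM j hj) k1 k2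
      exact ⟨F, fun _ => hF⟩
    · exact ⟨fun _ => ∅, fun h => absurd h hj⟩
  choose F hF using hF
  have hR1 := hR.mono (min_le_left _ _)
  have T0 := hL.top 0 hJ0
  have s0 := (hb' 0 hJ0).s_pos
  have hM1 : ∀ j < J, (1 : ℝ) ≤ M j := fun j hj => by exact_mod_cast (hL.top j hj).hM
  have fL := flags_Light (J := J) (ρ := ρ) (c 0) (f 0) v (M 0) s t K0 (F := F)
    fun j hj => (hF j hj).1.1
  have cB := (hK _ (hb 0 hJ0)).2.1 _ _ _ _ _ _ T0 (flags_Bad0 J (c 0) (f 0) v (M 0) s t K0)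
    (count_Bad0 t (hTp 0 hJ0) (by exact_mod_cast hK0') hJ0 (by positivity)
      (hR.mono (min_le_right _ _)))
  have cB' : Cert (fun _ => univ) (Gam (f 0) (c 0).m v (Bad0 J (c 0) (f 0) v (M 0) s t K0))
      (X / (2 * (c 0).s)) ((C1 + 1) * X * M 0) := by
    refine cB.mono (fun _ => le_rfl) (fun _ => le_rfl) (by positivity) le_rfl ?_ (by positivity)
    have a1 : C0 / K0 ≤ 1 / (2 * (B + 1)) := by
      rw [div_le_div_iff₀ hK0' (by positivity)]
      nlinarith [le_abs_self C0]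
    have a2 : J * (1 / (2 * J * (B + 1))) = 1 / (2 * (B + 1)) := by field_simp
    have a3 : B * (1 / (2 * (B + 1)) + 1 / (2 * (B + 1))) ≤ 1 := by field_simp; linarith
    have a4 : B * (C0 / K0 + J * (1 / (2 * J * (B + 1)))) ≤ 1 := by
      rw [a2]; exact le_trans (by gcongr) a3
    have a5 := hM1 0 hJ0
    nlinarith [mul_le_mul_of_nonneg_right a4 (show (0 : ℝ) ≤ M 0 by linarith)]
  have p1 : 0 < 1 / (8 * q * μ0) := by positivity
  have p2 : 0 < 288 / ε := by positivity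
  have key := combB (sg_TB v) t (κ := ℕ ⊕ Bool) ((Finset.range J).disjSum Finset.univ)
    (Sum.elim (fun j => Gam (f j) (c j).m v (Rest (c j) (f j) v (M j) s (F j)))
      fun b => if b then Gam (f 0) (c 0).m v (Bad0 J (c 0) (f 0) v (M 0) s t K0)
        else Odd (c 0).μ (f 0).a v s)
    (Sum.elim (fun _ => 2 / J) fun _ => 1)
    (Sum.elim (fun j => X / (12 * (c j).s)) fun b => if b then X / (2 * (c 0).s) else 1)
    (Sum.elim (fun j => C3 * X * M j) fun b => if b then (C1 + 1) * X * M 0 else 2)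
    (Ω := 4) (by norm_num)
    (by rintro (j | b) _ <;> simp only [Sum.elim_inl, Sum.elim_inr] <;> positivity)
    (by
      rw [Finset.sum_disjSum]
      simp only [Sum.elim_inl, Sum.elim_inr, Finset.sum_const, Finset.card_range, nsmul_eq_mul,
        Finset.card_univ, Fintype.card_bool]
      field_simp; norm_num)
    (by
      rintro (j | b) hj
      · have hj : j < J := by simpa using hj
        have := (hb' j hj).s_pos
        refine ⟨by simp only [Sum.elim_inl]; positivity, ?_⟩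
        simp only [Sum.elim_inl]
        rw [div_le_one (by positivity)]; linarith [hs j hj]
      · cases b
        · simp
        · refine ⟨by simp only [Sum.elim_inr, if_true]; positivity, ?_⟩
          simp only [Sum.elim_inr, if_true]
          rw [div_le_one (by positivity)]; linarith [hs 0 hJ0])
    (by
      rintro (j | b) _
      · simp only [Sum.elim_inl]; positivity
      · cases b <;> simp only [Sum.elim_inr, if_true, Bool.false_eq_true, if_false] <;> positivity)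
    (by
      rintro (j | b) hj e
      · exact (hF j (by simpa using hj)).1.rest.meas_Gam e
      · cases b
        · exact meas_Odd _ _ _ _ e
        · exact (flags_Bad0 ..).meas_Gam e)
    (by
      rintro (j | b) _ ω
      · exact Gam_subset _ _ _ _ _
      · cases b
        · exact Odd_subset _ _ _ _ _
        · exact Gam_subset _ _ _ _ _)
    (by
      rintro (j | b) hj
      · exact (hF j (by simpa using hj)).2.2.1
      · cases b
        · exact cert_odd hR1 _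
        · exact cB')
    (fun r => Gam (f 0) (c 0).m v fun ω =>
      (Light J ρ (c 0) (f 0) v (M 0) s t K0 F ω).filter (· % 2 = r))
    (θ0 := 1 / (c 0).s) (v0 := C2 * M 0) (q := q) (μ0 := μ0) (N := M 0)
    (l0 := 1 / (c 0).s / (16 * q * μ0)) (by positivity) (by positivity) q0.le μ1 (by positivity)
    (by positivity)
    (by
      have := hs 0 hJ0
      have a1 : 1 / (8 * q * μ0) ≤ (c 0).s := by linarith
      rw [div_le_iff₀ (by positivity)] at a1
      rw [div_div, div_le_div_iff₀ (by positivity) (by norm_num)]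
      linarith)
    (le_of_eq (by field_simp))
    (fun r _ e => (fL.filter _).meas_Gam e) (fun r _ ω => Gam_subset _ _ _ _ _)
    (fun r _ => by
      rw [hμ0, hq]
      exact (hK _ (hb 0 hJ0)).2.2.1 _ _ _ _ _ K0 t _ r T0 fL
        (fun ω i hi => (Finset.mem_filter.1 hi).2.2.1)
        (lightProb hL hJ0 hb' hp hρ (fun j hj => (hF j hj).1.1) (fun j hj => (hF j hj).2.1)
          fun j hj => (hF j hj).2.2.2))
    (by
      intro ω e he
      rw [Finset.sum_disjSum, Fintype.sum_bool]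
      simp only [Sum.elim_inl, Sum.elim_inr, if_true, Bool.false_eq_true, if_false]
      have n1 : 0 ≤ ∑ j ∈ Finset.range J, if e ∈ Gam (f j) (c j).m v
          (Rest (c j) (f j) v (M j) s (F j)) ω then (2 / J : ℝ) else 0 :=
        Finset.sum_nonneg fun _ _ => by positivity
      by_cases hN : Nice (c 0).μ (f 0).a v s ω.2
      swap
      · refine Or.inr (Or.inr ?_)
        rw [if_pos (show e ∈ Odd (c 0).μ (f 0).a v s ω by rwa [Odd, if_neg hN])]
        split_ifs <;> linarith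
      obtain ⟨i, hi, hei⟩ := T0.exists_Eb (hb' 0 hJ0) he
      by_cases a1 : i ∈ Bad0 J (c 0) (f 0) v (M 0) s t K0 ω
      · refine Or.inr (Or.inr ?_)
        rw [if_pos (show e ∈ Gam (f 0) (c 0).m v (Bad0 J (c 0) (f 0) v (M 0) s t K0) ω from
          Finset.mem_biUnion.2 ⟨i, a1, hei⟩)]
        split_ifs <;> linarith
      by_cases a2 : i ∈ Light J ρ (c 0) (f 0) v (M 0) s t K0 F ω
      · rcases Nat.mod_two_eq_zero_or_one i with a3 | a3
        · exact Or.inl (Finset.mem_biUnion.2 ⟨i, Finset.mem_filter.2 ⟨a2, a3⟩, hei⟩)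
        · exact Or.inr (Or.inl (Finset.mem_biUnion.2 ⟨i, Finset.mem_filter.2 ⟨a2, a3⟩, hei⟩))
      refine Or.inr (Or.inr ?_)
      simp only [Bad0, Finset.mem_filter, Finset.mem_range, hi, hN, true_and, not_or,
        not_le] at a1
      simp only [Light, Finset.mem_filter, Finset.mem_range, hi, hN, true_and, a1.1.le, a1.2.le,
        not_le] at a2
      have a3 := Finset.card_filter_add_card_filter_not (s := Finset.range J)
        fun j => i / ρ ^ j ∈ F j ω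
      rw [Finset.card_range] at a3
      have a4 : (J : ℝ) ≤ 2 * (((Finset.range J).filter fun j => ¬ i / ρ ^ j ∈ F j ω).card : ℝ) := by
        exact_mod_cast (by omega :
          J ≤ 2 * ((Finset.range J).filter fun j => ¬ i / ρ ^ j ∈ F j ω).card)
      have a5 : (((Finset.range J).filter fun j => ¬ i / ρ ^ j ∈ F j ω).card : ℝ) * (2 / J) ≤
          ∑ j ∈ Finset.range J, if e ∈ Gam (f j) (c j).m v
            (Rest (c j) (f j) v (M j) s (F j)) ω then (2 / J : ℝ) else 0 := by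
        rw [Finset.card_filter]
        push_cast
        rw [Finset.sum_mul]
        refine Finset.sum_le_sum fun j hj => ?_
        have hj := Finset.mem_range.1 hj
        by_cases b1 : i / ρ ^ j ∈ F j ω
        · simp only [b1, not_true, if_false, zero_mul]; positivity
        rw [if_pos b1, one_mul, if_pos]
        refine Finset.mem_biUnion.2 ⟨i / ρ ^ j, ?_, ?_⟩
        · rw [Rest, if_pos (by rwa [hL.hμ j, hL.ha j hj])]
          exact Finset.mem_sdiff.2 ⟨Finset.mem_range.2 (hL.lt_M hb' hj hi), b1⟩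
        · have := Eb_nest (hL.ha j hj) (hb' 0 hJ0).m_pos.le (n := ρ ^ j) (Nat.one_le_pow _ _ hρ0)
            (geo v ω.2) i hei
          rw [hL.hm j]; exact_mod_cast this
      have a6 : 1 ≤ (((Finset.range J).filter fun j => ¬ i / ρ ^ j ∈ F j ω).card : ℝ) * (2 / J) := by
        rw [mul_div_assoc', le_div_iff₀ hJ']; linarith
      split_ifs <;> linarith)
  refine key.trans ?_
  rw [Finset.sum_disjSum, Fintype.sum_bool]
  simp only [Sum.elim_inl, Sum.elim_inr, if_true, Bool.false_eq_true, if_false]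
  have V0 := hL.hV 0 hJ0
  have M0' := hM1 0 hJ0
  have s1 : (1 : ℝ) ≤ (c 0).s := by linarith [hs 0 hJ0]
  have V1 : (c 0).s ^ 2 ≤ V := by nlinarith
  have V2 : 0 ≤ V := by nlinarith
  have term : ∀ (C m σ k : ℝ), 0 ≤ C → 1 ≤ m → 0 < σ → 0 < k → m * σ ^ 2 ≤ V →
      (C * X * m + 1) / (X / (k * σ)) ^ 2 ≤ k ^ 2 * (C + 1) * V / X := by
    intro C m σ k hC hm hσ hk hV
    have a1 : C * X * m + 1 ≤ (C + 1) * X * m := by nlinarith
    calc _ ≤ (C + 1) * X * m / (X / (k * σ)) ^ 2 := by gcongr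
      _ = k ^ 2 * (C + 1) * (m * σ ^ 2) / X := by field_simp
      _ ≤ _ := by gcongr
  have b1 : ∑ j ∈ Finset.range J, 8 * 4 * (2 / J) * (C3 * X * M j + 1) / (X / (12 * (c j).s)) ^ 2 ≤
      9216 * (C3 + 1) * V / X := by
    refine (Finset.sum_le_card_nsmul _ _ (8 * 4 * (2 / J) * (12 ^ 2 * (C3 + 1) * V / X))
      fun j hj => ?_).trans (le_of_eq ?_)
    · have hj := Finset.mem_range.1 hj
      rw [mul_div_assoc]
      exact mul_le_mul_of_nonneg_left
        (term _ _ _ 12 hC3 (hM1 j hj) (hb' j hj).s_pos (by norm_num) (hL.hV j hj)) (by positivity)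
    · rw [Finset.card_range, nsmul_eq_mul]; field_simp; ring
  have b2 := term (C1 + 1) (M 0) (c 0).s 2 (by linarith) M0' s0 (by norm_num) V0
  have b3 : (C2 * M 0 + 1) / (1 / (c 0).s / (16 * q * μ0) * (1 / (c 0).s)) +
      4 * μ0 * q * M 0 / (1 / (c 0).s) ^ 2 ≤ q * μ0 * (16 * (C2 + 1) + 4) * V := by
    have a1 : C2 * M 0 + 1 ≤ (C2 + 1) * M 0 := by nlinarith
    calc _ ≤ (C2 + 1) * M 0 / (1 / (c 0).s / (16 * q * μ0) * (1 / (c 0).s)) +
          4 * μ0 * q * M 0 / (1 / (c 0).s) ^ 2 := by gcongr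
      _ = q * μ0 * (16 * (C2 + 1) + 4) * (M 0 * (c 0).s ^ 2) := by field_simp
      _ ≤ _ := by gcongr
  have b4 : 96 ≤ ε / 3 * V := by
    have a1 : 288 / ε ≤ V := by nlinarith [hs 0 hJ0]
    rw [div_le_iff₀ hε] at a1
    linarith
  have b5 : (9216 * (C3 + 1) + 128 * (C1 + 2)) * V / X ≤ ε / 3 * V := by
    rw [div_le_iff₀ (by linarith)]
    nlinarith
  have b6 := mul_le_mul_of_nonneg_right q1 V2
  have e1 : (9216 * (C3 + 1) + 128 * (C1 + 2)) * V / X =
      9216 * (C3 + 1) * V / X + 8 * 4 * 1 * (2 ^ 2 * (C1 + 1 + 1) * V / X) := by ring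
  rw [mul_div_assoc (8 * 4 * 1 : ℝ)]
  linarith

end Pool.Agent.Lib.MP_de94ef_pr.Q
end

-- part Pool.Agent.Lib.MP_de94ef_pr.Q.CertA
section

/-!
Small conditional variance of blocks gives a small conditional variance.
-/

open MeasureTheory ProbabilityTheory Set Real Function Filter Topology
open scoped ENNReal NNReal

namespace Pool.Agent.Lib.MP_de94ef_pr.Q

lemma certa_int (F : Env → ℝ) : ∫ ω : Om, F ω.2 ∂P2 = ∫ X, F X ∂PE := by
  rw [integral_fun_snd]
  simp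

lemma certa_reach {f : Fd} {m K C : ℝ} {o q q' : VV} {X : Env} (h : SN f m K C o q q' X < C) :
    ∃ p : GG.Walk q q', (∀ w ∈ p.support, w ∈ Nb f m K o) ∧
      wt X (es p) ≤ f.L (iv (q' - q)) + SN f m K C o q q' X := by
  have h1 : TC (Nb f m K o) (max (f.L (iv (q' - q)) + C) 0) q q' X - f.L (iv (q' - q)) ≤
      SN f m K C o q q' X := le_max_left _ _
  obtain ⟨p, h2, h3⟩ := TC_reach (A := Nb f m K o) (K := max (f.L (iv (q' - q)) + C) 0) (q := q)
    (q' := q') (ω := X) (lt_of_lt_of_le (by linarith) (le_max_left _ _))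
  exact ⟨p, h2, by linarith⟩

section block

variable {c : Bs} {f : Fd} {v : VV} {M : ℕ} {s : ℝ} {p : GG.Walk 0 v} {i : ℕ}

/-- A block of small spread stays in its tube. -/
lemma certa_mem (hT : Top c f v M s) (hb : c.Big 100) (hp : Straight c.μ f.a s p) (hi : i < M)
    {K K1 : ℝ} (hK : K + 3 ≤ K1) (hD : Dd f c.m p i ≤ K) {j : ℕ} (h1 : tk f c.m p i ≤ j)
    (h2 : j ≤ tk f c.m p (i + 1)) : p.getVert j ∈ Nb f c.m K1 (os f c.m p i) := by
  have hm := hb.m_ge (by norm_num)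
  have hm0 := hb.m_pos
  have hs := hb.s_ge
  have hκ := hb.κ_pos
  have hK0 := (Dd_nonneg f c.m p i).trans hD
  have a1 := hT.a_lower hb hp hi.le h1 (h2.trans (hit_le _ _))
  have a2 := hT.a_upper hb hp hi h2
  have a3 := abs_le.1 (hT.fr.a_fl hb.tc (zc f c.m i (cs f c.m p i) - c.m • f.u))
  have a4 := hT.fr.b_fl hb.tc (zc f c.m i (cs f c.m p i) - c.m • f.u)
  have a5 := abs_le.1 ((le_Dd f hm0 h1 h2).trans (mul_le_mul_of_nonneg_right hD hm0.le))
  have a6 := b_xs f hm0 p i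
  rw [map_sub, map_smul, zc, hT.fr.a_pt, hT.fr.au, smul_eq_mul, mul_one] at a3
  rw [map_sub, map_smul, zc, hT.fr.b_pt, hT.fr.bu, smul_zero, sub_zero] at a4
  have a7 : |f.b (iv (fl (f.pt (i * c.m) (cs f c.m p i * c.m) - c.m • f.u))) -
      cs f c.m p i * c.m| ≤ c.m := by
    refine le_of_mul_le_mul_left (a4.trans ?_) hκ
    rw [hb.κm]
    linarith
  have a8 := abs_le.1 a7
  rw [iv_sub, map_sub] at a5
  rw [hT.fr.mem_Nb hb.tc hm0.le (by linarith), iv_sub, map_sub, map_sub, os, oA, zc, abs_le]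
  push_cast at a2
  have a9 : (K + 3) * c.m ≤ K1 * c.m := mul_le_mul_of_nonneg_right hK hm0.le
  refine ⟨by linarith, by linarith, by linarith, by linarith⟩

/-- The gain on a block with cheap connections is bounded by the gain along the tube. -/
lemma certa_gain (hT : Top c f v M s) (hb : c.Big 100) (hp : Straight c.μ f.a s p) (hi : i < M)
    {K K1 C : ℝ} (hK : K + 3 ≤ K1) (hD : Dd f c.m p i ≤ K) {X X' : Env}
    (hX : ∀ e, max (X' e) 0 ≤ max (X e) 0) (h1 : S1 f c.m p K1 C i X < C)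
    (h2 : S2 f c.m p K1 C i X < C) :
    wt X (Eb f c.m p i) - wt X' (Eb f c.m p i) ≤ |ex f c.m p X i| +
      (S1 f c.m p K1 C i X + S2 f c.m p K1 C i X) + (f.L (iv (yk f c.m (ks f c.m p i))) -
        FF f c.m K1 (ks f c.m p i) (os f c.m p i) X') := by
  classical
  obtain ⟨p1, a1, a2⟩ := certa_reach h1
  obtain ⟨p2, b1, b2⟩ := certa_reach h2
  obtain ⟨q, c1, c2⟩ : ∃ q : GG.Walk (xs f c.m p i) (xs f c.m p (i + 1)), es q = Eb f c.m p i ∧
      ∀ w ∈ q.support, ∃ j, tk f c.m p i ≤ j ∧ j ≤ tk f c.m p (i + 1) ∧ w = p.getVert j :=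
    exists_sub p (tk_mono f hb.m_pos.le p (Nat.le_succ i)) (hit_le _ _)
  have d := TC_le_wt (A := Nb f c.m K1 (os f c.m p i))
    (K := f.L (iv (yk f c.m (ks f c.m p i)))) X' ((p1.append q).append p2) fun w hw => by
      rw [SimpleGraph.Walk.mem_support_append_iff, SimpleGraph.Walk.mem_support_append_iff] at hw
      rcases hw with (hw | hw) | hw
      · exact a1 w hw
      · obtain ⟨j, j1, j2, rfl⟩ := c2 w hw
        exact certa_mem hT hb hp hi hK hD j1 j2
      · exact b1 w hw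
  rw [es_append, es_append, c1] at d
  have d1 := wt_union_le X' (es p1 ∪ Eb f c.m p i) (es p2)
  have d2 := wt_union_le X' (es p1) (Eb f c.m p i)
  have d3 := wt_le_wt hX (es p1)
  have d4 := wt_le_wt hX (es p2)
  have d5 := le_abs_self (ex f c.m p X i)
  have d6 : FF f c.m K1 (ks f c.m p i) (os f c.m p i) X' ≤
      wt X' (es p1 ∪ Eb f c.m p i ∪ es p2) := d
  have d7 : ex f c.m p X i = wt X (Eb f c.m p i) -
      f.L (iv (xs f c.m p (i + 1) - xs f c.m p i)) := rfl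
  simp only [iv_sub, iv_add, map_sub, map_add] at a2 b2 d7
  unfold S1 S2
  linarith

end block

lemma certa_ldom {c : Bs} {f : Fd} (hb : c.Big 100) (hF : Fr c.μ c.κ 1 f) {K1 X : ℝ} (hX : 0 < X)
    (t : ℝ) (i : ℕ) (k k' : ℤ) (h0 : 0 ≤ f.L (iv (yk f c.m k))) :
    LDom f.a (((i : ℝ) - 3) * c.m) (((i : ℝ) + 5) * c.m) (fun ω z =>
      z ≤ f.L (iv (yk f c.m k)) - FF f c.m K1 k (oA f c.m i k') ω.2 - c.s / X *
        psi t (X / c.s) (f.L (iv (yk f c.m k))) (FF f c.m K1 k (oA f c.m i k')) ω) 0 (c.s / X) := by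
  have hs := hb.s_pos
  have hm : Measurable (FF f c.m K1 k (oA f c.m i k')) := measurable_TC _ _ _ _
  obtain ⟨γ, hγ⟩ := sg_TC (Nb f c.m K1 (oA f c.m i k')) h0 (oA f c.m i k')
    (oA f c.m i k' + yk f c.m k)
  refine ⟨fun ω => ENNReal.ofReal (exp (X / c.s * (f.L (iv (yk f c.m k)) -
      FF f c.m K1 k (oA f c.m i k') ω.2) -
      psi t (X / c.s) (f.L (iv (yk f c.m k))) (FF f c.m K1 k (oA f c.m i k')) ω)),
    ((((hm.comp measurable_snd).const_sub _).const_mul _).sub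
      (measurable_psi hm _ _ _)).exp.ennreal_ofReal,
    ⟨_, inR_Nb hb hF K1 i k', fun ω ω' h => ?_⟩, fun ω z hz => ?_,
    (lintegral_psi hγ (fun x => TC_le_cap x) (by positivity) t).trans (by norm_num)⟩
  · have h1 : FF f c.m K1 k (oA f c.m i k') ω.2 = FF f c.m K1 k (oA f c.m i k') ω'.2 :=
      dependsOn_TC _ _ _ _ fun e he => (h e he).2
    have h2 : psi t (X / c.s) (f.L (iv (yk f c.m k))) (FF f c.m K1 k (oA f c.m i k')) ω =
        psi t (X / c.s) (f.L (iv (yk f c.m k))) (FF f c.m K1 k (oA f c.m i k')) ω' :=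
      psi_locOn (dependsOn_TC _ _ _ _) _ _ _ ω ω' h
    simp only [h1, h2]
  · refine ENNReal.ofReal_le_ofReal (exp_le_exp.2 ?_)
    rw [sub_zero, div_le_iff₀ (by positivity)]
    refine hz.trans (le_of_eq ?_)
    field_simp

theorem certA : ∃ C : ℝ, 0 ≤ C ∧ ∀ X : ℝ, 2 ≤ X → ∃ a : ℝ, 0 < a ∧ ∀ (K : ℕ) (C3 : ℝ), 0 ≤ C3 →
    ∃ K1 : ℕ, K + 3 ≤ K1 ∧ ∀ᶠ c in FB, ∀ (f : Fd) (v : VV) (M : ℕ) (s t : ℝ), Top c f v M s →
    (∀ k : ℤ, |(k : ℝ)| ≤ K + 1 → cvar t (FF f c.m K1 k 0) ≤ a ^ 2 * c.s ^ 2) →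
    ∫ X, SSum c f v M s K K1 C3 X ∂PE ≤ C * M * c.s ∧
    Cert (SS t) (Gam f c.m v (AF c f v M s K K1 C3)) (X / (8 * c.s)) (C * X * M) := by
  classical
  obtain ⟨C0, h0⟩ := exc
  obtain ⟨CS, hCS, hS⟩ := sumS
  obtain ⟨CP, hCP, hP⟩ := sumPsi
  refine ⟨4 * |C0| + CS + CP + 1, by positivity, fun X hX => ?_⟩
  obtain ⟨a, ha, hP⟩ := hP X hX
  refine ⟨a, ha, fun K C3 hC3 => ?_⟩
  obtain ⟨K1, hK1, hS⟩ := hS K C3 hC3
  refine ⟨K1, hK1, ?_⟩
  filter_upwards [h0, hS, hP K K1, L_yk_nonneg (K + 1)] with c h0 hS hP hL f v M s t hT hv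
  have hTp := h0 f v M s hT
  have hb := hTp.big
  have hs := hb.s_pos
  have hm := hb.m_pos
  have hC0 : 0 ≤ C0 := zero_le_one.trans hTp.one
  have hX0 : 0 < X := by linarith
  have hM : (0 : ℝ) ≤ M := Nat.cast_nonneg M
  have hK1' : (K : ℝ) + 3 ≤ K1 := by exact_mod_cast hK1
  rw [abs_of_nonneg hC0]
  obtain ⟨p0, p1, p2⟩ := hP f v M s t hT hv
  have hS' := hS f v M s hT
  refine ⟨hS'.trans (mul_le_mul_of_nonneg_right (mul_le_mul_of_nonneg_right (by linarith) hM)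
    hs.le), ?_⟩
  have hθ : X / (8 * c.s) = 1 / (c.s / X) / ((Finset.range 8).card : ℕ) := by
    rw [Finset.card_range]
    field_simp
    norm_num
  rw [hθ]
  refine Cert.union (Finset.range 8) (by simp) (Γ := fun r => Gam f c.m v fun ω =>
    (AF c f v M s K K1 C3 ω).filter (· % 8 = r)) (by positivity) (fun r _ => ?_) fun ω e he => ?_
  swap
  · obtain ⟨i, h1, h2⟩ := Finset.mem_biUnion.1 he
    exact ⟨i % 8, Finset.mem_range.2 (Nat.mod_lt _ (by norm_num)),
      Finset.mem_biUnion.2 ⟨i, Finset.mem_filter.2 ⟨h1, rfl⟩, h2⟩⟩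
  have i1 : Integrable (fun ω : Om => ES c f v M s ω.2) P2 := (integrable_ES c f v M s).comp_snd _
  have i2 : Integrable (fun ω : Om => SSum c f v M s K K1 C3 ω.2) P2 :=
    (integrable_SSum c f v M s K K1 C3).comp_snd _
  have i3 := p1.const_mul (c.s / X)
  have i4 : Integrable (fun ω : Om => ES c f v M s ω.2 + SSum c f v M s K K1 C3 ω.2) P2 :=
    i1.add i2
  have key := hTp.cert (fun i => ((i : ℝ) - 3) * c.m) (fun i => ((i : ℝ) + 5) * c.m)
    (A := fun k i ω z => |((k (i + 1) - k i : ℤ) : ℝ)| ≤ K + 1 ∧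
      z ≤ f.L (iv (yk f c.m (k (i + 1) - k i))) -
        FF f c.m K1 (k (i + 1) - k i) (oA f c.m i (k i)) ω.2 - c.s / X *
        psi t (X / c.s) (f.L (iv (yk f c.m (k (i + 1) - k i))))
          (FF f c.m K1 (k (i + 1) - k i) (oA f c.m i (k i))) ω) (d := 0) (s' := c.s / X)
    (fun k i _ => by
      by_cases h1 : |((k (i + 1) - k i : ℤ) : ℝ)| ≤ K + 1
      · exact (certa_ldom hb hT.fr hX0 t i _ (k i) (hL f _ hT.fr h1)).mono (by positivity) le_rfl
          le_rfl fun ω z hz => ⟨z, hz.2, le_rfl⟩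
      · exact ldom_empty fun ω z hz => h1 hz.1) le_rfl (by positivity) (P := SS t)
    (Γ := Gam f c.m v fun ω => (AF c f v M s K K1 C3 ω).filter (· % 8 = r))
    (U := fun ω => ES c f v M s ω.2 + SSum c f v M s K K1 C3 ω.2 +
      c.s / X * PSum c f v M s K K1 t (X / c.s) ω) (Nf := fun _ => M) (i4.add i3)
    (fun ω => add_nonneg (add_nonneg (ES_nonneg _ _ _ _ _ _) (SSum_nonneg _ _ _ _ _ _ _ _ _))
      (mul_nonneg (by positivity) (p0 ω))) (integrable_const _) (fun _ => hM)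
    (fun ω hω => Finset.eq_empty_of_forall_notMem fun e he => by
      obtain ⟨i, h1, -⟩ := Finset.mem_biUnion.1 he
      exact hω ((flags_AF c f v M s K K1 C3).2 ω i (Finset.mem_filter.1 h1).1).2)
    fun ζ Y hY => ?_
  · refine key.mono (fun _ => subset_rfl) (fun _ => subset_rfl) (by positivity) le_rfl ?_
      (by positivity)
    rw [integral_add i4 i3, integral_add i1 i2, integral_const_mul, certa_int, certa_int,
      integral_const, probReal_univ, one_smul, zero_div, zero_add, div_div_eq_mul_div,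
      ← le_sub_iff_add_le, ← le_sub_iff_add_le, div_le_iff₀ hs]
    have e1 := mul_le_mul_of_nonneg_right hTp.hE hX0.le
    have e2 := mul_le_mul_of_nonneg_right hS' hX0.le
    have e3 := mul_le_mul_of_nonneg_right p2 hs.le
    have e4 : c.s / X * (∫ ω, PSum c f v M s K K1 t (X / c.s) ω ∂P2) * X =
        (∫ ω, PSum c f v M s K K1 t (X / c.s) ω ∂P2) * c.s := by field_simp
    have e5 : 0 ≤ (X - 2) * (M * c.s) := mul_nonneg (by linarith) (by positivity)
    have e6 : 0 ≤ C0 * ((X - 2) * (M * c.s)) := mul_nonneg hC0 e5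
    have e7 : 0 ≤ C0 * (M * c.s) := by positivity
    rw [add_mul, add_mul, e4]
    linarith
  have hmem : ∀ i ∈ (AF c f v M s K K1 C3 (ζ, Y)).filter (· % 8 = r), i < M ∧ i % 8 = r ∧
      Dd f c.m (geo v Y) i ≤ K ∧ S1 f c.m (geo v Y) K1 (C3 * c.s) i Y < C3 * c.s ∧
      S2 f c.m (geo v Y) K1 (C3 * c.s) i Y < C3 * c.s := fun i hi => by
    obtain ⟨h1, h2⟩ := Finset.mem_filter.1 hi
    obtain ⟨h3, -, h4⟩ := Finset.mem_filter.1 h1
    exact ⟨Finset.mem_range.1 h3, h2, h4⟩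
  have hsub : (AF c f v M s K K1 C3 (ζ, Y)).filter (· % 8 = r) ⊆ Finset.range M :=
    fun i hi => Finset.mem_range.2 (hmem i hi).1
  have hks : ∀ i, Dd f c.m (geo v Y) i ≤ K → |((ks f c.m (geo v Y) i : ℤ) : ℝ)| ≤ K + 1 :=
    fun i hi => (abs_ks_le f hm _ i).trans (by linarith)
  refine ⟨(AF c f v M s K K1 C3 (ζ, Y)).filter (· % 8 = r), fun i hi => (hmem i hi).1,
    fun i hi i' hi' h1 => ?_, ?_, fun Y' hY' hY'' => ⟨fun i =>
      f.L (iv (yk f c.m (ks f c.m (geo v Y) i))) -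
        FF f c.m K1 (ks f c.m (geo v Y) i) (os f c.m (geo v Y) i) Y' - c.s / X *
        psi t (X / c.s) (f.L (iv (yk f c.m (ks f c.m (geo v Y) i))))
          (FF f c.m K1 (ks f c.m (geo v Y) i) (os f c.m (geo v Y) i)) (ζ, Y'),
      fun i hi => ⟨hks i (hmem i hi).2.2.1, le_rfl⟩, ?_⟩⟩
  · have h2 := (hmem i hi).2.1
    have h3 := (hmem i' hi').2.1
    have h4 : ((i + 8 : ℕ) : ℝ) ≤ i' := by exact_mod_cast (by omega : i + 8 ≤ i')
    push_cast at h4
    exact mul_le_mul_of_nonneg_right (by linarith) hm.le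
  · exact_mod_cast (Finset.card_le_card hsub).trans (Finset.card_range M).le
  · refine (gain_biUnion hY' _ _).trans ?_
    simp only [ES, SSum, PSum, hY, if_true, true_and]
    rw [Finset.mul_sum, ← Finset.sum_add_distrib, ← Finset.sum_add_distrib]
    refine le_trans ?_ (add_le_add_left (Finset.sum_le_sum_of_subset_of_nonneg hsub
      fun i _ _ => ?_) _)
    · rw [← Finset.sum_add_distrib]
      refine Finset.sum_le_sum fun i hi => ?_
      obtain ⟨h1, -, h2, h3, h4⟩ := hmem i hi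
      rw [if_pos h2, if_pos h2, psi_congr _ _ _ _ hY'']
      linarith [certa_gain hT hb hY.2 h1 hK1' h2 hY' h3 h4]
    · split_ifs with h2
      · obtain ⟨γ, hγ⟩ := sg_TC (Nb f c.m K1 (os f c.m (geo v Y) i)) (hL f _ hT.fr (hks i h2))
          (os f c.m (geo v Y) i) (os f c.m (geo v Y) i + yk f c.m (ks f c.m (geo v Y) i))
        exact add_nonneg (add_nonneg (abs_nonneg _) (add_nonneg (SN_nonneg _ _ _ _ _ _ _ _)
          (SN_nonneg _ _ _ _ _ _ _ _))) (mul_nonneg (by positivity)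
            (psi_bound hγ (fun x => TC_le_cap x) (by positivity) t _).1)
      · positivity

lemma certa_card {c : Bs} (hs : 0 < c.s) (f : Fd) (v : VV) (M : ℕ) (s K1 : ℝ) {K C : ℝ}
    (hK : 0 < K) (hC : 0 < C) (ω : Om) :
    ((Rest c f v M s (AF c f v M s K K1 C) ω).card : ℝ) ≤
      DS c f v M s ω.2 / K + SSum c f v M s K K1 C ω.2 / (C * c.s) := by
  classical
  have hCs := mul_pos hC hs
  by_cases hN : Nice c.μ f.a v s ω.2
  swap
  · rw [Rest, if_neg hN, Finset.card_empty, Nat.cast_zero]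
    exact add_nonneg (div_nonneg (DS_nonneg _ _ _ _ _ _) hK.le)
      (div_nonneg (SSum_nonneg _ _ _ _ _ _ _ _ _) hCs.le)
  simp only [Rest, DS, SSum, hN, if_true, true_and]
  rw [Finset.sum_div, Finset.sum_div, ← Finset.sum_add_distrib, Finset.card_eq_sum_ones,
    Nat.cast_sum]
  have h0 : ∀ i, 0 ≤ Dd f c.m (geo v ω.2) i / K := fun i => div_nonneg (Dd_nonneg _ _ _ _) hK.le
  have h1 : ∀ i, 0 ≤ S1 f c.m (geo v ω.2) K1 (C * c.s) i ω.2 := fun i => SN_nonneg _ _ _ _ _ _ _ _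
  have h2 : ∀ i, 0 ≤ S2 f c.m (geo v ω.2) K1 (C * c.s) i ω.2 := fun i => SN_nonneg _ _ _ _ _ _ _ _
  refine le_trans (Finset.sum_le_sum fun i hi => ?_)
    (Finset.sum_le_sum_of_subset_of_nonneg Finset.sdiff_subset fun i _ _ => ?_)
  · obtain ⟨h3, h4⟩ := Finset.mem_sdiff.1 hi
    rw [Nat.cast_one]
    split_ifs with h5
    · refine le_add_of_nonneg_of_le (h0 i) ((one_le_div hCs).2 (not_lt.1 fun h6 => h4 ?_))
      exact Finset.mem_filter.2 ⟨h3, hN, h5, by linarith [h2 i], by linarith [h1 i]⟩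
    · rw [zero_div, add_zero]
      exact (one_le_div hK).2 (not_le.1 h5).le
  · refine add_nonneg (h0 i) (div_nonneg ?_ hCs.le)
    split_ifs
    · exact add_nonneg (h1 i) (h2 i)
    · exact le_rfl

lemma certa_num {A X M s ε r : ℝ} (hA : 0 ≤ A) (hX : 2 ≤ X) (hM : 1 ≤ M) (hs : 0 < s)
    (hr : 0 < r) (hr8 : r ≤ 8) (h : 4608 * (A + 1) ≤ ε * X) :
    8 * 3 * 1 * (A * X * M + M + 1) / (X / (r * s)) ^ 2 ≤ ε / 3 * (M * s ^ 2) := by
  have hX0 : 0 < X := by linarith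
  rw [div_le_iff₀ (by positivity)]
  have h1 : ε / 3 * (M * s ^ 2) * (X / (r * s)) ^ 2 = ε * X * (X * M) / (3 * r ^ 2) := by
    field_simp
  rw [h1, le_div_iff₀ (by positivity)]
  have h2 : r ^ 2 ≤ 64 := by nlinarith
  have h3 : M + 1 ≤ X * M := by nlinarith
  have h4 : 0 ≤ A * X * M := by positivity
  calc 8 * 3 * 1 * (A * X * M + M + 1) * (3 * r ^ 2) ≤
        8 * 3 * 1 * (A * X * M + X * M) * (3 * 64) :=
        mul_le_mul (by linarith) (by linarith) (by positivity) (by positivity)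
    _ = 4608 * (A + 1) * (X * M) := by ring
    _ ≤ _ := mul_le_mul_of_nonneg_right h (by positivity)

theorem partA {ε : ℝ} (hε : 0 < ε) : ∃ (K K1 : ℕ) (a : ℝ), K + 3 ≤ K1 ∧ 0 < a ∧ ∀ᶠ c in FB,
    ∀ (f : Fd) (v : VV) (M : ℕ) (s t : ℝ), Top c f v M s → Rare c.μ f.a v s (1 / 800) →
    (∀ k : ℤ, |(k : ℝ)| ≤ K + 1 → cvar t (FF f c.m K1 k 0) ≤ a ^ 2 * c.s ^ 2) →
    cvar t (TB v) ≤ ε * (M * c.s ^ 2) := by
  classical
  obtain ⟨C0, h0⟩ := exc
  obtain ⟨CA, hCA, hA⟩ := certA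
  obtain ⟨CB, hCB, hB⟩ := certBad
  obtain ⟨X, hX2, hX⟩ : ∃ X : ℝ, 2 ≤ X ∧ 4608 * (CA + CB + 1) ≤ ε * X :=
    ⟨max 2 (4608 * (CA + CB + 1) / ε), le_max_left _ _, by
      rw [mul_comm ε, ← div_le_iff₀ hε]
      exact le_max_right _ _⟩
  obtain ⟨a, ha, hA⟩ := hA X hX2
  obtain ⟨B, hB0, hB⟩ := hB X (by linarith)
  obtain ⟨K, hK⟩ := exists_nat_gt (2 * B * |C0|)
  have hK0 : (0 : ℝ) < K := lt_of_le_of_lt (by positivity) hK
  have hC3 : 0 < 2 * B * CA + 1 := by positivity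
  obtain ⟨K1, hK1, hA⟩ := hA K (2 * B * CA + 1) hC3.le
  refine ⟨K, K1, a, hK1, ha, ?_⟩
  filter_upwards [h0, hA, hB, ev_big X, ev_big (216 / ε)] with c h0 hA hB hbX hbε f v M s t hT hR hv
  have hTp := h0 f v M s hT
  have hb := hTp.big
  have hs := hb.s_pos
  have hs1 : 1 ≤ c.s := le_trans (by norm_num) hb.s_ge
  have hXs := hbX.s_ge'
  have hεs := hbε.s_ge'
  have hC0 : 0 ≤ C0 := zero_le_one.trans hTp.one
  have hX0 : 0 < X := by linarith
  have hM : (1 : ℝ) ≤ M := by exact_mod_cast hT.hM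
  rw [abs_of_nonneg hC0] at hK
  obtain ⟨a1, a2⟩ := hA f v M s t hT hv
  set F := AF c f v M s K K1 (2 * B * CA + 1) with hF
  have fl : Flags c f v M s F := flags_AF _ _ _ _ _ _ _ _
  have i1 : Integrable (fun ω : Om => DS c f v M s ω.2 / K) P2 :=
    ((integrable_DS c f v M s).comp_snd _).div_const _
  have i2 : Integrable (fun ω : Om => SSum c f v M s K K1 (2 * B * CA + 1) ω.2 /
      ((2 * B * CA + 1) * c.s)) P2 := ((integrable_SSum _ _ _ _ _ _ _ _).comp_snd _).div_const _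
  have b1 : ∫ ω, ((Rest c f v M s F ω).card : ℝ) ∂P2 ≤ (C0 / K + CA / (2 * B * CA + 1)) * M := by
    refine (integral_mono fl.rest.integrable_card (i1.add i2)
      (fun ω => certa_card hs f v M s K1 hK0 hC3 ω)).trans ?_
    rw [integral_add' i1 i2, integral_div, integral_div, certa_int, certa_int,
      add_mul (C0 / K)]
    refine add_le_add ?_ ?_
    · rw [div_mul_eq_mul_div]
      exact div_le_div_of_nonneg_right hTp.hD hK0.le
    · refine (div_le_div_of_nonneg_right a1 (by positivity)).trans (le_of_eq ?_)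
      field_simp
  have b2 : B * ((C0 / K + CA / (2 * B * CA + 1)) * M) ≤ M := by
    rw [← mul_assoc]
    refine mul_le_of_le_one_left (by linarith) ?_
    have e1 : B * (C0 / K) ≤ 1 / 2 := by
      rw [← mul_div_assoc, div_le_iff₀ hK0]
      linarith
    have e2 : B * (CA / (2 * B * CA + 1)) ≤ 1 / 2 := by
      rw [← mul_div_assoc, div_le_iff₀ hC3]
      linarith
    linarith
  have b3 : Cert (SS t) (Gam f c.m v (Rest c f v M s F)) (X / (2 * c.s)) (CB * X * M + M) :=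
    (hB f v M s _ _ hT fl.rest b1).mono (fun _ => subset_univ _) (fun _ => subset_rfl)
      (by positivity) le_rfl (by linarith) (by positivity)
  have b4 : Cert (SS t) (Gam f c.m v F) (X / (8 * c.s)) (CA * X * M + M) :=
    a2.mono (fun _ => subset_rfl) (fun _ => subset_rfl) (by positivity) le_rfl (by linarith)
      (by positivity)
  have key := combA (sg_TB v) t (Finset.univ : Finset (Fin 3))
    ![Odd c.μ f.a v s, Gam f c.m v (Rest c f v M s F), Gam f c.m v F] (fun _ => 1)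
    ![1, X / (2 * c.s), X / (8 * c.s)] ![2, CB * X * M + M, CA * X * M + M] (Ω := 3) (by norm_num)
    (fun _ _ => zero_le_one) (by simp) (fun l _ => ?_) (fun l _ => ?_) (fun l _ e => ?_)
    (fun l _ ω => ?_) (fun l _ => ?_) fun ω e he => ?_
  · rw [Fin.sum_univ_three] at key
    have c1 := certa_num hCB hX2 hM hs two_pos (by norm_num) (ε := ε) (by linarith)
    have c2 := certa_num hCA hX2 hM hs (r := 8) (by norm_num) le_rfl (ε := ε) (by linarith)
    have c3 : 8 * 3 * 1 * (2 + 1) / 1 ^ 2 ≤ ε / 3 * (M * c.s ^ 2) := by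
      rw [div_le_iff₀ hε] at hεs
      have e1 : c.s ≤ M * c.s ^ 2 := by nlinarith
      nlinarith
    refine key.trans ((add_le_add_three c3 c1 c2).trans (le_of_eq ?_))
    ring
  · fin_cases l
    · exact ⟨one_pos, le_rfl⟩
    · exact ⟨div_pos hX0 (by linarith), (div_le_one (by linarith)).2 (by linarith)⟩
    · exact ⟨div_pos hX0 (by linarith), (div_le_one (by linarith)).2 (by linarith)⟩
  · fin_cases l
    · exact zero_le_two
    · exact add_nonneg (by positivity) (by positivity)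
    · exact add_nonneg (by positivity) (by positivity)
  · fin_cases l
    · exact meas_Odd _ _ _ _ e
    · exact fl.rest.meas_Gam e
    · exact fl.meas_Gam e
  · fin_cases l
    · exact Odd_subset _ _ _ _ ω
    · exact Gam_subset _ _ _ _ ω
    · exact Gam_subset _ _ _ _ ω
  · fin_cases l
    · exact cert_odd hR _
    · exact b3
    · exact b4
  · have hl : ∃ l : Fin 3, e ∈ ![Odd c.μ f.a v s, Gam f c.m v (Rest c f v M s F),
        Gam f c.m v F] l ω := by
      by_cases hN : Nice c.μ f.a v s ω.2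
      · obtain ⟨i, h1, h2⟩ := hT.exists_Eb hb he
        by_cases h3 : i ∈ F ω
        · exact ⟨2, Finset.mem_biUnion.2 ⟨i, h3, h2⟩⟩
        · refine ⟨1, Finset.mem_biUnion.2 ⟨i, ?_, h2⟩⟩
          rw [Rest, if_pos hN]
          exact Finset.mem_sdiff.2 ⟨Finset.mem_range.2 h1, h3⟩
      · refine ⟨0, ?_⟩
        change e ∈ Odd c.μ f.a v s ω
        rwa [Odd, if_neg hN]
    obtain ⟨l, hl⟩ := hl
    refine le_trans ?_ (Finset.single_le_sum (fun l _ => ?_) (Finset.mem_univ l))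
    · rw [if_pos hl]
    · split_ifs <;> norm_num

end Pool.Agent.Lib.MP_de94ef_pr.Q
end

-- part Pool.Agent.Lib.MP_de94ef_pr.Q.Step
section

/-!
The induction on scales.
-/

open MeasureTheory ProbabilityTheory Set Real Function Filter Topology
open scoped ENNReal NNReal

namespace Pool.Agent.Lib.MP_de94ef_pr.Q

lemma GBig.mono {μ : ℝ × ℝ → ℝ} {σ : ℝ → ℝ} {R K K' : ℝ} (h : GBig μ σ R K') (hK : K ≤ K')
    (h0 : 0 < K) : GBig μ σ R K := by
  have hR : 0 ≤ R := by linarith [h.large]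
  refine ⟨h.tc, h.sc, h.conc, fun r hr => hK.trans (h.big r hr), fun r hr => ?_,
    fun k r h1 h2 => h.brown k r h1 (h2.trans hK), hK.trans h.large⟩
  have h1 : R / K' ≤ R / K := div_le_div_of_nonneg_left hR h0 hK
  have h2 : 0 ≤ r := le_trans (by positivity) hr
  exact (mul_le_mul_of_nonneg_right hK (h.sc.nonneg r h2)).trans (h.small r (h1.trans hr))

lemma exists_time {J : ℕ} (Z : Finset ℤ) (g : ℕ → ℤ → ℝ → ℝ) (b : ℕ → ℝ) (hJ : 0 < J)
    (hg : ∀ j < J, ∀ k ∈ Z, ContinuousOn (g j k) (Icc 0 1)) (h0 : ∀ k ∈ Z, g 0 k 0 ≤ b 0) :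
    ∃ t, (∃ j < J, ∀ k ∈ Z, g j k t ≤ b j) ∧ (t = 1 ∨ ∀ j < J, ∃ k ∈ Z, b j ≤ g j k t) := by
  set A : Set ℝ := ⋃ j ∈ Finset.range J, Icc 0 1 ∩ ⋂ k ∈ Z, Icc 0 1 ∩ g j k ⁻¹' Iic (b j) with hA
  set B : Set ℝ := ⋂ j ∈ Finset.range J, ⋃ k ∈ Z, Icc 0 1 ∩ g j k ⁻¹' Ici (b j) with hB
  have cA : IsClosed A := isClosed_biUnion_finset fun j hj => isClosed_Icc.inter
    (isClosed_biInter fun k hk => (hg j (Finset.mem_range.1 hj) k hk).preimage_isClosed_of_isClosed
      isClosed_Icc isClosed_Iic)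
  have cB : IsClosed B := isClosed_biInter fun j hj => isClosed_biUnion_finset fun k hk =>
    (hg j (Finset.mem_range.1 hj) k hk).preimage_isClosed_of_isClosed isClosed_Icc isClosed_Ici
  have mA : ∀ t ∈ Icc (0 : ℝ) 1, t ∈ A ↔ ∃ j < J, ∀ k ∈ Z, g j k t ≤ b j := fun t ht => by
    simp [hA, ht.1, ht.2]
  have mB : ∀ t ∈ Icc (0 : ℝ) 1, t ∈ B ↔ ∀ j < J, ∃ k ∈ Z, b j ≤ g j k t := fun t ht => by
    simp [hB, ht.1, ht.2]
  have cov : Icc (0 : ℝ) 1 ⊆ A ∪ B := fun t ht => by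
    rw [mem_union, mA t ht, mB t ht]
    by_contra hc
    push Not at hc
    obtain ⟨j, hj, h2⟩ := hc.2
    obtain ⟨k, hk, h3⟩ := hc.1 j hj
    exact absurd (h2 k hk) (not_lt.2 h3.le)
  have i0 : (0 : ℝ) ∈ Icc (0 : ℝ) 1 := ⟨le_rfl, zero_le_one⟩
  have i1 : (1 : ℝ) ∈ Icc (0 : ℝ) 1 := ⟨zero_le_one, le_rfl⟩
  rcases cov i1 with h1 | h1
  · exact ⟨1, (mA 1 i1).1 h1, Or.inl rfl⟩
  obtain ⟨t, ht, h2, h3⟩ := isPreconnected_closed_iff.1 isPreconnected_Icc A B cA cB cov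
    ⟨0, i0, (mA 0 i0).2 ⟨0, hJ, h0⟩⟩ ⟨1, i1, h1⟩
  exact ⟨t, (mA t ht).1 h2, Or.inr ((mB t ht).1 h3)⟩

theorem varStep {ε : ℝ} (hε : 0 < ε) : ∃ K : ℝ, 1 ≤ K ∧ ∀ (μ : ℝ × ℝ → ℝ) (σ : ℝ → ℝ) (R : ℝ),
    GBig μ σ R K → ∀ v : VV, R ≤ n1 v → n1 v ≤ 2 * R →
    Var[fun ω => TT ω 0 v; PE] ≤ ε * σ (n1 v) ^ 2 := by
  obtain ⟨KA, K1, a, hK1, ha, hA⟩ := partA (ε := ε / 16) (by positivity)
  obtain ⟨ρ, J, M0, η, KB, hρ, hJ, hη, hB⟩ := partB (ε := ε / 16) (K1 := K1) (by positivity) ha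
    (by omega)
  obtain ⟨K', hK'⟩ := ev_iff.1 (hA.and ((L_yk_nonneg (KA + 1)).and ((ev_big KB).and (ev_big 2))))
  obtain ⟨MJ, hMJ⟩ := exists_nat_ge (max (max (M0 : ℝ) 1) (2 * K'))
  have MJ0 : M0 ≤ MJ := by exact_mod_cast ((le_max_left _ _).trans (le_max_left _ _)).trans hMJ
  have MJ1 : (1 : ℝ) ≤ MJ := ((le_max_right _ _).trans (le_max_left _ _)).trans hMJ
  have MJ2 : 2 * K' ≤ MJ := (le_max_right _ _).trans hMJ
  have hρ' : (1 : ℝ) ≤ ρ := by exact_mod_cast hρ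
  have pw : ∀ i : ℕ, (1 : ℝ) ≤ ρ ^ i := fun i => one_le_pow₀ hρ'
  obtain ⟨Q, hQ⟩ : ∃ Q : ℝ, Q = MJ * ρ ^ J := ⟨_, rfl⟩
  have Q1 : 1 ≤ Q := by rw [hQ]; nlinarith [pw J]
  obtain ⟨n0, hn0⟩ := nice_prob (K := 275 * Q) (η := min η (1 / 800)) (by linarith)
    (by positivity)
  refine ⟨(11 * Q) ^ 2 + |K'| + |n0| + 4 / ε, by
    have : 0 ≤ |K'| + |n0| + 4 / ε := by positivity
    nlinarith, fun μ σ R hG v h1 h2 => ?_⟩
  have p1 : 0 < 4 / ε := by positivity
  have p2 := abs_nonneg K'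
  have p3 := abs_nonneg n0
  have p4 : 11 * Q ≤ (11 * Q) ^ 2 := by nlinarith
  have h := hG.tc
  have hR := hG.large
  obtain ⟨n, hn⟩ : ∃ n, n = μ (iv v) := ⟨_, rfl⟩
  have n1' : n ≤ n1 v := by rw [hn]; exact h.le _
  have n2 : n1 v ≤ 11 * n := by rw [hn]; exact h.ge (iv v)
  have n3 : 0 < n := by linarith
  obtain ⟨m0, hm0⟩ : ∃ m0, m0 = n / Q := ⟨_, rfl⟩
  have m1 : m0 * Q = n := by rw [hm0]; field_simp
  have m2 : R ≤ 11 * Q * m0 := by linarith
  have m3 : 1 ≤ m0 := by nlinarith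
  set c : ℕ → Bs := fun j => ⟨μ, σ, R, ρ ^ j * m0⟩ with hc
  set M : ℕ → ℕ := fun j => MJ * ρ ^ (J - j) with hM
  have Mm : ∀ j < J, (M j : ℝ) * (ρ ^ j * m0) = n := fun j hj => by
    rw [← m1, hQ, hM]
    push_cast
    rw [show (ρ : ℝ) ^ J = ρ ^ (J - j) * ρ ^ j by rw [← pow_add]; congr 1; omega]; ring
  have M1 : ∀ j, (MJ : ℝ) ≤ M j := fun j => by
    rw [hM]; push_cast; nlinarith [pw (J - j)]
  have M2 : ∀ j, (M j : ℝ) ≤ Q := fun j => by
    rw [hM, hQ]; push_cast; gcongr; omega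
  have mj : ∀ j : ℕ, m0 ≤ ρ ^ j * m0 := fun j => by nlinarith [pw j]
  have big : ∀ j < J, (c j).Big K' := fun j hj => by
    have a1 := mj j
    have a2 := le_abs_self K'
    refine ⟨h, hG.sc, hG.conc, fun r hr => by linarith [hG.big r hr], m3.trans a1, ?_, ?_⟩
    · refine le_trans (mul_le_mul_of_nonneg_right (by linarith)
        (hG.sc.nonneg _ (by linarith))) (hG.small _ ?_)
      rw [div_le_iff₀ (by linarith)]
      nlinarith
    · have a3 := Mm j hj
      have a4 := mul_le_mul_of_nonneg_right (MJ2.trans (M1 j)) (show 0 ≤ ρ ^ j * m0 by linarith)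
      change K' * (ρ ^ j * m0) ≤ R
      linarith
  have hu := unit_dir h hn.symm n3
  obtain ⟨u, hu'⟩ : ∃ u, u = n⁻¹ • iv v := ⟨_, rfl⟩
  rw [← hu'] at hu
  have hv : iv v = n • u := by rw [hu', smul_inv_smul₀ n3.ne']
  obtain ⟨τ, α, β, d1, d2, d3, d4, d5, d6⟩ := exists_base h hu
  have hf : ∀ j, ∃ (l : ℝ) (f : Fd), j < J → 0 < l ∧ f.u = u ∧ f.t = l • τ ∧ f.a = α ∧
      f.L u = 1 ∧ Fr μ (c j).κ 1 f := fun j => by
    by_cases hj : j < J
    · have b2 := (hK' _ (big j hj)).2.2.2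
      obtain ⟨l, f, e1, e2, e3, e4, -, e5, e6⟩ := exists_fr h d1 d2 d3 d4 d5 d6 d2 b2.κ_pos le_rfl
        (by linarith [b2.Kκ]) (by simp [hu])
      exact ⟨l, f, fun _ => ⟨e1, e2, e3, e4, by rw [e5, hu], e6⟩⟩
    · exact ⟨0, ⟨0, 0, 0, 0, 0⟩, fun h => absurd h hj⟩
  choose l f hf using hf
  have top : ∀ j < J, Top (c j) (f j) v (M j) (m0 / 25) := fun j hj => by
    obtain ⟨e1, e2, e3, e4, e5, e6⟩ := hf j hj
    refine ⟨e6, by rw [e2, e5], by rw [e2, hv, Mm j hj], by rw [Mm j hj, hn], h2, ?_,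
      by linarith, by linarith [mj j]⟩
    exact_mod_cast MJ1.trans (M1 j)
  have hV : ∀ j < J, M j * (c j).s ^ 2 ≤ 2 * σ n ^ 2 := fun j hj => by
    have := hG.brown (M j) (ρ ^ j * m0) (MJ1.trans (M1 j)) (by linarith [M2 j])
      (by linarith [mj j])
    rwa [Mm j hj] at this
  have hL : Lv J ρ c f M τ l v (m0 / 25) (2 * σ n ^ 2) := by
    refine ⟨top, fun _ => rfl, fun j => by simp [hc], fun j hj => ?_, fun j hj => ?_,
      fun j hj => (hf j hj).2.2.1, fun j hj => (hf j hj).1, fun j j' h1 h2 => ?_, hV⟩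
    · rw [(hf j hj).2.1, (hf 0 hJ).2.1]
    · rw [(hf j hj).2.2.2.1, (hf 0 hJ).2.2.2.1]
    · have a1 : (ρ : ℝ) ^ (j' - j) ≤ Q := by
        rw [hQ]
        exact (pow_le_pow_right₀ hρ' (by omega)).trans (le_mul_of_one_le_left (by positivity) MJ1)
      have := hG.brown (ρ ^ (j' - j)) (ρ ^ j * m0) (pw _) (by linarith) (by linarith [mj j])
      rwa [← mul_assoc, ← pow_add, Nat.sub_add_cancel h1] at this
  have rare : Rare μ α v (m0 / 25) (min η (1 / 800)) := by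
    refine hn0 μ h α v _ d6 (by rw [← hn, hv, map_smul, d2]; simp) (by linarith [le_abs_self n0]) ?_
    rw [div_le_iff₀ (by linarith)]
    linarith
  have hZ : ∀ k : ℤ, k ∈ Finset.Icc (-(KA + 1 : ℤ)) (KA + 1) ↔ |(k : ℝ)| ≤ KA + 1 := fun k => by
    rw [Finset.mem_Icc, ← abs_le]
    exact_mod_cast Iff.rfl
  obtain ⟨t, ⟨j, hj, t1⟩, t2⟩ := exists_time (Finset.Icc (-(KA + 1 : ℤ)) (KA + 1))
    (fun j k t => cvar t (FF (f j) (c j).m K1 k 0)) (fun j => a ^ 2 * (c j).s ^ 2) hJ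
    (fun j hj k hk => by
      obtain ⟨γ, hγ⟩ := sg_TC (Nb (f j) (c j).m K1 0)
        ((hK' _ (big j hj)).2.1 (f j) k (top j hj).fr ((hZ k).1 hk)) 0 (0 + yk (f j) (c j).m k)
      exact cvar_cont hγ)
    (fun k _ => by simp only [cvar_zero]; positivity)
  have r1 : cvar t (TB v) ≤ ε / 16 * (2 * σ n ^ 2) := by
    refine ((hK' _ (big j hj)).1 _ _ _ _ t (top j hj) ?_ fun k hk => t1 k ((hZ k).2 hk)).trans ?_
    · rw [(hf j hj).2.2.2.1]; exact rare.mono (min_le_right _ _)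
    · exact mul_le_mul_of_nonneg_left (hV j hj) (by positivity)
  have r2 : rvar t (TB v) ≤ ε / 16 * (2 * σ n ^ 2) := by
    rcases t2 with rfl | t2
    · rw [rvar_one]; positivity
    refine hB c f M τ l v _ _ t hL (fun j hj => (hK' _ (big j hj)).2.2.1)
      (fun j _ => by exact_mod_cast (Nat.cast_le.2 MJ0).trans (M1 j)) (fun j hj => ?_) ?_
    · obtain ⟨k, k1, k2⟩ := t2 j hj
      have : ((KA + 3 : ℕ) : ℝ) ≤ K1 := by exact_mod_cast hK1
      push_cast at this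
      exact ⟨k, by linarith [(hZ k).1 k1], k2⟩
    · rw [(hf 0 hJ).2.2.2.1]; exact rare.mono (min_le_left _ _)
  have r3 := var_TT_le (rare.mono (min_le_right _ _))
  rw [totalVar (sg_TB v) t] at r3
  have r4 : σ n ^ 2 ≤ σ (n1 v) ^ 2 :=
    pow_le_pow_left₀ (hG.sc.nonneg _ n3.le) (hG.sc.mono _ _ n3.le n1') 2
  have r5 := hG.big (n1 v) (by linarith)
  have r6 : 4 / ε ≤ σ (n1 v) ^ 2 := by nlinarith
  rw [div_le_iff₀ hε] at r6
  nlinarith

lemma dom_of_var (Γ : ℝ) : ∃ ε : ℝ, 0 < ε ∧ ∀ (Z : Env → ℝ) (d S : ℝ), Measurable Z →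
    MemLp Z 2 PE → 0 < S → Var[Z; PE] ≤ ε * S ^ 2 → d ≤ ∫ ω, Z ω ∂PE + Γ * S →
    Dom (fun ω z => z = Z ω) d (S / 3) → Dom (fun ω z => z = Z ω) (∫ ω, Z ω ∂PE) S := by
  obtain ⟨ε, hε, h⟩ := smallVar (3 * exp (3 * Γ))
  refine ⟨ε, hε, fun Z d S hZ h2 hS hV hd hD => dom_single hZ ?_⟩
  have i1 := h2.integrable one_le_two
  rw [ENNReal.ofReal_ofNat]
  refine h (Z := fun ω => (Z ω - ∫ ω, Z ω ∂PE) / S) (by fun_prop)
    (by simp only [div_eq_inv_mul]; exact (h2.sub (memLp_const _)).const_mul S⁻¹) ?_ ?_ ?_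
  · rw [integral_div, integral_sub i1 (integrable_const _)]; simp
  · simp only [div_pow]
    rw [integral_div, div_le_iff₀ (by positivity), ← variance_eq_integral hZ.aemeasurable]
    exact hV
  · calc _ ≤ ∫⁻ ω, ENNReal.ofReal (exp (3 * Γ)) *
          ENNReal.ofReal (exp ((Z ω - d) / (S / 3))) ∂PE := by
          refine lintegral_mono fun ω => ?_
          rw [← ENNReal.ofReal_mul (exp_pos _).le, ← exp_add]
          refine ENNReal.ofReal_le_ofReal (exp_le_exp.2 ?_)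
          rw [show 3 * Γ + (Z ω - d) / (S / 3) = 3 * ((Z ω - d + Γ * S) / S) by field_simp; ring]
          gcongr
          linarith
      _ ≤ _ := by
          rw [lintegral_const_mul _ (by fun_prop), mul_comm 3 (exp _),
            ENNReal.ofReal_mul (exp_pos _).le, ENNReal.ofReal_ofNat]
          gcongr
          exact dom_lintegral hD

theorem concStep : ∃ K : ℝ, 1 ≤ K ∧ ∀ (μ : ℝ × ℝ → ℝ) (σ : ℝ → ℝ) (R : ℝ),
    GBig μ σ R K → Conc σ (2 * R) := by
  obtain ⟨B, K0, hB, h0⟩ := ext (X := 3) (by norm_num)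
  obtain ⟨B0, hB0, h1⟩ := meanB
  obtain ⟨ε, hε, h2⟩ := dom_of_var (B + B0)
  obtain ⟨K, hK, h3⟩ := varStep hε
  refine ⟨max K K0, le_max_of_le_left hK, fun μ σ R hG x y r r1 r2 r3 => ?_⟩
  have hR : 1 ≤ R := (hK.trans (le_max_left _ _)).trans hG.large
  have pos : ∀ r, 1 ≤ r → 0 < σ r := fun r hr => lt_of_lt_of_le (by norm_num) (hG.sc.big r hr)
  rcases le_total (n1 (y - x)) R with hc | hc
  · have a1 : 1 ≤ min r R := le_min r2 hR
    obtain ⟨a2, a3⟩ := hG.conc x y (min r R) (le_min r1 hc) a1 (min_le_right _ _)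
    have a4 := hG.sc.mono _ _ (by linarith) (min_le_left r R)
    exact ⟨a2.scale (pos _ a1) a4, a3.scale (pos _ a1) a4⟩
  have a1 : 1 ≤ n1 (y - x) := hR.trans hc
  have a2 := h3 μ σ R (hG.mono (le_max_left _ _) (by linarith)) (y - x) hc (r1.trans r3)
  have a3 : Var[fun ω => TT ω x y; PE] = Var[fun ω => TT ω 0 (y - x); PE] := by
    have := (measurePreserving_tau x).variance_fun_comp (measurable_TT 0 (y - x)).aemeasurable
    simpa [TT_tau] using this
  rw [← a3] at a2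
  obtain ⟨a4, a5⟩ := h0 μ σ R hG.tc hG.sc hG.conc fun r hr => (le_max_right _ _).trans (hG.big r hr)
  have a6 := h1 μ σ R hG.tc hG.sc hG.conc (y - x) (n1 (y - x)) (hG.tc.le _) (r1.trans r3)
  have a7 := hG.tc.le_hh (y - x)
  have a8 := hG.sc.mono _ _ (by linarith) r1
  have s0 := pos _ a1
  have b1 := h2 (fun ω => TT ω x y) (μ (iv (y - x)) + B * σ (n1 (y - x))) _ (measurable_TT x y)
    (memLp_TT x y) s0 a2 (by rw [integral_TT]; nlinarith)
    ((a4 x y _ le_rfl a1 (r1.trans r3)).mono (by positivity) fun ω z hz => ⟨_, rfl, by linarith⟩)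
  have b2 := h2 (fun ω => -TT ω x y) (-μ (iv (y - x)) + B * σ (n1 (y - x))) _
    (measurable_TT x y).neg (memLp_TT x y).neg s0 (by rwa [variance_fun_neg])
    (by rw [integral_neg, integral_TT]; nlinarith)
    ((a5 x y _ le_rfl a1 (r1.trans r3)).mono (by positivity) fun ω z hz => ⟨_, rfl, by linarith⟩)
  rw [integral_TT] at b1
  rw [integral_neg, integral_TT] at b2
  exact ⟨b1.scale s0 a8, b2.scale s0 a8⟩

end Pool.Agent.Lib.MP_de94ef_pr.Q
end

-- part Pool.Agent.Lib.MP_de94ef_pr.Q.Final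
section

/-!
Polynomial improvement of the fluctuation exponent.
-/

open MeasureTheory ProbabilityTheory Set Real Function Filter Topology
open scoped ENNReal NNReal

namespace Pool.Agent.Lib.MP_de94ef_pr.Q

lemma sc_rpow {A e : ℝ} (hA : 10 ^ 30 ≤ A) (h1 : 7 / 16 ≤ e) (h2 : e ≤ 1 / 2) :
    Sc fun r => A * r ^ e := by
  have A0 : 0 < A := lt_of_lt_of_le (by norm_num) hA
  refine ⟨fun r hr => by positivity, fun r r' hr h => by gcongr, fun r k hr hk => ?_,
    fun r hr => ?_, fun r hr => ?_⟩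
  · have a1 : (k ^ 2) ^ e ≤ k := by
      rw [← rpow_natCast, ← rpow_mul (by linarith)]
      exact (rpow_le_rpow_of_exponent_le hk (by push_cast; linarith)).trans (rpow_one k).le
    rw [mul_rpow (by positivity) hr]
    have a2 := mul_le_mul_of_nonneg_right a1 (show 0 ≤ A * r ^ e by positivity)
    linarith
  · have a1 : (4 / 3 : ℝ) ≤ 2 ^ e := by
      refine le_trans ?_ (rpow_le_rpow_of_exponent_le (by norm_num) h1)
      refine le_of_pow_le_pow_left₀ (n := 16) (by norm_num) (by positivity) ?_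
      rw [← rpow_natCast ((2 : ℝ) ^ (7 / 16 : ℝ)), ← rpow_mul (by norm_num)]
      norm_num
    rw [div_rpow hr (by norm_num), ← mul_div_assoc, div_le_iff₀ (by positivity)]
    have a2 := mul_le_mul_of_nonneg_left a1 (show 0 ≤ A * r ^ e by positivity)
    linarith
  · have := one_le_rpow hr (show 0 ≤ e by linarith)
    nlinarith

theorem conc_all : ∃ A e : ℝ, 0 < e ∧ e < 1 / 2 ∧ 1 ≤ A ∧ Sc (fun r => A * r ^ e) ∧
    ∀ μ, IsTC μ → ∀ R, Conc (fun r => A * r ^ e) R := by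
  obtain ⟨K, hK, h⟩ := concStep
  obtain ⟨δ, δ0, δ1, δ2⟩ : ∃ δ : ℝ, 0 < δ ∧ δ ≤ 1 / 16 ∧ K ^ (2 * δ) ≤ 2 := by
    have l0 := log_nonneg hK
    refine ⟨1 / (16 + 4 * log K), by positivity,
      one_div_le_one_div_of_le (by norm_num) (by linarith), ?_⟩
    rw [rpow_def_of_pos (by linarith)]
    refine le_trans (exp_le_exp.2 (show _ ≤ log 2 from ?_)) (exp_log (by norm_num)).le
    rw [mul_one_div, ← mul_div_assoc, div_le_iff₀ (by positivity)]
    nlinarith [log_two_gt_d9]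
  obtain ⟨A, hA⟩ : ∃ A, A = 10 ^ 30 * K ^ 2 := ⟨_, rfl⟩
  have K2 : K ≤ K ^ 2 := by nlinarith
  have A1 : 10 ^ 30 ≤ A := by nlinarith
  have A2 : K ≤ A := by nlinarith
  have hs : Sc fun r => A * r ^ (1 / 2 - δ) := sc_rpow A1 (by linarith) (by linarith)
  refine ⟨A, 1 / 2 - δ, by linarith, by linarith, by linarith, hs, fun μ hμ => ?_⟩
  have KA : 1 ≤ K * A := by nlinarith
  have base : Conc (fun r => A * r ^ (1 / 2 - δ)) (K * (K * A) ^ 2) := by
    intro x y r r1 r2 r3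
    have a1 : 4800 * r ^ δ ≤ A := by
      have b1 : r ^ δ ≤ r ^ (1 / 4 : ℝ) := rpow_le_rpow_of_exponent_le r2 (by linarith)
      have b2 : 4800 * r ^ (1 / 4 : ℝ) ≤ A := by
        refine le_of_pow_le_pow_left₀ (n := 4) (by norm_num) (by linarith) ?_
        rw [mul_pow, ← rpow_natCast (r ^ (1 / 4 : ℝ)), ← rpow_mul (by linarith)]
        norm_num
        have b3 : 530841600000000 * K ^ 3 ≤ A ^ 2 := by
          rw [hA]
          have : K ^ 3 ≤ K ^ 4 := pow_le_pow_right₀ hK (by norm_num)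
          nlinarith [pow_pos (show 0 < K by linarith) 3]
        nlinarith [mul_le_mul_of_nonneg_right b3 (sq_nonneg A)]
      linarith
    have a2 : 4800 * sig r ≤ A * r ^ (1 / 2 - δ) := by
      have b1 : sig r ≤ r ^ δ * r ^ (1 / 2 - δ) := by
        rw [← rpow_add (by linarith), add_sub_cancel, ← sqrt_eq_rpow]
        exact le_sqrt_of_sq_le (sig_sq_le (by linarith))
      have b2 := mul_le_mul_of_nonneg_right a1 (rpow_nonneg (show 0 ≤ r by linarith) (1 / 2 - δ))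
      linarith
    have a3 := sig_pos r2
    exact ⟨(dom_up x y r1 r2).scale (by linarith) a2, (dom_down x y r1 r2).scale (by linarith) a2⟩
  have all : ∀ n : ℕ, Conc (fun r => A * r ^ (1 / 2 - δ)) (2 ^ n * (K * (K * A) ^ 2)) := by
    intro n
    induction n with
    | zero => simpa using base
    | succ n ih =>
      rw [pow_succ', mul_assoc]
      have p1 : (1 : ℝ) ≤ 2 ^ n := one_le_pow₀ (by norm_num)
      have p2 : 1 ≤ (K * A) ^ 2 := one_le_pow₀ KA
      have p3 : K * (K * A) ^ 2 ≤ 2 ^ n * (K * (K * A) ^ 2) :=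
        le_mul_of_one_le_left (by positivity) p1
      refine h μ _ _ ⟨hμ, hs, ih, fun r hr => ?_, fun r hr => ?_, fun k r k1 k2 hr => ?_,
        by nlinarith⟩
      · have := one_le_rpow hr (show 0 ≤ 1 / 2 - δ by linarith)
        nlinarith
      · rw [div_le_iff₀ (by linarith)] at hr
        have b1 : (K * A) ^ 2 ≤ r := le_of_mul_le_mul_left (by linarith) (show 0 < K by linarith)
        have b2 : K * A ≤ √r := le_sqrt_of_sq_le b1
        have b3 : r ^ (1 / 2 - δ) ≤ √r := by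
          rw [sqrt_eq_rpow]; exact rpow_le_rpow_of_exponent_le (by linarith) (by linarith)
        calc K * (A * r ^ (1 / 2 - δ)) = K * A * r ^ (1 / 2 - δ) := by ring
          _ ≤ √r * √r := mul_le_mul b2 b3 (rpow_nonneg (by linarith) _) (sqrt_nonneg _)
          _ = r := mul_self_sqrt (by linarith)
      · have k0 : 0 < k := by linarith
        have b1 : k ≤ 2 * (k ^ (1 / 2 - δ)) ^ 2 := by
          have c1 : k = k ^ (2 * δ) * (k ^ (1 / 2 - δ)) ^ 2 := by
            rw [← rpow_natCast, ← rpow_mul k0.le, ← rpow_add k0]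
            norm_num [show 2 * δ + (1 / 2 - δ) * 2 = 1 by ring]
          have c2 : k ^ (2 * δ) ≤ 2 := (rpow_le_rpow k0.le k2 (by linarith)).trans δ2
          nlinarith [mul_le_mul_of_nonneg_right c2 (sq_nonneg (k ^ (1 / 2 - δ)))]
        rw [mul_rpow k0.le hr.le]
        nlinarith [mul_le_mul_of_nonneg_right b1 (sq_nonneg (A * r ^ (1 / 2 - δ)))]
  intro R x y r r1 r2 r3
  obtain ⟨n, hn⟩ := pow_unbounded_of_one_lt r (by norm_num : (1 : ℝ) < 2)
  refine all n x y r r1 r2 (hn.le.trans (le_mul_of_one_le_right (by positivity) ?_))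
  nlinarith [one_le_pow₀ (n := 2) KA]

/-- Exponential tails around the time constant at scale `r ^ e` with `e < 1 / 2`. -/
theorem tail_pow : ∃ C e : ℝ, 0 < e ∧ e < 1 / 2 ∧ 1 ≤ C ∧ ∀ μ, IsTC μ → ∀ (v : VV) (r s : ℝ),
    n1 v ≤ r → 1 ≤ r → PE {ω | s ≤ |TT ω 0 v - μ (iv v)|} ≤
      ENNReal.ofReal (C * exp (-(s / (C * r ^ e)))) := by
  obtain ⟨A, e, e0, e1, hA, hs, h⟩ := conc_all
  obtain ⟨B, hB, h1⟩ := meanB
  have x1 : 1 ≤ exp (B + 1) := one_le_exp (by linarith)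
  refine ⟨A + 6 * exp (B + 1), e, e0, e1, by linarith, fun μ hμ v r s r1 r2 => ?_⟩
  rcases le_total s 0 with s0 | s0
  · refine prob_le_one.trans (ENNReal.one_le_ofReal.2 ?_)
    have : 1 ≤ exp (-(s / ((A + 6 * exp (B + 1)) * r ^ e))) :=
      one_le_exp (neg_nonneg.2 (div_nonpos_of_nonpos_of_nonneg s0 (by positivity)))
    nlinarith
  obtain ⟨a1, a2⟩ := estBase hμ hs (h μ hμ r) (h1 μ _ r hμ hs (h μ hμ r)) hB le_rfl
    (by linarith : r ≤ 2 * r)
  have p0 : 0 < A * r ^ e := by positivity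
  obtain ⟨E1, -, b1, c1⟩ := dom_event (a1 0 v r (by rwa [sub_zero]) r2 le_rfl) (by positivity)
    (s / (A * r ^ e) - (B + 1))
  obtain ⟨E2, -, b2, c2⟩ := dom_event (a2 0 v r (by rwa [sub_zero]) r2 le_rfl) (by positivity)
    (s / (A * r ^ e) - (B + 1))
  have e2 : B * (A * r ^ e) + (s / (A * r ^ e) - (B + 1)) * (A * r ^ e / 1) = s - A * r ^ e := by
    field_simp; ring
  simp only [sub_zero, e2] at c1 c2
  refine (measure_mono (t := E1 ∪ E2) fun ω hω => ?_).trans ((measure_union_le _ _).trans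
    ((add_le_add b1 b2).trans ?_))
  · by_contra hc
    rw [mem_union, not_or] at hc
    have := abs_le.2 ⟨by linarith [c2 ω hc.2 _ rfl], c1 ω hc.1 _ rfl⟩
    exact absurd (le_trans hω this) (by linarith)
  · rw [← ENNReal.ofReal_add (by positivity) (by positivity)]
    refine ENNReal.ofReal_le_ofReal ?_
    have d1 : exp (-(s / (A * r ^ e))) ≤ exp (-(s / ((A + 6 * exp (B + 1)) * r ^ e))) := by
      gcongr; linarith
    rw [neg_sub, sub_eq_add_neg, exp_add]
    nlinarith [exp_pos (-(s / ((A + 6 * exp (B + 1)) * r ^ e))),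
      mul_le_mul_of_nonneg_left d1 (exp_pos (B + 1)).le]

end Pool.Agent.Lib.MP_de94ef_pr.Q
end
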