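import Pool.Agent.Lib.MP_de94ef_pr.Tail

-- part Pool.Agent.Lib.MP_de94ef_pr.Shape
section

/-!
Shape fluctuations at scale `sqrt t`.
-/

open MeasureTheory ProbabilityTheory Set Real Function Filter Topology
open scoped ENNReal Pointwise

namespace Pool.Agent.Lib.MP_de94ef_pr

/-- The point `e` has an atypical passage time. -/
def Bad (μ : ℝ × ℝ → ℝ) (A t : ℝ) (e : VV) (ω : EE → ℝ) : Prop :=
  (t / 4 ≤ n1 e ∧ A * √t / 2 ≤ |TT ω 0 e - μ (iv e)|) ∨ (n1 e ≤ t / 4 ∧ t ≤ TT ω 0 e)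

lemma measurableSet_bad (μ : ℝ × ℝ → ℝ) (A t : ℝ) (e : VV) :
    MeasurableSet {ω | Bad μ A t e ω} := by
  have h1 : MeasurableSet {ω | A * √t / 2 ≤ |TT ω 0 e - μ (iv e)|} :=
    measurableSet_le measurable_const (by fun_prop)
  have h2 : MeasurableSet {ω | t ≤ TT ω 0 e} := measurableSet_le measurable_const (by fun_prop)
  exact ((MeasurableSet.const _).inter h1).union ((MeasurableSet.const _).inter h2)

/-- Some point at distance of order `t` has an atypical passage time. -/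
def BadU (μ : ℝ × ℝ → ℝ) (A t : ℝ) : Set (EE → ℝ) :=
  ⋃ e ∈ {e | n1 e ≤ 22 * t}, {ω | Bad μ A t e ω}

lemma bad_point {q : ℝ} (hq : 0 < q) : ∃ A C : ℝ, 0 < A ∧ 0 ≤ C ∧ ∀ᶠ t : ℝ in atTop,
    ∀ μ, IsTC μ → ∀ e, n1 e ≤ 22 * t →
      PP EE {ω | Bad μ A t e ω} ≤ ENNReal.ofReal (C * t ^ (-q)) := by
  obtain ⟨c, C, hc, hC, h⟩ := tail
  obtain ⟨A, hA⟩ : ∃ A, A = √(352 * q / c) := ⟨_, rfl⟩
  have hA0 : 0 < A := by rw [hA]; positivity
  have hA2 : c * A ^ 2 = 352 * q := by rw [hA, sq_sqrt (by positivity)]; field_simp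
  refine ⟨A, C + 1, hA0, by linarith, ?_⟩
  filter_upwards [(isLittleO_exp_neg_mul_rpow_atTop (a := 1 / 4) (by norm_num) (-q)).eventuallyLE,
    eventually_ge_atTop 1, eventually_ge_atTop ((2 * A) ^ 4)] with t h1 h2 h3 μ hμ e he
  have ht : 0 < t := by linarith
  have hp : 0 < t ^ (-q) := rpow_pos_of_pos ht _
  rw [Real.norm_eq_abs, Real.norm_eq_abs, abs_of_pos (exp_pos _), abs_of_pos hp] at h1
  have hs : 0 < √t := sqrt_pos.2 ht
  rw [add_mul, ENNReal.ofReal_add (by positivity) (by positivity)]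
  refine (measure_union_le {ω | t / 4 ≤ n1 e ∧ A * √t / 2 ≤ |TT ω 0 e - μ (iv e)|}
    {ω | n1 e ≤ t / 4 ∧ t ≤ TT ω 0 e}).trans (add_le_add ?_ ?_)
  · by_cases hn : t / 4 ≤ n1 e
    swap
    · simp [hn]
    simp only [hn, true_and]
    refine (h μ hμ e _ (by positivity)).trans (ENNReal.ofReal_le_ofReal ?_)
    refine mul_le_mul_of_nonneg_left ?_ (by linarith)
    rw [rpow_def_of_pos ht]
    refine exp_le_exp.2 ?_
    have hl := log_nonneg h2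
    have a0 : 2 * A ≤ √√t := by
      refine le_sqrt_of_sq_le (le_sqrt_of_sq_le ?_)
      rw [← pow_mul]; exact h3
    have hs2 : 0 < √√t := sqrt_pos.2 hs
    have a1 : log t / 4 ≤ log (n1 e / (A * √t / 2)) := by
      have : log √√t = log t / 4 := by rw [log_sqrt hs.le, log_sqrt ht.le]; ring
      rw [← this]
      refine log_le_log hs2 ?_
      rw [le_div_iff₀ (by positivity)]
      have b1 := mul_self_sqrt hs.le
      have b2 := mul_self_sqrt ht.le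
      have b3 : √√t * (2 * A) ≤ √√t * √√t := by gcongr
      nlinarith
    have a2 : A ^ 2 / 88 ≤ (A * √t / 2) ^ 2 / n1 e := by
      rw [le_div_iff₀ (by linarith), div_pow, mul_pow, sq_sqrt ht.le]
      nlinarith [sq_nonneg A]
    have hn0 : 0 < n1 e := by linarith
    have a3 := mul_le_mul a2 a1 (by positivity) (by positivity)
    have a4 := mul_le_mul_of_nonneg_left a3 hc.le
    have e1 : (A * √t / 2) ^ 2 * log (n1 e / (A * √t / 2)) / n1 e =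
        (A * √t / 2) ^ 2 / n1 e * log (n1 e / (A * √t / 2)) := by ring
    have e2 : c * (A ^ 2 / 88 * (log t / 4)) = c * A ^ 2 / 352 * log t := by ring
    rw [e2, hA2] at a4
    rw [e1]
    linarith
  · by_cases hn : n1 e ≤ t / 4
    swap
    · simp [hn]
    simp only [hn, true_and]
    have a1 := lintegral_exp_wt_le (t := 1 / 2) (n := t / 4) (by norm_num) le_rfl
      ((card_stair 0 e).trans (by rwa [sub_zero]))
    have a2 := markov_exp (X := fun ω => wt ω (es (stair 0 e))) (S := 2) (s := t) (by fun_prop)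
      (by norm_num) (by simpa only [div_eq_inv_mul, mul_one] using a1)
    refine le_trans (measure_mono fun ω hω => le_trans hω (TT_le ω _))
      (a2.trans (ENNReal.ofReal_le_ofReal (le_trans (le_of_eq ?_) (h1.trans (by linarith)))))
    congr 1; ring

lemma bad_union {q : ℝ} (hq : 0 < q) : ∃ A C : ℝ, 0 < A ∧ 0 ≤ C ∧ ∀ᶠ t : ℝ in atTop,
    ∀ μ, IsTC μ → PP EE (BadU μ A t) ≤
      ENNReal.ofReal (C * t ^ (-q)) := by
  classical
  obtain ⟨A, C, hA, hC, h⟩ := bad_point (q := q + 2) (by linarith)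
  refine ⟨A, 47 ^ 2 * C, hA, by positivity, ?_⟩
  filter_upwards [h, eventually_ge_atTop 1] with t h1 h2 μ hμ
  have ht : 0 < t := by linarith
  set Z := (box 0 ⌈22 * t⌉₊).filter fun e => n1 e ≤ 22 * t with hZ
  have e1 : {e | n1 e ≤ 22 * t} = (Z : Set VV) := by
    ext e
    simp only [hZ, Finset.coe_filter, mem_ofPred_eq, iff_and_self]
    exact fun he => mem_box_of_n1 (by rw [sub_zero]; exact he.trans (Nat.le_ceil _))
  have e2 : (Z.card : ℝ) ≤ (47 * t) ^ 2 := by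
    have a1 : (Z.card : ℝ) ≤ (box 0 ⌈22 * t⌉₊).card := by exact_mod_cast Finset.card_filter_le _ _
    rw [card_box] at a1
    push_cast at a1
    refine a1.trans ?_
    gcongr
    linarith [Nat.ceil_lt_add_one (a := 22 * t) (by linarith)]
  rw [BadU, e1]
  refine (measure_biUnion_finset_le Z _).trans ((Finset.sum_le_card_nsmul _ _ _
    fun e he => h1 μ hμ e (Finset.mem_filter.1 he).2).trans ?_)
  rw [nsmul_eq_mul, ← ENNReal.ofReal_natCast, ← ENNReal.ofReal_mul (by positivity)]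
  refine ENNReal.ofReal_le_ofReal ((mul_le_mul_of_nonneg_right e2 (by positivity)).trans
    (le_of_eq ?_))
  have : t ^ (-q) = t ^ 2 * t ^ (-(q + 2)) := by
    rw [← rpow_two, ← rpow_add ht]; congr 1; ring
  rw [this]; ring

variable {μ : ℝ × ℝ → ℝ}

lemma mem_smul_ball (h : IsTC μ) {ρ : ℝ} (hρ : 0 < ρ) (x : ℝ × ℝ) :
    x ∈ ρ • {x : ℝ × ℝ | μ x ≤ 1} ↔ μ x ≤ ρ := by
  rw [mem_smul_set_iff_inv_smul_mem₀ hρ.ne', mem_ofPred_eq, h.smul _ _ (by positivity),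
    inv_mul_le_iff₀ hρ, mul_one]

lemma rpow_half_mul {t : ℝ} (ht : 0 < t) : t ^ (-(1 / 2 : ℝ)) * t = √t := by
  rw [sqrt_eq_rpow, ← rpow_add_one ht.ne']; norm_num

lemma outer_bad (h : IsTC μ) {A t : ℝ} (h1 : 4 ≤ A * √t) (h2 : A * √t ≤ t) {ω : EE → ℝ}
    (hω : ¬ ({x : ℝ × ℝ | ∃ v : ℤ × ℤ, TT ω 0 v ≤ t ∧ |x.1 - (v.1 : ℝ)| ≤ 1 / 2 ∧
      |x.2 - (v.2 : ℝ)| ≤ 1 / 2} ⊆ ((1 + A * t ^ (-(1 / 2 : ℝ))) * t) • {x : ℝ × ℝ | μ x ≤ 1})) :
    ω ∈ BadU μ A t := by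
  have ht : 0 < t := by linarith
  rw [add_mul, one_mul, mul_assoc, rpow_half_mul ht, not_subset] at hω
  obtain ⟨x, ⟨v, a1, a2, a3⟩, hx⟩ := hω
  rw [mem_smul_ball h (by linarith), not_le] at hx
  have a4 := h.le_add x (iv v)
  have a5 : r1 (x - iv v) ≤ 1 := by simp only [r1, iv, Prod.fst_sub, Prod.snd_sub]; linarith
  obtain ⟨γ, -, hγ⟩ := exists_lt_TT (show TT ω 0 v < t + 1 by linarith)
  have h0 : μ 0 = 0 := by simpa using h.smul 0 0 le_rfl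
  obtain ⟨e, p1, p2, rfl, b1, b2⟩ := crossing (φ := fun v => μ (iv v)) (fun a b hab => by
      have := h.le_add (iv b) (iv a)
      rwa [← iv_sub, r1_iv, n1_of_adj hab] at this) (c := t + A * √t - 1) γ
    (by rw [iv_zero, h0]; linarith) (by linarith)
  have b3 := wt_mono ω (show es p1 ⊆ es (p1.append p2) by
    rw [es_append]; exact Finset.subset_union_left)
  have b4 := h.le (iv e)
  have b5 := h.ge (iv e)
  rw [r1_iv] at b4 b5
  refine mem_biUnion (show n1 e ≤ 22 * t by linarith) (Or.inl ⟨by linarith, ?_⟩)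
  linarith [TT_le ω p1, neg_le_abs (TT ω 0 e - μ (iv e))]

lemma inner_bad (h : IsTC μ) {A t : ℝ} (h1 : 4 ≤ A * √t) (h2 : A * √t < t) {ω : EE → ℝ}
    (hω : ¬ (((1 - A * t ^ (-(1 / 2 : ℝ))) * t) • {x : ℝ × ℝ | μ x ≤ 1} ⊆
      {x : ℝ × ℝ | ∃ v : ℤ × ℤ, TT ω 0 v ≤ t ∧ |x.1 - (v.1 : ℝ)| ≤ 1 / 2 ∧
      |x.2 - (v.2 : ℝ)| ≤ 1 / 2})) :
    ω ∈ BadU μ A t := by
  have ht : 0 < t := by linarith
  rw [sub_mul, one_mul, mul_assoc, rpow_half_mul ht, not_subset] at hω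
  obtain ⟨x, hx, hx'⟩ := hω
  rw [mem_smul_ball h (by linarith)] at hx
  set e : VV := (round x.1, round x.2) with he
  have a2 := abs_sub_round x.1
  have a3 := abs_sub_round x.2
  have a1 : t < TT ω 0 e := lt_of_not_ge fun hc => hx' ⟨e, hc, a2, a3⟩
  have a4 := h.le_add (iv e) x
  have a5 : r1 (x - iv e) ≤ 1 := by simp only [r1, iv, he, Prod.fst_sub, Prod.snd_sub]; linarith
  rw [r1_sub_comm] at a4
  have b5 := h.ge (iv e)
  rw [r1_iv] at b5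
  refine mem_biUnion (show n1 e ≤ 22 * t by linarith) ?_
  rcases le_total (t / 4) (n1 e) with hn | hn
  · exact Or.inl ⟨hn, by linarith [le_abs_self (TT ω 0 e - μ (iv e))]⟩
  · exact Or.inr ⟨hn, a1.le⟩

lemma eventually_sqrt {A : ℝ} (hA : 0 < A) : ∀ᶠ t : ℝ in atTop, 4 ≤ A * √t ∧ A * √t < t := by
  filter_upwards [eventually_ge_atTop ((4 / A) ^ 2), eventually_gt_atTop (A ^ 2)] with t h1 h2
  have a1 := le_sqrt_of_sq_le h1
  have a2 := lt_sqrt_of_sq_lt h2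
  have a3 := mul_self_sqrt (x := t) (le_trans (sq_nonneg _) h1)
  rw [div_le_iff₀ hA] at a1
  exact ⟨by linarith, by nlinarith⟩

lemma isBigO_of_bad {Ω : Type} [MeasureSpace Ω] {Φ : Ω → EE → ℝ}
    (hΦ : MeasurePreserving Φ volume (PP EE)) {A C q : ℝ} (hC : 0 ≤ C)
    (h : ∀ᶠ t : ℝ in atTop, PP EE (BadU μ A t) ≤
      ENNReal.ofReal (C * t ^ (-q))) {E : ℝ → Set Ω}
    (hE : ∀ᶠ t : ℝ in atTop, ∀ᵐ ω ∂(volume : Measure Ω), ω ∈ E t →
      Φ ω ∈ BadU μ A t) :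
    Asymptotics.IsBigO atTop (fun t => ((volume : Measure Ω) (E t)).toReal)
      fun t : ℝ => t ^ (-q) := by
  refine Asymptotics.IsBigO.of_bound C ?_
  filter_upwards [h, hE, eventually_gt_atTop 0] with t h1 h2 ht
  have hp : 0 < t ^ (-q) := rpow_pos_of_pos ht _
  rw [Real.norm_eq_abs, Real.norm_eq_abs, abs_of_pos hp, abs_of_nonneg ENNReal.toReal_nonneg]
  refine ENNReal.toReal_le_of_le_ofReal (by positivity) (le_trans ?_ h1)
  rw [← hΦ.measure_preimage (s := BadU μ A t) (MeasurableSet.biUnion (to_countable _)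
    fun e _ => measurableSet_bad μ A t e).nullMeasurableSet]
  exact measure_mono_ae h2

end Pool.Agent.Lib.MP_de94ef_pr
end

-- part Pool.Agent.Lib.MP_de94ef_pr.Q.Defs
section

/-!
Definitions for the polynomial improvement of the fluctuation exponent.
-/

open MeasureTheory ProbabilityTheory Set Real Function Filter Topology
open scoped ENNReal NNReal

namespace Pool.Agent.Lib.MP_de94ef_pr.Q

/-! ### Environments, random revealing -/

/-- Environments. -/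
abbrev Env := EE → ℝ

/-- Pairs (marks, environment). -/
abbrev Om := Env × Env

/-- Law of an environment. -/
noncomputable abbrev PE : Measure Env := PP EE

/-- Law of a pair. -/
noncomputable abbrev P2 : Measure Om := (PP EE).prod (PP EE)

open Classical in
/-- The environment equal to `y` on `S` and to `x` off `S`. -/
noncomputable def mix (S : Set EE) (x y : Env) : Env := fun e => if e ∈ S then y e else x e

/-- The random set of hidden edges, of density `t`. -/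
def SS (t : ℝ) (ζ : Env) : Set EE := {e | exp (-max (ζ e) 0) ≤ t}

/-- Mean conditional variance given the revealed edges. -/
noncomputable def cvar (t : ℝ) (F : Env → ℝ) : ℝ :=
  ∫ ω, Var[fun y => F (mix (SS t ω.1) ω.2 y); PE] ∂P2

/-- Variance of the conditional mean given the revealed edges. -/
noncomputable def rvar (t : ℝ) (F : Env → ℝ) : ℝ :=
  ∫ ζ, Var[fun x => ∫ y, F (mix (SS t ζ) x y) ∂PE; PE] ∂PE

/-- A functional `T` with a supergradient given by the random edge set `γ`. -/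
structure SG (T : Env → ℝ) (γ : Env → Finset EE) (I : Finset EE) : Prop where
  meas : Measurable T
  mγ : ∀ e, MeasurableSet {x | e ∈ γ x}
  sub : ∀ x, γ x ⊆ I
  nonneg : ∀ x, 0 ≤ T x
  sg : ∀ x x', T x' ≤ T x + (wt x' (γ x) - wt x (γ x))

/-- One-coordinate increments of `F` are controlled by `ϖ`. -/
structure Lip (F : Env → ℝ) (ϖ : EE → Env → ℝ) (I : Finset EE) : Prop where
  meas : Measurable F
  mϖ : ∀ e, Measurable (ϖ e)
  ϖ0 : ∀ e x, 0 ≤ ϖ e x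
  ϖ1 : ∀ e x, ϖ e x ≤ 1
  dep : DependsOn F (I : Set EE)
  bd : ∃ C, ∀ x, |F x| ≤ C + wt x I
  mono : ∀ e x u s, 0 ≤ u → 0 ≤ s → F (update x e u) ≤ F (update x e (u + s))
  lip : ∀ e x u s, 0 ≤ u → 0 ≤ s →
    F (update x e (u + s)) ≤ F (update x e u) + s * ϖ e (update x e u)

open Classical in
/-- The environment lowered by `l * g` on `A`. -/
noncomputable def shift (g : EE → Env → ℝ) (l : ℝ) (A : Finset EE) (x : Env) : Env :=
  fun e => if e ∈ A then x e - l * g e x else x e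

/-- The optimal sequential perturbation. -/
structure Pert (F : Env → ℝ) (ϖ : EE → Env → ℝ) (I : Finset EE) (g d r : EE → Env → ℝ) :
    Prop where
  mg : ∀ e, Measurable (g e)
  md : ∀ e, Measurable (d e)
  mr : ∀ e, Measurable (r e)
  g0 : ∀ e x, 0 ≤ g e x
  g1 : ∀ e x, g e x ≤ max (x e) 0
  r0 : ∀ e x, 0 ≤ r e x
  r1 : ∀ e x, r e x ≤ 1
  d1 : ∀ e x, |d e x| ≤ max (x e) 0 + 1
  gain : Var[F; PE] ≤ ∑ e ∈ I, ∫ x, ϖ e x * g e x ∂PE
  cov : ∀ l : ℝ, 0 ≤ l → l ≤ 1 / 2 → ∀ A ⊆ I, ∀ G : Env → ℝ≥0∞, Measurable G →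
    ∫⁻ x, G (shift g l A x) * ENNReal.ofReal (exp (∑ e ∈ A, (l * d e x - l ^ 2 * r e x))) ∂PE ≤
      ∫⁻ x, G x ∂PE
  orth : ∀ A ⊆ I, ∫ x, (∑ e ∈ A, d e x) ^ 2 ∂PE ≤ ∑ e ∈ A, ∫ x, d e x ^ 2 ∂PE
  mean : ∀ e ∈ I, ∫ x, d e x ∂PE = 0
  rle : ∀ e ∈ I, ∫ x, r e x ∂PE ≤ ∫ x, d e x ^ 2 ∂PE
  tot : ∑ e ∈ I, ∫ x, d e x ^ 2 ∂PE ≤ Var[F; PE]

/-- Certificate bounding the gain of any perturbation (supported on `P`) on the edge set `Γ`. -/
def Cert (P : Env → Set EE) (Γ : Om → Finset EE) (θ v : ℝ) : Prop :=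
  ∃ (W : Om → ℝ≥0∞) (V : Om → ℝ), Measurable W ∧ ∫⁻ ω, W ω ∂P2 ≤ 1 ∧ Integrable V P2 ∧
    ∫ ω, V ω ∂P2 ≤ v ∧ ∀ ζ X X' : Env, (∀ e, max (X' e) 0 ≤ max (X e) 0) →
      (∀ e, e ∉ P ζ → X' e = X e) →
      ENNReal.ofReal (exp (θ * (wt X (Γ (ζ, X)) - wt X' (Γ (ζ, X))) - V (ζ, X))) ≤ W (ζ, X')

/-- Localised certificate for an edge set that is unlikely to meet any given region. -/
def LCert (t : ℝ) (Γ : Om → Finset EE) (θ v q μ0 N : ℝ) : Prop :=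
  ∃ (𝔅 : Finset (ℕ × ℤ)) (Rg : ℕ × ℤ → Finset EE) (Sel : Om → Finset (ℕ × ℤ))
    (W : Finset (ℕ × ℤ) → Om → ℝ≥0∞) (V : Om → ℝ),
    (∀ ω, Sel ω ⊆ 𝔅) ∧ (∀ B, MeasurableSet {ω | B ∈ Sel ω}) ∧
    (∀ ω, ∀ B ∈ Sel ω, ∀ B' ∈ Sel ω, B ≠ B' → Disjoint (Rg B) (Rg B')) ∧
    (∀ e, ((𝔅.filter fun B => e ∈ Rg B).card : ℝ) ≤ μ0) ∧
    (∀ ζ x B, PE {y | B ∈ Sel (ζ, mix (SS t ζ) x y)} ≤ ENNReal.ofReal q) ∧
    (∀ ω, ((Sel ω).card : ℝ) ≤ N) ∧ (∀ ω, Γ ω ⊆ (Sel ω).biUnion Rg) ∧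
    (∀ Z, Measurable (W Z)) ∧ ∑ Z ∈ 𝔅.powerset, ∫⁻ ω, W Z ω ∂P2 ≤ 1 ∧ Integrable V P2 ∧
    ∫ ω, V ω ∂P2 ≤ v ∧ ∀ ζ X X' : Env, (∀ e, max (X' e) 0 ≤ max (X e) 0) →
      ENNReal.ofReal (exp (θ * (wt X (Γ (ζ, X)) - wt X' (Γ (ζ, X))) - V (ζ, X))) ≤
        W (Sel (ζ, X)) (ζ, X')

/-! ### Scales -/

/-- Admissible scale functions. -/
structure Sc (σ : ℝ → ℝ) : Prop where
  nonneg : ∀ r, 0 ≤ r → 0 ≤ σ r
  mono : ∀ r r', 0 ≤ r → r ≤ r' → σ r ≤ σ r'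
  mul : ∀ r k, 0 ≤ r → 1 ≤ k → σ (k ^ 2 * r) ≤ k * σ r
  half : ∀ r, 0 ≤ r → σ (r / 2) ≤ 3 / 4 * σ r
  big : ∀ r, 1 ≤ r → 10 ^ 30 ≤ σ r

/-- Concentration at scale `σ` up to distance `R`. -/
def Conc (σ : ℝ → ℝ) (R : ℝ) : Prop :=
  ∀ (x y : VV) (r : ℝ), n1 (y - x) ≤ r → 1 ≤ r → r ≤ R →
    Dom (fun ω z => z = TT ω x y) (hh (y - x)) (σ r) ∧
      Dom (fun ω z => z = -TT ω x y) (-hh (y - x)) (σ r)

/-- Non-random fluctuations at scale `σ` up to distance `R`. -/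
def UpB (μ : ℝ × ℝ → ℝ) (σ : ℝ → ℝ) (B R : ℝ) : Prop :=
  ∀ (y : VV) (r : ℝ), μ (iv y) ≤ r → r ≤ R → hh y ≤ μ (iv y) + B * σ r

/-- Upper deviations from the time constant. -/
def EstU (μ : ℝ × ℝ → ℝ) (σ : ℝ → ℝ) (B X R : ℝ) : Prop :=
  ∀ (x y : VV) (r : ℝ), n1 (y - x) ≤ r → 1 ≤ r → r ≤ R →
    Dom (fun ω z => z = TT ω x y - μ (iv (y - x))) (B * σ r) (σ r / X)

/-- Lower deviations from the time constant. -/
def EstD (μ : ℝ × ℝ → ℝ) (σ : ℝ → ℝ) (B X R : ℝ) : Prop :=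
  ∀ (x y : VV) (r : ℝ), n1 (y - x) ≤ r → 1 ≤ r → r ≤ R →
    Dom (fun ω z => z = μ (iv (y - x)) - TT ω x y) (B * σ r) (σ r / X)

/-- Local data: time constant, scale, range of the induction hypothesis, block length. -/
structure Bs where
  μ : ℝ × ℝ → ℝ
  σ : ℝ → ℝ
  R : ℝ
  m : ℝ

/-- Fluctuation scale of a block. -/
def Bs.s (c : Bs) : ℝ := c.σ c.m

/-- Relative precision of a block. -/
noncomputable def Bs.κ (c : Bs) : ℝ := c.σ c.m / c.m

/-- All scales are separated by the factor `K`. -/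
structure Bs.Big (c : Bs) (K : ℝ) : Prop where
  tc : IsTC c.μ
  sc : Sc c.σ
  conc : Conc c.σ c.R
  big : ∀ r, 1 ≤ r → K ≤ c.σ r
  one : 1 ≤ c.m
  small : K * c.σ c.m ≤ c.m
  large : K * c.m ≤ c.R

lemma Bs.Big.mono {c : Bs} {K K' : ℝ} (h : c.Big K') (hK : K ≤ K') : c.Big K := by
  have h1 := h.one
  have h2 := h.sc.nonneg c.m (by linarith)
  exact ⟨h.tc, h.sc, h.conc, fun r hr => hK.trans (h.big r hr), h.one,
    (mul_le_mul_of_nonneg_right hK h2).trans h.small,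
    (mul_le_mul_of_nonneg_right hK (by linarith)).trans h.large⟩

/-- The filter of well separated local data. -/
def FB : Filter Bs where
  sets := {S | ∃ K : ℝ, ∀ c : Bs, c.Big K → c ∈ S}
  univ_sets := ⟨0, fun _ _ => trivial⟩
  sets_of_superset := fun ⟨K, h⟩ hS => ⟨K, fun c hc => hS (h c hc)⟩
  inter_sets := fun ⟨K, h⟩ ⟨K', h'⟩ => ⟨max K K', fun c hc =>
    ⟨h c (hc.mono (le_max_left _ _)), h' c (hc.mono (le_max_right _ _))⟩⟩

lemma ev_iff {P : Bs → Prop} : (∀ᶠ c in FB, P c) ↔ ∃ K : ℝ, ∀ c : Bs, c.Big K → P c := Iff.rfl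

lemma ev_big (K : ℝ) : ∀ᶠ c in FB, c.Big K := ⟨K, fun _ h => h⟩

/-! ### Frames -/

/-- Data of a frame. -/
structure Fd where
  u : ℝ × ℝ
  t : ℝ × ℝ
  a : ℝ × ℝ →ₗ[ℝ] ℝ
  b : ℝ × ℝ →ₗ[ℝ] ℝ
  L : ℝ × ℝ →ₗ[ℝ] ℝ

/-- The point with coordinates `(α, β)`. -/
def Fd.pt (f : Fd) (α β : ℝ) : ℝ × ℝ := α • f.u + β • f.t

/-- The reversed frame. -/
def Fd.neg (f : Fd) : Fd := ⟨-f.u, f.t, -f.a, f.b, -f.L⟩

/-- A frame adapted to `μ` at precision `κ`. -/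
structure Fr (μ : ℝ × ℝ → ℝ) (κ ϱ : ℝ) (f : Fd) : Prop where
  κpos : 0 < κ
  ϱge : 1 ≤ ϱ
  κle : (ϱ + 1) * κ ≤ 1
  dec : ∀ v, v = f.a v • f.u + f.b v • f.t
  au : f.a f.u = 1
  at' : f.a f.t = 0
  bu : f.b f.u = 0
  bt : f.b f.t = 1
  ha : ∀ v, f.a v ≤ μ v
  up : ∀ v, |f.b v| ≤ f.a v → μ v ≤ f.L v + κ * f.a v
  low : ∀ v, f.L v + κ * (|f.b v| - 2 * max (f.a v) 0) ≤ μ v
  La : ∀ v, |f.L v - f.a v| ≤ ϱ * κ * (|f.a v| + |f.b v|)

/-- `f'` is a frame centred at a cheap direction of `f`, with transversal ratio `l`. -/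
structure Thin (μ : ℝ × ℝ → ℝ) (κ K l : ℝ) (f f' : Fd) : Prop where
  fr : Fr μ κ (2 * K + 4) f'
  ha : f'.a = f.a
  ht : f'.t = l • f.t
  pos : 0 < l
  Lu : f'.L f'.u = μ f'.u
  cheap : μ f'.u ≤ f.L f'.u + K * κ

/-- Lattice points of the square of side `r` with corner `z`. -/
def Sq (f : Fd) (z : ℝ × ℝ) (r : ℝ) (q : VV) : Prop :=
  0 ≤ f.a (iv q - z) ∧ f.a (iv q - z) ≤ r ∧ 0 ≤ f.b (iv q - z) ∧ f.b (iv q - z) ≤ r

/-- All vectors near `Δ` have cost at most `Φ`. -/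
def Cheap (μ : ℝ × ℝ → ℝ) (f : Fd) (Δ : ℝ × ℝ) (τ Φ : ℝ) : Prop :=
  ∀ ζ, |f.a (ζ - Δ)| ≤ τ → |f.b (ζ - Δ)| ≤ τ → μ ζ ≤ f.L ζ + Φ

open Classical in
/-- A piece of slab. -/
noncomputable def Sl (f : Fd) (z : ℝ × ℝ) (α α' : ℝ) : Finset VV :=
  (box (fl z) ⌈100 * (α' - α)⌉₊).filter fun w => α ≤ f.a (iv w) ∧ f.a (iv w) < α'

open Classical in
/-- A tube of length `6 m` and half width `K m`. -/
noncomputable def Nb (f : Fd) (m K : ℝ) (o : VV) : Finset VV :=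
  (box o ⌈200 * (K + 1) * m⌉₊).filter fun w =>
    -m ≤ f.a (iv (w - o)) ∧ f.a (iv (w - o)) < 5 * m ∧ |f.b (iv (w - o))| ≤ K * m

/-- The inner part of a tube. -/
def In (f : Fd) (m K : ℝ) (o w : VV) : Prop :=
  -(m / 2) ≤ f.a (iv (w - o)) ∧ f.a (iv (w - o)) ≤ 9 / 2 * m ∧ |f.b (iv (w - o))| ≤ K * m

/-- There is a walk inside `A` of weight at most `θ`. -/
def Reach (A : Finset VV) (q q' : VV) (θ : ℝ) (ω : Env) : Prop :=
  ∃ p : GG.Walk q q', (∀ w ∈ p.support, w ∈ A) ∧ wt ω (es p) ≤ θ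

/-- Passage time inside `A`, truncated at `K`. -/
noncomputable def TC (A : Finset VV) (K : ℝ) (q q' : VV) : Env → ℝ :=
  val (cT K (A := A) (u := q) (v := q')) pT

/-- Displacement between anchors of consecutive cells. -/
noncomputable def yk (f : Fd) (m : ℝ) (k : ℤ) : VV := fl (f.pt (4 * m) (k * m))

/-- Truncated passage time along a tube. -/
noncomputable def FF (f : Fd) (m K : ℝ) (k : ℤ) (o : VV) : Env → ℝ :=
  TC (Nb f m K o) (f.L (iv (yk f m k))) o (o + yk f m k)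

/-- All passage times in a box are within `s` of the time constant. -/
def Cr (μ : ℝ × ℝ → ℝ) (o : VV) (ρ : ℕ) (s : ℝ) (ω : Env) : Prop :=
  ∀ q ∈ box o ρ, ∀ q' ∈ box o ρ, |TT ω q q' - μ (iv (q' - q))| ≤ s

/-! ### Geodesics -/

lemma exists_argmin {I : Type} [Countable I] [Nonempty I] (f : I → Env → ℝ)
    (hm : ∀ i, Measurable (f i)) (h : ∀ ω, ∃ i, ∀ j, f i ω ≤ f j ω) :
    ∃ sel : Env → I, (∀ i, MeasurableSet {ω | sel ω = i}) ∧ ∀ ω j, f (sel ω) ω ≤ f j ω := by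
  classical
  obtain ⟨e, he⟩ := exists_surjective_nat I
  have h1 : ∀ ω, ∃ n, ω ∈ {ω | ∀ j, f (e n) ω ≤ f j ω} := fun ω => by
    obtain ⟨i, hi⟩ := h ω
    obtain ⟨n, rfl⟩ := he i
    exact ⟨n, hi⟩
  have h2 : ∀ n, MeasurableSet {ω | ∀ j, f (e n) ω ≤ f j ω} := fun n => by
    rw [ofPred_forall]
    exact MeasurableSet.iInter fun j => measurableSet_le (hm _) (hm _)
  have h3 : Measurable fun ω => Nat.find (h1 ω) := measurable_find h1 h2
  exact ⟨fun ω => e (Nat.find (h1 ω)), fun i => h3 (t := {n | e n = i}) trivial,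
    fun ω => Nat.find_spec (h1 ω)⟩

lemma exists_min_wt {I : Type} [Nonempty I] (ρ : I → Finset EE) (E : Finset EE)
    (h : ∀ i, ρ i ⊆ E) (ω : Env) : ∃ i, ∀ j, wt ω (ρ i) ≤ wt ω (ρ j) := by
  classical
  have hf : (range ρ).Finite :=
    (E.powerset.finite_toSet).subset (by rintro _ ⟨i, rfl⟩; simpa using h i)
  obtain ⟨_, ⟨i, rfl⟩, hi⟩ := exists_min_image _ (wt ω) hf (range_nonempty ρ)
  exact ⟨i, fun j => hi _ ⟨j, rfl⟩⟩

/-- The box in which geodesics are taken. -/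
noncomputable def Lam (v : VV) : Finset VV := box 0 (30 * ⌈n1 v⌉₊)

lemma stair_Lam (v : VV) : ∀ w ∈ (stair 0 v).support, w ∈ Lam v :=
  stair_mem (by
    rw [sub_zero]
    have h1 := Nat.le_ceil (n1 v)
    have h2 := n1_nonneg v
    push_cast; linarith)

lemma es_subset_sym2 {A : Finset VV} {u v : VV} {p : GG.Walk u v} (hp : ∀ w ∈ p.support, w ∈ A) :
    es p ⊆ A.sym2 := fun _ he =>
  Finset.mem_sym2_iff.2 fun w hw => hp w (p.mem_support_of_mem_edges (mem_es.1 he) hw)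

lemma exists_geo (v : VV) : ∃ geo : Env → GG.Walk 0 v, (∀ p, MeasurableSet {ω | geo ω = p}) ∧
    ∀ ω, (geo ω).IsPath ∧ (∀ w ∈ (geo ω).support, w ∈ Lam v) ∧
      ∀ p : GG.Walk 0 v, (∀ w ∈ p.support, w ∈ Lam v) → wt ω (es (geo ω)) ≤ wt ω (es p) := by
  classical
  let I := {p : GG.Walk 0 v // p.IsPath ∧ ∀ w ∈ p.support, w ∈ Lam v}
  have key : ∀ p : GG.Walk 0 v, (∀ w ∈ p.support, w ∈ Lam v) → ∃ q : I, es q.1 ⊆ es p :=
    fun p hp => ⟨⟨p.bypass, p.bypass_isPath, fun w hw => hp w (p.support_bypass_subset_support hw)⟩,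
      fun e he => mem_es.2 (p.edges_bypass_subset_edges (mem_es.1 he))⟩
  have : Nonempty I := ⟨(key _ (stair_Lam v)).choose⟩
  obtain ⟨sel, h1, h2⟩ := exists_argmin (I := I) (fun p ω => wt ω (es p.1))
    (fun p => measurable_wt _)
    (exists_min_wt (fun p : I => es p.1) (Lam v).sym2 fun p => es_subset_sym2 p.2.2)
  refine ⟨fun ω => (sel ω).1, fun p => ?_, fun ω => ⟨(sel ω).2.1, (sel ω).2.2, fun p hp => ?_⟩⟩
  · have : {ω | (sel ω).1 = p} = ⋃ i : {i : I // i.1 = p}, {ω | sel ω = i.1} := by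
      ext ω
      simp only [mem_ofPred_eq, mem_iUnion]
      exact ⟨fun h => ⟨⟨sel ω, h⟩, rfl⟩, fun ⟨i, hi⟩ => by rw [hi]; exact i.2⟩
    rw [this]
    exact MeasurableSet.iUnion fun i => h1 _
  · obtain ⟨q, hq⟩ := key p hp
    exact (h2 ω q).trans (wt_mono ω hq)

/-- A measurable choice of an optimal path from `0` to `v` inside `Lam v`. -/
noncomputable def geo (v : VV) : Env → GG.Walk 0 v := (exists_geo v).choose

lemma measurableSet_geo (v : VV) (p : GG.Walk 0 v) : MeasurableSet {ω | geo v ω = p} :=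
  (exists_geo v).choose_spec.1 p

lemma geo_isPath (v : VV) (ω : Env) : (geo v ω).IsPath := ((exists_geo v).choose_spec.2 ω).1

lemma geo_mem (v : VV) (ω : Env) : ∀ w ∈ (geo v ω).support, w ∈ Lam v :=
  ((exists_geo v).choose_spec.2 ω).2.1

lemma geo_le (v : VV) (ω : Env) (p : GG.Walk 0 v) (hp : ∀ w ∈ p.support, w ∈ Lam v) :
    wt ω (es (geo v ω)) ≤ wt ω (es p) := ((exists_geo v).choose_spec.2 ω).2.2 p hp

/-- Passage time inside `Lam v`. -/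
noncomputable def TB (v : VV) (ω : Env) : ℝ := wt ω (es (geo v ω))

/-- Edges of the part of a walk between two times. -/
noncomputable def Es {x y : VV} (p : GG.Walk x y) (k k' : ℕ) : Finset EE :=
  (Finset.Ico k k').image fun j => s(p.getVert j, p.getVert (j + 1))

/-- Geodesics. -/
def IsGeo (ω : Env) {x y : VV} (p : GG.Walk x y) : Prop := p.IsPath ∧ wt ω (es p) ≤ TT ω x y

/-- Walks that progress in the direction `a` up to an error `s`. -/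
def Straight (μ : ℝ × ℝ → ℝ) (a : ℝ × ℝ →ₗ[ℝ] ℝ) (s : ℝ) {x y : VV} (p : GG.Walk x y) : Prop :=
  ∀ k k', k ≤ k' → k' ≤ p.length →
    μ (iv (p.getVert k' - p.getVert k)) ≤ a (iv (p.getVert k' - p.getVert k)) + s

/-- The chosen path is a straight geodesic. -/
def Nice (μ : ℝ × ℝ → ℝ) (a : ℝ × ℝ →ₗ[ℝ] ℝ) (v : VV) (s : ℝ) (ω : Env) : Prop :=
  IsGeo ω (geo v ω) ∧ Straight μ a s (geo v ω)

/-- The event `Nice` fails rarely. -/
def Rare (μ : ℝ × ℝ → ℝ) (a : ℝ × ℝ →ₗ[ℝ] ℝ) (v : VV) (s η : ℝ) : Prop :=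
  PE {ω | ¬ Nice μ a v s ω} ≤ ENNReal.ofReal (η / (n1 v + 1) ^ 2)

open Classical in
/-- First time the level `α` is reached (the end if `α` is the final level). -/
noncomputable def hit (a : ℝ × ℝ →ₗ[ℝ] ℝ) {x y : VV} (p : GG.Walk x y) (α : ℝ) : ℕ :=
  if α < a (iv y) then sInf {k | α ≤ a (iv (p.getVert k))} else p.length

section level

variable (f : Fd) (m : ℝ) {v : VV} (p : GG.Walk 0 v)

/-- Starting time of block `i`. -/
noncomputable def tk (i : ℕ) : ℕ := hit f.a p (i * m)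

/-- Starting point of block `i`. -/
noncomputable def xs (i : ℕ) : VV := p.getVert (tk f m p i)

/-- Cell of the starting point of block `i`. -/
noncomputable def cs (i : ℕ) : ℤ := ⌊f.b (iv (xs f m p i)) / m⌋

/-- Edges of block `i`. -/
noncomputable def Eb (i : ℕ) : Finset EE := Es p (tk f m p i) (tk f m p (i + 1))

/-- Excess of block `i`. -/
noncomputable def ex (ω : Env) (i : ℕ) : ℝ :=
  wt ω (Eb f m p i) - f.L (iv (xs f m p (i + 1) - xs f m p i))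

/-- Transversal spread of block `i`. -/
noncomputable def Dd (i : ℕ) : ℝ :=
  (((Finset.Icc (tk f m p i) (tk f m p (i + 1))).sup fun k =>
    ‖f.b (iv (p.getVert k - xs f m p i)) / m‖₊ : ℝ≥0) : ℝ)

end level

/-- Corner of a cell. -/
def zc (f : Fd) (m : ℝ) (i : ℕ) (k : ℤ) : ℝ × ℝ := f.pt (i * m) (k * m)

/-- The target `v` consists of `M` blocks in the tangent frame `f`. -/
structure Top (c : Bs) (f : Fd) (v : VV) (M : ℕ) (s : ℝ) : Prop where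
  fr : Fr c.μ c.κ 1 f
  Lu : f.L f.u = 1
  hv : iv v = ((M : ℝ) * c.m) • f.u
  hμ : c.μ (iv v) = M * c.m
  hR : n1 v ≤ 2 * c.R
  hM : 1 ≤ M
  s0 : 0 ≤ s
  s1 : s ≤ c.m / 25

/-- A measurable random set of blocks. -/
def Flags (c : Bs) (f : Fd) (v : VV) (M : ℕ) (s : ℝ) (F : Om → Finset ℕ) : Prop :=
  (∀ i, MeasurableSet {ω | i ∈ F ω}) ∧ ∀ ω, ∀ i ∈ F ω, i < M ∧ Nice c.μ f.a v s ω.2

/-- Edges of the chosen blocks. -/
noncomputable def Gam (f : Fd) (m : ℝ) (v : VV) (F : Om → Finset ℕ) (ω : Om) : Finset EE :=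
  (F ω).biUnion (Eb f m (geo v ω.2))

open Classical in
/-- The other blocks. -/
noncomputable def Rest (c : Bs) (f : Fd) (v : VV) (M : ℕ) (s : ℝ) (F : Om → Finset ℕ) (ω : Om) :
    Finset ℕ := if Nice c.μ f.a v s ω.2 then Finset.range M \ F ω else ∅

open Classical in
/-- The whole path, when it is not a straight geodesic. -/
noncomputable def Odd (μ : ℝ × ℝ → ℝ) (a : ℝ × ℝ →ₗ[ℝ] ℝ) (v : VV) (s : ℝ) (ω : Om) :
    Finset EE := if Nice μ a v s ω.2 then ∅ else es (geo v ω.2)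

open Classical in
/-- Total spread. -/
noncomputable def DS (c : Bs) (f : Fd) (v : VV) (M : ℕ) (s : ℝ) (X : Env) : ℝ :=
  if Nice c.μ f.a v s X then ∑ i ∈ Finset.range M, Dd f c.m (geo v X) i else 0

open Classical in
/-- Total excess. -/
noncomputable def ES (c : Bs) (f : Fd) (v : VV) (M : ℕ) (s : ℝ) (X : Env) : ℝ :=
  if Nice c.μ f.a v s X then ∑ i ∈ Finset.range M, |ex f c.m (geo v X) X i| else 0

/-! ### Locality and labels -/

/-- `W` depends only on the marks and weights in `E`. -/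
def LocOn {β : Type} (E : Finset EE) (W : Om → β) : Prop :=
  ∀ ω ω' : Om, (∀ e ∈ E, ω.1 e = ω'.1 e ∧ ω.2 e = ω'.2 e) → W ω = W ω'

/-- `E` lies in the slab `α ≤ a < α'`. -/
def InR (a : ℝ × ℝ →ₗ[ℝ] ℝ) (α α' : ℝ) (E : Finset EE) : Prop :=
  ∀ e ∈ E, ∀ w ∈ e, α ≤ a (iv w) ∧ a (iv w) < α'

/-- `W` depends only on finitely many edges of the slab `α ≤ a < α'`. -/
def Loc {β : Type} (a : ℝ × ℝ →ₗ[ℝ] ℝ) (α α' : ℝ) (W : Om → β) : Prop :=
  ∃ E, InR a α α' E ∧ LocOn E W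

/-- Local domination in exponential moment. -/
def LDom (a : ℝ × ℝ →ₗ[ℝ] ℝ) (α α' : ℝ) (A : Om → ℝ → Prop) (d s : ℝ) : Prop :=
  ∃ W : Om → ℝ≥0∞, Measurable W ∧ Loc a α α' W ∧
    (∀ ω z, A ω z → ENNReal.ofReal (exp ((z - d) / s)) ≤ W ω) ∧ ∫⁻ ω, W ω ∂P2 ≤ 3

/-- Labels of `M` blocks. -/
abbrev Cfg (M : ℕ) := Fin M → ℤ × ℤ × Bool

/-- Step of the skeleton. -/
def Cfg.k {M : ℕ} (ξ : Cfg M) (i : ℕ) : ℤ := if h : i < M then (ξ ⟨i, h⟩).1 else 0

/-- Auxiliary label. -/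
def Cfg.d {M : ℕ} (ξ : Cfg M) (i : ℕ) : ℤ := if h : i < M then (ξ ⟨i, h⟩).2.1 else 0

/-- Skeleton. -/
def Cfg.c {M : ℕ} (ξ : Cfg M) (i : ℕ) : ℤ := ∑ j ∈ Finset.range i, ξ.k j

/-- Flagged blocks. -/
def Cfg.fl {M : ℕ} (ξ : Cfg M) : Finset ℕ :=
  (Finset.univ.filter fun i : Fin M => (ξ i).2.2 = true).map Fin.valEmbedding

/-- Size of a label. -/
noncomputable def Cfg.size {M : ℕ} (ξ : Cfg M) : ℝ :=
  ∑ i ∈ Finset.range M, (|(ξ.k i : ℝ)| + |(ξ.d i : ℝ)|)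

/-- The slabs of the flagged blocks are disjoint. -/
def Cfg.Valid {M : ℕ} (ξ : Cfg M) (lo hi : ℕ → ℝ) : Prop :=
  ∀ i ∈ ξ.fl, ∀ i' ∈ ξ.fl, i < i' → hi i ≤ lo i'

/-! ### Good blocks -/

/-- Upper event between two squares. -/
def UE (f : Fd) (r C : ℝ) (z z' : ℝ × ℝ) (α α' : ℝ) (X : Env) : Prop :=
  ∀ q q', Sq f z r q → Sq f z' r q' → Reach (Sl f z α α') q q' (f.L (iv (q' - q)) + C) X

/-- Lower event between two squares. -/
def LE (f : Fd) (κ r ρ C : ℝ) (z z' : ℝ × ℝ) (A : Finset VV) (X : Env) : Prop :=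
  ∀ q q', Sq f z r q → Sq f z' r q' → n1 (q' - q) ≤ ρ → ∀ p : GG.Walk q q',
    (∀ w ∈ p.support, w ∈ A) →
      f.L (iv (q' - q)) + κ * |f.b (iv (q' - q))| - C ≤ wt X (es p)

/-- Parameters of the detours. -/
structure Pm where
  K1 : ℕ
  G : ℕ
  Y0 : ℕ
  K2 : ℕ
  K3 : ℕ
  nt : ℕ
  Lt : ℕ
  Y : ℕ
  C2 : ℝ
  CL : ℝ
  CF : ℝ
  Rr : ℝ
  p : ℝ

/-- Side of the squares around the tubes. -/
def Pm.N (P : Pm) : ℕ := 2 * P.K1 + 2

/-- Half length of the middle region. -/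
def Pm.g (P : Pm) : ℕ := P.G + P.N + 10

/-- Side of the big squares. -/
def Pm.N' (P : Pm) : ℕ := 2 * P.G + P.N + 20

/-- Numerical constraints. -/
structure Pm.OK (P : Pm) : Prop where
  h1 : 3 ≤ P.K1
  h3 : 3 * P.N ≤ P.G
  h4 : 0 ≤ P.C2
  h5 : P.K1 + 2 + 3 * P.C2 ≤ P.K2
  h6 : P.K2 + P.K3 + 4 ≤ P.Y0
  h7 : 2 * P.K1 + 3 ≤ P.Y0
  h8 : P.G + 8 + 3 * P.N ≤ P.Y
  h9 : P.K3 + P.nt * P.Y0 + P.K1 + P.K2 + 2 + 3 * P.N ≤ P.Y
  h10 : P.g ≤ P.Lt
  h11 : 0 ≤ P.CL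
  h12 : 3 * P.CL + P.C2 < P.Rr
  h13 : 0 < P.p

section good

variable (c : Bs) (f : Fd) (P : Pm)

/-- Height of the detour number `r`. -/
def hb (cc : ℤ) (r : ℕ) : ℝ := ((cc : ℝ) + r * P.Y0) * c.m

/-- Origin of the left tube. -/
noncomputable def om (i : ℕ) (cc : ℤ) (r : ℕ) : VV :=
  fl (f.pt (((i : ℝ) - P.G - 5) * c.m) (hb c P cc r))

/-- Origin of the right tube. -/
noncomputable def op (i : ℕ) (cc : ℤ) (r : ℕ) : VV :=
  fl (f.pt (((i : ℝ) + 2 + P.G) * c.m) (hb c P cc r))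

/-- Corner of a square around the left tube. -/
def zm (i : ℕ) (cc : ℤ) (r : ℕ) : ℝ × ℝ :=
  f.pt (((i : ℝ) - P.G - 7) * c.m) (hb c P cc r - (P.K1 + 1) * c.m)

/-- Corner of a square around the right tube. -/
def zp (i : ℕ) (cc : ℤ) (r : ℕ) : ℝ × ℝ :=
  f.pt (((i : ℝ) + P.G) * c.m) (hb c P cc r - (P.K1 + 1) * c.m)

/-- Corner of the square above the band. -/
def ru (i : ℕ) (cc : ℤ) (r : ℕ) : ℝ × ℝ :=
  f.pt (((i : ℝ) - P.G - 8) * c.m) (hb c P cc r + P.K2 * c.m)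

/-- Corner of the square below the band. -/
def rd (i : ℕ) (cc : ℤ) (r : ℕ) : ℝ × ℝ :=
  f.pt (((i : ℝ) - P.G - 8) * c.m) (hb c P cc r - (P.K2 + P.N') * c.m)

/-- Edges of the two tubes. -/
noncomputable def EN (i : ℕ) (cc : ℤ) (r : ℕ) : Finset EE :=
  (Nb f c.m P.K1 (om c f P i cc r)).sym2 ∪ (Nb f c.m P.K1 (op c f P i cc r)).sym2

/-- Left end of the chords of block `i`. -/
def il (i : ℕ) : ℕ := (i / P.Lt - 1) * P.Lt

/-- Right end of the chords of block `i`. -/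
def ir (i : ℕ) : ℕ := (i / P.Lt + 2) * P.Lt

/-- Cheap connections to the left tube. -/
def U1 (i : ℕ) (cl cc : ℤ) (r : ℕ) : Env → Prop :=
  UE f (P.N * c.m) (P.CL * c.s) (zc f c.m (il P i) cl) (zm c f P i cc r)
    (((i : ℝ) - 3 * P.Lt) * c.m) (((i : ℝ) + 3 * P.Lt) * c.m)

/-- Cheap connections between the tubes. -/
def U2 (i : ℕ) (cc : ℤ) (r : ℕ) : Env → Prop :=
  UE f (P.N * c.m) (P.C2 * c.s) (zm c f P i cc r) (zp c f P i cc r)
    (((i : ℝ) - P.g) * c.m) (((i : ℝ) + P.g) * c.m)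

/-- Cheap connections from the right tube. -/
def U3 (i : ℕ) (cc cr : ℤ) (r : ℕ) : Env → Prop :=
  UE f (P.N * c.m) (P.CL * c.s) (zp c f P i cc r) (zc f c.m (ir P i) cr)
    (((i : ℝ) - 3 * P.Lt) * c.m) (((i : ℝ) + 3 * P.Lt) * c.m)

/-- No cheap exit from the band. -/
def Lw (i : ℕ) (cc : ℤ) (r : ℕ) (X : Env) : Prop :=
  ∀ z ∈ ({ru c f P i cc r, rd c f P i cc r} : Set (ℝ × ℝ)),
    LE f c.κ (P.N' * c.m) (11 * P.N' * c.m) (P.C2 * c.s) (zm c f P i cc r) z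
      (Sl f (zm c f P i cc r) (((i : ℝ) - P.g) * c.m) (((i : ℝ) + P.g) * c.m)) X ∧
    LE f c.κ (P.N' * c.m) (11 * P.N' * c.m) (P.C2 * c.s) z (zp c f P i cc r)
      (Sl f (zm c f P i cc r) (((i : ℝ) - P.g) * c.m) (((i : ℝ) + P.g) * c.m)) X

/-- The tube at `o` is fast. -/
def Fast (k : ℤ) (o : VV) (X : Env) : Prop :=
  FF f c.m P.K1 k o X ≤ f.L (iv (yk f c.m k)) - P.Rr * c.s

/-- Given the revealed edges, the tube at `o` has a chance to be fast. -/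
def Qe (k : ℤ) (t : ℝ) (o : VV) (ω : Om) : Prop :=
  ENNReal.ofReal P.p ≤ PE {z | Fast c f P k o (mix (SS t ω.1) ω.2 z)}

/-- `U` is likely after resampling the hidden edges of `E`. -/
def Hat (t : ℝ) (U : Env → Prop) (E : Finset EE) (ω : Om) : Prop :=
  PE {z | ¬ U (mix (SS t ω.1 ∩ E) ω.2 z)} ≤ 1 / 6

/-- The chord between two cells leaves room for detours. -/
def Fat (i : ℕ) (k : ℤ) (i' : ℕ) (k' : ℤ) : Prop :=
  Cheap c.μ f (zc f c.m i' k' - zc f c.m i k) (P.Y * c.m) (P.CF * P.Lt * c.s)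

/-- The left chord of block `i` is fat. -/
def FatL {v : VV} (p : GG.Walk 0 v) (i : ℕ) : Prop :=
  Fat c f P (il P i) (cs f c.m p (il P i)) (i + 1) (cs f c.m p (i + 1))

/-- The right chord of block `i` is fat. -/
def FatR {v : VV} (p : GG.Walk 0 v) (i : ℕ) : Prop :=
  Fat c f P i (cs f c.m p i) (ir P i) (cs f c.m p (ir P i))

/-- Typical events around a block with given cells. -/
def Typ (t : ℝ) (i : ℕ) (cl cc cr : ℤ) (r : ℕ) (ω : Om) : Prop :=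
  U1 c f P i cl cc r ω.2 ∧ U3 c f P i cc cr r ω.2 ∧ Lw c f P i cc r ω.2 ∧
    Hat t (U1 c f P i cl cc r) (EN c f P i cc r) ω ∧
    Hat t (U2 c f P i cc r) (EN c f P i cc r) ω ∧
    Hat t (U3 c f P i cc cr r) (EN c f P i cc r) ω

/-- Good blocks. -/
def Gd (k : ℤ) (t : ℝ) (M : ℕ) {v : VV} (p : GG.Walk 0 v) (i : ℕ) (ω : Om) : Prop :=
  2 * P.Lt ≤ i ∧ i + 2 * P.Lt ≤ M ∧ Dd f c.m p i ≤ P.K3 ∧
    ∑ j ∈ Finset.Ico (il P i) (ir P i), |ex f c.m p ω.2 j| ≤ P.CL * c.s ∧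
    FatL c f P p i ∧ FatR c f P p i ∧
    (∃ r ∈ Finset.Icc 1 P.nt,
      Qe c f P k t (om c f P i (cs f c.m p i) r) ω ∧
        Qe c f P k t (op c f P i (cs f c.m p i) r) ω) ∧
    ∀ r ∈ Finset.Icc 1 P.nt,
      Typ c f P t i (cs f c.m p (il P i)) (cs f c.m p i) (cs f c.m p (ir P i)) r ω

open Classical in
/-- The set of good blocks. -/
noncomputable def GdF (k : ℤ) (t : ℝ) (v : VV) (M : ℕ) (s : ℝ) (ω : Om) : Finset ℕ :=
  (Finset.range M).filter fun i => Nice c.μ f.a v s ω.2 ∧ Gd c f P k t M (geo v ω.2) i ω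

open Classical in
/-- Blocks whose left chord is not fat. -/
noncomputable def ThL (v : VV) (M : ℕ) (s : ℝ) (ω : Om) : Finset ℕ :=
  (Finset.range M).filter fun i => Nice c.μ f.a v s ω.2 ∧ 2 * P.Lt ≤ i ∧ i + 2 * P.Lt ≤ M ∧
    ¬ FatL c f P (geo v ω.2) i

open Classical in
/-- Blocks whose right chord is not fat. -/
noncomputable def ThR (v : VV) (M : ℕ) (s : ℝ) (ω : Om) : Finset ℕ :=
  (Finset.range M).filter fun i => Nice c.μ f.a v s ω.2 ∧ 2 * P.Lt ≤ i ∧ i + 2 * P.Lt ≤ M ∧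
    ¬ FatR c f P (geo v ω.2) i

open Classical in
/-- Atypical blocks. -/
noncomputable def BadF (k : ℤ) (t : ℝ) (v : VV) (M : ℕ) (s : ℝ) (ω : Om) : Finset ℕ :=
  (Finset.range M).filter fun i => Nice c.μ f.a v s ω.2 ∧ i ∉ GdF c f P k t v M s ω ∧
    i ∉ ThL c f P v M s ω ∧ i ∉ ThR c f P v M s ω

end good

/-! ### Blocks with small conditional variance -/

/-- Anchor behind a cell. -/
noncomputable def oA (f : Fd) (m : ℝ) (i : ℕ) (k : ℤ) : VV := fl (zc f m i k - m • f.u)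

/-- Truncated excess of the connection from `q` to `q'` inside the tube at `o`. -/
noncomputable def SN (f : Fd) (m K C : ℝ) (o q q' : VV) (X : Env) : ℝ :=
  max (TC (Nb f m K o) (max (f.L (iv (q' - q)) + C) 0) q q' X - f.L (iv (q' - q))) 0

/-- Conditional logarithmic Laplace transform. -/
noncomputable def psi (t θ c0 : ℝ) (F : Env → ℝ) (ω : Om) : ℝ :=
  log (∫ z, exp (θ * (c0 - F (mix (SS t ω.1) ω.2 z))) ∂PE)

section partA

variable (f : Fd) (m : ℝ) {v : VV} (p : GG.Walk 0 v)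

/-- Step of block `i`. -/
noncomputable def ks (i : ℕ) : ℤ := cs f m p (i + 1) - cs f m p i

/-- Anchor of block `i`. -/
noncomputable def os (i : ℕ) : VV := oA f m i (cs f m p i)

/-- Cost of the first connection of block `i`. -/
noncomputable def S1 (K C : ℝ) (i : ℕ) : Env → ℝ := SN f m K C (os f m p i) (os f m p i) (xs f m p i)

/-- Cost of the second connection of block `i`. -/
noncomputable def S2 (K C : ℝ) (i : ℕ) : Env → ℝ :=
  SN f m K C (os f m p i) (xs f m p (i + 1)) (os f m p i + yk f m (ks f m p i))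

end partA

open Classical in
/-- Total cost of the connections. -/
noncomputable def SSum (c : Bs) (f : Fd) (v : VV) (M : ℕ) (s K K1 C : ℝ) (X : Env) : ℝ :=
  ∑ i ∈ Finset.range M, if Nice c.μ f.a v s X ∧ Dd f c.m (geo v X) i ≤ K then
    S1 f c.m (geo v X) K1 (C * c.s) i X + S2 f c.m (geo v X) K1 (C * c.s) i X else 0

open Classical in
/-- Total of the conditional Laplace transforms. -/
noncomputable def PSum (c : Bs) (f : Fd) (v : VV) (M : ℕ) (s K K1 t θ : ℝ) (ω : Om) : ℝ :=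
  ∑ i ∈ Finset.range M, if Nice c.μ f.a v s ω.2 ∧ Dd f c.m (geo v ω.2) i ≤ K then
    psi t θ (f.L (iv (yk f c.m (ks f c.m (geo v ω.2) i))))
      (FF f c.m K1 (ks f c.m (geo v ω.2) i) (os f c.m (geo v ω.2) i)) ω else 0

open Classical in
/-- Blocks with cheap connections. -/
noncomputable def AF (c : Bs) (f : Fd) (v : VV) (M : ℕ) (s K K1 C : ℝ) (ω : Om) : Finset ℕ :=
  (Finset.range M).filter fun i => Nice c.μ f.a v s ω.2 ∧ Dd f c.m (geo v ω.2) i ≤ K ∧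
    S1 f c.m (geo v ω.2) K1 (C * c.s) i ω.2 < C * c.s ∧
    S2 f c.m (geo v ω.2) K1 (C * c.s) i ω.2 < C * c.s

/-- Given the revealed edges, a flagged block can be pushed away at a bounded cost. -/
def Push (c : Bs) (f : Fd) (v : VV) (s t : ℝ) (F : Om → Finset ℕ) (K Y p : ℝ) : Prop :=
  ∀ (ζ x : Env) (i : ℕ) (k : ℤ) (α : ℝ) (H : Set Env), i * c.m ≤ α → α ≤ (i + 1) * c.m →
    MeasurableSet H →
    (∀ y ∈ H, i ∈ F (ζ, mix (SS t ζ) x y) ∧ cs f c.m (geo v (mix (SS t ζ) x y)) i = k) →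
    ENNReal.ofReal p * PE H ≤
      PE {y | K * c.m ≤ |f.b (iv ((geo v (mix (SS t ζ) x y)).getVert
          (hit f.a (geo v (mix (SS t ζ) x y)) α))) - k * c.m| ∧
        |f.b (iv ((geo v (mix (SS t ζ) x y)).getVert
          (hit f.a (geo v (mix (SS t ζ) x y)) α))) - k * c.m| ≤ Y * c.m} +
      PE {y | ¬ Nice c.μ f.a v s (mix (SS t ζ) x y)}

/-- Global data are well separated by the factor `K`. -/
structure GBig (μ : ℝ × ℝ → ℝ) (σ : ℝ → ℝ) (R K : ℝ) : Prop where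
  tc : IsTC μ
  sc : Sc σ
  conc : Conc σ R
  big : ∀ r, 1 ≤ r → K ≤ σ r
  small : ∀ r, R / K ≤ r → K * σ r ≤ r
  brown : ∀ k r, 1 ≤ k → k ≤ K → 0 < r → k * σ r ^ 2 ≤ 2 * σ (k * r) ^ 2
  large : K ≤ R

end Pool.Agent.Lib.MP_de94ef_pr.Q
end

-- part Pool.Agent.Lib.MP_de94ef_pr.Q.Frame
section

/-!
Frames adapted to a norm.
-/

open MeasureTheory ProbabilityTheory Set Real Function Filter Topology
open scoped ENNReal NNReal

namespace Pool.Agent.Lib.MP_de94ef_pr.Q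

variable {μ : ℝ × ℝ → ℝ} {κ ϱ : ℝ} {f : Fd}

lemma Fr.κhalf (hF : Fr μ κ ϱ f) : κ ≤ 1 / 2 := by
  nlinarith [hF.κle, hF.ϱge, hF.κpos]

lemma Fr.a_pt (hF : Fr μ κ ϱ f) (α β : ℝ) : f.a (f.pt α β) = α := by
  simp [Fd.pt, hF.au, hF.at']

lemma Fr.b_pt (hF : Fr μ κ ϱ f) (α β : ℝ) : f.b (f.pt α β) = β := by
  simp [Fd.pt, hF.bu, hF.bt]

lemma Fr.abs_a (hF : Fr μ κ ϱ f) (h : IsTC μ) (v : ℝ × ℝ) : |f.a v| ≤ μ v := by
  have := hF.ha (-v)
  rw [map_neg, h.neg] at this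
  exact abs_le.2 ⟨by linarith, hF.ha v⟩

private lemma frame_Lu (hF : Fr μ κ ϱ f) : f.L f.u + κ ≤ 2 := by
  have h1 := hF.La f.u
  rw [hF.au, hF.bu, abs_one, abs_zero, add_zero, mul_one] at h1
  linarith [(abs_le.1 h1).2, hF.κle]

lemma Fr.hu (hF : Fr μ κ ϱ f) : μ f.u ≤ 2 := by
  have h1 := hF.up f.u (by rw [hF.au, hF.bu]; simp)
  rw [hF.au] at h1
  linarith [frame_Lu hF]

private lemma frame_up_add (hF : Fr μ κ ϱ f) : μ (f.u + f.t) ≤ f.L f.u + f.L f.t + κ := by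
  have h1 := hF.up (f.u + f.t) (by simp [hF.au, hF.at', hF.bu, hF.bt])
  simpa [hF.au, hF.at'] using h1

private lemma frame_up_sub (hF : Fr μ κ ϱ f) : μ (f.u - f.t) ≤ f.L f.u - f.L f.t + κ := by
  have h1 := hF.up (f.u - f.t) (by simp [hF.au, hF.at', hF.bu, hF.bt])
  simpa [hF.au, hF.at'] using h1

lemma Fr.ht (hF : Fr μ κ ϱ f) (h : IsTC μ) : μ f.t ≤ 2 := by
  have h1 := h.add (f.u + f.t) (-(f.u - f.t))
  have e : f.u + f.t + -(f.u - f.t) = (2 : ℝ) • f.t := by module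
  rw [e, h.smul _ _ (by norm_num), h.neg] at h1
  linarith [frame_up_add hF, frame_up_sub hF, frame_Lu hF]

lemma Fr.le (hF : Fr μ κ ϱ f) (h : IsTC μ) (v : ℝ × ℝ) : μ v ≤ 2 * |f.a v| + 2 * |f.b v| := by
  have h1 := h.add (f.a v • f.u) (f.b v • f.t)
  rw [← hF.dec, h.smul_abs, h.smul_abs] at h1
  have h2 := mul_le_mul_of_nonneg_left hF.hu (abs_nonneg (f.a v))
  have h3 := mul_le_mul_of_nonneg_left (hF.ht h) (abs_nonneg (f.b v))
  linarith

lemma Fr.low' (hF : Fr μ κ ϱ f) (v : ℝ × ℝ) : f.L v + κ * |f.b v| - 2 * κ * |f.a v| ≤ μ v := by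
  have h1 := hF.low v
  have h2 : max (f.a v) 0 ≤ |f.a v| := max_le (le_abs_self _) (abs_nonneg _)
  have h3 := mul_le_mul_of_nonneg_left h2 hF.κpos.le
  linarith

private lemma frame_ka (hF : Fr μ κ ϱ f) (h : IsTC μ) (v : ℝ × ℝ) : 2 * κ * |f.a v| ≤ μ v := by
  have h1 := mul_le_mul_of_nonneg_right hF.κhalf (abs_nonneg (f.a v))
  linarith [hF.abs_a h v]

lemma Fr.hL (hF : Fr μ κ ϱ f) (h : IsTC μ) (v : ℝ × ℝ) : |f.L v| ≤ 2 * μ v := by
  have h1 := hF.low' v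
  have h2 := hF.low' (-v)
  simp only [map_neg, abs_neg, h.neg] at h2
  have h3 := frame_ka hF h v
  have h4 := mul_nonneg hF.κpos.le (abs_nonneg (f.b v))
  exact abs_le.2 ⟨by linarith, by linarith⟩

lemma Fr.hb (hF : Fr μ κ ϱ f) (h : IsTC μ) (v : ℝ × ℝ) : κ * |f.b v| ≤ 4 * μ v := by
  have h1 := hF.low' v
  have h2 := (abs_le.1 (hF.hL h v)).1
  linarith [frame_ka hF h v]

lemma Fr.a_r1 (hF : Fr μ κ ϱ f) (h : IsTC μ) (v : ℝ × ℝ) : |f.a v| ≤ r1 v :=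
  (hF.abs_a h v).trans (h.le v)

lemma Fr.b_r1 (hF : Fr μ κ ϱ f) (h : IsTC μ) (v : ℝ × ℝ) : κ * |f.b v| ≤ 4 * r1 v := by
  linarith [hF.hb h v, h.le v]

lemma Fr.L_r1 (hF : Fr μ κ ϱ f) (h : IsTC μ) (v : ℝ × ℝ) : |f.L v| ≤ 2 * r1 v := by
  linarith [hF.hL h v, h.le v]

lemma Fr.low2 (hF : Fr μ κ ϱ f) (h : IsTC μ) (v : ℝ × ℝ) (hv : 0 ≤ f.a v) :
    μ v / (2 * ϱ) - 3 * f.a v ≤ μ v - f.L v := by
  have hϱ := hF.ϱge
  have hκ := hF.κpos
  have h1 := hF.low' v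
  have h2 := (abs_le.1 (hF.La v)).2
  rw [abs_of_nonneg hv] at h1 h2
  have h3 := mul_le_mul_of_nonneg_left h1 (by linarith : 0 ≤ ϱ)
  have h4 : ϱ * κ * f.a v ≤ 1 * f.a v :=
    mul_le_mul_of_nonneg_right (by linarith [hF.κle]) hv
  have h5 : 1 * f.a v ≤ ϱ * f.a v := mul_le_mul_of_nonneg_right hϱ hv
  have h6 : μ v ≤ (ϱ + 1) * (μ v - f.L v + 3 * f.a v) := by nlinarith
  have h7 : 0 ≤ μ v - f.L v + 3 * f.a v :=
    nonneg_of_mul_nonneg_right ((h.nonneg v).trans h6) (by linarith)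
  have h8 := mul_le_mul_of_nonneg_right (by linarith : ϱ + 1 ≤ 2 * ϱ) h7
  rw [sub_le_iff_le_add, div_le_iff₀ (by linarith)]
  linarith

/-- A cheap vector is short and almost parallel to the level sets of `b`. -/
lemma Fr.of_cheap (hF : Fr μ κ ϱ f) {v : ℝ × ℝ} {Φ : ℝ} (hv : μ v ≤ f.L v + Φ) :
    κ * |f.b v| ≤ Φ + 2 * κ * |f.a v| ∧
      μ v ≤ f.a v + 3 * ϱ * κ * |f.a v| + (ϱ + 1) * Φ := by
  have h1 : κ * |f.b v| ≤ Φ + 2 * κ * |f.a v| := by linarith [hF.low' v]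
  refine ⟨h1, ?_⟩
  have h2 := (abs_le.1 (hF.La v)).2
  have h3 := mul_le_mul_of_nonneg_left h1 (by linarith [hF.ϱge] : 0 ≤ ϱ)
  linarith

lemma Fr.neg (hF : Fr μ κ ϱ f) (h : IsTC μ) : Fr μ κ ϱ f.neg where
  κpos := hF.κpos
  ϱge := hF.ϱge
  κle := hF.κle
  dec v := by simpa [Fd.neg] using hF.dec v
  au := by simpa [Fd.neg] using hF.au
  at' := by simpa [Fd.neg] using hF.at'
  bu := by simpa [Fd.neg] using hF.bu
  bt := hF.bt
  ha v := by simpa [Fd.neg, h.neg] using hF.ha (-v)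
  up v hv := by
    have := hF.up (-v) (by simpa [Fd.neg] using hv)
    simpa [Fd.neg, h.neg] using this
  low v := by simpa [Fd.neg, h.neg] using hF.low (-v)
  La v := by simpa [Fd.neg] using hF.La (-v)

lemma Fr.a_adj (hF : Fr μ κ ϱ f) (h : IsTC μ) {p q : VV} (hpq : GG.Adj p q) :
    |f.a (iv q) - f.a (iv p)| ≤ 1 := by
  have := hF.a_r1 h (iv (q - p))
  rwa [r1_iv, n1_of_adj hpq, iv_sub, map_sub] at this

lemma Fr.b_adj (hF : Fr μ κ ϱ f) (h : IsTC μ) {p q : VV} (hpq : GG.Adj p q) :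
    κ * |f.b (iv q) - f.b (iv p)| ≤ 4 := by
  have := hF.b_r1 h (iv (q - p))
  rwa [r1_iv, n1_of_adj hpq, iv_sub, map_sub, mul_one] at this

lemma Fr.a_fl (hF : Fr μ κ ϱ f) (h : IsTC μ) (z : ℝ × ℝ) : |f.a (iv (fl z)) - f.a z| ≤ 2 := by
  have := hF.a_r1 h (iv (fl z) - z)
  rw [map_sub] at this
  linarith [r1_fl z]

lemma Fr.b_fl (hF : Fr μ κ ϱ f) (h : IsTC μ) (z : ℝ × ℝ) :
    κ * |f.b (iv (fl z)) - f.b z| ≤ 8 := by
  have := hF.b_r1 h (iv (fl z) - z)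
  rw [map_sub] at this
  linarith [r1_fl z]

lemma Fr.mem_Nb (hF : Fr μ κ ϱ f) (h : IsTC μ) {m K : ℝ} (hm : 0 ≤ m) (hK : 0 ≤ K) {o w : VV} :
    w ∈ Nb f m K o ↔
      -m ≤ f.a (iv (w - o)) ∧ f.a (iv (w - o)) < 5 * m ∧ |f.b (iv (w - o))| ≤ K * m := by
  classical
  unfold Nb
  rw [Finset.mem_filter]
  refine ⟨fun hw => hw.2, fun hw => ⟨mem_box_of_n1 (le_trans ?_ (Nat.le_ceil _)), hw⟩⟩
  have h1 := h.ge (iv (w - o))
  have h2 := hF.le h (iv (w - o))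
  have h3 : |f.a (iv (w - o))| ≤ 5 * m := abs_le.2 ⟨by linarith [hw.1], hw.2.1.le⟩
  rw [r1_iv] at h1
  have h4 := mul_nonneg hK hm
  nlinarith [hw.2.2]

lemma mem_Sl {z : ℝ × ℝ} {α α' : ℝ} {w : VV} (h1 : n1 (w - fl z) ≤ 100 * (α' - α))
    (h2 : α ≤ f.a (iv w)) (h3 : f.a (iv w) < α') : w ∈ Sl f z α α' := by
  classical
  unfold Sl
  rw [Finset.mem_filter]
  exact ⟨mem_box_of_n1 (h1.trans (Nat.le_ceil _)), h2, h3⟩

lemma inR_Sl (f : Fd) (z : ℝ × ℝ) (α α' : ℝ) : InR f.a α α' (Sl f z α α').sym2 := by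
  classical
  intro e he w hw
  have := Finset.mem_sym2_iff.1 he w hw
  unfold Sl at this
  exact (Finset.mem_filter.1 this).2

lemma Fr.n1_of_Sq (hF : Fr μ κ ϱ f) (h : IsTC μ) {z : ℝ × ℝ} {r : ℝ} {q : VV} (hq : Sq f z r q) :
    n1 (q - fl z) ≤ 44 * r + 2 := by
  obtain ⟨q1, q2, q3, q4⟩ := hq
  have h1 := h.ge (iv q - z)
  have h2 := hF.le h (iv q - z)
  rw [abs_of_nonneg q1, abs_of_nonneg q3] at h2
  have h3 := r1_add_le (iv q - z) (z - iv (fl z))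
  rw [sub_add_sub_cancel, r1_sub_comm z, ← iv_sub, r1_iv] at h3
  linarith [r1_fl z]

lemma exists_base (h : IsTC μ) {u : ℝ × ℝ} (hu : μ u = 1) :
    ∃ (τ : ℝ × ℝ) (a b : ℝ × ℝ →ₗ[ℝ] ℝ), (∀ v, v = a v • u + b v • τ) ∧ a u = 1 ∧ a τ = 0 ∧
      b u = 0 ∧ b τ = 1 ∧ ∀ v, a v ≤ μ v := by
  obtain ⟨t, a, b, L, hF⟩ := exists_frame h hu one_pos le_rfl
  refine ⟨t, a, b, hF.dec, hF.au, hF.at', hF.bu, ?_, hF.ha⟩
  have ht : t ≠ 0 := by
    rintro rfl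
    have h1 := hF.dec (1, 0)
    have h2 := hF.dec (0, 1)
    simp only [smul_zero, add_zero, Prod.ext_iff, Prod.smul_fst, Prod.smul_snd,
      smul_eq_mul] at h1 h2
    have h3 : a (1, 0) ≠ 0 := fun h0 => by simp [h0] at h1
    have h4 : u.2 = 0 := by simpa [h3] using h1.2
    simp [h4] at h2
  have h1 := hF.dec t
  rw [hF.at', zero_smul, zero_add] at h1
  have h2 : (b t - 1) • t = 0 := by rw [sub_smul, one_smul, ← h1, sub_self]
  exact sub_eq_zero.1 ((smul_eq_zero.1 h2).resolve_right ht)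

theorem exists_fr (h : IsTC μ) {u τ : ℝ × ℝ} {a b : ℝ × ℝ →ₗ[ℝ] ℝ}
    (dec : ∀ v, v = a v • u + b v • τ) (au : a u = 1) (aτ : a τ = 0) (bu : b u = 0)
    (bτ : b τ = 1) (ha : ∀ v, a v ≤ μ v) {u' : ℝ × ℝ} (hu' : a u' = 1) (hκ : 0 < κ)
    (hϱ : 1 ≤ ϱ) (hκϱ : (ϱ + 1) * κ ≤ 1) (hμ : μ u' ≤ 1 + (ϱ - 1) * κ) :
    ∃ (l : ℝ) (f : Fd), 0 < l ∧ f.u = u' ∧ f.t = l • τ ∧ f.a = a ∧
      (∀ v, f.b v = (b v - b u' * a v) / l) ∧ f.L u' = μ u' ∧ Fr μ κ ϱ f := by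
  obtain ⟨c, hc⟩ : ∃ c, c = μ u' := ⟨_, rfl⟩
  have hc1 : 1 ≤ c := by rw [hc, ← hu']; exact ha u'
  have hτ0 : 0 < μ τ := by
    have h1 := h.ge τ
    have h2 : 0 < r1 τ := by
      by_contra hn
      unfold r1 at hn
      have h3 : τ.1 = 0 := abs_eq_zero.1 (by linarith [abs_nonneg τ.1, abs_nonneg τ.2])
      have h4 : τ.2 = 0 := abs_eq_zero.1 (by linarith [abs_nonneg τ.1, abs_nonneg τ.2])
      have h5 : τ = 0 := Prod.ext h3 h4
      simp [h5] at bτ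
    linarith
  have hcμ := h.continuous
  have hcont : Continuous fun r : ℝ => μ (u' + r • τ) + μ (u' - r • τ) := by fun_prop
  have hlow : ∀ r : ℝ, |r| * μ τ - c ≤ μ (u' + r • τ) := fun r => by
    have := h.add (u' + r • τ) (-u')
    rw [h.neg, ← hc, add_neg_cancel_comm, h.smul_abs] at this
    linarith
  obtain ⟨l, hl, hle⟩ := intermediate_value_Icc (a := 0) (b := (2 * c + κ) / μ τ) (by positivity)
    hcont.continuousOn (show 2 * c + 2 * κ ∈ Icc _ _ from ⟨by simp [← hc]; linarith, by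
      have h1 := hlow ((2 * c + κ) / μ τ)
      have h2 := hlow (-((2 * c + κ) / μ τ))
      rw [abs_neg] at h2
      rw [abs_of_pos (by positivity), div_mul_cancel₀ _ hτ0.ne'] at h1 h2
      rw [neg_smul, ← sub_eq_add_neg] at h2
      linarith⟩)
  simp only at hle
  have hl0 : 0 < l := by
    rcases hl.1.eq_or_lt with rfl | h0
    · simp [← hc] at hle; linarith
    · exact h0
  obtain ⟨t, ht⟩ : ∃ t, t = l • τ := ⟨_, rfl⟩
  rw [← ht] at hle
  obtain ⟨b', hb'⟩ : ∃ b' : ℝ × ℝ →ₗ[ℝ] ℝ, ∀ v, b' v = (b v - b u' * a v) / l :=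
    ⟨l⁻¹ • (b - b u' • a), fun v => by simp [div_eq_inv_mul]⟩
  have at' : a t = 0 := by rw [ht, map_smul, aτ, smul_zero]
  have bu' : b' u' = 0 := by rw [hb', hu']; simp
  have bt' : b' t = 1 := by rw [hb', at', ht, map_smul, bτ]; simp [hl0.ne']
  have dec' : ∀ v, v = a v • u' + b' v • t := fun v => by
    have e1 := dec u'
    rw [hu'] at e1
    have e2 : b' v • t = (b v - b u' * a v) • τ := by
      rw [hb', ht, smul_smul, div_mul_cancel₀ _ hl0.ne']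
    rw [e2]
    calc v = a v • u + b v • τ := dec v
      _ = a v • ((1 : ℝ) • u + b u' • τ) + (b v - b u' * a v) • τ := by module
      _ = _ := by rw [← e1]
  obtain ⟨lam, hlam⟩ : ∃ lam, lam = (μ (u' + t) - μ (u' - t)) / 2 := ⟨_, rfl⟩
  have hP : μ (u' + t) = c + κ + lam := by rw [hlam]; linarith
  have hM : μ (u' - t) = c + κ - lam := by rw [hlam]; linarith
  have hP1 : 1 ≤ μ (u' + t) := by simpa [hu', at'] using ha (u' + t)
  have hM1 : 1 ≤ μ (u' - t) := by simpa [hu', at'] using ha (u' - t)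
  rw [← hc] at hμ
  have hl1 : |lam| ≤ ϱ * κ := abs_le.2 ⟨by linarith, by linarith⟩
  have Lex : ∀ v, (c • a + lam • b') v = c * a v + lam * b' v := fun v => by simp
  refine ⟨l, ⟨u', t, a, b', c • a + lam • b'⟩, hl0, rfl, ht, rfl, hb',
    by simp [hu', bu', hc], hκ, hϱ, hκϱ, dec', hu', at', bu', bt', ha, fun v hv => ?_,
    fun v => ?_, fun v => ?_⟩
  · change |b' v| ≤ a v at hv
    change μ v ≤ (c • a + lam • b') v + κ * a v
    have h1 := abs_le.1 hv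
    have h2 := h.add (((a v + b' v) / 2) • (u' + t)) (((a v - b' v) / 2) • (u' - t))
    have e1 : ((a v + b' v) / 2) • (u' + t) + ((a v - b' v) / 2) • (u' - t) =
      a v • u' + b' v • t := by module
    rw [e1, ← dec', h.smul _ _ (by linarith), h.smul _ _ (by linarith), hP, hM] at h2
    rw [Lex]; linarith
  · change (c • a + lam • b') v + κ * (|b' v| - 2 * max (a v) 0) ≤ μ v
    rw [Lex]
    have hv := dec' v
    generalize a v = α at hv ⊢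
    generalize b' v = β at hv ⊢
    have m0 : 0 ≤ κ * max α 0 := mul_nonneg hκ.le (le_max_right _ _)
    have m1 : κ * α ≤ κ * max α 0 := mul_le_mul_of_nonneg_left (le_max_left _ _) hκ.le
    rcases le_total 0 β with h0 | h0
    · rw [abs_of_nonneg h0]
      rcases le_total α β with h1 | h1
      · have h2 := h.add v ((β - α) • u')
        have e1 : v + (β - α) • u' = β • (u' + t) := by rw [hv]; module
        rw [e1, h.smul _ _ h0, h.smul _ _ (by linarith), ← hc, hP] at h2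
        linarith
      · have h2 := h.add v (β • (u' - t))
        have e1 : v + β • (u' - t) = (α + β) • u' := by rw [hv]; module
        rw [e1, h.smul _ _ (by linarith), h.smul _ _ h0, ← hc, hM] at h2
        have h3 := mul_le_mul_of_nonneg_left h1 hκ.le
        linarith
    · rw [abs_of_nonpos h0]
      rcases le_total α (-β) with h1 | h1
      · have h2 := h.add v ((-β - α) • u')
        have e1 : v + (-β - α) • u' = (-β) • (u' - t) := by rw [hv]; module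
        rw [e1, h.smul _ _ (by linarith), h.smul _ _ (by linarith), ← hc, hM] at h2
        linarith
      · have h2 := h.add v ((-β) • (u' + t))
        have e1 : v + (-β) • (u' + t) = (α - β) • u' := by rw [hv]; module
        rw [e1, h.smul _ _ (by linarith), h.smul _ _ (by linarith), ← hc, hP] at h2
        have h3 := mul_le_mul_of_nonneg_left h1 hκ.le
        linarith
  · change |(c • a + lam • b') v - a v| ≤ ϱ * κ * (|a v| + |b' v|)
    rw [Lex]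
    have e1 : c * a v + lam * b' v - a v = (c - 1) * a v + lam * b' v := by ring
    have h1 := abs_add_le ((c - 1) * a v) (lam * b' v)
    rw [abs_mul, abs_mul, abs_of_nonneg (by linarith : 0 ≤ c - 1)] at h1
    have h2 := mul_le_mul_of_nonneg_right hl1 (abs_nonneg (b' v))
    have h3 := mul_le_mul_of_nonneg_right (by linarith : c - 1 ≤ ϱ * κ) (abs_nonneg (a v))
    rw [e1]
    linarith

/-- A tangent frame in the direction of a given vector. -/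
theorem exists_tangent (h : IsTC μ) {u : ℝ × ℝ} (hu : μ u = 1) (hκ : 0 < κ) (hκ1 : κ ≤ 1 / 2) :
    ∃ f : Fd, f.u = u ∧ f.L u = 1 ∧ Fr μ κ 1 f := by
  obtain ⟨τ, a, b, dec, au, aτ, bu, bτ, ha⟩ := exists_base h hu
  obtain ⟨l, f, -, h1, -, -, -, h2, h3⟩ := exists_fr (κ := κ) (ϱ := 1) h dec au aτ bu bτ ha au hκ
    le_rfl (by linarith) (by rw [hu]; linarith)
  exact ⟨f, h1, h2.trans hu, h3⟩

lemma Fr.abs_b_le (hF : Fr μ κ ϱ f) {K : ℝ} {u' : ℝ × ℝ} (hu' : f.a u' = 1)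
    (hc : μ u' ≤ f.L u' + K * κ) : |f.b u'| ≤ K + 2 := by
  have h1 := hF.low' u'
  rw [hu', abs_one] at h1
  exact le_of_mul_le_mul_left (by linarith) hF.κpos

theorem exists_thin (h : IsTC μ) (hF : Fr μ κ 1 f) {K : ℝ} (hK : 0 ≤ K)
    (hKκ : (2 * K + 5) * κ ≤ 1) {u' : ℝ × ℝ} (hu' : f.a u' = 1) (hc : μ u' ≤ f.L u' + K * κ) :
    ∃ (l : ℝ) (f' : Fd), f'.u = u' ∧ Thin μ κ K l f f' ∧
      ∀ v, f'.b v = (f.b v - f.b u' * f.a v) / l := by
  have h1 := mul_le_mul_of_nonneg_left (hF.abs_b_le hu' hc) hF.κpos.le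
  have h2 := (abs_le.1 (hF.La u')).2
  rw [hu', abs_one] at h2
  obtain ⟨l, f', a1, a2, a3, a4, a5, a6, a7⟩ := exists_fr (κ := κ) (ϱ := 2 * K + 4) h hF.dec hF.au
    hF.at' hF.bu hF.bt hF.ha hu' hF.κpos (by linarith) (by linarith) (by linarith)
  exact ⟨l, f', a2, ⟨a7, a4, a3, a1, by rw [a2, a6], by rw [a2]; exact hc⟩, a5⟩

lemma Thin.cmp {K l : ℝ} {f' : Fd} (hT : Thin μ κ K l f f') (hF : Fr μ κ 1 f) {v : ℝ × ℝ}
    (hv : 0 ≤ f.a v) : f'.L v ≤ f.L v + K * κ * f.a v + (K + 3) * κ * |f'.b v| := by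
  have hκ := hF.κpos
  have au : f.a f'.u = 1 := by rw [← hT.ha]; exact hT.fr.au
  have at' : f.a f'.t = 0 := by rw [← hT.ha]; exact hT.fr.at'
  have h1 := frame_up_add hT.fr
  have h2 := frame_up_sub hT.fr
  have h3 := hF.low' (f'.u + f'.t)
  have h4 := hF.low' (f'.u - f'.t)
  have n3 := mul_nonneg hκ.le (abs_nonneg (f.b (f'.u + f'.t)))
  have n4 := mul_nonneg hκ.le (abs_nonneg (f.b (f'.u - f'.t)))
  rw [map_add f.a, au, at', add_zero, abs_one, map_add f.L] at h3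
  rw [map_sub f.a, au, at', sub_zero, abs_one, map_sub f.L] at h4
  have h5 : f'.L f'.u ≤ f.L f'.u + K * κ := by rw [hT.Lu]; exact hT.cheap
  have h6 : |f'.L f'.t - f.L f'.t| ≤ (K + 3) * κ := abs_le.2 ⟨by linarith, by linarith⟩
  have hd := hT.fr.dec v
  rw [hT.ha] at hd
  have e1 : f'.L v = f.a v * f'.L f'.u + f'.b v * f'.L f'.t := by
    conv_lhs => rw [hd]
    simp
  have e2 : f.L v = f.a v * f.L f'.u + f'.b v * f.L f'.t := by
    conv_lhs => rw [hd]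
    simp
  have h7 := le_abs_self (f'.b v * (f'.L f'.t - f.L f'.t))
  rw [abs_mul] at h7
  have h8 := mul_le_mul_of_nonneg_left h6 (abs_nonneg (f'.b v))
  have h9 := mul_le_mul_of_nonneg_left h5 hv
  rw [e1, e2]
  linarith

lemma Fr.ratio {κ' l l' : ℝ} {f' : Fd} {τ : ℝ × ℝ} (hF : Fr μ κ 1 f) (hF' : Fr μ κ' 1 f')
    (hu : f'.u = f.u) (hL : f.L f.u = 1) (hL' : f'.L f'.u = 1) (ht : f.t = l • τ)
    (ht' : f'.t = l' • τ) (hl : 0 < l) (hl' : 0 < l') : l ≤ (2 + κ / κ') * l' := by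
  have hκ' := hF'.κpos
  have e : f.t = (l / l') • f'.t := by rw [ht, ht', smul_smul, div_mul_cancel₀ _ hl'.ne']
  have hq : 0 < l / l' := div_pos hl hl'
  have h1 := frame_up_add hF
  have h2 := frame_up_sub hF
  have h3 := hF'.low' (f.u + f.t)
  have h4 := hF'.low' (f.u - f.t)
  have a1 : f'.a f.u = 1 := by rw [← hu]; exact hF'.au
  have a2 : f'.a f.t = 0 := by rw [e, map_smul, hF'.at', smul_zero]
  have b1 : f'.b f.u = 0 := by rw [← hu]; exact hF'.bu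
  have b2 : f'.b f.t = l / l' := by rw [e, map_smul, hF'.bt, smul_eq_mul, mul_one]
  rw [hu] at hL'
  simp only [map_add, map_sub, a1, a2, b1, b2, hL', add_zero, sub_zero, zero_add, zero_sub,
    abs_neg, abs_one, abs_of_pos hq] at h3 h4
  have h5 : l / l' ≤ 2 + κ / κ' := by
    rw [← sub_le_iff_le_add', le_div_iff₀ hκ']
    linarith
  rwa [div_le_iff₀ hl'] at h5

end Pool.Agent.Lib.MP_de94ef_pr.Q
end
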