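import Pool.Agent.Lib.MP_de94ef_pr.Q.Trunc
import Pool.Agent.Lib.MP_de94ef_pr.Q.Mean

/-!
Blocks that are good at many levels are unlikely.
-/

open MeasureTheory ProbabilityTheory Set Real Function Filter Topology
open scoped ENNReal NNReal

namespace Pool.Agent.Lib.MP_de94ef_pr.Q

/-- Nested levels. -/
structure Lv (J ρ : ℕ) (c : ℕ → Bs) (f : ℕ → Fd) (M : ℕ → ℕ) (τ : ℝ × ℝ) (l : ℕ → ℝ) (v : VV)
    (s V : ℝ) : Prop where
  top : ∀ j < J, Top (c j) (f j) v (M j) s
  hμ : ∀ j, (c j).μ = (c 0).μ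
  hm : ∀ j, (c j).m = ρ ^ j * (c 0).m
  hu : ∀ j < J, (f j).u = (f 0).u
  ha : ∀ j < J, (f j).a = (f 0).a
  ht : ∀ j < J, (f j).t = l j • τ
  hl : ∀ j < J, 0 < l j
  brown : ∀ j j', j ≤ j' → j' < J → (ρ : ℝ) ^ (j' - j) * (c j).s ^ 2 ≤ 2 * (c j').s ^ 2
  hV : ∀ j < J, M j * (c j).s ^ 2 ≤ V

open Classical in
/-- Blocks of the lowest level that are good at many levels. -/
noncomputable def Light (J ρ : ℕ) (c : Bs) (f : Fd) (v : VV) (M : ℕ) (s t : ℝ) (K0 : ℕ)
    (F : ℕ → Om → Finset ℕ) (ω : Om) : Finset ℕ :=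
  (Finset.range M).filter fun i => Nice c.μ f.a v s ω.2 ∧ Dd f c.m (geo v ω.2) i ≤ K0 ∧
    PE {z | ¬ Nice c.μ f.a v s (mix (SS t ω.1) ω.2 z)} ≤ ENNReal.ofReal (1 / J) ∧
    J ≤ 2 * ((Finset.range J).filter fun j => i / ρ ^ j ∈ F j ω).card

lemma Fr.lb {μ μ' : ℝ × ℝ → ℝ} {κ κ' ϱ ϱ' l l' : ℝ} {f f' : Fd} {τ : ℝ × ℝ} (hF : Fr μ κ ϱ f)
    (hF' : Fr μ' κ' ϱ' f') (hu : f'.u = f.u) (ht : f.t = l • τ) (ht' : f'.t = l' • τ)
    (w : ℝ × ℝ) : l * f.b w = l' * f'.b w := by
  have h1 := congrArg f'.b (hF.dec w)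
  have h2 := hF'.bt
  rw [ht', map_smul] at h2
  rw [map_add, map_smul, map_smul, ← hu, hF'.bu, ht, map_smul] at h1
  simp only [smul_eq_mul] at h1 h2
  rw [h1]
  linear_combination (-(l * f.b w)) * h2

variable {J ρ : ℕ} {c : ℕ → Bs} {f : ℕ → Fd} {M : ℕ → ℕ} {τ : ℝ × ℝ} {l : ℕ → ℝ} {v : VV}
  {s V : ℝ}

lemma Lv.sep (h : Lv J ρ c f M τ l v s V) (hb : ∀ j < J, (c j).Big 100) {A : ℝ} (hA : 1 ≤ A)
    (hρ : 8 * A ^ 2 < ρ) {j j' : ℕ} (hj : j < j') (hj' : j' < J) :
    A * (l j * (c j).m) < l j' * (c j').m := by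
  have b1 := hb j (hj.trans hj')
  have b2 := hb j' hj'
  have f1 := (h.top j (hj.trans hj')).fr
  have f2 := (h.top j' hj').fr
  rw [h.hμ j] at f1
  rw [h.hμ j'] at f2
  have l1 := h.hl j (hj.trans hj')
  have l2 := h.hl j' hj'
  have r := f1.ratio f2 (by rw [h.hu j' hj', h.hu j (hj.trans hj')]) (h.top j (hj.trans hj')).Lu
    (h.top j' hj').Lu (h.ht j (hj.trans hj')) (h.ht j' hj') l1 l2
  have br := h.brown j j' hj.le hj'
  have hρ1 : (1 : ℝ) ≤ ρ := by nlinarith
  have hx : (ρ : ℝ) ≤ ρ ^ (j' - j) := le_self_pow₀ hρ1 (by omega)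
  have hm : (c j').m = ρ ^ (j' - j) * (c j).m := by
    rw [h.hm j', h.hm j, ← mul_assoc, ← pow_add]; congr 2; omega
  generalize (ρ : ℝ) ^ (j' - j) = x at *
  have m1 := b1.m_pos
  have s1 := b1.s_pos
  have s2 := b2.s_pos
  have hx0 : 0 < x := by linarith
  have e : (c j).κ / (c j').κ = x * (c j).s / (c j').s := by
    change (c j).s / (c j).m / ((c j').s / (c j').m) = _
    rw [hm]; field_simp
  rw [e] at r
  obtain ⟨y, hy⟩ : ∃ y, y = x * (c j).s / (c j').s := ⟨_, rfl⟩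
  rw [← hy] at r
  have y0 : 0 ≤ y := by rw [hy]; positivity
  have y2 : y ^ 2 ≤ 2 * x := by
    rw [hy, div_pow, div_le_iff₀ (by positivity)]
    nlinarith [mul_le_mul_of_nonneg_left br hx0.le]
  have key : A * (2 + y) < x := by
    by_contra hc
    push Not at hc
    have a1 : x / 2 ≤ A * y := by nlinarith
    have a2 : (x / 2) ^ 2 ≤ (A * y) ^ 2 := by gcongr
    have a3 : (A * y) ^ 2 ≤ A ^ 2 * (2 * x) := by rw [mul_pow]; gcongr
    nlinarith
  rw [hm]
  calc A * (l j * (c j).m) ≤ A * ((2 + y) * l j' * (c j).m) := by gcongr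
    _ = A * (2 + y) * (l j' * (c j).m) := by ring
    _ < x * (l j' * (c j).m) := by gcongr
    _ = _ := by ring

lemma Lv.lt_M (h : Lv J ρ c f M τ l v s V) (hb : ∀ j < J, (c j).Big 100) {j i : ℕ} (hj : j < J)
    (hi : i < M 0) : i / ρ ^ j < M j := by
  have h0 : 0 < J := by omega
  have e1 := (h.top j hj).hμ
  have e2 := (h.top 0 h0).hμ
  rw [h.hμ j, e2, h.hm j, ← mul_assoc] at e1
  have e3 : (M 0 : ℝ) = M j * ρ ^ j := mul_right_cancel₀ (hb 0 h0).m_pos.ne' e1
  have e4 : M 0 = M j * ρ ^ j := by exact_mod_cast e3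
  exact Nat.div_lt_of_lt_mul (by rw [mul_comm]; omega)

lemma measurable_mix_right (S : Set EE) (x : Env) : Measurable fun y => mix S x y :=
  (measurable_mix S).comp (measurable_const.prodMk measurable_id)

lemma measSet_geo_mix (v : VV) (S : Set EE) (x : Env) (Φ : GG.Walk 0 v → Prop) :
    MeasurableSet {y | Φ (geo v (mix S x y))} :=
  (meas_geo v (F := fun p _ => Φ p) (fun _ => measurable_const)).comp (measurable_mix_right S x)
    (measurableSet_singleton True) |>.congr (by ext y; simp)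

lemma measurable_cond {U : Set Env} (hU : MeasurableSet U) (t : ℝ) :
    Measurable fun ω : Om => PE {z | mix (SS t ω.1) ω.2 z ∈ U} :=
  measurable_measure_prodMk_left (measurable_mixS t hU)

lemma prob_cond {U : Set Env} (hU : MeasurableSet U) (t : ℝ) (δ : ℝ≥0∞) :
    δ * P2 {ω | δ ≤ PE {z | mix (SS t ω.1) ω.2 z ∈ U}} ≤ PE U := by
  refine (mul_meas_ge_le_lintegral (measurable_cond hU t) δ).trans (le_of_eq ?_)
  have h1 := (measurePreserving_snd.comp (measurePreserving_mixS t)).measure_preimage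
    hU.nullMeasurableSet
  rw [← h1, Measure.prod_apply ((measurable_snd.comp (measurePreserving_mixS t).measurable) hU)]
  rfl

lemma flags_Light (c : Bs) (f : Fd) (v : VV) (M : ℕ) (s t : ℝ) (K0 : ℕ)
    {F : ℕ → Om → Finset ℕ} (hF : ∀ j < J, ∀ i, MeasurableSet {ω | i ∈ F j ω}) :
    Flags c f v M s (Light J ρ c f v M s t K0 F) := by
  classical
  refine ⟨fun i => ?_, fun ω i hi => ?_⟩
  · simp only [Light, Finset.mem_filter]
    refine (MeasurableSet.const _).inter ((measurable_snd (measurableSet_Nice _ _ _ _)).inter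
      ((measSet_geo2 v (F := fun p _ => Dd f c.m p i ≤ K0) fun _ => MeasurableSet.const _).inter
        ((measurableSet_le (measurable_cond (measurableSet_Nice c.μ f.a v s).compl t)
          measurable_const).inter ?_)))
    have : Measurable fun ω => ((Finset.range J).filter fun j => i / ρ ^ j ∈ F j ω).card := by
      simp only [Finset.card_filter]
      exact Finset.measurable_sum _ fun j hj =>
        Measurable.ite (hF j (Finset.mem_range.1 hj) _) measurable_const measurable_const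
    exact this (t := {n | J ≤ 2 * n}) trivial
  · exact ⟨Finset.mem_range.1 (Finset.mem_filter.1 hi).1, (Finset.mem_filter.1 hi).2.1⟩

lemma card_near (β : ℝ) (K : ℕ) : ((Finset.Icc ⌈β - K⌉ ⌊β + K⌋).card : ℝ) ≤ 2 * K + 1 := by
  have h1 : ⌊β + K⌋ + 1 - ⌈β - K⌉ ≤ (2 * K + 1 : ℕ) := by
    have : ((⌊β + K⌋ + 1 - ⌈β - K⌉ : ℤ) : ℝ) ≤ ((2 * K + 1 : ℕ) : ℤ) := by
      push_cast
      linarith [Int.floor_le (β + K), Int.le_ceil (β - K)]
    exact_mod_cast this
  rw [Int.card_Icc]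
  exact_mod_cast Int.toNat_le.2 h1

theorem lightProb (h : Lv J ρ c f M τ l v s V) (hJ : 1 ≤ J) (hb : ∀ j < J, (c j).Big 100)
    {K3 Y K0 : ℕ} {p t : ℝ} (hp : 0 < p) (hρ : 8 * ((Y : ℝ) + K3 + 2) ^ 2 < ρ)
    {F : ℕ → Om → Finset ℕ} (hF : ∀ j < J, ∀ i, MeasurableSet {ω | i ∈ F j ω})
    (hD : ∀ j < J, ∀ ω, ∀ i ∈ F j ω, Dd (f j) (c j).m (geo v ω.2) i ≤ K3)
    (hP : ∀ j < J, Push (c j) (f j) v s t (F j) (K3 + 3) Y p) (ζ x : Env) (i : ℕ) (k : ℤ) :
    PE {y | i ∈ Light J ρ (c 0) (f 0) v (M 0) s t K0 F (ζ, mix (SS t ζ) x y) ∧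
      cs (f 0) (c 0).m (geo v (mix (SS t ζ) x y)) i = k} ≤
      ENNReal.ofReal (4 * (2 * K3 + 5) / (p * J)) := by
  classical
  set H := {y | i ∈ Light J ρ (c 0) (f 0) v (M 0) s t K0 F (ζ, mix (SS t ζ) x y) ∧
      cs (f 0) (c 0).m (geo v (mix (SS t ζ) x y)) i = k} with hH
  rcases H.eq_empty_or_nonempty with h0 | ⟨y0, hy0⟩
  · simp [h0]
  have hJ0 : 0 < J := hJ
  have hJ' : (0 : ℝ) < J := by exact_mod_cast hJ0
  have hN : PE {z | ¬ Nice (c 0).μ (f 0).a v s (mix (SS t ζ) x z)} ≤ ENNReal.ofReal (1 / J) := by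
    simpa only [mix_idem] using (Finset.mem_filter.1 hy0.1).2.2.2.1
  set A : ℝ := Y + K3 + 2 with hA
  have hA1 : 1 ≤ A := by rw [hA]; linarith [Nat.cast_nonneg (α := ℝ) Y, Nat.cast_nonneg (α := ℝ) K3]
  have hρ0 : 0 < ρ := by
    have : (0 : ℝ) < ρ := lt_of_le_of_lt (by positivity) hρ
    exact_mod_cast this
  set z0 := zc (f 0) (c 0).m i k with hz0
  set w : GG.Walk 0 v → VV := fun γ => γ.getVert (hit (f 0).a γ (i * (c 0).m)) with hw
  set E : ℕ → Set Env := fun j => {y | (c j).m ≤ |(f j).b (iv (w (geo v (mix (SS t ζ) x y))) - z0)| ∧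
    |(f j).b (iv (w (geo v (mix (SS t ζ) x y))) - z0)| ≤ A * (c j).m} with hE
  set G : ℕ → ℤ → Set Env := fun j k' => {y | i / ρ ^ j ∈ F j (ζ, mix (SS t ζ) x y) ∧
    cs (f j) (c j).m (geo v (mix (SS t ζ) x y)) (i / ρ ^ j) = k'} with hG
  set Z : ℕ → Finset ℤ := fun j => Finset.Icc ⌈(f j).b z0 / (c j).m - (K3 + 2 : ℕ)⌉
    ⌊(f j).b z0 / (c j).m + (K3 + 2 : ℕ)⌋ with hZ
  have memZ : ∀ j < J, ∀ k', k' ∈ Z j ↔ |k' * (c j).m - (f j).b z0| ≤ (K3 + 2) * (c j).m := by
    intro j hj k'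
    have := (hb j hj).m_pos
    simp only [hZ, Finset.mem_Icc, Int.ceil_le, Int.le_floor]
    rw [sub_le_iff_le_add, div_le_iff₀ this, ← sub_le_iff_le_add, le_div_iff₀ this, abs_le]
    push_cast
    constructor <;> rintro ⟨a, b⟩ <;> constructor <;> linarith
  have mE : ∀ j, MeasurableSet (E j) := fun j => measSet_geo_mix v _ x fun γ =>
    (c j).m ≤ |(f j).b (iv (w γ) - z0)| ∧ |(f j).b (iv (w γ) - z0)| ≤ A * (c j).m
  have mG : ∀ j < J, ∀ k', MeasurableSet (G j k') := fun j hj k' =>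
    ((measurable_const.prodMk (measurable_mix_right _ x)) (hF j hj _)).inter
      (measSet_geo_mix v _ x fun γ => cs (f j) (c j).m γ (i / ρ ^ j) = k')
  have lb : ∀ j < J, ∀ j' < J, ∀ z, l j * |(f j).b z| = l j' * |(f j').b z| := by
    intro j hj j' hj' z
    have := (h.top j hj).fr.lb (h.top j' hj').fr (by rw [h.hu j hj, h.hu j' hj']) (h.ht j hj)
      (h.ht j' hj') z
    rw [← abs_of_pos (h.hl j hj), ← abs_of_pos (h.hl j' hj'), ← abs_mul, ← abs_mul, this]
  have hα : ∀ j < J, ((i / ρ ^ j : ℕ) : ℝ) * (c j).m ≤ i * (c 0).m ∧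
      i * (c 0).m ≤ (((i / ρ ^ j : ℕ) : ℝ) + 1) * (c j).m := by
    intro j hj
    have m0 := (hb 0 hJ0).m_pos
    have a1 : ((i / ρ ^ j * ρ ^ j : ℕ) : ℝ) ≤ i := by exact_mod_cast Nat.div_mul_le_self _ _
    have a2 : (i : ℝ) ≤ ((i / ρ ^ j + 1) * ρ ^ j : ℕ) := by
      exact_mod_cast (Nat.lt_mul_of_div_lt (Nat.lt_succ_self _) (by positivity)).le
    push_cast at a1 a2
    rw [h.hm j, ← mul_assoc, ← mul_assoc]
    constructor <;> gcongr
  have dE : ∀ j < J, ∀ j' < J, j < j' → Disjoint (E j) (E j') := by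
    intro j hj j' hj' hlt
    rw [Set.disjoint_left]
    intro y a1 a2
    have b1 := h.sep hb hA1 hρ hlt hj'
    have b2 := lb j hj j' hj' (iv (w (geo v (mix (SS t ζ) x y))) - z0)
    have b3 := mul_le_mul_of_nonneg_left a1.2 (h.hl j hj).le
    have b4 := mul_le_mul_of_nonneg_left a2.1 (h.hl j' hj').le
    linarith
  have sE : ∑ j ∈ Finset.range J, PE.real (E j) ≤ 1 := by
    rw [← measureReal_biUnion_finset (fun j hj j' hj' hne => ?_) (fun j _ => mE j)]
    · exact measureReal_le_one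
    · rcases lt_or_gt_of_ne hne with hlt | hlt
      · exact dE j (by simpa using hj) j' (by simpa using hj') hlt
      · exact (dE j' (by simpa using hj') j (by simpa using hj) hlt).symm
  have pG : ∀ j < J, ∀ k' ∈ Z j, p * PE.real (G j k') ≤ PE.real (E j) + 1 / J := by
    intro j hj k' hk'
    have a1 := hP j hj ζ x (i / ρ ^ j) k' (i * (c 0).m) (G j k') (hα j hj).1 (hα j hj).2
      (mG j hj k') fun y hy => hy
    rw [h.hμ j, h.ha j hj] at a1
    have a2 : ENNReal.ofReal p * PE (G j k') ≤ PE (E j) + ENNReal.ofReal (1 / J) := by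
      refine a1.trans (add_le_add (measure_mono fun y hy => ?_) hN)
      have b1 := abs_le.1 ((memZ j hj k').1 hk')
      obtain ⟨b2, b3⟩ := hy
      simp only [hE, hw, mem_ofPred_eq, map_sub]
      generalize (f j).b (iv ((geo v (mix (SS t ζ) x y)).getVert
        (hit (f 0).a (geo v (mix (SS t ζ) x y)) (i * (c 0).m)))) = β at *
      rw [hA]
      constructor
      · rcases abs_cases (β - k' * (c j).m) with b | b <;>
          rcases abs_cases (β - (f j).b z0) with b' | b' <;> linarith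
      · rcases abs_cases (β - k' * (c j).m) with b | b <;>
          rcases abs_cases (β - (f j).b z0) with b' | b' <;> linarith
    have a3 := ENNReal.toReal_mono (by finiteness) a2
    rwa [ENNReal.toReal_mul, ENNReal.toReal_add (by finiteness) (by finiteness),
      ENNReal.toReal_ofReal hp.le, ENNReal.toReal_ofReal (by positivity)] at a3
  set N : Env → ℝ := fun y => ∑ j ∈ Finset.range J, ∑ k' ∈ Z j, (G j k').indicator 1 y with hN'
  have iG : ∀ j < J, ∀ k', Integrable ((G j k').indicator (1 : Env → ℝ)) PE := fun j hj k' =>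
    (integrable_const 1).indicator (mG j hj k')
  have HN : H ⊆ {y | (J : ℝ) / 2 ≤ N y} := by
    intro y hy
    obtain ⟨a1, a2⟩ := hy
    have a3 := (Finset.mem_filter.1 a1).2.2.2.2
    have a4 : (((Finset.range J).filter fun j => i / ρ ^ j ∈ F j (ζ, mix (SS t ζ) x y)).card : ℝ) ≤
        N y := by
      rw [Finset.card_filter]
      push_cast
      refine Finset.sum_le_sum fun j hj => ?_
      have hj := Finset.mem_range.1 hj
      split_ifs with a5
      swap
      · exact Finset.sum_nonneg fun _ _ => indicator_nonneg (fun _ _ => zero_le_one) _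
      set γ := geo v (mix (SS t ζ) x y) with hγ
      have mj := (hb j hj).m_pos
      have m0 := (hb 0 hJ0).m_pos
      have b1 : |(f 0).b (iv (w γ) - z0)| ≤ (c 0).m := by
        have := b_xs (f 0) m0 γ i
        rw [a2] at this
        rw [map_sub, hz0, zc, (h.top 0 hJ0).fr.b_pt, abs_le]
        change _ ≤ (f 0).b (iv (xs (f 0) (c 0).m γ i)) - _ ∧
          (f 0).b (iv (xs (f 0) (c 0).m γ i)) - _ ≤ _
        constructor <;> linarith [this.1, this.2]
      have b2 : |(f j).b (iv (w γ) - z0)| ≤ (c j).m := by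
        rcases Nat.eq_zero_or_pos j with rfl | hj0
        · exact b1
        have c1 := h.sep hb hA1 hρ hj0 hj
        have c2 := lb 0 hJ0 j hj (iv (w γ) - z0)
        have c3 := mul_le_mul_of_nonneg_left b1 (h.hl 0 hJ0).le
        have c4 : l 0 * (c 0).m ≤ A * (l 0 * (c 0).m) :=
          le_mul_of_one_le_left (mul_pos (h.hl 0 hJ0) m0).le hA1
        exact le_of_mul_le_mul_left (by linarith) (h.hl j hj)
      have b3 : |(f j).b (iv (w γ - xs (f j) (c j).m γ (i / ρ ^ j)))| ≤ K3 * (c j).m := by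
        refine (le_Dd (f j) mj ?_ ?_).trans
          (mul_le_mul_of_nonneg_right (hD j hj (ζ, _) _ a5) mj.le)
        · rw [tk, h.ha j hj]; exact hit_mono _ (hα j hj).1
        · rw [tk, h.ha j hj]; exact hit_mono _ (by push_cast; exact (hα j hj).2)
      have b4 := b_xs (f j) mj γ (i / ρ ^ j)
      have b5 : cs (f j) (c j).m γ (i / ρ ^ j) ∈ Z j := by
        rw [memZ j hj]
        rw [iv_sub, map_sub] at b3
        rw [map_sub] at b2
        rw [abs_le] at b2 b3 ⊢
        constructor <;> linarith [b2.1, b2.2, b3.1, b3.2, b4.1, b4.2]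
      refine le_trans (le_of_eq ?_) (Finset.single_le_sum
        (f := fun k' => (G j k').indicator (1 : Env → ℝ) y)
        (fun _ _ => indicator_nonneg (fun _ _ => zero_le_one) _) b5)
      rw [indicator_of_mem (show y ∈ G j _ from ⟨a5, rfl⟩)]; rfl
    have a5 : (J : ℝ) ≤ 2 * (((Finset.range J).filter fun j =>
      i / ρ ^ j ∈ F j (ζ, mix (SS t ζ) x y)).card : ℝ) := by exact_mod_cast a3
    change _ ≤ N y
    linarith
  have iN : Integrable N PE := integrable_finsetSum _ fun j hj =>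
    integrable_finsetSum _ fun k' _ => iG j (Finset.mem_range.1 hj) k'
  have M1 := mul_meas_ge_le_integral_of_nonneg (μ := PE) (f := N)
    (ae_of_all _ fun y => Finset.sum_nonneg fun _ _ => Finset.sum_nonneg fun _ _ =>
      indicator_nonneg (fun _ _ => zero_le_one) _) iN (J / 2)
  have M2 : p * ∫ y, N y ∂PE ≤ (2 * K3 + 5) * 2 := by
    rw [integral_finsetSum _ fun j hj =>
      integrable_finsetSum _ fun k' _ => iG j (Finset.mem_range.1 hj) k', Finset.mul_sum]
    calc _ ≤ ∑ j ∈ Finset.range J, (2 * K3 + 5) * (PE.real (E j) + 1 / J) := by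
          refine Finset.sum_le_sum fun j hj => ?_
          have hj := Finset.mem_range.1 hj
          rw [integral_finsetSum _ fun k' _ => iG j hj k', Finset.mul_sum]
          refine (Finset.sum_le_card_nsmul _ _ (PE.real (E j) + 1 / J) fun k' hk' => ?_).trans ?_
          · rw [integral_indicator_one (mG j hj k')]; exact pG j hj k' hk'
          · rw [nsmul_eq_mul]
            have := card_near ((f j).b z0 / (c j).m) (K3 + 2)
            refine mul_le_mul_of_nonneg_right (this.trans (le_of_eq ?_)) (by positivity)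
            push_cast; ring
      _ ≤ _ := by
          rw [← Finset.mul_sum, Finset.sum_add_distrib, Finset.sum_const, Finset.card_range,
            nsmul_eq_mul, mul_one_div_cancel hJ'.ne']
          gcongr
          linarith
  have M3 : PE.real H ≤ PE.real {y | (J : ℝ) / 2 ≤ N y} := measureReal_mono HN
  rw [← ENNReal.ofReal_toReal (measure_ne_top PE H)]
  refine ENNReal.ofReal_le_ofReal ?_
  rw [le_div_iff₀ (by positivity)]
  change PE.real H * _ ≤ _
  have M4 := mul_le_mul_of_nonneg_left (M3.trans' le_rfl) (show 0 ≤ p * (J / 2) by positivity)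
  have M5 := mul_le_mul_of_nonneg_left M1 hp.le
  nlinarith

end Pool.Agent.Lib.MP_de94ef_pr.Q
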