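import Pool.Agent.Lib.MP_de94ef_pr.Q.TopL
import Pool.Agent.Lib.MP_de94ef_pr.Q.Var
import Pool.Agent.Lib.MP_de94ef_pr.Q.Comb

-- part Pool.Agent.Lib.MP_de94ef_pr.Q.Typ
section

/-!
Typical events: measurability, locality, probabilities.
-/

open MeasureTheory ProbabilityTheory Set Real Function Filter Topology
open scoped ENNReal NNReal

namespace Pool.Agent.Lib.MP_de94ef_pr.Q

lemma typ_imp {α : Type} [MeasurableSpace α] (p : Prop) {q : α → Prop}
    (h : MeasurableSet {x | q x}) : MeasurableSet {x | p → q x} := by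
  by_cases hp : p
  · simpa [hp] using h
  · simp [hp]

lemma typ_all {α ι : Type} [MeasurableSpace α] [Countable ι] {q : ι → α → Prop}
    (h : ∀ i, MeasurableSet {x | q i x}) : MeasurableSet {x | ∀ i, q i x} := by
  rw [ofPred_forall]
  exact MeasurableSet.iInter h

lemma typ_ex {α ι : Type} [MeasurableSpace α] [Countable ι] {q : ι → α → Prop}
    (h : ∀ i, MeasurableSet {x | q i x}) : MeasurableSet {x | ∃ i, q i x} := by
  rw [ofPred_exists]
  exact MeasurableSet.iUnion h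

lemma typ_and {α : Type} [MeasurableSpace α] {p q : α → Prop}
    (h : MeasurableSet {x | p x}) (h' : MeasurableSet {x | q x}) :
    MeasurableSet {x | p x ∧ q x} := h.inter h'

lemma typ_const {α : Type} [MeasurableSpace α] (p : Prop) : MeasurableSet {_x : α | p} :=
  MeasurableSet.const p

lemma typ_snd {q : Env → Prop} (h : MeasurableSet {x | q x}) :
    MeasurableSet {ω : Om | q ω.2} := measurable_snd h

lemma typ_mix_congr {t : ℝ} {E : Set EE} {ω ω' : Om} {e : EE}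
    (h : ω.1 e = ω'.1 e ∧ ω.2 e = ω'.2 e) (z : Env) :
    mix (SS t ω.1 ∩ E) ω.2 z e = mix (SS t ω'.1 ∩ E) ω'.2 z e := by
  have h1 : e ∈ SS t ω.1 ∩ E ↔ e ∈ SS t ω'.1 ∩ E := by
    simp only [SS, mem_inter_iff, mem_ofPred_eq, h.1]
  by_cases h2 : e ∈ SS t ω.1 ∩ E
  · have h3 := h1.1 h2
    simp only [mix, h2, h3, if_true]
  · have h3 : e ∉ SS t ω'.1 ∩ E := fun h3 => h2 (h1.2 h3)
    simp only [mix, h2, h3, if_false, h.2]

section events

variable {f : Fd} {κ r ρ C t α α' : ℝ} {z z' : ℝ × ℝ} {A : Finset VV}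

lemma measurableSet_UE (f : Fd) (r C : ℝ) (z z' : ℝ × ℝ) (α α' : ℝ) :
    MeasurableSet {X | UE f r C z z' α α' X} :=
  typ_all fun _ => typ_all fun _ => typ_imp _ (typ_imp _ (measurableSet_Reach _ _ _ _))

lemma isLowerSet_UE (f : Fd) (r C : ℝ) (z z' : ℝ × ℝ) (α α' : ℝ) :
    IsLowerSet {X | UE f r C z z' α α' X} :=
  fun _ _ hab ha q q' h1 h2 => isLowerSet_Reach _ _ _ _ hab (ha q q' h1 h2)

lemma dependsOn_UE (f : Fd) (r C : ℝ) (z z' : ℝ × ℝ) (α α' : ℝ) :
    DependsOn (UE f r C z z' α α') (((Sl f z α α').sym2 : Finset EE) : Set EE) := by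
  intro x y h
  refine propext ⟨fun hx q q' h1 h2 => (hx q q' h1 h2).congr fun e he => (h e he).symm,
    fun hx q q' h1 h2 => (hx q q' h1 h2).congr fun e he => h e he⟩

lemma measurableSet_LE (f : Fd) (κ r ρ C : ℝ) (z z' : ℝ × ℝ) (A : Finset VV) :
    MeasurableSet {X | LE f κ r ρ C z z' A X} :=
  typ_all fun _ => typ_all fun _ => typ_imp _ (typ_imp _ (typ_imp _ (typ_all fun _ =>
    typ_imp _ (measurableSet_le measurable_const (measurable_wt _)))))

lemma dependsOn_LE (f : Fd) (κ r ρ C : ℝ) (z z' : ℝ × ℝ) (A : Finset VV) :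
    DependsOn (LE f κ r ρ C z z' A) ((A.sym2 : Finset EE) : Set EE) := by
  intro x y h
  refine propext ⟨fun hx q q' h1 h2 h3 p hp => ?_, fun hx q q' h1 h2 h3 p hp => ?_⟩
  · rw [wt_congr (X := x) (X' := y) fun e he => (h e (es_subset_sym2 hp he)).symm]
    exact hx q q' h1 h2 h3 p hp
  · rw [wt_congr (X := y) (X' := x) fun e he => h e (es_subset_sym2 hp he)]
    exact hx q q' h1 h2 h3 p hp

theorem probLE {N η : ℝ} (hN : 1 ≤ N) (ρ : ℝ) (hη : 0 < η) : ∃ C : ℝ, 0 ≤ C ∧ ∀ᶠ c in FB,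
    ∀ (f : Fd) (z z' : ℝ × ℝ) (A : Finset VV), Fr c.μ c.κ 1 f →
    PE {X | ¬ LE f c.κ (N * c.m) (ρ * c.m) (C * c.s) z z' A X} ≤ ENNReal.ofReal η := by
  obtain ⟨C, hC, h⟩ := lowEvent hN ρ hη
  refine ⟨C, hC, ?_⟩
  filter_upwards [h] with c hc f z z' A hF
  obtain ⟨E, -, hE, hE'⟩ := hc 1 f z z' hF
  refine le_trans (measure_mono fun X hX => ?_) hE
  by_contra hn
  exact hX fun q q' h1 h2 h3 p _ => (hE' X hn q q' h1 h2 h3).trans (TT_le X p)

lemma UE.mono {C' : ℝ} {X : Env} (h : UE f r C z z' α α' X) (hC : C ≤ C') :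
    UE f r C' z z' α α' X := by
  intro q q' h1 h2
  obtain ⟨p, hp, hw⟩ := h q q' h1 h2
  exact ⟨p, hp, by linarith⟩

lemma LE.mono {C' : ℝ} {X : Env} (h : LE f κ r ρ C z z' A X) (hC : C ≤ C') :
    LE f κ r ρ C' z z' A X := by
  intro q q' h1 h2 h3 p hp
  have := h q q' h1 h2 h3 p hp
  linarith

lemma locOn_snd {β : Type} {U : Env → β} {E : Finset EE} (h : DependsOn U (E : Set EE)) :
    LocOn E fun ω : Om => U ω.2 :=
  fun _ _ hω => h fun e he => (hω e he).2

lemma typ_meas_sec {U : Env → Prop} (h : MeasurableSet {X | U X}) (t : ℝ) (E : Set EE) :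
    Measurable fun ω : Om => PE {z | U (mix (SS t ω.1 ∩ E) ω.2 z)} :=
  measurable_measure_prodMk_left (ν := PE) (measurable_mixE t E h)

lemma measurableSet_Hat {U : Env → Prop} (h : MeasurableSet {X | U X}) (t : ℝ) (E : Finset EE) :
    MeasurableSet {ω | Hat t U E ω} :=
  measurableSet_le (typ_meas_sec (U := fun X => ¬ U X) h.compl t E) measurable_const

lemma locOn_Hat {U : Env → Prop} {E' : Finset EE} (h : DependsOn U (E' : Set EE)) (t : ℝ)
    (E : Finset EE) : LocOn E' (Hat t U E) := by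
  intro ω ω' hω
  have : ∀ z, U (mix (SS t ω.1 ∩ E) ω.2 z) = U (mix (SS t ω'.1 ∩ E) ω'.2 z) := fun z =>
    h fun e he => typ_mix_congr (hω e he) z
  simp only [Hat, this]

lemma prob_Hat {U : Env → Prop} (h : MeasurableSet {X | U X}) (t : ℝ) (E : Finset EE) :
    P2 {ω | ¬ Hat t U E ω} ≤ 6 * PE {X | ¬ U X} := by
  have hm := typ_meas_sec (U := fun X => ¬ U X) h.compl t E
  have hS : MeasurableSet {p : Om × Env | ¬ U (mix (SS t p.1.1 ∩ E) p.1.2 p.2)} :=
    measurable_mixE t E h.compl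
  have h1 : ∫⁻ ω, PE {z | ¬ U (mix (SS t ω.1 ∩ E) ω.2 z)} ∂P2 = PE {X | ¬ U X} := by
    have h2 := Measure.prod_apply (μ := P2) (ν := PE) hS
    have h3 := ((measurePreserving_snd (μ := PE) (ν := PE)).comp
      (measurePreserving_mixE t E)).measure_preimage (s := {X | ¬ U X}) h.compl.nullMeasurableSet
    exact h2.symm.trans h3
  have h4 := mul_meas_ge_le_lintegral₀ (μ := P2) hm.aemeasurable (1 / 6)
  rw [h1] at h4
  have h5 : P2 {ω | ¬ Hat t U E ω} ≤
      P2 {ω : Om | 1 / 6 ≤ PE {z | ¬ U (mix (SS t ω.1 ∩ E) ω.2 z)}} :=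
    measure_mono fun ω hω => (not_le.1 hω).le
  calc P2 {ω | ¬ Hat t U E ω} = 6 * (1 / 6 * P2 {ω | ¬ Hat t U E ω}) := by
        rw [← mul_assoc, one_div, ENNReal.mul_inv_cancel (by norm_num) (by norm_num), one_mul]
    _ ≤ 6 * PE {X | ¬ U X} := by
        gcongr
        exact le_trans (by gcongr) h4

end events

variable (c : Bs) (f : Fd) (P : Pm)

lemma measurableSet_Fast (k : ℤ) (o : VV) : MeasurableSet {X | Fast c f P k o X} :=
  measurableSet_le (measurable_TC _ _ _ _) measurable_const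

lemma isLowerSet_Fast (k : ℤ) (o : VV) : IsLowerSet {X | Fast c f P k o X} :=
  fun _ _ hab ha => le_trans (monotone_TC _ _ _ _ hab) ha

lemma dependsOn_Fast (k : ℤ) (o : VV) :
    DependsOn (Fast c f P k o) (((Nb f c.m P.K1 o).sym2 : Finset EE) : Set EE) := by
  intro x y h
  have := dependsOn_TC (Nb f c.m P.K1 o) (f.L (iv (yk f c.m k))) o (o + yk f c.m k) h
  simp only [Fast, FF, this]

lemma measurableSet_Qe (k : ℤ) (t : ℝ) (o : VV) : MeasurableSet {ω | Qe c f P k t o ω} :=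
  measurableSet_le measurable_const
    (measurable_measure_prodMk_left (ν := PE) (measurable_mixS t (measurableSet_Fast c f P k o)))

lemma locOn_Qe (k : ℤ) (t : ℝ) (o : VV) : LocOn (Nb f c.m P.K1 o).sym2 (Qe c f P k t o) := by
  intro ω ω' hω
  have : ∀ z, Fast c f P k o (mix (SS t ω.1) ω.2 z) = Fast c f P k o (mix (SS t ω'.1) ω'.2 z) :=
    fun z => dependsOn_Fast c f P k o fun e he => by
      simpa only [inter_univ] using typ_mix_congr (t := t) (E := univ) (hω e he) z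
  simp only [Qe, this]

lemma measurableSet_Lw (i : ℕ) (cc : ℤ) (r : ℕ) : MeasurableSet {X | Lw c f P i cc r X} := by
  simp only [Lw, mem_insert_iff, mem_singleton_iff, forall_eq_or_imp, forall_eq]
  exact typ_and (typ_and (measurableSet_LE ..) (measurableSet_LE ..))
    (typ_and (measurableSet_LE ..) (measurableSet_LE ..))

lemma measurableSet_Typ (t : ℝ) (i : ℕ) (cl cc cr : ℤ) (r : ℕ) :
    MeasurableSet {ω | Typ c f P t i cl cc cr r ω} :=
  typ_and (typ_snd (measurableSet_UE ..)) (typ_and (typ_snd (measurableSet_UE ..))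
    (typ_and (typ_snd (measurableSet_Lw c f P i cc r))
      (typ_and (measurableSet_Hat (measurableSet_UE ..) _ _)
        (typ_and (measurableSet_Hat (measurableSet_UE ..) _ _)
          (measurableSet_Hat (measurableSet_UE ..) _ _)))))

lemma typ_meas_Gd (k : ℤ) (t : ℝ) (M : ℕ) {v : VV} (p : GG.Walk 0 v) (i : ℕ) :
    MeasurableSet {ω | Gd c f P k t M p i ω} := by
  refine typ_and (typ_const _) (typ_and (typ_const _) (typ_and (typ_const _) (typ_and ?_
    (typ_and (typ_const _) (typ_and (typ_const _) (typ_and ?_ ?_))))))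
  · refine measurableSet_le (Finset.measurable_fun_sum _ fun j _ => ?_) measurable_const
    exact ((measurable_ex f c.m p j).comp measurable_snd).abs
  · exact typ_ex fun r => typ_and (typ_const _)
      (typ_and (measurableSet_Qe ..) (measurableSet_Qe ..))
  · exact typ_all fun r => typ_imp _ (measurableSet_Typ ..)

lemma flags_GdF (k : ℤ) (t : ℝ) (v : VV) (M : ℕ) (s : ℝ) :
    Flags c f v M s (GdF c f P k t v M s) := by
  refine ⟨fun i => ?_, fun ω i hi => ?_⟩
  · simp only [GdF, Finset.mem_filter]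
    exact typ_and (typ_const _) (typ_and (typ_snd (measurableSet_Nice ..))
      (measSet_geo2 v (F := fun p ω => Gd c f P k t M p i ω) fun p => typ_meas_Gd c f P k t M p i))
  · simp only [GdF, Finset.mem_filter, Finset.mem_range] at hi
    exact ⟨hi.1, hi.2.1⟩

variable {c f P}

lemma typ_b_fl {K : ℝ} (hB : c.Big K) (hF : Fr c.μ c.κ 1 f) (z : ℝ × ℝ) :
    |f.b (iv (fl z)) - f.b z| ≤ c.m := by
  have h1 := hF.b_fl hB.tc z
  have h2 := hB.κm
  have h3 := hB.s_ge
  have h4 := hB.κ_pos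
  by_contra h
  have := mul_lt_mul_of_pos_left (not_le.1 h) h4
  linarith [show (8 : ℝ) ≤ 10 ^ 30 by norm_num]

lemma typ_yk {K1 : ℕ} {k : ℤ} (hB : c.Big (K1 + 7)) (hF : Fr c.μ c.κ 1 f) (hk : |(k : ℝ)| ≤ K1) :
    0 ≤ f.L (iv (yk f c.m k)) ∧ f.L (iv (yk f c.m k)) ≤ c.μ (iv (yk f c.m k)) + 9 * c.s ∧
      n1 (yk f c.m k) ≤ 22 * (K1 + 7) * c.m := by
  have hK : (0 : ℝ) ≤ K1 := Nat.cast_nonneg _
  have ha := hF.a_fl hB.tc (f.pt (4 * c.m) (k * c.m))
  have hb := typ_b_fl hB hF (f.pt (4 * c.m) (k * c.m))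
  rw [hF.a_pt] at ha
  rw [hF.b_pt] at hb
  change |f.a (iv (yk f c.m k)) - _| ≤ _ at ha
  change |f.b (iv (yk f c.m k)) - _| ≤ _ at hb
  set y := iv (yk f c.m k) with hy
  have hm := hB.m_ge (by linarith)
  have hm0 := hB.m_pos
  have hs := hB.s_ge
  have hκ := hB.κ_pos
  have hκm := hB.κm
  have hKκ := hB.Kκ
  have hκ2 := hF.κhalf
  have e30 : (100 : ℝ) ≤ 10 ^ 30 := by norm_num
  obtain ⟨a1, a2⟩ := abs_le.1 ha
  have a3 : |f.a y| ≤ 5 * c.m := abs_le.2 ⟨by linarith, by linarith⟩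
  have b1 : |f.b y| ≤ (K1 + 1) * c.m := by
    have h1 := abs_add_le (f.b y - k * c.m) (k * c.m)
    rw [sub_add_cancel, abs_mul, abs_of_pos hm0] at h1
    nlinarith
  refine ⟨?_, ?_, ?_⟩
  · have h1 := (abs_le.1 (hF.La y)).1
    have h2 : 1 * c.κ * (|f.a y| + |f.b y|) ≤ c.κ * ((K1 + 7) * c.m) := by
      rw [one_mul]
      exact mul_le_mul_of_nonneg_left (by linarith) hκ.le
    have h3 : c.κ * ((K1 + 7) * c.m) ≤ c.m := by nlinarith
    linarith
  · have h1 := hF.low y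
    rw [max_eq_left (by linarith)] at h1
    have h2 : 0 ≤ c.κ * |f.b y| := by positivity
    have h3 : c.κ * f.a y ≤ c.κ * (4 * c.m + 2) := mul_le_mul_of_nonneg_left (by linarith) hκ.le
    nlinarith
  · have h1 := hB.tc.ge y
    have h2 := hF.le hB.tc y
    rw [hy, r1_iv] at h1
    rw [← hy] at h1
    nlinarith

lemma typ_exp_max (X u : ℝ) : exp (X * max u 0) ≤ 1 + exp (X * u) := by
  rcases le_total u 0 with h | h
  · rw [max_eq_right h, mul_zero, exp_zero]
    linarith [exp_pos (X * u)]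
  · rw [max_eq_left h]
    linarith

variable (c f P)

theorem probQ (K1 : ℕ) {a : ℝ} (ha : 0 < a) : ∃ c0 : ℝ, 0 < c0 ∧ c0 ≤ 1 ∧ ∀ Rr : ℝ, 0 < Rr →
    ∃ p : ℝ, 0 < p ∧ ∀ᶠ c in FB, ∀ (f : Fd) (P : Pm) (k : ℤ) (t : ℝ) (o : VV), Fr c.μ c.κ 1 f →
    P.K1 = K1 → P.Rr = Rr → P.p = p → |(k : ℝ)| ≤ K1 →
    a ^ 2 * c.s ^ 2 ≤ cvar t (FF f c.m K1 k 0) →
    ENNReal.ofReal c0 ≤ P2 {ω | Qe c f P k t o ω} := by
  obtain ⟨B1, hB1, e1⟩ := est_ev (22 * (K1 + 7)) (le_refl (1 : ℝ))
  obtain ⟨c0, h0, h1, hq⟩ := qcond ha (8 * (B1 + 9) ^ 4 + 576)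
  refine ⟨c0, h0, h1, fun Rr hRr => ?_⟩
  obtain ⟨θ, hθ, hq⟩ := hq Rr hRr
  obtain ⟨B2, hB2, e2⟩ := est_ev (22 * (K1 + 7)) (le_max_right (2 * θ) 1)
  set X2 := max (2 * θ) 1 with hX2
  have hX2' : 1 ≤ X2 := le_max_right _ _
  obtain ⟨p, hp, hq⟩ := hq (1 + exp (X2 * (B2 + 9)) * 3)
  refine ⟨p, hp, ?_⟩
  filter_upwards [e1, e2, ev_big (K1 + 7), ev_big θ] with c e1 e2 hB hBθ f P k t o hF hK hR hPp
    hk hv
  obtain ⟨y0, y1, y2⟩ := typ_yk hB hF hk
  have hs := hB.s_pos
  set y := yk f c.m k with hy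
  have hn : n1 (o + y - o) ≤ 22 * (K1 + 7) * c.m := by rwa [add_sub_cancel_left]
  have d1 := (e1 o (o + y) hn).2
  have d2 := (e2 o (o + y) hn).2
  rw [add_sub_cancel_left] at d1 d2
  rw [div_one] at d1
  obtain ⟨γ, hγ⟩ := sg_TC (Nb f c.m K1 o) y0 o (o + y)
  obtain ⟨γ0, hγ0⟩ := sg_TC (Nb f c.m K1 0) y0 0 (0 + y)
  have hcap : ∀ x, FF f c.m K1 k o x ≤ f.L (iv y) := fun x => TC_le_cap x
  have hle : ∀ x, f.L (iv y) - FF f c.m K1 k o x ≤
      max (c.μ (iv y) - TT x o (o + y) + 9 * c.s) 0 := fun x => by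
    have h2 : min (TT x o (o + y)) (f.L (iv y)) ≤ FF f c.m K1 k o x := min_le_TC x
    rcases min_le_iff.1 h2 with h3 | h3
    · exact le_max_of_le_left (by linarith)
    · exact le_max_of_le_right (by linarith)
  have hcv : cvar t (FF f c.m K1 k o) = cvar t (FF f c.m K1 k 0) := by
    rw [← cvar_tau (T := FF f c.m K1 k 0) hγ0 t o]
    congr 1
    funext x
    exact FF_tau f c.m K1 k o x
  have m4 : ∫ x, (f.L (iv y) - FF f c.m K1 k o x) ^ 4 ∂PE ≤
      (8 * (B1 + 9) ^ 4 + 576) * c.s ^ 4 := by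
    have d3 : Dom (fun ω z => z = c.μ (iv y) - TT ω o (o + y) + 9 * c.s) ((B1 + 9) * c.s) c.s :=
      d1.mono hs fun ω z hz => ⟨_, rfl, by rw [hz]; linarith⟩
    obtain ⟨i1, i2⟩ := dom_pow_four (by fun_prop) d3 hs (by positivity)
    refine le_trans (integral_mono_of_nonneg (ae_of_all _ fun x => ?_) i1
      (ae_of_all _ fun x => ?_)) (i2.trans (le_of_eq (by ring)))
    · exact pow_nonneg (sub_nonneg.2 (hcap x)) 4
    · exact pow_le_pow_left₀ (sub_nonneg.2 (hcap x)) (hle x) 4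
  have mexp : ∫⁻ x, ENNReal.ofReal (exp (2 * θ * (f.L (iv y) - FF f c.m K1 k o x) / c.s)) ∂PE ≤
      ENNReal.ofReal (1 + exp (X2 * (B2 + 9)) * 3) := by
    have d3 := dom_lintegral d2
    have hpt : ∀ x, ENNReal.ofReal (exp (2 * θ * (f.L (iv y) - FF f c.m K1 k o x) / c.s)) ≤
        1 + ENNReal.ofReal (exp (X2 * (B2 + 9))) * ENNReal.ofReal
          (exp ((c.μ (iv y) - TT x o (o + y) - B2 * c.s) / (c.s / X2))) := fun x => by
      rw [← ENNReal.ofReal_mul (exp_pos _).le, ← exp_add, ← ENNReal.ofReal_one,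
        ← ENNReal.ofReal_add zero_le_one (exp_pos _).le]
      refine ENNReal.ofReal_le_ofReal ?_
      have h2 := typ_exp_max (X2 / c.s) (c.μ (iv y) - TT x o (o + y) + 9 * c.s)
      have h3 : X2 / c.s * (c.μ (iv y) - TT x o (o + y) + 9 * c.s) = X2 * (B2 + 9) +
          (c.μ (iv y) - TT x o (o + y) - B2 * c.s) / (c.s / X2) := by
        field_simp
        ring
      rw [h3] at h2
      refine le_trans (exp_le_exp.2 ?_) h2
      rw [div_mul_eq_mul_div]
      refine div_le_div_of_nonneg_right ?_ hs.le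
      exact mul_le_mul (le_max_left _ _) (hle x) (sub_nonneg.2 (hcap x)) (by linarith)
    refine le_trans (lintegral_mono hpt) ?_
    rw [lintegral_add_left measurable_const, lintegral_const_mul _ (by fun_prop), lintegral_const,
      measure_univ, mul_one, ENNReal.ofReal_add zero_le_one (by positivity), ENNReal.ofReal_one,
      ENNReal.ofReal_mul (exp_pos _).le]
    gcongr
    simpa using d3
  have := hq (FF f c.m K1 k o) γ _ (f.L (iv y)) c.s t hγ hBθ.s_ge' hcap (by rwa [hcv]) m4 mexp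
  simpa only [Qe, Fast, hK, hR, hPp] using this

variable {c f P}

lemma typ_mem_Nb {m K : ℝ} {o w : VV} (h : w ∈ Nb f m K o) :
    -m ≤ f.a (iv w) - f.a (iv o) ∧ f.a (iv w) - f.a (iv o) < 5 * m ∧
      |f.b (iv w) - f.b (iv o)| ≤ K * m := by
  simp only [Nb, Finset.mem_filter, iv_sub, map_sub] at h
  exact h.2

lemma typ_om (hB : c.Big 100) (hF : Fr c.μ c.κ 1 f) {i : ℕ} {cc : ℤ} {r : ℕ} {w : VV}
    (h : w ∈ Nb f c.m P.K1 (om c f P i cc r)) :
    ((i : ℝ) - P.G - 6) * c.m - 2 ≤ f.a (iv w) ∧ f.a (iv w) < ((i : ℝ) - P.G) * c.m + 2 ∧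
      |f.b (iv w) - hb c P cc r| ≤ (P.K1 + 1) * c.m := by
  obtain ⟨h1, h2, h3⟩ := typ_mem_Nb h
  have ha := hF.a_fl hB.tc (f.pt (((i : ℝ) - P.G - 5) * c.m) (hb c P cc r))
  have hb' := typ_b_fl hB hF (f.pt (((i : ℝ) - P.G - 5) * c.m) (hb c P cc r))
  rw [hF.a_pt] at ha
  rw [hF.b_pt] at hb'
  change |f.a (iv (om c f P i cc r)) - _| ≤ _ at ha
  change |f.b (iv (om c f P i cc r)) - _| ≤ _ at hb'
  obtain ⟨a1, a2⟩ := abs_le.1 ha
  obtain ⟨b1, b2⟩ := abs_le.1 hb'
  obtain ⟨b3, b4⟩ := abs_le.1 h3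
  exact ⟨by linarith, by linarith, abs_le.2 ⟨by linarith, by linarith⟩⟩

lemma typ_op (hB : c.Big 100) (hF : Fr c.μ c.κ 1 f) {i : ℕ} {cc : ℤ} {r : ℕ} {w : VV}
    (h : w ∈ Nb f c.m P.K1 (op c f P i cc r)) :
    ((i : ℝ) + P.G + 1) * c.m - 2 ≤ f.a (iv w) ∧ f.a (iv w) < ((i : ℝ) + P.G + 7) * c.m + 2 ∧
      |f.b (iv w) - hb c P cc r| ≤ (P.K1 + 1) * c.m := by
  obtain ⟨h1, h2, h3⟩ := typ_mem_Nb h
  have ha := hF.a_fl hB.tc (f.pt (((i : ℝ) + 2 + P.G) * c.m) (hb c P cc r))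
  have hb' := typ_b_fl hB hF (f.pt (((i : ℝ) + 2 + P.G) * c.m) (hb c P cc r))
  rw [hF.a_pt] at ha
  rw [hF.b_pt] at hb'
  change |f.a (iv (op c f P i cc r)) - _| ≤ _ at ha
  change |f.b (iv (op c f P i cc r)) - _| ≤ _ at hb'
  obtain ⟨a1, a2⟩ := abs_le.1 ha
  obtain ⟨b1, b2⟩ := abs_le.1 hb'
  obtain ⟨b3, b4⟩ := abs_le.1 h3
  exact ⟨by linarith, by linarith, abs_le.2 ⟨by linarith, by linarith⟩⟩

/-- The tubes lie in the middle slab. -/
lemma inR_EN (hB : c.Big 100) (hF : Fr c.μ c.κ 1 f) (i : ℕ) (cc : ℤ) (r : ℕ) :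
    InR f.a (((i : ℝ) - P.g) * c.m) (((i : ℝ) + P.g) * c.m) (EN c f P i cc r) := by
  intro e he w hw
  have hm := hB.one
  have hG : (0 : ℝ) ≤ P.G * c.m := by positivity
  have hN : (0 : ℝ) ≤ P.N * c.m := by positivity
  have hg : (P.g : ℝ) = P.G + P.N + 10 := by simp [Pm.g]
  rw [hg]
  rcases Finset.mem_union.1 he with h | h
  · obtain ⟨h1, h2, -⟩ := typ_om hB hF (Finset.mem_sym2_iff.1 h w hw)
    constructor <;> nlinarith
  · obtain ⟨h1, h2, -⟩ := typ_op hB hF (Finset.mem_sym2_iff.1 h w hw)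
    constructor <;> nlinarith

lemma typ_disj_sym2 {A A' : Finset VV} (h : ∀ w ∈ A, w ∉ A') : Disjoint A.sym2 A'.sym2 := by
  rw [Finset.disjoint_left]
  intro e he he'
  induction e using Sym2.ind with
  | _ a b =>
    exact h a (Finset.mem_sym2_iff.1 he a (Sym2.mem_mk_left a b))
      (Finset.mem_sym2_iff.1 he' a (Sym2.mem_mk_left a b))

lemma typ_EN_b (hB : c.Big 100) (hF : Fr c.μ c.κ 1 f) {i : ℕ} {cc : ℤ} {r : ℕ} {e : EE}
    (he : e ∈ EN c f P i cc r) {w : VV} (hw : w ∈ e) :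
    |f.b (iv w) - hb c P cc r| ≤ (P.K1 + 1) * c.m := by
  rcases Finset.mem_union.1 he with h | h
  · exact (typ_om hB hF (Finset.mem_sym2_iff.1 h w hw)).2.2
  · exact (typ_op hB hF (Finset.mem_sym2_iff.1 h w hw)).2.2

lemma typ_disj_EN (hB : c.Big 100) (hF : Fr c.μ c.κ 1 f) (hP : 2 * P.K1 + 3 ≤ P.Y0) (i : ℕ)
    (cc : ℤ) {r r' : ℕ} (h : r < r') : Disjoint (EN c f P i cc r) (EN c f P i cc r') := by
  rw [Finset.disjoint_left]
  intro e he he'
  induction e using Sym2.ind with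
  | _ a b =>
    obtain ⟨h1, h2⟩ := abs_le.1 (typ_EN_b hB hF he (Sym2.mem_mk_left a b))
    obtain ⟨h3, h4⟩ := abs_le.1 (typ_EN_b hB hF he' (Sym2.mem_mk_left a b))
    have hm := hB.one
    have h5 : (r : ℝ) + 1 ≤ r' := by exact_mod_cast h
    have h6 : 2 * (P.K1 : ℝ) + 3 ≤ P.Y0 := by exact_mod_cast hP
    have h7 : (0 : ℝ) ≤ P.Y0 := Nat.cast_nonneg _
    have h8 : ((r : ℝ) + 1) * P.Y0 ≤ r' * P.Y0 := mul_le_mul_of_nonneg_right h5 h7
    have h9 : ((r : ℝ) * P.Y0 + (2 * P.K1 + 3)) * c.m ≤ (r' * P.Y0) * c.m :=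
      mul_le_mul_of_nonneg_right (by linarith) (by linarith)
    simp only [hb] at h1 h2 h3 h4
    nlinarith

lemma typ_locOn_mono {β : Type} {E E' : Finset EE} {W : Om → β} (h : LocOn E W) (hE : E ⊆ E') :
    LocOn E' W := fun ω ω' hω => h ω ω' fun e he => hω e (hE he)

lemma typ_locOn_ind {E : Finset EE} {W : Om → Prop} (h : LocOn E W) :
    LocOn E ({ω | W ω}.indicator (1 : Om → ℝ≥0∞)) := by
  intro ω ω' hω
  have := h ω ω' hω
  by_cases h1 : W ω
  · have h2 : W ω' := this ▸ h1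
    rw [indicator_of_mem (show ω ∈ {ω | W ω} from h1),
      indicator_of_mem (show ω' ∈ {ω | W ω} from h2)]
    rfl
  · have h2 : ¬ W ω' := this ▸ h1
    rw [indicator_of_notMem (show ω ∉ {ω | W ω} from h1),
      indicator_of_notMem (show ω' ∉ {ω | W ω} from h2)]

lemma typ_indep {κ : Type} (Z : Finset κ) {W : κ → Om → Prop} {E : κ → Finset EE}
    (hm : ∀ i ∈ Z, MeasurableSet {ω | W i ω}) (hd : ∀ i ∈ Z, LocOn (E i) (W i))
    (hE : ∀ i ∈ Z, ∀ j ∈ Z, i ≠ j → Disjoint (E i) (E j)) :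
    P2 {ω | ∀ i ∈ Z, W i ω} = ∏ i ∈ Z, P2 {ω | W i ω} := by
  have h1 := indep2 Z (W := fun i => {ω | W i ω}.indicator (1 : Om → ℝ≥0∞)) (E := E)
    (fun i hi => measurable_one.indicator (hm i hi)) (fun i hi => typ_locOn_ind (hd i hi)) hE
  have h2 : MeasurableSet {ω | ∀ i ∈ Z, W i ω} := by
    have : {ω | ∀ i ∈ Z, W i ω} = ⋂ i ∈ Z, {ω | W i ω} := by ext; simp
    rw [this]
    exact Finset.measurableSet_biInter Z hm
  rw [← lintegral_indicator_one h2,
    Finset.prod_congr rfl fun i hi => (lintegral_indicator_one (μ := P2) (hm i hi)).symm, ← h1]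
  refine lintegral_congr fun ω => ?_
  by_cases h : ∀ i ∈ Z, W i ω
  · rw [indicator_of_mem (show ω ∈ {ω | ∀ i ∈ Z, W i ω} from h)]
    exact (Finset.prod_eq_one fun i hi =>
      indicator_of_mem (show ω ∈ {ω | W i ω} from h i hi) _).symm
  · rw [indicator_of_notMem (show ω ∉ {ω | ∀ i ∈ Z, W i ω} from h)]
    push Not at h
    obtain ⟨i, hi, h⟩ := h
    exact (Finset.prod_eq_zero hi (indicator_of_notMem (show ω ∉ {ω | W i ω} from h) _)).symm

/-- Independent trials. -/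
theorem trials (hB : c.Big 100) (hF : Fr c.μ c.κ 1 f) (hP : 2 * P.K1 + 3 ≤ P.Y0) {k : ℤ} {t c0 : ℝ}
    (h0 : 0 ≤ c0) (h1 : c0 ≤ 1) (hQ : ∀ o, ENNReal.ofReal c0 ≤ P2 {ω | Qe c f P k t o ω}) (i : ℕ)
    (cc : ℤ) :
    P2 {ω | ∀ r ∈ Finset.Icc 1 P.nt,
      ¬ (Qe c f P k t (om c f P i cc r) ω ∧ Qe c f P k t (op c f P i cc r) ω)} ≤
      ENNReal.ofReal ((1 - c0 ^ 2) ^ P.nt) := by
  have hm : ∀ r, MeasurableSet
      {ω | Qe c f P k t (om c f P i cc r) ω ∧ Qe c f P k t (op c f P i cc r) ω} := fun r =>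
    typ_and (measurableSet_Qe ..) (measurableSet_Qe ..)
  rw [typ_indep (Finset.Icc 1 P.nt) (W := fun r ω =>
      ¬ (Qe c f P k t (om c f P i cc r) ω ∧ Qe c f P k t (op c f P i cc r) ω))
    (E := fun r => EN c f P i cc r) (fun r _ => (hm r).compl) (fun r _ ω ω' hω => by
      have e1 := typ_locOn_mono (locOn_Qe c f P k t (om c f P i cc r))
        (E' := EN c f P i cc r) Finset.subset_union_left ω ω' hω
      have e2 := typ_locOn_mono (locOn_Qe c f P k t (op c f P i cc r))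
        (E' := EN c f P i cc r) Finset.subset_union_right ω ω' hω
      simp only [e1, e2])
    (fun r _ r' _ hr => by
      rcases lt_or_gt_of_ne hr with h | h
      · exact typ_disj_EN hB hF hP i cc h
      · exact (typ_disj_EN hB hF hP i cc h).symm)]
  have hc : 0 ≤ 1 - c0 ^ 2 := by nlinarith
  have one : ∀ r, P2 {ω | ¬ (Qe c f P k t (om c f P i cc r) ω ∧
      Qe c f P k t (op c f P i cc r) ω)} ≤ ENNReal.ofReal (1 - c0 ^ 2) := fun r => by
    have e1 := typ_indep (Finset.univ : Finset Bool)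
      (W := fun b => Qe c f P k t (if b then om c f P i cc r else op c f P i cc r))
      (E := fun b => (Nb f c.m P.K1 (if b then om c f P i cc r else op c f P i cc r)).sym2)
      (fun b _ => measurableSet_Qe ..) (fun b _ => locOn_Qe c f P k t _) (by
        have hd : Disjoint (Nb f c.m P.K1 (om c f P i cc r)).sym2
            (Nb f c.m P.K1 (op c f P i cc r)).sym2 := typ_disj_sym2 fun w hw hw' => by
          have a1 := (typ_om hB hF hw).2.1
          have a2 := (typ_op hB hF hw').1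
          have hm := hB.m_ge (by norm_num)
          have hG : (0 : ℝ) ≤ P.G * c.m := by positivity
          nlinarith
        intro b _ b' _ hb
        cases b <;> cases b'
        · exact absurd rfl hb
        · simpa using hd.symm
        · simpa using hd
        · exact absurd rfl hb)
    simp only [Finset.mem_univ, true_imp_iff, Bool.forall_bool, Fintype.prod_bool,
      Bool.false_eq_true, if_false, if_true] at e1
    have e2 : ENNReal.ofReal (c0 ^ 2) ≤
        P2 {ω | Qe c f P k t (om c f P i cc r) ω ∧ Qe c f P k t (op c f P i cc r) ω} := by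
      simp only [and_comm (a := Qe c f P k t (om c f P i cc r) _)]
      rw [e1, sq, ENNReal.ofReal_mul h0]
      exact mul_le_mul' (hQ _) (hQ _)
    have e3 := prob_compl_eq_one_sub (μ := P2) (hm r)
    rw [ENNReal.ofReal_sub _ (sq_nonneg _), ENNReal.ofReal_one]
    exact e3.le.trans (tsub_le_tsub_left e2 _)
  refine le_trans (Finset.prod_le_pow_card _ _ _ fun r _ => one r) ?_
  rw [Nat.card_Icc, Nat.add_sub_cancel, ENNReal.ofReal_pow hc]

end Pool.Agent.Lib.MP_de94ef_pr.Q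
end

-- part Pool.Agent.Lib.MP_de94ef_pr.Q.Exc
section

/-!
Total spread and total excess of a geodesic.
-/

open MeasureTheory ProbabilityTheory Set Real Function Filter Topology
open scoped ENNReal NNReal

namespace Pool.Agent.Lib.MP_de94ef_pr.Q

lemma exc_integrable {g : Env → ℝ} (hg : Integrable g PE) : Integrable (fun ω : Om => g ω.2) P2 :=
  (measurePreserving_snd (μ := PE) (ν := PE)).integrable_comp_of_integrable hg

lemma exc_integral {g : Env → ℝ} (hg : Integrable g PE) : ∫ ω, g ω.2 ∂P2 = ∫ X, g X ∂PE := by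
  have h := measurePreserving_snd (μ := PE) (ν := PE)
  rw [← h.map_eq, integral_map h.measurable.aemeasurable]
  rw [h.map_eq]
  exact hg.aestronglyMeasurable

/-- Gains, with a transversal bonus, of walks inside `A` between two squares. -/
def excSeg (f : Fd) (κ r ρ : ℝ) (z z' : ℝ × ℝ) (A : Finset VV) (ω : Om) (x : ℝ) : Prop :=
  ∃ q q', Sq f z r q ∧ Sq f z' r q' ∧ n1 (q' - q) ≤ ρ ∧ ∃ p : GG.Walk q q',
    (∀ w ∈ p.support, w ∈ A) ∧
      x ≤ f.L (iv (q' - q)) + κ * |f.b (iv (q' - q))| - wt ω.2 (es p)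

lemma exc_ldom {f : Fd} {κ r ρ d s α α' : ℝ} {z z' : ℝ × ℝ} (z0 : ℝ × ℝ)
    (h : Dom (fun ω x => ∃ q q', Sq f z r q ∧ Sq f z' r q' ∧ n1 (q' - q) ≤ ρ ∧
      x = f.L (iv (q' - q)) + κ * |f.b (iv (q' - q))| - TT ω q q') d s) (hs : 0 < s) :
    LDom f.a α α' (excSeg f κ r ρ z z' (Sl f z0 α α')) d s := by
  have key := ldom_of_dom h hs
    (κ := {t : Σ q : VV × VV, GG.Walk q.1 q.2 // Sq f z r t.1.1 ∧ Sq f z' r t.1.2 ∧
      n1 (t.1.2 - t.1.1) ≤ ρ ∧ ∀ w ∈ t.2.support, w ∈ Sl f z0 α α'}) (inR_Sl f z0 α α')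
    (φ := fun t X => f.L (iv (t.1.1.2 - t.1.1.1)) + κ * |f.b (iv (t.1.1.2 - t.1.1.1))| -
      wt X (es t.1.2))
    (fun t => measurable_const.sub (measurable_wt _))
    (fun t X X' hX => by
      beta_reduce
      rw [wt_congr (X := X') (X' := X) fun e he => hX e (es_subset_sym2 t.2.2.2.2 he)])
    fun t X => ⟨_, ⟨_, _, t.2.1, t.2.2.1, t.2.2.2.1, rfl⟩, sub_le_sub_left (TT_le X t.1.2) _⟩
  refine key.mono hs le_rfl le_rfl ?_
  rintro ω x ⟨q, q', h1, h2, h3, p, h4, h5⟩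
  exact ⟨x, ⟨⟨⟨(q, q'), p⟩, h1, h2, h3, h4⟩, h5⟩, le_rfl⟩

/-- The family dominating the spread and the gain of a block. -/
def excA (c : Bs) (f : Fd) (k : ℕ → ℤ) (d : ℤ) (i : ℕ) (ω : Om) (x : ℝ) : Prop :=
  ∃ x1 x2, excSeg f c.κ (3 * c.m) (22 * c.m) (zc f c.m i (k i))
      (f.pt ((i - 1) * c.m) ((k i + d : ℤ) * c.m))
      (Sl f (zc f c.m i (k i)) ((i - 1 / 2) * c.m) ((i + 3 / 2) * c.m)) ω x1 ∧
    excSeg f c.κ (3 * c.m) (22 * c.m) (f.pt ((i - 1) * c.m) ((k i + d : ℤ) * c.m))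
      (zc f c.m (i + 1) (k (i + 1)))
      (Sl f (zc f c.m i (k i)) ((i - 1 / 2) * c.m) ((i + 3 / 2) * c.m)) ω x2 ∧ x ≤ x1 + x2

variable {c : Bs} {f : Fd} {v : VV} {M : ℕ} {s : ℝ}

lemma exc_floor (x y : ℝ) : |((⌊x⌋ - ⌊y⌋ : ℤ) : ℝ)| ≤ |x - y| + 1 := by
  push_cast
  rw [abs_le]
  constructor <;> linarith [Int.floor_le x, Int.lt_floor_add_one x, Int.floor_le y,
    Int.lt_floor_add_one y, le_abs_self (x - y), neg_abs_le (x - y)]

lemma exc_sq {z : ℝ × ℝ} {r r' : ℝ} {q : VV} (h : Sq f z r q) (hr : r ≤ r') : Sq f z r' q :=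
  ⟨h.1, h.2.1.trans hr, h.2.2.1, h.2.2.2.trans hr⟩

lemma exc_block (hT : Top c f v M s) (hb : c.Big 100) {p : GG.Walk 0 v} (hp : p.IsPath)
    (hS : Straight c.μ f.a s p) {i : ℕ} (hi : i < M) : ∃ d : ℤ, |(d : ℝ)| ≤ Dd f c.m p i + 1 ∧
      ∀ (ω : Om) (x : ℝ), x ≤ c.s * Dd f c.m p i - ex f c.m p ω.2 i →
        excA c f (cs f c.m p) d i ω x := by
  have hm := hb.m_pos
  have hm1 := hb.one
  obtain ⟨k, k1, k2, k3⟩ := exists_Dd f hm p i
  have hl := tk_le f c.m p (i + 1)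
  have q1 := hT.sq_xs hb p hi.le
  have q2 := hT.sq_xs hb p (show i + 1 ≤ M from hi)
  have diam : ∀ j j', tk f c.m p i ≤ j → j ≤ j' → j' ≤ tk f c.m p (i + 1) →
      n1 (p.getVert j' - p.getVert j) ≤ 22 * c.m := fun j j' h1 h2 h3 => by
    have := (hT.diam hb hS i.lt_succ_self hi h1 h2 h3).2
    simpa using this
  have lev : ∀ j, tk f c.m p i ≤ j → j ≤ tk f c.m p (i + 1) →
      i * c.m - c.m / 25 ≤ f.a (iv (p.getVert j)) ∧
        f.a (iv (p.getVert j)) ≤ (i + 1) * c.m + c.m / 20 := fun j h1 h2 =>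
    ⟨hT.a_lower hb hS hi.le h1 (h2.trans hl), by simpa using hT.a_upper hb hS (i := i + 1) hi h2⟩
  have mem : ∀ j, tk f c.m p i ≤ j → j ≤ tk f c.m p (i + 1) → p.getVert j ∈
      Sl f (zc f c.m i (cs f c.m p i)) ((i - 1 / 2) * c.m) ((i + 3 / 2) * c.m) := fun j h1 h2 => by
    have h3 := diam _ j le_rfl h1 h2
    have h4 := hT.fr.n1_of_Sq hb.tc q1
    have h5 := n1_add_le (p.getVert j - xs f c.m p i)
      (xs f c.m p i - fl (zc f c.m i (cs f c.m p i)))
    rw [sub_add_sub_cancel] at h5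
    obtain ⟨h6, h7⟩ := lev j h1 h2
    exact mem_Sl (by unfold xs at *; linarith) (by linarith) (by linarith)
  refine ⟨⌊f.b (iv (p.getVert k)) / c.m⌋ - cs f c.m p i, ?_, fun ω x hx => ?_⟩
  · refine (exc_floor _ _).trans (add_le_add_left (le_of_eq ?_) _)
    rw [← sub_div, ← map_sub, ← iv_sub, abs_div, k3, abs_of_pos hm, mul_div_cancel_right₀ _ hm.ne']
  have q3 : Sq f (f.pt ((i - 1) * c.m)
      ((cs f c.m p i + (⌊f.b (iv (p.getVert k)) / c.m⌋ - cs f c.m p i) : ℤ) * c.m)) (3 * c.m)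
      (p.getVert k) := by
    obtain ⟨h6, h7⟩ := lev k k1 k2
    have h8 := (le_div_iff₀ hm).1 (Int.floor_le (f.b (iv (p.getVert k)) / c.m))
    have h9 := (div_lt_iff₀ hm).1 (Int.lt_floor_add_one (f.b (iv (p.getVert k)) / c.m))
    simp only [Sq, map_sub, hT.fr.a_pt, hT.fr.b_pt, add_sub_cancel]
    refine ⟨?_, ?_, ?_, ?_⟩ <;> linarith
  obtain ⟨p1, e1, s1⟩ := exists_sub p k1 (k2.trans hl)
  obtain ⟨p2, e2, s2⟩ := exists_sub p k2 hl
  refine ⟨_, _, ⟨_, _, exc_sq q1 (by linarith), q3, diam _ _ le_rfl k1 k2, p1, fun w hw => ?_,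
    le_rfl⟩, ⟨_, _, q3, exc_sq q2 (by linarith), diam _ _ k1 k2 le_rfl, p2, fun w hw => ?_,
    le_rfl⟩, hx.trans ?_⟩
  · obtain ⟨j, h1, h2, rfl⟩ := s1 w hw
    exact mem j h1 (h2.trans k2)
  · obtain ⟨j, h1, h2, rfl⟩ := s2 w hw
    exact mem j (k1.trans h1) h2
  · have h1 := wt_Es_add hp k1 k2 hl ω.2
    have h2 := mul_nonneg hb.κ_pos.le
      (abs_nonneg (f.b (iv (xs f c.m p (i + 1) - p.getVert k))))
    have h3 : c.κ * |f.b (iv (p.getVert k - xs f c.m p i))| = c.s * Dd f c.m p i := by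
      rw [k3, ← hb.κm]; ring
    unfold ex Eb xs at *
    rw [e1, e2]
    simp only [iv_sub, map_sub] at h2 h3 ⊢
    linarith

lemma exc_sum (hT : Top c f v M s) (hb : c.Big 100) {B : ℝ} (hB : 0 ≤ B)
    (hA : ∀ k d i, LDom f.a (((i : ℕ) - 1 / 2) * c.m) ((i + 3 / 2) * c.m) (excA c f k d i)
      (B * c.s) (c.s / 32)) {Y : ℕ → Env → ℝ} (hY : ∀ i < M, Integrable (Y i) PE)
    (h : ∀ X, ∀ i < M, Y i X ≤ 0 ∨ (Nice c.μ f.a v s X ∧
      Y i X ≤ c.s * Dd f c.m (geo v X) i - ex f c.m (geo v X) X i)) :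
    ∫ X, ∑ i ∈ Finset.range M, Y i X ∂PE ≤
      (B + 1) * (M * c.s) + c.s * (∫ X, DS c f v M s X ∂PE) / 8 := by
  have hs := hb.s_pos
  have hm := hb.m_pos
  have i0 := integrable_DS c f v M s
  have i1 := (exc_integrable i0).const_mul 2
  have key := sumSel M (g := 2) one_le_two (fun i => (i - 1 / 2) * c.m) (fun i => (i + 3 / 2) * c.m)
    (fun i i' hi => mul_le_mul_of_nonneg_right (by
      have : (i : ℝ) + 2 ≤ i' := by exact_mod_cast hi
      linarith) hm.le) (fun k d i _ => hA k d i) (by positivity) (by positivity)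
    (Y := fun i ω => Y i ω.2) (fun i hi => exc_integrable (hY i hi))
    (H := fun ω => 2 * DS c f v M s ω.2 + 2 * M) (i1.add (integrable_const _)) fun ω => by
      by_cases hX : Nice c.μ f.a v s ω.2
      · choose! d h1 h2 using fun i hi =>
          exc_block hT hb (geo_isPath v ω.2) hX.2 (i := i) hi
        refine ⟨cs f c.m (geo v ω.2), d, hT.cs_zero hb _, fun j hj => by
          rw [hT.cs_last hb _ hj, hT.cs_last hb _ le_rfl], ?_,
          fun i hi => (h ω.2 i hi).imp_right fun h3 => h2 i hi ω _ h3.2⟩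
        refine (Finset.sum_le_sum fun i hi => add_le_add (abs_ks_le f hm (geo v ω.2) i)
          (h1 i (Finset.mem_range.1 hi))).trans (le_of_eq ?_)
        simp only [Finset.sum_add_distrib, DS, if_pos hX, Finset.sum_const, Finset.card_range,
          nsmul_eq_mul]
        ring
      · refine ⟨0, 0, rfl, fun _ _ => rfl, ?_,
          fun i hi => (h ω.2 i hi).imp_right fun h1 => (hX h1.1).elim⟩
        have := DS_nonneg c f v M s ω.2
        simp only [Pi.zero_apply, sub_self, Int.cast_zero, abs_zero, add_zero,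
          Finset.sum_const_zero]
        positivity
  rw [exc_integral (g := fun X => ∑ i ∈ Finset.range M, Y i X)
    (integrable_finsetSum _ fun i hi => hY i (Finset.mem_range.1 hi)),
    integral_add i1 (integrable_const _), integral_const_mul, exc_integral i0] at key
  simp only [integral_const, probReal_univ, smul_eq_mul, one_mul, Nat.cast_ofNat] at key
  have : 0 ≤ M * c.s := by positivity
  linarith

lemma exc_total (hT : Top c f v M s) (hb : c.Big 100) {X : Env} (hX : Nice c.μ f.a v s X) :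
    ∑ i ∈ Finset.range M, ex f c.m (geo v X) X i ≤ max (TT X 0 v - c.μ (iv (v - 0))) 0 := by
  have h1 := sum_ex f hb.m_pos.le (geo_isPath v X) M.zero_le X
  rw [xs, xs, hT.tk_zero hb, hT.tk_last hb _ le_rfl, Es_full, SimpleGraph.Walk.getVert_length,
    SimpleGraph.Walk.getVert_zero, sub_zero, hT.hv, map_smul, hT.Lu, ← Finset.range_eq_Ico] at h1
  refine le_trans ?_ (le_max_left _ _)
  rw [sub_zero, hT.hμ]
  have h2 := hX.1.2
  simp only [smul_eq_mul, mul_one] at h1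
  linarith

lemma exc_mean (hT : Top c f v M s) (hb : c.Big 100) {B : ℝ} (hB : 0 ≤ B)
    (hU : EstU c.μ c.σ B 1 (2 * c.R)) :
    Integrable (fun X => max (TT X 0 v - c.μ (iv (v - 0))) 0) PE ∧
      ∫ X, max (TT X 0 v - c.μ (iv (v - 0))) 0 ∂PE ≤ 4 * (B + 3) * (M * c.s) := by
  have hM : (1 : ℝ) ≤ M := by exact_mod_cast hT.hM
  have hm := hb.m_pos
  have h1 : 1 ≤ n1 v := by
    have := hb.tc.le (iv v)
    rw [hT.hμ, r1_iv] at this
    exact (one_le_mul_of_one_le_of_one_le hM hb.one).trans this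
  have h2 : 0 < c.σ (n1 v) := lt_of_lt_of_le (by norm_num) (hb.sc.big _ h1)
  have h3 : c.σ (n1 v) ≤ 4 * M * c.s := hb.sc.le (by linarith) hm.le (by linarith)
    ((hT.n1_v hb).trans (by nlinarith [mul_pos (lt_of_lt_of_le one_pos hM) hm]))
  obtain ⟨h4, h5⟩ := dom_pos (X := fun X => TT X 0 v - c.μ (iv (v - 0)))
    ((measurable_TT 0 v).sub measurable_const) (hU 0 v _ (by rw [sub_zero]) h1 hT.hR)
    (by positivity) (by positivity)
  refine ⟨h4, h5.trans ?_⟩
  have := mul_le_mul_of_nonneg_left h3 (by linarith : 0 ≤ B + 3)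
  linarith

open Classical in
lemma exc_int (c : Bs) (f : Fd) (v : VV) (M : ℕ) (s : ℝ) {i : ℕ} (hi : i < M) :
    Integrable (fun X => if Nice c.μ f.a v s X then Dd f c.m (geo v X) i else 0) PE ∧
      Integrable (fun X => if Nice c.μ f.a v s X then ex f c.m (geo v X) X i else 0) PE := by
  have hN := measurableSet_Nice c.μ f.a v s
  refine ⟨(integrable_DS c f v M s).mono' (Measurable.ite hN
      (meas_geo v (F := fun p _ => Dd f c.m p i) fun _ => measurable_const)
      measurable_const).aestronglyMeasurable (ae_of_all _ fun X => ?_),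
    (integrable_ES c f v M s).mono' (Measurable.ite hN
      (meas_geo v (F := fun p X => ex f c.m p X i) fun p => measurable_ex f c.m p i)
      measurable_const).aestronglyMeasurable (ae_of_all _ fun X => ?_)⟩
  · unfold DS
    split_ifs
    · rw [Real.norm_of_nonneg (Dd_nonneg _ _ _ _)]
      exact Finset.single_le_sum (fun j _ => Dd_nonneg f c.m _ j) (Finset.mem_range.2 hi)
    · simp
  · unfold ES
    split_ifs
    · exact Finset.single_le_sum (f := fun j => |ex f c.m (geo v X) X j|)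
        (fun j _ => abs_nonneg _) (Finset.mem_range.2 hi)
    · simp

theorem exc : ∃ C : ℝ, ∀ᶠ c in FB, ∀ (f : Fd) (v : VV) (M : ℕ) (s : ℝ), Top c f v M s →
    Tp c f v M s C := by
  classical
  obtain ⟨B, hB, h1⟩ := lowRect (N := 3) (X := 64) (by norm_num) 22 (by norm_num)
  obtain ⟨B', hB', h2⟩ := ext_ev (X := 1) le_rfl
  refine ⟨10 * B + 10 * B' + 30, ?_⟩
  filter_upwards [h1, h2, ev_big 100] with c h1 h2 hb f v M s hT
  have hs := hb.s_pos
  have hA : ∀ k d i, LDom f.a (((i : ℕ) - 1 / 2) * c.m) ((i + 3 / 2) * c.m) (excA c f k d i)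
      (2 * B * c.s) (c.s / 32) := fun k d i => by
    have := (exc_ldom _ (h1 1 f _ _ hT.fr) (by positivity)).add
      (exc_ldom _ (h1 1 f _ _ hT.fr) (by positivity)) (by positivity) (by positivity)
      (A'' := excA c f k d i) fun ω z hz => hz
    rwa [show B * c.s + B * c.s = 2 * B * c.s by ring,
      show c.s / 64 + c.s / 64 = c.s / 32 by ring] at this
  obtain ⟨i1, e1⟩ := exc_mean hT hb hB' h2.1
  have i0 := integrable_DS c f v M s
  have hI := fun i hi => exc_int c f v M s (i := i) hi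
  have hM : (0 : ℝ) ≤ M := Nat.cast_nonneg M
  have hMs : 0 ≤ M * c.s := by positivity
  have hBM := mul_nonneg hB hMs
  have hBM' := mul_nonneg hB' hMs
  have iY : ∀ i < M, Integrable (fun X => c.s * (if Nice c.μ f.a v s X then
      Dd f c.m (geo v X) i else 0) - if Nice c.μ f.a v s X then ex f c.m (geo v X) X i else 0) PE :=
    fun i hi => ((hI i hi).1.const_mul c.s).sub (hI i hi).2
  have hD : c.s * ∫ X, DS c f v M s X ∂PE ≤ (3 * B + 5 * B' + 15) * (M * c.s) := by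
    have k1 := exc_sum hT hb (by positivity) hA iY fun X i _ => by
      by_cases hX : Nice c.μ f.a v s X <;> simp [hX]
    have k2 := integral_mono ((i0.const_mul c.s).sub i1)
      (integrable_finsetSum (Finset.range M) fun i hi => iY i (Finset.mem_range.1 hi)) fun X => by
        by_cases hX : Nice c.μ f.a v s X
        · have := exc_total hT hb hX
          simp only [Pi.sub_apply, DS, if_pos hX, Finset.sum_sub_distrib, ← Finset.mul_sum]
          linarith
        · simp [DS, hX]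
    simp only [Pi.sub_apply] at k2
    rw [integral_sub (i0.const_mul c.s) i1, integral_const_mul] at k2
    linarith
  have iZ : ∀ i < M, Integrable (fun X =>
      max (-if Nice c.μ f.a v s X then ex f c.m (geo v X) X i else 0) 0) PE :=
    fun i hi => (hI i hi).2.neg_part
  have iZ' := integrable_finsetSum (Finset.range M) fun i hi => iZ i (Finset.mem_range.1 hi)
  have k3 := exc_sum hT hb (by positivity) hA iZ fun X i _ => by
    by_cases hX : Nice c.μ f.a v s X
    · rw [if_pos hX]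
      rcases le_total (-ex f c.m (geo v X) X i) 0 with h | h
      · exact Or.inl (max_le h le_rfl)
      · rw [max_eq_left h]
        exact Or.inr ⟨hX, by linarith [mul_nonneg hs.le (Dd_nonneg f c.m (geo v X) i)]⟩
    · simp [hX]
  have k4 := integral_mono (integrable_ES c f v M s) (i1.add (iZ'.const_mul 2)) fun X => by
    by_cases hX : Nice c.μ f.a v s X
    · have h3 := exc_total hT hb hX
      have h4 : ∀ x : ℝ, |x| = x + 2 * max (-x) 0 := fun x => by
        rcases le_total 0 x with h | h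
        · rw [abs_of_nonneg h, max_eq_right (by linarith)]; ring
        · rw [abs_of_nonpos h, max_eq_left (by linarith)]; ring
      simp only [Pi.add_apply, ES, if_pos hX, h4, Finset.sum_add_distrib, ← Finset.mul_sum]
      linarith
    · simp [ES, hX]
  simp only [Pi.add_apply] at k4
  rw [integral_add i1 (iZ'.const_mul 2), integral_const_mul] at k4
  exact ⟨hb, hT, by linarith, le_of_mul_le_mul_left (by linarith) hs, by linarith⟩

end Pool.Agent.Lib.MP_de94ef_pr.Q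
end

-- part Pool.Agent.Lib.MP_de94ef_pr.Q.Push
section

/-!
Good blocks can be pushed away.
-/

open MeasureTheory ProbabilityTheory Set Real Function Filter Topology
open scoped ENNReal NNReal

namespace Pool.Agent.Lib.MP_de94ef_pr.Q

lemma push_mono (S : Set EE) (x : Env) : Monotone (mix S x) := by
  intro y y' h e
  by_cases he : e ∈ S
  · simpa [mix, he] using h e
  · simp [mix, he]

lemma push_meas (S : Set EE) (x : Env) : Measurable (mix S x) :=
  (measurable_mix S).comp (measurable_prodMk_left (x := x))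

lemma push_half {A B C : Set Env} (hA : MeasurableSet A) (hB : MeasurableSet B)
    (hC : MeasurableSet C) (a : PE Aᶜ ≤ 1 / 6) (b : PE Bᶜ ≤ 1 / 6) (c : PE Cᶜ ≤ 1 / 6) :
    1 / 2 ≤ PE (A ∩ B ∩ C) := by
  have h1 : PE (A ∩ B ∩ C)ᶜ ≤ 1 / 2 := by
    rw [compl_inter, compl_inter]
    refine le_trans (measure_union_le _ _) (le_trans (add_le_add
      ((measure_union_le _ _).trans (add_le_add a b)) c) (le_of_eq ?_))
    rw [← ENNReal.toReal_eq_toReal_iff' (by finiteness) (by finiteness),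
      ENNReal.toReal_add (by finiteness) (by finiteness),
      ENNReal.toReal_add (by finiteness) (by finiteness)]
    norm_num
  have h2 := prob_add_prob_compl (μ := PE) ((hA.inter hB).inter hC)
  by_contra h
  have h3 := ENNReal.add_lt_add_of_lt_of_le (measure_ne_top PE _) (not_le.1 h) h1
  rw [h2, ENNReal.add_halves] at h3
  exact lt_irrefl _ h3

lemma push_int {E : Set EE} {G H : Set Env} (hG : MeasurableSet G) (hH : MeasurableSet H)
    {p : ℝ≥0∞} (h : ∀ o ∈ H, p ≤ PE {z | mix E o z ∈ G}) : p * PE H ≤ PE G := by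
  have h1 := (measurePreserving_mix E).measure_preimage hG.nullMeasurableSet
  rw [← h1, Measure.prod_apply (measurable_mix E hG), ← lintegral_indicator_const hH]
  refine lintegral_mono fun o => ?_
  by_cases ho : o ∈ H
  · rw [indicator_of_mem ho]
    exact h o ho
  · rw [indicator_of_notMem ho]
    exact zero_le

theorem push {c : Bs} {f : Fd} {P : Pm} {v : VV} {M : ℕ} {s : ℝ} (hB : c.Big 100)
    (hT : Top c f v M s) (hP : P.OK) (k : ℤ) (t : ℝ) :
    Push c f v s t (GdF c f P k t v M s) (P.K3 + 3) P.Y (P.p ^ 2 / 2) := by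
  intro ζ x i cc α H h1 h2 hH hF
  rcases H.eq_empty_or_nonempty with rfl | ⟨o0, ho0⟩
  · simp
  have key : ∀ o ∈ H, Nice c.μ f.a v s (mix (SS t ζ) x o) ∧
      Gd c f P k t M (geo v (mix (SS t ζ) x o)) i (ζ, mix (SS t ζ) x o) := fun o ho => by
    have := (hF o ho).1
    simp only [GdF, Finset.mem_filter] at this
    exact this.2
  obtain ⟨r, hr, q1, q2⟩ := (key o0 ho0).2.2.2.2.2.2.2.1
  rw [(hF o0 ho0).2] at q1 q2
  simp only [Qe, mix_idem] at q1 q2
  set S := SS t ζ with hS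
  set E := EN c f P i cc r with hE
  have mG : MeasurableSet {y | (P.K3 + 3) * c.m ≤ |f.b (iv ((geo v (mix S x y)).getVert
        (hit f.a (geo v (mix S x y)) α))) - cc * c.m| ∧
      |f.b (iv ((geo v (mix S x y)).getVert (hit f.a (geo v (mix S x y)) α))) - cc * c.m| ≤
        P.Y * c.m} := by
    have m1 : Measurable fun y => |f.b (iv ((geo v (mix S x y)).getVert
        (hit f.a (geo v (mix S x y)) α))) - cc * c.m| :=
      (meas_geo v (F := fun p _ => |f.b (iv (p.getVert (hit f.a p α))) - cc * c.m|)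
        fun _ => measurable_const).comp (push_meas S x)
    exact typ_and (measurableSet_le measurable_const m1) (measurableSet_le m1 measurable_const)
  have mN : MeasurableSet {y | ¬ Nice c.μ f.a v s (mix S x y)} :=
    push_meas S x (measurableSet_Nice c.μ f.a v s).compl
  refine le_trans (push_int (E := E) (mG.union mN) hH fun o ho => ?_) (measure_union_le _ _)
  obtain ⟨hN, g1, g2, -, g4, -, -, -, g8⟩ := key o ho
  have hcc := (hF o ho).2
  obtain ⟨u1, u3, lw, w1, w2, w3⟩ := g8 r hr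
  rw [hcc] at u1 u3 lw w1 w2 w3
  set X := mix S x o with hX
  set cl := cs f c.m (geo v X) (il P i) with hcl
  set cr := cs f c.m (geo v X) (ir P i) with hcr
  have mX := push_meas (S ∩ E) X
  have oX := push_mono (S ∩ E) X
  set A := {z | U1 c f P i cl cc r (mix (S ∩ E) X z)} ∩ {z | U2 c f P i cc r (mix (S ∩ E) X z)} ∩
    {z | U3 c f P i cc cr r (mix (S ∩ E) X z)} with hA
  have m1 : MeasurableSet {z | U1 c f P i cl cc r (mix (S ∩ E) X z)} := mX (measurableSet_UE ..)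
  have m2 : MeasurableSet {z | U2 c f P i cc r (mix (S ∩ E) X z)} := mX (measurableSet_UE ..)
  have m3 : MeasurableSet {z | U3 c f P i cc cr r (mix (S ∩ E) X z)} := mX (measurableSet_UE ..)
  have mA : MeasurableSet A := (m1.inter m2).inter m3
  have lA : IsLowerSet A :=
    (((isLowerSet_UE ..).preimage oX).inter ((isLowerSet_UE ..).preimage oX)).inter
      ((isLowerSet_UE ..).preimage oX)
  have pA : 1 / 2 ≤ PE A := push_half m1 m2 m3 w1 w2 w3
  have mF : ∀ o', MeasurableSet {z | Fast c f P k o' (mix S x z)} := fun o' =>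
    push_meas S x (measurableSet_Fast c f P k o')
  have lF : ∀ o', IsLowerSet {z | Fast c f P k o' (mix S x z)} := fun o' =>
    (isLowerSet_Fast c f P k o').preimage (push_mono S x)
  have dF : ∀ o', DependsOn (fun z => z ∈ {z | Fast c f P k o' (mix S x z)})
      (((Nb f c.m P.K1 o').sym2 : Finset EE) : Set EE) := fun o' z z' hz =>
    dependsOn_Fast c f P k o' fun e he => by
      by_cases h : e ∈ S
      · simpa [mix, h] using hz e he
      · simp [mix, h]
  have H1 := harris_set _ (mF (op c f P i cc r)) mA (lF _) lA (dF _)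
  have H2 := harris_set _ (mF (om c f P i cc r)) ((mF (op c f P i cc r)).inter mA) (lF _)
    ((lF _).inter lA) (dF _)
  have hp := hP.h13
  have H3 : ENNReal.ofReal (P.p ^ 2 / 2) ≤ PE ({z | Fast c f P k (om c f P i cc r) (mix S x z)} ∩
      ({z | Fast c f P k (op c f P i cc r) (mix S x z)} ∩ A)) := by
    refine le_trans ?_ (le_trans (mul_le_mul' q1 (le_trans (mul_le_mul' q2 pA) H1)) H2)
    rw [ENNReal.ofReal_div_of_pos (by norm_num), sq, ENNReal.ofReal_mul hp.le, ← mul_assoc,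
      div_eq_mul_inv, one_div, ENNReal.ofReal_ofNat]
  refine H3.trans (measure_mono ?_)
  rintro z ⟨f1, f2, ⟨a1, a2⟩, a3⟩
  simp only [mem_ofPred_eq, mem_union, mix_mix]
  rw [← hX]
  set X' := mix (S ∩ E) X z with hX'
  by_cases hN' : Nice c.μ f.a v s X'
  swap
  · exact Or.inr hN'
  left
  have agree : ∀ e ∈ E, X' e = mix S x z e := fun e he => by
    by_cases h : e ∈ S
    · simp [hX', mix, h, he]
    · simp [hX', hX, mix, h]
  have f1' : Fast c f P k (om c f P i cc r) X' := by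
    rw [dependsOn_Fast c f P k (om c f P i cc r) (x := X') (y := mix S x z) fun e he =>
      agree e (Finset.mem_union_left _ he)]
    exact f1
  have f2' : Fast c f P k (op c f P i cc r) X' := by
    rw [dependsOn_Fast c f P k (op c f P i cc r) (x := X') (y := mix S x z) fun e he =>
      agree e (Finset.mem_union_right _ he)]
    exact f2
  have hd := detour hB hT hP (k := k) (cc := cc) (r := r) (α := α) hN hN' g1 g2 g4
    (fun e he => by simp [hX', mix, show e ∉ E from he]) u1 u3 lw a1 a2 a3 f1' f2' h1 h2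
  obtain ⟨r1, r2⟩ := Finset.mem_Icc.1 hr
  have hm := hB.m_pos
  have k6 : (P.K2 : ℝ) + P.K3 + 4 ≤ P.Y0 := by exact_mod_cast hP.h6
  have k9 : (P.K3 : ℝ) + P.nt * P.Y0 + P.K1 + P.K2 + 2 + 3 * P.N ≤ P.Y := by
    exact_mod_cast hP.h9
  have r1' : (1 : ℝ) ≤ r := by exact_mod_cast r1
  have r2' : (r : ℝ) ≤ P.nt := by exact_mod_cast r2
  have y0 : (0 : ℝ) ≤ P.Y0 := Nat.cast_nonneg _
  have n1 : (0 : ℝ) ≤ P.K1 := Nat.cast_nonneg _
  have n2 : (0 : ℝ) ≤ P.K2 := Nat.cast_nonneg _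
  have n3 : (0 : ℝ) ≤ P.K3 := Nat.cast_nonneg _
  have n4 : (0 : ℝ) ≤ P.N := Nat.cast_nonneg _
  have e1 : (P.K2 + P.K3 + 4) * c.m ≤ r * P.Y0 * c.m :=
    mul_le_mul_of_nonneg_right (by nlinarith) hm.le
  have e2 : (r * P.Y0 + P.K2) * c.m ≤ P.Y * c.m :=
    mul_le_mul_of_nonneg_right (by nlinarith) hm.le
  have e3 : 0 ≤ (P.K3 : ℝ) * c.m := by positivity
  obtain ⟨d1, d2⟩ := abs_le.1 hd
  simp only [hb] at d1 d2
  rw [abs_of_nonneg (by nlinarith)]
  constructor <;> nlinarith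

end Pool.Agent.Lib.MP_de94ef_pr.Q
end
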