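import Pool.Agent.Lib.MP_de94ef_pr.Q.Final

/-!
Shape fluctuations below the diffusive scale.
-/

open MeasureTheory ProbabilityTheory Set Real Function Filter Topology
open scoped ENNReal NNReal

namespace Pool.Agent.Lib.MP_de94ef_pr.Q

lemma bad_pow : ∃ ζ0 : ℝ, -(1 / 3) < ζ0 ∧ ζ0 < 1 / 6 ∧ ∀ μ, IsTC μ → ∀ ζ, ζ0 < ζ → ζ < 2 / 3 →
    ∀ q : ℝ, ∃ C : ℝ, 0 ≤ C ∧ ∀ᶠ t : ℝ in atTop,
      PE (BadU μ (t ^ (-(1 / 6 : ℝ) + ζ)) t) ≤ ENNReal.ofReal (C * t ^ (-q)) := by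
  classical
  obtain ⟨C, e, e0, e1, hC, h⟩ := tail_pow
  refine ⟨e - 1 / 3, by linarith, by linarith, fun μ hμ ζ h1 h2 q => ⟨47 ^ 2 * C, by positivity, ?_⟩⟩
  obtain ⟨δ, hδ⟩ : ∃ δ, δ = 1 / 3 + ζ - e := ⟨_, rfl⟩
  have δ0 : 0 < δ := by linarith
  have hc : 0 < 1 / (2 * C * 22 ^ e) := by positivity
  filter_upwards [(tendsto_rpow_atTop δ0).eventually
    (isLittleO_exp_neg_mul_rpow_atTop hc (-(q + 2) / δ)).eventuallyLE, eventually_ge_atTop 1]
    with t h3 h4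
  have ht : 0 < t := by linarith
  rw [Real.norm_eq_abs, Real.norm_eq_abs, abs_of_pos (exp_pos _), ← rpow_mul ht.le,
    mul_div_cancel₀ _ δ0.ne', abs_of_pos (rpow_pos_of_pos ht _)] at h3
  have e2 : t ^ (-(1 / 6 : ℝ) + ζ) * √t = t ^ δ * t ^ e := by
    rw [sqrt_eq_rpow, ← rpow_add ht, ← rpow_add ht, hδ]; congr 1; ring
  have e3 : t ^ δ * t ^ e ≤ t := by
    rw [← rpow_add ht]
    exact (rpow_le_rpow_of_exponent_le h4 (by linarith)).trans (rpow_one t).le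
  have point : ∀ x, n1 x ≤ 22 * t → PE {ω | Bad μ (t ^ (-(1 / 6 : ℝ) + ζ)) t x ω} ≤
      ENNReal.ofReal (C * t ^ (-(q + 2))) := fun x hx => by
    refine (measure_mono fun ω hω => ?_).trans ((h μ hμ x (22 * t) (t ^ δ * t ^ e / 2) hx
      (by linarith)).trans (ENNReal.ofReal_le_ofReal ?_))
    · rcases hω with hω | hω
      · rw [e2] at hω; exact hω.2
      · have a1 := hμ.le (iv x)
        rw [r1_iv] at a1
        change t ^ δ * t ^ e / 2 ≤ |TT ω 0 x - μ (iv x)|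
        linarith [le_abs_self (TT ω 0 x - μ (iv x)), hω.1, hω.2]
    · refine mul_le_mul_of_nonneg_left (le_trans (le_of_eq ?_) h3) (by linarith)
      rw [mul_rpow (by norm_num) ht.le]
      congr 1
      have := rpow_pos_of_pos ht e
      field_simp
  set Z := (box 0 ⌈22 * t⌉₊).filter fun e => n1 e ≤ 22 * t with hZ
  have e4 : {e | n1 e ≤ 22 * t} = (Z : Set VV) := by
    ext e
    simp only [hZ, Finset.coe_filter, mem_ofPred_eq, iff_and_self]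
    exact fun he => mem_box_of_n1 (by rw [sub_zero]; exact he.trans (Nat.le_ceil _))
  have e5 : (Z.card : ℝ) ≤ (47 * t) ^ 2 := by
    have a1 : (Z.card : ℝ) ≤ (box 0 ⌈22 * t⌉₊).card := by exact_mod_cast Finset.card_filter_le _ _
    rw [card_box] at a1
    push_cast at a1
    refine a1.trans ?_
    gcongr
    linarith [Nat.ceil_lt_add_one (a := 22 * t) (by linarith)]
  rw [BadU, e4]
  refine (measure_biUnion_finset_le Z _).trans ((Finset.sum_le_card_nsmul _ _ _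
    fun e he => point e (Finset.mem_filter.1 he).2).trans ?_)
  rw [nsmul_eq_mul, ← ENNReal.ofReal_natCast, ← ENNReal.ofReal_mul (by positivity)]
  refine ENNReal.ofReal_le_ofReal ((mul_le_mul_of_nonneg_right e5 (by positivity)).trans
    (le_of_eq ?_))
  have : t ^ (-q) = t ^ 2 * t ^ (-(q + 2)) := by
    rw [← rpow_two, ← rpow_add ht]; congr 1; ring
  rw [this]; ring

lemma eventually_pow {ζ : ℝ} (h1 : -(1 / 3) < ζ) (h2 : ζ < 2 / 3) : ∀ᶠ t : ℝ in atTop,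
    4 ≤ t ^ (-(1 / 6 : ℝ) + ζ) * √t ∧ t ^ (-(1 / 6 : ℝ) + ζ) * √t < t ∧
      t ^ (-(2 / 3 : ℝ) + ζ) = t ^ (-(1 / 6 : ℝ) + ζ) * t ^ (-(1 / 2 : ℝ)) := by
  filter_upwards [(tendsto_rpow_atTop (show 0 < 1 / 3 + ζ by linarith)).eventually_ge_atTop 4,
    eventually_gt_atTop 1] with t h3 h4
  have ht : 0 < t := by linarith
  have e2 : t ^ (-(1 / 6 : ℝ) + ζ) * √t = t ^ (1 / 3 + ζ) := by
    rw [sqrt_eq_rpow, ← rpow_add ht]; congr 1; ring
  refine ⟨by rwa [e2], ?_, by rw [← rpow_add ht]; congr 1; ring⟩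
  rw [e2]
  exact (rpow_lt_rpow_of_exponent_lt h4 (by linarith)).trans_eq (rpow_one t)

lemma isBigO_of_bad' {Ω : Type} [MeasureSpace Ω] {Φ : Ω → EE → ℝ} {μ : ℝ × ℝ → ℝ}
    (hΦ : MeasurePreserving Φ volume PE) {A : ℝ → ℝ} {C q : ℝ} (hC : 0 ≤ C)
    (h : ∀ᶠ t : ℝ in atTop, PE (BadU μ (A t) t) ≤ ENNReal.ofReal (C * t ^ (-q))) {E : ℝ → Set Ω}
    (hE : ∀ᶠ t : ℝ in atTop, ∀ᵐ ω ∂(volume : Measure Ω), ω ∈ E t → Φ ω ∈ BadU μ (A t) t) :
    Asymptotics.IsBigO atTop (fun t => ((volume : Measure Ω) (E t)).toReal)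
      fun t : ℝ => t ^ (-q) := by
  refine Asymptotics.IsBigO.of_bound C ?_
  filter_upwards [h, hE, eventually_gt_atTop 0] with t h1 h2 ht
  have hp : 0 < t ^ (-q) := rpow_pos_of_pos ht _
  rw [Real.norm_eq_abs, Real.norm_eq_abs, abs_of_pos hp, abs_of_nonneg ENNReal.toReal_nonneg]
  refine ENNReal.toReal_le_of_le_ofReal (by positivity) (le_trans ?_ h1)
  rw [← hΦ.measure_preimage (s := BadU μ (A t) t) (MeasurableSet.biUnion (to_countable _)
    fun e _ => measurableSet_bad μ (A t) t e).nullMeasurableSet]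
  exact measure_mono_ae h2

end Pool.Agent.Lib.MP_de94ef_pr.Q
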