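import Pool.Agent.Lib.MP_de94ef_pr.Q.Mean
import Pool.Agent.Lib.MP_de94ef_pr.Q.Frame

-- part Pool.Agent.Lib.MP_de94ef_pr.Q.Ext
section

/-!
Exponential moments of all orders.
-/

open MeasureTheory ProbabilityTheory Set Real Function Filter Topology
open scoped ENNReal NNReal

namespace Pool.Agent.Lib.MP_de94ef_pr.Q

lemma ext_dom {Y : Env → ℝ} (hY : Measurable Y) {s A : ℝ} (hs : 0 < s)
    (h : ∫⁻ ω, ENNReal.ofReal (exp (Y ω / s)) ∂PE ≤ ENNReal.ofReal (exp A)) :
    Dom (fun ω z => z = Y ω) (A * s) s := by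
  refine dom_single hY ?_
  have e1 : ∀ ω, exp ((Y ω - A * s) / s) = exp (-A) * exp (Y ω / s) := fun ω => by
    rw [← exp_add]; congr 1; field_simp; ring
  simp only [e1, ENNReal.ofReal_mul (exp_pos _).le]
  rw [lintegral_const_mul' _ _ (by simp)]
  refine (mul_le_mul_right h _).trans ?_
  rw [← ENNReal.ofReal_mul (exp_pos _).le, ← exp_add]
  exact ENNReal.ofReal_le_ofReal (by simp)

theorem lowerM : ∃ Λ : ℝ, 0 ≤ Λ ∧ ∀ (μ : ℝ × ℝ → ℝ) (σ : ℝ → ℝ) (R m : ℝ), IsTC μ → Sc σ →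
    Conc σ R → 1 ≤ m → 2 * σ m ≤ m → 1024 * m ≤ R → ∀ (K : ℕ) (x y : VV), 1 ≤ K →
    μ (iv (y - x)) = K * m →
    Dom (fun ω z => z = μ (iv (y - x)) - TT ω x y) (Λ * K * σ m) (500 * σ m) := by
  obtain ⟨B, hB, hBU⟩ := meanB
  obtain ⟨Λ, hΛ0, hΛ⟩ := sum_exp (ε := 1 / 1000) (by norm_num)
  refine ⟨500 * (B + 11 + Λ), by positivity, fun μ σ R m h hσ hc hm hs hR K x y hK hx => ?_⟩
  have hK' : (1 : ℝ) ≤ K := by exact_mod_cast hK
  have s1 := hσ.big m hm
  have hU := (estBase h hσ hc (hBU μ σ R h hσ hc) hB le_rfl (by linarith)).1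
  have hκ : σ m / m ≤ 1 / 2 := by
    rw [div_le_iff₀ (by linarith)]
    linarith
  obtain ⟨f, hu, hL, hF⟩ := exists_tangent h (unit_dir h hx (by positivity)) (κ := σ m / m)
    (by positivity) hκ
  rw [← hu] at hL
  have hx' : iv (y - x) = ((K : ℝ) * m) • f.u := by rw [hu, smul_inv_smul₀ (by positivity)]
  clear hu
  have hD : ∀ (M : ℕ) (k j : ℤ), Dom (Blk f.u f.t f.L m m M k (k + j))
      (-meanF f m m j / 2 + 4 * (σ m / m) * m + 6 +
        2 * (2 * (σ m / m) * m + (100 * B + 2000) * σ m) + 16) (500 * σ m) :=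
    fun M k j => (blockF h hσ hF hB le_rfl hU hm (by linarith) (by linarith) (by linarith)
      (midF h hσ hc hF hm (by linarith) le_rfl hR j) M k).scale (by positivity) (by linarith)
  have h1 := treeF h hF (by linarith) (by linarith) (by linarith) hD 0 hK hx'
  have e1 : f.L (iv (y - x)) = μ (iv (y - x)) := by
    rw [hx, hx', map_smul, hL, smul_eq_mul, mul_one]
  rw [e1] at h1
  have h2 := ext_dom (Y := fun ω => μ (iv (y - x)) - TT ω x y) (by fun_prop)
    (s := 500 * σ m) (A := (B + 11 + Λ) * K) (by linarith) (by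
      rw [lintegral_shift x y
        (g := fun t => ENNReal.ofReal (exp ((μ (iv (y - x)) - t) / (500 * σ m)))) (by fun_prop)]
      refine h1.trans ((pow_le_pow_left' (G_le hΛ (A := B + 9) fun j => ?_) _).trans ?_)
      · have f1 : _ ≤ meanF f m m j := vq_low h hF (m := m) (by linarith) (by linarith) j
        have k2 : σ m / m * m = σ m := by field_simp
        have k4 : 0 ≤ B * σ m := by positivity
        rw [k2] at f1
        rw [zero_mul, add_zero, div_le_iff₀ (by linarith)]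
        linarith
      · rw [← ENNReal.ofReal_pow (by positivity), mul_comm _ (K : ℝ), exp_nat_mul]
        refine ENNReal.ofReal_le_ofReal (pow_le_pow_left₀ (by positivity) ?_ _)
        rw [show B + 11 + Λ = 2 + (B + 9 + Λ) by ring, exp_add 2]
        gcongr
        linarith [add_one_le_exp (2 : ℝ)])
  exact h2.mono (by linarith) fun ω a ha => ⟨a, ha, le_of_eq (by ring)⟩

section upper

variable {μ : ℝ × ℝ → ℝ} {σ : ℝ → ℝ} {B R m : ℝ}

lemma ext_TL (h : IsTC μ) (hσ : Sc σ) (hB : 0 ≤ B) (hU : EstU μ σ B 1 R) (hm : 10 ^ 27 ≤ m)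
    (hR : 16 * m ≤ R) {L : ℕ} (hL : 1000 * m ≤ L) (hL' : L ≤ 1001 * m) {y y' : VV}
    (hy : μ (iv (y' - y)) ≤ m + 2) :
    ∫⁻ ω, ENNReal.ofReal (exp ((TL L y y' ω - m) / (5 * σ m))) ∂PE ≤
      ENNReal.ofReal (exp (B + 4)) := by
  have h1 := h.ge (iv (y' - y))
  rw [r1_iv] at h1
  have s1 := hσ.big m (by linarith)
  have s3 := hσ.mul m 4 (by linarith) (by norm_num)
  have s4 := hσ.big (4 ^ 2 * m) (by linarith)
  have h2 := hU y y' (4 ^ 2 * m) (by linarith) (by linarith) (by linarith)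
  rw [div_one] at h2
  have h3 := mul_le_mul_of_nonneg_left s3 hB
  have h4 : 0 ≤ B * σ m := by positivity
  obtain ⟨W, a1, a2, a3⟩ := Dom.union (d := m + (4 * B + 1) * σ m) (s := 5 * σ m)
    (C := fun ω a => a = TL L y y' ω) (A := fun ω a => a ≤ TT ω y y')
    (B := fun ω a => ∃ e, L ≤ n1 (e - y) ∧ n1 (e - y) ≤ L + 1 ∧
      a ≤ 2 * wt ω (es (stair y y')) - TT ω y e)
    ((h2.scale (by linarith) (by linarith)).mono (by linarith)
      fun ω a ha => ⟨_, rfl, by linarith⟩)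
    (((dom_exit hm hL hL' (y := y) (y' := y') (by linarith)).scale (by norm_num)
      (by linarith)).mono (by linarith) fun ω a ⟨e, k1, k2, k3⟩ => ⟨_, ⟨e, k1, k2, rfl⟩, by
        linarith⟩) (by linarith)
    fun ω a ha => by rw [ha]; exact TL_cases (by linarith) ω
  calc _ ≤ ∫⁻ ω, ENNReal.ofReal (exp (B + 2)) * W ω ∂PE := by
        refine lintegral_mono fun ω => le_trans ?_ (mul_le_mul_right (a2 ω _ rfl) _)
        rw [← ENNReal.ofReal_mul (exp_pos _).le, ← exp_add]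
        refine ENNReal.ofReal_le_ofReal (exp_le_exp.2 ?_)
        rw [← sub_le_iff_le_add, ← sub_div, div_le_iff₀ (by linarith)]
        linarith
    _ ≤ ENNReal.ofReal (exp (B + 2)) * ENNReal.ofReal (exp 2) := by
        rw [lintegral_const_mul _ a1]
        gcongr
        refine a3.trans ?_
        rw [← ENNReal.ofReal_ofNat]
        exact ENNReal.ofReal_le_ofReal (by linarith [add_one_le_exp (2 : ℝ)])
    _ = _ := by rw [← ENNReal.ofReal_mul (exp_pos _).le, ← exp_add]; congr 2; ring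

lemma ext_upper (h : IsTC μ) {S A : ℝ} (hS : 0 < S) (hA : 0 ≤ A) (hm : 10 ^ 27 ≤ m) {L : ℕ}
    (L1 : 1000 * m ≤ L) (L2 : L ≤ 1001 * m)
    (hT : ∀ y y' : VV, μ (iv (y' - y)) ≤ m + 2 →
      ∫⁻ ω, ENNReal.ofReal (exp ((TL L y y' ω - m) / S)) ∂PE ≤ ENNReal.ofReal (exp A))
    {K : ℕ} (hK : 1 ≤ K) {x : VV} (hx : μ (iv x) = K * m) :
    ∫⁻ ω, ENNReal.ofReal (exp ((TT ω 0 x - K * m) / (9000 * S))) ∂PE ≤
      ENNReal.ofReal (exp (A * K)) := by
  have hK' : (1 : ℝ) ≤ K := by exact_mod_cast hK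
  have hm0 : 0 < m := by linarith
  have hu := unit_dir h hx (by positivity)
  set u := ((K : ℝ) * m)⁻¹ • iv x with hu'
  have hx' : iv x = ((K : ℝ) * m) • u := by rw [hu', smul_inv_smul₀ (by positivity)]
  clear_value u
  set y : ℕ → VV := fun i => fl (((i : ℝ) * m) • u) with hy
  have y0 : y 0 = 0 := by simp [hy, fl]
  have yK : y K = x := by simp only [hy]; rw [← hx', fl_iv]
  have hd : ∀ i j : ℕ, μ (iv (y i - y j)) ≤ |(i : ℝ) - j| * m + 2 ∧
      |(i : ℝ) - j| * m - 2 ≤ μ (iv (y i - y j)) := fun i j => by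
    have h1 := r1_fl_sub (((i : ℝ) * m) • u) (((j : ℝ) * m) • u)
    rw [← sub_smul, ← sub_mul] at h1
    have h2 := h.le_add (iv (y i - y j)) ((((i : ℝ) - j) * m) • u)
    have h3 := h.le_add ((((i : ℝ) - j) * m) • u) (iv (y i - y j))
    rw [r1_sub_comm] at h3
    rw [h.smul_abs, hu, abs_mul, abs_of_pos hm0] at h2 h3
    constructor <;> linarith
  have hd1 : ∀ i, μ (iv (y (i + 1) - y i)) ≤ m + 2 := fun i => by simpa using (hd (i + 1) i).1
  set φ : ℕ → (EE → ℝ) → ℝ := fun c ω => ∑ i ∈ (Finset.range K).filter (· % 9000 = c),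
    (TL L (y i) (y (i + 1)) ω - m) / S with hφ
  refine le_trans (lintegral_mono fun ω => ?_) (lintegral_exp_avg_le (Z := Finset.range 9000)
    (φ := φ) (by simp) (fun c _ => by simp only [hφ]; fun_prop) fun c _ => ?_)
  · refine ENNReal.ofReal_le_ofReal (exp_le_exp.2 ?_)
    simp only [avg, hφ]
    rw [Finset.sum_fiberwise_of_maps_to (g := (· % 9000))
      fun i _ => Finset.mem_range.2 (Nat.mod_lt _ (by norm_num)), ← Finset.sum_div,
      Finset.sum_sub_distrib]
    have h1 := TT_le_sum ω y K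
    rw [y0, yK] at h1
    have h2 : ∑ i ∈ Finset.range K, TT ω (y i) (y (i + 1)) ≤
        ∑ i ∈ Finset.range K, TL L (y i) (y (i + 1)) ω := Finset.sum_le_sum fun i _ =>
      TT_le_TL (by have := h.ge (iv (y (i + 1) - y i)); rw [r1_iv] at this; linarith [hd1 i]) ω
    simp only [Finset.sum_const, Finset.card_range, nsmul_eq_mul]
    rw [inv_mul_eq_div, div_div, show S * ((9000 : ℕ) : ℝ) = 9000 * S by push_cast; ring]
    exact div_le_div_of_nonneg_right (by linarith) (by linarith)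
  · simp only [hφ, exp_sum, ENNReal.ofReal_prod_of_nonneg fun _ _ => (exp_pos _).le]
    refine (lintegral_prod_le _ (S := fun i => (box (y i) L).sym2)
      (c := ENNReal.ofReal (exp A)) (fun i _ => by fun_prop)
      (fun i _ ω ω' hω => by simp only [dependsOn_TL L (y i) (y (i + 1)) hω])
      (fun i hi j hj hij => ?_) fun i _ => hT _ _ (hd1 i)).trans ?_
    · rw [Finset.disjoint_left]
      intro e h1 h2
      rw [Finset.mem_sym2_iff] at h1 h2
      obtain ⟨w, hw⟩ : ∃ w, w ∈ e := ⟨e.out.1, Sym2.out_fst_mem e⟩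
      have a1 := n1_le_of_mem_box (h1 w hw) (mem_box_of_n1 (w := y i) (by simp [n1]))
      have a2 := n1_le_of_mem_box (mem_box_of_n1 (w := y j) (by simp [n1])) (h2 w hw)
      have a3 := n1_add_le (y i - w) (w - y j)
      rw [sub_add_sub_cancel] at a3
      have a4 := h.le (iv (y i - y j))
      rw [r1_iv] at a4
      have a5 : (9000 : ℝ) ≤ |(i : ℝ) - j| := by
        have b1 := (Finset.mem_filter.1 hi).2
        have b2 := (Finset.mem_filter.1 hj).2
        have : (9000 : ℤ) ≤ |(i : ℤ) - j| := by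
          rcases abs_cases ((i : ℤ) - j) with b | b <;> omega
        exact_mod_cast this
      nlinarith [(hd i j).2]
    · rw [← ENNReal.ofReal_pow (exp_pos _).le, ← exp_nat_mul]
      refine ENNReal.ofReal_le_ofReal (exp_le_exp.2 ?_)
      have : ((((Finset.range K).filter (· % 9000 = c)).card : ℕ) : ℝ) ≤ K := by
        exact_mod_cast (Finset.card_filter_le _ _).trans (Finset.card_range K).le
      nlinarith

end upper

theorem upperM : ∃ Λ : ℝ, 0 ≤ Λ ∧ ∀ (μ : ℝ × ℝ → ℝ) (σ : ℝ → ℝ) (R m : ℝ), IsTC μ → Sc σ →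
    Conc σ R → 2 * σ m ≤ m → 1 ≤ m → 16 * m ≤ R → ∀ (K : ℕ) (x y : VV), 1 ≤ K →
    μ (iv (y - x)) = K * m →
    Dom (fun ω z => z = TT ω x y - μ (iv (y - x))) (Λ * K * σ m) (45000 * σ m) := by
  obtain ⟨B, hB, hBU⟩ := meanB
  refine ⟨45000 * (B + 4), by positivity, fun μ σ R m h hσ hc hs hm hR K x y hK hx => ?_⟩
  have s1 := hσ.big m hm
  have hm' : 10 ^ 27 ≤ m := by linarith
  have hU := (estBase h hσ hc (hBU μ σ R h hσ hc) hB le_rfl (by linarith)).1
  have L1 : 1000 * m ≤ (⌈1000 * m⌉₊ : ℕ) := Nat.le_ceil _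
  have L2 : (⌈1000 * m⌉₊ : ℕ) ≤ 1001 * m := by
    linarith [Nat.ceil_lt_add_one (a := 1000 * m) (by linarith)]
  have h1 := ext_upper h (S := 5 * σ m) (A := B + 4) (by linarith) (by linarith) hm' L1 L2
    (fun y y' hy => ext_TL h hσ hB hU hm' hR L1 L2 hy) hK hx
  rw [show 9000 * (5 * σ m) = 45000 * σ m by ring, ← hx] at h1
  have h2 := ext_dom (Y := fun ω => TT ω x y - μ (iv (y - x))) (by fun_prop)
    (s := 45000 * σ m) (A := (B + 4) * K) (by linarith) (by
      rw [lintegral_shift x y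
        (g := fun t => ENNReal.ofReal (exp ((t - μ (iv (y - x))) / (45000 * σ m)))) (by fun_prop)]
      exact h1)
  exact h2.mono (by linarith) fun ω a ha => ⟨a, ha, le_of_eq (by ring)⟩

lemma ext_pow {X : ℝ} (hX : 1 ≤ X) : ∃ k : ℕ, 2048 ≤ k ∧ ∀ σ : ℝ → ℝ, Sc σ → ∀ r m : ℝ, 0 ≤ m →
    k * m ≤ r → 45000 * σ m ≤ σ r / X := by
  obtain ⟨J, hJ⟩ := exists_pow_lt_of_lt_one (x := 1 / (45000 * X)) (y := (3 / 4 : ℝ))
    (by positivity) (by norm_num)
  refine ⟨2 ^ (J + 11), ?_, fun σ hσ r m hm hr => ?_⟩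
  · rw [pow_add]
    have : 1 ≤ 2 ^ J := Nat.one_le_two_pow
    omega
  · have h2 : (0 : ℝ) < 2 ^ J := by positivity
    have h3 : (2 : ℝ) ^ J * m ≤ r := by
      refine le_trans ?_ hr
      push_cast
      rw [pow_add]
      nlinarith [mul_nonneg h2.le hm]
    have hr0 : 0 ≤ r := le_trans (by positivity) h3
    have h4 := hσ.mono m (r / 2 ^ J) hm (by rw [le_div_iff₀ h2]; linarith)
    have h5 := hσ.pow_half hr0 J
    have h6 := mul_le_mul_of_nonneg_right hJ.le (hσ.nonneg r hr0)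
    have h7 : 1 / (45000 * X) * σ r = σ r / X / 45000 := by field_simp
    linarith

theorem ext {X : ℝ} (hX : 1 ≤ X) : ∃ B K : ℝ, 0 ≤ B ∧ ∀ (μ : ℝ × ℝ → ℝ) (σ : ℝ → ℝ) (R : ℝ),
    IsTC μ → Sc σ → Conc σ R → (∀ r, 1 ≤ r → K ≤ σ r) →
    EstU μ σ B X (2 * R) ∧ EstD μ σ B X (2 * R) := by
  obtain ⟨Λ, hΛ, hlow⟩ := lowerM
  obtain ⟨Λ', hΛ', hup⟩ := upperM
  obtain ⟨k, hk, hks⟩ := ext_pow hX
  have hk' : (2048 : ℝ) ≤ k := by exact_mod_cast hk
  have hX0 : 0 < X := by linarith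
  refine ⟨(Λ + Λ' + 23) * k, 3000000 * k * X, by positivity, fun μ σ R h hσ hc hK => ?_⟩
  have key : ∀ (x y : VV) (r : ℝ), n1 (y - x) ≤ r → 1 ≤ r → r ≤ 2 * R →
      Dom (fun ω z => z = TT ω x y - μ (iv (y - x))) ((Λ + Λ' + 23) * k * σ r) (σ r / X) ∧
      Dom (fun ω z => z = μ (iv (y - x)) - TT ω x y) ((Λ + Λ' + 23) * k * σ r) (σ r / X) := by
    intro x y r hn hr hR
    have s1 := hσ.big r hr
    have s2 := hK r hr
    have s3 : 0 < σ r / X := by positivity
    have n0 := h.nonneg (iv (y - x))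
    have n1' := h.le (iv (y - x))
    have n2 := h.ge (iv (y - x))
    rw [r1_iv] at n1' n2
    obtain ⟨m, hm⟩ : ∃ m, m = μ (iv (y - x)) / k := ⟨_, rfl⟩
    have hm0 : 0 ≤ m := by rw [hm]; positivity
    have hx : μ (iv (y - x)) = k * m := by rw [hm]; field_simp
    have hmr : m ≤ r := by nlinarith
    have s4 := hσ.mono m r hm0 hmr
    have s5 := hσ.nonneg m hm0
    have c1 : 0 ≤ Λ * k * σ r := by positivity
    have c2 : 0 ≤ Λ' * k * σ r := by positivity
    have c3 : σ r ≤ k * σ r := by nlinarith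
    by_cases hcase : 1 ≤ m ∧ 2 * σ m ≤ m
    · obtain ⟨m1, m2⟩ := hcase
      have s6 := hσ.big m m1
      have s7 := hks σ hσ r m hm0 (by linarith)
      have hmR : 1024 * m ≤ R := by nlinarith
      have c4 : Λ * k * σ m ≤ Λ * k * σ r := by gcongr
      have c5 : Λ' * k * σ m ≤ Λ' * k * σ r := by gcongr
      refine ⟨((hup μ σ R m h hσ hc m2 m1 (by linarith) k x y (by omega) hx).scale
        (by linarith) s7).mono s3 fun ω a ha => ⟨a, ha, by linarith⟩,
        ((hlow μ σ R m h hσ hc m1 m2 hmR k x y (by omega) hx).scale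
        (by linarith) (by linarith)).mono s3 fun ω a ha => ⟨a, ha, by linarith⟩⟩
    · have m1 : m ≤ 2 * σ r := by
        by_contra hc'
        exact hcase ⟨by linarith, by
          by_contra hc''
          linarith⟩
      have hn' : n1 (y - x) ≤ 22 * (k * σ r) := by nlinarith
      have kX : X ≤ k * X := by nlinarith
      have s8 : 4 ≤ σ r / X := by rw [le_div_iff₀ hX0]; linarith
      have s9 : 46000 * (2 * (22 * (k * σ r)) + 1) / (σ r / X) ≤ σ r := by
        rw [div_le_iff₀ s3, ← mul_div_assoc, le_div_iff₀ hX0]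
        have d1 := mul_le_mul_of_nonneg_right s2 (show 0 ≤ σ r by linarith)
        have d2 : X ≤ k * σ r * X := by nlinarith
        nlinarith
      have g1 := hh_le (y - x)
      have g2 := h.le_hh (y - x)
      refine ⟨(dom_gauss x y hn' s8 (Or.inl rfl)).mono s3 fun ω a ha => ⟨_, rfl, ?_⟩,
        (dom_gauss x y hn' s8 (Or.inr rfl)).mono s3 fun ω a ha => ⟨_, rfl, ?_⟩⟩
      · rw [ha]; linarith
      · rw [ha]; linarith
  exact ⟨fun x y r a b c => (key x y r a b c).1, fun x y r a b c => (key x y r a b c).2⟩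

theorem ext_ev {X : ℝ} (hX : 1 ≤ X) : ∃ B : ℝ, 0 ≤ B ∧ ∀ᶠ c in FB,
    EstU c.μ c.σ B X (2 * c.R) ∧ EstD c.μ c.σ B X (2 * c.R) := by
  obtain ⟨B, K, hB, h⟩ := ext hX
  refine ⟨B, hB, ?_⟩
  filter_upwards [ev_big K] with c hc
  exact h _ _ _ hc.tc hc.sc hc.conc hc.big

/-- Estimates at the scale of a block for points at distance of the order of a block. -/
theorem est_ev (ρ : ℝ) {X : ℝ} (hX : 1 ≤ X) : ∃ B : ℝ, 0 ≤ B ∧ ∀ᶠ c in FB, ∀ x y : VV,
    n1 (y - x) ≤ ρ * c.m →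
    Dom (fun ω z => z = TT ω x y - c.μ (iv (y - x))) (B * c.s) (c.s / X) ∧
    Dom (fun ω z => z = c.μ (iv (y - x)) - TT ω x y) (B * c.s) (c.s / X) := by
  obtain ⟨k, hk1, hk2⟩ : ∃ k : ℝ, 1 ≤ k ∧ ρ ≤ k := ⟨max 1 ρ, le_max_left _ _, le_max_right _ _⟩
  have hXk : 1 ≤ X * k := by nlinarith
  obtain ⟨B, hB, h⟩ := ext_ev hXk
  refine ⟨B * k, by positivity, ?_⟩
  filter_upwards [h, ev_big (k ^ 2)] with c ⟨hU, hD⟩ hc x y hn
  have m1 := hc.one
  have k2 : k ≤ k ^ 2 := by nlinarith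
  have r1' : 1 ≤ k ^ 2 * c.m := by nlinarith
  have hn' : n1 (y - x) ≤ k ^ 2 * c.m := hn.trans (by gcongr; linarith)
  have hR := hc.large
  have s1 : c.σ (k ^ 2 * c.m) ≤ k * c.s := hc.sc.mul c.m k (by linarith) hk1
  have s2 := hc.sc.big _ r1'
  have s3 := hc.s_pos
  have s4 : c.σ (k ^ 2 * c.m) / (X * k) ≤ c.s / X := by
    rw [div_le_div_iff₀ (by linarith) (by linarith)]
    nlinarith
  have s5 : 0 < c.σ (k ^ 2 * c.m) / (X * k) := div_pos (by linarith) (by linarith)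
  have s6 : 0 < c.s / X := div_pos s3 (by linarith)
  have s7 := mul_le_mul_of_nonneg_left s1 hB
  exact ⟨((hU x y _ hn' r1' (by linarith)).scale s5 s4).mono s6
      fun ω a ha => ⟨a, ha, by linarith⟩,
    ((hD x y _ hn' r1' (by linarith)).scale s5 s4).mono s6 fun ω a ha => ⟨a, ha, by linarith⟩⟩

theorem extLong {X : ℝ} (hX : 1 ≤ X) : ∃ B : ℝ, 0 ≤ B ∧ ∀ᶠ c in FB, ∀ x y : VV,
    c.m ≤ c.μ (iv (y - x)) →
    Dom (fun ω z => z = c.μ (iv (y - x)) - TT ω x y) (B * (c.μ (iv (y - x)) / c.m) * c.s)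
      (c.s / X) := by
  obtain ⟨Λ, hΛ, hlow⟩ := lowerM
  obtain ⟨k, hk, hks⟩ := ext_pow hX
  have hk' : (2048 : ℝ) ≤ k := by exact_mod_cast hk
  refine ⟨2 * Λ * k, by positivity, ?_⟩
  filter_upwards [ev_big (4 * k)] with c hc x y hn
  have m0 := hc.m_pos
  have s0 := hc.s_pos
  have s1 := hc.s_ge
  have s2 := hc.Ks
  have hR := hc.large
  obtain ⟨q, hq⟩ : ∃ q, q = c.μ (iv (y - x)) / c.m := ⟨_, rfl⟩
  have q1 : 1 ≤ q := by rw [hq, one_le_div m0]; exact hn
  have q2 : c.μ (iv (y - x)) = q * c.m := by rw [hq]; field_simp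
  rw [← hq]
  obtain ⟨N, N1, N2⟩ : ∃ N : ℕ, q ≤ N ∧ (N : ℝ) ≤ 2 * q :=
    ⟨⌈q⌉₊, Nat.le_ceil _, by linarith [Nat.ceil_lt_add_one (a := q) (by linarith)]⟩
  have N0 : (1 : ℝ) ≤ N := by linarith
  have N0' : 1 ≤ N := by exact_mod_cast N0
  obtain ⟨m, hm⟩ : ∃ m, m = q * c.m / (N * k) := ⟨_, rfl⟩
  have e1 : (N : ℝ) * k * m = q * c.m := by rw [hm]; field_simp
  have hm0 : 0 ≤ m := by rw [hm]; positivity
  have a1 : k * m ≤ c.m := by
    refine le_of_mul_le_mul_left (a := (N : ℝ)) ?_ (by linarith)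
    nlinarith
  have a2 : c.m ≤ 2 * (k * m) := by
    refine le_of_mul_le_mul_left (a := q) ?_ (by linarith)
    have : 0 ≤ (k : ℝ) * m := by positivity
    nlinarith
  have a3 : m ≤ c.m := by nlinarith
  have a4 : c.σ m ≤ c.s := hc.sc.mono m c.m hm0 a3
  have a5 : 2 * c.s ≤ m := by
    refine le_of_mul_le_mul_left (a := (k : ℝ)) ?_ (by linarith)
    linarith
  have a6 : 1 ≤ m := by linarith
  have a7 := hc.sc.big m a6
  have a8 : 45000 * c.σ m ≤ c.s / X := hks c.σ hc.sc c.m m hm0 a1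
  have a9 : 1024 * m ≤ c.R := by nlinarith
  have h1 := hlow c.μ c.σ c.R m hc.tc hc.sc hc.conc a6 (by linarith) a9 (N * k) x y
    (Nat.mul_pos N0' (by omega)) (by push_cast; rw [e1, q2])
  have b1 : Λ * ((N * k : ℕ) : ℝ) * c.σ m ≤ Λ * (2 * q * k) * c.s := by
    push_cast
    gcongr
  exact (h1.scale (by linarith) (by linarith)).mono (by linarith)
    fun ω a ha => ⟨a, ha, by linarith⟩

end Pool.Agent.Lib.MP_de94ef_pr.Q
end

-- part Pool.Agent.Lib.MP_de94ef_pr.Q.Path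
section

/-!
Deterministic facts about walks, blocks and truncated passage times.
-/

open MeasureTheory ProbabilityTheory Set Real Function Filter Topology
open scoped ENNReal NNReal

namespace Pool.Agent.Lib.MP_de94ef_pr.Q

section es

variable {x y : VV} {p : GG.Walk x y} {k k' k'' : ℕ} {ω : Env}

lemma path_mem_Es {e : EE} :
    e ∈ Es p k k' ↔ ∃ j, k ≤ j ∧ j < k' ∧ s(p.getVert j, p.getVert (j + 1)) = e := by
  unfold Es
  simp only [Finset.mem_image, Finset.mem_Ico, and_assoc]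

lemma Es_full (p : GG.Walk x y) : Es p 0 p.length = es p := by
  ext e
  induction e using Sym2.ind with
  | _ a b =>
    rw [path_mem_Es, mem_es, SimpleGraph.Walk.mk_mem_edges_iff_exists]
    exact ⟨fun ⟨j, _, h2, h3⟩ => ⟨j, h2, h3⟩, fun ⟨j, h2, h3⟩ => ⟨j, Nat.zero_le _, h2, h3⟩⟩

lemma Es_mono {j j' : ℕ} (h : k ≤ j) (h' : j' ≤ k') : Es p j j' ⊆ Es p k k' := by
  exact Finset.image_subset_image (Finset.Ico_subset_Ico h h')

lemma Es_subset (h : k' ≤ p.length) : Es p k k' ⊆ es p := by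
  rw [← Es_full]
  exact Es_mono (Nat.zero_le _) h

lemma Es_union (h : k ≤ k') (h' : k' ≤ k'') : Es p k k'' = Es p k k' ∪ Es p k' k'' := by
  unfold Es
  rw [← Finset.image_union, Finset.Ico_union_Ico_eq_Ico h h']

lemma Es_disjoint (hp : p.IsPath) {j j' : ℕ} (h : k' ≤ j) (h' : j' ≤ p.length) :
    Disjoint (Es p k k') (Es p j j') := by
  rw [Finset.disjoint_left]
  intro e h1 h2
  obtain ⟨a, -, a2, a3⟩ := path_mem_Es.1 h1
  obtain ⟨b, b1, b2, b3⟩ := path_mem_Es.1 h2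
  rw [← b3, Sym2.eq_iff] at a3
  rcases a3 with ⟨h3, -⟩ | ⟨h3, -⟩
  · have := hp.getVert_injOn (show a ≤ p.length by omega) (show b ≤ p.length by omega) h3
    omega
  · have := hp.getVert_injOn (show a ≤ p.length by omega) (show b + 1 ≤ p.length by omega) h3
    omega

lemma wt_Es_add (hp : p.IsPath) (h : k ≤ k') (h' : k' ≤ k'') (h'' : k'' ≤ p.length) (ω : Env) :
    wt ω (Es p k k'') = wt ω (Es p k k') + wt ω (Es p k' k'') := by
  rw [Es_union h h', wt_union ω (Es_disjoint hp le_rfl h'')]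

lemma mem_Es {e : EE} (he : e ∈ Es p k k') {w : VV} (hw : w ∈ e) :
    ∃ j, k ≤ j ∧ j ≤ k' ∧ w = p.getVert j := by
  obtain ⟨a, a1, a2, rfl⟩ := path_mem_Es.1 he
  rcases Sym2.mem_iff.1 hw with h | h
  · exact ⟨a, a1, a2.le, h⟩
  · exact ⟨a + 1, by omega, a2, h⟩

lemma exists_sub (p : GG.Walk x y) (h : k ≤ k') (h' : k' ≤ p.length) :
    ∃ q : GG.Walk (p.getVert k) (p.getVert k'), es q = Es p k k' ∧
      ∀ w ∈ q.support, ∃ j, k ≤ j ∧ j ≤ k' ∧ w = p.getVert j := by
  induction k', h using Nat.le_induction with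
  | base =>
    refine ⟨.nil, by simp [es, Es], fun w hw => ⟨k, le_rfl, le_rfl, by simpa using hw⟩⟩
  | succ n hn ih =>
    obtain ⟨q, h1, h2⟩ := ih (by omega)
    refine ⟨q.append (.cons (p.adj_getVert_succ (show n < p.length by omega)) .nil), ?_,
      fun w hw => ?_⟩
    · rw [es_append, h1, Es_union hn (Nat.le_succ n)]
      congr 1
      simp [es, Es]
    · rcases (SimpleGraph.Walk.mem_support_append_iff _ _).1 hw with h3 | h3
      · obtain ⟨j, j1, j2, j3⟩ := h2 w h3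
        exact ⟨j, j1, by omega, j3⟩
      · simp only [SimpleGraph.Walk.support_cons, SimpleGraph.Walk.support_nil, List.mem_cons,
          List.not_mem_nil, or_false] at h3
        rcases h3 with h3 | h3
        · exact ⟨n, hn, by omega, h3⟩
        · exact ⟨n + 1, by omega, le_rfl, h3⟩

lemma TT_le_Es (p : GG.Walk x y) (h : k ≤ k') (h' : k' ≤ p.length) (ω : Env) :
    TT ω (p.getVert k) (p.getVert k') ≤ wt ω (Es p k k') := by
  obtain ⟨q, h1, -⟩ := exists_sub p h h'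
  rw [← h1]
  exact TT_le ω q

lemma IsGeo.wt_Es (hp : IsGeo ω p) (h : k ≤ k') (h' : k' ≤ p.length) :
    wt ω (Es p k k') = TT ω (p.getVert k) (p.getVert k') := by
  refine le_antisymm ?_ (TT_le_Es p h h' ω)
  have h1 := wt_Es_add hp.1 (Nat.zero_le k) (h.trans h') le_rfl ω
  have h2 := wt_Es_add hp.1 h h' le_rfl ω
  have h3 := TT_le_Es p (Nat.zero_le k) (h.trans h') ω
  have h4 := TT_le_Es p h' le_rfl ω
  rw [p.getVert_zero] at h3
  rw [p.getVert_length] at h4
  rw [Es_full] at h1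
  have h5 := TT_triangle ω x (p.getVert k) y
  have h6 := TT_triangle ω (p.getVert k) (p.getVert k') y
  linarith [hp.2]

lemma wt_congr {X X' : Env} {S : Finset EE} (h : ∀ e ∈ S, X' e = X e) : wt X' S = wt X S := by
  exact Finset.sum_congr rfl fun e he => by rw [h e he]

lemma wt_le_wt {X X' : Env} (h : ∀ e, max (X' e) 0 ≤ max (X e) 0) (S : Finset EE) :
    wt X' S ≤ wt X S := by
  exact Finset.sum_le_sum fun e _ => h e

lemma gain_mono {X X' : Env} (h : ∀ e, max (X' e) 0 ≤ max (X e) 0) {S S' : Finset EE}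
    (hS : S ⊆ S') : wt X S - wt X' S ≤ wt X S' - wt X' S' := by
  unfold wt
  rw [← Finset.sum_sub_distrib, ← Finset.sum_sub_distrib]
  exact Finset.sum_le_sum_of_subset_of_nonneg hS fun e _ _ => sub_nonneg.2 (h e)

lemma gain_biUnion {X X' : Env} (h : ∀ e, max (X' e) 0 ≤ max (X e) 0) {κ : Type} (Z : Finset κ)
    (S : κ → Finset EE) :
    wt X (Z.biUnion S) - wt X' (Z.biUnion S) ≤ ∑ i ∈ Z, (wt X (S i) - wt X' (S i)) := by
  classical
  induction Z using Finset.induction_on with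
  | empty => simp
  | insert i Z hi ih =>
    rw [Finset.biUnion_insert, Finset.sum_insert hi]
    have h1 := Finset.sum_union_inter (s₁ := S i) (s₂ := Z.biUnion S)
      (f := fun e => max (X e) 0 - max (X' e) 0)
    have h2 : 0 ≤ ∑ e ∈ S i ∩ Z.biUnion S, (max (X e) 0 - max (X' e) 0) :=
      Finset.sum_nonneg fun e _ => sub_nonneg.2 (h e)
    simp only [Finset.sum_sub_distrib] at h1 h2
    unfold wt at *
    linarith

lemma path_split (hp : p.IsPath) (h : k ≤ p.length) (ω : Env) :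
    TT ω x (p.getVert k) + TT ω (p.getVert k) y ≤ wt ω (es p) := by
  have h1 := wt_Es_add hp (Nat.zero_le k) h le_rfl ω
  have h3 := TT_le_Es p (Nat.zero_le k) h ω
  have h4 := TT_le_Es p h le_rfl ω
  rw [p.getVert_zero] at h3
  rw [p.getVert_length] at h4
  rw [Es_full] at h1
  linarith

/-- First exit from a set. -/
lemma exit_vertex (hp : p.IsPath) (A : Set VV) (hx : x ∈ A) (h : ¬ ∀ w ∈ p.support, w ∈ A)
    (ω : Env) : ∃ w w', w ∈ A ∧ w' ∉ A ∧ GG.Adj w w' ∧ w ∈ p.support ∧ w' ∈ p.support ∧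
      TT ω x w' + TT ω w' y ≤ wt ω (es p) := by
  classical
  have h1 : ∃ j, j ≤ p.length ∧ p.getVert j ∉ A := by
    by_contra hc
    apply h
    intro w hw
    obtain ⟨n, rfl, hn⟩ := SimpleGraph.Walk.mem_support_iff_exists_getVert.1 hw
    by_contra h2
    exact hc ⟨n, hn, h2⟩
  have h2 := Nat.find_spec h1
  have h3 : Nat.find h1 ≠ 0 := by
    intro h0
    rw [h0, p.getVert_zero] at h2
    exact h2.2 hx
  obtain ⟨j, hj⟩ := Nat.exists_eq_succ_of_ne_zero h3
  have h4 := Nat.find_min h1 (show j < Nat.find h1 by omega)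
  rw [hj] at h2
  have h5 : j < p.length := h2.1
  refine ⟨p.getVert j, p.getVert (j + 1), ?_, h2.2, p.adj_getVert_succ h5,
    p.getVert_mem_support _, p.getVert_mem_support _, path_split hp h5 ω⟩
  by_contra h6
  exact h4 ⟨h5.le, h6⟩

lemma split_vertex (hp : p.IsPath) {w : VV} (hw : w ∈ p.support) (ω : Env) :
    TT ω x w + TT ω w y ≤ wt ω (es p) := by
  obtain ⟨n, rfl, hn⟩ := SimpleGraph.Walk.mem_support_iff_exists_getVert.1 hw
  exact path_split hp hn ω

end es

section hit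

variable {μ : ℝ × ℝ → ℝ} {a : ℝ × ℝ →ₗ[ℝ] ℝ} {x y : VV} {p : GG.Walk x y} {α α' s : ℝ} {k k' : ℕ}

lemma hit_le (p : GG.Walk x y) (α : ℝ) : hit a p α ≤ p.length := by
  unfold hit
  split_ifs with h
  · exact Nat.sInf_le (show α ≤ a (iv (p.getVert p.length)) by rw [p.getVert_length]; exact h.le)
  · exact le_rfl

lemma path_le_a_hit (p : GG.Walk x y) (h : α ≤ a (iv y)) :
    α ≤ a (iv (p.getVert (hit a p α))) := by
  unfold hit
  split_ifs with h'
  · exact Nat.sInf_mem (s := {k | α ≤ a (iv (p.getVert k))})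
      ⟨p.length, show α ≤ a (iv (p.getVert p.length)) by rw [p.getVert_length]; exact h⟩
  · rw [p.getVert_length]; exact h

lemma hit_mono (p : GG.Walk x y) (h : α ≤ α') : hit a p α ≤ hit a p α' := by
  by_cases h' : α' < a (iv y)
  · have h1 := path_le_a_hit (a := a) p h'.le
    have h2 : α < a (iv y) := h.trans_lt h'
    conv_lhs => unfold hit
    rw [if_pos h2]
    exact Nat.sInf_le (show α ≤ a (iv (p.getVert (hit a p α'))) from h.trans h1)
  · have : hit a p α' = p.length := by unfold hit; rw [if_neg h']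
    rw [this]
    exact hit_le p α

lemma le_a_hit (p : GG.Walk x y) (h : α ≤ a (iv y)) : α ≤ a (iv (p.getVert (hit a p α))) := by
  exact path_le_a_hit p h

lemma a_lt_of_lt_hit (h : α < a (iv y)) (hk : k < hit a p α) : a (iv (p.getVert k)) < α := by
  unfold hit at hk
  rw [if_pos h] at hk
  exact not_le.1 (Nat.notMem_of_lt_sInf hk)

lemma hit_le_of_le (h : α < a (iv y)) (hk : α ≤ a (iv (p.getVert k))) : hit a p α ≤ k := by
  unfold hit
  rw [if_pos h]
  exact Nat.sInf_le hk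

lemma a_le_of_le_hit (hμ : IsTC μ) (ha : ∀ z, a z ≤ μ z) (h0 : a (iv x) ≤ α) (h : α < a (iv y))
    (hk : k ≤ hit a p α) : a (iv (p.getVert k)) ≤ α + 1 := by
  rcases k with _ | j
  · rw [p.getVert_zero]; linarith
  · have h1 : j < hit a p α := hk
    have h2 := a_lt_of_lt_hit h h1
    have h3 := p.adj_getVert_succ (h1.trans_le (hit_le p α))
    have h4 := (ha (iv (p.getVert (j + 1) - p.getVert j))).trans (hμ.le _)
    rw [r1_iv, n1_of_adj h3, iv_sub, map_sub] at h4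
    linarith

lemma Straight.a_ge (hμ : IsTC μ) (hp : Straight μ a s p) (h : k ≤ k') (h' : k' ≤ p.length) :
    a (iv (p.getVert k)) - s ≤ a (iv (p.getVert k')) := by
  have h1 := hp k k' h h'
  have h2 := hμ.nonneg (iv (p.getVert k' - p.getVert k))
  have h3 : a (iv (p.getVert k' - p.getVert k)) =
      a (iv (p.getVert k')) - a (iv (p.getVert k)) := by rw [iv_sub, map_sub]
  linarith

end hit

section level

variable {c : Bs} {f : Fd} {v : VV} {M : ℕ} {s : ℝ} {p : GG.Walk 0 v} {i i' k k' : ℕ}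

lemma Top.a_v (hT : Top c f v M s) : f.a (iv v) = M * c.m := by
  rw [hT.hv, map_smul, hT.fr.au, smul_eq_mul, mul_one]

lemma Top.n1_v (hT : Top c f v M s) (hb : c.Big 100) : n1 v ≤ 11 * (M * c.m) := by
  rw [← r1_iv, ← hT.hμ]
  exact hb.tc.ge _

lemma tk_le (f : Fd) (m : ℝ) (p : GG.Walk 0 v) (i : ℕ) : tk f m p i ≤ p.length := by
  exact hit_le p _

lemma tk_mono (f : Fd) {m : ℝ} (hm : 0 ≤ m) (p : GG.Walk 0 v) (h : i ≤ i') :
    tk f m p i ≤ tk f m p i' := by
  exact hit_mono p (mul_le_mul_of_nonneg_right (by exact_mod_cast h) hm)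

lemma Top.tk_zero (hT : Top c f v M s) (hb : c.Big 100) (p : GG.Walk 0 v) : tk f c.m p 0 = 0 := by
  have h1 : (1 : ℝ) ≤ M := by exact_mod_cast hT.hM
  have h2 := hb.m_pos
  refine Nat.le_zero.1 (hit_le_of_le ?_ ?_)
  · rw [hT.a_v, Nat.cast_zero, zero_mul]; positivity
  · rw [p.getVert_zero]; simp

lemma Top.tk_last (hT : Top c f v M s) (hb : c.Big 100) (p : GG.Walk 0 v) (h : M ≤ i) :
    tk f c.m p i = p.length := by
  unfold tk hit
  rw [if_neg]
  rw [hT.a_v, not_lt]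
  exact mul_le_mul_of_nonneg_right (by exact_mod_cast h) hb.m_pos.le

lemma Top.cs_zero (hT : Top c f v M s) (hb : c.Big 100) (p : GG.Walk 0 v) : cs f c.m p 0 = 0 := by
  unfold cs xs
  rw [hT.tk_zero hb, p.getVert_zero]
  simp

lemma Top.cs_last (hT : Top c f v M s) (hb : c.Big 100) (p : GG.Walk 0 v) (h : M ≤ i) :
    cs f c.m p i = 0 := by
  unfold cs xs
  rw [hT.tk_last hb p h, p.getVert_length, hT.hv, map_smul, hT.fr.bu]
  simp

lemma Top.a_xs (hT : Top c f v M s) (hb : c.Big 100) (p : GG.Walk 0 v) (h : i ≤ M) :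
    i * c.m ≤ f.a (iv (xs f c.m p i)) ∧ f.a (iv (xs f c.m p i)) ≤ i * c.m + 1 := by
  have hm := hb.m_pos
  refine ⟨le_a_hit p ?_, ?_⟩
  · rw [hT.a_v]
    exact mul_le_mul_of_nonneg_right (by exact_mod_cast h) hm.le
  · rcases h.lt_or_eq with h | h
    · refine a_le_of_le_hit hb.tc hT.fr.ha ?_ ?_ le_rfl
      · rw [iv_zero, map_zero]; positivity
      · rw [hT.a_v]
        exact mul_lt_mul_of_pos_right (by exact_mod_cast h) hm
    · unfold xs
      rw [hT.tk_last hb p h.ge, p.getVert_length, hT.a_v, h]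
      linarith

lemma b_xs (f : Fd) {m : ℝ} (hm : 0 < m) (p : GG.Walk 0 v) (i : ℕ) :
    cs f m p i * m ≤ f.b (iv (xs f m p i)) ∧ f.b (iv (xs f m p i)) ≤ (cs f m p i + 1) * m := by
  unfold cs
  exact ⟨(le_div_iff₀ hm).1 (Int.floor_le _), (div_le_iff₀ hm).1 (Int.lt_floor_add_one _).le⟩

lemma Top.sq_xs (hT : Top c f v M s) (hb : c.Big 100) (p : GG.Walk 0 v) (h : i ≤ M) :
    Sq f (zc f c.m i (cs f c.m p i)) c.m (xs f c.m p i) := by
  obtain ⟨h1, h2⟩ := hT.a_xs hb p h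
  obtain ⟨h3, h4⟩ := b_xs f hb.m_pos p i
  have h5 := hb.one
  unfold Sq zc
  rw [map_sub, map_sub, hT.fr.a_pt, hT.fr.b_pt]
  refine ⟨?_, ?_, ?_, ?_⟩ <;> linarith

lemma Top.a_lower (hT : Top c f v M s) (hb : c.Big 100) (hp : Straight c.μ f.a s p) (h : i ≤ M)
    (hk : tk f c.m p i ≤ k) (hk' : k ≤ p.length) :
    i * c.m - c.m / 25 ≤ f.a (iv (p.getVert k)) := by
  have h1 := hp.a_ge hb.tc hk hk'
  have h2 := (hT.a_xs hb p h).1
  unfold xs at h2
  linarith [hT.s1]

lemma Top.a_upper (hT : Top c f v M s) (hb : c.Big 100) (hp : Straight c.μ f.a s p) (h : i ≤ M)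
    (hk : k ≤ tk f c.m p i) : f.a (iv (p.getVert k)) ≤ i * c.m + c.m / 20 := by
  have h1 := hp.a_ge hb.tc hk (tk_le f c.m p i)
  have h2 := (hT.a_xs hb p h).2
  have h3 := hb.m_ge (by norm_num)
  unfold xs at h2
  linarith [hT.s1]

lemma Top.diam (hT : Top c f v M s) (hb : c.Big 100) (hp : Straight c.μ f.a s p) (h : i < i')
    (h' : i' ≤ M) (h1 : tk f c.m p i ≤ k) (h2 : k ≤ k') (h3 : k' ≤ tk f c.m p i') :
    c.μ (iv (p.getVert k' - p.getVert k)) ≤ 2 * ((i' : ℝ) - i) * c.m ∧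
      n1 (p.getVert k' - p.getVert k) ≤ 22 * ((i' : ℝ) - i) * c.m := by
  have h4 : k' ≤ p.length := h3.trans (tk_le f c.m p i')
  have h5 := hp k k' h2 h4
  have h6 := hT.a_lower hb hp (h.le.trans h') h1 (h2.trans h4)
  have h7 := hT.a_upper hb hp h' h3
  have h8 : f.a (iv (p.getVert k' - p.getVert k)) =
      f.a (iv (p.getVert k')) - f.a (iv (p.getVert k)) := by rw [iv_sub, map_sub]
  have h9 : (i : ℝ) + 1 ≤ i' := by exact_mod_cast h
  have h10 := mul_le_mul_of_nonneg_right h9 hb.m_pos.le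
  have h11 : c.μ (iv (p.getVert k' - p.getVert k)) ≤ 2 * ((i' : ℝ) - i) * c.m := by
    linarith [hT.s1, hb.m_pos]
  refine ⟨h11, ?_⟩
  have h12 := hb.tc.ge (iv (p.getVert k' - p.getVert k))
  rw [r1_iv] at h12
  linarith

lemma biUnion_Eb (f : Fd) {m : ℝ} (hm : 0 ≤ m) (p : GG.Walk 0 v) (h : i ≤ i') :
    (Finset.Ico i i').biUnion (Eb f m p) = Es p (tk f m p i) (tk f m p i') := by
  induction i', h using Nat.le_induction with
  | base => simp [Es]
  | succ n hn ih =>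
    rw [Es_union (tk_mono f hm p hn) (tk_mono f hm p (Nat.le_succ n)), ← ih,
      Nat.Ico_succ_right_eq_insert_Ico hn, Finset.biUnion_insert, Finset.union_comm]
    rfl

lemma Top.exists_Eb (hT : Top c f v M s) (hb : c.Big 100) {e : EE} (he : e ∈ es p) :
    ∃ i < M, e ∈ Eb f c.m p i := by
  rw [← Es_full, ← hT.tk_zero hb p, ← hT.tk_last hb p le_rfl,
    ← biUnion_Eb f hb.m_pos.le p (Nat.zero_le M)] at he
  obtain ⟨i, h1, h2⟩ := Finset.mem_biUnion.1 he
  exact ⟨i, (Finset.mem_Ico.1 h1).2, h2⟩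

lemma Eb_subset (f : Fd) (m : ℝ) (p : GG.Walk 0 v) (i : ℕ) : Eb f m p i ⊆ es p := by
  exact Es_subset (tk_le f m p _)

lemma sum_ex (f : Fd) {m : ℝ} (hm : 0 ≤ m) (hp : p.IsPath) (h : i ≤ i') (ω : Env) :
    wt ω (Es p (tk f m p i) (tk f m p i')) =
      f.L (iv (xs f m p i' - xs f m p i)) + ∑ j ∈ Finset.Ico i i', ex f m p ω j := by
  induction i', h using Nat.le_induction with
  | base => simp [Es]
  | succ n hn ih =>
    rw [wt_Es_add hp (tk_mono f hm p hn) (tk_mono f hm p (Nat.le_succ n)) (tk_le f m p _), ih,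
      Finset.sum_Ico_succ_top hn]
    unfold ex Eb
    simp only [iv_sub, map_sub]
    ring

lemma Eb_nest {f' : Fd} (ha : f'.a = f.a) {m : ℝ} (hm : 0 ≤ m) {n : ℕ} (hn : 1 ≤ n)
    (p : GG.Walk 0 v) (i : ℕ) : Eb f m p i ⊆ Eb f' (n * m) p (i / n) := by
  unfold Eb tk
  rw [ha]
  refine Es_mono (hit_mono p ?_) (hit_mono p ?_)
  · rw [← mul_assoc]
    refine mul_le_mul_of_nonneg_right ?_ hm
    exact_mod_cast Nat.div_mul_le_self i n
  · rw [← mul_assoc]
    refine mul_le_mul_of_nonneg_right ?_ hm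
    have h1 : i < n * (i / n + 1) := Nat.lt_mul_div_succ i (by omega)
    rw [mul_comm] at h1
    exact_mod_cast h1

lemma Dd_nonneg (f : Fd) (m : ℝ) (p : GG.Walk 0 v) (i : ℕ) : 0 ≤ Dd f m p i := by
  exact NNReal.coe_nonneg _

lemma le_Dd (f : Fd) {m : ℝ} (hm : 0 < m) (h1 : tk f m p i ≤ k) (h2 : k ≤ tk f m p (i + 1)) :
    |f.b (iv (p.getVert k - xs f m p i))| ≤ Dd f m p i * m := by
  have h3 := Finset.le_sup (f := fun k => ‖f.b (iv (p.getVert k - xs f m p i)) / m‖₊)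
    (Finset.mem_Icc.2 ⟨h1, h2⟩)
  have h4 : ‖f.b (iv (p.getVert k - xs f m p i)) / m‖ ≤ Dd f m p i := NNReal.coe_le_coe.2 h3
  rwa [Real.norm_eq_abs, abs_div, abs_of_pos hm, div_le_iff₀ hm] at h4

lemma exists_Dd (f : Fd) {m : ℝ} (hm : 0 < m) (p : GG.Walk 0 v) (i : ℕ) :
    ∃ k, tk f m p i ≤ k ∧ k ≤ tk f m p (i + 1) ∧
      |f.b (iv (p.getVert k - xs f m p i))| = Dd f m p i * m := by
  obtain ⟨k, h1, h2⟩ := Finset.exists_mem_eq_sup (Finset.Icc (tk f m p i) (tk f m p (i + 1)))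
    (Finset.nonempty_Icc.2 (tk_mono f hm.le p (Nat.le_succ i)))
    (fun k => ‖f.b (iv (p.getVert k - xs f m p i)) / m‖₊)
  refine ⟨k, (Finset.mem_Icc.1 h1).1, (Finset.mem_Icc.1 h1).2, ?_⟩
  unfold Dd
  rw [h2, coe_nnnorm, Real.norm_eq_abs, abs_div, abs_of_pos hm, div_mul_cancel₀ _ hm.ne']

lemma abs_ks_le (f : Fd) {m : ℝ} (hm : 0 < m) (p : GG.Walk 0 v) (i : ℕ) :
    |((cs f m p (i + 1) - cs f m p i : ℤ) : ℝ)| ≤ Dd f m p i + 1 := by
  obtain ⟨h1, h2⟩ := b_xs f hm p i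
  obtain ⟨h3, h4⟩ := b_xs f hm p (i + 1)
  have h5 := le_Dd f hm (p := p) (tk_mono f hm.le p (Nat.le_succ i)) le_rfl
  change |f.b (iv (xs f m p (i + 1) - xs f m p i))| ≤ _ at h5
  rw [iv_sub, map_sub, abs_le] at h5
  push_cast
  rw [abs_le]
  constructor
  · refine le_of_mul_le_mul_right ?_ hm
    linarith [h5.1]
  · refine le_of_mul_le_mul_right ?_ hm
    linarith [h5.2]

/-- A chord of a straight path is a walk inside a slab. -/
lemma Top.seg (hT : Top c f v M s) (hb : c.Big 100) (hp : Straight c.μ f.a s p) (h : i < i')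
    (h' : i' ≤ M) {α α' ρ : ℝ} (h1 : α ≤ (i - 1 / 2) * c.m) (h2 : (i' + 1 / 2) * c.m ≤ α')
    (hρ : 22 * ((i' : ℝ) - i) * c.m ≤ ρ) (ω : Om) :
    Seg f c.m ρ (zc f c.m i (cs f c.m p i)) (zc f c.m i' (cs f c.m p i'))
      (Sl f (zc f c.m i (cs f c.m p i)) α α') ω
      (f.L (iv (xs f c.m p i' - xs f c.m p i)) - wt ω.2 (Es p (tk f c.m p i) (tk f c.m p i'))) := by
  have hm := hb.m_pos
  have h3 := tk_mono f hm.le p h.le
  have h4 := tk_le f c.m p i'
  obtain ⟨q, hq1, hq2⟩ := exists_sub p h3 h4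
  have h5 := hT.sq_xs hb p (h.le.trans h')
  refine ⟨xs f c.m p i, xs f c.m p i', h5, hT.sq_xs hb p h',
    (hT.diam hb hp h h' le_rfl h3 le_rfl).2.trans hρ, q, fun w hw => ?_, by rw [← hq1]; rfl⟩
  obtain ⟨j, j1, j2, rfl⟩ := hq2 w hw
  have h6 := (hT.diam hb hp h h' le_rfl j1 j2).2
  have h7 := hT.fr.n1_of_Sq hb.tc h5
  have h8 := n1_add_le (p.getVert j - xs f c.m p i)
    (xs f c.m p i - fl (zc f c.m i (cs f c.m p i)))
  rw [sub_add_sub_cancel] at h8
  have h9 := hT.a_lower hb hp (h.le.trans h') j1 (j2.trans h4)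
  have h10 := hT.a_upper hb hp h' j2
  have h11 : (i : ℝ) + 1 ≤ i' := by exact_mod_cast h
  have h12 := mul_le_mul_of_nonneg_right h11 hm.le
  have h13 := hb.one
  change n1 (p.getVert j - xs f c.m p i) ≤ _ at h6
  refine mem_Sl ?_ ?_ ?_ <;> linarith

end level

end Pool.Agent.Lib.MP_de94ef_pr.Q
end

-- part Pool.Agent.Lib.MP_de94ef_pr.Q.Trunc
section

/-!
Truncated passage times, measurability.
-/

open MeasureTheory ProbabilityTheory Set Real Function Filter Topology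
open scoped ENNReal NNReal

namespace Pool.Agent.Lib.MP_de94ef_pr.Q

variable {A : Finset VV} {K θ : ℝ} {q q' : VV} {ω : Env}

lemma trunc_set {α I : Type} [MeasurableSpace α] [Countable I] {sel : α → I}
    (hs : ∀ i, MeasurableSet {ω | sel ω = i}) {F : I → α → Prop}
    (h : ∀ i, MeasurableSet {ω | F i ω}) : MeasurableSet {ω | F (sel ω) ω} := by
  have e : {ω | F (sel ω) ω} = ⋃ i, {ω | sel ω = i} ∩ {ω | F i ω} := by
    ext ω
    simp
  rw [e]
  exact MeasurableSet.iUnion fun i => (hs i).inter (h i)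

lemma trunc_meas {α β I : Type} [MeasurableSpace α] [MeasurableSpace β] [Countable I]
    {sel : α → I} (hs : ∀ i, MeasurableSet {ω | sel ω = i}) {F : I → α → β}
    (h : ∀ i, Measurable (F i)) : Measurable fun ω => F (sel ω) ω :=
  fun S hS => trunc_set (F := fun i ω => F i ω ∈ S) hs fun i => h i hS

lemma trunc_wt {x y : Env} (h : x ≤ y) (S : Finset EE) : wt x S ≤ wt y S :=
  Finset.sum_le_sum fun e _ => max_le_max_right _ (h e)

lemma trunc_sub (i : Idx A q q') : pT i ⊆ A.sym2 := by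
  cases i with
  | none => exact Finset.empty_subset _
  | some p => exact es_subset_sym2 p.2

lemma trunc_le (ω : Env) (i : Idx A q q') : TC A K q q' ω ≤ cT K i + wt ω (pT i) := by
  refine ciInf_le ⟨min K 0, ?_⟩ i
  rintro _ ⟨j, rfl⟩
  have := wt_nonneg ω (pT j)
  cases j with
  | none => exact (min_le_left _ _).trans (le_add_of_nonneg_right this)
  | some p => exact (min_le_right _ _).trans (add_nonneg le_rfl this)

lemma trunc_ge {x : ℝ} (h : x ≤ K)
    (h' : ∀ p : GG.Walk q q', (∀ w ∈ p.support, w ∈ A) → x ≤ wt ω (es p)) :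
    x ≤ TC A K q q' ω := by
  refine le_val fun i => ?_
  cases i with
  | none => simpa [cT, pT] using h
  | some p => simpa [cT, pT] using h' p.1 p.2

lemma trunc_min (A : Finset VV) (K : ℝ) (q q' : VV) (ω : Env) :
    ∃ i : Idx A q q', ∀ j : Idx A q q', cT K i + wt ω (pT i) ≤ cT K j + wt ω (pT j) := by
  cases isEmpty_or_nonempty {p : GG.Walk q q' // ∀ w ∈ p.support, w ∈ A} with
  | inl h =>
    refine ⟨none, fun j => ?_⟩
    cases j with
    | none => exact le_rfl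
    | some p => exact h.elim p
  | inr h =>
    obtain ⟨p, hp⟩ := exists_min_wt (I := {p : GG.Walk q q' // ∀ w ∈ p.support, w ∈ A})
      (fun p => es p.1) A.sym2 (fun p => es_subset_sym2 p.2) ω
    rcases le_total K (wt ω (es p.1)) with h1 | h1
    · refine ⟨none, fun j => ?_⟩
      cases j with
      | none => exact le_rfl
      | some p' => simpa [cT, pT] using h1.trans (hp p')
    · refine ⟨some p, fun j => ?_⟩
      cases j with
      | none => simpa [cT, pT] using h1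
      | some p' => simpa [cT, pT] using hp p'

lemma trunc_tau {A' : Finset VV} {z : VV} (h : ∀ w ∈ A, w + z ∈ A') :
    TC A' K (q + z) (q' + z) ω ≤ TC A K q q' (tau z ω) := by
  refine trunc_ge (by simpa [cT, pT] using trunc_le (K := K) ω (none : Idx A' _ _)) fun p hp => ?_
  rw [wt_tau, ← es_map]
  refine (trunc_le (A := A') (K := K) ω (some ⟨p.map (shHom z), fun w hw => ?_⟩)).trans_eq
    (zero_add _)
  rw [SimpleGraph.Walk.support_map, List.mem_map] at hw
  obtain ⟨w, hw, rfl⟩ := hw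
  exact h w (hp w hw)

lemma trunc_bd (A : Finset VV) (φ : VV → ℝ≥0) :
    ∃ C : ℝ≥0, ∀ w ∈ A, ∀ w' ∈ A, φ (w - w') ≤ C :=
  ⟨(A ×ˢ A).sup fun x => φ (x.1 - x.2), fun w hw w' hw' =>
    Finset.le_sup (f := fun x : VV × VV => φ (x.1 - x.2)) (b := (w, w'))
      (Finset.mem_product.2 ⟨hw, hw'⟩)⟩

lemma meas_geo {β : Type} [MeasurableSpace β] (v : VV) {F : GG.Walk 0 v → Env → β}
    (h : ∀ p, Measurable (F p)) : Measurable fun ω => F (geo v ω) ω := by
  exact trunc_meas (measurableSet_geo v) h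

lemma meas_geo2 {β : Type} [MeasurableSpace β] (v : VV) {F : GG.Walk 0 v → Om → β}
    (h : ∀ p, Measurable (F p)) : Measurable fun ω : Om => F (geo v ω.2) ω := by
  exact trunc_meas (sel := fun ω : Om => geo v ω.2)
    (fun p => measurable_snd (measurableSet_geo v p)) h

lemma measSet_geo2 (v : VV) {F : GG.Walk 0 v → Om → Prop}
    (h : ∀ p, MeasurableSet {ω | F p ω}) : MeasurableSet {ω : Om | F (geo v ω.2) ω} := by
  exact trunc_set (sel := fun ω : Om => geo v ω.2)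
    (fun p => measurable_snd (measurableSet_geo v p)) h

lemma measurableSet_Nice (μ : ℝ × ℝ → ℝ) (a : ℝ × ℝ →ₗ[ℝ] ℝ) (v : VV) (s : ℝ) :
    MeasurableSet {ω | Nice μ a v s ω} := by
  refine trunc_set (F := fun p ω => IsGeo ω p ∧ Straight μ a s p) (measurableSet_geo v) fun p => ?_
  exact ((MeasurableSet.const _).inter
    (measurableSet_le (measurable_wt (es p)) (measurable_TT 0 v))).inter (MeasurableSet.const _)

lemma measurable_ex (f : Fd) (m : ℝ) {v : VV} (p : GG.Walk 0 v) (i : ℕ) :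
    Measurable fun ω => ex f m p ω i := by
  exact (measurable_wt _).sub_const _

lemma measurable_TB (v : VV) : Measurable (TB v) := by
  exact meas_geo v (F := fun p ω => wt ω (es p)) fun p => measurable_wt _

lemma sg_TB (v : VV) : SG (TB v) (fun ω => es (geo v ω)) (Lam v).sym2 := by
  refine ⟨measurable_TB v, fun e => trunc_set (F := fun p _ => e ∈ es p) (measurableSet_geo v)
    fun p => MeasurableSet.const _, fun x => es_subset_sym2 (geo_mem v x),
    fun x => wt_nonneg _ _, fun x x' => ?_⟩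
  have := geo_le v x' (geo v x) (geo_mem v x)
  unfold TB
  linarith

lemma TT_le_TB (v : VV) (ω : Env) : TT ω 0 v ≤ TB v ω := by
  exact TT_le ω _

lemma TB_le_stair (v : VV) (ω : Env) : TB v ω ≤ wt ω (es (stair 0 v)) := by
  exact geo_le v ω _ (stair_Lam v)

lemma measurable_TC (A : Finset VV) (K : ℝ) (q q' : VV) : Measurable (TC A K q q') := by
  exact measurable_val

lemma dependsOn_TC (A : Finset VV) (K : ℝ) (q q' : VV) :
    DependsOn (TC A K q q') ((A.sym2 : Finset EE) : Set EE) := by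
  exact dependsOn_val fun i => Finset.coe_subset.2 (trunc_sub i)

lemma TC_le_cap (ω : Env) : TC A K q q' ω ≤ K := by
  simpa [cT, pT] using trunc_le (A := A) (K := K) (q := q) (q' := q') ω none

lemma TC_le_wt (ω : Env) (p : GG.Walk q q') (hp : ∀ w ∈ p.support, w ∈ A) :
    TC A K q q' ω ≤ wt ω (es p) := by
  simpa [cT, pT] using trunc_le (K := K) ω (some ⟨p, hp⟩)

lemma TC_nonneg (hK : 0 ≤ K) (ω : Env) : 0 ≤ TC A K q q' ω := by
  exact trunc_ge hK fun _ _ => wt_nonneg _ _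

lemma Reach.TC_le (h : Reach A q q' θ ω) : TC A K q q' ω ≤ θ := by
  obtain ⟨p, hp, h⟩ := h
  exact (TC_le_wt ω p hp).trans h

lemma TC_reach (h : TC A K q q' ω < K) : Reach A q q' (TC A K q q' ω) ω := by
  obtain ⟨i, hi⟩ := trunc_min A K q q' ω
  have h1 : cT K i + wt ω (pT i) ≤ TC A K q q' ω := le_val hi
  cases i with
  | none => exact absurd h (by simpa [cT, pT] using h1)
  | some p => exact ⟨p.1, p.2, by simpa [cT, pT] using h1⟩

lemma min_le_TC (ω : Env) : min (TT ω q q') K ≤ TC A K q q' ω := by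
  exact trunc_ge (min_le_right _ _) fun p _ => (min_le_left _ _).trans (TT_le ω p)

lemma TC_le_TT (h : ∀ θ, TT ω q q' < θ → θ ≤ K → Reach A q q' θ ω) :
    TC A K q q' ω ≤ TT ω q q' := by
  by_contra hc
  have h1 := not_le.1 hc
  have h2 := TC_le_cap (A := A) (K := K) (q := q) (q' := q') ω
  have := (h ((TT ω q q' + TC A K q q' ω) / 2) (by linarith) (by linarith)).TC_le (K := K)
  linarith

lemma monotone_TC (A : Finset VV) (K : ℝ) (q q' : VV) : Monotone (TC A K q q') := by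
  exact fun x y h => trunc_ge (TC_le_cap x) fun p hp => (TC_le_wt x p hp).trans (trunc_wt h _)

lemma sg_TC (A : Finset VV) (hK : 0 ≤ K) (q q' : VV) : ∃ γ, SG (TC A K q q') γ A.sym2 := by
  obtain ⟨sel, h1, h2⟩ := exists_argmin (I := Idx A q q') (fun i ω => cT K i + wt ω (pT i))
    (fun i => (measurable_wt _).const_add _) (trunc_min A K q q')
  refine ⟨fun ω => pT (sel ω), measurable_TC A K q q', fun e => trunc_set
    (F := fun i _ => e ∈ pT i) h1 fun _ => MeasurableSet.const _, fun x => trunc_sub _,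
    TC_nonneg hK, fun x x' => ?_⟩
  have h3 : cT K (sel x) + wt x (pT (sel x)) ≤ TC A K q q' x := le_val (h2 x)
  linarith [trunc_le (K := K) x' (sel x)]

lemma mem_Nb_add (f : Fd) (m K : ℝ) (o o' w : VV) : w + o' ∈ Nb f m K (o + o') ↔ w ∈ Nb f m K o := by
  simp only [Nb, Finset.mem_filter, mem_box, add_sub_add_right_eq_sub, Prod.fst_add, Prod.snd_add]
  refine and_congr_left fun _ => ?_
  omega

lemma TC_tau (f : Fd) (m K K' : ℝ) (o y o' : VV) (ω : Env) :
    TC (Nb f m K (o + o')) K' (o + o') (o + o' + y) ω = TC (Nb f m K o) K' o (o + y) (tau o' ω) := by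
  rw [add_right_comm o o' y]
  refine le_antisymm (trunc_tau fun w hw => (mem_Nb_add f m K o o' w).2 hw) ?_
  have := trunc_tau (A := Nb f m K (o + o')) (A' := Nb f m K o) (z := -o') (K := K')
    (q := o + o') (q' := o + y + o') (ω := tau o' ω) fun w hw =>
      (mem_Nb_add f m K o o' _).1 (by simpa using hw)
  simpa [tau_tau] using this

lemma FF_tau (f : Fd) (m K : ℝ) (k : ℤ) (o : VV) (ω : Env) :
    FF f m K k o ω = FF f m K k 0 (tau o ω) := by
  have := TC_tau f m K (f.L (iv (yk f m k))) 0 (yk f m k) o ω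
  rw [zero_add o] at this
  exact this

lemma Reach.TT_le (h : Reach A q q' θ ω) : TT ω q q' ≤ θ := by
  obtain ⟨p, -, h⟩ := h
  exact (Pool.Agent.Lib.MP_de94ef_pr.TT_le ω p).trans h

lemma measurableSet_Reach (A : Finset VV) (q q' : VV) (θ : ℝ) :
    MeasurableSet {ω | Reach A q q' θ ω} := by
  unfold Reach
  rw [ofPred_exists]
  exact MeasurableSet.iUnion fun p => (MeasurableSet.const _).inter
    (measurableSet_le (measurable_wt (es p)) measurable_const)

lemma isLowerSet_Reach (A : Finset VV) (q q' : VV) (θ : ℝ) :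
    IsLowerSet {ω | Reach A q q' θ ω} := by
  exact fun _ _ h ⟨p, hp, h'⟩ => ⟨p, hp, (trunc_wt h _).trans h'⟩

lemma Reach.congr {ω' : Env} (h : Reach A q q' θ ω) (h' : ∀ e ∈ A.sym2, ω' e = ω e) :
    Reach A q q' θ ω' := by
  obtain ⟨p, hp, h⟩ := h
  refine ⟨p, hp, le_of_eq_of_le (Finset.sum_congr rfl fun e he => ?_) h⟩
  rw [h' e (es_subset_sym2 hp he)]

section top

variable {c : Bs} {f : Fd} {v : VV} {M : ℕ} {s : ℝ} {F : Om → Finset ℕ}

lemma measurable_DS (c : Bs) (f : Fd) (v : VV) (M : ℕ) (s : ℝ) : Measurable (DS c f v M s) := by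
  exact Measurable.ite (measurableSet_Nice _ _ _ _)
    (meas_geo v (F := fun p _ => ∑ i ∈ Finset.range M, Dd f c.m p i) fun _ => measurable_const)
    measurable_const

lemma measurable_ES (c : Bs) (f : Fd) (v : VV) (M : ℕ) (s : ℝ) : Measurable (ES c f v M s) := by
  exact Measurable.ite (measurableSet_Nice _ _ _ _)
    (meas_geo v (F := fun p X => ∑ i ∈ Finset.range M, |ex f c.m p X i|) fun p =>
      Finset.measurable_sum _ fun i _ => (measurable_ex f c.m p i).abs) measurable_const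

lemma DS_nonneg (c : Bs) (f : Fd) (v : VV) (M : ℕ) (s : ℝ) (X : Env) : 0 ≤ DS c f v M s X := by
  unfold DS
  split_ifs
  · exact Finset.sum_nonneg fun _ _ => NNReal.coe_nonneg _
  · exact le_rfl

lemma ES_nonneg (c : Bs) (f : Fd) (v : VV) (M : ℕ) (s : ℝ) (X : Env) : 0 ≤ ES c f v M s X := by
  unfold ES
  split_ifs
  · exact Finset.sum_nonneg fun _ _ => abs_nonneg _
  · exact le_rfl

lemma integrable_DS (c : Bs) (f : Fd) (v : VV) (M : ℕ) (s : ℝ) : Integrable (DS c f v M s) PE := by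
  obtain ⟨C, hC⟩ := trunc_bd (Lam v) fun w => ‖f.b (iv w) / c.m‖₊
  refine (integrable_const (∑ _i ∈ Finset.range M, (C : ℝ))).mono'
    (measurable_DS c f v M s).aestronglyMeasurable (ae_of_all _ fun X => ?_)
  rw [Real.norm_eq_abs, abs_of_nonneg (DS_nonneg c f v M s X)]
  unfold DS
  split_ifs
  · exact Finset.sum_le_sum fun i _ => NNReal.coe_le_coe.2 (Finset.sup_le fun k _ =>
      hC _ (geo_mem v X _ (SimpleGraph.Walk.getVert_mem_support _ _)) _
        (geo_mem v X _ (SimpleGraph.Walk.getVert_mem_support _ _)))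
  · positivity

lemma integrable_ES (c : Bs) (f : Fd) (v : VV) (M : ℕ) (s : ℝ) : Integrable (ES c f v M s) PE := by
  obtain ⟨C, hC⟩ := trunc_bd (Lam v) fun w => ‖f.L (iv w)‖₊
  refine (integrable_finsetSum (Finset.range M) fun _ _ =>
    (integrable_wt (Lam v).sym2).add (integrable_const (C : ℝ))).mono'
    (measurable_ES c f v M s).aestronglyMeasurable (ae_of_all _ fun X => ?_)
  rw [Real.norm_eq_abs, abs_of_nonneg (ES_nonneg c f v M s X)]
  unfold ES
  split_ifs
  · refine Finset.sum_le_sum fun i _ => (abs_sub _ _).trans (add_le_add ?_ ?_)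
    · rw [abs_of_nonneg (wt_nonneg _ _)]
      exact wt_mono X ((Eb_subset f c.m _ i).trans (es_subset_sym2 (geo_mem v X)))
    · exact NNReal.coe_le_coe.2 (hC _ (geo_mem v X _ (SimpleGraph.Walk.getVert_mem_support _ _)) _
        (geo_mem v X _ (SimpleGraph.Walk.getVert_mem_support _ _)))
  · exact Finset.sum_nonneg fun _ _ => add_nonneg (wt_nonneg _ _) C.coe_nonneg

lemma Flags.measurable_card (h : Flags c f v M s F) : Measurable fun ω => ((F ω).card : ℝ) := by
  have e : (fun ω => ((F ω).card : ℝ)) =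
      fun ω => ∑ i ∈ Finset.range M, if i ∈ F ω then (1 : ℝ) else 0 := funext fun ω => by
    rw [Finset.sum_boole, Finset.filter_mem_eq_inter,
      Finset.inter_eq_right.2 fun i hi => Finset.mem_range.2 (h.2 ω i hi).1]
  rw [e]
  exact Finset.measurable_sum _ fun i _ => Measurable.ite (h.1 i) measurable_const measurable_const

lemma Flags.integrable_card (h : Flags c f v M s F) :
    Integrable (fun ω => ((F ω).card : ℝ)) P2 := by
  refine (integrable_const (M : ℝ)).mono' h.measurable_card.aestronglyMeasurable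
    (ae_of_all _ fun ω => ?_)
  rw [Real.norm_eq_abs, abs_of_nonneg (Nat.cast_nonneg _), Nat.cast_le, ← Finset.card_range M]
  exact Finset.card_le_card fun i hi => Finset.mem_range.2 (h.2 ω i hi).1

lemma Flags.meas_Gam (h : Flags c f v M s F) (e : EE) :
    MeasurableSet {ω | e ∈ Gam f c.m v F ω} := by
  simp only [Gam, Finset.mem_biUnion]
  rw [ofPred_exists]
  exact MeasurableSet.iUnion fun i => (h.1 i).inter
    (measSet_geo2 v (F := fun p _ => e ∈ Eb f c.m p i) fun _ => MeasurableSet.const _)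

lemma Gam_subset (f : Fd) (m : ℝ) (v : VV) (F : Om → Finset ℕ) (ω : Om) :
    Gam f m v F ω ⊆ es (geo v ω.2) := by
  exact Finset.biUnion_subset.2 fun i _ => Eb_subset f m _ i

lemma Flags.rest (h : Flags c f v M s F) : Flags c f v M s (Rest c f v M s F) := by
  refine ⟨fun i => ?_, fun ω i hi => ?_⟩
  · have e : {ω | i ∈ Rest c f v M s F ω} =
        {ω : Om | Nice c.μ f.a v s ω.2} ∩ ({_ω | i < M} ∩ {ω | i ∈ F ω}ᶜ) := by
      ext ω
      by_cases hN : Nice c.μ f.a v s ω.2 <;> simp [Rest, hN]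
    rw [e]
    exact (measurable_snd (measurableSet_Nice _ _ _ _)).inter
      ((MeasurableSet.const _).inter (h.1 i).compl)
  · unfold Rest at hi
    split_ifs at hi with hN
    · exact ⟨Finset.mem_range.1 (Finset.mem_sdiff.1 hi).1, hN⟩
    · simp at hi

lemma Flags.filter (h : Flags c f v M s F) (Q : ℕ → Prop) [DecidablePred Q] :
    Flags c f v M s fun ω => (F ω).filter Q := by
  refine ⟨fun i => ?_, fun ω i hi => h.2 ω i (Finset.mem_filter.1 hi).1⟩
  simp only [Finset.mem_filter]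
  exact (h.1 i).inter (MeasurableSet.const _)

lemma meas_Odd (μ : ℝ × ℝ → ℝ) (a : ℝ × ℝ →ₗ[ℝ] ℝ) (v : VV) (s : ℝ) (e : EE) :
    MeasurableSet {ω | e ∈ Odd μ a v s ω} := by
  have e' : {ω | e ∈ Odd μ a v s ω} =
      {ω : Om | Nice μ a v s ω.2}ᶜ ∩ {ω : Om | e ∈ es (geo v ω.2)} := by
    ext ω
    by_cases hN : Nice μ a v s ω.2 <;> simp [Odd, hN]
  rw [e']
  exact (measurable_snd (measurableSet_Nice _ _ _ _)).compl.inter
    (measSet_geo2 v (F := fun p _ => e ∈ es p) fun _ => MeasurableSet.const _)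

lemma Odd_subset (μ : ℝ × ℝ → ℝ) (a : ℝ × ℝ →ₗ[ℝ] ℝ) (v : VV) (s : ℝ) (ω : Om) :
    Odd μ a v s ω ⊆ es (geo v ω.2) := by
  unfold Odd
  split_ifs
  · exact Finset.empty_subset _
  · exact Finset.Subset.refl _

end top

end Pool.Agent.Lib.MP_de94ef_pr.Q
end
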